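import Pool.Agent.H77.N2.Final
import Pool.Agent.H37.FB.Homog
import Pool.Agent.H60.FB.Prod

/-!
From the weights to the a priori estimate `Est`.
-/

open MvPolynomial Filter Topology MeasureTheory Pool.Agent.H77.FB Pool.Agent.H60.FB

namespace Pool.Agent.H77.N2

variable {n : ℕ}

/-- Every entire function of exponential type is the Fourier-Borel transform of an analytic
functional, with uniform bounds. -/
theorem borel_unif {B : ℝ} (hB : 0 < B) : ∃ R K : ℝ, ∀ (s : (Fin n → ℂ) → ℂ) (C : ℝ), 0 < C →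
    Differentiable ℂ s → (∀ z, ‖s z‖ ≤ C * Real.exp (B * ‖z‖)) →
    ∃ S : ((Fin n → ℂ) → ℂ) → ℂ, AnFunctional S ∧ (∀ z, fourierBorel S z = s z) ∧
      ∀ f, Differentiable ℂ f → ∀ A, (∀ z, ‖z‖ ≤ R → ‖f z‖ ≤ A) → ‖S f‖ ≤ K * (C * A) := by
  set R := 2 * B with hR
  have hR0 : 0 < R := by positivity
  have hBR : B ≤ R / 2 := by rw [hR]; linarith
  have hgc : (gc n : ℂ) ≠ 0 := by exact_mod_cast (gc_pos n).ne'
  have hπ : (2 * Real.pi : ℂ) ≠ 0 := by simp [Real.pi_ne_zero]
  set k : ℂ := (2 * Real.pi : ℂ)⁻¹ * (gc n : ℂ)⁻¹ with hk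
  refine ⟨R, ‖k‖ * ∫ p : ℝ × (Fin n → ℂ), Real.exp (-(1 / 2) * ∑ j, ‖p.2 j‖ ^ 2) ∂(mu n),
    fun s C hC hd hb => ?_⟩
  have hbd : ∀ f : (Fin n → ℂ) → ℂ, Differentiable ℂ f → ∀ A, (∀ z, ‖z‖ ≤ R → ‖f z‖ ≤ A) →
      ‖k * ∫ p, bj s R f p ∂(mu n)‖ ≤ ‖k‖ * (∫ p : ℝ × (Fin n → ℂ),
        Real.exp (-(1 / 2) * ∑ j, ‖p.2 j‖ ^ 2) ∂(mu n)) * (C * A) := by
    intro f hf A hA
    rw [norm_mul, mul_assoc]
    refine mul_le_mul_of_nonneg_left ?_ (norm_nonneg _)
    calc ‖∫ p, bj s R f p ∂(mu n)‖ ≤ ∫ p, C * A * Real.exp (-(1 / 2) * ∑ j, ‖p.2 j‖ ^ 2) ∂(mu n) :=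
          norm_integral_le_of_norm_le (integrable_bd.const_mul (C * A))
            (Filter.Eventually.of_forall fun p => norm_bj_le hC.le hR0 hBR hb hA p)
      _ = _ := by rw [integral_const_mul]; ring
  refine ⟨fun f => k * ∫ p, bj s R f p ∂(mu n), ⟨?_, ?_, ?_⟩, ?_, hbd⟩
  · intro f g hf hg
    have h1 := integrable_bj hC.le hR0 hBR hd.continuous hb hf.continuous
    have h2 := integrable_bj hC.le hR0 hBR hd.continuous hb hg.continuous
    have h3 : ∀ p, bj s R (fun z => f z + g z) p = bj s R f p + bj s R g p := by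
      intro p
      unfold bj
      ring
    simp only [h3]
    rw [integral_add h1 h2, mul_add]
  · intro c f _
    have h1 : ∀ p, bj s R (fun z => c * f z) p = c * bj s R f p := by
      intro p
      unfold bj
      ring
    simp only [h1]
    rw [integral_const_mul]
    ring
  · refine ⟨R, ‖k‖ * (∫ p : ℝ × (Fin n → ℂ),
      Real.exp (-(1 / 2) * ∑ j, ‖p.2 j‖ ^ 2) ∂(mu n)) * C, fun f hf A hA => ?_⟩
    refine (hbd f hf A hA).trans (le_of_eq ?_)
    ring
  · intro z
    have h1 := bj_expo hd hC hR0 hBR hB hb z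
    change k * ∫ p, bj s R (expo z).1 p ∂(mu n) = s z
    rw [h1, hk]
    field_simp

/-- The composition of an analytic functional with `Q(D)`. -/
lemma isAF_QDE {T : Ent n →ₗ[ℂ] ℂ} (hT : IsAF T) (Q : MvPolynomial (Fin n) ℂ) :
    IsAF (T.comp (QDE Q)) := by
  obtain ⟨R, K, hK⟩ := hT
  refine ⟨R + Q.totalDegree, K * ∑ s ∈ Q.support, ‖Q.coeff s‖, fun f A hA => ?_⟩
  rw [mul_assoc]
  exact hK (QDE Q f) _ fun z hz => QDE_bound Q f R A hA z hz

/-- The composition of an analytic functional with the multiplication by a polynomial. -/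
lemma isAF_mulEnt {T : Ent n →ₗ[ℂ] ℂ} (hT : IsAF T) (P : MvPolynomial (Fin n) ℂ) :
    IsAF (T.comp (mulEnt P)) := by
  obtain ⟨R, K, hK⟩ := hT
  obtain ⟨M, hM⟩ := (isCompact_closedBall (0 : Fin n → ℂ) R).exists_bound_of_continuousOn
    (f := fun z => eval z P) (differentiable_eval P).continuous.continuousOn
  refine ⟨R, K * max M 0, fun f A hA => ?_⟩
  rw [mul_assoc]
  refine hK (mulEnt P f) _ fun z hz => ?_
  change ‖eval z P * f.1 z‖ ≤ _
  rw [norm_mul]
  exact mul_le_mul ((hM z (by simpa using hz)).trans (le_max_left _ _)) (hA z hz)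
    (norm_nonneg _) (le_max_right _ _)

/-- The a priori estimate from the weights of `P*`. -/
theorem est_of_weights (P : MvPolynomial (Fin n) ℂ) (hP : P ≠ 0)
    (h : ∃ (Φ : ℝ → ℝ → (Fin n → ℂ) → ℝ) (B₁ : ℝ), Weights (star' P) Φ B₁) : Est P := by
  obtain ⟨Φ, B₁, hW⟩ := h
  intro ρ
  have hstar : star' P ≠ 0 := by
    intro h0
    apply hP
    rw [← star_star P, h0]
    refine MvPolynomial.funext fun z => ?_
    rw [eval_star']
    simp
  obtain ⟨M, hM⟩ := (isCompact_closedBall (0 : Fin n → ℂ) ρ).exists_bound_of_continuousOn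
    (f := fun z => eval z P) (differentiable_eval P).continuous.continuousOn
  set A₀ : ℝ := max M 0 + 1 with hA₀
  have hA₀0 : 0 < A₀ := by have := le_max_right M 0; linarith
  obtain ⟨c, hc, hF⟩ := fock_solve (star' P) hstar (n * ρ)
  obtain ⟨B', C', hmain⟩ := main_est hW (n * ρ) c hc
  set B : ℝ := max B' 1 with hB
  have hB0 : 0 < B := lt_of_lt_of_le one_pos (le_max_right _ _)
  obtain ⟨R, K, hRK⟩ := borel_unif (n := n) hB0
  set C₁ : ℝ := max (C' * A₀) 1 with hC₁
  have hC₁0 : 0 < C₁ := lt_of_lt_of_le one_pos (le_max_right _ _)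
  refine ⟨R, K * C₁, fun f hf A hA z hz => ?_⟩
  -- the right side
  set r : (Fin n → ℂ) → ℂ := fun w => eval z P * (expo z).1 w with hr
  have hrd : Differentiable ℂ r := (expo z).2.const_mul _
  have hrb : ∀ w, ‖r w‖ ≤ A₀ * Real.exp (n * ρ * ‖w‖) := by
    intro w
    have h1 := Pool.Agent.H77.FB.norm_expo_le z w
    rw [hr]
    simp only
    rw [norm_mul]
    refine mul_le_mul ?_ (h1.trans (Real.exp_le_exp.2 ?_)) (norm_nonneg _) hA₀0.le
    · have := hM z (by simpa using hz)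
      have h2 := le_max_left M 0
      linarith
    · have := norm_nonneg w
      have h3 : (n : ℝ) * ‖w‖ * ‖z‖ ≤ n * ‖w‖ * ρ := by gcongr
      linarith
  obtain ⟨s, hs, hTs, hsb⟩ := hF r A₀ hrd hrb
  have hsexp := hmain s A₀ hs hsb (fun w => by rw [hTs]; exact hrb w)
  obtain ⟨S, hS, hSs, hSb⟩ := hRK s C₁ hC₁0 hs (fun w => (hsexp w).trans (by
    refine mul_le_mul (le_max_left _ _) (Real.exp_le_exp.2 ?_) (Real.exp_pos _).le hC₁0.le
    exact mul_le_mul_of_nonneg_right (le_max_left _ _) (norm_nonneg _)))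
  have hSAF := bund_isAF hS
  -- the two functionals
  set S' : Ent n →ₗ[ℂ] ℂ := (bund hS).comp (QDE (star' P)) with hS'
  have hS'AF : IsAF S' := isAF_QDE hSAF (star' P)
  have hS's : ∀ w, S' (expo w) = eval w (star' P) * s w := by
    intro w
    have h1 : S' (expo w) = (bund hS) (QDE (star' P) (expo w)) := rfl
    have h2 : (bund hS) (expo w) = s w := hSs w
    rw [h1, QDE_expo, map_smul, h2, smul_eq_mul]
  set E : Ent n →ₗ[ℂ] ℂ :=
    { toFun := fun g => g.1 z
      map_add' := fun _ _ => rfl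
      map_smul' := fun _ _ => rfl } with hE
  have hEAF : IsAF E := ⟨ρ, 1, fun g A hA => by rw [one_mul]; exact hA z hz⟩
  have hzero : E.comp (mulEnt P) - S'.comp (mulEnt P) = 0 := by
    have hAF : IsAF (E.comp (mulEnt P) - S'.comp (mulEnt P)) := by
      obtain ⟨R₁, K₁, h₁⟩ := isAF_mulEnt hEAF P
      obtain ⟨R₂, K₂, h₂⟩ := isAF_mulEnt hS'AF P
      refine ⟨max R₁ R₂, K₁ + K₂, fun g A hA => ?_⟩
      rw [LinearMap.sub_apply, add_mul]
      refine (norm_sub_le _ _).trans (add_le_add ?_ ?_)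
      · exact h₁ g A fun w hw => hA w (hw.trans (le_max_left _ _))
      · exact h₂ g A fun w hw => hA w (hw.trans (le_max_right _ _))
    refine eq_zero_of_borel hAF fun w => ?_
    rw [LinearMap.sub_apply]
    have h1 : (E.comp (mulEnt P)) (expo w) = eval z P * (expo w).1 z := rfl
    have h2 : (S'.comp (mulEnt P)) (expo w) = S' (mulEnt P (expo w)) := rfl
    have hsym : (expo z).1 w = (expo w).1 z := by
      change Complex.exp (∑ j, w j * z j) = Complex.exp (∑ j, z j * w j)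
      congr 1
      exact Finset.sum_congr rfl fun j _ => mul_comm _ _
    rw [h1, h2, borel_mul hS'AF]
    have h3 : (⟨fun z => S' (expo z), (borel_mem hS'AF).1⟩ : Ent n)
        = mulEnt (star' P) ⟨s, hs⟩ := by
      apply Subtype.ext
      funext w
      exact hS's w
    rw [h3]
    have h4 : (QDE P (mulEnt (star' P) ⟨s, hs⟩)).1 w = r w := by
      have h5 := hTs w
      unfold TT at h5
      rw [star_star] at h5
      rw [QDE_eq]
      exact h5
    rw [h4, hr]
    simp only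
    rw [hsym, sub_self]
  have hkey : eval z P * f z = S (fun w => QD (star' P) 1 (fun z => eval z P * f z) w) := by
    have h1 := congrArg (fun L : Ent n →ₗ[ℂ] ℂ => L ⟨f, hf⟩) hzero
    have h2 : E (mulEnt P ⟨f, hf⟩) - (bund hS) (QDE (star' P) (mulEnt P ⟨f, hf⟩)) = 0 := h1
    have h3 : (bund hS) (QDE (star' P) (mulEnt P ⟨f, hf⟩))
        = S (fun w => QD (star' P) 1 (fun z => eval z P * f z) w) := by
      change S (QDE (star' P) (mulEnt P ⟨f, hf⟩)).1 = _
      congr 1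
      funext w
      exact QDE_eq (star' P) (mulEnt P ⟨f, hf⟩) w
    rw [h3] at h2
    exact sub_eq_zero.1 h2
  rw [hkey]
  have hd : Differentiable ℂ (fun w => QD (star' P) 1 (fun z => eval z P * f z) w) := by
    have h1 := (QDE (star' P) (mulEnt P ⟨f, hf⟩)).2
    have h2 : (QDE (star' P) (mulEnt P ⟨f, hf⟩)).1
        = fun w => QD (star' P) 1 (fun z => eval z P * f z) w := by
      funext w
      exact QDE_eq (star' P) (mulEnt P ⟨f, hf⟩) w
    rw [← h2]
    exact h1
  refine (hSb _ hd A hA).trans (le_of_eq ?_)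
  ring

end Pool.Agent.H77.N2
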