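import Pool.Agent.H77.N2.Ultra
import Pool.Agent.H60.FB.Per

/-!
The main estimate of MP_6e521b_an from the weights: first the blow-up argument.
-/

open MvPolynomial Filter Topology Pool.Agent.H77.FB Pool.Agent.H60.FB

namespace Pool.Agent.H77.N2

variable {n : ℕ}

/-- The shifted polynomial. -/
noncomputable def shf (b : Fin n → ℂ) (P : MvPolynomial (Fin n) ℂ) : MvPolynomial (Fin n) ℂ :=
  aeval (fun i => X i + C (b i)) P

lemma eval_shf (b w : Fin n → ℂ) (P : MvPolynomial (Fin n) ℂ) :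
    eval w (shf b P) = eval (b + w) P := by
  unfold shf
  rw [eval_aeval_lin]
  congr 2
  funext i
  simp [add_comm]

lemma totalDegree_shf (b : Fin n → ℂ) (P : MvPolynomial (Fin n) ℂ) :
    (shf b P).totalDegree ≤ P.totalDegree := by
  refine totalDegree_aeval_lin P _ fun j => ?_
  refine (totalDegree_add _ _).trans (max_le ?_ ?_)
  · exact (totalDegree_X _).le
  · simp

lemma exists_exps (n m : ℕ) : ∃ E : Finset (Fin n →₀ ℕ), ∀ Q : MvPolynomial (Fin n) ℂ,
    Q.totalDegree ≤ m → Q.support ⊆ E := by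
  have h1 : {s : Fin n →₀ ℕ | s.degree ≤ m}.Finite := Finsupp.finite_of_degree_le m
  refine ⟨h1.toFinset, fun Q hQ s hs => ?_⟩
  rw [Set.Finite.mem_toFinset]
  have h2 := le_totalDegree hs
  have h3 : s.sum (fun _ e => e) = s.degree := rfl
  simp only [Set.mem_ofPred_eq]
  omega

lemma QD_eq_sum {Q : MvPolynomial (Fin n) ℂ} {E : Finset (Fin n →₀ ℕ)} (h : Q.support ⊆ E)
    (f : (Fin n → ℂ) → ℂ) (z : Fin n → ℂ) :
    QD Q 1 f z = ∑ s ∈ E, Q.coeff s * DL (ls s) f z := by
  unfold QD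
  have h1 : ∀ s ∈ Q.support, Q.coeff s * ((1 : ℝ) : ℂ) ^ s.degree * DL (ls s) f z
      = Q.coeff s * DL (ls s) f z := by
    intro s _
    simp
  rw [Finset.sum_congr rfl h1]
  refine Finset.sum_subset h fun s _ hs => ?_
  rw [notMem_support_iff.1 hs, zero_mul]

lemma eval_eq_sum {Q : MvPolynomial (Fin n) ℂ} {E : Finset (Fin n →₀ ℕ)} (h : Q.support ⊆ E)
    (z : Fin n → ℂ) : eval z Q = ∑ s ∈ E, Q.coeff s * ∏ i, z i ^ s i := by
  rw [eval_eq']
  refine Finset.sum_subset h fun s _ hs => ?_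
  rw [notMem_support_iff.1 hs, zero_mul]

/-- The blow-up argument. -/
lemma core {P : MvPolynomial (Fin n) ℂ} (𝒰 : Ultrafilter ℕ) (b Y : ℕ → Fin n → ℂ)
    (hgood : GoodSeq P 𝒰 b Y) (h : ℕ → (Fin n → ℂ) → ℂ) (hd : ∀ k, Differentiable ℂ (h k))
    (hb0 : ∀ k, h k (b k) ≠ 0)
    (hloc : ∀ R : ℝ, ∃ C : ℝ, ∀ᶠ k in (𝒰 : Filter ℕ), ∀ w, ‖w‖ ≤ R →
      ‖h k (b k + w)‖ * Real.exp (-(dt (Y k) w).re) ≤ C * ‖h k (b k)‖)
    (hT : ∀ z, Tendsto (fun k => ‖TT P (h k) (b k + z)‖ * Real.exp (-(dt (Y k) z).re)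
      / ‖h k (b k)‖) 𝒰 (𝓝 0)) : False := by
  obtain ⟨p, q, ν, μ, c, hc, hνμ, hp, hq, hinj⟩ := hgood
  -- the functions `f_k`
  set f : ℕ → (Fin n → ℂ) → ℂ := fun k w =>
    h k (b k + w) * Complex.exp (-dt (Y k) w) / h k (b k) with hf
  have hdt : ∀ Y : Fin n → ℂ, Differentiable ℂ (fun w => dt Y w) := by
    intro Y
    unfold dt
    fun_prop
  have hfd : ∀ k, Differentiable ℂ (f k) := by
    intro k
    have h1 : Differentiable ℂ (fun w => h k (b k + w)) :=
      (hd k).comp (differentiable_id.const_add (b k))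
    have h2 : Differentiable ℂ (fun w => Complex.exp (-dt (Y k) w)) :=
      Differentiable.cexp (Differentiable.fun_neg (hdt (Y k)))
    have h3 : Differentiable ℂ (fun w => h k (b k + w) * Complex.exp (-dt (Y k) w)) :=
      Differentiable.fun_mul h1 h2
    have h4 : Differentiable ℂ (fun w => h k (b k + w) * Complex.exp (-dt (Y k) w)
        * (h k (b k))⁻¹) := Differentiable.fun_mul h3 (differentiable_const _)
    simpa only [hf, div_eq_mul_inv] using h4
  have hfn : ∀ k w, ‖f k w‖ = ‖h k (b k + w)‖ * Real.exp (-(dt (Y k) w).re) / ‖h k (b k)‖ := by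
    intro k w
    rw [hf]
    simp only [norm_div, norm_mul, Complex.norm_exp, Complex.neg_re]
  have hfb : ∀ R : ℝ, ∃ C : ℝ, ∀ᶠ k in (𝒰 : Filter ℕ), ∀ w, ‖w‖ ≤ R → ‖f k w‖ ≤ C := by
    intro R
    obtain ⟨C, hC⟩ := hloc R
    refine ⟨C, hC.mono fun k hk w hw => ?_⟩
    rw [hfn, div_le_iff₀ (norm_pos_iff.2 (hb0 k))]
    exact hk w hw
  obtain ⟨F, hF, hFL⟩ := ultra_lim 𝒰 f hfd hfb
  have hF0 : F 0 = 1 := by
    have h1 := hFL [] 0
    have h2 : (fun k => DL [] (f k) 0) = fun _ => (1 : ℂ) := by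
      funext k
      change f k 0 = 1
      rw [hf]
      simp [dt, div_self (hb0 k)]
    rw [h2] at h1
    exact (tendsto_nhds_unique h1 tendsto_const_nhds)
  -- the normalised polynomials
  set m := max P.totalDegree (star' P).totalDegree with hm
  set Pk : ℕ → MvPolynomial (Fin n) ℂ := fun k => C (ν k)⁻¹ * shf (b k) P with hPk
  set Qk : ℕ → MvPolynomial (Fin n) ℂ := fun k => C (μ k)⁻¹ * shf (Y k) (star' P) with hQk
  have hPke : ∀ k w, eval w (Pk k) = eval (b k + w) P / ν k := by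
    intro k w
    rw [hPk]
    simp only [map_mul, eval_C, eval_shf]
    rw [div_eq_mul_inv, mul_comm]
  have hQke : ∀ k w, eval w (Qk k) = eval (Y k + w) (star' P) / μ k := by
    intro k w
    rw [hQk]
    simp only [map_mul, eval_C, eval_shf]
    rw [div_eq_mul_inv, mul_comm]
  have hPkd : ∀ k, (Pk k).totalDegree ≤ m := by
    intro k
    refine (totalDegree_mul _ _).trans ?_
    rw [totalDegree_C, zero_add]
    exact (totalDegree_shf _ _).trans (le_max_left _ _)
  have hQkd : ∀ k, (Qk k).totalDegree ≤ m := by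
    intro k
    refine (totalDegree_mul _ _).trans ?_
    rw [totalDegree_C, zero_add]
    exact (totalDegree_shf _ _).trans (le_max_right _ _)
  have hPc := coef_tendsto 𝒰 Pk p m hPkd (by simpa only [hPke] using hp)
  have hQc := coef_tendsto 𝒰 Qk q m hQkd (by simpa only [hQke] using hq)
  obtain ⟨E, hE⟩ := exists_exps n (max m (max p.totalDegree q.totalDegree))
  have hEP : ∀ k, (Pk k).support ⊆ E := fun k => hE _ ((hPkd k).trans (le_max_left _ _))
  have hEQ : ∀ k, (Qk k).support ⊆ E := fun k => hE _ ((hQkd k).trans (le_max_left _ _))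
  have hEq : q.support ⊆ E := hE _ ((le_max_right _ _).trans (le_max_right _ _))
  have hEp : p.support ⊆ E := hE _ ((le_max_left _ _).trans (le_max_right _ _))
  -- the functions `g_k = P_k f_k`
  set g : ℕ → (Fin n → ℂ) → ℂ := fun k w => eval w (Pk k) * f k w with hg
  have hgd : ∀ k, Differentiable ℂ (g k) := fun k => (differentiable_eval _).mul (hfd k)
  have hcb : ∃ A : ℝ, ∀ᶠ k in (𝒰 : Filter ℕ), ∀ s ∈ E, ‖(Pk k).coeff s‖ ≤ A := by
    refine ⟨∑ s ∈ E, (‖p.coeff s‖ + 1), ?_⟩
    rw [Filter.eventually_all_finset]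
    intro s hs
    have h1 : ∀ᶠ k in (𝒰 : Filter ℕ), ‖(Pk k).coeff s‖ < ‖p.coeff s‖ + 1 :=
      (hPc s).norm.eventually_lt_const (lt_add_one _)
    filter_upwards [h1] with k hk
    refine hk.le.trans ?_
    exact Finset.single_le_sum (f := fun s => ‖p.coeff s‖ + 1) (fun i _ => by positivity) hs
  have hgb : ∀ R : ℝ, ∃ C : ℝ, ∀ᶠ k in (𝒰 : Filter ℕ), ∀ w, ‖w‖ ≤ R → ‖g k w‖ ≤ C := by
    intro R
    obtain ⟨A, hA⟩ := hcb
    obtain ⟨B, hB⟩ := hfb R
    obtain ⟨W, hW⟩ := (isCompact_closedBall (0 : Fin n → ℂ) R).exists_bound_of_continuousOn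
      (f := fun w => ∑ s ∈ E, ‖∏ i, w i ^ s i‖)
      (by fun_prop)
    refine ⟨(A * max W 0) * max B 0, ?_⟩
    filter_upwards [hA, hB] with k hAk hBk w hw
    have h1 : ‖eval w (Pk k)‖ ≤ A * max W 0 := by
      rw [eval_eq_sum (hEP k)]
      refine (norm_sum_le _ _).trans ?_
      have h2 : ∀ s ∈ E, ‖(Pk k).coeff s * ∏ i, w i ^ s i‖ ≤ A * ‖∏ i, w i ^ s i‖ := by
        intro s hs
        rw [norm_mul]
        exact mul_le_mul_of_nonneg_right (hAk s hs) (norm_nonneg _)
      refine (Finset.sum_le_sum h2).trans ?_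
      rw [← Finset.mul_sum]
      have h3 := hW w (by simpa using hw)
      rw [Real.norm_of_nonneg (Finset.sum_nonneg fun _ _ => norm_nonneg _)] at h3
      rcases E.eq_empty_or_nonempty with hE0 | ⟨s, hs⟩
      · simp only [hE0, Finset.sum_empty, mul_zero]
        have hA0 : 0 ≤ A ∨ A < 0 := le_or_gt 0 A
        rcases hA0 with h4 | h4
        · positivity
        · -- `E` is empty: then every polynomial of small degree is zero
          exfalso
          have h5 : (1 : MvPolynomial (Fin n) ℂ).support ⊆ E := hE 1 (by simp)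
          rw [hE0] at h5
          have h6 : (1 : MvPolynomial (Fin n) ℂ).support = ∅ := Finset.subset_empty.1 h5
          rw [support_eq_empty] at h6
          exact one_ne_zero h6
      · have hA0 : 0 ≤ A := (norm_nonneg _).trans (hAk s hs)
        exact mul_le_mul_of_nonneg_left (h3.trans (le_max_left _ _)) hA0
    rw [hg]
    simp only [norm_mul]
    refine mul_le_mul h1 ((hBk w hw).trans (le_max_left _ _)) (norm_nonneg _) ?_
    exact (norm_nonneg _).trans h1
  obtain ⟨G, hG, hGL⟩ := ultra_lim 𝒰 g hgd hgb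
  have hGF : G = fun z => eval z p * F z := by
    funext z
    have h1 : Tendsto (fun k => g k z) 𝒰 (𝓝 (G z)) := hGL [] z
    have h2 : Tendsto (fun k => g k z) 𝒰 (𝓝 (eval z p * F z)) := by
      have h3 : Tendsto (fun k => f k z) 𝒰 (𝓝 (F z)) := hFL [] z
      have h4 := (hp z).mul h3
      refine h4.congr fun k => ?_
      rw [hg]
      simp only [hPke]
    exact tendsto_nhds_unique h1 h2
  -- the equation in the limit
  have hkey : ∀ z, QD q 1 (fun z => eval z p * F z) z = 0 := by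
    intro z
    rw [← hGF]
    have h1 : Tendsto (fun k => QD (Qk k) 1 (g k) z) 𝒰 (𝓝 (QD q 1 G z)) := by
      simp only [QD_eq_sum (hEQ _)]
      rw [QD_eq_sum hEq]
      exact tendsto_finsetSum _ fun s _ => (hQc s).mul (hGL (ls s) z)
    have h2 : ∀ k, ν k ≠ 0 → μ k ≠ 0 → QD (Qk k) 1 (g k) z = (ν k)⁻¹ * (μ k)⁻¹ * (h k (b k))⁻¹ *
        Complex.exp (-dt (Y k) z) * TT P (h k) (b k + z) := by
      intro k hν hμ
      have hsh : ∀ w, eval w (shf (Y k) (star' P)) = eval (Y k + w) (star' P) := fun w =>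
        eval_shf _ _ _
      have hPh : Differentiable ℂ (fun z => eval z P * h k z) := (differentiable_eval P).mul (hd k)
      have hf' : Differentiable ℂ (fun w => eval (b k + w) P * (h k (b k) * f k w)) := by
        refine Differentiable.mul ?_ ((hfd k).const_mul _)
        exact (differentiable_eval P).comp (differentiable_id.const_add (b k))
      have h3 := conj_shift (star' P) (shf (Y k) (star' P)) (b k) (Y k) hsh hPh hf' (fun w => by
        rw [hf]
        simp only
        rw [Complex.exp_neg]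
        field_simp [hb0 k, Complex.exp_ne_zero]) z
      change TT P (h k) (b k + z) = _ at h3
      rw [h3]
      have h4 : QD (Qk k) 1 (g k) z = (μ k)⁻¹ * QD (shf (Y k) (star' P)) 1 (g k) z := by
        rw [QD_eq_sum (hEQ k), QD_eq_sum (Q := shf (Y k) (star' P)) (E := E)
          (hE _ (((totalDegree_shf _ _).trans (le_max_right _ _)).trans (le_max_left _ _))),
          Finset.mul_sum]
        refine Finset.sum_congr rfl fun s _ => ?_
        rw [hQk]
        simp only [coeff_C_mul]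
        ring
      have h5 : QD (shf (Y k) (star' P)) 1 (fun w => eval (b k + w) P * (h k (b k) * f k w)) z
          = ν k * h k (b k) * QD (shf (Y k) (star' P)) 1 (g k) z := by
        have h6 : (⟨fun w => eval (b k + w) P * (h k (b k) * f k w), hf'⟩ : Ent n)
            = (ν k * h k (b k)) • (⟨g k, hgd k⟩ : Ent n) := by
          apply Subtype.ext
          funext w
          change eval (b k + w) P * (h k (b k) * f k w) = ν k * h k (b k) * (eval w (Pk k) * f k w)
          rw [hPke]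
          field_simp
        have h7 := congrArg (fun u : Ent n => (QDE (shf (Y k) (star' P)) u).1 z) h6
        simp only [map_smul] at h7
        rw [QDE_eq] at h7
        rw [h7]
        change ν k * h k (b k) * (QDE (shf (Y k) (star' P)) ⟨g k, hgd k⟩).1 z = _
        rw [QDE_eq]
      rw [h5, h4, Complex.exp_neg]
      field_simp [hb0 k, Complex.exp_ne_zero]
    have h3 : Tendsto (fun k => QD (Qk k) 1 (g k) z) 𝒰 (𝓝 0) := by
      rw [tendsto_zero_iff_norm_tendsto_zero]
      have h4 := (hT z).const_mul (c⁻¹ * c⁻¹)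
      rw [mul_zero] at h4
      refine squeeze_zero' (Eventually.of_forall fun _ => norm_nonneg _) ?_ h4
      filter_upwards [hνμ] with k hk
      have hν : ν k ≠ 0 := norm_pos_iff.1 (hc.trans_le hk.1)
      have hμ : μ k ≠ 0 := norm_pos_iff.1 (hc.trans_le hk.2)
      rw [h2 k hν hμ]
      simp only [norm_mul, norm_inv, Complex.norm_exp, Complex.neg_re]
      have e1 : ‖ν k‖⁻¹ ≤ c⁻¹ := inv_anti₀ hc hk.1
      have e2 : ‖μ k‖⁻¹ ≤ c⁻¹ := inv_anti₀ hc hk.2
      have e3 : ‖ν k‖⁻¹ * ‖μ k‖⁻¹ ≤ c⁻¹ * c⁻¹ :=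
        mul_le_mul e1 e2 (by positivity) (by positivity)
      calc ‖ν k‖⁻¹ * ‖μ k‖⁻¹ * ‖h k (b k)‖⁻¹ * Real.exp (-(dt (Y k) z).re)
            * ‖TT P (h k) (b k + z)‖
          = ‖ν k‖⁻¹ * ‖μ k‖⁻¹ * (‖TT P (h k) (b k + z)‖ * Real.exp (-(dt (Y k) z).re)
              / ‖h k (b k)‖) := by
            rw [div_eq_mul_inv]
            ring
        _ ≤ _ := mul_le_mul_of_nonneg_right e3 (by positivity)
    exact tendsto_nhds_unique h1 h3
  have h1 := hinj F hF hkey 0
  rw [hF0] at h1
  exact one_ne_zero h1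

end Pool.Agent.H77.N2
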