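import Pool.Agent.H77.N2.Defs
import Pool.Agent.H37.FB.Homog
import Pool.Agent.H60.FB.Prod

/-!
Module INJP of MP_6e521b_an (n = 2): injective pairs (helper6).

* `injPair_far`: `QD 1 1 f z = f z`, so `eval z p * F z = 0` for all `z`, and `F = 0` since the
  complement of the zero set of `p` is dense (restriction to a line).
* `injPair_block`: `p₀(z) = ∏ (e₀ z₁ - e₁ z₀ - a_i)` satisfies the estimate `Est` (every critical
  point of its leading form is a period), so `p₀*(D)(p₀ H) = 0` implies `p₀ H = 0`; the shifts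
  `v, c` are removed with a translation and an exponential factor.
-/

open MvPolynomial Filter Topology Pool.Agent.H77.FB Pool.Agent.H60.FB

namespace Pool.Agent.H77.N2

/-- An entire function annihilated by a nonzero polynomial vanishes. -/
lemma ijEval_mul {n : ℕ} (p : MvPolynomial (Fin n) ℂ) (hp : p ≠ 0)
    (F : (Fin n → ℂ) → ℂ) (hF : Continuous F) (h : ∀ z, eval z p * F z = 0) :
    ∀ z, F z = 0 := by
  obtain ⟨v, hv⟩ : ∃ v : Fin n → ℂ, eval v p ≠ 0 := by
    by_contra hne
    push Not at hne
    exact hp (MvPolynomial.funext fun z => by rw [hne, map_zero])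
  intro z
  -- the restriction of `p` to a line
  set r : Polynomial ℂ :=
    aeval (fun i => Polynomial.C (z i) + Polynomial.X * Polynomial.C (v i - z i)) p with hr
  have hre : ∀ t : ℂ, r.eval t = eval (fun i => z i + t * (v i - z i)) p := by
    intro t
    have h1 : r.eval t = Polynomial.evalRingHom t (aeval
        (fun i => Polynomial.C (z i) + Polynomial.X * Polynomial.C (v i - z i)) p) := rfl
    rw [h1, MvPolynomial.aeval_def, MvPolynomial.hom_eval₂]
    have h2 : (Polynomial.evalRingHom t).comp (algebraMap ℂ (Polynomial ℂ)) = RingHom.id ℂ := by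
      ext c
      simp
    rw [h2]
    change eval₂ (RingHom.id ℂ) _ p = eval₂ (RingHom.id ℂ) _ p
    congr 1
    funext i
    simp
  have hr0 : r ≠ 0 := by
    intro h0
    apply hv
    have h1 := hre 1
    rw [h0, Polynomial.eval_zero] at h1
    rw [h1]
    congr 2
    funext i
    ring
  have hcont : Continuous (fun t : ℂ => F (fun i => z i + t * (v i - z i))) := by
    refine hF.comp ?_
    fun_prop
  have hev : ∀ᶠ t in 𝓝[≠] (0 : ℂ), F (fun i => z i + t * (v i - z i)) = 0 := by
    have h1 : ∀ᶠ t in 𝓝[≠] (0 : ℂ), t ∉ (r.roots.toFinset : Set ℂ) \ {0} := by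
      have h2 : ((r.roots.toFinset : Set ℂ) \ {0})ᶜ ∈ 𝓝 (0 : ℂ) := by
        refine IsOpen.mem_nhds ?_ (by simp)
        exact ((Finset.finite_toSet _).subset Set.sdiff_subset).isClosed.isOpen_compl
      exact mem_nhdsWithin_of_mem_nhds h2
    filter_upwards [h1, self_mem_nhdsWithin] with t ht ht0
    have h3 := h (fun i => z i + t * (v i - z i))
    rw [← hre] at h3
    rcases mul_eq_zero.1 h3 with h4 | h4
    · exact absurd ⟨by simpa [hr0] using h4, ht0⟩ ht
    · exact h4
  have hlim : Tendsto (fun t : ℂ => F (fun i => z i + t * (v i - z i))) (𝓝[≠] 0)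
      (𝓝 (F z)) := by
    have h1 := (hcont.tendsto 0).mono_left (nhdsWithin_le_nhds (s := {0}ᶜ))
    have h2 : (fun i => z i + (0 : ℂ) * (v i - z i)) = z := by
      funext i
      ring
    rw [h2] at h1
    exact h1
  exact (tendsto_nhds_unique (hlim.congr' hev) tendsto_const_nhds)

theorem injPair_far {n : ℕ} (p : MvPolynomial (Fin n) ℂ) (hp : p ≠ 0) : InjPair p 1 := by
  intro F hF h
  refine ijEval_mul p hp F hF.continuous fun z => ?_
  have h1 := h z
  rw [← MvPolynomial.C_1, QD_C one_ne_zero, one_mul] at h1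
  exact h1

/-- The product of the linear polynomials. -/
noncomputable def ijLin (e : Fin 2 → ℂ) : MvPolynomial (Fin 2) ℂ := C (e 0) * X 1 - C (e 1) * X 0

lemma ijLin_homog (e : Fin 2 → ℂ) : (ijLin e).IsHomogeneous 1 := by
  unfold ijLin
  refine IsHomogeneous.sub ?_ ?_
  · exact (isHomogeneous_C_mul_X _ _)
  · exact (isHomogeneous_C_mul_X _ _)

lemma ijProd_split (e : Fin 2 → ℂ) {d : ℕ} (a : Fin d → ℂ) (I : Finset (Fin d)) :
    ∃ R : MvPolynomial (Fin 2) ℂ, (∏ i ∈ I, (ijLin e + C (a i))) = ijLin e ^ I.card + R ∧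
      (R = 0 ∨ R.totalDegree < I.card) := by
  classical
  induction I using Finset.induction_on with
  | empty => exact ⟨0, by simp, Or.inl rfl⟩
  | insert j s hj ih =>
    obtain ⟨R, h1, h2⟩ := ih
    refine ⟨ijLin e * R + C (a j) * (ijLin e ^ s.card + R), ?_, Or.inr ?_⟩
    · rw [Finset.prod_insert hj, h1, Finset.card_insert_of_notMem hj]
      ring
    · rw [Finset.card_insert_of_notMem hj]
      have hl : (ijLin e).totalDegree ≤ 1 := (ijLin_homog e).totalDegree_le
      have hR : (ijLin e * R).totalDegree ≤ s.card := by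
        rcases h2 with h2 | h2
        · rw [h2, mul_zero, totalDegree_zero]
          exact Nat.zero_le _
        · refine (totalDegree_mul _ _).trans ?_
          omega
      have hS : (C (a j) * (ijLin e ^ s.card + R)).totalDegree ≤ s.card := by
        refine (totalDegree_mul _ _).trans ?_
        rw [totalDegree_C, zero_add]
        refine (totalDegree_add _ _).trans (max_le ?_ ?_)
        · refine (totalDegree_pow _ _).trans ?_
          calc s.card * (ijLin e).totalDegree ≤ s.card * 1 := Nat.mul_le_mul_left _ hl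
            _ = s.card := mul_one _
        · rcases h2 with h2 | h2
          · rw [h2, totalDegree_zero]
            exact Nat.zero_le _
          · exact h2.le
      exact Nat.lt_succ_of_le ((totalDegree_add _ _).trans (max_le hR hS))

lemma ijLin_ne_zero (e : Fin 2 → ℂ) (he : e 0 ≠ 0 ∨ e 1 ≠ 0) : ijLin e ≠ 0 := by
  intro h0
  rcases he with he | he
  · have h1 := congrArg (eval ![0, 1]) h0
    simp [ijLin] at h1
    exact he h1
  · have h1 := congrArg (eval ![1, 0]) h0
    simp [ijLin] at h1
    exact he h1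

lemma ijEst_block (e : Fin 2 → ℂ) (he : e 0 ≠ 0 ∨ e 1 ≠ 0) {d : ℕ} (a : Fin d → ℂ)
    (I : Finset (Fin d)) : Est (∏ i ∈ I, (ijLin e + C (a i))) := by
  classical
  obtain ⟨R, h1, h2⟩ := ijProd_split e a I
  rcases Nat.eq_zero_or_pos I.card with h0 | hpos
  · rw [Finset.card_eq_zero.1 h0, Finset.prod_empty]
    have := est_C (n := 2) 1
    rwa [C_1] at this
  set P : MvPolynomial (Fin 2) ℂ := ∏ i ∈ I, (ijLin e + C (a i)) with hP
  have hlp : (ijLin e ^ I.card).IsHomogeneous I.card := by
    have := (ijLin_homog e).pow I.card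
    rwa [one_mul] at this
  have hcomp : homogeneousComponent I.card P = ijLin e ^ I.card := by
    rw [h1, map_add]
    have e1 : homogeneousComponent I.card (ijLin e ^ I.card) = ijLin e ^ I.card := by
      rw [homogeneousComponent_of_mem (mem_homogeneousSubmodule _ _ |>.2 hlp), if_pos rfl]
    have e2 : homogeneousComponent I.card R = 0 := by
      rcases h2 with h2 | h2
      · rw [h2, map_zero]
      · exact homogeneousComponent_eq_zero _ _ h2
    rw [e1, e2, add_zero]
  have hdeg : P.totalDegree = I.card := by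
    apply le_antisymm
    · rw [h1]
      refine (totalDegree_add _ _).trans (max_le hlp.totalDegree_le ?_)
      rcases h2 with h2 | h2
      · rw [h2, totalDegree_zero]
        exact Nat.zero_le _
      · exact h2.le
    · by_contra hlt
      push Not at hlt
      have := homogeneousComponent_eq_zero _ _ hlt
      rw [hcomp] at this
      exact pow_ne_zero _ (ijLin_ne_zero e he) this
  refine est_of_period P fun v hv z => ?_
  rw [hdeg, hcomp] at hv
  have hd : ∀ j, eval v (pderiv j (ijLin e ^ I.card))
      = I.card * eval v (ijLin e) ^ (I.card - 1) * eval v (pderiv j (ijLin e)) := by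
    intro j
    rw [Derivation.leibniz_pow]
    simp [mul_assoc]
  have h3 : eval v (ijLin e) ^ (I.card - 1) = 0 := by
    have hc : (I.card : ℂ) ≠ 0 := by exact_mod_cast hpos.ne'
    rcases he with he | he
    · have h4 := hv 1
      rw [hd] at h4
      have h5 : eval v (pderiv (1 : Fin 2) (ijLin e)) = e 0 := by
        simp [ijLin, pderiv_X]
      rw [h5] at h4
      rcases mul_eq_zero.1 h4 with h6 | h6
      · rcases mul_eq_zero.1 h6 with h7 | h7
        · exact absurd h7 hc
        · exact h7
      · exact absurd h6 he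
    · have h4 := hv 0
      rw [hd] at h4
      have h5 : eval v (pderiv (0 : Fin 2) (ijLin e)) = - e 1 := by
        simp [ijLin, pderiv_X]
      rw [h5] at h4
      rcases mul_eq_zero.1 h4 with h6 | h6
      · rcases mul_eq_zero.1 h6 with h7 | h7
        · exact absurd h7 hc
        · exact h7
      · exact absurd (neg_eq_zero.1 h6) he
  have h4 : eval v (ijLin e) = 0 := by
    by_contra hne
    exact pow_ne_zero _ hne h3
  rw [hP, map_prod, map_prod]
  refine Finset.prod_congr rfl fun i _ => ?_
  have h5 : eval (z + v) (ijLin e) = eval z (ijLin e) + eval v (ijLin e) := by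
    simp [ijLin]
    ring
  rw [map_add, map_add, h5, h4, add_zero, eval_C, eval_C]

theorem injPair_block (e : Fin 2 → ℂ) (he : Pool.Agent.H60.FB.sq e = 1) {d : ℕ} (a : Fin d → ℂ) (I : Finset (Fin d))
    (v c : ℂ) :
    InjPair (n := 2) (∏ i ∈ I, (C (e 0) * X 1 - C (e 1) * X 0 + C (v - a i)))
      (∏ i ∈ I, (C ((starRingEnd ℂ) (e 0)) * X 1 - C ((starRingEnd ℂ) (e 1)) * X 0
        + C (c - (starRingEnd ℂ) (a i)))) := by
  classical
  set p : MvPolynomial (Fin 2) ℂ := ∏ i ∈ I, (C (e 0) * X 1 - C (e 1) * X 0 + C (v - a i))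
    with hp
  set q : MvPolynomial (Fin 2) ℂ := ∏ i ∈ I, (C ((starRingEnd ℂ) (e 0)) * X 1
    - C ((starRingEnd ℂ) (e 1)) * X 0 + C (c - (starRingEnd ℂ) (a i))) with hq
  set p₀ : MvPolynomial (Fin 2) ℂ := ∏ i ∈ I, (ijLin e + C (-(a i))) with hp₀
  have hee : e 0 * (starRingEnd ℂ) (e 0) + e 1 * (starRingEnd ℂ) (e 1) = 1 := by
    unfold Pool.Agent.H60.FB.sq at he
    rw [Fin.sum_univ_two] at he
    rw [Complex.mul_conj', Complex.mul_conj']
    exact_mod_cast he
  have he0 : e 0 ≠ 0 ∨ e 1 ≠ 0 := by
    by_contra hcon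
    push Not at hcon
    rw [hcon.1, hcon.2] at hee
    simp at hee
  set α : Fin 2 → ℂ := ![-(v * (starRingEnd ℂ) (e 1)), v * (starRingEnd ℂ) (e 0)] with hα
  set γ : Fin 2 → ℂ := ![-(c * e 1), c * e 0] with hγ
  have hpe : ∀ z, eval z p = eval (z + α) p₀ := by
    intro z
    rw [hp, hp₀, map_prod, map_prod]
    refine Finset.prod_congr rfl fun i _ => ?_
    have e1 : eval (z + α) (ijLin e) = e 0 * (z 1 + v * (starRingEnd ℂ) (e 0))
        - e 1 * (z 0 + -(v * (starRingEnd ℂ) (e 1))) := by
      unfold ijLin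
      rw [map_sub, map_mul, map_mul, eval_C, eval_C, eval_X, eval_X]
      rfl
    rw [map_add, map_add, e1, map_sub, map_mul, map_mul, eval_C, eval_C, eval_C, eval_C, eval_X,
      eval_X]
    linear_combination (-v) * hee
  have hqe : ∀ w, eval w q = eval (γ + w) (star' p₀) := by
    intro w
    rw [eval_star', hq, hp₀, map_prod, map_prod, map_prod]
    refine Finset.prod_congr rfl fun i _ => ?_
    have e1 : eval (cj (γ + w)) (ijLin e) = e 0 * (starRingEnd ℂ) (c * e 0 + w 1)
        - e 1 * (starRingEnd ℂ) (-(c * e 1) + w 0) := by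
      unfold ijLin
      rw [map_sub, map_mul, map_mul, eval_C, eval_C, eval_X, eval_X]
      rfl
    rw [map_add, map_add, e1, map_sub, map_mul, map_mul, eval_C, eval_C, eval_C, eval_C, eval_X,
      eval_X]
    simp only [map_sub, map_mul, map_add, map_neg, Complex.conj_conj]
    linear_combination (-c) * hee
  have hp0ne : p₀ ≠ 0 := by
    rw [hp₀, Finset.prod_ne_zero_iff]
    intro i _ h0
    have h1 := congrArg (homogeneousComponent 1) h0
    rw [map_add, homogeneousComponent_of_mem (mem_homogeneousSubmodule _ _ |>.2 (ijLin_homog e)),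
      if_pos rfl, map_zero] at h1
    have h2 : homogeneousComponent 1 (C (-(a i)) : MvPolynomial (Fin 2) ℂ) = 0 :=
      homogeneousComponent_eq_zero _ _ (by rw [totalDegree_C]; exact Nat.one_pos)
    rw [h2, add_zero] at h1
    exact ijLin_ne_zero e he0 h1
  intro F hF h
  set u : Ent 2 := ⟨F, hF⟩ with hu
  have hz : QDE q (mulEnt p u) = 0 := by
    apply Subtype.ext
    funext z
    rw [QDE_eq]
    exact h z
  set H : Ent 2 := trE (-α) (mexp γ u) with hH
  have hmul : mulEnt p₀ H = trE (-α) (mexp γ (mulEnt p u)) := by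
    apply Subtype.ext
    funext x
    change eval x p₀ * ((expo γ).1 (x + -α) * F (x + -α))
      = (expo γ).1 (x + -α) * (eval (x + -α) p * F (x + -α))
    rw [hpe, neg_add_cancel_right]
    ring
  have hzero : QDE (star' p₀) (mulEnt p₀ H) = 0 := by
    rw [hmul, QDE_trE, QDE_mexp (star' p₀) q γ hqe, hz, map_zero, map_zero]
  have hH0 : ∀ z, eval z p₀ * H.1 z = 0 := by
    intro z
    obtain ⟨ρ', K, hE⟩ := ijEst_block e he0 (fun i => -(a i)) I ‖z‖
    have h1 := hE H.1 H.2 0 (fun w _ => by
      have h2 := QDE_eq (star' p₀) (mulEnt p₀ H) w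
      rw [hzero] at h2
      change (0 : ℂ) = QD (star' p₀) 1 (fun z => eval z p₀ * H.1 z) w at h2
      rw [← h2, norm_zero]) z le_rfl
    rw [mul_zero] at h1
    exact norm_le_zero_iff.1 h1
  have hH1 := ijEval_mul p₀ hp0ne H.1 (Differentiable.continuous H.2) hH0
  intro z
  have h1 := hH1 (z + α)
  change (expo γ).1 (z + α + -α) * F (z + α + -α) = 0 at h1
  rw [add_neg_cancel_right] at h1
  rcases mul_eq_zero.1 h1 with h2 | h2
  · exact absurd h2 (Complex.exp_ne_zero _)
  · exact h2

end Pool.Agent.H77.N2
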