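import Pool.Agent.H77.N2.Defs

/-!
Module LOCLIM of MP_6e521b_an (n = 2).

(1) `loc_lim`: local limits from a Puiseux factorisation. Let `t_k = q_k^N`, fix `wx, wt`, put
`q'_k = q_k (1 + wt/t_k)^(1/N)` (so `q'_k^N = t_k + wt`, `‖q'_k - q_k‖ ≤ 2 ‖wt‖ ‖q_k‖/‖t_k‖` for `k`
large; eventually `‖q'_k‖ > R`). Then
`F(x_k + wx, t_k + wt) = a(t_k + wt) ∏_i (x_k + wx - g_i(q'_k) - ε_i(q'_k))`.
With `ν_k = a(t_k) ∏_{i ∉ I} (x_k - g_i(q_k))`:
 * `a(t_k + wt)/a(t_k) → 1`, `‖a(t_k)‖ ≥ c > 0` eventually (a nonzero polynomial, `‖t_k‖ → ∞`);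
 * for `deg g_i < N`: `g_i(q'_k) - g_i(q_k) → 0` (it is `O(‖q_k‖^(deg g_i - N))`, mean value);
   `ε_i(q'_k) → 0`;
 * `i ∈ I`: the factor tends to `wx + v_i`;
 * `i ∉ I`: `(x_k + wx - g_i(q'_k) - ε_i(q'_k))/(x_k - g_i(q_k)) → 1` and the denominator tends to
   infinity; if `deg g_i ≥ N` then `‖g_i(q'_k) - g_i(q_k)‖ ≤ o(1) ‖g_i(q_k)‖`
   (`‖q'_k/q_k - 1‖ → 0`, leading term dominates: `g_i(q'_k)/g_i(q_k) → 1`).
(2) `exists_nu`: normalisation by the largest coefficient. For `P ≠ 0`, the polynomial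
`w ↦ P(b + w)` has the same homogeneous part of degree `totalDegree P` as `P`, so its largest
coefficient has modulus at least `c > 0`, independent of `b`. Dividing by the largest modulus, the
coefficients are in the closed unit disc and one has modulus 1; take the limits of the coefficients
along the ultrafilter (`p` has a coefficient of modulus 1, as there are finitely many coefficients).
(Possible route: `P.rename/aeval` with `X i + C (b i)`; or work in `MvPolynomial.totalDegree ≤ m`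
with finitely many exponents.)
-/

open MvPolynomial Filter Topology Pool.Agent.H77.FB Pool.Agent.H60.FB

namespace Pool.Agent.H77.N2

/-! ### Polynomials in one variable at infinity -/

lemma ll_inv {l : Filter ℕ} {z : ℕ → ℂ} (hz : Tendsto (fun k => ‖z k‖) l atTop) :
    Tendsto (fun k => (z k)⁻¹) l (𝓝 0) := by
  rw [tendsto_zero_iff_norm_tendsto_zero]
  simp only [norm_inv]
  exact hz.inv_tendsto_atTop

lemma ll_ne {l : Filter ℕ} {z : ℕ → ℂ} (hz : Tendsto (fun k => ‖z k‖) l atTop) :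
    ∀ᶠ k in l, z k ≠ 0 :=
  (hz.eventually_gt_atTop 0).mono (fun _ hk => norm_pos_iff.1 hk)

lemma ll_lead {l : Filter ℕ} (P : Polynomial ℂ) {z : ℕ → ℂ}
    (hz : Tendsto (fun k => ‖z k‖) l atTop) :
    Tendsto (fun k => P.eval (z k) / z k ^ P.natDegree) l (𝓝 P.leadingCoeff) := by
  have h1 : Tendsto (fun k => ∑ j ∈ Finset.range (P.natDegree + 1),
      P.coeff j * (z k)⁻¹ ^ (P.natDegree - j)) l
      (𝓝 (∑ j ∈ Finset.range (P.natDegree + 1), P.coeff j * (0 : ℂ) ^ (P.natDegree - j))) :=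
    tendsto_finsetSum _ (fun j _ => ((ll_inv hz).pow _).const_mul _)
  have h2 : ∑ j ∈ Finset.range (P.natDegree + 1), P.coeff j * (0 : ℂ) ^ (P.natDegree - j)
      = P.leadingCoeff := by
    rw [Finset.sum_range_succ, Nat.sub_self, pow_zero, mul_one, Finset.sum_eq_zero, zero_add]
    · rfl
    · intro j hj
      rw [Finset.mem_range] at hj
      rw [zero_pow (by omega), mul_zero]
  rw [h2] at h1
  refine h1.congr' ((ll_ne hz).mono (fun k hk => ?_))
  show _ = P.eval (z k) / z k ^ P.natDegree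
  rw [Polynomial.eval_eq_sum_range, Finset.sum_div]
  refine Finset.sum_congr rfl (fun j hj => ?_)
  rw [Finset.mem_range] at hj
  have h3 : z k ^ P.natDegree = z k ^ j * z k ^ (P.natDegree - j) := by
    rw [← pow_add]
    congr 1
    omega
  have e1 : z k ^ j ≠ 0 := pow_ne_zero _ hk
  have e2 : z k ^ (P.natDegree - j) ≠ 0 := pow_ne_zero _ hk
  rw [h3, inv_pow]
  field_simp

lemma ll_norm {l : Filter ℕ} {z z' : ℕ → ℂ} (hz : Tendsto (fun k => ‖z k‖) l atTop)
    (hr : Tendsto (fun k => z' k / z k) l (𝓝 1)) : Tendsto (fun k => ‖z' k‖) l atTop := by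
  have h1 : Tendsto (fun k => ‖z' k / z k‖) l (𝓝 1) := by
    have := hr.norm
    simpa using this
  refine (h1.pos_mul_atTop one_pos hz).congr' ((ll_ne hz).mono (fun k hk => ?_))
  rw [← norm_mul, div_mul_cancel₀ _ hk]

lemma ll_ratio {l : Filter ℕ} {P : Polynomial ℂ} (hP : P ≠ 0) {z z' : ℕ → ℂ}
    (hz : Tendsto (fun k => ‖z k‖) l atTop) (hr : Tendsto (fun k => z' k / z k) l (𝓝 1)) :
    Tendsto (fun k => P.eval (z' k) / P.eval (z k)) l (𝓝 1) := by
  have h1 := ll_lead P hz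
  have h2 := ll_lead P (ll_norm hz hr)
  have hl : P.leadingCoeff ≠ 0 := Polynomial.leadingCoeff_ne_zero.2 hP
  have h3 := (h2.mul (hr.pow P.natDegree)).div h1 hl
  rw [one_pow, mul_one, div_self hl] at h3
  refine h3.congr' ?_
  filter_upwards [ll_ne hz, ll_ne (ll_norm hz hr)] with k hk hk'
  have e1 : z k ^ P.natDegree ≠ 0 := pow_ne_zero _ hk
  have e2 : z' k ^ P.natDegree ≠ 0 := pow_ne_zero _ hk'
  show (P.eval (z' k) / z' k ^ P.natDegree * (z' k / z k) ^ P.natDegree)
    / (P.eval (z k) / z k ^ P.natDegree) = P.eval (z' k) / P.eval (z k)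
  have e3 : P.eval (z' k) / z' k ^ P.natDegree * (z' k / z k) ^ P.natDegree
      = P.eval (z' k) / z k ^ P.natDegree := by
    rw [div_pow]
    field_simp
  rw [e3, div_div_div_cancel_right₀ e1]

lemma ll_ev_ne {l : Filter ℕ} {P : Polynomial ℂ} (hP : P ≠ 0) {z : ℕ → ℂ}
    (hz : Tendsto (fun k => ‖z k‖) l atTop) :
    ∃ c : ℝ, 0 < c ∧ ∀ᶠ k in l, c ≤ ‖P.eval (z k)‖ := by
  have hl : P.leadingCoeff ≠ 0 := Polynomial.leadingCoeff_ne_zero.2 hP
  have h0 : 0 < ‖P.leadingCoeff‖ := norm_pos_iff.2 hl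
  refine ⟨‖P.leadingCoeff‖ / 2, by positivity, ?_⟩
  have h1 := (ll_lead P hz).norm.eventually (lt_mem_nhds (half_lt_self h0))
  filter_upwards [h1, hz.eventually_ge_atTop 1] with k hk hk1
  rw [norm_div, norm_pow, lt_div_iff₀ (by positivity)] at hk
  have h2 : 1 ≤ ‖z k‖ ^ P.natDegree := one_le_pow₀ hk1
  nlinarith

/-! ### The branch of the root -/

lemma ll_rt_pow {N : ℕ} (hN : 1 ≤ N) {q : ℂ} (hq : q ≠ 0) (w : ℂ) :
    rt N q w ^ N = q ^ N + w := by
  unfold rt
  rw [mul_pow, one_div, Complex.cpow_nat_inv_pow _ (by omega)]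
  have : q ^ N ≠ 0 := pow_ne_zero _ hq
  field_simp

/-- the quotient of the roots -/
noncomputable def llρ (N : ℕ) (q w : ℂ) : ℂ := (1 + w / q ^ N) ^ ((1 : ℂ) / N)

lemma ll_rt_eq (N : ℕ) (q w : ℂ) : rt N q w = q * llρ N q w := rfl

lemma llρ_pow {N : ℕ} (hN : 1 ≤ N) (q w : ℂ) : llρ N q w ^ N = 1 + w / q ^ N := by
  unfold llρ
  rw [one_div, Complex.cpow_nat_inv_pow _ (by omega)]

lemma ll_pow_norm {l : Filter ℕ} {q : ℕ → ℂ} (hq : Tendsto (fun k => ‖q k‖) l atTop) {N : ℕ}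
    (hN : 1 ≤ N) : Tendsto (fun k => ‖q k ^ N‖) l atTop := by
  simp only [norm_pow]
  exact (tendsto_pow_atTop (by omega)).comp hq

lemma ll_w {l : Filter ℕ} {q : ℕ → ℂ} (hq : Tendsto (fun k => ‖q k‖) l atTop) {N : ℕ}
    (hN : 1 ≤ N) (w : ℂ) : Tendsto (fun k => w / q k ^ N) l (𝓝 0) := by
  have := (ll_inv (ll_pow_norm hq hN)).const_mul w
  rw [mul_zero] at this
  exact this.congr (fun k => (div_eq_mul_inv _ _).symm)

lemma llρ_lim {l : Filter ℕ} {q : ℕ → ℂ} (hq : Tendsto (fun k => ‖q k‖) l atTop) {N : ℕ}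
    (hN : 1 ≤ N) (w : ℂ) : Tendsto (fun k => llρ N (q k) w) l (𝓝 1) := by
  have h1 : Tendsto (fun k => 1 + w / q k ^ N) l (𝓝 (1 + 0)) := (ll_w hq hN w).const_add 1
  rw [add_zero] at h1
  have h2 : ContinuousAt (fun x : ℂ => x ^ ((1 : ℂ) / N)) 1 :=
    continuousAt_cpow_const (by simp [Complex.slitPlane])
  have h3 := h2.tendsto.comp h1
  rw [Complex.one_cpow] at h3
  exact h3

lemma ll_rt_ratio {l : Filter ℕ} {q : ℕ → ℂ} (hq : Tendsto (fun k => ‖q k‖) l atTop) {N : ℕ}
    (hN : 1 ≤ N) (w : ℂ) : Tendsto (fun k => rt N (q k) w / q k) l (𝓝 1) := by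
  refine (llρ_lim hq hN w).congr' ((ll_ne hq).mono (fun k hk => ?_))
  show llρ N (q k) w = rt N (q k) w / q k
  rw [ll_rt_eq, mul_div_cancel_left₀ _ hk]

lemma ll_geo {l : Filter ℕ} {q : ℕ → ℂ} (hq : Tendsto (fun k => ‖q k‖) l atTop) {N : ℕ}
    (hN : 1 ≤ N) (w : ℂ) (j : ℕ) :
    Tendsto (fun k => ∑ i ∈ Finset.range j, llρ N (q k) w ^ i) l (𝓝 (j : ℂ)) := by
  have h1 : Tendsto (fun k => ∑ i ∈ Finset.range j, llρ N (q k) w ^ i) l
      (𝓝 (∑ i ∈ Finset.range j, (1 : ℂ) ^ i)) :=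
    tendsto_finsetSum _ (fun i _ => (llρ_lim hq hN w).pow i)
  simpa using h1

/-- powers below `N` do not move -/
lemma ll_mono {l : Filter ℕ} {q : ℕ → ℂ} (hq : Tendsto (fun k => ‖q k‖) l atTop) {N : ℕ}
    (hN : 1 ≤ N) (w : ℂ) {j : ℕ} (hj : j < N) :
    Tendsto (fun k => rt N (q k) w ^ j - q k ^ j) l (𝓝 0) := by
  have hNc : (N : ℂ) ≠ 0 := by
    have : N ≠ 0 := by omega
    exact_mod_cast this
  have h1 := ll_geo hq hN w N
  have h2 := ll_geo hq hN w j
  have h3 := (((ll_inv hq).pow (N - j)).const_mul w).mul (h2.div h1 hNc)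
  rw [zero_pow (by omega), mul_zero, zero_mul] at h3
  have h4 : ∀ᶠ k in l, ∑ i ∈ Finset.range N, llρ N (q k) w ^ i ≠ 0 := h1.eventually_ne hNc
  refine h3.congr' ?_
  filter_upwards [h4, ll_ne hq] with k hk hk0
  set ρ := llρ N (q k) w with hρ
  have e1 : (ρ - 1) * ∑ i ∈ Finset.range N, ρ ^ i = w / q k ^ N := by
    rw [mul_geom_sum, llρ_pow hN]
    ring
  have e2 : (ρ - 1) * ∑ i ∈ Finset.range j, ρ ^ i = ρ ^ j - 1 := mul_geom_sum ρ j
  have e3 : rt N (q k) w ^ j - q k ^ j = q k ^ j * (ρ ^ j - 1) := by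
    rw [ll_rt_eq, mul_pow]
    ring
  have e4 : q k ^ N = q k ^ j * q k ^ (N - j) := by
    rw [← pow_add]
    congr 1
    omega
  have e5 : ρ - 1 = w / q k ^ N / ∑ i ∈ Finset.range N, ρ ^ i := by
    rw [eq_div_iff hk]
    exact e1
  have e6 : q k ^ j ≠ 0 := pow_ne_zero _ hk0
  have e7 : q k ^ (N - j) ≠ 0 := pow_ne_zero _ hk0
  show w * (q k)⁻¹ ^ (N - j) * ((∑ i ∈ Finset.range j, ρ ^ i) / (∑ i ∈ Finset.range N, ρ ^ i))
    = rt N (q k) w ^ j - q k ^ j
  rw [e3, ← e2, e5, e4, inv_pow]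
  field_simp

lemma ll_poly {l : Filter ℕ} {q : ℕ → ℂ} (hq : Tendsto (fun k => ‖q k‖) l atTop) {N : ℕ}
    (hN : 1 ≤ N) (w : ℂ) {g : Polynomial ℂ} (hg : g.natDegree < N) :
    Tendsto (fun k => g.eval (rt N (q k) w) - g.eval (q k)) l (𝓝 0) := by
  have h1 : Tendsto (fun k => ∑ j ∈ Finset.range N, g.coeff j * (rt N (q k) w ^ j - q k ^ j)) l
      (𝓝 (∑ j ∈ Finset.range N, g.coeff j * 0)) :=
    tendsto_finsetSum _ (fun j hj => (ll_mono hq hN w (Finset.mem_range.1 hj)).const_mul _)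
  simp only [mul_zero, Finset.sum_const_zero] at h1
  refine h1.congr (fun k => ?_)
  rw [Polynomial.eval_eq_sum_range' hg, Polynomial.eval_eq_sum_range' hg,
    ← Finset.sum_sub_distrib]
  exact Finset.sum_congr rfl (fun j _ => by ring)

lemma ll_eps {l : Filter ℕ} {z : ℕ → ℂ} (hz : Tendsto (fun k => ‖z k‖) l atTop)
    {ε : ℂ → ℂ} {R C : ℝ} (hε : ∀ q : ℂ, R < ‖q‖ → ‖ε q‖ ≤ C / ‖q‖) :
    Tendsto (fun k => ε (z k)) l (𝓝 0) := by
  rw [tendsto_zero_iff_norm_tendsto_zero]
  have h1 : Tendsto (fun k => C / ‖z k‖) l (𝓝 0) := hz.const_div_atTop C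
  refine squeeze_zero' (Eventually.of_forall (fun k => norm_nonneg _)) ?_ h1
  exact (hz.eventually_gt_atTop R).mono (fun k hk => hε _ hk)

theorem loc_lim {F : MvPolynomial (Fin 2) ℂ} {N d : ℕ} {g : Fin d → Polynomial ℂ}
    {ε : Fin d → ℂ → ℂ} {a : Polynomial ℂ} {R C : ℝ} (h : Pui F N d g ε a R C)
    (𝒰 : Ultrafilter ℕ) (x q : ℕ → ℂ) (hq : Tendsto (fun k => ‖q k‖) 𝒰 atTop)
    (I : Finset (Fin d)) (v : Fin d → ℂ)
    (hI : ∀ i ∈ I, (g i).natDegree < N ∧ Tendsto (fun k => x k - (g i).eval (q k)) 𝒰 (𝓝 (v i)))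
    (hI' : ∀ i ∉ I, Tendsto (fun k => ‖x k - (g i).eval (q k)‖) 𝒰 atTop ∧
      ((g i).natDegree < N ∨ ∃ c : ℝ, 0 < c ∧ ∀ᶠ k in (𝒰 : Filter ℕ),
        c * ‖(g i).eval (q k)‖ ≤ ‖x k - (g i).eval (q k)‖)) :
    ∃ (ν : ℕ → ℂ) (c : ℝ), 0 < c ∧ (∀ᶠ k in (𝒰 : Filter ℕ), c ≤ ‖ν k‖) ∧
      ∀ wx wt : ℂ, Tendsto (fun k => eval ![x k + wx, q k ^ N + wt] F / ν k) 𝒰
        (𝓝 (∏ i ∈ I, (wx + v i))) := by
  have hN := h.hN
  have ht := ll_pow_norm hq hN
  obtain ⟨c, hc, hcev⟩ := ll_ev_ne h.ha ht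
  refine ⟨fun k => a.eval (q k ^ N) * ∏ i ∈ Iᶜ, (x k - (g i).eval (q k)), c, hc, ?_, ?_⟩
  · have h1 : ∀ᶠ k in (𝒰 : Filter ℕ), ∀ i ∈ Iᶜ, 1 ≤ ‖x k - (g i).eval (q k)‖ := by
      rw [Filter.eventually_all_finset]
      intro i hi
      exact (hI' i (Finset.mem_compl.1 hi)).1.eventually_ge_atTop 1
    filter_upwards [hcev, h1] with k hk hk1
    rw [norm_mul, norm_prod]
    have h2 : 1 ≤ ∏ i ∈ Iᶜ, ‖x k - (g i).eval (q k)‖ := by
      have := Finset.prod_le_prod (s := Iᶜ) (f := fun _ => (1 : ℝ))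
        (g := fun i => ‖x k - (g i).eval (q k)‖) (fun _ _ => zero_le_one) (fun i hi => hk1 i hi)
      simpa using this
    nlinarith [norm_nonneg (a.eval (q k ^ N))]
  · intro wx wt
    set q' : ℕ → ℂ := fun k => rt N (q k) wt with hq'
    have hr : Tendsto (fun k => q' k / q k) 𝒰 (𝓝 1) := ll_rt_ratio hq hN wt
    have hq'n : Tendsto (fun k => ‖q' k‖) 𝒰 atTop := ll_norm hq hr
    have hε : ∀ i, Tendsto (fun k => ε i (q' k)) 𝒰 (𝓝 0) := fun i => ll_eps hq'n (h.hε i)
    have hA : Tendsto (fun k => a.eval (q k ^ N + wt) / a.eval (q k ^ N)) 𝒰 (𝓝 1) := by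
      refine ll_ratio h.ha ht ?_
      have h1 : Tendsto (fun k => 1 + wt / q k ^ N) 𝒰 (𝓝 (1 + 0)) := (ll_w hq hN wt).const_add 1
      rw [add_zero] at h1
      refine h1.congr' ((ll_ne ht).mono (fun k hk => ?_))
      field_simp
    have hin : ∀ i ∈ I, Tendsto (fun k => x k + wx - (g i).eval (q' k) - ε i (q' k)) 𝒰
        (𝓝 (wx + v i)) := by
      intro i hi
      obtain ⟨hd, hl⟩ := hI i hi
      have h1 := ll_poly hq hN wt hd
      have h2 := ((hl.add_const wx).sub h1).sub (hε i)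
      rw [sub_zero, sub_zero, add_comm] at h2
      refine h2.congr (fun k => ?_)
      simp only [hq']
      ring
    have hout : ∀ i ∈ Iᶜ, Tendsto (fun k => (x k + wx - (g i).eval (q' k) - ε i (q' k))
        / (x k - (g i).eval (q k))) 𝒰 (𝓝 1) := by
      intro i hi
      obtain ⟨hn, hcase⟩ := hI' i (Finset.mem_compl.1 hi)
      have hne : ∀ᶠ k in (𝒰 : Filter ℕ), x k - (g i).eval (q k) ≠ 0 := ll_ne hn
      have hinv := ll_inv hn
      have h3 : Tendsto (fun k => ((g i).eval (q' k) - (g i).eval (q k))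
          / (x k - (g i).eval (q k))) 𝒰 (𝓝 0) := by
        rcases hcase with hd | ⟨c', hc', hcb⟩
        · have h1 := (ll_poly hq hN wt hd).mul hinv
          rw [mul_zero] at h1
          exact h1.congr (fun k => (div_eq_mul_inv _ _).symm)
        · rcases eq_or_ne (g i) 0 with h0 | h0
          · simp [h0]
          · have h1 := (ll_ratio h0 hq hr).sub_const 1
            rw [sub_self, tendsto_zero_iff_norm_tendsto_zero] at h1
            have h2 := h1.const_mul (1 / c')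
            rw [mul_zero] at h2
            obtain ⟨c2, hc2, hev⟩ := ll_ev_ne h0 hq
            rw [tendsto_zero_iff_norm_tendsto_zero]
            refine squeeze_zero' (Eventually.of_forall (fun k => norm_nonneg _)) ?_ h2
            filter_upwards [hcb, hne, hev] with k hk hk1 hk2
            have hg0 : (g i).eval (q k) ≠ 0 := norm_pos_iff.1 (hc2.trans_le hk2)
            have e1 : (g i).eval (q' k) / (g i).eval (q k) - 1
                = ((g i).eval (q' k) - (g i).eval (q k)) / (g i).eval (q k) := by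
              field_simp
            rw [e1, norm_div, norm_div]
            have hp1 : 0 < ‖(g i).eval (q k)‖ := norm_pos_iff.2 hg0
            have hp2 : 0 < ‖x k - (g i).eval (q k)‖ := norm_pos_iff.2 hk1
            rw [one_div, inv_mul_eq_div, div_div, div_le_div_iff₀ hp2 (by positivity)]
            have := mul_le_mul_of_nonneg_left hk (norm_nonneg ((g i).eval (q' k)
              - (g i).eval (q k)))
            calc ‖(g i).eval (q' k) - (g i).eval (q k)‖ * (‖(g i).eval (q k)‖ * c')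
                = ‖(g i).eval (q' k) - (g i).eval (q k)‖ * (c' * ‖(g i).eval (q k)‖) := by ring
              _ ≤ _ := this
      have h4 := ((((hε i).const_sub wx).mul hinv).sub h3).const_add 1
      rw [mul_zero, sub_zero, add_zero] at h4
      refine h4.congr' (hne.mono (fun k hk => ?_))
      field_simp
      ring
    have hP := (hA.mul (tendsto_finsetProd I hin)).mul (tendsto_finsetProd Iᶜ hout)
    rw [Finset.prod_const_one, mul_one, one_mul] at hP
    refine hP.congr' ?_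
    have hne : ∀ᶠ k in (𝒰 : Filter ℕ), ∀ i ∈ Iᶜ, x k - (g i).eval (q k) ≠ 0 := by
      rw [Filter.eventually_all_finset]
      intro i hi
      exact ll_ne (hI' i (Finset.mem_compl.1 hi)).1
    filter_upwards [hne, hcev, ll_ne hq, hq'n.eventually_gt_atTop R] with k hk hk1 hk2 hk3
    have e1 : q k ^ N + wt = q' k ^ N := (ll_rt_pow hN hk2 wt).symm
    have e2 := h.fac (q' k) hk3 (x k + wx)
    rw [e1, e2]
    rw [← Finset.prod_mul_prod_compl I (fun i => x k + wx - (g i).eval (q' k) - ε i (q' k)),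
      Finset.prod_div_distrib]
    have ha0 : a.eval (q k ^ N) ≠ 0 := norm_pos_iff.1 (hc.trans_le hk1)
    have hp0 : ∏ i ∈ Iᶜ, (x k - (g i).eval (q k)) ≠ 0 := Finset.prod_ne_zero_iff.2 hk
    field_simp

/-! ### Normalisation of the translates -/

/-- the translate of a polynomial -/
noncomputable def llτ {n : ℕ} (b : Fin n → ℂ) : MvPolynomial (Fin n) ℂ →ₐ[ℂ] MvPolynomial (Fin n) ℂ :=
  aeval (fun i => X i + C (b i))

lemma llτ_eval {n : ℕ} (b w : Fin n → ℂ) (P : MvPolynomial (Fin n) ℂ) :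
    eval w (llτ b P) = eval (b + w) P := by
  have h1 : (eval w).comp (llτ b).toRingHom = eval (b + w) := by
    refine MvPolynomial.ringHom_ext ?_ ?_
    · intro c
      simp [llτ]
    · intro i
      simp [llτ, add_comm]
  exact congrArg (fun f => f P) h1

lemma llτ_X {n : ℕ} (b : Fin n → ℂ) (i : Fin n) : llτ b (X i) = X i + C (b i) := by
  simp [llτ]

/-- coefficients of high degree do not change -/
lemma llτ_mono {n : ℕ} (b : Fin n → ℂ) : ∀ (m : ℕ) (f : Fin n →₀ ℕ), f.degree = m →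
    ∀ e : Fin n →₀ ℕ, m ≤ e.degree →
      coeff e (llτ b (monomial f 1)) = coeff e (monomial f (1 : ℂ)) := by
  intro m
  induction m with
  | zero =>
    intro f hf e _
    have h0 : f = 0 := by
      rw [Finsupp.degree_eq_zero_iff] at hf
      exact hf
    subst h0
    have : (monomial 0 (1 : ℂ) : MvPolynomial (Fin n) ℂ) = 1 := rfl
    rw [this, map_one]
  | succ m ih =>
    intro f hf e he
    obtain ⟨i, hi⟩ : ∃ i, f i ≠ 0 := by
      by_contra hcon
      push Not at hcon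
      have : f = 0 := Finsupp.ext hcon
      rw [this, map_zero] at hf
      omega
    set f' : Fin n →₀ ℕ := f - Finsupp.single i 1 with hf'
    have hff : f = f' + Finsupp.single i 1 := by
      rw [hf', tsub_add_cancel_of_le]
      rw [Finsupp.single_le_iff]
      omega
    have hd : f'.degree = m := by
      rw [hff, map_add, Finsupp.degree_single] at hf
      omega
    have h1 : (monomial f (1 : ℂ) : MvPolynomial (Fin n) ℂ) = monomial f' 1 * X i := by
      rw [hff, X, monomial_mul, one_mul]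
    rw [h1, map_mul, llτ_X, mul_add, coeff_add, coeff_mul_X', coeff_mul_X']
    have h2 : coeff e (llτ b (monomial f' 1) * C (b i)) = 0 := by
      rw [mul_comm, coeff_C_mul, ih f' hd e (by omega), coeff_monomial, if_neg, mul_zero]
      intro h3
      rw [← h3] at he
      omega
    rw [h2, add_zero]
    by_cases h3 : i ∈ e.support
    · rw [if_pos h3, if_pos h3]
      refine ih f' hd _ ?_
      have h4 : e = (e - Finsupp.single i 1) + Finsupp.single i 1 := by
        rw [tsub_add_cancel_of_le]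
        rw [Finsupp.single_le_iff]
        have := Finsupp.mem_support_iff.1 h3
        omega
      have h5 : e.degree = (e - Finsupp.single i 1).degree + 1 := by
        conv_lhs => rw [h4]
        rw [map_add, Finsupp.degree_single]
      omega
    · rw [if_neg h3, if_neg h3]

lemma llτ_coeff {n : ℕ} (b : Fin n → ℂ) (P : MvPolynomial (Fin n) ℂ) (e : Fin n →₀ ℕ)
    (he : P.totalDegree ≤ e.degree) : coeff e (llτ b P) = coeff e P := by
  have h1 : llτ b P = ∑ f ∈ P.support, coeff f P • llτ b (monomial f 1) := by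
    conv_lhs => rw [P.as_sum]
    rw [map_sum]
    refine Finset.sum_congr rfl (fun f _ => ?_)
    rw [← map_smul, smul_monomial, smul_eq_mul, mul_one]
  have h2 : P = ∑ f ∈ P.support, coeff f P • (monomial f (1 : ℂ)) := by
    conv_lhs => rw [P.as_sum]
    refine Finset.sum_congr rfl (fun f _ => ?_)
    rw [smul_monomial, smul_eq_mul, mul_one]
  rw [h1]
  conv_rhs => rw [h2]
  rw [coeff_sum, coeff_sum]
  refine Finset.sum_congr rfl (fun f hf => ?_)
  rw [coeff_smul, coeff_smul]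
  congr 1
  refine llτ_mono b f.degree f rfl e ?_
  refine le_trans ?_ he
  exact le_totalDegree hf

theorem exists_nu {n : ℕ} (P : MvPolynomial (Fin n) ℂ) (hP : P ≠ 0) (𝒰 : Ultrafilter ℕ)
    (b : ℕ → Fin n → ℂ) :
    ∃ (p : MvPolynomial (Fin n) ℂ) (ν : ℕ → ℂ) (c : ℝ), p ≠ 0 ∧ 0 < c ∧ (∀ k, c ≤ ‖ν k‖) ∧
      ∀ w, Tendsto (fun k => eval (b k + w) P / ν k) 𝒰 (𝓝 (eval w p)) := by
  classical
  obtain ⟨e0, he0, hdeg⟩ : ∃ e ∈ P.support, e.degree = P.totalDegree := by
    have h1 : P.support.Nonempty := by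
      rw [Finset.nonempty_iff_ne_empty]
      intro h
      exact hP (support_eq_empty.1 h)
    obtain ⟨e, he, hs⟩ := Finset.exists_mem_eq_sup P.support h1 (fun s => s.sum fun _ e => e)
    exact ⟨e, he, hs.symm⟩
  set m := P.totalDegree with hm
  set E : Finset (Fin n →₀ ℕ) := Finset.Iic (Finsupp.equivFunOnFinite.symm (fun _ => m)) with hE
  have hsupp : ∀ b' : Fin n → ℂ, (llτ b' P).support ⊆ E := by
    intro b' e he
    rw [hE, Finset.mem_Iic]
    intro i
    by_contra hcon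
    have h1 : m < e i := by
      simpa using hcon
    have h2 : e i ≤ e.degree := Finsupp.le_degree i e
    have h3 : coeff e (llτ b' P) = coeff e P := llτ_coeff b' P e (by omega)
    have h4 : coeff e P = 0 := by
      refine coeff_eq_zero_of_totalDegree_lt ?_
      have : e.degree = ∑ i ∈ e.support, e i := rfl
      omega
    rw [mem_support_iff, h3, h4] at he
    exact he rfl
  have he0E : e0 ∈ E := by
    have h1 := hsupp 0
    refine h1 ?_
    rw [mem_support_iff, llτ_coeff 0 P e0 (by omega)]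
    exact mem_support_iff.1 he0
  set cf : ℕ → (Fin n →₀ ℕ) → ℂ := fun k e => coeff e (llτ (b k) P) with hcf
  set ν : ℕ → ℝ := fun k => ∑ e ∈ E, ‖cf k e‖ with hν
  set c : ℝ := ‖coeff e0 P‖ with hc
  have hc0 : 0 < c := norm_pos_iff.2 (mem_support_iff.1 he0)
  have hνc : ∀ k, c ≤ ν k := by
    intro k
    have h1 : cf k e0 = coeff e0 P := llτ_coeff (b k) P e0 (by omega)
    have h2 : ‖cf k e0‖ ≤ ν k :=
      Finset.single_le_sum (f := fun e => ‖cf k e‖) (fun e _ => norm_nonneg _) he0E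
    rw [h1] at h2
    exact h2
  have hν0 : ∀ k, 0 < ν k := fun k => hc0.trans_le (hνc k)
  have hlim : ∀ e ∈ E, ∃ z : ℂ, Tendsto (fun k => cf k e / (ν k : ℂ)) 𝒰 (𝓝 z) := by
    intro e he
    have h1 : ∀ k, cf k e / (ν k : ℂ) ∈ Metric.closedBall (0 : ℂ) 1 := by
      intro k
      rw [mem_closedBall_zero_iff, norm_div, Complex.norm_real, Real.norm_of_nonneg (hν0 k).le,
        div_le_one (hν0 k)]
      exact Finset.single_le_sum (f := fun e => ‖cf k e‖) (fun e _ => norm_nonneg _) he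
    obtain ⟨z, -, hz⟩ := (isCompact_closedBall (0 : ℂ) 1).ultrafilter_le_nhds
      (𝒰.map (fun k => cf k e / (ν k : ℂ)))
      (by
        rw [Ultrafilter.coe_map]
        refine Filter.le_principal_iff.2 ?_
        exact Filter.Eventually.of_forall (f := (𝒰 : Filter ℕ)) h1)
    exact ⟨z, hz⟩
  choose! z hz using hlim
  set p : MvPolynomial (Fin n) ℂ := ∑ e ∈ E, monomial e (z e) with hp
  refine ⟨p, fun k => (ν k : ℂ), c, ?_, hc0, ?_, ?_⟩
  · intro h0
    have h1 : ∀ e ∈ E, z e = 0 := by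
      intro e he
      have h2 : coeff e p = z e := by
        rw [hp, coeff_sum]
        simp only [coeff_monomial]
        rw [Finset.sum_ite_eq' E e]
        rw [if_pos he]
      rw [← h2, h0, coeff_zero]
    have h2 : Tendsto (fun k => ∑ e ∈ E, ‖cf k e / (ν k : ℂ)‖) 𝒰 (𝓝 (∑ e ∈ E, ‖z e‖)) :=
      tendsto_finsetSum _ (fun e he => (hz e he).norm)
    have h3 : ∑ e ∈ E, ‖z e‖ = 0 := Finset.sum_eq_zero (fun e he => by rw [h1 e he, norm_zero])
    have h4 : ∀ k, ∑ e ∈ E, ‖cf k e / (ν k : ℂ)‖ = 1 := by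
      intro k
      simp only [norm_div, Complex.norm_real, Real.norm_of_nonneg (hν0 k).le]
      rw [← Finset.sum_div]
      exact div_self (hν0 k).ne'
    simp only [h4] at h2
    rw [h3] at h2
    exact one_ne_zero (tendsto_nhds_unique tendsto_const_nhds h2)
  · intro k
    rw [Complex.norm_real, Real.norm_of_nonneg (hν0 k).le]
    exact hνc k
  · intro w
    have h1 : eval w p = ∑ e ∈ E, z e * eval w (monomial e (1 : ℂ)) := by
      rw [hp, map_sum]
      refine Finset.sum_congr rfl (fun e _ => ?_)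
      rw [eval_monomial, eval_monomial, one_mul]
    rw [h1]
    have h2 : Tendsto (fun k => ∑ e ∈ E, cf k e / (ν k : ℂ) * eval w (monomial e (1 : ℂ))) 𝒰
        (𝓝 (∑ e ∈ E, z e * eval w (monomial e (1 : ℂ)))) :=
      tendsto_finsetSum _ (fun e he => (hz e he).mul_const _)
    refine h2.congr (fun k => ?_)
    rw [← llτ_eval]
    have h3 : eval w (llτ (b k) P) = ∑ e ∈ E, cf k e * eval w (monomial e (1 : ℂ)) := by
      have h4 : llτ (b k) P = ∑ e ∈ E, monomial e (cf k e) := by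
        ext e
        rw [coeff_sum]
        simp only [coeff_monomial]
        rw [Finset.sum_ite_eq' E e]
        split_ifs with h5
        · rfl
        · by_contra h6
          exact h5 (hsupp (b k) (mem_support_iff.2 h6))
      rw [h4, map_sum]
      refine Finset.sum_congr rfl (fun e _ => ?_)
      rw [eval_monomial, eval_monomial, one_mul]
    rw [h3, Finset.sum_div]
    refine Finset.sum_congr rfl (fun e _ => ?_)
    ring

end Pool.Agent.H77.N2
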