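import Pool.Agent.H77.N2.Defs

/-!
Module RADIAL of MP_6e521b_an (n = 2): the radial weight `phiR B K r = B r + (11/20) χ r²`,
`χ = r²/(r²+K²)`, `sR = φ'/r = B/r + (11/10) χ(2-χ)`.

As a function of `u = r²`: `g(u) = B√u + (11/20) u²/(u+K²)`, `g'(u) = B/(2√u) + (11/20) χ(2-χ)
= sR/2`. For `u ≤ u' ≤ (1+δ)u`: `(1-δ) g'(u) ≤ g'(u') ≤ (1+δ) g'(u)` (`1/√u' ≥ (1-δ/2)/√u`,
`χ ≤ χ' ≤ (1+δ)χ`, `χ(2-χ)` is increasing in `χ ∈ [0,1]`), so `phi_add_le`, `phi_add_ge`; or directly: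
`√(u+y) ≤ √u + y/(2√u)`, `√(u+y) - √u = y/(√(u+y)+√u) ≥ y/(2√u) (1 - y/(2u)) ≥ …`,
`u'²/(u'+k) - u²/(u+k) - u(u+2k)/(u+k)² (u'-u) = k²(u'-u)²/((u+k)²(u'+k)) ∈ [0, (u'-u)²/u']`.
`phi_taylor`: with `u = sq b`, `u' = sq (b + w) = u + 2Re(b̄·w) + sq w`: the same formulas give
`φ(nrm(b+w)) ≤ φ(nrm b) + (s/2)(u'-u) + (11/20)(u'-u)²/u'`, `s ≤ 1 + 11/10` for `nrm b ≥ B`,
`|u' - u| ≤ 2.5 nrm b nrm w`, `u' ≥ u/4` for `nrm w ≤ nrm b/2`.
`(dt (s • cj b) w).re = s Re Σ b̄_j w_j`.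
-/

open Filter Topology Pool.Agent.H77.FB Pool.Agent.H60.FB

namespace Pool.Agent.H77.N2

lemma chi_mem {K r : ℝ} : 0 ≤ chi K r ∧ chi K r ≤ 1 := by
  unfold chi
  constructor
  · positivity
  · exact div_le_one_of_le₀ (by nlinarith [sq_nonneg K]) (by positivity)

namespace RadAux

lemma chi2_nonneg (K r : ℝ) : 0 ≤ chi K r * (2 - chi K r) := by
  obtain ⟨h1, h2⟩ := chi_mem (K := K) (r := r)
  nlinarith

lemma chi2_le (K r : ℝ) : chi K r * (2 - chi K r) ≤ 1 := by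
  nlinarith [sq_nonneg (chi K r - 1)]

lemma sR_mul_sq {B K r : ℝ} (hr : 0 < r) :
    sR B K r * r ^ 2 = B * r + 11 / 10 * (chi K r * (2 - chi K r)) * r ^ 2 := by
  unfold sR
  have : B / r * r ^ 2 = B * r := by
    field_simp
  rw [add_mul, this]

/-- `χ(2-χ) = u(u+2k)/(u+k)²` -/
lemma chi2_eq {K r : ℝ} (hr : 0 < r) :
    chi K r * (2 - chi K r) =
      r ^ 2 * (r ^ 2 + 2 * K ^ 2) / (r ^ 2 + K ^ 2) ^ 2 := by
  unfold chi
  have h : r ^ 2 + K ^ 2 ≠ 0 := by positivity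
  field_simp
  ring

/-- the exact second order formula -/
lemma quad_id {u u' k : ℝ} (hu : 0 < u) (hu' : 0 < u') (hk : 0 ≤ k) :
    u' / (u' + k) * u' = u / (u + k) * u + (u' - u) * (u * (u + 2 * k) / (u + k) ^ 2) +
      k ^ 2 * (u' - u) ^ 2 / ((u + k) ^ 2 * (u' + k)) := by
  have h1 : u + k ≠ 0 := by positivity
  have h2 : u' + k ≠ 0 := by positivity
  field_simp
  ring

lemma phiR_sqrt {B K v : ℝ} (hv : 0 ≤ v) :
    phiR B K √v = B * √v + 11 / 20 * (v / (v + K ^ 2) * v) := by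
  unfold phiR chi
  rw [Real.sq_sqrt hv]

end RadAux

open RadAux

lemma sR_pos {B K r : ℝ} (hB : 0 < B) (hr : 0 < r) : 0 < sR B K r := by
  have h := chi2_nonneg K r
  unfold sR
  have : 0 < B / r := by positivity
  linarith

/-- `r² s / 4 ≤ φ ≤ r² s`. -/
lemma phi_ge {B K r : ℝ} (hB : 0 ≤ B) (hr : 0 < r) : sR B K r * r ^ 2 / 4 ≤ phiR B K r := by
  rw [sR_mul_sq hr]
  unfold phiR
  obtain ⟨h1, h2⟩ := chi_mem (K := K) (r := r)
  have h3 : 0 ≤ B * r := by positivity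
  have h4 : chi K r * (2 - chi K r) * r ^ 2 ≤ 2 * (chi K r * r ^ 2) := by
    have h5 : 0 ≤ chi K r * r ^ 2 := by positivity
    nlinarith [mul_nonneg h1 h5]
  nlinarith [mul_nonneg h1 (sq_nonneg r)]

lemma phi_le {B K r : ℝ} (hB : 0 ≤ B) (hr : 0 < r) : phiR B K r ≤ sR B K r * r ^ 2 := by
  rw [sR_mul_sq hr]
  unfold phiR
  obtain ⟨h1, h2⟩ := chi_mem (K := K) (r := r)
  have h5 : 0 ≤ chi K r * r ^ 2 := by positivity
  nlinarith [mul_nonneg (sub_nonneg.2 h2) h5]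

lemma phi_lin {B K r : ℝ} (hr : 0 ≤ r) : B * r ≤ phiR B K r := by
  unfold phiR
  have h1 := (chi_mem (K := K) (r := r)).1
  have h5 : 0 ≤ chi K r * r ^ 2 := by positivity
  linarith

lemma phi_low {B K r : ℝ} (hB : 0 ≤ B) (hr : 0 ≤ r) (hK : 0 < K) :
    11 / 20 * r ^ 2 - 11 / 20 * K ^ 2 ≤ phiR B K r := by
  have h1 : r ^ 2 - K ^ 2 ≤ chi K r * r ^ 2 := by
    unfold chi
    rw [div_mul_eq_mul_div, le_div_iff₀ (by positivity)]
    nlinarith [sq_nonneg (K ^ 2)]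
  unfold phiR
  have h3 : 0 ≤ B * r := by positivity
  linarith

lemma phi_up (B r : ℝ) (hr : 0 ≤ r) : ∀ᶠ K in atTop, phiR B K r ≤ B * r + 1 := by
  filter_upwards [eventually_ge_atTop (r ^ 2 + 1)] with K hK
  have h1 : chi K r * r ^ 2 ≤ 1 := by
    unfold chi
    have h0 : 0 < K := lt_of_lt_of_le (by positivity) hK
    rw [div_mul_eq_mul_div, div_le_one (by positivity)]
    nlinarith [sq_nonneg r, mul_le_mul hK hK (by positivity) h0.le]
  unfold phiR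
  linarith

lemma phi_mono {B K r r' : ℝ} (hB : 0 ≤ B) (hr : 0 ≤ r) (hr' : r ≤ r') :
    phiR B K r ≤ phiR B K r' := by
  have h1 : chi K r * r ^ 2 ≤ chi K r' * r' ^ 2 := by
    rcases hr.eq_or_lt with h | h
    · subst h
      have h2 := (chi_mem (K := K) (r := r')).1
      have : 0 ≤ chi K r' * r' ^ 2 := by positivity
      simpa using this
    · have h0 : 0 < r' := lt_of_lt_of_le h hr'
      unfold chi
      rw [div_mul_eq_mul_div, div_mul_eq_mul_div,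
        div_le_div_iff₀ (by positivity) (by positivity)]
      have h2 : r ^ 2 ≤ r' ^ 2 := pow_le_pow_left₀ hr hr' 2
      have hu : 0 < r ^ 2 := by positivity
      have hk : 0 ≤ K ^ 2 := sq_nonneg K
      have h3 : 0 ≤ (r' ^ 2 - r ^ 2) * (r ^ 2 * r' ^ 2 + K ^ 2 * (r' ^ 2 + r ^ 2)) := by
        apply mul_nonneg (by linarith) (by positivity)
      nlinarith
  unfold phiR
  have h2 : B * r ≤ B * r' := mul_le_mul_of_nonneg_left hr' hB
  linarith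

namespace RadAux

/-- concavity of the square root -/
lemma sqrt_le {u v : ℝ} (hu : 0 < u) (hv : 0 ≤ v) : √v ≤ √u + (v - u) / (2 * √u) := by
  have h1 : 0 < √u := Real.sqrt_pos.2 hu
  have h2 : √u * √u = u := Real.mul_self_sqrt hu.le
  have h3 : √v * √v = v := Real.mul_self_sqrt hv
  have h4 : (v - u) / (2 * √u) = (√v - √u) + (√v - √u) ^ 2 / (2 * √u) := by
    have : v - u = 2 * √u * (√v - √u) + (√v - √u) ^ 2 := by nlinarith
    rw [this, add_div]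
    congr 1
    field_simp
  rw [h4]
  have : 0 ≤ (√v - √u) ^ 2 / (2 * √u) := by positivity
  linarith

lemma delta_nonneg {r y δ : ℝ} (hr : 0 < r) (hy : 0 ≤ y) (hyδ : y ≤ δ * r ^ 2) : 0 ≤ δ := by
  have h1 : 0 ≤ δ * r ^ 2 := hy.trans hyδ
  exact nonneg_of_mul_nonneg_left h1 (by positivity)

end RadAux

lemma phi_add_le {B K r y δ : ℝ} (hB : 0 ≤ B) (hr : 0 < r) (hy : 0 ≤ y) (hδ : δ ≤ 1)
    (hyδ : y ≤ δ * r ^ 2) :
    phiR B K √(r ^ 2 + y) ≤ phiR B K r + (1 + δ) * (sR B K r * y / 2) := by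
  have hu : 0 < r ^ 2 := by positivity
  have hδ0 : 0 ≤ δ := delta_nonneg hr hy hyδ
  rw [phiR_sqrt (by positivity)]
  have h1 : √(r ^ 2 + y) ≤ r + y / (2 * r) := by
    have := sqrt_le hu (v := r ^ 2 + y) (by positivity)
    rwa [Real.sqrt_sq hr.le, add_sub_cancel_left] at this
  have h2 := quad_id (u := r ^ 2) (u' := r ^ 2 + y) (k := K ^ 2) hu (by positivity) (sq_nonneg K)
  rw [add_sub_cancel_left, ← chi2_eq hr] at h2
  have hk : 0 ≤ K ^ 2 := sq_nonneg K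
  have h3 : (K ^ 2) ^ 2 * y ^ 2 / ((r ^ 2 + K ^ 2) ^ 2 * (r ^ 2 + y + K ^ 2)) ≤
      δ * (y * (chi K r * (2 - chi K r))) := by
    rw [chi2_eq hr]
    have e1 : δ * (y * (r ^ 2 * (r ^ 2 + 2 * K ^ 2) / (r ^ 2 + K ^ 2) ^ 2)) =
        (δ * y * (r ^ 2 * (r ^ 2 + 2 * K ^ 2)) * (r ^ 2 + y + K ^ 2)) /
          ((r ^ 2 + K ^ 2) ^ 2 * (r ^ 2 + y + K ^ 2)) := by
      have : r ^ 2 + K ^ 2 ≠ 0 := by positivity
      have : r ^ 2 + y + K ^ 2 ≠ 0 := by positivity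
      field_simp
    rw [e1]
    apply div_le_div_of_nonneg_right _ (by positivity)
    have e2 : (K ^ 2) ^ 2 ≤ (r ^ 2 + 2 * K ^ 2) * (r ^ 2 + y + K ^ 2) := by
      nlinarith [mul_nonneg hk hy, mul_nonneg hk hu.le, mul_nonneg hu.le hy]
    calc (K ^ 2) ^ 2 * y ^ 2 = ((K ^ 2) ^ 2 * y) * y := by ring
      _ ≤ ((K ^ 2) ^ 2 * y) * (δ * r ^ 2) := mul_le_mul_of_nonneg_left hyδ (by positivity)
      _ = (δ * y * r ^ 2) * (K ^ 2) ^ 2 := by ring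
      _ ≤ (δ * y * r ^ 2) * ((r ^ 2 + 2 * K ^ 2) * (r ^ 2 + y + K ^ 2)) :=
          mul_le_mul_of_nonneg_left e2 (by positivity)
      _ = _ := by ring
  rw [h2]
  unfold phiR sR
  have h4 : B * √(r ^ 2 + y) ≤ B * r + B / r * y / 2 := by
    have := mul_le_mul_of_nonneg_left h1 hB
    have e : B * (r + y / (2 * r)) = B * r + B / r * y / 2 := by field_simp
    linarith
  have h5 : 0 ≤ δ * (B / r * y / 2) := by positivity
  have h6 : r ^ 2 / (r ^ 2 + K ^ 2) * r ^ 2 = chi K r * r ^ 2 := rfl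
  rw [h6]
  linarith

lemma phi_add_ge {B K r y δ : ℝ} (hB : 0 ≤ B) (hr : 0 < r) (hy : 0 ≤ y) (hδ : δ ≤ 1)
    (hyδ : y ≤ δ * r ^ 2) :
    phiR B K r + (1 - δ) * (sR B K r * y / 2) ≤ phiR B K √(r ^ 2 + y) := by
  have hu : 0 < r ^ 2 := by positivity
  have hδ0 : 0 ≤ δ := delta_nonneg hr hy hyδ
  rw [phiR_sqrt (by positivity)]
  have h1 : r + (1 - δ) * (y / (2 * r)) ≤ √(r ^ 2 + y) := by
    apply Real.le_sqrt_of_sq_le
    have e1 : (r + (1 - δ) * (y / (2 * r))) ^ 2 =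
        r ^ 2 + (1 - δ) * y + (1 - δ) ^ 2 * y * y / (4 * r ^ 2) := by
      field_simp
      ring
    rw [e1]
    have e2 : (1 - δ) ^ 2 * y * y / (4 * r ^ 2) ≤ δ * y := by
      rw [div_le_iff₀ (by positivity)]
      have e3 : (1 - δ) ^ 2 ≤ 1 := by nlinarith
      calc (1 - δ) ^ 2 * y * y ≤ 1 * y * y := by gcongr
        _ = y * y := by ring
        _ ≤ y * (δ * r ^ 2) := mul_le_mul_of_nonneg_left hyδ hy
        _ ≤ δ * y * (4 * r ^ 2) := by nlinarith [mul_nonneg (mul_nonneg hδ0 hy) hu.le]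
    linarith
  have h2 := quad_id (u := r ^ 2) (u' := r ^ 2 + y) (k := K ^ 2) hu (by positivity) (sq_nonneg K)
  rw [add_sub_cancel_left, ← chi2_eq hr] at h2
  have h3 : 0 ≤ (K ^ 2) ^ 2 * y ^ 2 / ((r ^ 2 + K ^ 2) ^ 2 * (r ^ 2 + y + K ^ 2)) := by positivity
  rw [h2]
  unfold phiR sR
  have h4 : B * r + (1 - δ) * (B / r * y / 2) ≤ B * √(r ^ 2 + y) := by
    have := mul_le_mul_of_nonneg_left h1 hB
    have e : B * (r + (1 - δ) * (y / (2 * r))) = B * r + (1 - δ) * (B / r * y / 2) := by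
      field_simp
    linarith
  have h5 : 0 ≤ δ * (y * (chi K r * (2 - chi K r))) := by
    have := chi2_nonneg K r
    positivity
  have h6 : r ^ 2 / (r ^ 2 + K ^ 2) * r ^ 2 = chi K r * r ^ 2 := rfl
  rw [h6]
  linarith

namespace RadAux

/-- the real part of the hermitian product -/
noncomputable def rho {n : ℕ} (b w : Fin n → ℂ) : ℝ := ∑ j, ((starRingEnd ℂ) (b j) * w j).re

lemma sq_nonneg' {n : ℕ} (z : Fin n → ℂ) : 0 ≤ H60.FB.sq z :=
  Finset.sum_nonneg fun _ _ => by positivity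

lemma nrm_sq {n : ℕ} (z : Fin n → ℂ) : nrm z ^ 2 = H60.FB.sq z := Real.sq_sqrt (sq_nonneg' z)

lemma nrm_nonneg {n : ℕ} (z : Fin n → ℂ) : 0 ≤ nrm z := Real.sqrt_nonneg _

lemma sq_add {n : ℕ} (b w : Fin n → ℂ) : H60.FB.sq (b + w) = H60.FB.sq b + 2 * rho b w + H60.FB.sq w := by
  unfold H60.FB.sq rho
  rw [Finset.mul_sum, ← Finset.sum_add_distrib, ← Finset.sum_add_distrib]
  refine Finset.sum_congr rfl fun j _ => ?_
  rw [Pi.add_apply, Complex.sq_norm, Complex.sq_norm, Complex.sq_norm, Complex.normSq_apply,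
    Complex.normSq_apply, Complex.normSq_apply]
  simp only [Complex.add_re, Complex.add_im, Complex.mul_re, Complex.conj_re, Complex.conj_im]
  ring

lemma abs_rho_le {n : ℕ} (b w : Fin n → ℂ) : |rho b w| ≤ nrm b * nrm w := by
  have h1 : |rho b w| ≤ ∑ j, ‖b j‖ * ‖w j‖ := by
    unfold rho
    refine (Finset.abs_sum_le_sum_abs _ _).trans (Finset.sum_le_sum fun j _ => ?_)
    refine (Complex.abs_re_le_norm _).trans ?_
    rw [norm_mul, Complex.norm_conj]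
  have h2 : (∑ j, ‖b j‖ * ‖w j‖) ^ 2 ≤ (nrm b * nrm w) ^ 2 := by
    rw [mul_pow, nrm_sq, nrm_sq]
    exact Finset.sum_mul_sq_le_sq_mul_sq Finset.univ (fun j => ‖b j‖) (fun j => ‖w j‖)
  have h3 : (∑ j, ‖b j‖ * ‖w j‖) ≤ nrm b * nrm w :=
    le_of_sq_le_sq h2 (mul_nonneg (nrm_nonneg b) (nrm_nonneg w))
  exact h1.trans h3

lemma dt_re {n : ℕ} (s : ℝ) (b w : Fin n → ℂ) :
    (dt ((s : ℂ) • cj b) w).re = s * rho b w := by
  unfold dt rho cj
  rw [Complex.re_sum, Finset.mul_sum]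
  refine Finset.sum_congr rfl fun j _ => ?_
  rw [Pi.smul_apply, smul_eq_mul, mul_assoc, Complex.re_ofReal_mul]

end RadAux

theorem phi_taylor {n : ℕ} : ∃ C : ℝ, 0 < C ∧ ∀ B K : ℝ, 1 ≤ B → 1 ≤ K → ∀ b w : Fin n → ℂ,
    B ≤ nrm b → nrm w ≤ nrm b / 2 →
    phiR B K (nrm (b + w)) ≤ phiR B K (nrm b) + (dt ((sR B K (nrm b) : ℂ) • cj b) w).re
      + C * nrm w ^ 2 := by
  refine ⟨15, by norm_num, fun B K hB hK b w hb hw => ?_⟩
  have hr : 0 < nrm b := by linarith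
  set r := nrm b with hrdef
  set t := nrm w with htdef
  have ht : 0 ≤ t := nrm_nonneg w
  have hrho : |rho b w| ≤ r * t := abs_rho_le b w
  obtain ⟨hrho1, hrho2⟩ := abs_le.1 hrho
  have hu : 0 < r ^ 2 := by positivity
  have hsb : H60.FB.sq b = r ^ 2 := (nrm_sq b).symm
  have hsw : H60.FB.sq w = t ^ 2 := (nrm_sq w).symm
  have hs : H60.FB.sq (b + w) = r ^ 2 + 2 * rho b w + t ^ 2 := by rw [sq_add, hsb, hsw]
  set D : ℝ := 2 * rho b w + t ^ 2 with hD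
  have hu' : r ^ 2 / 4 ≤ r ^ 2 + D := by
    rw [hD]
    nlinarith
  have hu'0 : 0 < r ^ 2 + D := by linarith [show 0 < r ^ 2 / 4 by positivity]
  have hv : H60.FB.sq (b + w) = r ^ 2 + D := by rw [hs, hD]; ring
  have h0 : phiR B K (nrm (b + w)) =
      B * √(r ^ 2 + D) + 11 / 20 * ((r ^ 2 + D) / ((r ^ 2 + D) + K ^ 2) * (r ^ 2 + D)) := by
    have : nrm (b + w) = √(r ^ 2 + D) := by rw [nrm, hv]
    rw [this, phiR_sqrt hu'0.le]
  have h1 : √(r ^ 2 + D) ≤ r + D / (2 * r) := by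
    have := sqrt_le hu (v := r ^ 2 + D) hu'0.le
    rwa [Real.sqrt_sq hr.le, add_sub_cancel_left] at this
  have h2 := quad_id (u := r ^ 2) (u' := r ^ 2 + D) (k := K ^ 2) hu hu'0 (sq_nonneg K)
  rw [add_sub_cancel_left, ← chi2_eq hr] at h2
  have hk : 0 ≤ K ^ 2 := sq_nonneg K
  have hDabs : D ^ 2 ≤ 25 / 4 * r ^ 2 * t ^ 2 := by
    have e1 : |D| ≤ 5 / 2 * (r * t) := by
      rw [hD, abs_le]
      constructor <;> nlinarith
    have e2 := pow_le_pow_left₀ (abs_nonneg D) e1 2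
    rw [sq_abs] at e2
    refine e2.trans (le_of_eq ?_)
    ring
  have h3 : (K ^ 2) ^ 2 * D ^ 2 / ((r ^ 2 + K ^ 2) ^ 2 * (r ^ 2 + D + K ^ 2)) ≤ 25 * t ^ 2 := by
    rw [div_le_iff₀ (by positivity)]
    have e1 : (K ^ 2) ^ 2 ≤ (r ^ 2 + K ^ 2) ^ 2 := pow_le_pow_left₀ hk (by linarith) 2
    have e2 : r ^ 2 / 4 ≤ r ^ 2 + D + K ^ 2 := by linarith
    calc (K ^ 2) ^ 2 * D ^ 2 ≤ (r ^ 2 + K ^ 2) ^ 2 * (25 / 4 * r ^ 2 * t ^ 2) :=
          mul_le_mul e1 hDabs (by positivity) (by positivity)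
      _ = 25 * t ^ 2 * ((r ^ 2 + K ^ 2) ^ 2 * (r ^ 2 / 4)) := by ring
      _ ≤ 25 * t ^ 2 * ((r ^ 2 + K ^ 2) ^ 2 * (r ^ 2 + D + K ^ 2)) :=
          mul_le_mul_of_nonneg_left (mul_le_mul_of_nonneg_left e2 (by positivity))
            (by positivity)
  have hsle : sR B K r ≤ 21 / 10 := by
    unfold sR
    have e1 : B / r ≤ 1 := (div_le_one hr).2 hb
    have e2 := chi2_le K r
    linarith
  have h4 : B * √(r ^ 2 + D) ≤ B * r + B / r * D / 2 := by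
    have := mul_le_mul_of_nonneg_left h1 (show 0 ≤ B by linarith)
    have e : B * (r + D / (2 * r)) = B * r + B / r * D / 2 := by field_simp
    linarith
  have h5 : (dt ((sR B K r : ℂ) • cj b) w).re = sR B K r * rho b w := dt_re _ _ _
  rw [h5, h0, h2]
  have h6 : r ^ 2 / (r ^ 2 + K ^ 2) * r ^ 2 = chi K r * r ^ 2 := rfl
  rw [h6]
  have h7 : B * √(r ^ 2 + D) + 11 / 20 * (chi K r * r ^ 2 + D * (chi K r * (2 - chi K r)) +
      (K ^ 2) ^ 2 * D ^ 2 / ((r ^ 2 + K ^ 2) ^ 2 * (r ^ 2 + D + K ^ 2))) ≤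
      phiR B K r + sR B K r * D / 2 + 11 / 20 * (25 * t ^ 2) := by
    unfold phiR sR
    linarith
  have h8 : sR B K r * D / 2 ≤ sR B K r * rho b w + 21 / 20 * t ^ 2 := by
    have e1 := mul_nonneg (sub_nonneg.2 hsle) (sq_nonneg t)
    have e2 : sR B K r * D / 2 = sR B K r * rho b w + sR B K r * t ^ 2 / 2 := by rw [hD]; ring
    rw [e2]
    linarith
  have h9 := sq_nonneg t
  linarith

end Pool.Agent.H77.N2
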