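import Pool.Agent.H77.N2.Coord
import Pool.Agent.H77.N2.Radial
import Pool.Agent.H77.N2.LocLim
import Pool.Agent.H77.N2.InjP

/-!
Module GLUE of MP_6e521b_an (n = 2): from the weights of all directions to the weights.
(Coord is proved; Radial, LocLim, InjP are black boxes.)

Proof. For each unit vector `e` choose `η_e, V_e, B_e`. The sets `{z : ‖xc e z‖ < η_e ‖tc e z‖}` are open and
cover the unit sphere `{sq z = 1}` (`xc e e = 0`, `tc e e = sq e = 1`), which is compact: finite set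
`E` (nonempty) of unit vectors whose sets cover the sphere; by homogeneity, every `z ≠ 0` is in one of
them. `Φ B K z := min_{e ∈ E} V_e B K z` (`Finset.inf'`), `B₁ := max_E B_e` and `1`.
(up) `Φ ≤ φ(nrm z)`, `phi_up`, `nrm z ≤ 2‖z‖`. (low), (lin): finitely many (take the max of the `C`).
(good) `Φ(b_k) = V_{e_k}(b_k)`; along the ultrafilter `e_k = e` is constant (finite set). 
Case 1: eventually `V_e(b_k) < φ(nrm b_k)`: use `good` of `e`, and `Φ(b_k + w) ≤ V_e(b_k + w)`.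
Case 2 (ultrafilter: otherwise eventually not `<`): `V_e(b_k) = φ(nrm b_k)` by `le`; then for all
`e' ∈ E`: `V_{e'}(b_k) ≥ Φ(b_k) = φ(nrm b_k)`, so equality. For some fixed `e' ∈ E`, eventually `b_k` is in
the cone of `e'` (`b_k ≠ 0`), so `far` of `e'` gives `μ` for `Y_k = s_k • cj b_k`,
`s_k = sR (B k) (K k) (nrm (b k))`. `GoodSeq`: `p, ν` from `exists_nu`, `q = 1`, `injPair_far`
(`c := min` of the two). Upper bound: `Φ(b_k + w) ≤ φ(nrm(b_k + w))` and `phi_taylor`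
(`nrm b_k ≥ B_k² ≥ B_k → ∞`, `nrm w ≤ 2‖w‖`; `B_k ≥ 1` eventually).
-/

open MvPolynomial Filter Topology Pool.Agent.H77.FB Pool.Agent.H60.FB

namespace Pool.Agent.H77.N2

lemma gl_sq_nonneg {n : ℕ} (z : Fin n → ℂ) : 0 ≤ Pool.Agent.H60.FB.sq z :=
  Finset.sum_nonneg fun _ _ => by positivity

lemma gl_nrm_le (z : Fin 2 → ℂ) : nrm z ≤ 2 * ‖z‖ := by
  unfold nrm
  rw [Real.sqrt_le_left (by positivity), sq_two]
  have h0 := norm_le_pi_norm z 0
  have h1 := norm_le_pi_norm z 1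
  have h2 : ‖z 0‖ ^ 2 ≤ ‖z‖ ^ 2 := pow_le_pow_left₀ (norm_nonneg _) h0 2
  have h3 : ‖z 1‖ ^ 2 ≤ ‖z‖ ^ 2 := pow_le_pow_left₀ (norm_nonneg _) h1 2
  nlinarith [norm_nonneg z]

lemma gl_norm_le (z : Fin 2 → ℂ) (h : Pool.Agent.H60.FB.sq z = 1) : ‖z‖ ≤ 1 := by
  rw [sq_two] at h
  rw [pi_norm_le_iff_of_nonneg (by norm_num)]
  intro i
  fin_cases i
  · show ‖z 0‖ ≤ 1
    nlinarith [norm_nonneg (z 0), sq_nonneg (‖z 1‖), sq_nonneg (‖z 0‖ - 1)]
  · show ‖z 1‖ ≤ 1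
    nlinarith [norm_nonneg (z 1), sq_nonneg (‖z 0‖), sq_nonneg (‖z 1‖ - 1)]

lemma gl_cont_sq : Continuous (fun z : Fin 2 → ℂ => Pool.Agent.H60.FB.sq z) := by
  have h : (fun z : Fin 2 → ℂ => Pool.Agent.H60.FB.sq z) = fun z => ‖z 0‖ ^ 2 + ‖z 1‖ ^ 2 :=
    funext sq_two
  rw [h]
  fun_prop

lemma gl_compact : IsCompact {z : Fin 2 → ℂ | Pool.Agent.H60.FB.sq z = 1} := by
  refine (isCompact_closedBall (0 : Fin 2 → ℂ) 1).of_isClosed_subset
    (isClosed_eq gl_cont_sq continuous_const) ?_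
  intro z hz
  rw [mem_closedBall_zero_iff]
  exact gl_norm_le z hz

lemma gl_smul_xc (e z : Fin 2 → ℂ) (c : ℂ) : xc e (c • z) = c * xc e z := by
  simp only [xc, Pi.smul_apply, smul_eq_mul]; ring

lemma gl_smul_tc (e z : Fin 2 → ℂ) (c : ℂ) : tc e (c • z) = c * tc e z := by
  simp only [tc, Pi.smul_apply, smul_eq_mul]; ring

lemma gl_sq_smul (z : Fin 2 → ℂ) (c : ℂ) :
    Pool.Agent.H60.FB.sq (c • z) = ‖c‖ ^ 2 * Pool.Agent.H60.FB.sq z := by
  rw [sq_two, sq_two]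
  simp only [Pi.smul_apply, smul_eq_mul, norm_mul]
  ring

/-- A finite set of unit vectors whose cones cover everything. -/
lemma gl_cover (η : (Fin 2 → ℂ) → ℝ)
    (hη : ∀ e, Pool.Agent.H60.FB.sq e = 1 → 0 < η e) :
    ∃ E : Finset (Fin 2 → ℂ), E.Nonempty ∧ (∀ e ∈ E, Pool.Agent.H60.FB.sq e = 1) ∧
      ∀ z : Fin 2 → ℂ, 0 < nrm z → ∃ e ∈ E, ‖xc e z‖ < η e * ‖tc e z‖ := by
  obtain ⟨E, hE1, hE2⟩ := gl_compact.elim_nhds_subcover
    (fun e => {z | ‖xc e z‖ < η e * ‖tc e z‖}) (by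
      intro e he
      refine IsOpen.mem_nhds ?_ ?_
      · refine isOpen_lt ?_ ?_
        · unfold xc; fun_prop
        · unfold tc; fun_prop
      · show ‖xc e e‖ < η e * ‖tc e e‖
        have h1 : xc e e = 0 := by unfold xc; ring
        have h2 : tc e e = 1 := by
          unfold tc
          rw [← unit_e he]; ring
        rw [h1, h2, norm_zero, norm_one, mul_one]
        exact hη e he)
  have hc : ∀ z : Fin 2 → ℂ, 0 < nrm z → ∃ e ∈ E, ‖xc e z‖ < η e * ‖tc e z‖ := by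
    intro z hz
    have hz2 : nrm z ^ 2 = Pool.Agent.H60.FB.sq z := Real.sq_sqrt (gl_sq_nonneg z)
    have h1 : Pool.Agent.H60.FB.sq (((nrm z)⁻¹ : ℂ) • z) = 1 := by
      rw [gl_sq_smul, norm_inv, Complex.norm_real, Real.norm_eq_abs, abs_of_pos hz, ← hz2,
        inv_pow, inv_mul_cancel₀ (by positivity)]
    have h2 := hE2 h1
    rw [Set.mem_iUnion₂] at h2
    obtain ⟨e, he, h3⟩ := h2
    refine ⟨e, he, ?_⟩
    change ‖xc e (((nrm z)⁻¹ : ℂ) • z)‖ < η e * ‖tc e (((nrm z)⁻¹ : ℂ) • z)‖ at h3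
    rw [gl_smul_xc, gl_smul_tc, norm_mul, norm_mul, norm_inv, Complex.norm_real,
      Real.norm_eq_abs, abs_of_pos hz] at h3
    have h4 : η e * ((nrm z)⁻¹ * ‖tc e z‖) = (nrm z)⁻¹ * (η e * ‖tc e z‖) := by ring
    rw [h4] at h3
    exact lt_of_mul_lt_mul_left h3 (by positivity)
  refine ⟨E, ?_, hE1, hc⟩
  have h1 : Pool.Agent.H60.FB.sq (![1, 0] : Fin 2 → ℂ) = 1 := by
    rw [sq_two]; simp
  obtain ⟨e, he, -⟩ := hc ![1, 0] (by unfold nrm; rw [h1]; simp)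
  exact ⟨e, he⟩

theorem weights_of_cones {P : MvPolynomial (Fin 2) ℂ} (hP : P ≠ 0)
    (h : ∀ e : Fin 2 → ℂ, Pool.Agent.H60.FB.sq e = 1 →
      ∃ (η : ℝ) (V : ℝ → ℝ → (Fin 2 → ℂ) → ℝ) (B₁ : ℝ), 0 < η ∧ ConeProp P e η V B₁) :
    ∃ (Φ : ℝ → ℝ → (Fin 2 → ℂ) → ℝ) (B₁ : ℝ), Weights P Φ B₁ := by
  classical
  choose! η V Bf hη hV using h
  obtain ⟨E, hE, hE1, hcov⟩ := gl_cover η hη
  set Φ : ℝ → ℝ → (Fin 2 → ℂ) → ℝ := fun B K z => E.inf' hE (fun e => V e B K z) with hΦ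
  have hΦle : ∀ e ∈ E, ∀ B K z, Φ B K z ≤ V e B K z := fun e he B K z =>
    Finset.inf'_le (fun e => V e B K z) he
  have hΦphi : ∀ B K z, Φ B K z ≤ phiR B K (nrm z) := fun B K z => by
    obtain ⟨e, he⟩ := hE
    exact (hΦle e he B K z).trans ((hV e (hE1 e he)).le B K z)
  refine ⟨Φ, max 1 (E.sup' hE Bf), ⟨⟨2, fun B hB z => ?_⟩, fun B hB K hK => ?_, fun B₀ => ?_, ?_⟩⟩
  · -- up
    have hB1 : 1 ≤ B := (le_max_left _ _).trans hB
    have h1 : 0 ≤ nrm z := Real.sqrt_nonneg _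
    filter_upwards [phi_up B (nrm z) h1] with K hK
    have h2 := gl_nrm_le z
    have h3 := norm_nonneg z
    calc Φ B K z ≤ phiR B K (nrm z) := hΦphi B K z
      _ ≤ B * nrm z + 1 := hK
      _ ≤ B * (2 * ‖z‖) + 2 * B := by
        have := mul_le_mul_of_nonneg_left h2 (by linarith : (0 : ℝ) ≤ B)
        linarith
      _ = 2 * B * (‖z‖ + 1) := by ring
  · -- low
    have h1 : ∀ e ∈ E, ∃ C : ℝ, ∀ z, Pool.Agent.H60.FB.sq z / 2 - C ≤ V e B K z := fun e he =>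
      (hV e (hE1 e he)).low B
        (((Finset.le_sup' Bf he).trans (le_max_right _ _)).trans hB) K hK
    choose! C hC using h1
    refine ⟨E.sup' hE C, fun z => ?_⟩
    refine Finset.le_inf' hE _ fun e he => ?_
    have h2 := hC e he z
    have h3 := Finset.le_sup' C he
    linarith
  · -- lin
    have h1 : ∀ e ∈ E, ∃ B₂ : ℝ, ∀ B ≥ B₂, ∀ K ≥ 1, ∀ z, B₀ * ‖z‖ ≤ V e B K z := fun e he =>
      (hV e (hE1 e he)).lin B₀
    choose! B₂ hB₂ using h1
    refine ⟨E.sup' hE B₂, fun B hB K hK z => ?_⟩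
    exact Finset.le_inf' hE _ fun e he => hB₂ e he B ((Finset.le_sup' B₂ he).trans hB) K hK z
  · -- good
    intro 𝒰 h𝒰 B K b hB hK hb
    have h1 : ∀ᶠ k in (𝒰 : Filter ℕ), ∃ e ∈ (E : Set (Fin 2 → ℂ)),
        Φ (B k) (K k) (b k) = V e (B k) (K k) (b k) := by
      refine Eventually.of_forall fun k => ?_
      obtain ⟨e, he, h2⟩ := Finset.exists_mem_eq_inf' hE (fun e => V e (B k) (K k) (b k))
      exact ⟨e, he, h2⟩
    rw [Ultrafilter.eventually_exists_mem_iff E.finite_toSet] at h1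
    obtain ⟨e, heE, he⟩ := h1
    have heE : e ∈ E := heE
    by_cases hlt : ∀ᶠ k in (𝒰 : Filter ℕ), V e (B k) (K k) (b k) < phiR (B k) (K k) (nrm (b k))
    · obtain ⟨Y, hY1, hY2⟩ := (hV e (hE1 e heE)).good 𝒰 h𝒰 B K b hB hK hb hlt
      refine ⟨Y, fun R => ?_, hY2⟩
      obtain ⟨C, hC⟩ := hY1 R
      refine ⟨C, ?_⟩
      filter_upwards [hC, he] with k h2 h3 w hw
      rw [h3]
      exact (hΦle e heE _ _ _).trans (h2 w hw)
    · rw [← Ultrafilter.eventually_not] at hlt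
      have heq : ∀ᶠ k in (𝒰 : Filter ℕ),
          Φ (B k) (K k) (b k) = phiR (B k) (K k) (nrm (b k)) := by
        filter_upwards [hlt, he] with k h2 h3
        rw [h3]
        exact le_antisymm ((hV e (hE1 e heE)).le _ _ _) (not_lt.1 h2)
      have hpos : ∀ᶠ k in (𝒰 : Filter ℕ), 0 < nrm (b k) := by
        filter_upwards [hB.eventually_ge_atTop 1] with k hk
        have h2 := hb k
        nlinarith
      have hcone : ∀ᶠ k in (𝒰 : Filter ℕ), ∃ e ∈ (E : Set (Fin 2 → ℂ)),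
          ‖xc e (b k)‖ < η e * ‖tc e (b k)‖ := by
        filter_upwards [hpos] with k hk
        exact hcov (b k) hk
      rw [Ultrafilter.eventually_exists_mem_iff E.finite_toSet] at hcone
      obtain ⟨e', heE', hcone'⟩ := hcone
      have heE' : e' ∈ E := heE'
      have heq' : ∀ᶠ k in (𝒰 : Filter ℕ),
          V e' (B k) (K k) (b k) = phiR (B k) (K k) (nrm (b k)) := by
        filter_upwards [heq] with k h2
        refine le_antisymm ((hV e' (hE1 e' heE')).le _ _ _) ?_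
        rw [← h2]
        exact hΦle e' heE' _ _ _
      obtain ⟨μ, c, hc, hμ, hlim⟩ :=
        (hV e' (hE1 e' heE')).far 𝒰 h𝒰 B K b hB hK hb heq' hcone'
      obtain ⟨p, ν, c', hp, hc', hν, hlim'⟩ := exists_nu P hP 𝒰 b
      refine ⟨fun k => (sR (B k) (K k) (nrm (b k)) : ℂ) • cj (b k), fun R => ?_, ?_⟩
      · obtain ⟨C₀, hC₀, hT⟩ := phi_taylor (n := 2)
        refine ⟨C₀ * (2 * R) ^ 2, ?_⟩
        filter_upwards [heq, hB.eventually_ge_atTop 1, hB.eventually_ge_atTop (4 * R)]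
          with k h2 h3 h4 w hw
        have h5 := hb k
        have h6 : B k ≤ nrm (b k) := by nlinarith
        have h7 := gl_nrm_le w
        have h8 : 0 ≤ nrm w := Real.sqrt_nonneg _
        have h9 := hT (B k) (K k) h3 (hK k) (b k) w h6 (by linarith)
        have h10 : nrm w ^ 2 ≤ (2 * R) ^ 2 := pow_le_pow_left₀ h8 (by linarith) 2
        rw [h2]
        calc Φ (B k) (K k) (b k + w) ≤ phiR (B k) (K k) (nrm (b k + w)) := hΦphi _ _ _
          _ ≤ _ := h9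
          _ ≤ _ := by
            have := mul_le_mul_of_nonneg_left h10 hC₀.le
            linarith
      · refine ⟨p, 1, ν, μ, min c' c, lt_min hc' hc, ?_, hlim', ?_, injPair_far p hp⟩
        · filter_upwards [hμ] with k hk
          exact ⟨(min_le_left _ _).trans (hν k), (min_le_right _ _).trans hk⟩
        · intro w
          rw [map_one]
          exact hlim w

end Pool.Agent.H77.N2
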