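import Pool.Agent.H60.FB.Prod
import Pool.Agent.H37.FB.Homog
import Mathlib.RingTheory.MvPolynomial.EulerIdentity

/-!
Polynomials that depend on at most two linear forms.
-/

open MvPolynomial Filter Topology Pool.Agent.H77.FB Pool.Agent.H60.FB

namespace Pool.Agent.H77.N2

variable {n : ℕ}

/-- The estimate in no variables. -/
lemma est_zero_var (Q : MvPolynomial (Fin 0) ℂ) : Est Q :=
  est_of_period Q fun v _ z => by rw [Subsingleton.elim (z + v) z]

/-- The estimate in one variable. -/
lemma est_one_var (Q : MvPolynomial (Fin 1) ℂ) : Est Q := by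
  refine est_of_period Q fun v hv z => ?_
  by_cases hd : Q.totalDegree = 0
  · rw [totalDegree_eq_zero_iff_eq_C.1 hd, eval_C, eval_C]
  by_cases hv0 : v = 0
  · rw [hv0, add_zero]
  exfalso
  have hh := homogeneousComponent_isHomogeneous Q.totalDegree Q
  set p := homogeneousComponent Q.totalDegree Q with hp
  have h1 := congrArg (eval v) hh.sum_X_mul_pderiv
  rw [map_sum, nsmul_eq_mul, map_mul, map_natCast] at h1
  have h2 : ∑ i, eval v (X i * pderiv i p) = 0 :=
    Finset.sum_eq_zero fun i _ => by rw [map_mul, hv i, mul_zero]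
  rw [h2] at h1
  have h3 : eval v p = 0 :=
    (mul_eq_zero.1 h1.symm).resolve_left (by exact_mod_cast hd)
  apply leading_ne_zero hd
  rw [← hp]
  refine MvPolynomial.funext fun w => ?_
  have hv1 : v 0 ≠ 0 := by
    intro h0
    apply hv0
    funext i
    rw [Subsingleton.elim i 0, h0]
    rfl
  have hw : w = (w 0 / v 0) • v := by
    funext i
    rw [Subsingleton.elim i 0, Pi.smul_apply, smul_eq_mul, div_mul_cancel₀ _ hv1]
  rw [hw, eval_smul_homog hh, h3, mul_zero, map_zero]

/-- If `P` depends on at most two linear forms. -/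
theorem est_two_forms (h2 : ∀ Q : MvPolynomial (Fin 2) ℂ, Est Q) (P : MvPolynomial (Fin n) ℂ)
    (a b : Fin n → ℂ) (h : ∀ v : Fin n → ℂ, ∑ l, a l * v l = 0 → ∑ l, b l * v l = 0 →
      ∀ z, eval (z + v) P = eval z P) : Est P := by
  obtain ⟨k, Q, L, hL, hQ, hPL, -, -, horth⟩ := exists_reduction P
  have hk : k ≤ 2 := by
    set F : (Fin k → ℂ) →ₗ[ℂ] (Fin 2 → ℂ) :=
      ((Matrix.of ![a, b] : Matrix (Fin 2) (Fin n) ℂ) * L.conjTranspose).mulVecLin with hF
    have hinj : Function.Injective F := by
      rw [injective_iff_map_eq_zero]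
      intro y hy
      have e1 : F y = (Matrix.of ![a, b] : Matrix (Fin 2) (Fin n) ℂ).mulVec
          (L.conjTranspose.mulVec y) := by
        rw [hF, Matrix.mulVecLin_apply, Matrix.mulVec_mulVec]
      rw [e1] at hy
      have ha := congrFun hy 0
      have hb := congrFun hy 1
      simp only [Matrix.mulVec, dotProduct, Matrix.of_apply, Matrix.cons_val_zero,
        Matrix.cons_val_one, Pi.zero_apply] at ha hb
      have hprd : L.conjTranspose.mulVec y ∈ Prd P := fun z => h _ ha hb z
      have h3 := horth y _ hprd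
      have h4 : L.conjTranspose.mulVec y = 0 := by
        have h5 : ∑ j, ‖L.conjTranspose.mulVec y j‖ ^ 2 = 0 := by
          have h6 : ((∑ j, ‖L.conjTranspose.mulVec y j‖ ^ 2 : ℝ) : ℂ) = 0 := by
            push_cast
            rw [← h3]
            refine Finset.sum_congr rfl fun j _ => ?_
            rw [Complex.mul_conj, Complex.normSq_eq_norm_sq]
            push_cast
            rfl
          exact_mod_cast h6
        funext j
        have h6 := (Finset.sum_eq_zero_iff_of_nonneg fun j _ => sq_nonneg _).1 h5 j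
          (Finset.mem_univ j)
        exact norm_eq_zero.1 (pow_eq_zero_iff (two_ne_zero)|>.1 h6)
      have h7 : L.mulVec (L.conjTranspose.mulVec y) = y := by
        rw [Matrix.mulVec_mulVec, hL, Matrix.one_mulVec]
      rw [← h7, h4, Matrix.mulVec_zero]
    have := LinearMap.finrank_le_finrank_of_injective hinj
    rwa [Module.finrank_fin_fun, Module.finrank_fin_fun] at this
  refine est_slice P Q L hL hQ hPL ?_
  interval_cases k
  · exact est_zero_var Q
  · exact est_one_var Q
  · exact h2 Q

end Pool.Agent.H77.N2
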