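import Pool.Agent.H77.N2.Cone
import Pool.Agent.H77.N2.Glue
import Pool.Agent.H77.N2.EstW
import Pool.Agent.H77.N2.TwoForms

/-!
The a priori estimate for every polynomial in two variables.
-/

open MvPolynomial Pool.Agent.H77.FB Pool.Agent.H60.FB

namespace Pool.Agent.H77.N2

/-- The a priori estimate in two variables. -/
theorem est_two (P : MvPolynomial (Fin 2) ℂ) : Est P := by
  rcases eq_or_ne P 0 with rfl | hP
  · rw [← C_0]
    exact est_C 0
  · have hstar : star' P ≠ 0 := fun h0 => hP (by
      rw [← Pool.Agent.H60.FB.star_star P, h0]
      refine MvPolynomial.funext fun z => ?_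
      rw [eval_star']
      simp)
    exact est_of_weights P hP (weights_of_cones hstar fun _ he => exists_cone hstar he)

end Pool.Agent.H77.N2
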