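import Pool.Agent.H77.N2.Defs

/-!
Module BASEEX of MP_6e521b_an (n = 2): the base state.

With `y = x.1 * x.2` (near the positive axis: `y = ‖q‖² + q (x.2 - q̄)`, so
`‖y - ‖q‖²‖ ≤ ε ‖q‖²`), `ρ = √y`, `X = ρ^N`, `χ = X² / (X² + K²)`:
`ψ = β (B X + 11/20 χ X²)`, `SS = B / X + 11/10 χ (2 - χ)`, `σ = (β SS)^(1/N)` (principal branch).
`dψ/dX = β X SS`, and `∂_q X = N X / (2 q)`; this gives `eq`, as `(r σ)^N = r^N β SS`,
`X² = (q r)^N`.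
`sym`: all functions are real on the real axis (`shp` swaps: `y(r̄, q̄) = ȳ`).
Bounds: `X = Q^N z` with `‖z - 1‖ ≤ 1/100`, and `‖SS - s(Q^N)‖ ≤ s(Q^N) / 8`.
`Scmp`, `Sdbl`: `s(r') ≤ λ² s(r)` for `r' ≤ λ r`, `r ≤ λ r'` (`λ ≥ 1`).
-/

open Filter Topology

namespace Pool.Agent.H77.N2

/-! ### The radial functions -/

namespace Bx

lemma chi_nonneg {K r : ℝ} : 0 ≤ chi K r := by
  unfold chi; positivity

lemma chi_le_one {K r : ℝ} : chi K r ≤ 1 := by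
  unfold chi
  exact div_le_one_of_le₀ (by nlinarith [sq_nonneg K]) (by positivity)

lemma sR_pos {B K r : ℝ} (hB : 0 < B) (hr : 0 < r) : 0 < sR B K r := by
  unfold sR
  have h1 := chi_nonneg (K := K) (r := r)
  have h2 := chi_le_one (K := K) (r := r)
  have h3 : 0 < B / r := div_pos hB hr
  have h4 : 0 ≤ chi K r * (2 - chi K r) := mul_nonneg h1 (by linarith)
  linarith

end Bx

open Bx

/-- Elementary facts on the base functions. -/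
lemma SR_pow {N : ℕ} (hN : 1 ≤ N) {β B K Q : ℝ} (hβ : 0 < β) (hB : 0 < B) (hQ : 0 < Q) :
    SR N β B K Q ^ N = β * sR B K (Q ^ N) := by
  unfold SR
  rw [one_div]
  exact Real.rpow_inv_natCast_pow (mul_pos hβ (sR_pos hB (pow_pos hQ N))).le (by omega)

lemma SR_pos {N : ℕ} {β B K Q : ℝ} (hβ : 0 < β) (hB : 0 < B) (hQ : 0 < Q) :
    0 < SR N β B K Q :=
  Real.rpow_pos_of_pos (mul_pos hβ (sR_pos hB (pow_pos hQ N))) _

lemma SR_le {N : ℕ} (hN : 1 ≤ N) {β B K Q : ℝ} (hβ : 0 < β) (hβ1 : β ≤ 1) (hB : 0 < B)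
    (hQ : 0 < Q) (hQB : 100 * B ≤ Q ^ N) : SR N β B K Q ^ N ≤ 111 / 100 := by
  rw [SR_pow hN hβ hB hQ]
  have h0 : 0 < Q ^ N := pow_pos hQ N
  have h1 := chi_nonneg (K := K) (r := Q ^ N)
  have h2 := chi_le_one (K := K) (r := Q ^ N)
  have h3 : B / Q ^ N ≤ 1 / 100 := by
    rw [div_le_iff₀ h0]; linarith
  have h4 : sR B K (Q ^ N) ≤ 111 / 100 := by
    unfold sR
    nlinarith [sq_nonneg (chi K (Q ^ N) - 1)]
  have h5 := sR_pos (K := K) hB h0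
  nlinarith

/-- `π^N = β s τ`. -/
lemma piR_pow {N : ℕ} (hN : 1 ≤ N) {β B K Q : ℝ} (hβ : 0 < β) (hB : 0 < B) (hQ : 0 < Q) :
    piR N β B K Q ^ N = β * sR B K (Q ^ N) * Q ^ N := by
  unfold piR
  rw [mul_pow, SR_pow hN hβ hB hQ]
  ring

/-- `π^N ≥ β B`. -/
lemma piR_pow_ge {N : ℕ} (hN : 1 ≤ N) {β B K Q : ℝ} (hβ : 0 < β) (hB : 0 < B) (hQ : 0 < Q) :
    β * B ≤ piR N β B K Q ^ N := by
  rw [piR_pow hN hβ hB hQ, mul_assoc]
  refine mul_le_mul_of_nonneg_left ?_ hβ.le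
  have h0 : 0 < Q ^ N := pow_pos hQ N
  have h1 := chi_nonneg (K := K) (r := Q ^ N)
  have h2 := chi_le_one (K := K) (r := Q ^ N)
  have h4 : 0 ≤ chi K (Q ^ N) * (2 - chi K (Q ^ N)) := mul_nonneg h1 (by linarith)
  unfold sR
  rw [add_mul, div_mul_cancel₀ _ h0.ne']
  have : 0 ≤ 11 / 10 * (chi K (Q ^ N) * (2 - chi K (Q ^ N))) * Q ^ N := by positivity
  linarith

namespace Bx

lemma chi_two_sub {K r : ℝ} (hK : 0 < K) :
    chi K r * (2 - chi K r) = r ^ 2 * (r ^ 2 + 2 * K ^ 2) / (r ^ 2 + K ^ 2) ^ 2 := by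
  unfold chi
  have : r ^ 2 + K ^ 2 ≠ 0 := by positivity
  field_simp
  ring

lemma chi_cmp {K r r' l : ℝ} (hK : 0 < K) (hr : 0 < r) (hr' : 0 < r') (hl : 1 ≤ l)
    (h : r' ≤ l * r) : chi K r' * (2 - chi K r') ≤ l ^ 2 * (chi K r * (2 - chi K r)) := by
  rcases le_total r' r with h1 | h1
  · -- monotone
    have h2 : chi K r' ≤ chi K r := by
      unfold chi
      rw [div_le_div_iff₀ (by positivity) (by positivity)]
      have : r' ^ 2 ≤ r ^ 2 := pow_le_pow_left₀ hr'.le h1 2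
      nlinarith [sq_nonneg K]
    have h3 := chi_nonneg (K := K) (r := r')
    have h4 := chi_le_one (K := K) (r := r)
    have h5 := chi_nonneg (K := K) (r := r)
    have h6 : chi K r' * (2 - chi K r') ≤ chi K r * (2 - chi K r) := by nlinarith
    have h7 : 0 ≤ chi K r * (2 - chi K r) := mul_nonneg h5 (by linarith)
    have h8 : 1 ≤ l ^ 2 := one_le_pow₀ hl
    nlinarith
  · rw [chi_two_sub hK, chi_two_sub hK]
    have h2 : (r' ^ 2 + 2 * K ^ 2) / (r' ^ 2 + K ^ 2) ^ 2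
        ≤ (r ^ 2 + 2 * K ^ 2) / (r ^ 2 + K ^ 2) ^ 2 := by
      have e : ∀ s : ℝ, (s ^ 2 + 2 * K ^ 2) / (s ^ 2 + K ^ 2) ^ 2
          = 1 / (s ^ 2 + K ^ 2) + K ^ 2 * (1 / (s ^ 2 + K ^ 2)) ^ 2 := by
        intro s
        have : s ^ 2 + K ^ 2 ≠ 0 := by positivity
        field_simp
        ring
      rw [e, e]
      have h3 : 1 / (r' ^ 2 + K ^ 2) ≤ 1 / (r ^ 2 + K ^ 2) := by
        apply one_div_le_one_div_of_le (by positivity)
        have : r ^ 2 ≤ r' ^ 2 := pow_le_pow_left₀ hr.le h1 2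
        linarith
      have h4 : (1 / (r' ^ 2 + K ^ 2)) ^ 2 ≤ (1 / (r ^ 2 + K ^ 2)) ^ 2 :=
        pow_le_pow_left₀ (by positivity) h3 2
      have h5 : K ^ 2 * (1 / (r' ^ 2 + K ^ 2)) ^ 2 ≤ K ^ 2 * (1 / (r ^ 2 + K ^ 2)) ^ 2 :=
        mul_le_mul_of_nonneg_left h4 (sq_nonneg K)
      linarith
    have h6 : r' ^ 2 ≤ (l * r) ^ 2 := pow_le_pow_left₀ hr'.le h 2
    calc r' ^ 2 * (r' ^ 2 + 2 * K ^ 2) / (r' ^ 2 + K ^ 2) ^ 2
        = r' ^ 2 * ((r' ^ 2 + 2 * K ^ 2) / (r' ^ 2 + K ^ 2) ^ 2) := by ring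
      _ ≤ (l * r) ^ 2 * ((r ^ 2 + 2 * K ^ 2) / (r ^ 2 + K ^ 2) ^ 2) :=
          mul_le_mul h6 h2 (by positivity) (by positivity)
      _ = l ^ 2 * (r ^ 2 * (r ^ 2 + 2 * K ^ 2) / (r ^ 2 + K ^ 2) ^ 2) := by ring

lemma sR_cmp {B K r r' l : ℝ} (hB : 0 < B) (hK : 0 < K) (hr : 0 < r) (hr' : 0 < r')
    (hl : 1 ≤ l) (h : r' ≤ l * r) (h' : r ≤ l * r') : sR B K r' ≤ l ^ 2 * sR B K r := by
  have h1 := chi_cmp hK hr hr' hl h
  have h2 : B / r' ≤ l ^ 2 * (B / r) := by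
    have h3 : B / r' ≤ l * (B / r) := by
      rw [div_le_iff₀ hr']
      have : l * (B / r) * r' = B * (l * r') / r := by ring
      rw [this, le_div_iff₀ hr]
      exact mul_le_mul_of_nonneg_left h' hB.le
    have h4 : 0 < B / r := div_pos hB hr
    have h5 : l * (B / r) ≤ l ^ 2 * (B / r) :=
      mul_le_mul_of_nonneg_right (by nlinarith) h4.le
    linarith
  unfold sR
  linarith

lemma SR_cmp {N : ℕ} (hN : 1 ≤ N) {β B K Q Q' l : ℝ} (hβ : 0 < β) (hB : 0 < B) (hK : 0 < K)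
    (hQ : 0 < Q) (hQ' : 0 < Q') (hl : 1 ≤ l) (h : Q' ≤ l * Q) (h' : Q ≤ l * Q') :
    SR N β B K Q' ≤ l ^ 2 * SR N β B K Q := by
  have h1 := SR_pos (N := N) (K := K) hβ hB hQ
  refine le_of_pow_le_pow_left₀ (n := N) (by omega) (by positivity) ?_
  rw [mul_pow, SR_pow hN hβ hB hQ, SR_pow hN hβ hB hQ']
  have h2 : sR B K (Q' ^ N) ≤ (l ^ N) ^ 2 * sR B K (Q ^ N) := by
    apply sR_cmp hB hK (pow_pos hQ N) (pow_pos hQ' N) (one_le_pow₀ hl)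
    · rw [← mul_pow]; exact pow_le_pow_left₀ hQ'.le h N
    · rw [← mul_pow]; exact pow_le_pow_left₀ hQ.le h' N
  calc β * sR B K (Q' ^ N) ≤ β * ((l ^ N) ^ 2 * sR B K (Q ^ N)) :=
        mul_le_mul_of_nonneg_left h2 hβ.le
    _ = (l ^ 2) ^ N * (β * sR B K (Q ^ N)) := by rw [← pow_mul, ← pow_mul, mul_comm N 2]; ring

/-! ### The complex functions -/

/-- `√(q r)`. -/
noncomputable def rho (x : ℂ × ℂ) : ℂ := (x.1 * x.2) ^ ((2 : ℂ)⁻¹)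

/-- `X = √(q r)^N`. -/
noncomputable def XX (N : ℕ) (x : ℂ × ℂ) : ℂ := rho x ^ N

noncomputable def phC (B K : ℝ) (X : ℂ) : ℂ :=
  B * X + 11 / 20 * (X ^ 2 / (X ^ 2 + K ^ 2) * X ^ 2)

noncomputable def sC (B K : ℝ) (X : ℂ) : ℂ :=
  B / X + 11 / 10 * (X ^ 2 / (X ^ 2 + K ^ 2) * (2 - X ^ 2 / (X ^ 2 + K ^ 2)))

lemma phC_ofReal (B K r : ℝ) : phC B K (r : ℂ) = (phiR B K r : ℝ) := by
  unfold phC phiR chi
  push_cast
  ring

lemma sC_ofReal (B K r : ℝ) : sC B K (r : ℂ) = (sR B K r : ℝ) := by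
  unfold sC sR chi
  push_cast
  ring

lemma rho_sq (x : ℂ × ℂ) : rho x ^ 2 = x.1 * x.2 := by
  unfold rho
  exact Complex.cpow_ofNat_inv_pow (x.1 * x.2) 2

lemma rho_re {x : ℂ × ℂ} (hx : x.1 * x.2 ≠ 0) : 0 ≤ (rho x).re := by
  unfold rho
  rw [Complex.cpow_def_of_ne_zero hx, Complex.exp_re]
  refine mul_nonneg (Real.exp_pos _).le (Real.cos_nonneg_of_mem_Icc ?_)
  have h1 : (Complex.log (x.1 * x.2) * (2 : ℂ)⁻¹).im = (x.1 * x.2).arg / 2 := by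
    have : (2 : ℂ)⁻¹ = ((1 / 2 : ℝ) : ℂ) := by norm_num
    rw [this, Complex.im_mul_ofReal, Complex.log_im]
    ring
  rw [h1]
  have h2 := Complex.neg_pi_lt_arg (x.1 * x.2)
  have h3 := Complex.arg_le_pi (x.1 * x.2)
  constructor <;> linarith

section

variable {R ε : ℝ}

lemma y_near {x : ℂ × ℂ} (hx : x ∈ Dom R ε) :
    ‖x.1 * x.2 - (‖x.1‖ : ℂ) ^ 2‖ ≤ ε * ‖x.1‖ ^ 2 := by
  have h1 : x.1 * x.2 - (‖x.1‖ : ℂ) ^ 2 = x.1 * (x.2 - (starRingEnd ℂ) x.1) := by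
    rw [mul_sub, Complex.mul_conj, Complex.normSq_eq_norm_sq]
    push_cast
    ring
  rw [h1, norm_mul]
  have h2 := hx.2.2.1
  nlinarith [norm_nonneg x.1]

lemma rho_near (hR : 1 ≤ R) {x : ℂ × ℂ} (hx : x ∈ Dom R ε) :
    ‖rho x - (‖x.1‖ : ℂ)‖ ≤ ε * ‖x.1‖ := by
  have hQ : 0 < ‖x.1‖ := by have := hx.1; linarith
  have hr : 0 < ‖x.2‖ := by have := hx.2.1; linarith
  have hne : x.1 * x.2 ≠ 0 := mul_ne_zero (norm_pos_iff.1 hQ) (norm_pos_iff.1 hr)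
  have h1 := y_near hx
  rw [← rho_sq] at h1
  have h2 : rho x ^ 2 - (‖x.1‖ : ℂ) ^ 2 = (rho x - ‖x.1‖) * (rho x + ‖x.1‖) := by ring
  rw [h2, norm_mul] at h1
  have h3 : ‖x.1‖ ≤ ‖rho x + (‖x.1‖ : ℂ)‖ := by
    have h4 : (rho x + (‖x.1‖ : ℂ)).re = (rho x).re + ‖x.1‖ := by simp
    have h5 := Complex.re_le_norm (rho x + (‖x.1‖ : ℂ))
    rw [h4] at h5
    have := rho_re hne
    linarith
  by_contra hcon
  push Not at hcon
  nlinarith [mul_lt_mul_of_pos_right hcon hQ,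
    mul_le_mul_of_nonneg_left h3 (norm_nonneg (rho x - (‖x.1‖ : ℂ)))]

end

lemma pow_sub_one_le {z : ℂ} {ε : ℝ} (hε : 0 < ε) (hz : ‖z - 1‖ ≤ ε) (N : ℕ) :
    ‖z ^ N - 1‖ ≤ (1 + ε) ^ N - 1 := by
  have hz1 : ‖z‖ ≤ 1 + ε := by
    have := norm_add_le (z - 1) 1
    rw [sub_add_cancel, norm_one] at this
    linarith
  induction N with
  | zero => simp
  | succ n ih =>
    have h1 : z ^ (n + 1) - 1 = z ^ n * (z - 1) + (z ^ n - 1) := by ring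
    rw [h1]
    refine (norm_add_le _ _).trans ?_
    rw [norm_mul, norm_pow]
    have h2 : ‖z‖ ^ n * ‖z - 1‖ ≤ (1 + ε) ^ n * ε :=
      mul_le_mul (pow_le_pow_left₀ (norm_nonneg _) hz1 n) hz (norm_nonneg _) (by positivity)
    rw [pow_succ]
    linarith

/-- The size of the neighbourhood. -/
noncomputable def eps0 (N : ℕ) : ℝ := 1 / (200 * N)

lemma eps0_pos {N : ℕ} (hN : 1 ≤ N) : 0 < eps0 N := by
  have : (0 : ℝ) < N := by exact_mod_cast hN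
  unfold eps0; positivity

lemma eps0_le {N : ℕ} (hN : 1 ≤ N) : eps0 N ≤ 1 / 200 := by
  have : (1 : ℝ) ≤ N := by exact_mod_cast hN
  unfold eps0
  apply one_div_le_one_div_of_le (by norm_num)
  linarith

lemma eps0_pow {N : ℕ} (hN : 1 ≤ N) : (1 + eps0 N) ^ N - 1 ≤ 1 / 100 := by
  have h0 : (0 : ℝ) < N := by exact_mod_cast hN
  have h1 : 1 + eps0 N ≤ Real.exp (eps0 N) := by
    have := Real.add_one_le_exp (eps0 N); linarith
  have h2 : (1 + eps0 N) ^ N ≤ Real.exp (1 / 200) := by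
    calc (1 + eps0 N) ^ N ≤ Real.exp (eps0 N) ^ N :=
          pow_le_pow_left₀ (by have := eps0_pos hN; linarith) h1 N
      _ = Real.exp (1 / 200) := by
          rw [← Real.exp_nat_mul]
          congr 1
          unfold eps0
          field_simp
  have h3 : Real.exp (1 / 200) ≤ 1 / (1 - 1 / 200) :=
    Real.exp_bound_div_one_sub_of_interval (by norm_num) (by norm_num)
  have h4 : (1 : ℝ) / (1 - 1 / 200) ≤ 1 + 1 / 100 := by norm_num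
  linarith

/-- `X` in polar form. -/
lemma XX_near {N : ℕ} (hN : 1 ≤ N) {R : ℝ} (hR : 1 ≤ R) {x : ℂ × ℂ}
    (hx : x ∈ Dom R (eps0 N)) :
    ∃ z : ℂ, ‖z - 1‖ ≤ 1 / 100 ∧ XX N x = ((‖x.1‖ ^ N : ℝ) : ℂ) * z := by
  have hQ : 0 < ‖x.1‖ := by have := hx.1; linarith
  have hQc : (‖x.1‖ : ℂ) ≠ 0 := by exact_mod_cast hQ.ne'
  have h1 := rho_near hR hx
  have h2 : ‖rho x / ‖x.1‖ - 1‖ ≤ eps0 N := by
    have e : rho x / ‖x.1‖ - 1 = (rho x - ‖x.1‖) / ‖x.1‖ := by field_simp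
    rw [e, norm_div, Complex.norm_real, norm_norm, div_le_iff₀ hQ]
    exact h1
  refine ⟨(rho x / ‖x.1‖) ^ N, (pow_sub_one_le (eps0_pos hN) h2 N).trans (eps0_pow hN), ?_⟩
  unfold XX
  push_cast
  rw [div_pow]
  field_simp

lemma norm_one_add_ge {c : ℂ} (hc : ‖c‖ ≤ 1 / 49) : 48 / 49 ≤ ‖1 + c‖ := by
  have h1 := norm_sub_norm_le (1 : ℂ) (-c)
  rw [norm_one, norm_neg, sub_neg_eq_add] at h1
  linarith

lemma norm_one_add_le' {c : ℂ} (hc : ‖c‖ ≤ 1 / 49) : ‖1 + c‖ ≤ 50 / 49 := by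
  have h1 := norm_add_le (1 : ℂ) c
  rw [norm_one] at h1
  linarith

lemma ratio_bound {a b c : ℂ} (ha : ‖a‖ ≤ 1 / 49) (hb : ‖b‖ ≤ 1 / 49) (hc : ‖c‖ ≤ 1 / 49) :
    ‖(1 + a) * (1 + b) / (1 + c) ^ 2 - 1‖ ≤ 1 / 8 := by
  have h1 := norm_one_add_ge hc
  have h2 : 1 + c ≠ 0 := by
    intro h; rw [h, norm_zero] at h1; norm_num at h1
  have e : (1 + a) * (1 + b) / (1 + c) ^ 2 - 1 = (a + b + a * b - 2 * c - c ^ 2) / (1 + c) ^ 2 := by
    field_simp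
    ring
  rw [e, norm_div, norm_pow]
  have h3 : ‖a + b + a * b - 2 * c - c ^ 2‖ ≤ 198 / 2401 := by
    have e1 : ‖a * b‖ ≤ 1 / 49 * (1 / 49) := by
      rw [norm_mul]; exact mul_le_mul ha hb (norm_nonneg _) (by norm_num)
    have e2 : ‖c ^ 2‖ ≤ 1 / 49 * (1 / 49) := by
      rw [pow_two, norm_mul]; exact mul_le_mul hc hc (norm_nonneg _) (by norm_num)
    have e3 : ‖2 * c‖ ≤ 2 / 49 := by
      rw [norm_mul]
      have : ‖(2 : ℂ)‖ = 2 := by simp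
      rw [this]; linarith
    calc ‖a + b + a * b - 2 * c - c ^ 2‖ ≤ ‖a + b + a * b - 2 * c‖ + ‖c ^ 2‖ := norm_sub_le _ _
      _ ≤ ‖a + b + a * b‖ + ‖2 * c‖ + ‖c ^ 2‖ := by gcongr; exact norm_sub_le _ _
      _ ≤ ‖a‖ + ‖b‖ + ‖a * b‖ + ‖2 * c‖ + ‖c ^ 2‖ := by gcongr; exact norm_add₃_le
      _ ≤ 198 / 2401 := by linarith
  have h4 : (48 / 49 : ℝ) ^ 2 ≤ ‖1 + c‖ ^ 2 := pow_le_pow_left₀ (by norm_num) h1 2
  rw [div_le_iff₀ (by positivity)]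
  nlinarith

section ratio

variable {τ B K : ℝ} {z : ℂ}

lemma sq_near (hz : ‖z - 1‖ ≤ 1 / 100) : ‖z ^ 2 - 1‖ ≤ 1 / 49 :=
  (pow_sub_one_le (by norm_num) hz 2).trans (by norm_num)

lemma part_near (hτ : 0 < τ) {k : ℝ} (hk : 0 < k) (hz : ‖z - 1‖ ≤ 1 / 100) :
    ‖(τ : ℂ) ^ 2 * (z ^ 2 - 1) / (τ ^ 2 + k)‖ ≤ 1 / 49 := by
  have h1 : ‖(τ : ℂ) ^ 2 / (τ ^ 2 + k)‖ ≤ 1 := by
    have e : (τ : ℂ) ^ 2 / (τ ^ 2 + k) = ((τ ^ 2 / (τ ^ 2 + k) : ℝ) : ℂ) := by push_cast; rfl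
    rw [e, Complex.norm_real, Real.norm_of_nonneg (by positivity)]
    exact div_le_one_of_le₀ (by linarith) (by positivity)
  have e : (τ : ℂ) ^ 2 * (z ^ 2 - 1) / (τ ^ 2 + k) = (τ : ℂ) ^ 2 / (τ ^ 2 + k) * (z ^ 2 - 1) := by
    ring
  rw [e, norm_mul]
  calc ‖(τ : ℂ) ^ 2 / (τ ^ 2 + k)‖ * ‖z ^ 2 - 1‖ ≤ 1 * (1 / 49) :=
        mul_le_mul h1 (sq_near hz) (norm_nonneg _) (by norm_num)
    _ = 1 / 49 := by ring

lemma den_ne (hτ : 0 < τ) (hK : 0 < K) (hz : ‖z - 1‖ ≤ 1 / 100) :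
    ((τ : ℂ) * z) ^ 2 + (K : ℂ) ^ 2 = ((τ : ℂ) ^ 2 + (K : ℂ) ^ 2)
      * (1 + (τ : ℂ) ^ 2 * (z ^ 2 - 1) / (τ ^ 2 + (K ^ 2 : ℝ))) ∧
    ((τ : ℂ) * z) ^ 2 + (K : ℂ) ^ 2 ≠ 0 ∧
    1 + (τ : ℂ) ^ 2 * (z ^ 2 - 1) / (τ ^ 2 + (K ^ 2 : ℝ)) ≠ 0 ∧
    (τ : ℂ) ^ 2 + (K : ℂ) ^ 2 ≠ 0 := by
  have h0 : (τ : ℂ) ^ 2 + (K : ℂ) ^ 2 ≠ 0 := by
    have : (τ ^ 2 + K ^ 2 : ℝ) ≠ 0 := by positivity
    exact_mod_cast this
  have h1 := norm_one_add_ge (part_near hτ (k := K ^ 2) (by positivity) hz)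
  have h2 : 1 + (τ : ℂ) ^ 2 * (z ^ 2 - 1) / (τ ^ 2 + (K ^ 2 : ℝ)) ≠ 0 := by
    intro h; rw [h, norm_zero] at h1; norm_num at h1
  have h3 : ((τ : ℂ) * z) ^ 2 + (K : ℂ) ^ 2 = ((τ : ℂ) ^ 2 + (K : ℂ) ^ 2)
      * (1 + (τ : ℂ) ^ 2 * (z ^ 2 - 1) / (τ ^ 2 + (K ^ 2 : ℝ))) := by
    push_cast
    field_simp
    ring
  exact ⟨h3, by rw [h3]; exact mul_ne_zero h0 h2, h2, h0⟩

lemma sC_near (hτ : 0 < τ) (hB : 0 < B) (hK : 0 < K) (hz : ‖z - 1‖ ≤ 1 / 100) :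
    ‖sC B K (τ * z) - (sR B K τ : ℝ)‖ ≤ 1 / 8 * sR B K τ := by
  have hz0 : 99 / 100 ≤ ‖z‖ := by
    have h1 := norm_sub_norm_le (1 : ℂ) (1 - z)
    rw [norm_one, norm_sub_rev] at h1
    have : (1 : ℂ) - (1 - z) = z := by ring
    rw [this] at h1
    linarith
  have hzne : z ≠ 0 := by
    intro h; rw [h, norm_zero] at hz0; norm_num at hz0
  have hτc : (τ : ℂ) ≠ 0 := by exact_mod_cast hτ.ne'
  obtain ⟨h1, h2, h3, h4⟩ := den_ne hτ hK hz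
  have h5 : (τ : ℂ) ^ 2 + 2 * (K : ℂ) ^ 2 ≠ 0 := by
    have : (τ ^ 2 + 2 * K ^ 2 : ℝ) ≠ 0 := by positivity
    exact_mod_cast this
  -- the first part
  have e1 : ‖(B : ℂ) / (τ * z) - (B / τ : ℝ)‖ ≤ 1 / 8 * (B / τ) := by
    have e : (B : ℂ) / (τ * z) - (B / τ : ℝ) = (B / τ : ℝ) * ((1 - z) / z) := by
      push_cast; field_simp
    rw [e, norm_mul, Complex.norm_real, Real.norm_of_nonneg (by positivity), norm_div,
      norm_sub_rev, mul_comm]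
    refine mul_le_mul_of_nonneg_right ?_ (by positivity)
    rw [div_le_iff₀ (by linarith)]
    linarith
  -- the second part
  have e2 : ‖((τ : ℂ) * z) ^ 2 / (((τ : ℂ) * z) ^ 2 + K ^ 2)
      * (2 - ((τ : ℂ) * z) ^ 2 / (((τ : ℂ) * z) ^ 2 + K ^ 2))
      - (chi K τ * (2 - chi K τ) : ℝ)‖ ≤ 1 / 8 * (chi K τ * (2 - chi K τ)) := by
    have hb := part_near (z := z) hτ (k := 2 * K ^ 2) (by positivity) hz
    have hc := part_near (z := z) hτ (k := K ^ 2) (by positivity) hz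
    have hr := ratio_bound (sq_near hz) hb hc
    have hpos : 0 ≤ chi K τ * (2 - chi K τ) :=
      mul_nonneg chi_nonneg (by have := chi_le_one (K := K) (r := τ); linarith)
    have e : ((τ : ℂ) * z) ^ 2 / (((τ : ℂ) * z) ^ 2 + K ^ 2)
        * (2 - ((τ : ℂ) * z) ^ 2 / (((τ : ℂ) * z) ^ 2 + K ^ 2))
        - (chi K τ * (2 - chi K τ) : ℝ) = (chi K τ * (2 - chi K τ) : ℝ)
        * ((1 + (z ^ 2 - 1)) * (1 + (τ : ℂ) ^ 2 * (z ^ 2 - 1) / (τ ^ 2 + (2 * K ^ 2 : ℝ)))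
          / (1 + (τ : ℂ) ^ 2 * (z ^ 2 - 1) / (τ ^ 2 + (K ^ 2 : ℝ))) ^ 2 - 1) := by
      have e3 : ((τ : ℂ) * z) ^ 2 / (((τ : ℂ) * z) ^ 2 + K ^ 2)
          * (2 - ((τ : ℂ) * z) ^ 2 / (((τ : ℂ) * z) ^ 2 + K ^ 2))
          = ((τ : ℂ) * z) ^ 2 * (((τ : ℂ) * z) ^ 2 + 2 * K ^ 2)
            / (((τ : ℂ) * z) ^ 2 + K ^ 2) ^ 2 := by
        have gen : ∀ W D : ℂ, W + D ≠ 0 →
            W / (W + D) * (2 - W / (W + D)) = W * (W + 2 * D) / (W + D) ^ 2 := by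
          intro W D h
          field_simp
          ring
        exact gen _ _ h2
      have e4 : ((τ : ℂ) * z) ^ 2 + 2 * K ^ 2 = ((τ : ℂ) ^ 2 + 2 * K ^ 2)
          * (1 + (τ : ℂ) ^ 2 * (z ^ 2 - 1) / (τ ^ 2 + (2 * K ^ 2 : ℝ))) := by
        push_cast
        field_simp
        ring
      rw [e3, e4, h1, chi_two_sub hK]
      generalize (1 + (τ : ℂ) ^ 2 * (z ^ 2 - 1) / (τ ^ 2 + (K ^ 2 : ℝ))) = c at h3 ⊢
      generalize (1 + (τ : ℂ) ^ 2 * (z ^ 2 - 1) / (τ ^ 2 + (2 * K ^ 2 : ℝ))) = b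
      push_cast
      field_simp
      ring
    rw [e, norm_mul, Complex.norm_real, Real.norm_of_nonneg hpos, mul_comm]
    exact mul_le_mul_of_nonneg_right hr hpos
  have e : sC B K (τ * z) - (sR B K τ : ℝ) = ((B : ℂ) / (τ * z) - (B / τ : ℝ))
      + (11 / 10 : ℝ) * (((τ : ℂ) * z) ^ 2 / (((τ : ℂ) * z) ^ 2 + K ^ 2)
      * (2 - ((τ : ℂ) * z) ^ 2 / (((τ : ℂ) * z) ^ 2 + K ^ 2))
      - (chi K τ * (2 - chi K τ) : ℝ)) := by
    unfold sC sR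
    push_cast
    ring
  rw [e]
  refine (norm_add_le _ _).trans ?_
  rw [norm_mul, Complex.norm_real, Real.norm_of_nonneg (by norm_num)]
  unfold sR
  linarith

lemma phC_le (hτ : 0 < τ) (hB : 0 < B) (hK : 0 < K) (hz : ‖z - 1‖ ≤ 1 / 100) :
    ‖phC B K (τ * z)‖ ≤ 4 * (sR B K τ * τ ^ 2) := by
  have hz1 : ‖z‖ ≤ 101 / 100 := by
    have h1 := norm_add_le (z - 1) 1
    rw [sub_add_cancel, norm_one] at h1
    linarith
  obtain ⟨h1, h2, h3, h4⟩ := den_ne hτ hK hz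
  have hc := norm_one_add_ge (part_near (z := z) hτ (k := K ^ 2) (by positivity) hz)
  have hpos := chi_nonneg (K := K) (r := τ)
  have hle := chi_le_one (K := K) (r := τ)
  have e2 : ‖((τ : ℂ) * z) ^ 2 / (((τ : ℂ) * z) ^ 2 + K ^ 2) * ((τ : ℂ) * z) ^ 2‖
      ≤ 2 * (chi K τ * τ ^ 2) := by
    have e : ((τ : ℂ) * z) ^ 2 / (((τ : ℂ) * z) ^ 2 + K ^ 2) * ((τ : ℂ) * z) ^ 2
        = (chi K τ * τ ^ 2 : ℝ) * (z ^ 4
          / (1 + (τ : ℂ) ^ 2 * (z ^ 2 - 1) / (τ ^ 2 + (K ^ 2 : ℝ)))) := by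
      rw [h1]
      unfold chi
      generalize (1 + (τ : ℂ) ^ 2 * (z ^ 2 - 1) / (τ ^ 2 + (K ^ 2 : ℝ))) = c at h3 ⊢
      push_cast
      field_simp
    rw [e, norm_mul, Complex.norm_real, Real.norm_of_nonneg (by positivity), mul_comm]
    refine mul_le_mul_of_nonneg_right ?_ (by positivity)
    rw [norm_div, norm_pow, div_le_iff₀ (by linarith)]
    have h5 : ‖z‖ ^ 4 ≤ (101 / 100) ^ 4 := pow_le_pow_left₀ (norm_nonneg _) hz1 4
    have h6 : (101 / 100 : ℝ) ^ 4 ≤ 2 * (48 / 49) := by norm_num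
    linarith
  have e1 : ‖(B : ℂ) * (τ * z)‖ ≤ 2 * (B * τ) := by
    rw [norm_mul, norm_mul, Complex.norm_real, Complex.norm_real, Real.norm_of_nonneg hB.le,
      Real.norm_of_nonneg hτ.le]
    have : 0 < B * τ := mul_pos hB hτ
    nlinarith
  have e3 : sR B K τ * τ ^ 2 = B * τ + 11 / 10 * (chi K τ * (2 - chi K τ) * τ ^ 2) := by
    unfold sR
    field_simp
  have e4 : chi K τ * τ ^ 2 ≤ chi K τ * (2 - chi K τ) * τ ^ 2 := by
    refine mul_le_mul_of_nonneg_right ?_ (sq_nonneg τ)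
    nlinarith
  unfold phC
  refine (norm_add_le _ _).trans ?_
  have e5 : ‖(11 / 20 : ℂ) * (((τ : ℂ) * z) ^ 2 / (((τ : ℂ) * z) ^ 2 + K ^ 2)
      * ((τ : ℂ) * z) ^ 2)‖ ≤ 11 / 20 * (2 * (chi K τ * τ ^ 2)) := by
    rw [norm_mul]
    have : ‖(11 / 20 : ℂ)‖ = 11 / 20 := by
      have e : (11 / 20 : ℂ) = ((11 / 20 : ℝ) : ℂ) := by push_cast; rfl
      rw [e, Complex.norm_real, Real.norm_of_nonneg (by norm_num)]
    rw [this]
    exact mul_le_mul_of_nonneg_left e2 (by norm_num)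
  rw [e3]
  have e6 : 0 < B * τ := mul_pos hB hτ
  have e7 : 0 ≤ chi K τ * τ ^ 2 := by positivity
  linarith

end ratio

/-! ### The base state -/

/-- The potential. -/
noncomputable def psB (N : ℕ) (β B K : ℝ) (x : ℂ × ℂ) : ℂ := β * phC B K (XX N x)

/-- The complexified slice function. -/
noncomputable def sgB (N : ℕ) (β B K : ℝ) (x : ℂ × ℂ) : ℂ := (β * sC B K (XX N x)) ^ ((N : ℂ)⁻¹)

lemma phC_deriv {B K : ℝ} {X : ℂ} (hX : X ≠ 0) (h : X ^ 2 + (K : ℂ) ^ 2 ≠ 0) :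
    HasDerivAt (phC B K) (X * sC B K X) X := by
  have h1 : HasDerivAt (fun X : ℂ => X ^ 2) (2 * X) X := by
    have := hasDerivAt_pow 2 X
    simpa using this
  have h2 : HasDerivAt (fun X : ℂ => X ^ 2 + (K : ℂ) ^ 2) (2 * X) X := h1.add_const _
  have h3 := ((h1.div h2 h).mul h1).const_mul (11 / 20 : ℂ)
  have h4 := ((hasDerivAt_id X).const_mul (B : ℂ)).add h3
  have h5 : phC B K = (fun X : ℂ => (B : ℂ) * id X) + (fun X : ℂ => (11 / 20 : ℂ) *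
      (((fun X : ℂ => X ^ 2) / (fun X : ℂ => X ^ 2 + (K : ℂ) ^ 2)) * (fun X : ℂ => X ^ 2)) X) := by
    funext Y
    simp [phC]
  rw [h5]
  refine h4.congr_deriv ?_
  unfold sC
  have gen : ∀ D : ℂ, X ^ 2 + D ≠ 0 → (B : ℂ) * 1 + 11 / 20 *
      ((2 * X * (X ^ 2 + D) - X ^ 2 * (2 * X)) / (X ^ 2 + D) ^ 2 * X ^ 2
        + X ^ 2 / (X ^ 2 + D) * (2 * X))
      = X * (B / X + 11 / 10 * (X ^ 2 / (X ^ 2 + D) * (2 - X ^ 2 / (X ^ 2 + D)))) := by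
    intro D hD
    field_simp
    ring
  exact gen _ h

section base

variable {N : ℕ} {R β B K : ℝ}

lemma y_slit (hN : 1 ≤ N) (hR : 1 ≤ R) {x : ℂ × ℂ} (hx : x ∈ Dom R (eps0 N)) :
    x.1 * x.2 ∈ Complex.slitPlane := by
  have hQ : 0 < ‖x.1‖ := by have := hx.1; linarith
  have h1 := y_near hx
  have h2 := eps0_le hN
  left
  have h3 : ‖x.1‖ ^ 2 - (x.1 * x.2).re ≤ ‖x.1 * x.2 - (‖x.1‖ : ℂ) ^ 2‖ := by
    have h4 := Complex.re_le_norm (-(x.1 * x.2 - (‖x.1‖ : ℂ) ^ 2))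
    rw [norm_neg] at h4
    have h5 : (-(x.1 * x.2 - (‖x.1‖ : ℂ) ^ 2)).re = ‖x.1‖ ^ 2 - (x.1 * x.2).re := by
      rw [Complex.neg_re, Complex.sub_re]
      have : ((‖x.1‖ : ℂ) ^ 2).re = ‖x.1‖ ^ 2 := by
        rw [← Complex.ofReal_pow, Complex.ofReal_re]
      rw [this]; ring
    rwa [h5] at h4
  have h6 : 0 < ‖x.1‖ ^ 2 := by positivity
  nlinarith

lemma XX_ne (hN : 1 ≤ N) (hR : 1 ≤ R) (hK : 0 < K) {x : ℂ × ℂ} (hx : x ∈ Dom R (eps0 N)) :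
    XX N x ≠ 0 ∧ XX N x ^ 2 + (K : ℂ) ^ 2 ≠ 0 := by
  have hQ : 0 < ‖x.1‖ := by have := hx.1; linarith
  obtain ⟨z, hz, he⟩ := XX_near hN hR hx
  have h1 := (den_ne (pow_pos hQ N) hK hz).2.1
  refine ⟨?_, by rw [he]; exact h1⟩
  have h2 : XX N x ^ 2 = (x.1 * x.2) ^ N := by
    rw [XX, ← pow_mul, mul_comm N 2, pow_mul, rho_sq]
  intro h
  rw [h] at h2
  have h3 := Complex.slitPlane_ne_zero (y_slit hN hR hx)
  exact pow_ne_zero N h3 (by rw [← h2]; ring)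

lemma sC_bounds (hN : 1 ≤ N) (hR : 1 ≤ R) (hB : 0 < B) (hK : 0 < K) {x : ℂ × ℂ}
    (hx : x ∈ Dom R (eps0 N)) :
    7 / 8 * sR B K (‖x.1‖ ^ N) ≤ ‖sC B K (XX N x)‖ ∧
    ‖sC B K (XX N x)‖ ≤ 9 / 8 * sR B K (‖x.1‖ ^ N) ∧ 0 < (sC B K (XX N x)).re := by
  have hQ : 0 < ‖x.1‖ := by have := hx.1; linarith
  obtain ⟨z, hz, he⟩ := XX_near hN hR hx
  have h1 := sC_near (pow_pos hQ N) hB hK hz
  rw [← he] at h1
  have hs := sR_pos (K := K) hB (pow_pos hQ N)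
  generalize sC B K (XX N x) = w at h1 ⊢
  generalize sR B K (‖x.1‖ ^ N) = s at h1 hs ⊢
  have h2 : ‖(s : ℂ)‖ = s := by rw [Complex.norm_real, Real.norm_of_nonneg hs.le]
  refine ⟨?_, ?_, ?_⟩
  · have h3 := norm_sub_norm_le (s : ℂ) w
    rw [norm_sub_rev, h2] at h3
    linarith
  · have h3 := norm_sub_norm_le w (s : ℂ)
    rw [h2] at h3
    linarith
  · have h3 := Complex.re_le_norm (-(w - (s : ℂ)))
    rw [norm_neg] at h3
    have h4 : (-(w - (s : ℂ))).re = s - w.re := by simp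
    rw [h4] at h3
    linarith

lemma sgB_slit (hN : 1 ≤ N) (hR : 1 ≤ R) (hβ : 0 < β) (hB : 0 < B) (hK : 0 < K) {x : ℂ × ℂ}
    (hx : x ∈ Dom R (eps0 N)) : (β : ℂ) * sC B K (XX N x) ∈ Complex.slitPlane := by
  left
  rw [Complex.re_ofReal_mul]
  exact mul_pos hβ (sC_bounds hN hR hB hK hx).2.2

lemma sgB_pow (hN : 1 ≤ N) (x : ℂ × ℂ) : sgB N β B K x ^ N = β * sC B K (XX N x) :=
  Complex.cpow_nat_inv_pow _ (by omega)

lemma sgB_bounds (hN : 1 ≤ N) (hR : 1 ≤ R) (hβ : 0 < β) (hB : 0 < B) (hK : 0 < K) {x : ℂ × ℂ}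
    (hx : x ∈ Dom R (eps0 N)) : SR N β B K ‖x.1‖ / 2 ≤ ‖sgB N β B K x‖ ∧
      ‖sgB N β B K x‖ ≤ 2 * SR N β B K ‖x.1‖ := by
  have hQ : 0 < ‖x.1‖ := by have := hx.1; linarith
  obtain ⟨h1, h2, -⟩ := sC_bounds hN hR hB hK hx
  have h3 : ‖sgB N β B K x‖ ^ N = β * ‖sC B K (XX N x)‖ := by
    rw [← norm_pow, sgB_pow hN, norm_mul, Complex.norm_real, Real.norm_of_nonneg hβ.le]
  have h4 := SR_pow hN (K := K) hβ hB hQ
  have h5 := SR_pos (N := N) (K := K) hβ hB hQ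
  have h6 : (2 : ℝ) ≤ 2 ^ N := by
    calc (2 : ℝ) = 2 ^ 1 := by norm_num
      _ ≤ 2 ^ N := pow_le_pow_right₀ (by norm_num) hN
  have h7 : 0 < β * sR B K (‖x.1‖ ^ N) := mul_pos hβ (sR_pos hB (pow_pos hQ N))
  constructor
  · refine le_of_pow_le_pow_left₀ (n := N) (by omega) (norm_nonneg _) ?_
    rw [div_pow, h4, h3, div_le_iff₀ (by positivity)]
    have h8 : β * (7 / 8 * sR B K (‖x.1‖ ^ N)) ≤ β * ‖sC B K (XX N x)‖ :=
      mul_le_mul_of_nonneg_left h1 hβ.le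
    nlinarith
  · refine le_of_pow_le_pow_left₀ (n := N) (by omega) (by positivity) ?_
    rw [mul_pow, h4, h3]
    have h8 : β * ‖sC B K (XX N x)‖ ≤ β * (9 / 8 * sR B K (‖x.1‖ ^ N)) :=
      mul_le_mul_of_nonneg_left h2 hβ.le
    nlinarith

lemma rho_diff (hN : 1 ≤ N) (hR : 1 ≤ R) {x : ℂ × ℂ} (hx : x ∈ Dom R (eps0 N)) :
    DifferentiableAt ℂ rho x := by
  have h1 : DifferentiableAt ℂ (fun x : ℂ × ℂ => x.1 * x.2) x :=
    differentiableAt_fst.mul differentiableAt_snd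
  exact h1.cpow_const (y_slit hN hR hx)

lemma XX_diff (hN : 1 ≤ N) (hR : 1 ≤ R) {x : ℂ × ℂ} (hx : x ∈ Dom R (eps0 N)) :
    DifferentiableAt ℂ (XX N) x := (rho_diff hN hR hx).pow N

lemma psB_diff (hN : 1 ≤ N) (hR : 1 ≤ R) (hK : 0 < K) {x : ℂ × ℂ} (hx : x ∈ Dom R (eps0 N)) :
    DifferentiableAt ℂ (psB N β B K) x := by
  obtain ⟨h1, h2⟩ := XX_ne hN hR hK hx
  have h3 : DifferentiableAt ℂ (fun x => phC B K (XX N x)) x :=
    DifferentiableAt.comp x (phC_deriv h1 h2).differentiableAt (XX_diff hN hR hx)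
  exact h3.const_mul _

lemma sC_diff {X : ℂ} (hX : X ≠ 0) (h : X ^ 2 + (K : ℂ) ^ 2 ≠ 0) :
    DifferentiableAt ℂ (sC B K) X := by
  have h1 : DifferentiableAt ℂ (fun X : ℂ => X ^ 2) X := differentiableAt_pow_aux X
  have h2 : DifferentiableAt ℂ (fun X : ℂ => X ^ 2 / (X ^ 2 + (K : ℂ) ^ 2)) X :=
    h1.div (h1.add_const _) h
  unfold sC
  exact ((differentiableAt_const _).div differentiableAt_id hX).add
    ((h2.mul ((differentiableAt_const _).sub h2)).const_mul _)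
  where differentiableAt_pow_aux (X : ℂ) : DifferentiableAt ℂ (fun X : ℂ => X ^ 2) X :=
    differentiableAt_id.pow 2

lemma sgB_diff (hN : 1 ≤ N) (hR : 1 ≤ R) (hβ : 0 < β) (hB : 0 < B) (hK : 0 < K) {x : ℂ × ℂ}
    (hx : x ∈ Dom R (eps0 N)) : DifferentiableAt ℂ (sgB N β B K) x := by
  obtain ⟨h1, h2⟩ := XX_ne hN hR hK hx
  have h3 : DifferentiableAt ℂ (fun x => sC B K (XX N x)) x :=
    DifferentiableAt.comp x (sC_diff h1 h2) (XX_diff hN hR hx)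
  exact (h3.const_mul (β : ℂ)).cpow_const (sgB_slit hN hR hβ hB hK hx)

lemma psB_eq (hN : 1 ≤ N) (hR : 1 ≤ R) (hK : 0 < K) {x : ℂ × ℂ} (hx : x ∈ Dom R (eps0 N)) :
    N * x.1 ^ (N - 1) * (x.2 * sgB N β B K x) ^ N = 2 * fderiv ℂ (psB N β B K) x (1, 0) := by
  have hQ : 0 < ‖x.1‖ := by have := hx.1; linarith
  have hx1 : x.1 ≠ 0 := norm_pos_iff.1 hQ
  have hy := y_slit hN hR hx
  have hyne := Complex.slitPlane_ne_zero hy
  obtain ⟨h1, h2⟩ := XX_ne hN hR hK hx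
  have hline : HasDerivAt (fun z : ℂ => ((z, x.2) : ℂ × ℂ)) (1, 0) x.1 :=
    (hasDerivAt_id x.1).prodMk (hasDerivAt_const x.1 x.2)
  have d1 : HasDerivAt (fun z : ℂ => psB N β B K (z, x.2)) (fderiv ℂ (psB N β B K) x (1, 0)) x.1 := by
    have h3 : HasFDerivAt (psB N β B K) (fderiv ℂ (psB N β B K) x) (x.1, x.2) :=
      (psB_diff hN hR hK hx).hasFDerivAt
    exact h3.comp_hasDerivAt x.1 hline
  -- the derivative of rho
  have d2 : HasDerivAt (fun z : ℂ => rho (z, x.2)) (rho x / (2 * x.1)) x.1 := by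
    have h3 : HasDerivAt (fun z : ℂ => z * x.2) (1 * x.2) x.1 := (hasDerivAt_id x.1).mul_const x.2
    have h4 := h3.cpow_const (c := (2 : ℂ)⁻¹) hy
    refine h4.congr_deriv ?_
    rw [Complex.cpow_sub _ _ hyne, Complex.cpow_one]
    have h5 : x.2 ≠ 0 := right_ne_zero_of_mul hyne
    unfold rho
    field_simp
  have d3 : HasDerivAt (fun z : ℂ => XX N (z, x.2)) (N * XX N x / (2 * x.1)) x.1 := by
    have h4 := d2.pow N
    refine h4.congr_deriv ?_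
    unfold XX
    obtain ⟨m, rfl⟩ : ∃ m, N = m + 1 := ⟨N - 1, by omega⟩
    simp only [Nat.add_sub_cancel, pow_succ]
    ring
  have d4 : HasDerivAt (fun z : ℂ => psB N β B K (z, x.2))
      (β * ((XX N x * sC B K (XX N x)) * (N * XX N x / (2 * x.1)))) x.1 := by
    have h5 : HasDerivAt (phC B K) (XX N x * sC B K (XX N x)) (XX N (x.1, x.2)) := phC_deriv h1 h2
    exact (h5.comp x.1 d3).const_mul (β : ℂ)
  rw [d1.unique d4, mul_pow, sgB_pow hN]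
  have h6 : XX N x ^ 2 = x.1 ^ N * x.2 ^ N := by
    rw [XX, ← pow_mul, mul_comm N 2, pow_mul, rho_sq, mul_pow]
  have h7 : 2 * (β * ((XX N x * sC B K (XX N x)) * (N * XX N x / (2 * x.1))))
      = β * sC B K (XX N x) * N * XX N x ^ 2 / x.1 := by
    field_simp
  rw [h7, h6]
  obtain ⟨m, rfl⟩ : ∃ m, N = m + 1 := ⟨N - 1, by omega⟩
  simp only [Nat.add_sub_cancel, pow_succ]
  field_simp

lemma rho_conj (hN : 1 ≤ N) (hR : 1 ≤ R) {x : ℂ × ℂ} (hx : x ∈ Dom R (eps0 N)) :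
    rho ((starRingEnd ℂ) x.2, (starRingEnd ℂ) x.1) = (starRingEnd ℂ) (rho x) := by
  unfold rho
  change ((starRingEnd ℂ) x.2 * (starRingEnd ℂ) x.1) ^ (2 : ℂ)⁻¹ = _
  rw [← map_mul, mul_comm x.2 x.1,
    Complex.conj_cpow _ _ (Complex.mem_slitPlane_iff_arg.1 (y_slit hN hR hx)).1]
  have e2 : (starRingEnd ℂ) (2 : ℂ) = 2 := map_ofNat (starRingEnd ℂ) 2
  rw [map_inv₀, e2]

lemma psB_sym (hN : 1 ≤ N) (hR : 1 ≤ R) {x : ℂ × ℂ} (hx : x ∈ Dom R (eps0 N)) :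
    shp (psB N β B K) x = psB N β B K x := by
  unfold shp psB XX
  rw [rho_conj hN hR hx]
  have e1 : (starRingEnd ℂ) (11 : ℂ) = 11 := map_ofNat (starRingEnd ℂ) 11
  have e2 : (starRingEnd ℂ) (20 : ℂ) = 20 := map_ofNat (starRingEnd ℂ) 20
  simp only [phC, map_mul, map_add, map_div₀, map_pow, Complex.conj_ofReal, Complex.conj_conj,
    e1, e2]

lemma rho_slice {q : ℂ} (hq : 0 < ‖q‖) : rho (q, (starRingEnd ℂ) q) = (‖q‖ : ℂ) := by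
  have h1 := rho_sq (q, (starRingEnd ℂ) q)
  have h2 : q * (starRingEnd ℂ) q = (‖q‖ : ℂ) ^ 2 := by
    rw [Complex.mul_conj, Complex.normSq_eq_norm_sq]; push_cast; rfl
  change _ = q * (starRingEnd ℂ) q at h1
  have hqne : q ≠ 0 := norm_pos_iff.1 hq
  have h3 : 0 ≤ (rho (q, (starRingEnd ℂ) q)).re := by
    apply rho_re
    change q * (starRingEnd ℂ) q ≠ 0
    rw [h2]
    have : (‖q‖ : ℂ) ≠ 0 := by exact_mod_cast hq.ne'
    exact pow_ne_zero 2 this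
  rw [h2] at h1
  generalize rho (q, (starRingEnd ℂ) q) = w at h1 h3 ⊢
  have h4 : (w - ‖q‖) * (w + ‖q‖) = 0 := by
    have : (w - ‖q‖) * (w + ‖q‖) = w ^ 2 - (‖q‖ : ℂ) ^ 2 := by ring
    rw [this, h1, sub_self]
  rcases mul_eq_zero.1 h4 with h5 | h5
  · exact sub_eq_zero.1 h5
  · exfalso
    have h6 := congrArg Complex.re h5
    simp at h6
    linarith

end base

end Bx

theorem exists_base {N : ℕ} (hN : 1 ≤ N) : ∃ ε : ℝ, 0 < ε ∧ ε ≤ 1 / 4 ∧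
    ∀ β : ℝ, 9 / 10 ≤ β → β ≤ 1 → ∀ B : ℝ, 1 ≤ B → ∀ K : ℝ, 1 ≤ K → ∀ R : ℝ, 1 ≤ R →
    100 * B ≤ R ^ N → ∃ ψ σ : ℂ × ℂ → ℂ, IsBase N R ε (SR N β B K) ψ σ ∧
      ∀ q : ℂ, R < ‖q‖ → ψ (q, (starRingEnd ℂ) q) = (β * phiR B K (‖q‖ ^ N) : ℝ) := by
  refine ⟨eps0 N, eps0_pos hN, (eps0_le hN).trans (by norm_num), ?_⟩
  intro β hβ0 hβ1 B hB1 K hK1 R hR hRB
  have hβ : 0 < β := by linarith
  have hB : 0 < B := by linarith
  have hK : 0 < K := by linarith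
  have heps := eps0_le hN
  refine ⟨psB N β B K, sgB N β B K, ?_, ?_⟩
  · refine ⟨?_, ?_, ?_, ?_, ?_, ?_, ?_, ?_, ?_, ?_, ?_, ?_⟩
    · exact fun x hx => (psB_diff hN hR hK hx).differentiableWithinAt
    · exact fun x hx => (sgB_diff hN hR hβ hB hK hx).differentiableWithinAt
    · exact fun x hx => psB_eq hN hR hK hx
    · exact fun x hx => psB_sym hN hR hx
    · intro q hq
      have hq0 : 0 < ‖q‖ := by linarith
      unfold sgB XX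
      rw [rho_slice hq0, ← Complex.ofReal_pow, sC_ofReal, ← Complex.ofReal_mul]
      unfold SR
      rw [Complex.ofReal_cpow (mul_pos hβ (sR_pos hB (pow_pos hq0 N))).le]
      congr 1
      push_cast
      rw [one_div]
    · exact fun Q hQ => SR_pos hβ hB (by linarith)
    · intro Q hQ
      have hQ0 : 0 < Q := by linarith
      have h1 := SR_le (K := K) hN hβ hβ1 hB hQ0
        (hRB.trans (pow_le_pow_left₀ (by linarith) hQ.le N))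
      by_contra hcon
      push Not at hcon
      have h2 : (2 : ℝ) ^ N ≤ SR N β B K Q ^ N := pow_le_pow_left₀ (by norm_num) hcon.le N
      have h3 : (2 : ℝ) ^ 1 ≤ 2 ^ N := pow_le_pow_right₀ (by norm_num) hN
      linarith
    · exact fun x hx => (sgB_bounds hN hR hβ hB hK hx).1
    · exact fun x hx => (sgB_bounds hN hR hβ hB hK hx).2
    · intro x hx
      have hQ : 0 < ‖x.1‖ := by have := hx.1; linarith
      have hQ2 : 0 < ‖x.2‖ := by have := hx.2.1; linarith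
      have h1 : ‖x.2‖ - ‖x.1‖ ≤ ‖x.2 - (starRingEnd ℂ) x.1‖ := by
        have := norm_sub_norm_le x.2 ((starRingEnd ℂ) x.1)
        rwa [RCLike.norm_conj] at this
      have h2 : ‖x.1‖ - ‖x.2‖ ≤ ‖x.2 - (starRingEnd ℂ) x.1‖ := by
        have := norm_sub_norm_le ((starRingEnd ℂ) x.1) x.2
        rwa [RCLike.norm_conj, norm_sub_rev] at this
      have h3 : ‖x.2‖ ≤ 201 / 200 * ‖x.1‖ := by have := hx.2.2.1; nlinarith
      have h4 : ‖x.1‖ ≤ 201 / 200 * ‖x.2‖ := by have := hx.2.2.2; nlinarith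
      have h5 := SR_cmp hN (K := K) hβ hB hK hQ hQ2 (l := 201 / 200) (by norm_num) h3 h4
      have h6 := SR_cmp hN (K := K) hβ hB hK hQ2 hQ (l := 201 / 200) (by norm_num) h4 h3
      have h7 := SR_pos (N := N) (K := K) hβ hB hQ
      have h8 := SR_pos (N := N) (K := K) hβ hB hQ2
      constructor
      · refine h5.trans (mul_le_mul_of_nonneg_right (by norm_num) h7.le)
      · refine h6.trans (mul_le_mul_of_nonneg_right (by norm_num) h8.le)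
    · intro Q Q' hQ hQ' h1 h2
      have hQ0 : 0 < Q := by linarith
      have hQ0' : 0 < Q' := by linarith
      have h3 := SR_cmp hN (K := K) hβ hB hK hQ0 hQ0' (l := 2) (by norm_num) h1 h2
      have h7 := SR_pos (N := N) (K := K) hβ hB hQ0
      refine h3.trans (mul_le_mul_of_nonneg_right (by norm_num) h7.le)
    · intro x hx
      have hQ : 0 < ‖x.1‖ := by have := hx.1; linarith
      obtain ⟨z, hz, he⟩ := XX_near hN hR hx
      have h1 := phC_le (B := B) (pow_pos hQ N) hB hK hz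
      rw [← he] at h1
      unfold psB
      rw [norm_mul, Complex.norm_real, Real.norm_of_nonneg hβ.le, mul_pow, SR_pow hN hβ hB hQ]
      calc β * ‖phC B K (XX N x)‖ ≤ β * (4 * (sR B K (‖x.1‖ ^ N) * (‖x.1‖ ^ N) ^ 2)) :=
            mul_le_mul_of_nonneg_left h1 hβ.le
        _ = 4 * (‖x.1‖ ^ N * (β * sR B K (‖x.1‖ ^ N))) * ‖x.1‖ ^ N := by ring
  · intro q hq
    have hq0 : 0 < ‖q‖ := by linarith
    unfold psB XX
    rw [rho_slice hq0, ← Complex.ofReal_pow, phC_ofReal]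
    push_cast
    ring

end Pool.Agent.H77.N2
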