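import Pool.Agent.H77.N2.Defs

/-!
Module HOL of MP_6e521b_an (n = 2): holomorphic functions of two variables on `Dom R ε`.

(1) `Dom R ε` is open (continuity of norms).
(2) `dq_diff`: near a point `x₀` of `U` one has, for a fixed small radius `r`,
    `∂_q F(x) = (2πi)⁻¹ ∮_{|ζ|=r} F(x.1 + ζ, x.2) ζ⁻² dζ` (Cauchy, one variable), and the right side
    is differentiable in `x` by differentiation under the integral sign (the derivative of `F` is
    bounded near the compact set, by the one-variable Cauchy estimate applied on complex lines).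
(3) `dq_bound`: Cauchy estimate in the first variable.
(4) `shp`: `x ↦ conj (F (conj x.2, conj x.1))` is differentiable when `F` is.
-/

open Filter Topology MeasureTheory

namespace Pool.Agent.H77.N2

lemma isOpen_Dom (R ε : ℝ) : IsOpen (Dom R ε) := by
  have h1 : Continuous fun x : ℂ × ℂ => ‖x.1‖ := continuous_fst.norm
  have h2 : Continuous fun x : ℂ × ℂ => ‖x.2‖ := continuous_snd.norm
  have h3 : Continuous fun x : ℂ × ℂ => ‖x.2 - (starRingEnd ℂ) x.1‖ :=
    (continuous_snd.sub (Complex.continuous_conj.comp continuous_fst)).norm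
  exact (isOpen_lt continuous_const h1).inter ((isOpen_lt continuous_const h2).inter
    ((isOpen_lt h3 (continuous_const.mul h1)).inter (isOpen_lt h3 (continuous_const.mul h2))))

/-- The Cauchy estimate for the derivative on a ball. -/
lemma fderiv_bound_on {f : ℂ × ℂ → ℂ} {z : ℂ × ℂ} {K r : ℝ} (hr : 0 < r)
    (hf : ∀ w ∈ Metric.closedBall z r, DifferentiableAt ℂ f w)
    (h : ∀ w ∈ Metric.closedBall z r, ‖f w‖ ≤ K) : ‖fderiv ℂ f z‖ ≤ K / r := by
  have hz : z ∈ Metric.closedBall z r := Metric.mem_closedBall_self hr.le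
  have hK : 0 ≤ K := (norm_nonneg _).trans (h z hz)
  refine ContinuousLinearMap.opNorm_le_of_unit_norm (𝕜 := ℂ) (by positivity) fun v hv => ?_
  have h1 : HasDerivAt (fun c : ℂ => f (z + c • v)) (fderiv ℂ f z v) 0 := by
    have h2 : HasFDerivAt f (fderiv ℂ f z) (z + (0 : ℂ) • v) := by
      rw [zero_smul, add_zero]; exact (hf z hz).hasFDerivAt
    have h3 : HasDerivAt (fun c : ℂ => z + c • v) v 0 := by
      have := ((hasDerivAt_id (0 : ℂ)).smul_const v).const_add z
      simpa using this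
    exact h2.comp_hasDerivAt (0 : ℂ) h3
  have hmem : ∀ c ∈ Metric.closedBall (0 : ℂ) r, z + c • v ∈ Metric.closedBall z r := by
    intro c hc
    rw [mem_closedBall_zero_iff] at hc
    rw [Metric.mem_closedBall, dist_eq_norm, add_sub_cancel_left, norm_smul, hv, mul_one]
    exact hc
  have h4 : DifferentiableOn ℂ (fun c : ℂ => f (z + c • v)) (Metric.closedBall 0 r) := by
    intro c hc
    have h5 : DifferentiableAt ℂ (fun c : ℂ => z + c • v) c :=
      (differentiableAt_id.smul_const v).const_add z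
    exact (DifferentiableAt.comp c (hf _ (hmem c hc)) h5).differentiableWithinAt
  have h5 := Complex.norm_deriv_le_of_forall_mem_sphere_norm_le (c := (0 : ℂ)) (R := r) (C := K)
    hr (h4.diffContOnCl_ball (Set.Subset.refl _)) (fun c hc => by
      apply h
      exact hmem c (Metric.sphere_subset_closedBall hc))
  rw [h1.deriv] at h5
  exact h5

/-- The Cauchy formula for the partial derivative. -/
lemma dq_eq {F : ℂ × ℂ → ℂ} {x : ℂ × ℂ} {r : ℝ} (hr : 0 < r)
    (hF : ∀ w ∈ Metric.closedBall x r, DifferentiableAt ℂ F w) :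
    fderiv ℂ F x (1, 0) = (2 * Real.pi * Complex.I : ℂ)⁻¹ • ∫ θ in (0 : ℝ)..2 * Real.pi,
      deriv (circleMap 0 r) θ • ((1 / (circleMap 0 r θ - 0) ^ 2) •
        F (x + circleMap 0 r θ • ((1 : ℂ), (0 : ℂ)))) := by
  have hx : x ∈ Metric.closedBall x r := Metric.mem_closedBall_self hr.le
  set v : ℂ × ℂ := ((1 : ℂ), (0 : ℂ)) with hv
  have hv1 : ‖v‖ = 1 := by simp [hv, Prod.norm_def]
  have h1 : HasDerivAt (fun c : ℂ => F (x + c • v)) (fderiv ℂ F x v) 0 := by
    have h2 : HasFDerivAt F (fderiv ℂ F x) (x + (0 : ℂ) • v) := by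
      rw [zero_smul, add_zero]; exact (hF x hx).hasFDerivAt
    have h3 : HasDerivAt (fun c : ℂ => x + c • v) v 0 := by
      have := ((hasDerivAt_id (0 : ℂ)).smul_const v).const_add x
      simpa using this
    exact h2.comp_hasDerivAt (0 : ℂ) h3
  have hmem : ∀ c ∈ Metric.closedBall (0 : ℂ) r, x + c • v ∈ Metric.closedBall x r := by
    intro c hc
    rw [mem_closedBall_zero_iff] at hc
    rw [Metric.mem_closedBall, dist_eq_norm, add_sub_cancel_left, norm_smul, hv1, mul_one]
    exact hc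
  have h4 : DifferentiableOn ℂ (fun c : ℂ => F (x + c • v)) (Metric.closedBall 0 r) := by
    intro c hc
    have h5 : DifferentiableAt ℂ (fun c : ℂ => x + c • v) c :=
      (differentiableAt_id.smul_const v).const_add x
    exact (DifferentiableAt.comp c (hF _ (hmem c hc)) h5).differentiableWithinAt
  have h5 := (h4.diffContOnCl_ball (Set.Subset.refl _)).deriv_eq_smul_circleIntegral hr
  rw [h1.deriv] at h5
  rw [eq_inv_smul_iff₀ Complex.two_pi_I_ne_zero, ← h5]
  rfl

lemma dq_diff {U : Set (ℂ × ℂ)} (hU : IsOpen U) {F : ℂ × ℂ → ℂ} (hF : DifferentiableOn ℂ F U) :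
    DifferentiableOn ℂ (fun x => fderiv ℂ F x (1, 0)) U := by
  intro x₀ hx₀
  apply DifferentiableAt.differentiableWithinAt
  obtain ⟨ρ, hρ, hρU⟩ := Metric.isOpen_iff.1 hU x₀ hx₀
  obtain ⟨r, hr, hrρ⟩ : ∃ r : ℝ, 0 < r ∧ 3 * r < ρ := ⟨ρ / 4, by positivity, by linarith⟩
  have hdiff : ∀ w, dist w x₀ ≤ 3 * r → DifferentiableAt ℂ F w := fun w hw =>
    hF.differentiableAt (hU.mem_nhds (hρU (by rw [Metric.mem_ball]; linarith)))
  have hcont : ContinuousOn F (Metric.closedBall x₀ (3 * r)) := fun w hw =>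
    (hdiff w (Metric.mem_closedBall.1 hw)).continuousAt.continuousWithinAt
  obtain ⟨K, hK⟩ := (isCompact_closedBall x₀ (3 * r)).exists_bound_of_continuousOn hcont
  have hfd : ∀ w, dist w x₀ ≤ 2 * r → ‖fderiv ℂ F w‖ ≤ K / r := by
    intro w hw
    apply fderiv_bound_on hr
    · intro y hy
      apply hdiff
      have := dist_triangle y w x₀
      have h2 := Metric.mem_closedBall.1 hy
      linarith
    · intro y hy
      apply hK
      rw [Metric.mem_closedBall]
      have := dist_triangle y w x₀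
      have h2 := Metric.mem_closedBall.1 hy
      linarith
  set v : ℂ × ℂ := ((1 : ℂ), (0 : ℂ)) with hv
  have hv1 : ‖v‖ = 1 := by simp [hv, Prod.norm_def]
  have hcm : ∀ θ : ℝ, ‖circleMap 0 r θ‖ = r := by
    intro θ
    rw [norm_circleMap_zero, abs_of_pos hr]
  have hne : ∀ θ : ℝ, circleMap 0 r θ - 0 ≠ 0 := fun θ => by
    rw [sub_zero]; exact circleMap_ne_center hr.ne'
  have hnear : ∀ x ∈ Metric.ball x₀ r, ∀ θ : ℝ, dist (x + circleMap 0 r θ • v) x₀ ≤ 2 * r := by
    intro x hx θ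
    have h1 : dist (x + circleMap 0 r θ • v) x = r := by
      rw [dist_eq_norm, add_sub_cancel_left, norm_smul, hv1, mul_one, hcm]
    have := dist_triangle (x + circleMap 0 r θ • v) x x₀
    have h2 := Metric.mem_ball.1 hx
    linarith
  set a : ℝ → ℂ := fun θ => deriv (circleMap 0 r) θ * (1 / (circleMap 0 r θ - 0) ^ 2) with ha
  have hac : Continuous a := by
    rw [ha]
    refine Continuous.mul ?_ ?_
    · have h1 : deriv (circleMap 0 r) = fun θ => circleMap 0 r θ * Complex.I :=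
        funext fun θ => by rw [deriv_circleMap]
      rw [h1]
      exact (continuous_circleMap 0 r).mul continuous_const
    · exact continuous_const.div (((continuous_circleMap 0 r).sub continuous_const).pow 2)
        fun p => pow_ne_zero 2 (hne p)
  have han : ∀ θ, ‖a θ‖ = 1 / r := by
    intro θ
    simp only [ha, deriv_circleMap, norm_mul, norm_div, norm_one, norm_pow, sub_zero, hcm,
      Complex.norm_I]
    field_simp
  have hpath : ∀ x : ℂ × ℂ, Continuous fun θ : ℝ => x + circleMap 0 r θ • v := fun x =>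
    continuous_const.add ((continuous_circleMap 0 r).smul continuous_const)
  have hGc : ∀ x ∈ Metric.ball x₀ r, Continuous fun θ : ℝ => a θ * F (x + circleMap 0 r θ • v) := by
    intro x hx
    refine hac.mul (hcont.comp_continuous (hpath x) fun θ => ?_)
    rw [Metric.mem_closedBall]
    have := hnear x hx θ
    linarith
  have hx₀b : x₀ ∈ Metric.ball x₀ r := Metric.mem_ball_self hr
  have h := intervalIntegral.hasFDerivAt_integral_of_dominated_of_fderiv_le
    (𝕜 := ℂ) (μ := volume) (a := 0) (b := 2 * Real.pi)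
    (F := fun x θ => a θ * F (x + circleMap 0 r θ • v))
    (F' := fun x θ => a θ • fderiv ℂ F (x + circleMap 0 r θ • v)) (x₀ := x₀)
    (s := Metric.ball x₀ r) (bound := fun _ => 1 / r * (K / r))
    (Metric.ball_mem_nhds x₀ hr) ?_ ?_ ?_ ?_ ?_ ?_
  · have hform : (fun x => (2 * Real.pi * Complex.I : ℂ)⁻¹ • ∫ θ in (0 : ℝ)..2 * Real.pi,
        a θ * F (x + circleMap 0 r θ • v)) =ᶠ[𝓝 x₀] (fun x => fderiv ℂ F x v) := by
      filter_upwards [Metric.ball_mem_nhds x₀ hr] with x hx
      rw [dq_eq hr (x := x) (F := F)]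
      · congr 1
        apply intervalIntegral.integral_congr
        intro θ _
        simp only [ha, smul_eq_mul, mul_assoc, hv]
      · intro w hw
        apply hdiff
        have := dist_triangle w x x₀
        have h2 := Metric.mem_closedBall.1 hw
        have h3 := Metric.mem_ball.1 hx
        linarith
    exact (h.differentiableAt.const_smul ((2 * Real.pi * Complex.I : ℂ)⁻¹)).congr_of_eventuallyEq
      hform.symm
  · filter_upwards [Metric.ball_mem_nhds x₀ hr] with x hx
    exact (hGc x hx).aestronglyMeasurable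
  · exact (hGc x₀ hx₀b).intervalIntegrable _ _
  · have h5 : Measurable fun θ : ℝ => a θ • fderiv ℂ F (x₀ + circleMap 0 r θ • v) :=
      hac.measurable.smul ((measurable_fderiv ℂ F).comp (hpath x₀).measurable)
    exact h5.aestronglyMeasurable
  · refine Filter.Eventually.of_forall fun θ _ x hx => ?_
    rw [norm_smul, han]
    exact mul_le_mul_of_nonneg_left (hfd _ (hnear x hx θ)) (by positivity)
  · exact intervalIntegrable_const
  · refine Filter.Eventually.of_forall fun θ _ x hx => ?_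
    have h6 : HasFDerivAt F (fderiv ℂ F (x + circleMap 0 r θ • v)) (x + circleMap 0 r θ • v) :=
      (hdiff _ (by have := hnear x hx θ; linarith)).hasFDerivAt
    have h7 : HasFDerivAt (fun x : ℂ × ℂ => F (x + circleMap 0 r θ • v))
        (fderiv ℂ F (x + circleMap 0 r θ • v)) x :=
      (hasFDerivAt_comp_add_right (circleMap 0 r θ • v)).2 h6
    exact h7.const_mul (a θ)

lemma dq_bound {F : ℂ × ℂ → ℂ} {x : ℂ × ℂ} {r A : ℝ} (hr : 0 < r)
    (hF : ∀ z ∈ Metric.closedBall x.1 r, DifferentiableAt ℂ F (z, x.2))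
    (hA : ∀ z ∈ Metric.closedBall x.1 r, ‖F (z, x.2)‖ ≤ A) :
    ‖fderiv ℂ F x (1, 0)‖ ≤ A / r := by
  have hx : x.1 ∈ Metric.closedBall x.1 r := Metric.mem_closedBall_self hr.le
  have h0 : ∀ z : ℂ, HasDerivAt (fun z : ℂ => ((z, x.2) : ℂ × ℂ)) (1, 0) z := fun z =>
    (hasDerivAt_id z).prodMk (hasDerivAt_const z x.2)
  have h1 : HasDerivAt (fun z : ℂ => F (z, x.2)) (fderiv ℂ F x (1, 0)) x.1 := by
    have h2 : HasFDerivAt F (fderiv ℂ F x) (x.1, x.2) := (hF x.1 hx).hasFDerivAt
    exact h2.comp_hasDerivAt x.1 (h0 x.1)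
  have h4 : DifferentiableOn ℂ (fun z : ℂ => F (z, x.2)) (Metric.closedBall x.1 r) := by
    intro z hz
    exact (DifferentiableAt.comp z (hF z hz) (h0 z).differentiableAt).differentiableWithinAt
  have h5 := Complex.norm_deriv_le_of_forall_mem_sphere_norm_le (c := x.1) (R := r) (C := A)
    hr (h4.diffContOnCl_ball (Set.Subset.refl _)) (fun c hc =>
      hA c (Metric.sphere_subset_closedBall hc))
  rw [h1.deriv] at h5
  exact h5

lemma shp_mem {R ε : ℝ} {x : ℂ × ℂ} (hx : x ∈ Dom R ε) :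
    ((starRingEnd ℂ) x.2, (starRingEnd ℂ) x.1) ∈ Dom R ε := by
  obtain ⟨h1, h2, h3, h4⟩ := hx
  have h5 : ‖(starRingEnd ℂ) x.1 - (starRingEnd ℂ) ((starRingEnd ℂ) x.2)‖
      = ‖x.2 - (starRingEnd ℂ) x.1‖ := by
    rw [Complex.conj_conj, norm_sub_rev]
  refine ⟨?_, ?_, ?_, ?_⟩
  · simpa using h2
  · simpa using h1
  · change ‖(starRingEnd ℂ) x.1 - (starRingEnd ℂ) ((starRingEnd ℂ) x.2)‖
      < ε * ‖(starRingEnd ℂ) x.2‖
    rw [h5, RCLike.norm_conj]
    exact h4
  · change ‖(starRingEnd ℂ) x.1 - (starRingEnd ℂ) ((starRingEnd ℂ) x.2)‖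
      < ε * ‖(starRingEnd ℂ) x.1‖
    rw [h5, RCLike.norm_conj]
    exact h3

lemma shp_shp (F : ℂ × ℂ → ℂ) : shp (shp F) = F := by
  funext x
  simp [shp]

lemma shp_diff {R ε : ℝ} {F : ℂ × ℂ → ℂ} (hF : DifferentiableOn ℂ F (Dom R ε)) :
    DifferentiableOn ℂ (shp F) (Dom R ε) := by
  intro x hx
  apply DifferentiableAt.differentiableWithinAt
  have hx' := shp_mem hx
  have h1 : DifferentiableAt ℂ F ((starRingEnd ℂ) x.2, (starRingEnd ℂ) x.1) :=
    hF.differentiableAt ((isOpen_Dom R ε).mem_nhds hx')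
  have h2 : DifferentiableAt ℂ (fun y : ℂ × ℂ => F (y.2, y.1)) (star x) := by
    have h3 : DifferentiableAt ℂ (fun y : ℂ × ℂ => ((y.2, y.1) : ℂ × ℂ)) (star x) :=
      differentiableAt_snd.prodMk differentiableAt_fst
    exact DifferentiableAt.comp (star x) h1 h3
  have h := h2.star_star
  rw [star_star] at h
  exact h

/-- Room for the Cauchy estimate. -/
lemma dom_room {R ε : ℝ} (hR : 0 ≤ R) (hε : 0 < ε) (hε1 : ε ≤ 1 / 4) {x : ℂ × ℂ}
    (hx : x ∈ Dom (2 * R) (ε / 4)) {z : ℂ} (hz : ‖z - x.1‖ ≤ ε / 4 * ‖x.1‖) :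
    (z, x.2) ∈ Dom R ε := by
  obtain ⟨h1, h2, h3, h4⟩ := hx
  have hx1 : 0 < ‖x.1‖ := by linarith
  have h5 : ‖x.1‖ - ‖z - x.1‖ ≤ ‖z‖ := by
    have := norm_sub_norm_le x.1 z
    rw [norm_sub_rev] at this
    linarith
  have h6 : (1 - ε / 4) * ‖x.1‖ ≤ ‖z‖ := by nlinarith
  have h7 : 15 / 16 * ‖x.1‖ ≤ ‖z‖ := by nlinarith
  have h8 : ‖x.2 - (starRingEnd ℂ) z‖ ≤ ‖x.2 - (starRingEnd ℂ) x.1‖ + ‖z - x.1‖ := by
    have h9 : x.2 - (starRingEnd ℂ) z = (x.2 - (starRingEnd ℂ) x.1)
        - (starRingEnd ℂ) (z - x.1) := by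
      rw [map_sub]; ring
    rw [h9]
    refine (norm_sub_le _ _).trans ?_
    rw [RCLike.norm_conj]
  have h10 : ‖x.1‖ ≤ 17 / 16 * ‖x.2‖ := by
    have h11 : ‖x.1‖ - ‖x.2‖ ≤ ‖x.2 - (starRingEnd ℂ) x.1‖ := by
      have := norm_sub_norm_le ((starRingEnd ℂ) x.1) x.2
      rw [RCLike.norm_conj, norm_sub_rev] at this
      exact this
    nlinarith [norm_nonneg x.2]
  refine ⟨?_, ?_, ?_, ?_⟩
  · change R < ‖z‖
    linarith
  · change R < ‖x.2‖
    linarith
  · change ‖x.2 - (starRingEnd ℂ) z‖ < ε * ‖z‖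
    nlinarith
  · change ‖x.2 - (starRingEnd ℂ) z‖ < ε * ‖x.2‖
    nlinarith [norm_nonneg x.2]

end Pool.Agent.H77.N2
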