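import Pool.Agent.H77.N2.Defs

/-!
Module ROOT of MP_6e521b_an (n = 2): a holomorphic root depending on parameters.

Proof. Fix `x` in `U`. The map `T(z) = z - G z x / h x` has derivative of norm at most 1/2 on the
ball `B = ball (p x) (ρ x)`, and `‖T(p x) - p x‖ ≤ ρ x / 8`, so `T` maps the closed ball of radius
`ρ x / 4 · ...` into itself (radius `ρ x / 2`: 1/2 * ρ/2 + ρ/8 < ρ/2) and has a unique fixed point
`p' x` there, `‖p' x - p x‖ ≤ 2 ‖T(p x) - p x‖ = 2 ‖G (p x) x‖ / ‖h x‖`. For `z, z'` in the ball: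
`‖G z x - G z' x - h x (z - z')‖ ≤ ‖h x‖ ‖z - z'‖ / 2` (mean value), hence
`‖G z x - G z' x‖ ≥ ‖h x‖ ‖z - z'‖ / 2`.
Continuity of `p'` at `x₀`: put `z₀ = p' x₀`; for `x` near `x₀`, `z₀ ∈ ball (p x) (ρ x)` (continuity
of `p`, `ρ`), so `‖p' x - z₀‖ ≤ 2 ‖G z₀ x‖ / ‖h x‖ → 0` (`G z₀ ·` is continuous at `x₀`,
`G z₀ x₀ = 0`, `h` continuous and nonzero).
Differentiability at `x₀`: let `L` be the derivative of `y ↦ G y.1 y.2` at `(z₀, x₀)`,
`L (z, x) = a z + L₂ x` with `a = ∂_z G ≠ 0` (as `‖a / h - 1‖ ≤ 1/2`). Then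
`0 = G (p' x) x - G z₀ x₀ = a (p' x - z₀) + L₂ (x - x₀) + o(‖p' x - z₀‖ + ‖x - x₀‖)`, so
`p' x - z₀ = O(‖x - x₀‖)` and then `p'` has derivative `- a⁻¹ L₂` at `x₀`.
-/

open Filter Topology

namespace Pool.Agent.H77.N2

theorem root_aux1 {F : ℂ → ℂ} {p h : ℂ} {r : ℝ} (_hh : h ≠ 0)
    (hF : ∀ z ∈ Metric.ball p r, DifferentiableAt ℂ F z)
    (hF' : ∀ z ∈ Metric.ball p r, ‖deriv F z / h - 1‖ ≤ 1 / 2) :
    ∀ z ∈ Metric.ball p r, ∀ z' ∈ Metric.ball p r,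
      ‖(z - F z / h) - (z' - F z' / h)‖ ≤ 1 / 2 * ‖z - z'‖ := by
  intro z hz z' hz'
  refine (convex_ball p r).norm_image_sub_le_of_norm_deriv_le (f := fun z => z - F z / h)
    (C := 1 / 2) ?_ ?_ hz' hz
  · intro w hw
    exact differentiableAt_id.sub ((hF w hw).div_const h)
  · intro w hw
    have h1 : deriv (fun z => z - F z / h) w = 1 - deriv F w / h :=
      HasDerivAt.deriv (f := fun z => z - F z / h)
        ((hasDerivAt_id' w).sub ((hF w hw).hasDerivAt.div_const h))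
    rw [h1, norm_sub_rev]
    exact hF' w hw

theorem root_aux2 {F : ℂ → ℂ} {p h : ℂ} {r : ℝ} (hh : h ≠ 0)
    (hF : ∀ z ∈ Metric.ball p r, DifferentiableAt ℂ F z)
    (hF' : ∀ z ∈ Metric.ball p r, ‖deriv F z / h - 1‖ ≤ 1 / 2) :
    ∀ z ∈ Metric.ball p r, ∀ z' ∈ Metric.ball p r,
      ‖z - z'‖ ≤ 2 * ‖F z - F z'‖ / ‖h‖ := by
  intro z hz z' hz'
  have h1 := root_aux1 hh hF hF' z hz z' hz'
  have h2 : z - z' = ((z - F z / h) - (z' - F z' / h)) + (F z - F z') / h := by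
    field_simp
    ring
  have h3 : ‖z - z'‖ ≤ 1 / 2 * ‖z - z'‖ + ‖F z - F z'‖ / ‖h‖ := by
    calc ‖z - z'‖ = ‖((z - F z / h) - (z' - F z' / h)) + (F z - F z') / h‖ := by rw [← h2]
      _ ≤ ‖(z - F z / h) - (z' - F z' / h)‖ + ‖(F z - F z') / h‖ := norm_add_le _ _
      _ ≤ _ := by rw [norm_div]; gcongr
  have h4 : 2 * ‖F z - F z'‖ / ‖h‖ = 2 * (‖F z - F z'‖ / ‖h‖) := by ring
  rw [h4]
  linarith

theorem root_aux3 {F : ℂ → ℂ} {p h : ℂ} {r : ℝ} (hr : 0 < r) (hh : h ≠ 0)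
    (hF : ∀ z ∈ Metric.ball p r, DifferentiableAt ℂ F z)
    (hF' : ∀ z ∈ Metric.ball p r, ‖deriv F z / h - 1‖ ≤ 1 / 2)
    (h0 : ‖F p‖ ≤ r * ‖h‖ / 8) :
    ∃ z ∈ Metric.ball p r, F z = 0 ∧ ‖z - p‖ ≤ 2 * ‖F p‖ / ‖h‖ := by
  have hhn : 0 < ‖h‖ := norm_pos_iff.mpr hh
  have hsub : Metric.closedBall p (r / 2) ⊆ Metric.ball p r :=
    Metric.closedBall_subset_ball (by linarith)
  have hpb : p ∈ Metric.ball p r := Metric.mem_ball_self hr
  have hpc : p ∈ Metric.closedBall p (r / 2) := Metric.mem_closedBall_self (by linarith)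
  have hmaps : Set.MapsTo (fun z => z - F z / h) (Metric.closedBall p (r / 2))
      (Metric.closedBall p (r / 2)) := by
    intro z hz
    have h1 := root_aux1 hh hF hF' z (hsub hz) p hpb
    rw [Metric.mem_closedBall, dist_eq_norm] at hz ⊢
    have h2 : (z - F z / h) - p = ((z - F z / h) - (p - F p / h)) - F p / h := by ring
    have h3 : ‖F p / h‖ ≤ r / 8 := by
      rw [norm_div, div_le_iff₀ hhn]
      linarith
    calc ‖(z - F z / h) - p‖ = ‖((z - F z / h) - (p - F p / h)) - F p / h‖ := by rw [← h2]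
      _ ≤ ‖(z - F z / h) - (p - F p / h)‖ + ‖F p / h‖ := norm_sub_le _ _
      _ ≤ 1 / 2 * ‖z - p‖ + r / 8 := add_le_add h1 h3
      _ ≤ 1 / 2 * (r / 2) + r / 8 := by gcongr
      _ ≤ r / 2 := by linarith
  have hcontr : ContractingWith (1 / 2) (hmaps.restrict (fun z => z - F z / h) _ _) := by
    refine ⟨by norm_num, ?_⟩
    refine LipschitzWith.of_dist_le_mul ?_
    rintro ⟨z, hz⟩ ⟨z', hz'⟩
    have h1 := root_aux1 hh hF hF' z (hsub hz) z' (hsub hz')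
    simpa [Subtype.dist_eq, dist_eq_norm] using h1
  obtain ⟨z, hz, hfix, -⟩ := ContractingWith.exists_fixedPoint'
    Metric.isClosed_closedBall.isComplete hmaps hcontr hpc (edist_ne_top _ _)
  have hz0 : F z = 0 := by
    have h1 : z - F z / h = z := hfix
    have h2 : F z / h = 0 := by
      have := sub_eq_self.mp h1
      exact this
    rcases div_eq_zero_iff.mp h2 with h3 | h3
    · exact h3
    · exact absurd h3 hh
  refine ⟨z, hsub hz, hz0, ?_⟩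
  have h1 := root_aux2 hh hF hF' z (hsub hz) p hpb
  rwa [hz0, zero_sub, norm_neg] at h1

theorem root_lemma {U : Set (ℂ × ℂ)} (hU : IsOpen U) (G : ℂ → ℂ × ℂ → ℂ) (p h : ℂ × ℂ → ℂ)
    (ρ : ℂ × ℂ → ℝ) (hp : ContinuousOn p U) (hh : ContinuousOn h U) (hρ : ContinuousOn ρ U)
    (hρ0 : ∀ x ∈ U, 0 < ρ x) (hh0 : ∀ x ∈ U, h x ≠ 0)
    (hG : ∀ x ∈ U, ∀ z ∈ Metric.ball (p x) (ρ x),
      DifferentiableAt ℂ (fun y : ℂ × (ℂ × ℂ) => G y.1 y.2) (z, x))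
    (hG' : ∀ x ∈ U, ∀ z ∈ Metric.ball (p x) (ρ x), ‖deriv (fun z => G z x) z / h x - 1‖ ≤ 1 / 2)
    (hG0 : ∀ x ∈ U, ‖G (p x) x‖ ≤ ρ x * ‖h x‖ / 8) :
    ∃ p' : ℂ × ℂ → ℂ, DifferentiableOn ℂ p' U ∧ ∀ x ∈ U, G (p' x) x = 0 ∧
      ‖p' x - p x‖ ≤ 2 * ‖G (p x) x‖ / ‖h x‖ := by
  classical
  have hF : ∀ x ∈ U, ∀ z ∈ Metric.ball (p x) (ρ x), DifferentiableAt ℂ (fun z => G z x) z := by
    intro x hx z hz
    exact (hG x hx z hz).comp (f := fun w : ℂ => (w, x)) z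
      (differentiableAt_id.prodMk (differentiableAt_const x))
  have hex : ∀ x : ℂ × ℂ, ∃ z : ℂ, x ∈ U → z ∈ Metric.ball (p x) (ρ x) ∧ G z x = 0 ∧
      ‖z - p x‖ ≤ 2 * ‖G (p x) x‖ / ‖h x‖ := by
    intro x
    by_cases hx : x ∈ U
    · obtain ⟨z, hz, h1, h2⟩ := root_aux3 (F := fun z => G z x) (hρ0 x hx) (hh0 x hx) (hF x hx)
        (hG' x hx) (hG0 x hx)
      exact ⟨z, fun _ => ⟨hz, h1, h2⟩⟩
    · exact ⟨0, fun h => absurd h hx⟩
  choose p' hp' using hex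
  refine ⟨p', ?_, fun x hx => (hp' x hx).2⟩
  intro x₀ hx₀
  have hUx : U ∈ 𝓝 x₀ := hU.mem_nhds hx₀
  set z₀ : ℂ := p' x₀ with hz₀
  obtain ⟨hzb, hz0, -⟩ := hp' x₀ hx₀
  rw [← hz₀] at hzb hz0
  have hDL : HasFDerivAt (fun y : ℂ × (ℂ × ℂ) => G y.1 y.2)
      (fderiv ℂ (fun y : ℂ × (ℂ × ℂ) => G y.1 y.2) (z₀, x₀)) (z₀, x₀) :=
    (hG x₀ hx₀ z₀ hzb).hasFDerivAt
  set L := fderiv ℂ (fun y : ℂ × (ℂ × ℂ) => G y.1 y.2) (z₀, x₀) with hL
  -- the partial derivative in z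
  set a : ℂ := L (1, 0) with ha
  have hder : deriv (fun z => G z x₀) z₀ = a := by
    have h1 : HasDerivAt (fun w : ℂ => (w, x₀)) ((1 : ℂ), (0 : ℂ × ℂ)) z₀ :=
      (hasDerivAt_id z₀).prodMk (hasDerivAt_const z₀ x₀)
    have h2 := hDL.comp_hasDerivAt z₀ h1
    exact h2.deriv
  have ha0 : a ≠ 0 := by
    intro h1
    have h2 := hG' x₀ hx₀ z₀ hzb
    rw [hder, h1, zero_div, zero_sub, norm_neg, norm_one] at h2
    norm_num at h2
  -- `z₀` stays in the moving ball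
  have hev1 : ∀ᶠ x in 𝓝 x₀, z₀ ∈ Metric.ball (p x) (ρ x) := by
    have h1 : ContinuousAt (fun x => dist z₀ (p x) - ρ x) x₀ :=
      (continuousAt_const.dist (hp.continuousAt hUx)).sub (hρ.continuousAt hUx)
    have h2 : dist z₀ (p x₀) - ρ x₀ < 0 := by
      have := Metric.mem_ball.mp hzb
      linarith
    filter_upwards [h1.eventually_lt_const h2] with x hx
    rw [Metric.mem_ball]
    linarith
  have hev2 : ∀ᶠ x in 𝓝 x₀, x ∈ U := hUx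
  -- basic estimate
  have hest : ∀ᶠ x in 𝓝 x₀, ‖p' x - z₀‖ ≤ 2 * ‖G z₀ x‖ / ‖h x‖ := by
    filter_upwards [hev1, hev2] with x h1 h2
    obtain ⟨h3, h4, -⟩ := hp' x h2
    have h5 := root_aux2 (hh0 x h2) (hF x h2) (hG' x h2) z₀ h1 (p' x) h3
    simp only [h4, sub_zero] at h5
    rw [norm_sub_rev]
    exact h5
  -- `G z₀ x = O(x - x₀)`
  have hGO : (fun x => G z₀ x) =O[𝓝 x₀] fun x => x - x₀ := by
    have h1 : HasFDerivAt (fun x : ℂ × ℂ => (z₀, x))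
        ((0 : (ℂ × ℂ) →L[ℂ] ℂ).prod (ContinuousLinearMap.id ℂ (ℂ × ℂ))) x₀ :=
      (hasFDerivAt_const z₀ x₀).prodMk (hasFDerivAt_id x₀)
    have h2 := (hDL.comp x₀ h1).isBigO_sub
    refine h2.congr_left ?_
    intro x
    simp [hz0]
  have hpO : (fun x => p' x - z₀) =O[𝓝 x₀] fun x => x - x₀ := by
    have h1 : ∀ᶠ x in 𝓝 x₀, ‖h x₀‖ / 2 < ‖h x‖ := by
      have h2 : ContinuousAt (fun x => ‖h x‖) x₀ := (hh.continuousAt hUx).norm
      have h3 : 0 < ‖h x₀‖ := norm_pos_iff.mpr (hh0 x₀ hx₀)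
      exact h2.eventually_const_lt (by linarith)
    have h3 : 0 < ‖h x₀‖ := norm_pos_iff.mpr (hh0 x₀ hx₀)
    have h4 : (fun x => p' x - z₀) =O[𝓝 x₀] fun x => G z₀ x := by
      refine Asymptotics.IsBigO.of_bound (4 / ‖h x₀‖) ?_
      filter_upwards [hest, h1] with x h5 h6
      calc ‖p' x - z₀‖ ≤ 2 * ‖G z₀ x‖ / ‖h x‖ := h5
        _ ≤ 2 * ‖G z₀ x‖ / (‖h x₀‖ / 2) := by gcongr
        _ = 4 / ‖h x₀‖ * ‖G z₀ x‖ := by field_simp; ring
    exact h4.trans hGO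
  have htend : Tendsto (fun x => (p' x, x)) (𝓝 x₀) (𝓝 (z₀, x₀)) := by
    refine Tendsto.prodMk_nhds ?_ tendsto_id
    have h1 : Tendsto (fun x => p' x - z₀) (𝓝 x₀) (𝓝 0) := by
      refine hpO.trans_tendsto ?_
      have h2 : Tendsto (fun x : ℂ × ℂ => x - x₀) (𝓝 x₀) (𝓝 (x₀ - x₀)) :=
        (continuous_id.sub continuous_const).tendsto x₀
      simpa using h2
    simpa using h1.add_const z₀
  have hlo := hDL.isLittleO.comp_tendsto htend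
  have hlo2 : (fun x => L (p' x - z₀, x - x₀)) =o[𝓝 x₀] fun x => x - x₀ := by
    have h1 : (fun x => ((p' x, x) : ℂ × (ℂ × ℂ)) - (z₀, x₀)) =O[𝓝 x₀] fun x => x - x₀ := by
      have h2 := hpO.prod_left (Asymptotics.isBigO_refl (fun x => x - x₀) (𝓝 x₀))
      exact h2
    have h3 := hlo.trans_isBigO h1
    refine (h3.neg_left).congr' ?_ EventuallyEq.rfl
    filter_upwards [hev2] with x hx
    simp only [Function.comp_apply, (hp' x hx).2.1, hz0, sub_zero, zero_sub, neg_neg,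
      Prod.mk_sub_mk]
  have hLdec : ∀ (u : ℂ) (v : ℂ × ℂ), L (u, v) = u * a + L (0, v) := by
    intro u v
    have h1 : ((u, v) : ℂ × (ℂ × ℂ)) = u • ((1 : ℂ), (0 : ℂ × ℂ)) + (0, v) := by
      simp
    rw [h1, map_add, map_smul, smul_eq_mul]
  have hfd : HasFDerivAt p' (-(a⁻¹ • L.comp (ContinuousLinearMap.inr ℂ ℂ (ℂ × ℂ)))) x₀ := by
    rw [hasFDerivAt_iff_isLittleO]
    refine (hlo2.const_mul_left a⁻¹).congr_left ?_
    intro x
    rw [hLdec]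
    simp only [neg_apply, smul_apply,
      ContinuousLinearMap.comp_apply, ContinuousLinearMap.inr_apply, smul_eq_mul]
    field_simp
    ring
  exact hfd.differentiableAt.differentiableWithinAt

end Pool.Agent.H77.N2
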