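import Pool.Agent.H77.N2.StepAux

/-! Auxiliary statements for the module STEP. -/

open Filter Topology Polynomial

namespace Pool.Agent.H77.N2

lemma step_fderiv {ψ A A' B B' : ℂ × ℂ → ℂ} {x : ℂ × ℂ} (hψ : DifferentiableAt ℂ ψ x)
    (hA : DifferentiableAt ℂ A x) (hA' : DifferentiableAt ℂ A' x) (hB : DifferentiableAt ℂ B x)
    (hB' : DifferentiableAt ℂ B' x) :
    fderiv ℂ (fun x => ψ x + 1 / 2 * (A x + A' x) + 1 / 4 * (B x + B' x)) x (1, 0)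
      = fderiv ℂ ψ x (1, 0) + 1 / 2 * (fderiv ℂ A x (1, 0) + fderiv ℂ A' x (1, 0))
        + 1 / 4 * (fderiv ℂ B x (1, 0) + fderiv ℂ B' x (1, 0)) := by
  have h := ((hψ.hasFDerivAt.fun_add ((hA.hasFDerivAt.fun_add hA'.hasFDerivAt).const_mul
    (1 / 2 : ℂ))).fun_add ((hB.hasFDerivAt.fun_add hB'.hasFDerivAt).const_mul (1 / 4 : ℂ)))
  rw [h.fderiv]
  simp [smul_eq_mul]
  ring

lemma step_sym {ψ A B : ℂ × ℂ → ℂ} {x : ℂ × ℂ} (h : shp ψ x = ψ x) :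
    shp (fun x => ψ x + 1 / 2 * (A x + shp A x) + 1 / 4 * (B x + shp B x)) x
      = ψ x + 1 / 2 * (A x + shp A x) + 1 / 4 * (B x + shp B x) := by
  have h1 : shp (fun x => ψ x + 1 / 2 * (A x + shp A x) + 1 / 4 * (B x + shp B x)) x
      = shp ψ x + 1 / 2 * (shp A x + shp (shp A) x) + 1 / 4 * (shp B x + shp (shp B) x) := by
    have c2 : (starRingEnd ℂ) (1 / 2 : ℂ) = 1 / 2 := by
      rw [map_div₀, map_one, Complex.conj_ofNat]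
    have c4 : (starRingEnd ℂ) (1 / 4 : ℂ) = 1 / 4 := by
      rw [map_div₀, map_one, Complex.conj_ofNat]
    simp only [shp, map_add, map_mul, c2, c4]
  rw [h1, shp_shp, shp_shp, h]
  ring

/-- The bound of `G (p x) x`. -/
lemma step_G0 {N k : ℕ} (hk : 1 ≤ k) (hkN : k < N) {Γ π Q : ℝ} (hΓ : 0 < Γ)
    (hπ : 0 ≤ π) (hQ : 1 ≤ Q)
    (hπQ : π ≤ 2 * Q) (C : ℂ[X]) (hC : C.natDegree < N) (hC0 : ∀ a ≤ k, C.coeff a = 0)
    (hCΓ : ∀ a, ‖C.coeff a‖ ≤ Γ) (c : ℂ) (hc : ‖c‖ ≤ Γ) (z : ℂ) (hz : ‖z‖ ≤ 3 * π) (q : ℂ)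
    (hq : ‖q‖ = Q) (dA dA' dB dB' : ℂ) {KA KB : ℝ}
    (hA : ‖dA‖ ≤ KA * π ^ k * Q ^ (N - 2)) (hA' : ‖dA'‖ ≤ KA * π ^ k * Q ^ (N - 2))
    (hB : ‖dB‖ ≤ KB * π ^ k * Q ^ (N - 2)) (hB' : ‖dB'‖ ≤ KB * π ^ k * Q ^ (N - 2)) :
    ‖(cst C).eval z * (c * k * q ^ (k - 1)) + (starRingEnd ℂ) c * z ^ k * (derivative C).eval q
      + (starRingEnd ℂ) c * z ^ k * (c * k * q ^ (k - 1)) - (dA + dA') - 1 / 2 * (dB + dB')‖
      ≤ (3 * N ^ 2 * Γ ^ 2 * 6 ^ N + 2 * KA + KB) * π ^ k * Q ^ (N - 2) := by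
  have hN0 : (1 : ℝ) ≤ N := by exact_mod_cast (by omega : 1 ≤ N)
  have hkN' : (k : ℝ) ≤ N := by exact_mod_cast hkN.le
  have hQ0 : 0 < Q := by linarith
  have e1 := step_cst_bound hkN hΓ hπ hQ hπQ C hC hC0 hCΓ z hz
  have e2 := step_deriv_bound (by omega) hΓ hQ C hC hCΓ q hq.le
  have e3 : ‖z ^ k‖ ≤ 3 ^ N * π ^ k := by
    rw [norm_pow]
    calc ‖z‖ ^ k ≤ (3 * π) ^ k := pow_le_pow_left₀ (norm_nonneg _) hz k
      _ = 3 ^ k * π ^ k := mul_pow _ _ _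
      _ ≤ 3 ^ N * π ^ k := by gcongr; norm_num
  have e4 : ‖c * k * q ^ (k - 1)‖ ≤ Γ * N * Q ^ (k - 1) := by
    rw [norm_mul, norm_mul, norm_pow, hq, Complex.norm_natCast]
    gcongr
  have h36 : (3 : ℝ) ^ N ≤ 6 ^ N := pow_le_pow_left₀ (by norm_num) (by norm_num) N
  have t1 : ‖(cst C).eval z * (c * k * q ^ (k - 1))‖
      ≤ N ^ 2 * Γ ^ 2 * 6 ^ N * π ^ k * Q ^ (N - 2) := by
    rw [norm_mul]
    calc ‖(cst C).eval z‖ * ‖c * k * q ^ (k - 1)‖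
        ≤ (N * Γ * 6 ^ N * π ^ k * Q ^ (N - 1 - k)) * (Γ * N * Q ^ (k - 1)) := by gcongr
      _ = N ^ 2 * Γ ^ 2 * 6 ^ N * π ^ k * (Q ^ (N - 1 - k) * Q ^ (k - 1)) := by ring
      _ = _ := by
          rw [← pow_add]
          congr 2
          omega
  have t2 : ‖(starRingEnd ℂ) c * z ^ k * (derivative C).eval q‖
      ≤ N ^ 2 * Γ ^ 2 * 6 ^ N * π ^ k * Q ^ (N - 2) := by
    rw [norm_mul, norm_mul, RCLike.norm_conj]
    calc ‖c‖ * ‖z ^ k‖ * ‖(derivative C).eval q‖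
        ≤ Γ * (3 ^ N * π ^ k) * ((N : ℝ) ^ 2 * Γ * Q ^ (N - 2)) := by gcongr
      _ = N ^ 2 * Γ ^ 2 * 3 ^ N * π ^ k * Q ^ (N - 2) := by ring
      _ ≤ _ := by gcongr
  have t3 : ‖(starRingEnd ℂ) c * z ^ k * (c * k * q ^ (k - 1))‖
      ≤ N ^ 2 * Γ ^ 2 * 6 ^ N * π ^ k * Q ^ (N - 2) := by
    rw [norm_mul, norm_mul, RCLike.norm_conj]
    calc ‖c‖ * ‖z ^ k‖ * ‖c * k * q ^ (k - 1)‖
        ≤ Γ * (3 ^ N * π ^ k) * (Γ * N * Q ^ (k - 1)) := by gcongr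
      _ = N * Γ ^ 2 * 3 ^ N * π ^ k * Q ^ (k - 1) := by ring
      _ ≤ N ^ 2 * Γ ^ 2 * 6 ^ N * π ^ k * Q ^ (N - 2) := by
          have h5 : (N : ℝ) ≤ N ^ 2 := by nlinarith
          have h6 : Q ^ (k - 1) ≤ Q ^ (N - 2) := pow_le_pow_right₀ hQ (by omega)
          gcongr
  have t4 : ‖dA + dA'‖ ≤ 2 * KA * π ^ k * Q ^ (N - 2) := by
    have := norm_add_le dA dA'
    linarith
  have t5 : ‖1 / 2 * (dB + dB')‖ ≤ KB * π ^ k * Q ^ (N - 2) := by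
    rw [norm_mul]
    have := norm_add_le dB dB'
    have h2 : ‖(1 / 2 : ℂ)‖ = 1 / 2 := by norm_num
    rw [h2]
    linarith
  have tri : ∀ a b c' d e : ℂ, ‖a + b + c' - d - e‖ ≤ ‖a‖ + ‖b‖ + ‖c'‖ + ‖d‖ + ‖e‖ := by
    intro a b c' d e
    have h1 := norm_sub_le (a + b + c' - d) e
    have h2 := norm_sub_le (a + b + c') d
    have h3 := norm_add_le (a + b) c'
    have h4 := norm_add_le a b
    linarith
  refine (tri _ _ _ _ _).trans ?_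
  have : (3 * N ^ 2 * Γ ^ 2 * 6 ^ N + 2 * KA + KB) * π ^ k * Q ^ (N - 2)
      = N ^ 2 * Γ ^ 2 * 6 ^ N * π ^ k * Q ^ (N - 2) + N ^ 2 * Γ ^ 2 * 6 ^ N * π ^ k * Q ^ (N - 2)
        + N ^ 2 * Γ ^ 2 * 6 ^ N * π ^ k * Q ^ (N - 2) + 2 * KA * π ^ k * Q ^ (N - 2)
        + KB * π ^ k * Q ^ (N - 2) := by ring
  rw [this]
  linarith

lemma step_h_low {N : ℕ} (hN : 1 ≤ N) {π Q : ℝ} (hπ : 0 < π) (hQ : 0 < Q) {p q : ℂ}
    (hq : ‖q‖ = Q) (hp : π / 3 ≤ ‖p‖) :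
    (N : ℝ) ^ 2 * Q ^ (N - 1) * (π ^ (N - 1) / 3 ^ N) ≤ ‖(N : ℂ) ^ 2 * q ^ (N - 1) * p ^ (N - 1)‖ := by
  rw [norm_mul, norm_mul, norm_pow, norm_pow, norm_pow, hq, Complex.norm_natCast]
  have h1 : π ^ (N - 1) / 3 ^ N ≤ ‖p‖ ^ (N - 1) := by
    calc π ^ (N - 1) / 3 ^ N ≤ π ^ (N - 1) / 3 ^ (N - 1) := by
          gcongr
          · norm_num
          · omega
      _ = (π / 3) ^ (N - 1) := (div_pow _ _ _).symm
      _ ≤ ‖p‖ ^ (N - 1) := pow_le_pow_left₀ (by positivity) hp _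
  gcongr

/-- the derivative in `z` -/
lemma step_G' {N : ℕ} (hN : 2 ≤ N) {Γ π Q : ℝ} (hΓ : 0 < Γ) (hπ1 : 1 ≤ π) (hQ : 1 ≤ Q)
    (hbig : 4 * ((N : ℝ) ^ 2 * Γ ^ 2 * 12 ^ N) ≤ π)
    (D : ℂ[X]) (hD : D.natDegree < N) (hDΓ : ∀ a, ‖D.coeff a‖ ≤ Γ) {p q z : ℂ}
    (hq : ‖q‖ = Q) (hp : π / 3 ≤ ‖p‖) (hp3 : ‖p‖ ≤ 3 * π) (hz : ‖z - p‖ < ‖p‖ / (10 * N))
    (e : ℂ) :
    ‖deriv (fun z => N * q ^ (N - 1) * z ^ N + (cst D).eval z * (derivative D).eval q - e) z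
      / ((N : ℂ) ^ 2 * q ^ (N - 1) * p ^ (N - 1)) - 1‖ ≤ 1 / 2 := by
  have hN0 : (1 : ℝ) ≤ N := by exact_mod_cast (by omega : 1 ≤ N)
  have hπ : 0 < π := by linarith
  have hQ0 : 0 < Q := by linarith
  have hp0 : 0 < ‖p‖ := by linarith
  have hpne : p ≠ 0 := norm_pos_iff.1 hp0
  have hqne : q ≠ 0 := norm_pos_iff.1 (by rw [hq]; exact hQ0)
  have hNne : (N : ℂ) ≠ 0 := by
    have : N ≠ 0 := by omega
    exact_mod_cast this
  have hder : deriv (fun z => N * q ^ (N - 1) * z ^ N + (cst D).eval z * (derivative D).eval q - e) z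
      = N * q ^ (N - 1) * (N * z ^ (N - 1)) + (derivative (cst D)).eval z * (derivative D).eval q := by
    have h1 : HasDerivAt (fun z : ℂ => N * q ^ (N - 1) * z ^ N) (N * q ^ (N - 1) * (N * z ^ (N - 1))) z :=
      (hasDerivAt_pow N z).const_mul _
    have h2 : HasDerivAt (fun z : ℂ => (cst D).eval z * (derivative D).eval q)
        ((derivative (cst D)).eval z * (derivative D).eval q) z :=
      ((cst D).hasDerivAt z).mul_const _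
    exact ((h1.fun_add h2).sub_const e).deriv
  rw [hder]
  have hh : (N : ℂ) ^ 2 * q ^ (N - 1) * p ^ (N - 1) ≠ 0 := by positivity
  have hsplit : (N * q ^ (N - 1) * (N * z ^ (N - 1)) + (derivative (cst D)).eval z *
      (derivative D).eval q) / ((N : ℂ) ^ 2 * q ^ (N - 1) * p ^ (N - 1)) - 1
      = ((z / p) ^ (N - 1) - 1) + (derivative (cst D)).eval z * (derivative D).eval q
        / ((N : ℂ) ^ 2 * q ^ (N - 1) * p ^ (N - 1)) := by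
    rw [div_pow]
    field_simp
    ring
  rw [hsplit]
  have a1 : ‖(z / p) ^ (N - 1) - 1‖ ≤ 1 / 4 := by
    apply step_pow_near (N := N) (by omega) (by omega)
    have : z / p - 1 = (z - p) / p := by field_simp
    rw [this, norm_div, div_le_iff₀ hp0]
    have h3 : ‖p‖ / (10 * N) = 1 / (10 * N) * ‖p‖ := by ring
    linarith
  have hz4 : ‖z‖ ≤ 4 * π := by
    have h1 : ‖z‖ ≤ ‖z - p‖ + ‖p‖ := by
      have := norm_add_le (z - p) p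
      rwa [sub_add_cancel] at this
    have h2 : ‖p‖ / (10 * N) ≤ ‖p‖ / 10 := by
      gcongr
      linarith
    linarith
  have hcD : (cst D).natDegree < N := lt_of_le_of_lt natDegree_map_le hD
  have hcDΓ : ∀ a, ‖(cst D).coeff a‖ ≤ Γ := by
    intro a
    rw [cst, coeff_map, RCLike.norm_conj]
    exact hDΓ a
  have b1 := step_deriv_bound hN hΓ (by linarith : (1 : ℝ) ≤ 4 * π) (cst D) hcD hcDΓ z hz4
  have b2 := step_deriv_bound hN hΓ hQ D hD hDΓ q hq.le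
  have b3 := step_h_low (by omega : 1 ≤ N) hπ hQ0 hq hp
  have a2 : ‖(derivative (cst D)).eval z * (derivative D).eval q
        / ((N : ℂ) ^ 2 * q ^ (N - 1) * p ^ (N - 1))‖ ≤ 1 / 4 := by
    rw [norm_div, div_le_iff₀ (norm_pos_iff.2 hh), norm_mul]
    have hNN : N - 1 = (N - 2) + 1 := by omega
    calc ‖(derivative (cst D)).eval z‖ * ‖(derivative D).eval q‖
        ≤ ((N : ℝ) ^ 2 * Γ * (4 * π) ^ (N - 2)) * ((N : ℝ) ^ 2 * Γ * Q ^ (N - 2)) := by gcongr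
      _ = (N : ℝ) ^ 2 * (N ^ 2 * Γ ^ 2 * 4 ^ (N - 2)) * (π ^ (N - 2) * Q ^ (N - 2)) := by
          rw [mul_pow]; ring
      _ ≤ (N : ℝ) ^ 2 * (N ^ 2 * Γ ^ 2 * 4 ^ N) * (π ^ (N - 2) * Q ^ (N - 2)) := by
          gcongr
          · norm_num
          · omega
      _ ≤ 1 / 4 * ((N : ℝ) ^ 2 * Q ^ (N - 1) * (π ^ (N - 1) / 3 ^ N)) := by
          have key : (N : ℝ) ^ 2 * Γ ^ 2 * 4 ^ N ≤ 1 / 4 * (Q * π) / 3 ^ N := by
            rw [le_div_iff₀ (by positivity)]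
            have e12 : (12 : ℝ) ^ N = 4 ^ N * 3 ^ N := by rw [← mul_pow]; norm_num
            rw [e12] at hbig
            have : π ≤ Q * π := by nlinarith
            nlinarith
          calc (N : ℝ) ^ 2 * (N ^ 2 * Γ ^ 2 * 4 ^ N) * (π ^ (N - 2) * Q ^ (N - 2))
              ≤ (N : ℝ) ^ 2 * (1 / 4 * (Q * π) / 3 ^ N) * (π ^ (N - 2) * Q ^ (N - 2)) := by gcongr
            _ = _ := by
                rw [hNN, pow_succ, pow_succ]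
                ring
      _ ≤ _ := by
          gcongr
  calc _ ≤ ‖(z / p) ^ (N - 1) - 1‖ + ‖(derivative (cst D)).eval z * (derivative D).eval q
        / ((N : ℂ) ^ 2 * q ^ (N - 1) * p ^ (N - 1))‖ := norm_add_le _ _
    _ ≤ 1 / 4 + 1 / 4 := add_le_add a1 a2
    _ = 1 / 2 := by norm_num

end Pool.Agent.H77.N2
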