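import Pool.Agent.H77.N2.Defs
import Pool.Agent.H77.N2.Hol
import Pool.Agent.H77.N2.Root
import Pool.Agent.H77.N2.StepAux2

/-!
Module STEP of MP_6e521b_an (n = 2): adding one monomial `c q^k` to the polynomial of a state.

Conventions: `Q = ‖x.1‖`, `π = Q * S Q`, `x ∈ Dom (2R) (ε/4)`; `≲` means up to a factor depending on
`N, k, ε, M, Γ` only. From `IsBase`: `π ≤ 2Q`, `Q ≥ 1`, `π ≥ π₁` (large),
`(1-ε)Q ≤ ‖x.2‖ ≤ (1+ε)Q`, and `near` gives `π/3 ≤ ‖p x‖ ≤ 3π`.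

Put `A x = C*(p x) c x.1^k`, `B x = c̄ (p x)^k c x.1^k`, `ψ' = ψ + (A + A♯)/2 + (B + B♯)/4`. Then
`ψ'` is differentiable and `ψ'♯ = ψ'` (on the smaller domain). Put
`G z x = N x.1^(N-1) z^N + (C + c X^k)*(z) (C + c X^k)'(x.1) - 2 ∂_q ψ'(x)`.
Using the equation of the state `(ψ, p)`:
`G (p x) x = C*(p) k c q^(k-1) + c̄ p^k C'(q) + c̄ p^k k c q^(k-1) - ∂_q (A + A♯) - ∂_q (B + B♯) / 2`.
As `C` has only exponents `a` with `k < a < N`: `‖C*(p)‖ ≲ Σ π^a ≲ π^k Q^(N-1-k)` (`π ≤ 2Q`),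
`‖C'(q)‖ ≲ Q^(N-2)`, `‖A‖, ‖B‖ ≲ π^k Q^(N-1)` on `Dom R ε` near `x` (for this compare
`π(‖x.2‖)` and `π(‖z‖)` with `π(‖x.1‖)` by `Scmp`), and by the Cauchy estimate `dq_bound` on the
disc of radius `ε/4 ‖x.1‖` (`dom_room`) the four derivatives are `≲ π^k Q^(N-2)`.
(For `A♯(z, x.2)`, the argument is `(conj x.2, conj z) ∈ Dom R ε`.)
So `‖G (p x) x‖ ≲ π^k Q^(N-2)`.
`∂_z G = N² q^(N-1) z^(N-1) + ((C + cX^k)*)'(z) (C + cX^k)'(q)`, the second term is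
`≲ π^(N-2) Q^(N-2)` for `‖z‖ ≤ 4π` (if `N ≥ 2`, which holds as `k < N`), which is a small multiple
(`≲ 1/(πQ) ≤ 1/π₁²`) of `h x := N² q^(N-1) (p x)^(N-1)`. Apply `root_lemma` with `U = Dom (2R) (ε/4)`,
`ρ x = ‖p x‖ / (10 N)` (then `|(z/p)^(N-1) - 1| ≤ 1/4` on the ball) and this `h`. It gives `p'`
with `‖p' x - p x‖ ≤ 2 ‖G (p x) x‖ / ‖h x‖ ≲ π^k Q^(N-2) / (Q^(N-1) π^(N-1))`, that is
`‖p' - p‖ π^(N-1) Q ≲ π^k`; in particular `‖p' - p‖ ≲ 1/Q` since `k ≤ N - 1`, `π ≥ 1`, and `near`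
holds with a larger constant.
-/

open Filter Topology Polynomial

namespace Pool.Agent.H77.N2

theorem step {N k : ℕ} (hk : 1 ≤ k) (hkN : k < N) {ε M Γ : ℝ} (hε : 0 < ε) (hε1 : ε ≤ 1 / 4)
    (hM : 0 < M) (hΓ : 0 < Γ) :
    ∃ M' π₁ : ℝ, 0 < M' ∧ 0 < π₁ ∧ ∀ R : ℝ, 1 ≤ R → ∀ (S : ℝ → ℝ) (ψ₀ σ : ℂ × ℂ → ℂ),
      IsBase N R ε S ψ₀ σ → (∀ Q, R < Q → π₁ ≤ Q * S Q) →
      ∀ (C : ℂ[X]) (c : ℂ), C.natDegree < N → (∀ a ≤ k, C.coeff a = 0) →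
      (∀ a, ‖C.coeff a‖ ≤ Γ) → ‖c‖ ≤ Γ → ∀ ψ p : ℂ × ℂ → ℂ, IsSt N R ε M σ C ψ p →
      ∃ ψ' p' : ℂ × ℂ → ℂ, IsSt N (2 * R) (ε / 4) M' σ (C + monomial k c) ψ' p' ∧
        (∀ x ∈ Dom (2 * R) (ε / 4), ψ' x = ψ x
          + 1 / 2 * ((fun y => (cst C).eval (p y) * (c * y.1 ^ k)) x
            + shp (fun y => (cst C).eval (p y) * (c * y.1 ^ k)) x)
          + 1 / 4 * ((fun y => (starRingEnd ℂ) c * p y ^ k * (c * y.1 ^ k)) x
            + shp (fun y => (starRingEnd ℂ) c * p y ^ k * (c * y.1 ^ k)) x)) ∧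
        ∀ x ∈ Dom (2 * R) (ε / 4), ‖p' x - p x‖ * ((‖x.1‖ * S ‖x.1‖) ^ (N - 1) * ‖x.1‖)
          ≤ M' * (‖x.1‖ * S ‖x.1‖) ^ k := by
  have hN2 : 2 ≤ N := by omega
  have hN0 : (1 : ℝ) ≤ N := by exact_mod_cast (by omega : 1 ≤ N)
  obtain ⟨KA, hKA⟩ : ∃ KA : ℝ, KA = 4 / ε * 16 ^ N * (4 ^ N * (N * Γ ^ 2 * 6 ^ N)) := ⟨_, rfl⟩
  obtain ⟨KB, hKB⟩ : ∃ KB : ℝ, KB = 4 / ε * 16 ^ N * (4 ^ N * (Γ ^ 2 * 3 ^ N)) := ⟨_, rfl⟩
  have hKA0 : 0 < KA := by rw [hKA]; positivity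
  have hKB0 : 0 < KB := by rw [hKB]; positivity
  obtain ⟨KG, hKG⟩ : ∃ KG : ℝ, KG = 3 * N ^ 2 * Γ ^ 2 * 6 ^ N + 2 * KA + KB := ⟨_, rfl⟩
  have hKG0 : 0 < KG := by rw [hKG]; positivity
  refine ⟨M + 2 * KG * 3 ^ N,
    max 1 (max (24 * M) (max (4 * ((N : ℝ) ^ 2 * Γ ^ 2 * 12 ^ N)) (240 * 3 ^ N * KG))),
    by positivity, lt_of_lt_of_le one_pos (le_max_left _ _), ?_⟩
  intro R hR S ψ₀ σ hB hπ C c hC hC0 hCΓ hc ψ p hst
  obtain ⟨π₁, hπ₁⟩ : ∃ π₁ : ℝ, π₁ = max 1 (max (24 * M)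
    (max (4 * ((N : ℝ) ^ 2 * Γ ^ 2 * 12 ^ N)) (240 * 3 ^ N * KG))) := ⟨_, rfl⟩
  rw [← hπ₁] at hπ
  have g1 : 1 ≤ π₁ := by rw [hπ₁]; exact le_max_left _ _
  have g2 : 24 * M ≤ π₁ := by
    rw [hπ₁]; exact (le_max_left _ _).trans (le_max_right _ _)
  have g3 : 4 * ((N : ℝ) ^ 2 * Γ ^ 2 * 12 ^ N) ≤ π₁ := by
    rw [hπ₁]; exact ((le_max_left _ _).trans (le_max_right _ _)).trans (le_max_right _ _)
  have g4 : 240 * 3 ^ N * KG ≤ π₁ := by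
    rw [hπ₁]; exact ((le_max_right _ _).trans (le_max_right _ _)).trans (le_max_right _ _)
  clear hπ₁
  have hpb := fun y (hy : y ∈ Dom R ε) => step_p_bounds hε1 hM hR hB g2 hπ hst.near hy
  obtain ⟨A, hA⟩ : ∃ A : ℂ × ℂ → ℂ, A = fun y => (cst C).eval (p y) * (c * y.1 ^ k) := ⟨_, rfl⟩
  obtain ⟨B, hBd⟩ : ∃ B : ℂ × ℂ → ℂ, B = fun y => (starRingEnd ℂ) c * p y ^ k * (c * y.1 ^ k) :=
    ⟨_, rfl⟩
  rw [← hA, ← hBd]
  -- differentiability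
  have dA : DifferentiableOn ℂ A (Dom R ε) := by
    rw [hA]
    have h1 : DifferentiableOn ℂ (fun y => (cst C).eval (p y)) (Dom R ε) := fun y hy =>
      ((cst C).differentiable.differentiableAt).comp_differentiableWithinAt y (hst.dp y hy)
    have h2 : Differentiable ℂ (fun y : ℂ × ℂ => c * y.1 ^ k) :=
      (differentiable_fst.pow k).const_mul c
    exact h1.mul h2.differentiableOn
  have dB : DifferentiableOn ℂ B (Dom R ε) := by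
    rw [hBd]
    have h2 : Differentiable ℂ (fun y : ℂ × ℂ => c * y.1 ^ k) :=
      (differentiable_fst.pow k).const_mul c
    exact ((hst.dp.pow k).const_mul _).mul h2.differentiableOn
  have dA' := shp_diff dA
  have dB' := shp_diff dB
  -- bounds
  have bA : ∀ y ∈ Dom R ε, ‖A y‖ ≤ (N * Γ ^ 2 * 6 ^ N) * (‖y.1‖ * S ‖y.1‖) ^ k
      * ‖y.1‖ ^ (N - 1) := by
    intro y hy
    obtain ⟨h1, h2, h3, h4, h5, h6⟩ := hpb y hy
    rw [hA]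
    simp only
    rw [norm_mul, norm_mul, norm_pow]
    have e1 := step_cst_bound hkN hΓ (by positivity) h1 h3 C hC hC0 hCΓ (p y) h6
    calc ‖(cst C).eval (p y)‖ * (‖c‖ * ‖y.1‖ ^ k)
        ≤ (N * Γ * 6 ^ N * (‖y.1‖ * S ‖y.1‖) ^ k * ‖y.1‖ ^ (N - 1 - k)) * (Γ * ‖y.1‖ ^ k) := by
          gcongr
      _ = N * Γ ^ 2 * 6 ^ N * (‖y.1‖ * S ‖y.1‖) ^ k * (‖y.1‖ ^ (N - 1 - k) * ‖y.1‖ ^ k) := by ring
      _ = _ := by
          rw [← pow_add]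
          congr 2
          omega
  have bB : ∀ y ∈ Dom R ε, ‖B y‖ ≤ (Γ ^ 2 * 3 ^ N) * (‖y.1‖ * S ‖y.1‖) ^ k
      * ‖y.1‖ ^ (N - 1) := by
    intro y hy
    obtain ⟨h1, h2, h3, h4, h5, h6⟩ := hpb y hy
    rw [hBd]
    simp only
    rw [norm_mul, norm_mul, norm_mul, norm_pow, norm_pow, RCLike.norm_conj]
    have h7 : ‖y.1‖ ^ k ≤ ‖y.1‖ ^ (N - 1) := pow_le_pow_right₀ h1 (by omega)
    have h8 : ‖p y‖ ^ k ≤ 3 ^ N * (‖y.1‖ * S ‖y.1‖) ^ k := by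
      calc ‖p y‖ ^ k ≤ (3 * (‖y.1‖ * S ‖y.1‖)) ^ k := pow_le_pow_left₀ (norm_nonneg _) h6 k
        _ = 3 ^ k * (‖y.1‖ * S ‖y.1‖) ^ k := mul_pow _ _ _
        _ ≤ 3 ^ N * (‖y.1‖ * S ‖y.1‖) ^ k := by gcongr; norm_num
    calc ‖c‖ * ‖p y‖ ^ k * (‖c‖ * ‖y.1‖ ^ k)
        ≤ Γ * (3 ^ N * (‖y.1‖ * S ‖y.1‖) ^ k) * (Γ * ‖y.1‖ ^ (N - 1)) := by gcongr
      _ = _ := by ring
  have bA' := step_shp_bound hkN hε1 hR hB (by positivity) bA
  have bB' := step_shp_bound hkN hε1 hR hB (by positivity) bB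
  have h4N : (1 : ℝ) ≤ 4 ^ N := one_le_pow₀ (by norm_num)
  have wk : ∀ (F : ℂ × ℂ → ℂ) (K : ℝ), 0 ≤ K →
      (∀ y ∈ Dom R ε, ‖F y‖ ≤ K * (‖y.1‖ * S ‖y.1‖) ^ k * ‖y.1‖ ^ (N - 1)) →
      ∀ y ∈ Dom R ε, ‖F y‖ ≤ (4 ^ N * K) * (‖y.1‖ * S ‖y.1‖) ^ k * ‖y.1‖ ^ (N - 1) := by
    intro F K hK0 hK y hy
    obtain ⟨h1, h2, h3, h4, h5, h6⟩ := hpb y hy
    refine (hK y hy).trans ?_
    have : K ≤ 4 ^ N * K := by nlinarith
    gcongr
  have cA := step_cauchy hkN hN2 hε hε1 hR hB (by positivity) dA (wk A _ (by positivity) bA)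
  have cA' := step_cauchy hkN hN2 hε hε1 hR hB (by positivity) dA' bA'
  have cB := step_cauchy hkN hN2 hε hε1 hR hB (by positivity) dB (wk B _ (by positivity) bB)
  have cB' := step_cauchy hkN hN2 hε hε1 hR hB (by positivity) dB' bB'
  rw [← hKA] at cA cA'
  rw [← hKB] at cB cB'
  have hsub : Dom (2 * R) (ε / 4) ⊆ Dom R ε := dom_monoS (by linarith) (by linarith) (by linarith)
  obtain ⟨ψ', hψ'⟩ : ∃ ψ' : ℂ × ℂ → ℂ, ψ' = fun x => ψ x + 1 / 2 * (A x + shp A x)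
    + 1 / 4 * (B x + shp B x) := ⟨_, rfl⟩
  have dψ' : DifferentiableOn ℂ ψ' (Dom R ε) := by
    rw [hψ']
    exact (hst.dψ.add ((dA.add dA').const_mul _)).add ((dB.add dB').const_mul _)
  obtain ⟨D, hD⟩ : ∃ D : ℂ[X], D = C + monomial k c := ⟨_, rfl⟩
  have hDdeg : D.natDegree < N := by
    rw [hD]
    refine lt_of_le_of_lt (natDegree_add_le _ _) (max_lt hC ?_)
    exact lt_of_le_of_lt (natDegree_monomial_le _) hkN
  have hDΓ : ∀ a, ‖D.coeff a‖ ≤ Γ := by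
    intro a
    rw [hD, coeff_add, coeff_monomial]
    by_cases h : k = a
    · rw [if_pos h, hC0 a (by omega), zero_add]
      exact hc
    · rw [if_neg h, add_zero]
      exact hCΓ a
  have hcstD : ∀ z, (cst D).eval z = (cst C).eval z + (starRingEnd ℂ) c * z ^ k := by
    intro z
    rw [hD, cst, cst, Polynomial.map_add, map_monomial, eval_add, eval_monomial]
  have hderD : ∀ z, (derivative D).eval z = (derivative C).eval z + c * k * z ^ (k - 1) := by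
    intro z
    rw [hD, derivative_add, derivative_monomial, eval_add, eval_monomial]
  have hG0 : ∀ x ∈ Dom (2 * R) (ε / 4), ‖(N * x.1 ^ (N - 1) * p x ^ N
      + (cst D).eval (p x) * (derivative D).eval x.1 - 2 * fderiv ℂ ψ' x (1, 0))‖
      ≤ KG * (‖x.1‖ * S ‖x.1‖) ^ k * ‖x.1‖ ^ (N - 2) := by
    intro x hx
    have hxD := hsub hx
    have hnh : Dom R ε ∈ 𝓝 x := (isOpen_Dom R ε).mem_nhds hxD
    obtain ⟨h1, h2, h3, h4, h5, h6⟩ := hpb x hxD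
    have e1 : N * x.1 ^ (N - 1) * p x ^ N
        + (cst D).eval (p x) * (derivative D).eval x.1 - 2 * fderiv ℂ ψ' x (1, 0)
        = (cst C).eval (p x) * (c * k * x.1 ^ (k - 1))
          + (starRingEnd ℂ) c * p x ^ k * (derivative C).eval x.1
          + (starRingEnd ℂ) c * p x ^ k * (c * k * x.1 ^ (k - 1))
          - (fderiv ℂ A x (1, 0) + fderiv ℂ (shp A) x (1, 0))
          - 1 / 2 * (fderiv ℂ B x (1, 0) + fderiv ℂ (shp B) x (1, 0)) := by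
      have e2 := step_fderiv (hst.dψ.differentiableAt hnh) (dA.differentiableAt hnh)
        (dA'.differentiableAt hnh) (dB.differentiableAt hnh) (dB'.differentiableAt hnh)
      rw [hψ', e2, hcstD, hderD]
      have e3 := hst.eq x hxD
      linear_combination e3
    rw [e1, hKG]
    exact step_G0 hk hkN hΓ (by positivity) h1 h3 C hC hC0 hCΓ c hc (p x) h6 x.1 rfl _ _ _ _
      (cA x hx) (cA' x hx) (cB x hx) (cB' x hx)
  -- the root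
  obtain ⟨p', dp', hp'⟩ := root_lemma (isOpen_Dom (2 * R) (ε / 4))
    (fun z x => N * x.1 ^ (N - 1) * z ^ N + (cst D).eval z * (derivative D).eval x.1
      - 2 * fderiv ℂ ψ' x (1, 0)) p (fun x => (N : ℂ) ^ 2 * x.1 ^ (N - 1) * p x ^ (N - 1))
    (fun x => ‖p x‖ / (10 * N))
    (hst.dp.mono hsub).continuousOn
    (by
      have h1 : ContinuousOn p (Dom (2 * R) (ε / 4)) := (hst.dp.mono hsub).continuousOn
      exact ((continuous_const.mul (continuous_fst.pow _)).continuousOn).mul (h1.pow _))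
    (by
      have h1 : ContinuousOn p (Dom (2 * R) (ε / 4)) := (hst.dp.mono hsub).continuousOn
      exact h1.norm.div_const _)
    (by
      intro x hx
      obtain ⟨h1, h2, h3, h4, h5, h6⟩ := hpb x (hsub hx)
      have : 0 < ‖p x‖ := by linarith
      positivity)
    (by
      intro x hx
      obtain ⟨h1, h2, h3, h4, h5, h6⟩ := hpb x (hsub hx)
      have i1 : p x ≠ 0 := norm_pos_iff.1 (by linarith)
      have i2 : x.1 ≠ 0 := norm_pos_iff.1 (by linarith)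
      have i3 : (N : ℂ) ≠ 0 := by
        have : N ≠ 0 := by omega
        exact_mod_cast this
      positivity)
    (by
      intro x hx z hz
      have hxD := hsub hx
      have j1 : DifferentiableAt ℂ (fun x => fderiv ℂ ψ' x (1, 0)) x :=
        (dq_diff (isOpen_Dom R ε) dψ').differentiableAt ((isOpen_Dom R ε).mem_nhds hxD)
      have j2 : DifferentiableAt ℂ (fun y : ℂ × (ℂ × ℂ) => fderiv ℂ ψ' y.2 (1, 0)) (z, x) :=
        DifferentiableAt.comp (z, x) (g := fun x => fderiv ℂ ψ' x (1, 0)) j1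
          differentiableAt_snd
      have j3 : DifferentiableAt ℂ (fun y : ℂ × (ℂ × ℂ) => (cst D).eval y.1) (z, x) :=
        DifferentiableAt.comp (z, x) (g := fun z => (cst D).eval z)
          (cst D).differentiable.differentiableAt differentiableAt_fst
      have j4 : DifferentiableAt ℂ (fun y : ℂ × (ℂ × ℂ) => y.2.1) (z, x) :=
        differentiableAt_snd.fst
      have j5 : DifferentiableAt ℂ (fun y : ℂ × (ℂ × ℂ) => (derivative D).eval y.2.1) (z, x) :=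
        DifferentiableAt.comp (z, x) (g := fun z => (derivative D).eval z)
          (derivative D).differentiable.differentiableAt j4
      exact ((((j4.pow _).const_mul _).mul (differentiableAt_fst.pow _)).add
        (j3.mul j5)).sub (j2.const_mul _))
    (by
      intro x hx z hz
      obtain ⟨h1, h2, h3, h4, h5, h6⟩ := hpb x (hsub hx)
      rw [Metric.mem_ball, dist_eq_norm] at hz
      exact step_G' hN2 hΓ (by linarith) h1 (by linarith) D hDdeg hDΓ rfl h5 h6 hz _)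
    (by
      intro x hx
      obtain ⟨h1, h2, h3, h4, h5, h6⟩ := hpb x (hsub hx)
      have hπ0 : 0 < ‖x.1‖ * S ‖x.1‖ := by positivity
      refine (hG0 x hx).trans ?_
      have k1 := step_h_low (by omega : 1 ≤ N) hπ0 (by linarith : 0 < ‖x.1‖) (q := x.1) rfl h5
      have k2 : (‖x.1‖ * S ‖x.1‖) / 3 / (10 * N) * ((N : ℝ) ^ 2 * ‖x.1‖ ^ (N - 1)
          * ((‖x.1‖ * S ‖x.1‖) ^ (N - 1) / 3 ^ N)) / 8
          ≤ ‖p x‖ / (10 * N) * ‖(N : ℂ) ^ 2 * x.1 ^ (N - 1) * p x ^ (N - 1)‖ / 8 := by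
        gcongr
      refine le_trans ?_ k2
      obtain ⟨P, hP⟩ : ∃ P : ℝ, P = ‖x.1‖ * S ‖x.1‖ := ⟨_, rfl⟩
      rw [← hP] at hπ0 h4 ⊢
      obtain ⟨Q, hQ⟩ : ∃ Q : ℝ, Q = ‖x.1‖ := ⟨_, rfl⟩
      rw [← hQ] at h1 ⊢
      have hP1 : 1 ≤ P := by linarith
      have n1 : P ^ k * P ≤ P ^ N := by
        rw [← pow_succ]
        exact pow_le_pow_right₀ hP1 (by omega)
      have n2 : Q ^ (N - 2) ≤ Q ^ (N - 1) := pow_le_pow_right₀ h1 (by omega)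
      have n3 : P * P ^ (N - 1) = P ^ N := by
        rw [← pow_succ', show N - 1 + 1 = N by omega]
      have n4 : P / 3 / (10 * N) * ((N : ℝ) ^ 2 * Q ^ (N - 1) * (P ^ (N - 1) / 3 ^ N)) / 8
          = N / (240 * 3 ^ N) * (P ^ N * Q ^ (N - 1)) := by
        rw [← n3]
        field_simp
        ring
      rw [n4]
      have n5 : KG ≤ P / (240 * 3 ^ N) := by
        rw [le_div_iff₀ (by positivity)]
        linarith
      calc KG * P ^ k * Q ^ (N - 2) ≤ P / (240 * 3 ^ N) * P ^ k * Q ^ (N - 1) := by gcongr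
        _ = 1 / (240 * 3 ^ N) * ((P ^ k * P) * Q ^ (N - 1)) := by ring
        _ ≤ N / (240 * 3 ^ N) * (P ^ N * Q ^ (N - 1)) := by gcongr)
  have hkey : ∀ x ∈ Dom (2 * R) (ε / 4), ‖p' x - p x‖ * ((‖x.1‖ * S ‖x.1‖) ^ (N - 1) * ‖x.1‖)
      ≤ 2 * KG * 3 ^ N * (‖x.1‖ * S ‖x.1‖) ^ k := by
    intro x hx
    obtain ⟨h1, h2, h3, h4, h5, h6⟩ := hpb x (hsub hx)
    have hπ0 : 0 < ‖x.1‖ * S ‖x.1‖ := by positivity
    have hQ0 : 0 < ‖x.1‖ := by linarith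
    have k1 := step_h_low (by omega : 1 ≤ N) hπ0 hQ0 (q := x.1) rfl h5
    have k2 := (hp' x hx).2
    have k3 := hG0 x hx
    obtain ⟨P, hP⟩ : ∃ P : ℝ, P = ‖x.1‖ * S ‖x.1‖ := ⟨_, rfl⟩
    rw [← hP] at hπ0 h4 k1 k3 ⊢
    obtain ⟨Q, hQ⟩ : ∃ Q : ℝ, Q = ‖x.1‖ := ⟨_, rfl⟩
    rw [← hQ] at h1 hQ0 k1 k3 ⊢
    have k4 : ‖p' x - p x‖ ≤ 2 * (KG * P ^ k * Q ^ (N - 2))
        / ((N : ℝ) ^ 2 * Q ^ (N - 1) * (P ^ (N - 1) / 3 ^ N)) := by
      refine k2.trans ?_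
      gcongr
    have hNN : N - 1 = (N - 2) + 1 := by omega
    calc ‖p' x - p x‖ * (P ^ (N - 1) * Q)
        ≤ 2 * (KG * P ^ k * Q ^ (N - 2))
          / ((N : ℝ) ^ 2 * Q ^ (N - 1) * (P ^ (N - 1) / 3 ^ N)) * (P ^ (N - 1) * Q) := by gcongr
      _ = 1 / (N : ℝ) ^ 2 * (2 * KG * 3 ^ N * P ^ k) := by
          have e1 : Q ^ (N - 1) = Q ^ (N - 2) * Q := by rw [hNN, pow_succ]
          rw [e1]
          field_simp
      _ ≤ 1 * (2 * KG * 3 ^ N * P ^ k) := by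
          gcongr
          rw [div_le_one (by positivity)]
          nlinarith
      _ = _ := one_mul _
  refine ⟨ψ', p', ⟨dψ'.mono hsub, dp', ?_, ?_, ?_⟩, ?_, ?_⟩
  · intro x hx
    have := (hp' x hx).1
    rw [← hD]
    linear_combination this
  · intro x hx
    rw [hψ']
    exact step_sym (hst.sym x (hsub hx))
  · intro x hx
    obtain ⟨h1, h2, h3, h4, h5, h6⟩ := hpb x (hsub hx)
    have hQ0 : 0 < ‖x.1‖ := by linarith
    have k1 := hkey x hx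
    have k2 := hst.near x (hsub hx)
    obtain ⟨P, hP⟩ : ∃ P : ℝ, P = ‖x.1‖ * S ‖x.1‖ := ⟨_, rfl⟩
    rw [← hP] at h4 k1
    have hP1 : 1 ≤ P := by linarith
    have k3 : P ^ k ≤ P ^ (N - 1) := pow_le_pow_right₀ hP1 (by omega)
    have k4 : ‖p' x - p x‖ ≤ 2 * KG * 3 ^ N / ‖x.1‖ := by
      rw [le_div_iff₀ hQ0]
      have k5 : (‖p' x - p x‖ * ‖x.1‖) * P ^ (N - 1) ≤ (2 * KG * 3 ^ N) * P ^ (N - 1) := by
        calc (‖p' x - p x‖ * ‖x.1‖) * P ^ (N - 1) = ‖p' x - p x‖ * (P ^ (N - 1) * ‖x.1‖) := by ring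
          _ ≤ 2 * KG * 3 ^ N * P ^ k := k1
          _ ≤ _ := by gcongr
      exact le_of_mul_le_mul_right k5 (by positivity)
    calc ‖p' x - x.2 * σ x‖ = ‖(p x - x.2 * σ x) + (p' x - p x)‖ := by congr 1; ring
      _ ≤ ‖p x - x.2 * σ x‖ + ‖p' x - p x‖ := norm_add_le _ _
      _ ≤ M / ‖x.1‖ + 2 * KG * 3 ^ N / ‖x.1‖ := add_le_add k2 k4
      _ = _ := by ring
  · intro x _
    rw [hψ']
  · intro x hx
    obtain ⟨h1, h2, h3, h4, h5, h6⟩ := hpb x (hsub hx)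
    refine (hkey x hx).trans ?_
    gcongr
    linarith

/-- Restriction of a base to a smaller domain. -/
lemma IsBase.mono {N : ℕ} {R R' ε ε' : ℝ} {S : ℝ → ℝ} {ψ σ : ℂ × ℂ → ℂ}
    (h : IsBase N R ε S ψ σ) (hR : R ≤ R') (hε : ε' ≤ ε) (hR0 : 0 ≤ R) :
    IsBase N R' ε' S ψ σ := by
  have hsub : Dom R' ε' ⊆ Dom R ε := dom_monoS hR hε hR0
  exact ⟨h.dψ.mono hsub, h.dσ.mono hsub, fun x hx => h.eq x (hsub hx),
    fun x hx => h.sym x (hsub hx), fun q hq => h.slice q (hR.trans_lt hq),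
    fun Q hQ => h.Spos Q (hR.trans_lt hQ), fun Q hQ => h.Sle Q (hR.trans_lt hQ),
    fun x hx => h.σlow x (hsub hx), fun x hx => h.σup x (hsub hx),
    fun x hx => h.Scmp x (hsub hx),
    fun Q Q' hQ hQ' => h.Sdbl Q Q' (hR.trans_lt hQ) (hR.trans_lt hQ'),
    fun x hx => h.ψup x (hsub hx)⟩

end Pool.Agent.H77.N2
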