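import Pool.Agent.H77.N2.Defs
import Pool.Agent.H77.N2.Step
import Pool.Agent.H77.N2.Hol

/-!
Module CHAIN of MP_6e521b_an (n = 2): the chain of states of a polynomial `C`, from the base
(level `N`) down to level 1, adding the monomials `C.coeff k X^k`, `k = N-1, …, 1`, by `step`.

Proof. Level `N`: `Ψ N C = ψ₀`, `P N C x = x.2 * σ x`, a state for the polynomial `0 = upp N C N`
(`IsBase.eq`, `IsBase.sym`). Level `k` from level `k+1` (`1 ≤ k < N`): `upp N C k = upp N C (k+1)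
+ monomial k (C.coeff k)` and `step` applies to `upp N C (k+1)` with the domain
`Dom (2^(N-k-1) R) (ε/4^(N-k-1))`, constants depending only on `N, ε, Γ`. The new level is chosen
as a function of the polynomial `upp N C k`. The bound on `Ψ 1 C - ψ₀` is the sum of the
increments, each `≤ const π^(N-1) Q^(N-1)`. On the slice `x = (q, q̄)` one has
`shp F x = conj (F x)`, which gives the recursion for real parts.
-/

open Filter Topology Polynomial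

namespace Pool.Agent.H77.N2

namespace Ch

/-- The polynomials of the chain. -/
structure Ok (N : ℕ) (Γ : ℝ) (C : ℂ[X]) : Prop where
  deg : C.natDegree < N
  zero : C.coeff 0 = 0
  bd : ∀ a, ‖C.coeff a‖ ≤ Γ

lemma coeff_upp (N : ℕ) (C : ℂ[X]) (k a : ℕ) :
    (upp N C k).coeff a = if k ≤ a ∧ a < N then C.coeff a else 0 := by
  unfold upp
  rw [finsetSum_coeff]
  simp only [coeff_monomial]
  rw [Finset.sum_ite_eq' (Finset.Ico k N) a]
  simp [Finset.mem_Ico]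

lemma upp_deg {N : ℕ} (hN : 1 ≤ N) (C : ℂ[X]) (k : ℕ) : (upp N C k).natDegree < N := by
  have h : (upp N C k).natDegree ≤ N - 1 := by
    refine natDegree_le_iff_coeff_eq_zero.2 fun a ha => ?_
    rw [coeff_upp, if_neg (by omega)]
  omega

lemma upp_ok {N : ℕ} (hN : 1 ≤ N) {Γ : ℝ} (hΓ : 0 < Γ) {C : ℂ[X]} (hC : Ok N Γ C) (k : ℕ) :
    Ok N Γ (upp N C k) := by
  refine ⟨upp_deg hN C k, ?_, fun a => ?_⟩
  · rw [coeff_upp]
    split_ifs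
    · exact hC.zero
    · rfl
  · rw [coeff_upp]
    split_ifs
    · exact hC.bd a
    · simpa using hΓ.le

lemma upp_succ {N k : ℕ} (hk : k < N) (C : ℂ[X]) :
    upp N C k = upp N C (k + 1) + monomial k (C.coeff k) := by
  ext a
  rw [coeff_add, coeff_upp, coeff_upp, coeff_monomial]
  rcases lt_trichotomy a k with h | h | h
  · rw [if_neg (by omega), if_neg (by omega), if_neg (by omega)]; simp
  · subst h
    rw [if_pos (by omega), if_neg (by omega), if_pos rfl]; simp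
  · by_cases h2 : a < N
    · rw [if_pos (by omega), if_pos (by omega), if_neg (by omega)]; simp
    · rw [if_neg (by omega), if_neg (by omega), if_neg (by omega)]; simp

lemma upp_self (N : ℕ) (C : ℂ[X]) : upp N C N = 0 := by
  simp [upp]

lemma upp_one {N : ℕ} {Γ : ℝ} {C : ℂ[X]} (hC : Ok N Γ C) : upp N C 1 = C := by
  ext a
  rw [coeff_upp]
  split_ifs with h
  · rfl
  · rcases Nat.lt_or_ge a 1 with h1 | h1
    · have : a = 0 := by omega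
      subst this
      exact hC.zero.symm
    · have h2 : N ≤ a := by omega
      exact (coeff_eq_zero_of_natDegree_lt (lt_of_lt_of_le hC.deg h2)).symm

lemma upp_upp {N k l : ℕ} (hkl : k ≤ l) (C : ℂ[X]) : upp N (upp N C k) l = upp N C l := by
  ext a
  rw [coeff_upp, coeff_upp, coeff_upp]
  by_cases h : l ≤ a ∧ a < N
  · rw [if_pos h, if_pos h, if_pos (by omega)]
  · rw [if_neg h, if_neg h]

lemma dom_mono {R R' ε ε' : ℝ} (hR : R ≤ R') (hε : ε' ≤ ε) : Dom R' ε' ⊆ Dom R ε := by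
  intro x hx
  obtain ⟨h1, h2, h3, h4⟩ := hx
  refine ⟨lt_of_le_of_lt hR h1, lt_of_le_of_lt hR h2, lt_of_lt_of_le h3 ?_, lt_of_lt_of_le h4 ?_⟩
  · exact mul_le_mul_of_nonneg_right hε (norm_nonneg _)
  · exact mul_le_mul_of_nonneg_right hε (norm_nonneg _)

lemma slice_mem {R ε : ℝ} (hR : 0 ≤ R) (hε : 0 < ε) {q : ℂ} (hq : R < ‖q‖) :
    (q, (starRingEnd ℂ) q) ∈ Dom R ε := by
  have h : 0 < ‖q‖ := by linarith
  refine ⟨hq, ?_, ?_, ?_⟩
  · change R < ‖(starRingEnd ℂ) q‖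
    rw [RCLike.norm_conj]; exact hq
  · change ‖(starRingEnd ℂ) q - (starRingEnd ℂ) q‖ < ε * ‖q‖
    rw [sub_self, norm_zero]; positivity
  · change ‖(starRingEnd ℂ) q - (starRingEnd ℂ) q‖ < ε * ‖(starRingEnd ℂ) q‖
    rw [sub_self, norm_zero, RCLike.norm_conj]; positivity

lemma isSt_mono {N : ℕ} {R ε M M' : ℝ} {σ : ℂ × ℂ → ℂ} {C : ℂ[X]} {ψ p : ℂ × ℂ → ℂ}
    (h : IsSt N R ε M σ C ψ p) (hM : M ≤ M') : IsSt N R ε M' σ C ψ p :=
  ⟨h.dψ, h.dp, h.eq, h.sym, fun x hx => (h.near x hx).trans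
    (div_le_div_of_nonneg_right hM (norm_nonneg _))⟩

/-- The states down to level `N - m`. -/
structure Lev (N m : ℕ) (ε Γ M R : ℝ) (S : ℝ → ℝ) (ψ₀ σ : ℂ × ℂ → ℂ)
    (Ψ P : ℕ → ℂ[X] → ℂ × ℂ → ℂ) : Prop where
  st : ∀ C, Ok N Γ C → IsSt N (2 ^ m * R) (ε / 4 ^ m) M σ (upp N C (N - m)) (Ψ (N - m) C)
    (P (N - m) C)
  up : ∀ C, Ok N Γ C → ∀ x ∈ Dom (2 ^ m * R) (ε / 4 ^ m), ‖Ψ (N - m) C x - ψ₀ x‖
    ≤ M * ((‖x.1‖ * S ‖x.1‖) ^ (N - 1) * ‖x.1‖ ^ (N - 1))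
  top : ∀ C, Ψ N C = ψ₀ ∧ P N C = fun x => x.2 * σ x
  recu : ∀ C, Ok N Γ C → ∀ k, N - m ≤ k → k < N → ∀ q : ℂ, 2 ^ m * R < ‖q‖ →
    (Ψ k C (q, (starRingEnd ℂ) q)).re = (Ψ (k + 1) C (q, (starRingEnd ℂ) q)).re
      + ((cst (upp N C (k + 1))).eval (P (k + 1) C (q, (starRingEnd ℂ) q))
          * (C.coeff k * q ^ k)).re
      + ‖C.coeff k‖ ^ 2 / 2 * ((P (k + 1) C (q, (starRingEnd ℂ) q) * q) ^ k).re ∧
    ‖P k C (q, (starRingEnd ℂ) q) - P (k + 1) C (q, (starRingEnd ℂ) q)‖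
      * ((‖q‖ * S ‖q‖) ^ (N - 1) * ‖q‖) ≤ M * (‖q‖ * S ‖q‖) ^ k
  dep : ∀ C C', Ok N Γ C → Ok N Γ C' → ∀ k, N - m ≤ k → k ≤ N →
    (∀ a, k ≤ a → C.coeff a = C'.coeff a) → Ψ k C = Ψ k C' ∧ P k C = P k C'

lemma lev_zero {N : ℕ} (hN : 1 ≤ N) {ε Γ R : ℝ} (hR : 1 ≤ R) {S : ℝ → ℝ} {ψ₀ σ : ℂ × ℂ → ℂ}
    (hb : IsBase N R ε S ψ₀ σ) :
    Lev N 0 ε Γ 1 R S ψ₀ σ (fun _ _ => ψ₀) (fun _ _ x => x.2 * σ x) := by
  refine ⟨fun C _ => ?_, fun C _ x hx => ?_, fun C => ⟨rfl, rfl⟩, fun C _ k h1 h2 => ?_,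
    fun C C' _ _ k _ _ _ => ⟨rfl, rfl⟩⟩
  · rw [pow_zero, pow_zero, one_mul, div_one, Nat.sub_zero, upp_self]
    refine ⟨hb.dψ, ?_, fun x hx => ?_, hb.sym, fun x hx => ?_⟩
    · exact differentiable_snd.differentiableOn.mul hb.dσ
    · simp only [map_zero, eval_zero, mul_zero, add_zero]
      exact hb.eq x hx
    · have hx1 : 1 < ‖x.1‖ := lt_of_le_of_lt hR hx.1
      rw [sub_self, norm_zero]
      positivity
  · rw [pow_zero, pow_zero, one_mul, div_one] at hx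
    rw [sub_self, norm_zero]
    have hS := hb.Spos _ hx.1
    positivity
  · omega

lemma eval_cst_le {N : ℕ} {Γ B : ℝ} {D : ℂ[X]} (hD : D.natDegree < N)
    (hb : ∀ a, ‖D.coeff a‖ ≤ Γ) (hΓ : 0 < Γ) (hB : 1 ≤ B) {z : ℂ} (hz : ‖z‖ ≤ B) :
    ‖(cst D).eval z‖ ≤ N * Γ * B ^ (N - 1) := by
  have h1 : (cst D).natDegree < N := lt_of_le_of_lt natDegree_map_le hD
  rw [eval_eq_sum_range' h1]
  calc ‖∑ i ∈ Finset.range N, (cst D).coeff i * z ^ i‖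
      ≤ ∑ i ∈ Finset.range N, ‖(cst D).coeff i * z ^ i‖ := norm_sum_le _ _
    _ ≤ ∑ i ∈ Finset.range N, Γ * B ^ (N - 1) := by
      apply Finset.sum_le_sum
      intro i hi
      rw [norm_mul, norm_pow]
      have h2 : ‖(cst D).coeff i‖ ≤ Γ := by
        rw [cst, coeff_map, RCLike.norm_conj]; exact hb i
      have h3 : ‖z‖ ^ i ≤ B ^ (N - 1) := (pow_le_pow_left₀ (norm_nonneg _) hz i).trans
        (pow_le_pow_right₀ hB (by have := Finset.mem_range.1 hi; omega))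
      exact mul_le_mul h2 h3 (by positivity) hΓ.le
    _ = N * Γ * B ^ (N - 1) := by
      rw [Finset.sum_const, Finset.card_range, nsmul_eq_mul]; ring

/-- The size `π^(N-1) Q^(N-1)`. -/
noncomputable def EE (N : ℕ) (S : ℝ → ℝ) (x : ℂ × ℂ) : ℝ :=
  (‖x.1‖ * S ‖x.1‖) ^ (N - 1) * ‖x.1‖ ^ (N - 1)

section

variable {N : ℕ} {ε R : ℝ} {S : ℝ → ℝ} {ψ₀ σ : ℂ × ℂ → ℂ}

lemma snd_le (hε1 : ε ≤ 1 / 4) {x : ℂ × ℂ} (hx : x ∈ Dom R ε) : ‖x.2‖ ≤ 5 / 4 * ‖x.1‖ := by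
  have h1 : ‖x.2‖ - ‖x.1‖ ≤ ‖x.2 - (starRingEnd ℂ) x.1‖ := by
    have := norm_sub_norm_le x.2 ((starRingEnd ℂ) x.1)
    rwa [RCLike.norm_conj] at this
  have h2 := hx.2.2.1
  nlinarith [norm_nonneg x.1]

lemma p_le (hb : IsBase N R ε S ψ₀ σ) (hR : 1 ≤ R) (hε1 : ε ≤ 1 / 4) {M : ℝ} (hM : 0 < M)
    {C : ℂ[X]} {ψ p : ℂ × ℂ → ℂ} (hs : IsSt N R ε M σ C ψ p)
    (h1 : ∀ Q, R < Q → 1 ≤ Q * S Q) {x : ℂ × ℂ} (hx : x ∈ Dom R ε) :
    ‖p x‖ ≤ (3 + M) * (‖x.1‖ * S ‖x.1‖) := by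
  have hx1 : 1 < ‖x.1‖ := lt_of_le_of_lt hR hx.1
  have hS := hb.Spos _ hx.1
  have h2 := hs.near x hx
  have h3 : M / ‖x.1‖ ≤ M := div_le_self hM.le hx1.le
  have h4 : ‖p x‖ ≤ ‖p x - x.2 * σ x‖ + ‖x.2 * σ x‖ := by
    have := norm_add_le (p x - x.2 * σ x) (x.2 * σ x)
    rwa [sub_add_cancel] at this
  have h5 : ‖x.2 * σ x‖ ≤ 5 / 4 * ‖x.1‖ * (2 * S ‖x.1‖) := by
    rw [norm_mul]
    exact mul_le_mul (snd_le hε1 hx) (hb.σup x hx) (norm_nonneg _) (by positivity)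
  have h6 := h1 _ hx.1
  nlinarith

lemma A_le (hN : 1 ≤ N) (hb : IsBase N R ε S ψ₀ σ) (hR : 1 ≤ R) (hε1 : ε ≤ 1 / 4) {M Γ : ℝ}
    (hM : 0 < M) (hΓ : 0 < Γ) {C : ℂ[X]} {ψ p : ℂ × ℂ → ℂ} (hs : IsSt N R ε M σ C ψ p)
    (h1 : ∀ Q, R < Q → 1 ≤ Q * S Q) (hC : C.natDegree < N) (hCb : ∀ a, ‖C.coeff a‖ ≤ Γ)
    {k : ℕ} (hk : k < N) {c : ℂ} (hc : ‖c‖ ≤ Γ) :
    ∀ x ∈ Dom R ε, ‖(fun y : ℂ × ℂ => (cst C).eval (p y) * (c * y.1 ^ k)) x‖
      ≤ N * Γ ^ 2 * (3 + M) ^ (N - 1) * EE N S x := by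
  intro x hx
  have hx1 : 1 < ‖x.1‖ := lt_of_le_of_lt hR hx.1
  have h6 := h1 _ hx.1
  have h2 : 1 ≤ (3 + M) * (‖x.1‖ * S ‖x.1‖) := by nlinarith
  have h3 := eval_cst_le hC hCb hΓ h2 (p_le hb hR hε1 hM hs h1 hx)
  have h4 : ‖c * x.1 ^ k‖ ≤ Γ * ‖x.1‖ ^ (N - 1) := by
    rw [norm_mul, norm_pow]
    exact mul_le_mul hc (pow_le_pow_right₀ hx1.le (by omega)) (by positivity) hΓ.le
  change ‖(cst C).eval (p x) * (c * x.1 ^ k)‖ ≤ _
  rw [norm_mul]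
  refine (mul_le_mul h3 h4 (norm_nonneg _) (by positivity)).trans (le_of_eq ?_)
  rw [EE, mul_pow]
  ring

lemma B_le (hN : 1 ≤ N) (hb : IsBase N R ε S ψ₀ σ) (hR : 1 ≤ R) (hε1 : ε ≤ 1 / 4) {M Γ : ℝ}
    (hM : 0 < M) (hΓ : 0 < Γ) {C : ℂ[X]} {ψ p : ℂ × ℂ → ℂ} (hs : IsSt N R ε M σ C ψ p)
    (h1 : ∀ Q, R < Q → 1 ≤ Q * S Q) {k : ℕ} (hk : k < N) {c : ℂ} (hc : ‖c‖ ≤ Γ) :
    ∀ x ∈ Dom R ε, ‖(fun y : ℂ × ℂ => (starRingEnd ℂ) c * p y ^ k * (c * y.1 ^ k)) x‖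
      ≤ N * Γ ^ 2 * (3 + M) ^ (N - 1) * EE N S x := by
  intro x hx
  have hx1 : 1 < ‖x.1‖ := lt_of_le_of_lt hR hx.1
  have h6 := h1 _ hx.1
  have h2 : 1 ≤ (3 + M) * (‖x.1‖ * S ‖x.1‖) := by nlinarith
  have h7 : ‖p x‖ ^ k ≤ ((3 + M) * (‖x.1‖ * S ‖x.1‖)) ^ (N - 1) :=
    (pow_le_pow_left₀ (norm_nonneg _) (p_le hb hR hε1 hM hs h1 hx) k).trans
      (pow_le_pow_right₀ h2 (by omega))
  have h3 : ‖(starRingEnd ℂ) c * p x ^ k‖ ≤ Γ * ((3 + M) * (‖x.1‖ * S ‖x.1‖)) ^ (N - 1) := by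
    rw [norm_mul, norm_pow, RCLike.norm_conj]
    exact mul_le_mul hc h7 (by positivity) hΓ.le
  have h4 : ‖c * x.1 ^ k‖ ≤ Γ * ‖x.1‖ ^ (N - 1) := by
    rw [norm_mul, norm_pow]
    exact mul_le_mul hc (pow_le_pow_right₀ hx1.le (by omega)) (by positivity) hΓ.le
  change ‖(starRingEnd ℂ) c * p x ^ k * (c * x.1 ^ k)‖ ≤ _
  rw [norm_mul]
  have h8 : (1 : ℝ) ≤ N := by exact_mod_cast hN
  have h9 : 0 ≤ Γ ^ 2 * (3 + M) ^ (N - 1) * EE N S x := by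
    rw [EE]
    have : 0 < 3 + M := by linarith
    positivity
  refine (mul_le_mul h3 h4 (norm_nonneg _) (by positivity)).trans ?_
  calc Γ * ((3 + M) * (‖x.1‖ * S ‖x.1‖)) ^ (N - 1) * (Γ * ‖x.1‖ ^ (N - 1))
      = 1 * (Γ ^ 2 * (3 + M) ^ (N - 1) * EE N S x) := by rw [EE, mul_pow]; ring
    _ ≤ N * (Γ ^ 2 * (3 + M) ^ (N - 1) * EE N S x) := mul_le_mul_of_nonneg_right h8 h9
    _ = _ := by ring

lemma shp_le (hb : IsBase N R ε S ψ₀ σ) (hR : 1 ≤ R) (hε1 : ε ≤ 1 / 4) {K : ℝ} (hK : 0 ≤ K)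
    {F : ℂ × ℂ → ℂ} (hF : ∀ x ∈ Dom R ε, ‖F x‖ ≤ K * EE N S x) :
    ∀ x ∈ Dom R ε, ‖shp F x‖ ≤ K * 8 ^ (N - 1) * EE N S x := by
  intro x hx
  have hx1 : 1 < ‖x.1‖ := lt_of_le_of_lt hR hx.1
  have h1 := hF _ (shp_mem hx)
  have hS := hb.Spos _ hx.1
  have hS2 := hb.Spos _ hx.2.1
  have h2 : EE N S ((starRingEnd ℂ) x.2, (starRingEnd ℂ) x.1) ≤ 8 ^ (N - 1) * EE N S x := by
    rw [EE, EE]
    simp only [RCLike.norm_conj]
    have h3 := snd_le hε1 hx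
    have h4 := (hb.Scmp x hx).1
    have h5 : ‖x.2‖ * S ‖x.2‖ ≤ 4 * (‖x.1‖ * S ‖x.1‖) := by
      calc ‖x.2‖ * S ‖x.2‖ ≤ (5 / 4 * ‖x.1‖) * (2 * S ‖x.1‖) :=
            mul_le_mul h3 h4 hS2.le (by positivity)
        _ ≤ 4 * (‖x.1‖ * S ‖x.1‖) := by nlinarith [mul_pos (lt_trans one_pos hx1) hS]
    have h6 : ‖x.2‖ ≤ 2 * ‖x.1‖ := by linarith
    calc (‖x.2‖ * S ‖x.2‖) ^ (N - 1) * ‖x.2‖ ^ (N - 1)
        ≤ (4 * (‖x.1‖ * S ‖x.1‖)) ^ (N - 1) * (2 * ‖x.1‖) ^ (N - 1) :=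
          mul_le_mul (pow_le_pow_left₀ (by positivity) h5 _)
            (pow_le_pow_left₀ (norm_nonneg _) h6 _) (by positivity) (by positivity)
      _ = 8 ^ (N - 1) * ((‖x.1‖ * S ‖x.1‖) ^ (N - 1) * ‖x.1‖ ^ (N - 1)) := by
          rw [mul_pow, mul_pow 2, show (8 : ℝ) = 4 * 2 by norm_num, mul_pow 4 2]; ring
  have h3 : ‖shp F x‖ = ‖F ((starRingEnd ℂ) x.2, (starRingEnd ℂ) x.1)‖ := by
    rw [shp, RCLike.norm_conj]
  rw [h3, mul_assoc]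
  exact h1.trans (mul_le_mul_of_nonneg_left h2 hK)

end

lemma slice_shp (F : ℂ × ℂ → ℂ) (q : ℂ) :
    shp F (q, (starRingEnd ℂ) q) = (starRingEnd ℂ) (F (q, (starRingEnd ℂ) q)) := by
  simp [shp]

lemma lev_step {N : ℕ} (hN : 1 ≤ N) {ε Γ : ℝ} (hε : 0 < ε) (hε1 : ε ≤ 1 / 4) (hΓ : 0 < Γ) (m : ℕ) :
    m < N → ∃ M π₁ : ℝ, 0 < M ∧ 1 ≤ π₁ ∧ ∀ R : ℝ, 1 ≤ R → ∀ (S : ℝ → ℝ) (ψ₀ σ : ℂ × ℂ → ℂ),
      IsBase N R ε S ψ₀ σ → (∀ Q, R < Q → π₁ ≤ Q * S Q) →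
      ∃ Ψ P : ℕ → ℂ[X] → ℂ × ℂ → ℂ, Lev N m ε Γ M R S ψ₀ σ Ψ P := by
  induction m with
  | zero => exact fun _ => ⟨1, 1, one_pos, le_rfl, fun R hR S ψ₀ σ hb _ =>
      ⟨_, _, lev_zero hN hR hb⟩⟩
  | succ m ih =>
    intro hm
    obtain ⟨M, π₁, hM, hπ₁, ih⟩ := ih (by omega)
    obtain ⟨k, hkdef⟩ : ∃ k, k = N - (m + 1) := ⟨_, rfl⟩
    have hk1 : 1 ≤ k := by omega
    have hkN : k < N := by omega
    have hk2 : N - m = k + 1 := by omega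
    have h4m : (1 : ℝ) ≤ 4 ^ m := one_le_pow₀ (by norm_num)
    have hε' : 0 < ε / 4 ^ m := by positivity
    have hε2 : ε / 4 ^ m ≤ ε := div_le_self hε.le h4m
    have hε1' : ε / 4 ^ m ≤ 1 / 4 := hε2.trans hε1
    obtain ⟨M', π₂, hM', hπ₂, hst⟩ := step hk1 hkN hε' hε1' hM hΓ
    obtain ⟨K, hK⟩ : ∃ K : ℝ, K = N * Γ ^ 2 * (3 + M) ^ (N - 1) := ⟨_, rfl⟩
    have hM3 : 0 < 3 + M := by linarith
    have hK0 : 0 ≤ K := by rw [hK]; positivity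
    refine ⟨M + M' + 2 * 8 ^ (N - 1) * K, max π₁ π₂, by positivity,
      hπ₁.trans (le_max_left _ _), fun R hR S ψ₀ σ hb hπ => ?_⟩
    have hMM : M ≤ M + M' + 2 * 8 ^ (N - 1) * K := by
      have : 0 ≤ 2 * 8 ^ (N - 1) * K := by positivity
      linarith
    have hMM' : M' ≤ M + M' + 2 * 8 ^ (N - 1) * K := by
      have : 0 ≤ 2 * 8 ^ (N - 1) * K := by positivity
      linarith
    obtain ⟨Ψ, P, hL⟩ := ih R hR S ψ₀ σ hb (fun Q hQ => (le_max_left _ _).trans (hπ Q hQ))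
    have h2m : (1 : ℝ) ≤ 2 ^ m := one_le_pow₀ (by norm_num)
    have hRm : R ≤ 2 ^ m * R := le_mul_of_one_le_left (by linarith) h2m
    have hR1 : 1 ≤ 2 ^ m * R := hR.trans hRm
    have hR2 : 2 ^ (m + 1) * R = 2 * (2 ^ m * R) := by rw [pow_succ]; ring
    have hR3 : 2 ^ m * R ≤ 2 * (2 ^ m * R) := by linarith
    have hε3 : ε / 4 ^ (m + 1) = ε / 4 ^ m / 4 := by rw [pow_succ, div_div]
    have hε4 : ε / 4 ^ m / 4 ≤ ε / 4 ^ m := by linarith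
    have hb' : IsBase N (2 ^ m * R) (ε / 4 ^ m) S ψ₀ σ := hb.mono hRm hε2 (by linarith)
    have hone : ∀ Q, 2 ^ m * R < Q → 1 ≤ Q * S Q := fun Q hQ =>
      (hπ₁.trans (le_max_left _ _)).trans (hπ Q (lt_of_le_of_lt hRm hQ))
    have hstD : ∀ D : ℂ[X], Ok N Γ D →
        IsSt N (2 ^ m * R) (ε / 4 ^ m) M σ (upp N D (k + 1)) (Ψ (k + 1) D) (P (k + 1) D) := by
      intro D hD
      have := hL.st D hD
      rwa [hk2] at this
    have hch : ∀ D : ℂ[X], ∃ ψ' p' : ℂ × ℂ → ℂ, Ok N Γ D →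
        IsSt N (2 * (2 ^ m * R)) (ε / 4 ^ m / 4) M' σ
          (upp N D (k + 1) + monomial k (D.coeff k)) ψ' p' ∧
        (∀ x ∈ Dom (2 * (2 ^ m * R)) (ε / 4 ^ m / 4), ψ' x = Ψ (k + 1) D x
          + 1 / 2 * ((fun y => (cst (upp N D (k + 1))).eval (P (k + 1) D y)
              * (D.coeff k * y.1 ^ k)) x
            + shp (fun y => (cst (upp N D (k + 1))).eval (P (k + 1) D y)
              * (D.coeff k * y.1 ^ k)) x)
          + 1 / 4 * ((fun y => (starRingEnd ℂ) (D.coeff k) * P (k + 1) D y ^ k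
              * (D.coeff k * y.1 ^ k)) x
            + shp (fun y => (starRingEnd ℂ) (D.coeff k) * P (k + 1) D y ^ k
              * (D.coeff k * y.1 ^ k)) x)) ∧
        ∀ x ∈ Dom (2 * (2 ^ m * R)) (ε / 4 ^ m / 4),
          ‖p' x - P (k + 1) D x‖ * ((‖x.1‖ * S ‖x.1‖) ^ (N - 1) * ‖x.1‖)
            ≤ M' * (‖x.1‖ * S ‖x.1‖) ^ k := by
      intro D
      by_cases hD : Ok N Γ D
      · obtain ⟨ψ', p', h⟩ := hst (2 ^ m * R) hR1 S ψ₀ σ hb'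
          (fun Q hQ => (le_max_right _ _).trans (hπ Q (lt_of_le_of_lt hRm hQ)))
          (upp N D (k + 1)) (D.coeff k) (upp_deg hN D _)
          (fun a ha => by rw [coeff_upp, if_neg (by omega)])
          (upp_ok hN hΓ hD _).bd (hD.bd k) (Ψ (k + 1) D) (P (k + 1) D) (hstD D hD)
        exact ⟨ψ', p', fun _ => h⟩
      · exact ⟨0, 0, fun h => absurd h hD⟩
    choose ψ' p' hψ using hch
    -- the choice at `upp N C k`
    have hD0 : ∀ C, Ok N Γ C → upp N (upp N C k) (k + 1) = upp N C (k + 1) ∧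
        (upp N C k).coeff k = C.coeff k ∧ Ψ (k + 1) (upp N C k) = Ψ (k + 1) C ∧
        P (k + 1) (upp N C k) = P (k + 1) C := by
      intro C hC
      have h1 := hL.dep (upp N C k) C (upp_ok hN hΓ hC k) hC (k + 1) (by omega) (by omega)
        (fun a ha => by
          rw [coeff_upp]
          split_ifs with h
          · rfl
          · exact (coeff_eq_zero_of_natDegree_lt (lt_of_lt_of_le hC.deg (by omega))).symm)
      refine ⟨upp_upp (by omega) C, ?_, h1.1, h1.2⟩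
      rw [coeff_upp, if_pos (by omega)]
    have hF : ∀ C, Ok N Γ C →
        IsSt N (2 * (2 ^ m * R)) (ε / 4 ^ m / 4) M' σ (upp N C k) (ψ' (upp N C k))
          (p' (upp N C k)) ∧
        (∀ x ∈ Dom (2 * (2 ^ m * R)) (ε / 4 ^ m / 4), ψ' (upp N C k) x = Ψ (k + 1) C x
          + 1 / 2 * ((fun y => (cst (upp N C (k + 1))).eval (P (k + 1) C y)
              * (C.coeff k * y.1 ^ k)) x
            + shp (fun y => (cst (upp N C (k + 1))).eval (P (k + 1) C y)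
              * (C.coeff k * y.1 ^ k)) x)
          + 1 / 4 * ((fun y => (starRingEnd ℂ) (C.coeff k) * P (k + 1) C y ^ k
              * (C.coeff k * y.1 ^ k)) x
            + shp (fun y => (starRingEnd ℂ) (C.coeff k) * P (k + 1) C y ^ k
              * (C.coeff k * y.1 ^ k)) x)) ∧
        ∀ x ∈ Dom (2 * (2 ^ m * R)) (ε / 4 ^ m / 4),
          ‖p' (upp N C k) x - P (k + 1) C x‖ * ((‖x.1‖ * S ‖x.1‖) ^ (N - 1) * ‖x.1‖)
            ≤ M' * (‖x.1‖ * S ‖x.1‖) ^ k := by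
      intro C hC
      obtain ⟨e1, e2, e3, e4⟩ := hD0 C hC
      have h := hψ (upp N C k) (upp_ok hN hΓ hC k)
      rw [e1, e2, e3, e4, ← upp_succ hkN C] at h
      exact h
    refine ⟨fun l C => if l = k then ψ' (upp N C k) else Ψ l C,
      fun l C => if l = k then p' (upp N C k) else P l C, ?_, ?_, ?_, ?_, ?_⟩
    · intro C hC
      rw [← hkdef, hR2, hε3]
      simp only [if_true]
      exact isSt_mono (hF C hC).1 hMM'
    · intro C hC x hx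
      rw [hR2, hε3] at hx
      rw [← hkdef]
      simp only [if_true]
      have hx' : x ∈ Dom (2 ^ m * R) (ε / 4 ^ m) := dom_mono hR3 hε4 hx
      have h1 := (hF C hC).2.1 x hx
      have h2 := hL.up C hC x hx'
      rw [hk2] at h2
      have hs := hstD C hC
      have hA := A_le hN hb' hR1 hε1' hM hΓ hs hone (upp_deg hN C (k + 1))
        (upp_ok hN hΓ hC (k + 1)).bd hkN (hC.bd k)
      have hB := B_le hN hb' hR1 hε1' hM hΓ hs hone hkN (hC.bd k)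
      rw [← hK] at hA hB
      have hA2 := shp_le hb' hR1 hε1' hK0 hA x hx'
      have hB2 := shp_le hb' hR1 hε1' hK0 hB x hx'
      have hA1 := hA x hx'
      have hB1 := hB x hx'
      rw [h1]
      have hE : 0 ≤ EE N S x := by
        have := hone _ hx'.1
        rw [EE]; positivity
      have h8 : (1 : ℝ) ≤ 8 ^ (N - 1) := one_le_pow₀ (by norm_num)
      have hKE : 0 ≤ K * EE N S x := mul_nonneg hK0 hE
      have hKE2 : K * EE N S x ≤ K * 8 ^ (N - 1) * EE N S x := by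
        calc K * EE N S x = 1 * (K * EE N S x) := by ring
          _ ≤ 8 ^ (N - 1) * (K * EE N S x) := mul_le_mul_of_nonneg_right h8 hKE
          _ = _ := by ring
      generalize hA' : (fun y : ℂ × ℂ => (cst (upp N C (k + 1))).eval (P (k + 1) C y)
              * (C.coeff k * y.1 ^ k)) = A at *
      generalize hB' : (fun y : ℂ × ℂ => (starRingEnd ℂ) (C.coeff k) * P (k + 1) C y ^ k
              * (C.coeff k * y.1 ^ k)) = B at *
      have h3 : ‖Ψ (k + 1) C x + 1 / 2 * (A x + shp A x) + 1 / 4 * (B x + shp B x) - ψ₀ x‖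
          ≤ ‖Ψ (k + 1) C x - ψ₀ x‖ + 1 / 2 * (‖A x‖ + ‖shp A x‖)
            + 1 / 4 * (‖B x‖ + ‖shp B x‖) := by
        have e : Ψ (k + 1) C x + 1 / 2 * (A x + shp A x) + 1 / 4 * (B x + shp B x) - ψ₀ x
            = (Ψ (k + 1) C x - ψ₀ x) + 1 / 2 * (A x + shp A x) + 1 / 4 * (B x + shp B x) := by
          ring
        rw [e]
        refine norm_add₃_le.trans ?_
        have e1 : ‖(1 / 2 : ℂ) * (A x + shp A x)‖ ≤ 1 / 2 * (‖A x‖ + ‖shp A x‖) := by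
          rw [norm_mul]
          have : ‖(1 / 2 : ℂ)‖ = 1 / 2 := by simp
          rw [this]
          exact mul_le_mul_of_nonneg_left (norm_add_le _ _) (by norm_num)
        have e2 : ‖(1 / 4 : ℂ) * (B x + shp B x)‖ ≤ 1 / 4 * (‖B x‖ + ‖shp B x‖) := by
          rw [norm_mul]
          have : ‖(1 / 4 : ℂ)‖ = 1 / 4 := by simp
          rw [this]
          exact mul_le_mul_of_nonneg_left (norm_add_le _ _) (by norm_num)
        linarith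
      refine h3.trans ?_
      have h4 : (M + M' + 2 * 8 ^ (N - 1) * K) * EE N S x
          = M * EE N S x + M' * EE N S x + 2 * (K * 8 ^ (N - 1) * EE N S x) := by ring
      have h5 : 0 ≤ M' * EE N S x := mul_nonneg hM'.le hE
      change _ ≤ (M + M' + 2 * 8 ^ (N - 1) * K) * EE N S x
      change ‖Ψ (k + 1) C x - ψ₀ x‖ ≤ M * EE N S x at h2
      rw [h4]
      linarith
    · intro C
      have : N ≠ k := by omega
      simp only [this, if_false]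
      exact hL.top C
    · intro C hC l hl hlN q hq
      rw [hR2] at hq
      have hqm : 2 ^ m * R < ‖q‖ := by linarith
      have hl1 : l + 1 ≠ k := by omega
      by_cases hlk : l = k
      · subst hlk
        simp only [if_true, hl1, if_false]
        have hxm : (q, (starRingEnd ℂ) q) ∈ Dom (2 * (2 ^ m * R)) (ε / 4 ^ m / 4) :=
          slice_mem (by linarith) (by positivity) hq
        obtain ⟨-, h1, h2⟩ := hF C hC
        refine ⟨?_, ?_⟩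
        · rw [h1 _ hxm, slice_shp, slice_shp]
          have hre : ∀ z : ℂ, (1 / 2 * (z + (starRingEnd ℂ) z)).re = z.re := by
            intro z
            rw [Complex.add_conj]
            simp
          have hre4 : ∀ z : ℂ, (1 / 4 * (z + (starRingEnd ℂ) z)).re = z.re / 2 := by
            intro z
            rw [Complex.add_conj]
            simp
            ring
          rw [Complex.add_re, Complex.add_re, hre, hre4]
          have h5 : (starRingEnd ℂ) (C.coeff l) * P (l + 1) C (q, (starRingEnd ℂ) q) ^ l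
              * (C.coeff l * q ^ l)
              = ((‖C.coeff l‖ ^ 2 : ℝ) : ℂ) * (P (l + 1) C (q, (starRingEnd ℂ) q) * q) ^ l := by
            rw [mul_pow, ← Complex.normSq_eq_norm_sq, ← Complex.mul_conj]
            ring
          beta_reduce
          rw [h5, Complex.re_ofReal_mul]
          ring
        · have h3 := h2 _ hxm
          refine h3.trans ?_
          have hq1 := hone _ hqm
          exact mul_le_mul_of_nonneg_right hMM' (by positivity)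
      · simp only [hlk, hl1, if_false]
        have h1 := hL.recu C hC l (by omega) hlN q hqm
        refine ⟨h1.1, h1.2.trans ?_⟩
        have hq1 := hone _ hqm
        exact mul_le_mul_of_nonneg_right hMM (by positivity)
    · intro C C' hC hC' l hl hlN hco
      by_cases hlk : l = k
      · subst hlk
        simp only [if_true]
        have : upp N C l = upp N C' l := by
          ext a
          rw [coeff_upp, coeff_upp]
          split_ifs with h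
          · exact hco a h.1
          · rfl
        rw [this]
        exact ⟨rfl, rfl⟩
      · simp only [hlk, if_false]
        exact hL.dep C C' hC hC' l (by omega) hlN hco

end Ch

open Ch in
theorem chain {N : ℕ} (hN : 1 ≤ N) {ε Γ : ℝ} (hε : 0 < ε) (hε1 : ε ≤ 1 / 4) (hΓ : 0 < Γ) :
    ∃ M π₁ κ ε' : ℝ, 0 < M ∧ 1 ≤ π₁ ∧ 1 ≤ κ ∧ 0 < ε' ∧ ε' ≤ ε ∧
      ∀ R : ℝ, 1 ≤ R → ∀ (S : ℝ → ℝ) (ψ₀ σ : ℂ × ℂ → ℂ),
      IsBase N R ε S ψ₀ σ → (∀ Q, R < Q → π₁ ≤ Q * S Q) →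
      ∃ Ψ P : ℕ → ℂ[X] → ℂ × ℂ → ℂ,
        ∀ C : ℂ[X], C.natDegree < N → C.coeff 0 = 0 → (∀ a, ‖C.coeff a‖ ≤ Γ) →
        IsSt N (κ * R) ε' M σ C (Ψ 1 C) (P 1 C) ∧
        (∀ x ∈ Dom (κ * R) ε', ‖Ψ 1 C x - ψ₀ x‖
          ≤ M * ((‖x.1‖ * S ‖x.1‖) ^ (N - 1) * ‖x.1‖ ^ (N - 1))) ∧
        (∀ q : ℂ, κ * R < ‖q‖ → Ψ N C (q, (starRingEnd ℂ) q) = ψ₀ (q, (starRingEnd ℂ) q) ∧
          P N C (q, (starRingEnd ℂ) q) = (starRingEnd ℂ) q * S ‖q‖) ∧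
        (∀ k, 1 ≤ k → k < N → ∀ q : ℂ, κ * R < ‖q‖ →
          (Ψ k C (q, (starRingEnd ℂ) q)).re = (Ψ (k + 1) C (q, (starRingEnd ℂ) q)).re
            + ((cst (upp N C (k + 1))).eval (P (k + 1) C (q, (starRingEnd ℂ) q))
                * (C.coeff k * q ^ k)).re
            + ‖C.coeff k‖ ^ 2 / 2 * ((P (k + 1) C (q, (starRingEnd ℂ) q) * q) ^ k).re ∧
          ‖P k C (q, (starRingEnd ℂ) q) - P (k + 1) C (q, (starRingEnd ℂ) q)‖
            * ((‖q‖ * S ‖q‖) ^ (N - 1) * ‖q‖) ≤ M * (‖q‖ * S ‖q‖) ^ k) ∧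
        ∀ C' : ℂ[X], C'.natDegree < N → C'.coeff 0 = 0 → (∀ a, ‖C'.coeff a‖ ≤ Γ) →
          ∀ k, 1 ≤ k → k ≤ N → (∀ a, k ≤ a → C.coeff a = C'.coeff a) →
          Ψ k C = Ψ k C' ∧ P k C = P k C' := by
  obtain ⟨M, π₁, hM, hπ₁, h⟩ := lev_step hN hε hε1 hΓ (N - 1) (by omega)
  have h4 : (1 : ℝ) ≤ 4 ^ (N - 1) := one_le_pow₀ (by norm_num)
  refine ⟨M, π₁, 2 ^ (N - 1), ε / 4 ^ (N - 1), hM, hπ₁, one_le_pow₀ (by norm_num), by positivity,
    div_le_self hε.le h4, fun R hR S ψ₀ σ hb hπ => ?_⟩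
  obtain ⟨Ψ, P, hL⟩ := h R hR S ψ₀ σ hb hπ
  have hN1 : N - (N - 1) = 1 := by omega
  have h2 : (1 : ℝ) ≤ 2 ^ (N - 1) := one_le_pow₀ (by norm_num)
  refine ⟨Ψ, P, fun C hC1 hC2 hC3 => ?_⟩
  have hC : Ok N Γ C := ⟨hC1, hC2, hC3⟩
  refine ⟨?_, ?_, ?_, ?_, ?_⟩
  · have h5 := hL.st C hC
    rwa [hN1, upp_one hC] at h5
  · have h5 := hL.up C hC
    rwa [hN1] at h5
  · intro q hq
    obtain ⟨h5, h6⟩ := hL.top C
    have hq1 : R < ‖q‖ := lt_of_le_of_lt (le_mul_of_one_le_left (by linarith) h2) hq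
    rw [h5, h6]
    refine ⟨rfl, ?_⟩
    change (starRingEnd ℂ) q * σ (q, (starRingEnd ℂ) q) = _
    rw [hb.slice q hq1]
  · intro k hk hkN q hq
    exact hL.recu C hC k (by omega) hkN q hq
  · intro C' h1' h2' h3' k hk hkN hco
    exact hL.dep C C' hC ⟨h1', h2', h3'⟩ k (by omega) hkN hco

end Pool.Agent.H77.N2
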