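import Pool.Agent.H77.N2.Defs

/-! Auxiliary statements for the module THETA. -/

open Finset

namespace Pool.Agent.H77.N2.Th

lemma bb_pow {N : ℕ} (hN : 1 ≤ N) : bb N ^ N = 6 / 5 := by
  rw [bb, ← Real.rpow_natCast, ← Real.rpow_mul (by norm_num)]
  have : (N : ℝ) ≠ 0 := by
    have : N ≠ 0 := by omega
    exact_mod_cast this
  rw [one_div_mul_cancel this, Real.rpow_one]

lemma bb_ge_one (N : ℕ) : 1 ≤ bb N := by
  rw [bb]
  exact Real.one_le_rpow (by norm_num) (by positivity)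

lemma lt_bb {N : ℕ} {S : ℝ} (hN : 1 ≤ N) (hS1 : S ^ N ≤ 111 / 100) : S < bb N := by
  apply lt_of_pow_lt_pow_left₀ N (by linarith [bb_ge_one N])
  rw [bb_pow hN]
  linarith

/-- The numbers `λ_l`. -/
noncomputable def lam (N : ℕ) (S : ℝ) (l : ℕ) : ℝ := 13 / 10 * bb N ^ (N - l) * S ^ l

lemma lam_zero {N : ℕ} (hN : 1 ≤ N) (S : ℝ) : lam N S 0 = 39 / 25 := by
  rw [lam, Nat.sub_zero, bb_pow hN, pow_zero]
  norm_num

lemma lam_top (N : ℕ) (S : ℝ) : lam N S N = 13 / 10 * S ^ N := by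
  rw [lam, Nat.sub_self, pow_zero, mul_one]

lemma amp_eq {N l : ℕ} (hl : l < N) (κ R₀ Q S : ℝ) :
    amp N κ R₀ Q S l = (lam N S l - lam N S (l + 1)) * rad κ R₀ Q l := by
  obtain ⟨k, rfl⟩ : ∃ k, N = l + 1 + k := ⟨N - l - 1, by omega⟩
  have e1 : l + 1 + k - l - 1 = k := by omega
  have e2 : l + 1 + k - l = k + 1 := by omega
  have e3 : l + 1 + k - (l + 1) = k := by omega
  rw [amp, lam, lam, e1, e2, e3, pow_succ, pow_succ]
  ring

lemma lam_nonneg {N : ℕ} {S : ℝ} (hS : 0 < S) (l : ℕ) : 0 ≤ lam N S l := by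
  have := bb_ge_one N
  rw [lam]
  positivity

lemma lam_anti {N l : ℕ} {S : ℝ} (hN : 1 ≤ N) (hS : 0 < S) (hS1 : S ^ N ≤ 111 / 100)
    (hl : l < N) : lam N S (l + 1) ≤ lam N S l := by
  obtain ⟨k, hk⟩ : ∃ k, N = l + 1 + k := ⟨N - l - 1, by omega⟩
  have e2 : N - l = k + 1 := by omega
  have e3 : N - (l + 1) = k := by omega
  have h1 := lt_bb hN hS1
  have h2 := bb_ge_one N
  rw [lam, lam, e2, e3, pow_succ, pow_succ]
  have : 13 / 10 * (bb N ^ k * bb N) * S ^ l - 13 / 10 * bb N ^ k * (S ^ l * S)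
      = 13 / 10 * bb N ^ k * S ^ l * (bb N - S) := by ring
  have h3 : 0 ≤ 13 / 10 * bb N ^ k * S ^ l * (bb N - S) := by
    have : 0 ≤ bb N - S := by linarith
    positivity
  linarith

lemma lam_ge {N l : ℕ} {S : ℝ} (hS : 0 < S) : 13 / 10 * S ^ l ≤ lam N S l := by
  have h2 : 1 ≤ bb N ^ (N - l) := one_le_pow₀ (bb_ge_one N)
  rw [lam]
  have h3 : 0 ≤ S ^ l := by positivity
  nlinarith

lemma lam_le {N l : ℕ} {S : ℝ} (hN : 1 ≤ N) (hS : 0 < S) : lam N S l ≤ 39 / 25 * S ^ l := by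
  have h2 : bb N ^ (N - l) ≤ 6 / 5 := by
    rw [← bb_pow hN]
    exact pow_le_pow_right₀ (bb_ge_one N) (Nat.sub_le _ _)
  rw [lam]
  have h3 : 0 ≤ S ^ l := by positivity
  nlinarith

lemma lam_sum (N l k : ℕ) (S : ℝ) :
    ∑ m ∈ range k, (lam N S (l + m) - lam N S (l + m + 1)) = lam N S l - lam N S (l + k) := by
  have := Finset.sum_range_sub' (fun m => lam N S (l + m)) k
  simpa [add_assoc] using this

lemma rad_pos {κ R₀ Q : ℝ} (hκ : 1 ≤ κ) (hR₀ : 1 ≤ R₀) (hQ : 1 ≤ Q) (l : ℕ) :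
    0 < rad κ R₀ Q l := by
  rw [rad]
  split_ifs <;> positivity

lemma sq_bound {r : ℝ} (hr : 0 < r) (ρ : ℝ) : 0 < √(ρ ^ 2 + r ^ 2) ∧ r ≤ √(ρ ^ 2 + r ^ 2) ∧
    ρ ≤ √(ρ ^ 2 + r ^ 2) ∧ √(ρ ^ 2 + r ^ 2) ^ 2 = ρ ^ 2 + r ^ 2 := by
  refine ⟨Real.sqrt_pos.2 (by positivity), ?_, ?_, Real.sq_sqrt (by positivity)⟩
  · exact Real.le_sqrt_of_sq_le (by nlinarith [sq_nonneg ρ])
  · exact Real.le_sqrt_of_sq_le (by nlinarith [sq_nonneg r])

lemma sqrt_concave {a a' : ℝ} (ha : 0 < a) (ha' : 0 ≤ a') :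
    √a' ≤ √a + (a' - a) / (2 * √a) := by
  have h1 : 0 < √a := Real.sqrt_pos.2 ha
  have h2 : √a ^ 2 = a := Real.sq_sqrt ha.le
  have h3 : √a' ^ 2 = a' := Real.sq_sqrt ha'
  have h4 : √a + (a' - a) / (2 * √a) = (a + a') / (2 * √a) := by
    field_simp
    nlinarith
  rw [h4, le_div_iff₀ (by positivity)]
  nlinarith [sq_nonneg (√a' - √a)]

end Pool.Agent.H77.N2.Th
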