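import Pool.Agent.H77.N2.Defs
import Pool.Agent.H77.N2.ThetaAux

/-!
Module THETA of MP_6e521b_an (n = 2): the transverse profile `TH` and its slope `LA`.

Write `S` (with `0 < S`, `S^N ≤ 111/100`), `Q ≥ 1`, `π = Q S`, `b = bb N` (`b^N = 6/5`), so
`b - S ≥ c_N > 0`. Put `λ_l = 13/10 b^(N-l) S^l` for `0 ≤ l ≤ N`; then
`amp l = (λ_l - λ_(l+1)) rad l` for `l < N`, and `LA = λ_N + Σ_{l<N} (λ_l - λ_(l+1)) rad_l /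
√(ρ² + rad_l²)`, a sum with nonnegative terms; `λ_l` decreases in `l`, `S^l ≤ λ_l/1.3`,
`λ_l ≤ 1.56 S^l`. The radii `rad_0 = R₀ ≤ √π`, `rad_l = κ Q^l`.
(t1) `amp ≥ 0`, `LA ≤ λ_0 = 1.56`.
(t3) `ρ LA(ρ)` is nondecreasing (each `ρ/√(ρ²+r²)` is).
(t2) for `0 ≤ ρ₁ ≤ ρ₂ ≤ κ₃ Q^l`: `TH(ρ₂) - TH(ρ₁) ≥ 0.6 S^l (ρ₂² - ρ₁²)`: by concavity of the
    square root `√(ρ₂²+r²) - √(ρ₁²+r²) ≥ (ρ₂²-ρ₁²)/(2 √(ρ₂²+r²))`, so the difference is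
    `≥ LA(ρ₂) (ρ₂² - ρ₁²)/2`, and use (t5).
(t5) for `0 ≤ ρ ≤ κ₃ Q^l`, `1 ≤ l`, `4 κ₃ ≤ κ`: for `m ≥ l`, `rad_m/√(ρ²+rad_m²) ≥ 0.97`
    (`ρ/rad_m ≤ κ₃/κ ≤ 1/4`), so `LA ≥ 0.97 λ_l ≥ 1.2 S^l`.
(t4) for `ρ ≥ δ Q^l`, `l ≤ N`: the terms `m ≥ l` give at most `λ_l ≤ 1.56 S^l`; the terms
    `1 ≤ m < l` at most `1.56 S^m κ Q^m/(δ Q^l) = 1.56 (κ/δ) π^m/Q^l ≤ 1.56 (κ/δ) S^l π^(m-l)
    ≤ 1.56 (κ/δ) S^l/π`, the term `m = 0` at most `1.56 R₀/(δ Q^l) ≤ 1.56 S^l √π/(δ π^l)`; for `π`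
    large (depending on `N, κ, δ`) the total is `≤ 1.7 S^l` (`l ≥ 1`).
(t6) `ρ LA(ρ) ≥ (λ_0 - λ_1) R₀ ρ/√(ρ²+R₀²) ≥ c min(ρ, R₀)`, `N ≥ 1`.
(t7) `TH ≤ 13/20 S^N ρ² + Σ amp_l ρ`, `amp_l ≤ 1.56·S^l·rad_l·(b-S)/b..`, `≤ 2 κ π^l` for `l ≥ 1`
    and `≤ 2 √π` for `l = 0`; `π^l ≤ π^(N-1) ≤ π^N/√π`, `√π ≤ π^N/√π`.
(t8) `TH(ρ') ≤ TH(ρ) + LA(ρ) (ρ'^2 - ρ²)/2` for fixed parameters (concavity of `√`).
-/

open Finset

namespace Pool.Agent.H77.N2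

open Th

/-- The standing hypotheses on the parameters of the profile. -/
structure ThPar (N : ℕ) (κ R₀ Q S : ℝ) : Prop where
  hN : 1 ≤ N
  hκ : 1 ≤ κ
  hR₀ : 1 ≤ R₀
  hQ : 1 ≤ Q
  hS : 0 < S
  hS1 : S ^ N ≤ 111 / 100
  hR₀π : R₀ ^ 2 ≤ Q * S

lemma amp_nonneg {N : ℕ} {κ R₀ Q S : ℝ} (h : ThPar N κ R₀ Q S) (l : ℕ) :
    0 ≤ amp N κ R₀ Q S l := by
  have h1 := lt_bb h.hN h.hS1
  have h2 := bb_ge_one N
  have h3 := rad_pos h.hκ h.hR₀ h.hQ l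
  have h4 := h.hS
  have h5 : 0 ≤ bb N - S := by linarith
  rw [amp]
  positivity

/-- one term of the sum in `LA` -/
lemma LA_term_nonneg {N : ℕ} {κ R₀ Q S ρ : ℝ} (h : ThPar N κ R₀ Q S) (l : ℕ) :
    0 ≤ amp N κ R₀ Q S l / √(ρ ^ 2 + rad κ R₀ Q l ^ 2) :=
  div_nonneg (amp_nonneg h l) (Real.sqrt_nonneg _)

lemma LA_term_le {N l : ℕ} {κ R₀ Q S ρ : ℝ} (h : ThPar N κ R₀ Q S) (hl : l < N) :
    amp N κ R₀ Q S l / √(ρ ^ 2 + rad κ R₀ Q l ^ 2) ≤ lam N S l - lam N S (l + 1) := by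
  obtain ⟨s1, s2, s3, s4⟩ := sq_bound (rad_pos h.hκ h.hR₀ h.hQ l) ρ
  have h1 := lam_anti h.hN h.hS h.hS1 hl
  rw [div_le_iff₀ s1, amp_eq hl]
  have : 0 ≤ lam N S l - lam N S (l + 1) := by linarith
  gcongr

/-- the terms of index at least `l` -/
lemma LA_tail_le {N l : ℕ} {κ R₀ Q S ρ : ℝ} (h : ThPar N κ R₀ Q S) (hl : l ≤ N) :
    LA N κ R₀ Q S ρ ≤ lam N S l + ∑ m ∈ range l, amp N κ R₀ Q S m
      / √(ρ ^ 2 + rad κ R₀ Q m ^ 2) := by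
  obtain ⟨k, rfl⟩ : ∃ k, N = l + k := ⟨N - l, by omega⟩
  have h1 : ∑ m ∈ range k, amp (l + k) κ R₀ Q S (l + m) / √(ρ ^ 2 + rad κ R₀ Q (l + m) ^ 2)
      ≤ lam (l + k) S l - lam (l + k) S (l + k) := by
    rw [← lam_sum]
    apply Finset.sum_le_sum
    intro m hm
    rw [Finset.mem_range] at hm
    exact LA_term_le h (by omega)
  rw [LA, Finset.sum_range_add, ← lam_top]
  linarith

lemma LA_le {N : ℕ} {κ R₀ Q S ρ : ℝ} (h : ThPar N κ R₀ Q S) : LA N κ R₀ Q S ρ ≤ 2 := by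
  have h1 := LA_tail_le (ρ := ρ) h (Nat.zero_le N)
  rw [Finset.sum_range_zero, lam_zero h.hN] at h1
  linarith

lemma LA_ge_top {N : ℕ} {κ R₀ Q S ρ : ℝ} (h : ThPar N κ R₀ Q S) :
    13 / 10 * S ^ N ≤ LA N κ R₀ Q S ρ := by
  rw [LA]
  have : 0 ≤ ∑ l ∈ Finset.range N, amp N κ R₀ Q S l / √(ρ ^ 2 + rad κ R₀ Q l ^ 2) :=
    Finset.sum_nonneg fun l _ => LA_term_nonneg h l
  linarith

lemma LA_pos {N : ℕ} {κ R₀ Q S ρ : ℝ} (h : ThPar N κ R₀ Q S) : 0 < LA N κ R₀ Q S ρ := by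
  have h1 := LA_ge_top (ρ := ρ) h
  have h2 := h.hS
  have h3 : 0 < S ^ N := by positivity
  linarith

lemma mul_LA_eq (N : ℕ) (κ R₀ Q S ρ : ℝ) : ρ * LA N κ R₀ Q S ρ = 13 / 10 * S ^ N * ρ
    + ∑ l ∈ Finset.range N, amp N κ R₀ Q S l * (ρ / √(ρ ^ 2 + rad κ R₀ Q l ^ 2)) := by
  rw [LA, mul_add, Finset.mul_sum]
  congr 1
  · ring
  · apply Finset.sum_congr rfl
    intro l _
    ring

lemma mul_LA_mono {N : ℕ} {κ R₀ Q S ρ₁ ρ₂ : ℝ} (h : ThPar N κ R₀ Q S) (h1 : 0 ≤ ρ₁)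
    (h2 : ρ₁ ≤ ρ₂) : ρ₁ * LA N κ R₀ Q S ρ₁ ≤ ρ₂ * LA N κ R₀ Q S ρ₂ := by
  rw [mul_LA_eq, mul_LA_eq]
  have hS := h.hS
  apply add_le_add
  · gcongr
  · apply Finset.sum_le_sum
    intro l _
    apply mul_le_mul_of_nonneg_left _ (amp_nonneg h l)
    have hr := rad_pos h.hκ h.hR₀ h.hQ l
    obtain ⟨s1, s2, s3, s4⟩ := sq_bound hr ρ₁
    obtain ⟨t1, t2, t3, t4⟩ := sq_bound hr ρ₂
    rw [div_le_div_iff₀ s1 t1]
    have h0 : 0 ≤ ρ₂ := h1.trans h2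
    apply le_of_pow_le_pow_left₀ (two_ne_zero) (by positivity)
    have h3 : 0 ≤ rad κ R₀ Q l ^ 2 := by positivity
    have h4 : ρ₁ ^ 2 ≤ ρ₂ ^ 2 := pow_le_pow_left₀ h1 h2 2
    rw [mul_pow, mul_pow, s4, t4]
    nlinarith

/-- the quotient `rad_m / √(ρ² + rad_m²)` is close to one -/
lemma quot_ge {r ρ : ℝ} (hr : 0 < r) (h0 : 0 ≤ ρ) (h : 4 * ρ ≤ r) :
    97 / 100 ≤ r / √(ρ ^ 2 + r ^ 2) := by
  obtain ⟨s1, s2, s3, s4⟩ := sq_bound hr ρ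
  rw [le_div_iff₀ s1]
  apply le_of_pow_le_pow_left₀ (two_ne_zero) hr.le
  rw [mul_pow, s4]
  nlinarith

lemma LA_ge {N : ℕ} {κ κ₃ R₀ Q S ρ : ℝ} (h : ThPar N κ R₀ Q S) (hκ₃ : 4 * κ₃ ≤ κ) {l : ℕ}
    (hl : 1 ≤ l) (hlN : l ≤ N) (hρ : 0 ≤ ρ) (hρ1 : ρ ≤ κ₃ * Q ^ l) :
    6 / 5 * S ^ l ≤ LA N κ R₀ Q S ρ := by
  obtain ⟨k, rfl⟩ : ∃ k, N = l + k := ⟨N - l, by omega⟩
  have hQ := h.hQ
  have hS := h.hS
  have h1 : 97 / 100 * (lam (l + k) S l - lam (l + k) S (l + k)) ≤ ∑ m ∈ range k,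
      amp (l + k) κ R₀ Q S (l + m) / √(ρ ^ 2 + rad κ R₀ Q (l + m) ^ 2) := by
    rw [← lam_sum, Finset.mul_sum]
    apply Finset.sum_le_sum
    intro m hm
    rw [Finset.mem_range] at hm
    have hr := rad_pos h.hκ h.hR₀ h.hQ (l + m)
    have ha := lam_anti h.hN h.hS h.hS1 (l := l + m) (by omega)
    have h4 : 4 * ρ ≤ rad κ R₀ Q (l + m) := by
      rw [rad, if_neg (by omega)]
      have h5 : Q ^ l ≤ Q ^ (l + m) := pow_le_pow_right₀ hQ (by omega)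
      have h6 : 0 ≤ Q ^ l := by positivity
      have h7 := h.hκ
      calc 4 * ρ ≤ 4 * (κ₃ * Q ^ l) := by linarith
        _ = (4 * κ₃) * Q ^ l := by ring
        _ ≤ κ * Q ^ l := by gcongr
        _ ≤ κ * Q ^ (l + m) := by gcongr
    have h5 := quot_ge hr hρ h4
    rw [amp_eq (by omega : l + m < l + k), mul_div_assoc, mul_comm (97 / 100 : ℝ)]
    have h6 : 0 ≤ lam (l + k) S (l + m) - lam (l + k) S (l + m + 1) := by linarith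
    gcongr
  have h2 : 0 ≤ ∑ m ∈ range l,
      amp (l + k) κ R₀ Q S m / √(ρ ^ 2 + rad κ R₀ Q m ^ 2) :=
    Finset.sum_nonneg fun m _ => LA_term_nonneg h m
  rw [LA, Finset.sum_range_add, ← lam_top]
  have h3 := lam_ge (N := l + k) (l := l) h.hS
  have h4 := lam_nonneg (N := l + k) h.hS (l + k)
  have h5 : 0 ≤ S ^ l := by positivity
  nlinarith

lemma TH_concave {N : ℕ} {κ R₀ Q S ρ ρ' : ℝ} (h : ThPar N κ R₀ Q S) :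
    TH N κ R₀ Q S ρ' ≤ TH N κ R₀ Q S ρ + LA N κ R₀ Q S ρ * (ρ' ^ 2 - ρ ^ 2) / 2 := by
  have h1 : ∑ l ∈ Finset.range N,
      amp N κ R₀ Q S l * (√(ρ' ^ 2 + rad κ R₀ Q l ^ 2) - rad κ R₀ Q l)
      ≤ ∑ l ∈ Finset.range N,
      (amp N κ R₀ Q S l * (√(ρ ^ 2 + rad κ R₀ Q l ^ 2) - rad κ R₀ Q l)
        + amp N κ R₀ Q S l / √(ρ ^ 2 + rad κ R₀ Q l ^ 2) * ((ρ' ^ 2 - ρ ^ 2) / 2)) := by
    apply Finset.sum_le_sum
    intro l _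
    have hr := rad_pos h.hκ h.hR₀ h.hQ l
    have h2 := sqrt_concave (a := ρ ^ 2 + rad κ R₀ Q l ^ 2) (a' := ρ' ^ 2 + rad κ R₀ Q l ^ 2)
      (by positivity) (by positivity)
    have h3 : amp N κ R₀ Q S l * (√(ρ ^ 2 + rad κ R₀ Q l ^ 2) - rad κ R₀ Q l)
        + amp N κ R₀ Q S l / √(ρ ^ 2 + rad κ R₀ Q l ^ 2) * ((ρ' ^ 2 - ρ ^ 2) / 2)
        = amp N κ R₀ Q S l * (√(ρ ^ 2 + rad κ R₀ Q l ^ 2)
          + (ρ' ^ 2 + rad κ R₀ Q l ^ 2 - (ρ ^ 2 + rad κ R₀ Q l ^ 2))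
            / (2 * √(ρ ^ 2 + rad κ R₀ Q l ^ 2)) - rad κ R₀ Q l) := by
      field_simp
      ring
    rw [h3]
    apply mul_le_mul_of_nonneg_left _ (amp_nonneg h l)
    linarith
  rw [Finset.sum_add_distrib, ← Finset.sum_mul] at h1
  rw [TH, TH, LA]
  nlinarith

lemma TH_sub_ge {N : ℕ} {κ κ₃ R₀ Q S ρ₁ ρ₂ : ℝ} (h : ThPar N κ R₀ Q S) (hκ₃ : 4 * κ₃ ≤ κ)
    {l : ℕ} (hl : 1 ≤ l) (hlN : l ≤ N) (h1 : 0 ≤ ρ₁) (h2 : ρ₁ ≤ ρ₂) (h3 : ρ₂ ≤ κ₃ * Q ^ l) :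
    3 / 5 * S ^ l * (ρ₂ ^ 2 - ρ₁ ^ 2) ≤ TH N κ R₀ Q S ρ₂ - TH N κ R₀ Q S ρ₁ := by
  have h4 := TH_concave (ρ := ρ₂) (ρ' := ρ₁) h
  have h5 := LA_ge h hκ₃ hl hlN (h1.trans h2) h3
  have h6 : 0 ≤ ρ₂ ^ 2 - ρ₁ ^ 2 := by nlinarith
  nlinarith

/-- `S^m rad_m` for `m < l` -/
lemma rad_S {N m l : ℕ} {κ R₀ Q S : ℝ} (h : ThPar N κ R₀ Q S) (hml : m < l) :
    S ^ m * rad κ R₀ Q m ≤ κ * ((Q * S) ^ l / √(Q * S)) := by
  have hR := h.hR₀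
  have hκ := h.hκ
  have hS := h.hS
  have hQ := h.hQ
  have hp : 1 ≤ Q * S := by nlinarith [h.hR₀π]
  have hs : 1 ≤ √(Q * S) := Real.one_le_sqrt.2 hp
  have hs2 : √(Q * S) * √(Q * S) = Q * S := Real.mul_self_sqrt (by linarith)
  have hs0 : 0 < √(Q * S) := by linarith
  rcases Nat.eq_zero_or_pos m with rfl | hm
  · rw [rad, if_pos rfl, pow_zero, one_mul]
    have h1 : R₀ ≤ √(Q * S) := Real.le_sqrt_of_sq_le h.hR₀π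
    have h2 : √(Q * S) ≤ (Q * S) ^ l / √(Q * S) := by
      rw [le_div_iff₀ hs0, hs2]
      calc Q * S = (Q * S) ^ 1 := (pow_one _).symm
        _ ≤ (Q * S) ^ l := pow_le_pow_right₀ hp (by omega)
    have h3 : 0 ≤ (Q * S) ^ l / √(Q * S) := by positivity
    nlinarith
  · rw [rad, if_neg (by omega)]
    have h2 : (Q * S) ^ m ≤ (Q * S) ^ l / √(Q * S) := by
      rw [le_div_iff₀ hs0]
      calc (Q * S) ^ m * √(Q * S) ≤ (Q * S) ^ m * (Q * S) := by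
            gcongr
            nlinarith
        _ = (Q * S) ^ (m + 1) := (pow_succ _ _).symm
        _ ≤ (Q * S) ^ l := pow_le_pow_right₀ hp (by omega)
    calc S ^ m * (κ * Q ^ m) = κ * (Q * S) ^ m := by rw [mul_pow]; ring
      _ ≤ _ := by gcongr

lemma amp_le {N m l : ℕ} {κ R₀ Q S : ℝ} (h : ThPar N κ R₀ Q S) (hm : m < N) (hml : m < l) :
    amp N κ R₀ Q S m ≤ 2 * κ * ((Q * S) ^ l / √(Q * S)) := by
  have h1 := rad_S h hml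
  have h2 := lam_le (N := N) (l := m) h.hN h.hS
  have h3 := lam_nonneg (N := N) h.hS (m + 1)
  have hr := rad_pos h.hκ h.hR₀ h.hQ m
  have hS := h.hS
  have hκ := h.hκ
  have hQ := h.hQ
  rw [amp_eq hm]
  have h4 : 0 ≤ κ * ((Q * S) ^ l / √(Q * S)) := by positivity
  calc (lam N S m - lam N S (m + 1)) * rad κ R₀ Q m
      ≤ (39 / 25 * S ^ m) * rad κ R₀ Q m := by
        apply mul_le_mul_of_nonneg_right _ hr.le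
        linarith
    _ = 39 / 25 * (S ^ m * rad κ R₀ Q m) := by ring
    _ ≤ 39 / 25 * (κ * ((Q * S) ^ l / √(Q * S))) := by linarith
    _ ≤ _ := by linarith

lemma LA_upper (N : ℕ) {κ δ : ℝ} (hκ : 1 ≤ κ) (hδ : 0 < δ) : ∃ π₁ : ℝ, ∀ R₀ Q S ρ : ℝ,
    ThPar N κ R₀ Q S → π₁ ≤ Q * S → ∀ l : ℕ, 1 ≤ l → l ≤ N → δ * Q ^ l ≤ ρ →
    LA N κ R₀ Q S ρ ≤ 17 / 10 * S ^ l := by
  refine ⟨(20 * N * κ / δ) ^ 2, ?_⟩
  intro R₀ Q S ρ h hπ l hl hlN hρ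
  have hS := h.hS
  have hQ := h.hQ
  have hρ0 : 0 < ρ := lt_of_lt_of_le (by positivity) hρ
  have h1 := LA_tail_le (ρ := ρ) h hlN
  have h2 := lam_le (N := N) (l := l) h.hN h.hS
  have hs : 20 * N * κ / δ ≤ √(Q * S) := Real.le_sqrt_of_sq_le hπ
  have hs0 : 0 < √(Q * S) := Real.sqrt_pos.2 (by positivity)
  have h3 : ∑ m ∈ range l, amp N κ R₀ Q S m / √(ρ ^ 2 + rad κ R₀ Q m ^ 2)
      ≤ ∑ _m ∈ range l, 2 * κ * ((Q * S) ^ l / √(Q * S)) / (δ * Q ^ l) := by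
    apply Finset.sum_le_sum
    intro m hm
    rw [Finset.mem_range] at hm
    have hr := rad_pos h.hκ h.hR₀ h.hQ m
    obtain ⟨s1, s2, s3, s4⟩ := sq_bound hr ρ
    have h4 := amp_le h (by omega : m < N) hm
    have h5 : δ * Q ^ l ≤ √(ρ ^ 2 + rad κ R₀ Q m ^ 2) := hρ.trans s3
    exact div_le_div₀ (by positivity) h4 (by positivity) h5
  rw [Finset.sum_const, Finset.card_range, nsmul_eq_mul] at h3
  have h4 : (l : ℝ) * (2 * κ * ((Q * S) ^ l / √(Q * S)) / (δ * Q ^ l)) ≤ 1 / 10 * S ^ l := by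
    have hlN' : (l : ℝ) ≤ N := by exact_mod_cast hlN
    have e1 : (l : ℝ) * (2 * κ * ((Q * S) ^ l / √(Q * S)) / (δ * Q ^ l))
        = (2 * l * κ / δ) / √(Q * S) * S ^ l := by
      rw [mul_pow]
      field_simp
    rw [e1]
    have e2 : (2 * l * κ / δ) / √(Q * S) ≤ 1 / 10 := by
      rw [div_le_iff₀ hs0]
      have e3 : 2 * l * κ / δ ≤ 2 * N * κ / δ := by gcongr
      have e4 : 20 * N * κ / δ = 10 * (2 * N * κ / δ) := by ring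
      linarith
    gcongr
  have h5 : 0 ≤ S ^ l := by positivity
  linarith

lemma mul_LA_ge {N : ℕ} (hN : 1 ≤ N) : ∃ c : ℝ, 0 < c ∧ ∀ κ R₀ Q S ρ : ℝ, ThPar N κ R₀ Q S →
    0 ≤ ρ → c * min ρ R₀ ≤ ρ * LA N κ R₀ Q S ρ := by
  obtain ⟨b, hb⟩ : ∃ b : ℝ, b = (111 / 100 : ℝ) ^ ((1 : ℝ) / N) := ⟨_, rfl⟩
  have hN0 : (0 : ℝ) < N := by exact_mod_cast hN
  have hb0 : 0 < b := by rw [hb]; positivity
  have hbN : b ^ N = 111 / 100 := by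
    rw [hb, ← Real.rpow_natCast, ← Real.rpow_mul (by norm_num), one_div_mul_cancel hN0.ne',
      Real.rpow_one]
  have hbb : b < bb N := lt_bb hN hbN.le
  refine ⟨(bb N - b) / 2, by linarith, ?_⟩
  intro κ R₀ Q S ρ h hρ
  have hS := h.hS
  have hR := h.hR₀
  have hSb : S ≤ b := by
    apply le_of_pow_le_pow_left₀ (by omega : N ≠ 0) hb0.le
    rw [hbN]
    exact h.hS1
  have hr : 0 < R₀ := by linarith
  obtain ⟨s1, s2, s3, s4⟩ := sq_bound hr ρ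
  have h1 : amp N κ R₀ Q S 0 * (ρ / √(ρ ^ 2 + R₀ ^ 2)) ≤ ρ * LA N κ R₀ Q S ρ := by
    rw [mul_LA_eq]
    have h2 : amp N κ R₀ Q S 0 * (ρ / √(ρ ^ 2 + rad κ R₀ Q 0 ^ 2)) ≤
        ∑ l ∈ Finset.range N, amp N κ R₀ Q S l * (ρ / √(ρ ^ 2 + rad κ R₀ Q l ^ 2)) := by
      refine Finset.single_le_sum (f := fun l => amp N κ R₀ Q S l
        * (ρ / √(ρ ^ 2 + rad κ R₀ Q l ^ 2))) (fun l _ => ?_) (Finset.mem_range.2 (by omega))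
      have := amp_nonneg h l
      positivity
    have h3 : rad κ R₀ Q 0 = R₀ := by rw [rad, if_pos rfl]
    rw [h3] at h2
    have h4 : 0 ≤ 13 / 10 * S ^ N * ρ := by positivity
    linarith
  have h5 : (bb N - b) * R₀ ≤ amp N κ R₀ Q S 0 := by
    rw [amp, rad, if_pos rfl, pow_zero, mul_one]
    have h6 : 1 ≤ bb N ^ (N - 0 - 1) := one_le_pow₀ (bb_ge_one N)
    have h7 : 0 ≤ bb N - S := by linarith
    calc (bb N - b) * R₀ ≤ (bb N - S) * R₀ := by gcongr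
      _ = 1 * 1 * (bb N - S) * R₀ := by ring
      _ ≤ 13 / 10 * bb N ^ (N - 0 - 1) * (bb N - S) * R₀ := by
          gcongr
          norm_num
  have h8 : min ρ R₀ / 2 ≤ R₀ * (ρ / √(ρ ^ 2 + R₀ ^ 2)) := by
    have h9 : √(ρ ^ 2 + R₀ ^ 2) ≤ 2 * max ρ R₀ := by
      apply Real.sqrt_le_iff.2
      have m1 := le_max_left ρ R₀
      have m2 := le_max_right ρ R₀
      constructor
      · linarith
      · nlinarith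
    have h10 : min ρ R₀ * max ρ R₀ = ρ * R₀ := min_mul_max ρ R₀
    have h11 : 0 ≤ min ρ R₀ := le_min hρ hr.le
    rw [← mul_div_assoc, le_div_iff₀ s1]
    calc min ρ R₀ / 2 * √(ρ ^ 2 + R₀ ^ 2) ≤ min ρ R₀ / 2 * (2 * max ρ R₀) := by gcongr
      _ = min ρ R₀ * max ρ R₀ := by ring
      _ = R₀ * ρ := by rw [h10]; ring
  have h12 : 0 ≤ bb N - b := by linarith
  calc (bb N - b) / 2 * min ρ R₀ = (bb N - b) * (min ρ R₀ / 2) := by ring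
    _ ≤ (bb N - b) * (R₀ * (ρ / √(ρ ^ 2 + R₀ ^ 2))) := by gcongr
    _ = ((bb N - b) * R₀) * (ρ / √(ρ ^ 2 + R₀ ^ 2)) := by ring
    _ ≤ amp N κ R₀ Q S 0 * (ρ / √(ρ ^ 2 + R₀ ^ 2)) := by gcongr
    _ ≤ _ := h1

lemma TH_ge {N : ℕ} {κ R₀ Q S ρ : ℝ} (h : ThPar N κ R₀ Q S) :
    13 / 20 * S ^ N * ρ ^ 2 ≤ TH N κ R₀ Q S ρ := by
  rw [TH]
  have : 0 ≤ ∑ l ∈ Finset.range N,
      amp N κ R₀ Q S l * (√(ρ ^ 2 + rad κ R₀ Q l ^ 2) - rad κ R₀ Q l) := by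
    apply Finset.sum_nonneg
    intro l _
    obtain ⟨s1, s2, s3, s4⟩ := sq_bound (rad_pos h.hκ h.hR₀ h.hQ l) ρ
    exact mul_nonneg (amp_nonneg h l) (by linarith)
  linarith

lemma TH_le (N : ℕ) {κ : ℝ} (hκ : 1 ≤ κ) : ∃ M : ℝ, 0 < M ∧ ∀ R₀ Q S ρ : ℝ,
    ThPar N κ R₀ Q S → 0 ≤ ρ →
    TH N κ R₀ Q S ρ ≤ 13 / 20 * S ^ N * ρ ^ 2 + M * ((Q * S) ^ N / √(Q * S)) * ρ := by
  refine ⟨N * (2 * κ) + 1, by positivity, ?_⟩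
  intro R₀ Q S ρ h hρ
  have hS := h.hS
  have hQ := h.hQ
  have h1 : ∑ l ∈ Finset.range N,
      amp N κ R₀ Q S l * (√(ρ ^ 2 + rad κ R₀ Q l ^ 2) - rad κ R₀ Q l)
      ≤ ∑ _l ∈ Finset.range N, 2 * κ * ((Q * S) ^ N / √(Q * S)) * ρ := by
    apply Finset.sum_le_sum
    intro l hl
    rw [Finset.mem_range] at hl
    have hr := rad_pos h.hκ h.hR₀ h.hQ l
    have h2 : √(ρ ^ 2 + rad κ R₀ Q l ^ 2) - rad κ R₀ Q l ≤ ρ := by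
      have : √(ρ ^ 2 + rad κ R₀ Q l ^ 2) ≤ ρ + rad κ R₀ Q l := by
        apply Real.sqrt_le_iff.2
        constructor
        · positivity
        · nlinarith [mul_nonneg hρ hr.le]
      linarith
    have h3 := amp_le h hl hl
    have h4 := amp_nonneg h l
    calc amp N κ R₀ Q S l * (√(ρ ^ 2 + rad κ R₀ Q l ^ 2) - rad κ R₀ Q l)
        ≤ amp N κ R₀ Q S l * ρ := by gcongr
      _ ≤ _ := by gcongr
  rw [Finset.sum_const, Finset.card_range, nsmul_eq_mul] at h1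
  rw [TH]
  have h2 : 0 ≤ (Q * S) ^ N / √(Q * S) * ρ := by positivity
  have h3 : (N * (2 * κ) + 1) * ((Q * S) ^ N / √(Q * S)) * ρ
      = N * (2 * κ * ((Q * S) ^ N / √(Q * S)) * ρ) + (Q * S) ^ N / √(Q * S) * ρ := by ring
  rw [h3]
  linarith

lemma mul_LA_le (N : ℕ) {κ : ℝ} (hκ : 1 ≤ κ) : ∃ M : ℝ, 0 < M ∧ ∀ R₀ Q S ρ : ℝ,
    ThPar N κ R₀ Q S → 0 ≤ ρ →
    ρ * LA N κ R₀ Q S ρ ≤ 13 / 10 * S ^ N * ρ + M * ((Q * S) ^ N / √(Q * S)) := by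
  refine ⟨N * (2 * κ) + 1, by positivity, ?_⟩
  intro R₀ Q S ρ h hρ
  have hS := h.hS
  have hQ := h.hQ
  have h1 : ∑ l ∈ Finset.range N, amp N κ R₀ Q S l * (ρ / √(ρ ^ 2 + rad κ R₀ Q l ^ 2))
      ≤ ∑ _l ∈ Finset.range N, 2 * κ * ((Q * S) ^ N / √(Q * S)) := by
    apply Finset.sum_le_sum
    intro l hl
    rw [Finset.mem_range] at hl
    have hr := rad_pos h.hκ h.hR₀ h.hQ l
    obtain ⟨s1, s2, s3, s4⟩ := sq_bound hr ρ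
    have h2 : ρ / √(ρ ^ 2 + rad κ R₀ Q l ^ 2) ≤ 1 := by
      rw [div_le_one s1]
      exact s3
    have h3 := amp_le h hl hl
    have h4 := amp_nonneg h l
    calc amp N κ R₀ Q S l * (ρ / √(ρ ^ 2 + rad κ R₀ Q l ^ 2))
        ≤ amp N κ R₀ Q S l * 1 := by gcongr
      _ ≤ _ := by linarith
  rw [Finset.sum_const, Finset.card_range, nsmul_eq_mul] at h1
  rw [mul_LA_eq]
  have h2 : 0 ≤ (Q * S) ^ N / √(Q * S) := by positivity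
  have h3 : (N * (2 * κ) + 1) * ((Q * S) ^ N / √(Q * S))
      = N * (2 * κ * ((Q * S) ^ N / √(Q * S))) + (Q * S) ^ N / √(Q * S) := by ring
  rw [h3]
  linarith

end Pool.Agent.H77.N2
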