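import Pool.Agent.H77.N2.Defs
import Pool.Agent.H77.N2.Theta
import Pool.Agent.H77.N2.BaseEx

/-!
Module COMPARE of MP_6e521b_an (n = 2): the size of the weight of a sheet. (Theta and BaseEx are
stated there; use them as black boxes.)

`Q = ‖q‖`, `τ = Q^N`, `S`, `π = Q S ≤ 2Q` (all large), `v = x - C_i(q)`, `ρ = ‖v‖`; `≲` up to constants
depending on `N, C, κ, M`. `PH = ψ_i + Re(ξ_i v) + TH(ρ)`, and
 * `|ψ_i - β φ(τ)| ≤ M π^(N-1) Q^(N-1) ≲ π^N τ/(πQ)` (`ψnear`; note `Q^(N-1) = τ/Q`);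
 * `|p_i| ≲ π` (`pnear`: `|p_i q - πQ| ≤ M`), `|ξ_i| ≲ π^(N-1)` (degree < N, `π ≥ 1`), `ρ ≲ τ`, so
   `|Re(ξ_i v)| ≲ π^(N-1) τ`;
 * `0 ≤ TH(ρ) - 13/20 S^N ρ² ≤ M π^N/√π ρ` (`TH_ge`, `TH_le`);
 * `|ρ² - ‖x‖²| ≤ ‖C_i(q)‖ (ρ + ‖x‖) ≲ Q^(N-1) τ` and `S^N Q^(N-1) τ = π^N τ/Q` (`S^N τ = π^N`).
Each error is `≲ π^N τ/√π` as `Q ≥ π/2`, `π ≥ 1`. (`π^N ≥ β B`, `piR_pow_ge`, makes `π` large;
`Q > R`, `R^N ≥ 100B`; `SR_le` gives `S ≤ 2`.)
-/

open Finset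

namespace Pool.Agent.H77.N2

/-- The sum of the moduli of the coefficients. -/
noncomputable def cmpA (N : ℕ) (P : Polynomial ℂ) : ℝ := ∑ k ∈ Finset.range N, ‖P.coeff k‖

lemma cmpA_nonneg (N : ℕ) (P : Polynomial ℂ) : 0 ≤ cmpA N P :=
  Finset.sum_nonneg fun _ _ => norm_nonneg _

lemma cmp_eval_le {N : ℕ} {P : Polynomial ℂ} (hP : P.natDegree < N) {z : ℂ} {r : ℝ}
    (hr : 1 ≤ r) (hz : ‖z‖ ≤ r) : ‖P.eval z‖ ≤ cmpA N P * r ^ (N - 1) := by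
  rw [Polynomial.eval_eq_sum_range' hP, cmpA, Finset.sum_mul]
  refine (norm_sum_le _ _).trans (Finset.sum_le_sum fun k hk => ?_)
  rw [norm_mul, norm_pow]
  refine mul_le_mul_of_nonneg_left ?_ (norm_nonneg _)
  have hk' : k ≤ N - 1 := by
    have := Finset.mem_range.1 hk
    omega
  exact (pow_le_pow_left₀ (norm_nonneg _) hz k).trans (pow_le_pow_right₀ hr hk')

lemma cmp_cst_eval_le {N : ℕ} {P : Polynomial ℂ} (hP : P.natDegree < N) {z : ℂ} {r : ℝ}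
    (hr : 1 ≤ r) (hz : ‖z‖ ≤ r) : ‖(cst P).eval z‖ ≤ cmpA N P * r ^ (N - 1) := by
  have h1 : (cst P).natDegree < N := (Polynomial.natDegree_map_le).trans_lt hP
  have h2 : cmpA N (cst P) = cmpA N P := by
    unfold cmpA cst
    refine Finset.sum_congr rfl fun k _ => ?_
    rw [Polynomial.coeff_map, RCLike.norm_conj]
  rw [← h2]
  exact cmp_eval_le h1 hr hz

/-- The size of the weight of a sheet. -/
theorem compare {N : ℕ} (hN : 1 ≤ N) {ι : Type*} [Finite ι] (C : ι → Polynomial ℂ)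
    (hdeg : ∀ i, (C i).natDegree < N) {κ c M : ℝ} (hκ : 1 ≤ κ) (hc : 0 < c) (hM : 0 < M) :
    ∃ M' B₁ : ℝ, 0 < M' ∧ 1 ≤ B₁ ∧ ∀ β : ℝ, 9 / 10 ≤ β → β ≤ 1 → ∀ B, B₁ ≤ B → ∀ K, 1 ≤ K →
    ∀ R : ℝ, 1 ≤ R → 100 * B ≤ R ^ N → ∀ (ψ : ι → ℂ → ℝ) (p ξt ξb : ι → ℂ → ℂ),
    IsSlice N C β B K R M c ψ p ξt ξb → ∀ R₀ : ℝ, 1 ≤ R₀ →
    (∀ Q, R < Q → R₀ ^ 2 ≤ piR N β B K Q) → ∀ (i : ι) (q x : ℂ), R < ‖q‖ →
    ‖x‖ ≤ 8 * ‖q‖ ^ N →
    |PH N C β B K κ R₀ ψ p i x q - (β * phiR B K (‖q‖ ^ N)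
      + 13 / 20 * (SR N β B K ‖q‖ ^ N * ‖x‖ ^ 2))|
      ≤ M' / √(piR N β B K ‖q‖) * (piR N β B K ‖q‖ ^ N * ‖q‖ ^ N) := by
  classical
  cases nonempty_fintype ι
  obtain ⟨Mθ, hMθ, hTH⟩ := TH_le N hκ
  set A : ℝ := ∑ i, cmpA N (C i) with hA
  have hA0 : 0 ≤ A := Finset.sum_nonneg fun i _ => cmpA_nonneg N (C i)
  have hAi : ∀ i, cmpA N (C i) ≤ A := fun i =>
    Finset.single_le_sum (f := fun i => cmpA N (C i)) (fun i _ => cmpA_nonneg N (C i))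
      (Finset.mem_univ i)
  set A1 : ℝ := A * (1 + M) ^ (N - 1) with hA1
  have hA10 : 0 ≤ A1 := by positivity
  refine ⟨M + A1 * (8 + A) + Mθ * (8 + A) + 2 * A * (16 + A), 2, by positivity, by norm_num,
    fun β hβ1 hβ2 B hB K hK R hR hBR ψ p ξt ξb hSl R₀ hR₀ hR₀π i q x hq hx => ?_⟩
  have hβ : 0 < β := by linarith
  have hB0 : 0 < B := by linarith
  set Q : ℝ := ‖q‖ with hQ
  have hQ1 : 1 < Q := lt_of_le_of_lt hR hq
  have hQ0 : 0 < Q := by linarith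
  set S : ℝ := SR N β B K Q with hS
  have hS0 : 0 < S := SR_pos hβ hB0 hQ0
  have hBQ : 100 * B ≤ Q ^ N := hBR.trans (pow_le_pow_left₀ (by linarith) hq.le N)
  have hSN : S ^ N ≤ 111 / 100 := SR_le hN hβ hβ2 hB0 hQ0 hBQ
  have hS2 : S ≤ 2 := by
    by_contra hcon
    push Not at hcon
    have h1 : (2 : ℝ) ^ N ≤ S ^ N := pow_le_pow_left₀ (by norm_num) hcon.le N
    have h2 : (2 : ℝ) ≤ 2 ^ N := by
      calc (2 : ℝ) = 2 ^ 1 := by norm_num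
        _ ≤ 2 ^ N := pow_le_pow_right₀ (by norm_num) hN
    linarith
  set P : ℝ := piR N β B K Q with hP
  have hPdef : P = Q * S := rfl
  have hPN : β * B ≤ P ^ N := piR_pow_ge hN hβ hB0 hQ0
  have hP0 : 0 < P := by rw [hPdef]; positivity
  have hP1 : 1 ≤ P := by
    by_contra hcon
    push Not at hcon
    have h1 : P ^ N < 1 := pow_lt_one₀ hP0.le hcon (by omega)
    nlinarith
  have hP2Q : P ≤ 2 * Q := by rw [hPdef]; nlinarith
  have hsq0 : 0 < √P := Real.sqrt_pos.2 hP0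
  have hsq1 : √P ≤ P := by
    rw [Real.sqrt_le_left hP0.le]
    nlinarith
  set τ : ℝ := Q ^ N with hτ
  have hτ0 : 0 < τ := by positivity
  have hQτ : Q ^ (N - 1) ≤ τ := pow_le_pow_right₀ hQ1.le (by omega)
  -- the unit of error
  set U : ℝ := P ^ N / √P with hU
  have hU0 : 0 < U := by positivity
  have hPU : P ^ (N - 1) ≤ U := by
    rw [hU, le_div_iff₀ hsq0]
    calc P ^ (N - 1) * √P ≤ P ^ (N - 1) * P := by gcongr
      _ = P ^ N := by rw [← pow_succ]; congr 1; omega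
  have hSQU : S ^ N * Q ^ (N - 1) ≤ 2 * U := by
    have h1 : S ^ N * Q ^ (N - 1) = P ^ N / Q := by
      rw [hPdef, mul_pow, eq_div_iff hQ0.ne', mul_assoc, ← pow_succ,
        show N - 1 + 1 = N by omega, mul_comm]
    rw [h1, hU, div_le_iff₀ hQ0, mul_assoc, div_mul_eq_mul_div, mul_div_assoc',
      le_div_iff₀ hsq0]
    have h2 : √P ≤ 2 * Q := hsq1.trans hP2Q
    have h3 : 0 ≤ P ^ N := by positivity
    nlinarith
  -- the polynomial values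
  have hCq : ‖(C i).eval q‖ ≤ A * Q ^ (N - 1) :=
    (cmp_eval_le (hdeg i) hQ1.le le_rfl).trans (mul_le_mul_of_nonneg_right (hAi i) (by positivity))
  have hp : ‖p i q‖ ≤ (1 + M) * P := by
    have h1 := hSl.pnear i q hq
    have h2 : ‖p i q * q‖ ≤ P * Q + M := by
      have h3 : ‖p i q * q‖ ≤ ‖p i q * q - (P * Q : ℝ)‖ + ‖((P * Q : ℝ) : ℂ)‖ := by
        have h4 := norm_add_le (p i q * q - (P * Q : ℝ)) ((P * Q : ℝ) : ℂ)
        simpa using h4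
      have h5 : ‖((P * Q : ℝ) : ℂ)‖ = P * Q := by
        rw [Complex.norm_real, Real.norm_eq_abs, abs_of_pos (by positivity)]
      rw [h5] at h3
      linarith
    rw [norm_mul] at h2
    have h6 : ‖p i q‖ * Q ≤ ((1 + M) * P) * Q := by
      have h7 : M ≤ M * P * Q := by
        have : 1 ≤ P * Q := by nlinarith
        nlinarith
      nlinarith
    exact le_of_mul_le_mul_right h6 hQ0
  have hξ : ‖(cst (C i)).eval (p i q)‖ ≤ A1 * P ^ (N - 1) := by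
    have h1 := cmp_cst_eval_le (hdeg i) (z := p i q) (r := (1 + M) * P) (by nlinarith) hp
    refine h1.trans ?_
    rw [mul_pow, hA1, mul_assoc]
    exact mul_le_mul_of_nonneg_right (hAi i) (by positivity)
  set v : ℂ := x - (C i).eval q with hv
  set ρ : ℝ := ‖v‖ with hρ
  have hρ0 : 0 ≤ ρ := norm_nonneg _
  have hρle : ρ ≤ (8 + A) * τ := by
    have h1 : ρ ≤ ‖x‖ + ‖(C i).eval q‖ := norm_sub_le _ _
    nlinarith
  -- the four errors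
  have e1 : |ψ i q - β * phiR B K τ| ≤ M * (U * τ) := by
    refine (hSl.ψnear i q hq).trans ?_
    have : P ^ (N - 1) * Q ^ (N - 1) ≤ U * τ := by gcongr
    exact mul_le_mul_of_nonneg_left this hM.le
  have e2 : |((cst (C i)).eval (p i q) * v).re| ≤ A1 * (8 + A) * (U * τ) := by
    refine (Complex.abs_re_le_norm _).trans ?_
    rw [norm_mul]
    calc ‖(cst (C i)).eval (p i q)‖ * ‖v‖ ≤ (A1 * P ^ (N - 1)) * ((8 + A) * τ) := by
          gcongr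
      _ ≤ (A1 * U) * ((8 + A) * τ) := by gcongr
      _ = A1 * (8 + A) * (U * τ) := by ring
  have hTP : ThPar N κ R₀ Q S := ⟨hN, hκ, hR₀, hQ1.le, hS0, hSN, by
    have := hR₀π Q hq
    rwa [← hP, hPdef] at this⟩
  have e3 : |TH N κ R₀ Q S ρ - 13 / 20 * S ^ N * ρ ^ 2| ≤ Mθ * (8 + A) * (U * τ) := by
    have h1 := TH_ge (ρ := ρ) hTP
    have h2 := hTH R₀ Q S ρ hTP hρ0
    rw [abs_of_nonneg (by linarith)]
    rw [← hPdef, ← hU] at h2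
    have h3 : Mθ * U * ρ ≤ Mθ * U * ((8 + A) * τ) := by gcongr
    have h4 : Mθ * U * ((8 + A) * τ) = Mθ * (8 + A) * (U * τ) := by ring
    linarith
  have e4 : |13 / 20 * S ^ N * ρ ^ 2 - 13 / 20 * (S ^ N * ‖x‖ ^ 2)|
      ≤ 2 * A * (16 + A) * (U * τ) := by
    have h1 : 13 / 20 * S ^ N * ρ ^ 2 - 13 / 20 * (S ^ N * ‖x‖ ^ 2)
        = 13 / 20 * S ^ N * ((ρ - ‖x‖) * (ρ + ‖x‖)) := by ring
    have h2 : |ρ - ‖x‖| ≤ A * Q ^ (N - 1) := by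
      have h3 := abs_norm_sub_norm_le v x
      have h4 : v - x = -((C i).eval q) := by rw [hv]; ring
      rw [h4, norm_neg] at h3
      exact h3.trans hCq
    have h5 : ρ + ‖x‖ ≤ (16 + A) * τ := by nlinarith
    rw [h1, abs_mul (13 / 20 * S ^ N) _, abs_mul (ρ - ‖x‖) _,
      abs_of_nonneg (by positivity : (0 : ℝ) ≤ 13 / 20 * S ^ N),
      abs_of_nonneg (by positivity : (0 : ℝ) ≤ ρ + ‖x‖)]
    calc 13 / 20 * S ^ N * (|ρ - ‖x‖| * (ρ + ‖x‖))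
        ≤ 1 * S ^ N * ((A * Q ^ (N - 1)) * ((16 + A) * τ)) := by
          gcongr
          norm_num
      _ = (S ^ N * Q ^ (N - 1)) * (A * ((16 + A) * τ)) := by ring
      _ ≤ (2 * U) * (A * ((16 + A) * τ)) := by gcongr
      _ = 2 * A * (16 + A) * (U * τ) := by ring
  have hPH : PH N C β B K κ R₀ ψ p i x q - (β * phiR B K τ + 13 / 20 * (S ^ N * ‖x‖ ^ 2))
      = (ψ i q - β * phiR B K τ) + ((cst (C i)).eval (p i q) * v).re
        + (TH N κ R₀ Q S ρ - 13 / 20 * S ^ N * ρ ^ 2)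
        + (13 / 20 * S ^ N * ρ ^ 2 - 13 / 20 * (S ^ N * ‖x‖ ^ 2)) := by
    unfold PH
    ring
  have hR : (M + A1 * (8 + A) + Mθ * (8 + A) + 2 * A * (16 + A)) / √P * (P ^ N * τ)
      = (M + A1 * (8 + A) + Mθ * (8 + A) + 2 * A * (16 + A)) * (U * τ) := by
    rw [hU]; ring
  rw [hPH, hR]
  have t1 := abs_add_le ((ψ i q - β * phiR B K τ) + ((cst (C i)).eval (p i q) * v).re
        + (TH N κ R₀ Q S ρ - 13 / 20 * S ^ N * ρ ^ 2))
        (13 / 20 * S ^ N * ρ ^ 2 - 13 / 20 * (S ^ N * ‖x‖ ^ 2))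
  have t2 := abs_add_le ((ψ i q - β * phiR B K τ) + ((cst (C i)).eval (p i q) * v).re)
        (TH N κ R₀ Q S ρ - 13 / 20 * S ^ N * ρ ^ 2)
  have t3 := abs_add_le (ψ i q - β * phiR B K τ) ((cst (C i)).eval (p i q) * v).re
  nlinarith

end Pool.Agent.H77.N2
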