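import Pool.Agent.H77.N2.Coord
import Pool.Agent.H77.N2.LocLim

/-!
Module CONEEMPTY of MP_6e521b_an (n = 2): a direction without sheets (helper60). All `g_j` have
degree `≥ N`, so `‖g_j(q)‖ ≥ c₀‖q‖^N` for large `‖q‖`, and `loc_lim` with `I = ∅` applies when
`‖x_k‖ ≤ (c₀/4)‖t_k‖`, `‖t_k‖ → ∞`.
-/

open MvPolynomial Filter Topology Pool.Agent.H77.FB Pool.Agent.H60.FB

namespace Pool.Agent.H77.N2

/-- A polynomial of degree at least `N` dominates `q^N`. -/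
lemma ce_one (N : ℕ) {P : Polynomial ℂ} (hP : P ≠ 0) (hN : N ≤ P.natDegree) :
    ∀ᶠ Q in atTop, ∀ q : ℂ, Q ≤ ‖q‖ →
      ‖P.leadingCoeff‖ / 2 * ‖q‖ ^ N ≤ ‖P.eval q‖ := by
  have hl : P.leadingCoeff ≠ 0 := Polynomial.leadingCoeff_ne_zero.2 hP
  have h0 : 0 < ‖P.leadingCoeff‖ := norm_pos_iff.2 hl
  by_contra hcon
  rw [Filter.not_eventually] at hcon
  have h1 : ∀ k : ℕ, ∃ q : ℂ, (k : ℝ) + 1 ≤ ‖q‖ ∧
      ‖P.eval q‖ < ‖P.leadingCoeff‖ / 2 * ‖q‖ ^ N := by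
    intro k
    obtain ⟨Q, hQ, hq⟩ := Filter.frequently_atTop.1 hcon ((k : ℝ) + 1)
    push Not at hq
    obtain ⟨q, hq1, hq2⟩ := hq
    exact ⟨q, hQ.trans hq1, hq2⟩
  choose q hq1 hq2 using h1
  have hq : Tendsto (fun k => ‖q k‖) atTop atTop :=
    tendsto_atTop_mono (fun k => (le_add_of_nonneg_right zero_le_one).trans (hq1 k))
      tendsto_natCast_atTop_atTop
  have h2 := (ll_lead P hq).norm.eventually (lt_mem_nhds (half_lt_self h0))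
  obtain ⟨k, hk⟩ := h2.exists
  have hk1 : 1 ≤ ‖q k‖ := by
    have := hq1 k
    have h3 : (0 : ℝ) ≤ k := Nat.cast_nonneg k
    linarith
  rw [norm_div, norm_pow, lt_div_iff₀ (by positivity)] at hk
  have h3 : ‖q k‖ ^ N ≤ ‖q k‖ ^ P.natDegree := pow_le_pow_right₀ hk1 hN
  have h4 : ‖P.leadingCoeff‖ / 2 * ‖q k‖ ^ N ≤ ‖P.leadingCoeff‖ / 2 * ‖q k‖ ^ P.natDegree :=
    mul_le_mul_of_nonneg_left h3 (by positivity)
  exact absurd (hq2 k) (not_lt.2 (h4.trans hk.le))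

/-- A common lower bound for the steep sheets. -/
lemma exists_c0 (N : ℕ) {d : ℕ} (g : Fin d → Polynomial ℂ) : ∃ c₀ : ℝ, 0 < c₀ ∧ c₀ ≤ 1 ∧
    ∀ j, N ≤ (g j).natDegree → g j ≠ 0 → ∀ᶠ Q in atTop, ∀ q : ℂ, Q ≤ ‖q‖ →
      c₀ * ‖q‖ ^ N ≤ ‖(g j).eval q‖ := by
  set c : Fin d → ℝ := fun j => ‖(g j).leadingCoeff‖ / 2 with hc
  have hc0 : ∀ j, 0 ≤ (c j)⁻¹ := fun j => by positivity
  have hs : 0 ≤ ∑ j, (c j)⁻¹ := Finset.sum_nonneg fun j _ => hc0 j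
  refine ⟨(1 + ∑ j, (c j)⁻¹)⁻¹, by positivity, inv_le_one_of_one_le₀ (by linarith), ?_⟩
  intro j hj hgj
  have hpos : 0 < c j := by
    have h1 : (g j).leadingCoeff ≠ 0 := Polynomial.leadingCoeff_ne_zero.2 hgj
    have := norm_pos_iff.2 h1
    simp only [hc]
    positivity
  have hle : (1 + ∑ j, (c j)⁻¹)⁻¹ ≤ c j := by
    rw [inv_le_comm₀ (by positivity) hpos]
    have h1 : (c j)⁻¹ ≤ ∑ j, (c j)⁻¹ := Finset.single_le_sum (f := fun j => (c j)⁻¹)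
      (fun j _ => hc0 j) (Finset.mem_univ j)
    linarith
  filter_upwards [ce_one N hgj hj] with Q hQ q hq
  exact (mul_le_mul_of_nonneg_right hle (by positivity)).trans (hQ q hq)

theorem empty_far {F : MvPolynomial (Fin 2) ℂ} {N d : ℕ} {g : Fin d → Polynomial ℂ}
    {ε : Fin d → ℂ → ℂ} {a : Polynomial ℂ} {R C : ℝ} (h : Pui F N d g ε a R C)
    (hJ : ∀ j, N ≤ (g j).natDegree) :
    ∃ η : ℝ, 0 < η ∧ η ≤ 1 ∧ ∀ (𝒰 : Ultrafilter ℕ) (x t : ℕ → ℂ),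
      Tendsto (fun k => ‖t k‖) 𝒰 atTop → (∀ᶠ k in (𝒰 : Filter ℕ), ‖x k‖ ≤ η * ‖t k‖) →
      ∃ (ν : ℕ → ℂ) (c : ℝ), 0 < c ∧ (∀ᶠ k in (𝒰 : Filter ℕ), c ≤ ‖ν k‖) ∧
        ∀ wx wt : ℂ, Tendsto (fun k => eval ![x k + wx, t k + wt] F / ν k) 𝒰 (𝓝 1) := by
  have hN := h.hN
  obtain ⟨c₀, hc0, hc1, hg⟩ := exists_c0 N g
  refine ⟨c₀ / 4, by positivity, by linarith, fun 𝒰 x t ht hx => ?_⟩
  have hroot : ∀ k, ∃ q : ℂ, q ^ N = t k := fun k => IsAlgClosed.exists_pow_nat_eq (t k) (by omega)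
  choose q hq using hroot
  have hnorm : ∀ k, ‖q k‖ ^ N = ‖t k‖ := fun k => by rw [← norm_pow, hq]
  have hqn : Tendsto (fun k => ‖q k‖) 𝒰 atTop := by
    rw [tendsto_atTop]
    intro b
    filter_upwards [ht.eventually_ge_atTop ((|b| + 1) ^ N)] with k hk
    rw [← hnorm] at hk
    have h1 : |b| + 1 ≤ ‖q k‖ :=
      (pow_le_pow_iff_left₀ (by positivity) (norm_nonneg _) (by omega)).1 hk
    have := le_abs_self b
    linarith
  have hgj : ∀ j, g j ≠ 0 := by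
    intro j h0
    have := hJ j
    rw [h0, Polynomial.natDegree_zero] at this
    omega
  have hlow : ∀ j, ∀ᶠ k in (𝒰 : Filter ℕ), c₀ * ‖t k‖ ≤ ‖(g j).eval (q k)‖ := by
    intro j
    obtain ⟨Q, hQ⟩ := (hg j (hJ j) (hgj j)).exists
    filter_upwards [hqn.eventually_ge_atTop Q] with k hk
    rw [← hnorm]
    exact hQ _ hk
  have hdiff : ∀ j, ∀ᶠ k in (𝒰 : Filter ℕ),
      3 / 4 * ‖(g j).eval (q k)‖ ≤ ‖x k - (g j).eval (q k)‖ := by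
    intro j
    filter_upwards [hlow j, hx] with k hk hxk
    have h1 : ‖(g j).eval (q k)‖ ≤ ‖x k - (g j).eval (q k)‖ + ‖x k‖ := by
      have := norm_sub_le (x k) (x k - (g j).eval (q k))
      rw [sub_sub_cancel] at this
      linarith
    linarith
  have hinf : ∀ i, Tendsto (fun k => ‖x k - (g i).eval (q k)‖) 𝒰 atTop := by
    intro i
    rw [tendsto_atTop]
    intro b
    have hb : ∀ᶠ k in (𝒰 : Filter ℕ), b ≤ 3 / 4 * (c₀ * ‖t k‖) := by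
      filter_upwards [ht.eventually_ge_atTop (b / (3 / 4 * c₀))] with k hk
      rw [div_le_iff₀ (by positivity)] at hk
      linarith
    filter_upwards [hb, hlow i, hdiff i] with k hk1 hk2 hk3
    linarith
  obtain ⟨ν, c, hc, hν, hlim⟩ := loc_lim h 𝒰 x q hqn ∅ (fun _ => 0)
    (fun i hi => absurd hi (Finset.notMem_empty i))
    (fun i _ => ⟨hinf i, Or.inr ⟨3 / 4, by norm_num, hdiff i⟩⟩)
  refine ⟨ν, c, hc, hν, fun wx wt => ?_⟩
  have h1 := hlim wx wt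
  simp only [hq, Finset.prod_empty] at h1
  exact h1

end Pool.Agent.H77.N2
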