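import Pool.Agent.H77.N2.Coord
import Pool.Agent.H77.N2.LocLim
import Pool.Agent.H77.N2.InjP

/-!
Module CONEGOOD of MP_6e521b_an (n = 2): the limits at the selected points form a good pair
(Coord is proved; LocLim and InjP are black boxes).

Data: a Puiseux factorisation of `F = Pe e P`; `J = {j : deg g_j < N}`; `i ∈ J`;
sequences `x, q, X, pT` with `‖q_k‖, ‖pT_k‖ → ∞`. Put `Cc j = g j - C ((g j).coeff 0)`, `a_j = (g j).coeff 0`.
P* side. Apply `loc_lim` to the sequences `x'_k = conj X_k`, `q'_k = conj pT_k`: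
  `x'_k - g_j(q'_k) = conj (X_k - (cst (g j))(pT_k)) = conj (X_k - (cst (Cc j))(pT_k) - conj a_j)`.
  For `j ∉ J`: `‖g_j(q)‖ ≥ c₀‖q‖^N` for large `‖q‖` and `‖X‖ ≤ (c₀/4)‖T‖`, `‖T‖ = ‖pT‖^N`, so
  `‖x'_k - g_j(q'_k)‖ ≥ ‖g_j(q'_k)‖/2 → ∞`.
  For `j ∈ J` with `Cc j ≠ Cc i`: `‖X - (cst (Cc j))(pT)‖ → ∞` (hypothesis).
  For `j ∈ J` with `Cc j = Cc i`: `Z_k := X_k - (cst (Cc i))(pT_k)`.
Case A: `‖v_k‖ → ∞`, `v_k = x_k - (Cc i)(q_k)`: then `Λ‖v‖ ≥ c' min(‖v‖, R₀) → ∞`, and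
  `‖Z_k‖ ≥ (1 - M'/ϖ)Λ‖v‖ → ∞`: `loc_lim` with `I = ∅` gives `eval (Y+W)(star' P)/μ → 1`
  (`eval_star_add`, continuity of conjugation, `μ_k = conj ν_k`), `q = 1`; `exists_nu` for the P side and
  `injPair_far`.
Case B: `‖v_k‖` bounded along the ultrafilter: `v_k → v`, `Λ_k → Λ∞` (both in compact sets), so
  `Z_k → z∞ := Λ∞ conj v` (`M'/ϖ → 0`). `loc_lim` with `I = {j ∈ J : Cc j = Cc i}` and limits
  `conj (z∞ - conj a_j)`; and on the P side `x_k - g_j(q_k) = v_k - a_j → v - a_j` for `j ∈ I`; for `j ∈ J`,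
  `Cc j ≠ Cc i`: `‖x_k - g_j(q_k)‖ ≥ ‖(Cc i - Cc j)(q_k)‖ - ‖v_k‖ - ‖a_j‖ → ∞` (nonconstant polynomial: it
  has no constant term and is nonzero); for `j ∉ J`: `‖x_k‖ ≤ (c₀/4)‖q_k‖^N`. `injPair_block` with
  `a_j`, `v`, `c = z∞`: `eval w p = ∏ (xc e w + v - a_j)`, `eval W q = ∏ (Xc e W + z∞ - conj a_j)`.
(An ultrafilter is either eventually in `{‖v_k‖ ≤ n}` for some `n`, or `‖v_k‖ → ∞` along it.)
-/

open MvPolynomial Filter Topology Pool.Agent.H77.FB Pool.Agent.H60.FB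

namespace Pool.Agent.H77.N2

/-- the polynomial without its constant term -/
noncomputable def cgC (g : Polynomial ℂ) : Polynomial ℂ := g - Polynomial.C (g.coeff 0)

lemma cgC_eval (g : Polynomial ℂ) (z : ℂ) : g.eval z = (cgC g).eval z + g.coeff 0 := by
  unfold cgC
  simp

lemma cg_cst_eval (g : Polynomial ℂ) (z : ℂ) :
    (cst g).eval z = (starRingEnd ℂ) (g.eval ((starRingEnd ℂ) z)) := by
  unfold cst
  rw [Polynomial.eval_map, Polynomial.eval₂_eq_sum, Polynomial.eval_eq_sum, Polynomial.sum,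
    Polynomial.sum, map_sum]
  refine Finset.sum_congr rfl (fun j _ => ?_)
  rw [map_mul, map_pow, Complex.conj_conj]

/-- the second side in terms of the first -/
lemma cg_conj (g : Polynomial ℂ) (X z : ℂ) :
    (starRingEnd ℂ) X - g.eval ((starRingEnd ℂ) z)
      = (starRingEnd ℂ) (X - (cst (cgC g)).eval z) - g.coeff 0 := by
  rw [map_sub, cg_cst_eval, Complex.conj_conj, cgC_eval g]
  ring

lemma cg_big {N : ℕ} (hN : 1 ≤ N) {g : Polynomial ℂ} {c₀ : ℝ} (hc₀ : 0 < c₀)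
    (hbig : ∀ᶠ Q in atTop, ∀ q : ℂ, Q ≤ ‖q‖ → c₀ * ‖q‖ ^ N ≤ ‖g.eval q‖)
    {l : Filter ℕ} {y z : ℕ → ℂ} (hz : Tendsto (fun k => ‖z k‖) l atTop)
    (hy : ∀ k, ‖y k‖ ≤ c₀ / 4 * ‖z k‖ ^ N) :
    Tendsto (fun k => ‖y k - g.eval (z k)‖) l atTop ∧ ∃ c : ℝ, 0 < c ∧ ∀ᶠ k in l,
        c * ‖g.eval (z k)‖ ≤ ‖y k - g.eval (z k)‖ := by
  obtain ⟨Q, hQ⟩ := hbig.exists
  have h1 : ∀ᶠ k in l, c₀ * ‖z k‖ ^ N ≤ ‖g.eval (z k)‖ :=
    (hz.eventually_ge_atTop Q).mono (fun k hk => hQ _ hk)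
  have h2 : ∀ k, ‖g.eval (z k)‖ - ‖y k‖ ≤ ‖y k - g.eval (z k)‖ := fun k => by
    rw [norm_sub_rev]
    exact norm_sub_norm_le _ _
  refine ⟨?_, 1 / 2, by norm_num, ?_⟩
  · have h3 : Tendsto (fun k => c₀ / 2 * ‖z k ^ N‖) l atTop :=
      (ll_pow_norm hz hN).const_mul_atTop (by positivity)
    refine tendsto_atTop_mono' l (h1.mono (fun k hk => ?_)) h3
    have h4 := h2 k
    have h5 := hy k
    rw [norm_pow]
    have h6 : 0 ≤ c₀ * ‖z k‖ ^ N := by positivity
    linarith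
  · refine h1.mono (fun k hk => ?_)
    have h4 := h2 k
    have h5 := hy k
    have h6 : 0 ≤ c₀ * ‖z k‖ ^ N := by positivity
    linarith

lemma cg_shift {l : Filter ℕ} {f : ℕ → ℂ} (a : ℂ) (hf : Tendsto (fun k => ‖f k‖) l atTop) :
    Tendsto (fun k => ‖f k - a‖) l atTop := by
  refine tendsto_atTop_mono (fun k => norm_sub_norm_le (f k) a) ?_
  exact tendsto_atTop_add_const_right l (-‖a‖) hf

theorem cone_good {P : MvPolynomial (Fin 2) ℂ} (hP : P ≠ 0) {e : Fin 2 → ℂ}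
    (he : Pool.Agent.H60.FB.sq e = 1) {N d : ℕ} {g : Fin d → Polynomial ℂ} {ε : Fin d → ℂ → ℂ}
    {a : Polynomial ℂ} {R C₁ : ℝ} (h : Pui (Pe e P) N d g ε a R C₁) (i : Fin d)
    (hi : (g i).natDegree < N) {c₀ : ℝ} (hc₀ : 0 < c₀)
    (hbig : ∀ j, N ≤ (g j).natDegree → ∀ᶠ Q in atTop, ∀ q : ℂ, Q ≤ ‖q‖ →
      c₀ * ‖q‖ ^ N ≤ ‖(g j).eval q‖)
    (𝒰 : Ultrafilter ℕ) (x q X pT : ℕ → ℂ) (ϖ R₀ Λ : ℕ → ℝ) {M' c' : ℝ} (hc' : 0 < c')
    (hq : Tendsto (fun k => ‖q k‖) 𝒰 atTop) (hR₀ : Tendsto R₀ 𝒰 atTop)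
    (hϖ : ∀ k, R₀ k ≤ ϖ k) (hpT : ∀ k, ϖ k / 2 ≤ ‖pT k‖)
    (hx : ∀ k, ‖x k‖ ≤ c₀ / 4 * ‖q k‖ ^ N) (hX : ∀ k, ‖X k‖ ≤ c₀ / 4 * ‖pT k‖ ^ N)
    (hΛ : ∀ k, 0 ≤ Λ k ∧ Λ k ≤ 2)
    (hlow : ∀ k, c' * min ‖x k - (g i - Polynomial.C ((g i).coeff 0)).eval (q k)‖ (R₀ k)
      ≤ Λ k * ‖x k - (g i - Polynomial.C ((g i).coeff 0)).eval (q k)‖)
    (hclose : ∀ k, ‖X k - (cst (g i - Polynomial.C ((g i).coeff 0))).eval (pT k)
        - Λ k * (starRingEnd ℂ) (x k - (g i - Polynomial.C ((g i).coeff 0)).eval (q k))‖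
      ≤ M' / ϖ k * (Λ k * ‖x k - (g i - Polynomial.C ((g i).coeff 0)).eval (q k)‖))
    (hfar : ∀ j, (g j).natDegree < N →
      g j - Polynomial.C ((g j).coeff 0) ≠ g i - Polynomial.C ((g i).coeff 0) → ∀ k,
      c' * ϖ k ≤ ‖X k - (cst (g j - Polynomial.C ((g j).coeff 0))).eval (pT k)‖) :
    GoodSeq P 𝒰 (fun k => pt e (x k) (q k ^ N)) (fun k => fr e (X k) (pT k ^ N)) := by
  classical
  have hN := h.hN
  change ∀ k, c' * min ‖x k - (cgC (g i)).eval (q k)‖ (R₀ k)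
      ≤ Λ k * ‖x k - (cgC (g i)).eval (q k)‖ at hlow
  change ∀ k, ‖X k - (cst (cgC (g i))).eval (pT k)
        - Λ k * (starRingEnd ℂ) (x k - (cgC (g i)).eval (q k))‖
      ≤ M' / ϖ k * (Λ k * ‖x k - (cgC (g i)).eval (q k)‖) at hclose
  change ∀ j, (g j).natDegree < N → cgC (g j) ≠ cgC (g i) → ∀ k,
      c' * ϖ k ≤ ‖X k - (cst (cgC (g j))).eval (pT k)‖ at hfar
  set v : ℕ → ℂ := fun k => x k - (cgC (g i)).eval (q k) with hv
  set Z : ℕ → ℂ := fun k => X k - (cst (cgC (g i))).eval (pT k) with hZ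
  set x' : ℕ → ℂ := fun k => (starRingEnd ℂ) (X k) with hx'
  set q' : ℕ → ℂ := fun k => (starRingEnd ℂ) (pT k) with hq'
  have hϖ1 : Tendsto ϖ 𝒰 atTop := tendsto_atTop_mono hϖ hR₀
  have hpT1 : Tendsto (fun k => ‖pT k‖) 𝒰 atTop :=
    tendsto_atTop_mono hpT (hϖ1.atTop_div_const (by norm_num))
  have hq'1 : Tendsto (fun k => ‖q' k‖) 𝒰 atTop := by
    simp only [hq', RCLike.norm_conj]
    exact hpT1
  have hx'b : ∀ k, ‖x' k‖ ≤ c₀ / 4 * ‖q' k‖ ^ N := by
    intro k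
    simp only [hx', hq', RCLike.norm_conj]
    exact hX k
  have hsmall : Tendsto (fun k => |M' / ϖ k|) 𝒰 (𝓝 0) := by
    have h1 := (hϖ1.const_div_atTop M').abs
    rwa [abs_zero] at h1
  -- the second side
  have hZ' : ∀ j, ∀ k, x' k - (g j).eval (q' k)
      = (starRingEnd ℂ) (X k - (cst (cgC (g j))).eval (pT k)) - (g j).coeff 0 :=
    fun j k => cg_conj (g j) (X k) (pT k)
  have hfar' : ∀ j, (g j).natDegree < N → cgC (g j) ≠ cgC (g i) →
      Tendsto (fun k => ‖x' k - (g j).eval (q' k)‖) 𝒰 atTop := by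
    intro j hj hne
    simp only [hZ']
    refine cg_shift _ ?_
    simp only [RCLike.norm_conj]
    exact tendsto_atTop_mono (fun k => hfar j hj hne k) (hϖ1.const_mul_atTop hc')
  -- transfer of the second side
  have hstar : ∀ (ν : ℕ → ℂ) (L : ℂ → ℂ),
      (∀ wx wt : ℂ, Tendsto (fun k => eval ![x' k + wx, q' k ^ N + wt] (Pe e P) / ν k) 𝒰
        (𝓝 (L wx))) → ∀ W : Fin 2 → ℂ,
      Tendsto (fun k => eval (fr e (X k) (pT k ^ N) + W) (star' P) / (starRingEnd ℂ) (ν k)) 𝒰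
        (𝓝 ((starRingEnd ℂ) (L ((starRingEnd ℂ) (Xc e W))))) := by
    intro ν L hL W
    have h1 := hL ((starRingEnd ℂ) (Xc e W)) ((starRingEnd ℂ) (Tc e W))
    have h2 := (Complex.continuous_conj.tendsto _).comp h1
    refine h2.congr (fun k => ?_)
    rw [eval_star_add he]
    simp only [Function.comp_apply, map_div₀, hx', hq', map_pow]
  by_cases hcase : Tendsto (fun k => ‖v k‖) 𝒰 atTop
  · -- case A
    obtain ⟨p, ν, c, hp0, hc, hνc, hlim⟩ := exists_nu P hP 𝒰 (fun k => pt e (x k) (q k ^ N))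
    have hZinf : Tendsto (fun k => ‖Z k‖) 𝒰 atTop := by
      have h1 : Tendsto (fun k => min ‖v k‖ (R₀ k)) 𝒰 atTop := by
        rw [tendsto_atTop]
        intro b
        filter_upwards [hcase.eventually_ge_atTop b, hR₀.eventually_ge_atTop b] with k h2 h3
        exact le_min h2 h3
      have h2 : Tendsto (fun k => c' / 2 * min ‖v k‖ (R₀ k)) 𝒰 atTop :=
        h1.const_mul_atTop (by positivity)
      refine tendsto_atTop_mono' _ ?_ h2
      have h3 : ∀ᶠ k in (𝒰 : Filter ℕ), |M' / ϖ k| < 1 / 2 :=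
        hsmall.eventually (gt_mem_nhds (by norm_num))
      filter_upwards [h3] with k hk
      have h4 := hclose k
      have h5 := hlow k
      have h6 : 0 ≤ Λ k * ‖v k‖ := mul_nonneg (hΛ k).1 (norm_nonneg _)
      have h7 : M' / ϖ k * (Λ k * ‖v k‖) ≤ 1 / 2 * (Λ k * ‖v k‖) :=
        mul_le_mul_of_nonneg_right ((le_abs_self _).trans hk.le) h6
      have h8 : ‖(Λ k : ℂ) * (starRingEnd ℂ) (v k)‖ = Λ k * ‖v k‖ := by
        rw [norm_mul, RCLike.norm_conj, Complex.norm_real, Real.norm_of_nonneg (hΛ k).1]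
      have h9 : ‖(Λ k : ℂ) * (starRingEnd ℂ) (v k)‖ ≤ ‖Z k‖ +
          ‖Z k - Λ k * (starRingEnd ℂ) (v k)‖ := by
        have e1 : (Λ k : ℂ) * (starRingEnd ℂ) (v k)
            = Z k - (Z k - Λ k * (starRingEnd ℂ) (v k)) := by ring
        conv_lhs => rw [e1]
        exact norm_sub_le _ _
      rw [h8] at h9
      have h10 : ‖Z k - Λ k * (starRingEnd ℂ) (v k)‖ ≤ 1 / 2 * (Λ k * ‖v k‖) := h4.trans h7
      linarith
    obtain ⟨ν', c2, hc2, hν', hl'⟩ := loc_lim h 𝒰 x' q' hq'1 ∅ (fun _ => 0)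
      (fun j hj => absurd hj (Finset.notMem_empty j)) (by
        intro j _
        by_cases hj : (g j).natDegree < N
        · refine ⟨?_, Or.inl hj⟩
          by_cases hne : cgC (g j) = cgC (g i)
          · simp only [hZ', hne]
            refine cg_shift _ ?_
            simp only [RCLike.norm_conj]
            exact hZinf
          · exact hfar' j hj hne
        · obtain ⟨h1, h2⟩ := cg_big hN hc₀ (hbig j (not_lt.1 hj)) hq'1 hx'b
          exact ⟨h1, Or.inr h2⟩)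
    refine ⟨p, 1, ν, fun k => (starRingEnd ℂ) (ν' k), min c c2, lt_min hc hc2, ?_, hlim, ?_,
      injPair_far p hp0⟩
    · filter_upwards [hν'] with k hk
      rw [RCLike.norm_conj]
      exact ⟨(min_le_left _ _).trans (hνc k), (min_le_right _ _).trans hk⟩
    · intro W
      have h1 := hstar ν' (fun wx => ∏ j ∈ (∅ : Finset (Fin d)), (wx + 0)) hl' W
      simpa using h1
  · -- case B
    obtain ⟨b, hb⟩ : ∃ b : ℝ, ∀ᶠ k in (𝒰 : Filter ℕ), ‖v k‖ ≤ b := by
      rw [tendsto_atTop] at hcase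
      push Not at hcase
      obtain ⟨b, hb⟩ := hcase
      exact ⟨b, hb.mono (fun k hk => hk.le)⟩
    obtain ⟨v₀, -, hv₀⟩ := (isCompact_closedBall (0 : ℂ) b).ultrafilter_le_nhds (𝒰.map v)
      (by
        rw [Ultrafilter.coe_map]
        refine Filter.le_principal_iff.2 ?_
        exact hb.mono (fun k hk => mem_closedBall_zero_iff.2 hk))
    have hv0 : Tendsto v 𝒰 (𝓝 v₀) := hv₀
    obtain ⟨Λ₀, -, hΛ₀⟩ := (isCompact_Icc (a := (0 : ℝ)) (b := 2)).ultrafilter_le_nhds (𝒰.map Λ)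
      (by
        rw [Ultrafilter.coe_map]
        refine Filter.le_principal_iff.2 ?_
        exact Filter.Eventually.of_forall (f := (𝒰 : Filter ℕ)) (fun k => hΛ k))
    have hΛ0 : Tendsto Λ 𝒰 (𝓝 Λ₀) := hΛ₀
    set z₀ : ℂ := (Λ₀ : ℂ) * (starRingEnd ℂ) v₀ with hz₀
    have hZlim : Tendsto Z 𝒰 (𝓝 z₀) := by
      have h1 : Tendsto (fun k => (Λ k : ℂ) * (starRingEnd ℂ) (v k)) 𝒰 (𝓝 z₀) :=
        ((Complex.continuous_ofReal.tendsto _).comp hΛ0).mul
          ((Complex.continuous_conj.tendsto _).comp hv0)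
      have h2 : Tendsto (fun k => Z k - Λ k * (starRingEnd ℂ) (v k)) 𝒰 (𝓝 0) := by
        rw [tendsto_zero_iff_norm_tendsto_zero]
        have h3 := hsmall.mul_const (2 * |b|)
        rw [zero_mul] at h3
        refine squeeze_zero' (Eventually.of_forall (fun k => norm_nonneg _)) ?_ h3
        filter_upwards [hb] with k hk
        refine (hclose k).trans ?_
        have h4 : 0 ≤ Λ k * ‖v k‖ := mul_nonneg (hΛ k).1 (norm_nonneg _)
        have h5 : Λ k * ‖v k‖ ≤ 2 * |b| :=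
          mul_le_mul (hΛ k).2 (hk.trans (le_abs_self b)) (norm_nonneg _) (by norm_num)
        calc M' / ϖ k * (Λ k * ‖v k‖) ≤ |M' / ϖ k| * (Λ k * ‖v k‖) :=
              mul_le_mul_of_nonneg_right (le_abs_self _) h4
          _ ≤ |M' / ϖ k| * (2 * |b|) := mul_le_mul_of_nonneg_left h5 (abs_nonneg _)
      have h3 := h2.add h1
      rw [zero_add] at h3
      exact h3.congr (fun k => by ring)
    set I : Finset (Fin d) := Finset.univ.filter
      (fun j => (g j).natDegree < N ∧ cgC (g j) = cgC (g i)) with hI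
    have memI : ∀ j, j ∈ I ↔ (g j).natDegree < N ∧ cgC (g j) = cgC (g i) := by
      intro j
      rw [hI, Finset.mem_filter]
      simp
    obtain ⟨ν, c, hc, hνc, hlim⟩ := loc_lim h 𝒰 x q hq I (fun j => v₀ - (g j).coeff 0) (by
        intro j hj
        obtain ⟨h1, h2⟩ := (memI j).1 hj
        refine ⟨h1, ?_⟩
        refine (hv0.sub_const ((g j).coeff 0)).congr (fun k => ?_)
        rw [cgC_eval (g j), h2]
        simp only [hv]
        ring) (by
        intro j hj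
        by_cases hd : (g j).natDegree < N
        · refine ⟨?_, Or.inl hd⟩
          have hne : cgC (g j) ≠ cgC (g i) := fun h1 => hj ((memI j).2 ⟨hd, h1⟩)
          have hD : cgC (g i) - cgC (g j) ≠ 0 := sub_ne_zero.2 (Ne.symm hne)
          have hdeg : 0 < (cgC (g i) - cgC (g j)).degree := by
            rw [← Polynomial.natDegree_pos_iff_degree_pos]
            by_contra hcon
            have h1 : (cgC (g i) - cgC (g j)).natDegree = 0 := by omega
            have h2 := Polynomial.eq_C_of_natDegree_eq_zero h1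
            have h3 : (cgC (g i) - cgC (g j)).coeff 0 = 0 := by
              unfold cgC
              simp
            rw [h3, map_zero] at h2
            exact hD h2
          have h1 := Polynomial.tendsto_norm_atTop _ hdeg hq
          have h2 : Tendsto (fun k => ‖(cgC (g i) - cgC (g j)).eval (q k)‖ - (b + ‖(g j).coeff 0‖))
              𝒰 atTop := tendsto_atTop_add_const_right _ (-(b + ‖(g j).coeff 0‖)) h1
          refine tendsto_atTop_mono' _ ?_ h2
          filter_upwards [hb] with k hk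
          have e1 : x k - (g j).eval (q k)
              = (cgC (g i) - cgC (g j)).eval (q k) - ((g j).coeff 0 - v k) := by
            rw [cgC_eval (g j), Polynomial.eval_sub]
            simp only [hv]
            ring
          rw [e1]
          have h3 := norm_sub_norm_le ((cgC (g i) - cgC (g j)).eval (q k)) ((g j).coeff 0 - v k)
          have h4 := norm_sub_le ((g j).coeff 0) (v k)
          linarith
        · obtain ⟨h1, h2⟩ := cg_big hN hc₀ (hbig j (not_lt.1 hd)) hq hx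
          exact ⟨h1, Or.inr h2⟩)
    obtain ⟨ν', c2, hc2, hν', hl'⟩ := loc_lim h 𝒰 x' q' hq'1 I
      (fun j => (starRingEnd ℂ) z₀ - (g j).coeff 0) (by
        intro j hj
        obtain ⟨h1, h2⟩ := (memI j).1 hj
        refine ⟨h1, ?_⟩
        refine (((Complex.continuous_conj.tendsto _).comp hZlim).sub_const
          ((g j).coeff 0)).congr (fun k => ?_)
        rw [hZ' j k, h2]
        rfl) (by
        intro j hj
        by_cases hd : (g j).natDegree < N
        · exact ⟨hfar' j hd (fun h1 => hj ((memI j).2 ⟨hd, h1⟩)), Or.inl hd⟩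
        · obtain ⟨h1, h2⟩ := cg_big hN hc₀ (hbig j (not_lt.1 hd)) hq'1 hx'b
          exact ⟨h1, Or.inr h2⟩)
    refine ⟨_, _, ν, fun k => (starRingEnd ℂ) (ν' k), min c c2, lt_min hc hc2, ?_, ?_, ?_,
      injPair_block e he (fun j => (g j).coeff 0) I v₀ z₀⟩
    · filter_upwards [hνc, hν'] with k hk hk'
      rw [RCLike.norm_conj]
      exact ⟨(min_le_left _ _).trans hk, (min_le_right _ _).trans hk'⟩
    · intro w
      have h1 := hlim (xc e w) (tc e w)
      have e1 : eval w (∏ j ∈ I, (C (e 0) * MvPolynomial.X 1 - C (e 1) * MvPolynomial.X 0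
          + C (v₀ - (g j).coeff 0))) = ∏ j ∈ I, (xc e w + (v₀ - (g j).coeff 0)) := by
        rw [map_prod]
        refine Finset.prod_congr rfl (fun j _ => ?_)
        simp [xc]
      rw [e1]
      refine h1.congr (fun k => ?_)
      rw [eval_add_coord he, xc_pt he, tc_pt he]
    · intro W
      have h1 := hstar ν' (fun wx => ∏ j ∈ I, (wx + ((starRingEnd ℂ) z₀ - (g j).coeff 0))) hl' W
      have e1 : eval W (∏ j ∈ I, (C ((starRingEnd ℂ) (e 0)) * MvPolynomial.X 1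
          - C ((starRingEnd ℂ) (e 1)) * MvPolynomial.X 0
          + C (z₀ - (starRingEnd ℂ) ((g j).coeff 0))))
          = (starRingEnd ℂ) (∏ j ∈ I, ((starRingEnd ℂ) (Xc e W)
            + ((starRingEnd ℂ) z₀ - (g j).coeff 0))) := by
        rw [map_prod, map_prod]
        refine Finset.prod_congr rfl (fun j _ => ?_)
        simp [Xc]
      rw [e1]
      exact h1

end Pool.Agent.H77.N2
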