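import Pool.Agent.H77.N2.Defs

/-!
Module ENERGY of MP_6e521b_an (n = 2): comparison of the states of two sheets, at a fixed `q`.
This is pure algebra with inequalities. `c, d` are the coefficients of the two polynomials, equal
above `l`. Write `Q = ‖q‖`, `O(E)` for a quantity bounded by a constant (depending on `N, Γ, M`)
times `E = π^(l-1) Q^l`. Always `1 ≤ π ≤ 2Q`.

1. `‖p k - p (l+1)‖ π^(N-1) Q ≤ N M π^l` for `1 ≤ k ≤ l+1`, the same for `p'`, and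
   `p (l+1) = p' (l+1) =: P`. Also `‖p k - p N‖ ≤ N M / Q`, so `‖p k‖ ≤ (1 + N M) π` and
   `‖P q - π Q‖ ≤ N M`.
2. Let `U(z) = Σ_{a>l} conj(c_a) z^a` (common part). `‖U(p k) - U(P)‖ ≤ C π^(l-1)` for `k ≤ l + 1`.
3. `side`: `Ψ 1 - Ψ (l+1) = Σ_{k ≤ l} Re(U(P) c_k q^k) + ‖c_l‖²/2 Re (P q)^l + O(E)`.
4. `prod_part`: `(Σ_a conj(d_a) (p' 1)^a) (Σ_{b ≤ l} (c_b - d_b) q^b)
   = Σ_{b ≤ l} U(P) (c_b - d_b) q^b + conj(d_l) (c_l - d_l) (P q)^l + O(E)`.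
5. Subtract.
-/

open Finset

namespace Pool.Agent.H77.N2

namespace En

lemma pow_sub_pow_le {x y : ℂ} {B : ℝ} (hx : ‖x‖ ≤ B) (hy : ‖y‖ ≤ B) (a : ℕ) :
    ‖x ^ a - y ^ a‖ ≤ a * B ^ (a - 1) * ‖x - y‖ := by
  have hB : 0 ≤ B := (norm_nonneg _).trans hx
  induction a with
  | zero => simp
  | succ n ih =>
    have e : x ^ (n + 1) - y ^ (n + 1) = x ^ n * (x - y) + (x ^ n - y ^ n) * y := by ring
    rw [e, Nat.add_sub_cancel]
    refine (norm_add_le _ _).trans ?_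
    rw [norm_mul, norm_mul, norm_pow]
    have h1 : ‖x‖ ^ n * ‖x - y‖ ≤ B ^ n * ‖x - y‖ :=
      mul_le_mul_of_nonneg_right (pow_le_pow_left₀ (norm_nonneg _) hx n) (norm_nonneg _)
    have h2 : ‖x ^ n - y ^ n‖ * ‖y‖ ≤ n * B ^ n * ‖x - y‖ := by
      rcases Nat.eq_zero_or_pos n with h0 | h0
      · subst h0; simp
      · calc ‖x ^ n - y ^ n‖ * ‖y‖ ≤ (n * B ^ (n - 1) * ‖x - y‖) * B :=
              mul_le_mul ih hy (norm_nonneg _) (by positivity)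
          _ = n * (B ^ (n - 1) * B) * ‖x - y‖ := by ring
          _ = n * B ^ n * ‖x - y‖ := by rw [← pow_succ, Nat.sub_add_cancel h0]
    push_cast
    linarith

lemma norm_sum_Ico_le {N m n : ℕ} (hn : n ≤ N) (f : ℕ → ℂ) {B : ℝ} (hB : 0 ≤ B)
    (h : ∀ a ∈ Ico m n, ‖f a‖ ≤ B) : ‖∑ a ∈ Ico m n, f a‖ ≤ N * B := by
  calc ‖∑ a ∈ Ico m n, f a‖ ≤ ∑ a ∈ Ico m n, B := norm_sum_le_of_le _ h
    _ = ((n - m : ℕ) : ℝ) * B := by rw [sum_const, Nat.card_Ico, nsmul_eq_mul]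
    _ ≤ N * B := by
      refine mul_le_mul_of_nonneg_right ?_ hB
      exact_mod_cast (Nat.sub_le n m).trans hn

lemma tel {N : ℕ} {M π Q : ℝ} (hM : 0 < M) (hπ : 1 ≤ π) {p : ℕ → ℂ}
    (hs : ∀ k, 1 ≤ k → k < N → ‖p k - p (k + 1)‖ * (π ^ (N - 1) * Q) ≤ M * π ^ k) (hQ : 0 ≤ Q)
    {k m : ℕ} (hk : 1 ≤ k) (hkm : k ≤ m) (hm : m ≤ N) :
    ‖p k - p m‖ * (π ^ (N - 1) * Q) ≤ N * M * π ^ (m - 1) := by
  have hW : 0 ≤ π ^ (N - 1) * Q := by positivity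
  have key : ∀ j, k ≤ j → j ≤ m →
      ‖p k - p j‖ * (π ^ (N - 1) * Q) ≤ ((j - k : ℕ) : ℝ) * (M * π ^ (m - 1)) := by
    intro j hj
    induction j, hj using Nat.le_induction with
    | base => intro _; simp
    | succ j hj ih =>
      intro hjm
      have h1 := ih (by omega)
      have h2 := hs j (by omega) (by omega)
      have h3 : π ^ j ≤ π ^ (m - 1) := pow_le_pow_right₀ hπ (by omega)
      have h4 : ‖p k - p (j + 1)‖ ≤ ‖p k - p j‖ + ‖p j - p (j + 1)‖ := norm_sub_le_norm_sub_add_norm_sub _ _ _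
      have h5 : ((j + 1 - k : ℕ) : ℝ) = ((j - k : ℕ) : ℝ) + 1 := by
        have : j + 1 - k = (j - k) + 1 := by omega
        rw [this]; push_cast; ring
      rw [h5]
      have h6 := mul_le_mul_of_nonneg_right h4 hW
      have h7 := mul_le_mul_of_nonneg_left h3 hM.le
      nlinarith
  refine (key m hkm le_rfl).trans ?_
  have h1 : ((m - k : ℕ) : ℝ) ≤ N := by exact_mod_cast (Nat.sub_le m k).trans hm
  have h2 : 0 ≤ M * π ^ (m - 1) := by positivity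
  calc ((m - k : ℕ) : ℝ) * (M * π ^ (m - 1)) ≤ N * (M * π ^ (m - 1)) :=
        mul_le_mul_of_nonneg_right h1 h2
    _ = _ := by ring

/-- The hypotheses on one side. -/
structure Sd (N l : ℕ) (M Γ : ℝ) (c : ℕ → ℂ) (q : ℂ) (π : ℝ) (p : ℕ → ℂ) (Ψ : ℕ → ℝ) : Prop where
  hM : 0 < M
  hΓ : 0 < Γ
  l1 : 1 ≤ l
  lN : l < N
  cb : ∀ a, ‖c a‖ ≤ Γ
  hq : 1 ≤ ‖q‖
  hπ : 1 ≤ π
  hπq : π ≤ 2 * ‖q‖
  top : p N * q = (π * ‖q‖ : ℝ)
  st : ∀ k, 1 ≤ k → k < N → ‖p k - p (k + 1)‖ * (π ^ (N - 1) * ‖q‖) ≤ M * π ^ k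
  rc : ∀ k, 1 ≤ k → k < N → Ψ k = Ψ (k + 1)
      + ((∑ a ∈ Ico (k + 1) N, (starRingEnd ℂ) (c a) * p (k + 1) ^ a) * (c k * q ^ k)).re
      + ‖c k‖ ^ 2 / 2 * ((p (k + 1) * q) ^ k).re

/-- The common part. -/
noncomputable def UU (N l : ℕ) (c : ℕ → ℂ) (z : ℂ) : ℂ :=
  ∑ a ∈ Ico (l + 1) N, (starRingEnd ℂ) (c a) * z ^ a

section side

variable {N l : ℕ} {M Γ : ℝ} {c : ℕ → ℂ} {q : ℂ} {π : ℝ} {p : ℕ → ℂ} {Ψ : ℕ → ℝ}

lemma Sd.pN (h : Sd N l M Γ c q π p Ψ) : ‖p N‖ = π := by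
  have h1 := congrArg norm h.top
  have hπ := h.hπ
  have hq := h.hq
  rw [norm_mul, Complex.norm_real, Real.norm_of_nonneg (by positivity)] at h1
  exact mul_right_cancel₀ (by positivity) h1

lemma Sd.near (h : Sd N l M Γ c q π p Ψ) {k : ℕ} (hk : 1 ≤ k) (hkN : k ≤ N) :
    ‖p k - p N‖ * ‖q‖ ≤ N * M := by
  have hπ := h.hπ
  have h1 := tel h.hM h.hπ h.st (norm_nonneg q) hk hkN le_rfl
  have h2 : 0 < π ^ (N - 1) := by positivity
  have h3 : (‖p k - p N‖ * ‖q‖) * π ^ (N - 1) ≤ (N * M) * π ^ (N - 1) := by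
    calc (‖p k - p N‖ * ‖q‖) * π ^ (N - 1) = ‖p k - p N‖ * (π ^ (N - 1) * ‖q‖) := by ring
      _ ≤ _ := h1
  exact le_of_mul_le_mul_right h3 h2

lemma Sd.le (h : Sd N l M Γ c q π p Ψ) {k : ℕ} (hk : 1 ≤ k) (hkN : k ≤ N) :
    ‖p k‖ ≤ (1 + N * M) * π := by
  have hπ := h.hπ
  have hq := h.hq
  have hM := h.hM
  have h1 := h.near hk hkN
  have h2 : ‖p k - p N‖ ≤ N * M := by
    have : ‖p k - p N‖ * 1 ≤ ‖p k - p N‖ * ‖q‖ := mul_le_mul_of_nonneg_left hq (norm_nonneg _)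
    linarith
  have h3 : ‖p k‖ ≤ ‖p k - p N‖ + ‖p N‖ := by
    have := norm_add_le (p k - p N) (p N)
    rwa [sub_add_cancel] at this
  rw [h.pN] at h3
  have h4 : (0 : ℝ) ≤ N * M := by positivity
  nlinarith

lemma Sd.L1 (h : Sd N l M Γ c q π p Ψ) : (1 : ℝ) ≤ 1 + N * M := by
  have hM := h.hM
  have : (0 : ℝ) ≤ N * M := by positivity
  linarith

lemma Sd.pow_le (h : Sd N l M Γ c q π p Ψ) {k a b : ℕ} (hk : 1 ≤ k) (hkN : k ≤ N) (hab : a ≤ b)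
    (hb : b ≤ N) : ‖p k‖ ^ a ≤ (1 + N * M) ^ N * π ^ b := by
  have hL := h.L1
  have hπ := h.hπ
  calc ‖p k‖ ^ a ≤ ((1 + N * M) * π) ^ a := pow_le_pow_left₀ (norm_nonneg _) (h.le hk hkN) a
    _ = (1 + N * M) ^ a * π ^ a := mul_pow _ _ _
    _ ≤ (1 + N * M) ^ N * π ^ b :=
        mul_le_mul (pow_le_pow_right₀ hL (hab.trans hb)) (pow_le_pow_right₀ hπ hab)
          (by positivity) (by positivity)

/-- The constant of the comparison of the powers. -/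
noncomputable def CC (N : ℕ) (M : ℝ) : ℝ := N * (1 + N * M) ^ N * (N * M)

lemma CC_nonneg {N : ℕ} {M : ℝ} (hM : 0 < M) : 0 ≤ CC N M := by
  unfold CC; positivity

lemma Sd.pow_sub (h : Sd N l M Γ c q π p Ψ) {k a : ℕ} (hk : 1 ≤ k) (hkl : k ≤ l + 1)
    (ha : a < N) : ‖p k ^ a - p (l + 1) ^ a‖ ≤ CC N M * π ^ (l - 1) := by
  have hL := h.L1
  have hπ := h.hπ
  have hq := h.hq
  have hM := h.hM
  have l1 := h.l1
  have lN := h.lN
  have hW : 0 < π ^ (N - 1) * ‖q‖ := by positivity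
  have h1 := pow_sub_pow_le (h.le hk (by omega)) (h.le (k := l + 1) (by omega) (by omega)) a
  have h2 := tel h.hM h.hπ h.st (norm_nonneg q) hk hkl (by omega)
  rw [Nat.add_sub_cancel] at h2
  have h3 : (a : ℝ) * ((1 + N * M) * π) ^ (a - 1) ≤ N * (1 + N * M) ^ N * π ^ (N - 2) := by
    rw [mul_pow, ← mul_assoc]
    refine mul_le_mul (mul_le_mul (by exact_mod_cast ha.le) (pow_le_pow_right₀ hL (by omega))
      (by positivity) (by positivity)) (pow_le_pow_right₀ hπ (by omega)) (by positivity)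
      (by positivity)
  refine le_of_mul_le_mul_right ?_ hW
  calc ‖p k ^ a - p (l + 1) ^ a‖ * (π ^ (N - 1) * ‖q‖)
      ≤ (a * ((1 + N * M) * π) ^ (a - 1) * ‖p k - p (l + 1)‖) * (π ^ (N - 1) * ‖q‖) :=
        mul_le_mul_of_nonneg_right h1 hW.le
    _ = (a * ((1 + N * M) * π) ^ (a - 1)) * (‖p k - p (l + 1)‖ * (π ^ (N - 1) * ‖q‖)) := by ring
    _ ≤ (N * (1 + N * M) ^ N * π ^ (N - 2)) * (N * M * π ^ l) :=
        mul_le_mul h3 h2 (by positivity) (by positivity)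
    _ = CC N M * π ^ (l - 1) * (π ^ (N - 1)) * 1 := by
        obtain ⟨l', rfl⟩ : ∃ l', l = l' + 1 := ⟨l - 1, by omega⟩
        obtain ⟨N', rfl⟩ : ∃ N', N = N' + 2 := ⟨N - 2, by omega⟩
        simp only [Nat.add_sub_cancel, CC, show N' + 2 - 1 = N' + 1 by omega, pow_succ π]
        ring
    _ ≤ CC N M * π ^ (l - 1) * (π ^ (N - 1)) * ‖q‖ :=
        mul_le_mul_of_nonneg_left hq (by have := CC_nonneg (N := N) hM; positivity)
    _ = CC N M * π ^ (l - 1) * (π ^ (N - 1) * ‖q‖) := by ring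

lemma Sd.UU_sub (h : Sd N l M Γ c q π p Ψ) {d : ℕ → ℂ} (hd : ∀ a, ‖d a‖ ≤ Γ) {k : ℕ}
    (hk : 1 ≤ k) (hkl : k ≤ l + 1) :
    ‖UU N l d (p k) - UU N l d (p (l + 1))‖ ≤ N * (Γ * (CC N M * π ^ (l - 1))) := by
  have hπ := h.hπ
  have hΓ := h.hΓ
  unfold UU
  rw [← sum_sub_distrib]
  refine norm_sum_Ico_le le_rfl _ (by have := CC_nonneg (N := N) h.hM; positivity) fun a ha => ?_
  rw [← mul_sub, norm_mul, RCLike.norm_conj]
  exact mul_le_mul (hd a) (h.pow_sub hk hkl (mem_Ico.1 ha).2) (norm_nonneg _) hΓ.le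

/-- The size `E`. -/
noncomputable def Ez (l : ℕ) (π : ℝ) (q : ℂ) : ℝ := π ^ (l - 1) * ‖q‖ ^ l

lemma Sd.E1 (h : Sd N l M Γ c q π p Ψ) : π ^ l * ‖q‖ ^ (l - 1) ≤ 2 * Ez l π q := by
  have hπ := h.hπ
  have hq := h.hq
  have l1 := h.l1
  have h2 := h.hπq
  obtain ⟨l', rfl⟩ : ∃ l', l = l' + 1 := ⟨l - 1, by omega⟩
  unfold Ez
  simp only [Nat.add_sub_cancel, pow_succ]
  have h3 : 0 ≤ π ^ l' * ‖q‖ ^ l' := by positivity
  nlinarith

lemma Sd.E2 (h : Sd N l M Γ c q π p Ψ) : π ^ (l - 1) * ‖q‖ ^ (l - 1) ≤ Ez l π q := by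
  have hπ := h.hπ
  have hq := h.hq
  unfold Ez
  exact mul_le_mul_of_nonneg_left (pow_le_pow_right₀ hq (by omega)) (by positivity)

lemma Sd.E0 (h : Sd N l M Γ c q π p Ψ) : 0 ≤ Ez l π q := by
  have hπ := h.hπ
  unfold Ez
  positivity

/-- The constant of one step. -/
noncomputable def C1 (N : ℕ) (M Γ : ℝ) : ℝ :=
  2 * (N * (Γ * (1 + N * M) ^ N) + N * (Γ * CC N M)) * Γ + Γ ^ 2 / 2 * (1 + N * M) ^ N

/-- One step below `l`. -/
lemma Sd.step (h : Sd N l M Γ c q π p Ψ) {k : ℕ} (hk : 1 ≤ k) (hkl : k < l) :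
    |Ψ k - Ψ (k + 1) - (UU N l c (p (l + 1)) * (c k * q ^ k)).re| ≤ C1 N M Γ * Ez l π q := by
  have hL := h.L1
  have hπ := h.hπ
  have hq := h.hq
  have hM := h.hM
  have hΓ := h.hΓ
  have l1 := h.l1
  have lN := h.lN
  have hCC := CC_nonneg (N := N) hM
  have h1 := h.rc k hk (by omega)
  have h2 : ∑ a ∈ Ico (k + 1) N, (starRingEnd ℂ) (c a) * p (k + 1) ^ a
      = ∑ a ∈ Ico (k + 1) (l + 1), (starRingEnd ℂ) (c a) * p (k + 1) ^ a + UU N l c (p (k + 1)) := by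
    unfold UU
    rw [sum_Ico_consecutive _ (by omega) (by omega)]
  have h3 : ‖∑ a ∈ Ico (k + 1) (l + 1), (starRingEnd ℂ) (c a) * p (k + 1) ^ a‖
      ≤ N * (Γ * ((1 + N * M) ^ N * π ^ l)) := by
    refine norm_sum_Ico_le (by omega) _ (by positivity) fun a ha => ?_
    rw [norm_mul, RCLike.norm_conj, norm_pow]
    have := mem_Ico.1 ha
    exact mul_le_mul (h.cb a) (h.pow_le (by omega) (by omega) (by omega) (by omega))
      (by positivity) hΓ.le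
  have h4 := h.UU_sub h.cb (k := k + 1) (by omega) (by omega)
  have h5 : ‖c k * q ^ k‖ ≤ Γ * ‖q‖ ^ (l - 1) := by
    rw [norm_mul, norm_pow]
    exact mul_le_mul (h.cb k) (pow_le_pow_right₀ hq (by omega)) (by positivity) hΓ.le
  have h6 : π ^ (l - 1) ≤ π ^ l := pow_le_pow_right₀ hπ (by omega)
  have h7 : ‖(∑ a ∈ Ico (k + 1) N, (starRingEnd ℂ) (c a) * p (k + 1) ^ a)
      - UU N l c (p (l + 1))‖ ≤ (N * (Γ * (1 + N * M) ^ N) + N * (Γ * CC N M)) * π ^ l := by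
    rw [h2, add_sub_assoc]
    refine (norm_add_le _ _).trans ?_
    have h8 : N * (Γ * (CC N M * π ^ (l - 1))) ≤ N * (Γ * (CC N M * π ^ l)) := by gcongr
    calc _ ≤ N * (Γ * ((1 + N * M) ^ N * π ^ l)) + N * (Γ * (CC N M * π ^ l)) :=
          add_le_add h3 (h4.trans h8)
      _ = _ := by ring
  have h8 : ‖((∑ a ∈ Ico (k + 1) N, (starRingEnd ℂ) (c a) * p (k + 1) ^ a)
      - UU N l c (p (l + 1))) * (c k * q ^ k)‖
      ≤ 2 * (N * (Γ * (1 + N * M) ^ N) + N * (Γ * CC N M)) * Γ * Ez l π q := by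
    rw [norm_mul]
    calc _ ≤ ((N * (Γ * (1 + N * M) ^ N) + N * (Γ * CC N M)) * π ^ l) * (Γ * ‖q‖ ^ (l - 1)) :=
          mul_le_mul h7 h5 (norm_nonneg _) (by positivity)
      _ = (N * (Γ * (1 + N * M) ^ N) + N * (Γ * CC N M)) * Γ * (π ^ l * ‖q‖ ^ (l - 1)) := by ring
      _ ≤ (N * (Γ * (1 + N * M) ^ N) + N * (Γ * CC N M)) * Γ * (2 * Ez l π q) :=
          mul_le_mul_of_nonneg_left h.E1 (by positivity)
      _ = _ := by ring
  have h9 : ‖(p (k + 1) * q) ^ k‖ ≤ (1 + N * M) ^ N * Ez l π q := by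
    rw [mul_pow, norm_mul, norm_pow, norm_pow]
    calc ‖p (k + 1)‖ ^ k * ‖q‖ ^ k ≤ ((1 + N * M) ^ N * π ^ (l - 1)) * ‖q‖ ^ (l - 1) :=
          mul_le_mul (h.pow_le (by omega) (by omega) (by omega) (by omega))
            (pow_le_pow_right₀ hq (by omega)) (by positivity) (by positivity)
      _ = (1 + N * M) ^ N * (π ^ (l - 1) * ‖q‖ ^ (l - 1)) := by ring
      _ ≤ _ := mul_le_mul_of_nonneg_left h.E2 (by positivity)
  have h10 : ‖c k‖ ^ 2 ≤ Γ ^ 2 := pow_le_pow_left₀ (norm_nonneg _) (h.cb k) 2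
  have h11 : |‖c k‖ ^ 2 / 2 * ((p (k + 1) * q) ^ k).re|
      ≤ Γ ^ 2 / 2 * ((1 + N * M) ^ N * Ez l π q) := by
    rw [abs_mul, abs_of_nonneg (by positivity : (0 : ℝ) ≤ ‖c k‖ ^ 2 / 2)]
    exact mul_le_mul (by linarith) ((Complex.abs_re_le_norm _).trans h9) (abs_nonneg _)
      (by positivity)
  have h12 : Ψ k - Ψ (k + 1) - (UU N l c (p (l + 1)) * (c k * q ^ k)).re
      = (((∑ a ∈ Ico (k + 1) N, (starRingEnd ℂ) (c a) * p (k + 1) ^ a)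
      - UU N l c (p (l + 1))) * (c k * q ^ k)).re + ‖c k‖ ^ 2 / 2 * ((p (k + 1) * q) ^ k).re := by
    rw [h1, sub_mul, Complex.sub_re]
    ring
  rw [h12]
  refine (abs_add_le _ _).trans ?_
  have h13 := (Complex.abs_re_le_norm (((∑ a ∈ Ico (k + 1) N,
    (starRingEnd ℂ) (c a) * p (k + 1) ^ a) - UU N l c (p (l + 1))) * (c k * q ^ k))).trans h8
  unfold C1
  linarith

/-- The expansion of one side. -/
lemma Sd.side (h : Sd N l M Γ c q π p Ψ) :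
    |Ψ 1 - Ψ (l + 1) - ∑ k ∈ Ico 1 (l + 1), (UU N l c (p (l + 1)) * (c k * q ^ k)).re
      - ‖c l‖ ^ 2 / 2 * ((p (l + 1) * q) ^ l).re| ≤ N * (C1 N M Γ * Ez l π q) := by
  have hM := h.hM
  have hΓ := h.hΓ
  have l1 := h.l1
  have lN := h.lN
  have hCC := CC_nonneg (N := N) hM
  have hC1 : 0 ≤ C1 N M Γ * Ez l π q := by
    have := h.E0
    have := h.L1
    unfold C1; positivity
  -- from 1 to l
  have key : ∀ m, 1 ≤ m → m ≤ l → |Ψ 1 - Ψ m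
      - ∑ k ∈ Ico 1 m, (UU N l c (p (l + 1)) * (c k * q ^ k)).re|
      ≤ ((m - 1 : ℕ) : ℝ) * (C1 N M Γ * Ez l π q) := by
    intro m hm
    induction m, hm using Nat.le_induction with
    | base => intro _; simp
    | succ m hm ih =>
      intro hml
      have h1 := ih (by omega)
      have h2 := h.step hm (by omega)
      rw [sum_Ico_succ_top (by omega)]
      have h3 : ((m + 1 - 1 : ℕ) : ℝ) = ((m - 1 : ℕ) : ℝ) + 1 := by
        have : m + 1 - 1 = (m - 1) + 1 := by omega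
        rw [this]; push_cast; ring
      rw [h3]
      have h4 : Ψ 1 - Ψ (m + 1) - (∑ k ∈ Ico 1 m, (UU N l c (p (l + 1)) * (c k * q ^ k)).re
          + (UU N l c (p (l + 1)) * (c m * q ^ m)).re)
          = (Ψ 1 - Ψ m - ∑ k ∈ Ico 1 m, (UU N l c (p (l + 1)) * (c k * q ^ k)).re)
          + (Ψ m - Ψ (m + 1) - (UU N l c (p (l + 1)) * (c m * q ^ m)).re) := by ring
      rw [h4]
      refine (abs_add_le _ _).trans ?_
      linarith
  have h1 := key l l1 le_rfl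
  have h2 := h.rc l l1 lN
  rw [sum_Ico_succ_top (by omega)]
  have h3 : Ψ 1 - Ψ (l + 1) - (∑ k ∈ Ico 1 l, (UU N l c (p (l + 1)) * (c k * q ^ k)).re
      + (UU N l c (p (l + 1)) * (c l * q ^ l)).re) - ‖c l‖ ^ 2 / 2 * ((p (l + 1) * q) ^ l).re
      = Ψ 1 - Ψ l - ∑ k ∈ Ico 1 l, (UU N l c (p (l + 1)) * (c k * q ^ k)).re := by
    rw [h2]
    unfold UU
    ring
  rw [h3]
  refine h1.trans (mul_le_mul_of_nonneg_right ?_ hC1)
  exact_mod_cast (by omega : l - 1 ≤ N)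

/-- `(P q)^l` is close to `(π Q)^l`. -/
lemma Sd.Pq (h : Sd N l M Γ c q π p Ψ) :
    ‖(p (l + 1) * q) ^ l - ((π * ‖q‖ : ℝ) : ℂ) ^ l‖ ≤ CC N M * Ez l π q := by
  have hL := h.L1
  have hπ := h.hπ
  have hq := h.hq
  have hM := h.hM
  have l1 := h.l1
  have lN := h.lN
  have h1 : ‖p (l + 1) * q‖ ≤ (1 + N * M) * π * ‖q‖ := by
    rw [norm_mul]
    exact mul_le_mul_of_nonneg_right (h.le (by omega) (by omega)) (norm_nonneg _)
  have h2 : ‖((π * ‖q‖ : ℝ) : ℂ)‖ ≤ (1 + N * M) * π * ‖q‖ := by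
    rw [Complex.norm_real, Real.norm_of_nonneg (by positivity)]
    have : 0 < π * ‖q‖ := by positivity
    nlinarith
  have h3 := pow_sub_pow_le h1 h2 l
  have h4 : ‖p (l + 1) * q - ((π * ‖q‖ : ℝ) : ℂ)‖ ≤ N * M := by
    rw [← h.top, ← sub_mul, norm_mul]
    exact h.near (by omega) (by omega)
  refine h3.trans ?_
  have h5 : (l : ℝ) * ((1 + N * M) * π * ‖q‖) ^ (l - 1)
      ≤ N * (1 + N * M) ^ N * Ez l π q := by
    rw [mul_assoc, mul_pow, mul_assoc]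
    refine mul_le_mul (by exact_mod_cast lN.le) ?_ (by positivity) (by positivity)
    refine mul_le_mul (pow_le_pow_right₀ hL (by omega)) ?_ (by positivity) (by positivity)
    rw [mul_pow]
    exact h.E2
  calc (l : ℝ) * ((1 + N * M) * π * ‖q‖) ^ (l - 1) * ‖p (l + 1) * q - ((π * ‖q‖ : ℝ) : ℂ)‖
      ≤ (N * (1 + N * M) ^ N * Ez l π q) * (N * M) :=
        mul_le_mul h5 h4 (norm_nonneg _) (by have := h.E0; positivity)
    _ = CC N M * Ez l π q := by unfold CC; ring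

/-- The constant of the product. -/
noncomputable def C2 (N : ℕ) (M Γ : ℝ) : ℝ :=
  (N * (Γ * CC N M) + N * (Γ * (1 + N * M) ^ N) + Γ * CC N M) * (N * (2 * Γ))
    + Γ * (1 + N * M) ^ N * (N * (2 * Γ)) * 2

/-- The product. -/
lemma Sd.prod_part (h : Sd N l M Γ c q π p Ψ) {e : ℕ → ℂ} (he : ∀ a, ‖e a‖ ≤ 2 * Γ)
    (hel : ∀ a, l < a → e a = 0) :
    ‖(∑ a ∈ Ico 1 N, (starRingEnd ℂ) (c a) * p 1 ^ a) * (∑ a ∈ Ico 1 N, e a * q ^ a)
      - ∑ b ∈ Ico 1 (l + 1), UU N l c (p (l + 1)) * (e b * q ^ b)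
      - (starRingEnd ℂ) (c l) * e l * (p (l + 1) * q) ^ l‖ ≤ C2 N M Γ * Ez l π q := by
  have hL := h.L1
  have hπ := h.hπ
  have hq := h.hq
  have hM := h.hM
  have hΓ := h.hΓ
  have l1 := h.l1
  have lN := h.lN
  have hCC := CC_nonneg (N := N) hM
  have h1 : ∑ a ∈ Ico 1 N, e a * q ^ a = ∑ a ∈ Ico 1 (l + 1), e a * q ^ a := by
    rw [← sum_Ico_consecutive _ (by omega : 1 ≤ l + 1) (by omega : l + 1 ≤ N)]
    rw [sum_eq_zero (s := Ico (l + 1) N) (fun a ha => by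
      rw [hel a (by have := mem_Ico.1 ha; omega), zero_mul]), add_zero]
  have h2 : ∑ a ∈ Ico 1 N, (starRingEnd ℂ) (c a) * p 1 ^ a
      = ∑ a ∈ Ico 1 l, (starRingEnd ℂ) (c a) * p 1 ^ a + (starRingEnd ℂ) (c l) * p 1 ^ l
        + UU N l c (p 1) := by
    unfold UU
    rw [← sum_Ico_succ_top (by omega), sum_Ico_consecutive _ (by omega) (by omega)]
  have h3 : ∑ a ∈ Ico 1 (l + 1), e a * q ^ a = ∑ a ∈ Ico 1 l, e a * q ^ a + e l * q ^ l := by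
    rw [sum_Ico_succ_top (by omega)]
  obtain ⟨δ, hδ⟩ : ∃ δ, δ = ∑ a ∈ Ico 1 (l + 1), e a * q ^ a := ⟨_, rfl⟩
  obtain ⟨δ', hδ'⟩ : ∃ δ', δ' = ∑ a ∈ Ico 1 l, e a * q ^ a := ⟨_, rfl⟩
  obtain ⟨A, hA⟩ : ∃ A, A = ∑ a ∈ Ico 1 l, (starRingEnd ℂ) (c a) * p 1 ^ a := ⟨_, rfl⟩
  rw [h1, h2, ← mul_sum, ← hδ, ← hA]
  rw [← hδ, ← hδ'] at h3
  have hδn : ‖δ‖ ≤ N * (2 * Γ * ‖q‖ ^ l) := by
    rw [hδ]
    refine norm_sum_Ico_le (by omega) _ (by positivity) fun a ha => ?_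
    rw [norm_mul, norm_pow]
    have := mem_Ico.1 ha
    exact mul_le_mul (he a) (pow_le_pow_right₀ hq (by omega)) (by positivity) (by positivity)
  have hδ'n : ‖δ'‖ ≤ N * (2 * Γ * ‖q‖ ^ (l - 1)) := by
    rw [hδ']
    refine norm_sum_Ico_le (by omega) _ (by positivity) fun a ha => ?_
    rw [norm_mul, norm_pow]
    have := mem_Ico.1 ha
    exact mul_le_mul (he a) (pow_le_pow_right₀ hq (by omega)) (by positivity) (by positivity)
  have hAn : ‖A‖ ≤ N * (Γ * ((1 + N * M) ^ N * π ^ (l - 1))) := by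
    rw [hA]
    refine norm_sum_Ico_le (by omega) _ (by positivity) fun a ha => ?_
    rw [norm_mul, RCLike.norm_conj, norm_pow]
    have := mem_Ico.1 ha
    exact mul_le_mul (h.cb a) (h.pow_le (by omega) (by omega) (by omega) (by omega))
      (by positivity) hΓ.le
  have hU := h.UU_sub h.cb (k := 1) le_rfl (by omega)
  have hp := h.pow_sub (k := 1) (a := l) le_rfl (by omega) lN
  have hcl : ‖(starRingEnd ℂ) (c l) * (p 1 ^ l - p (l + 1) ^ l)‖ ≤ Γ * (CC N M * π ^ (l - 1)) := by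
    rw [norm_mul, RCLike.norm_conj]
    exact mul_le_mul (h.cb l) hp (norm_nonneg _) hΓ.le
  have hcP : ‖(starRingEnd ℂ) (c l) * p (l + 1) ^ l‖ ≤ Γ * ((1 + N * M) ^ N * π ^ l) := by
    rw [norm_mul, RCLike.norm_conj, norm_pow]
    exact mul_le_mul (h.cb l) (h.pow_le (by omega) (by omega) le_rfl (by omega))
      (by positivity) hΓ.le
  have e1 : (A + (starRingEnd ℂ) (c l) * p 1 ^ l + UU N l c (p 1)) * δ
      - UU N l c (p (l + 1)) * δ - (starRingEnd ℂ) (c l) * e l * (p (l + 1) * q) ^ l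
      = ((UU N l c (p 1) - UU N l c (p (l + 1))) + A
          + (starRingEnd ℂ) (c l) * (p 1 ^ l - p (l + 1) ^ l)) * δ
        + (starRingEnd ℂ) (c l) * p (l + 1) ^ l * δ' := by
    rw [h3, mul_pow]
    ring
  rw [e1]
  refine (norm_add_le _ _).trans ?_
  rw [norm_mul, norm_mul ((starRingEnd ℂ) (c l) * p (l + 1) ^ l) δ']
  have h4 : ‖(UU N l c (p 1) - UU N l c (p (l + 1))) + A
      + (starRingEnd ℂ) (c l) * (p 1 ^ l - p (l + 1) ^ l)‖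
      ≤ (N * (Γ * CC N M) + N * (Γ * (1 + N * M) ^ N) + Γ * CC N M) * π ^ (l - 1) := by
    refine norm_add₃_le.trans ?_
    calc _ ≤ N * (Γ * (CC N M * π ^ (l - 1))) + N * (Γ * ((1 + N * M) ^ N * π ^ (l - 1)))
          + Γ * (CC N M * π ^ (l - 1)) := add_le_add (add_le_add hU hAn) hcl
      _ = _ := by ring
  have h5 : ‖(UU N l c (p 1) - UU N l c (p (l + 1))) + A
      + (starRingEnd ℂ) (c l) * (p 1 ^ l - p (l + 1) ^ l)‖ * ‖δ‖
      ≤ (N * (Γ * CC N M) + N * (Γ * (1 + N * M) ^ N) + Γ * CC N M) * (N * (2 * Γ))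
        * Ez l π q := by
    calc _ ≤ ((N * (Γ * CC N M) + N * (Γ * (1 + N * M) ^ N) + Γ * CC N M) * π ^ (l - 1))
          * (N * (2 * Γ * ‖q‖ ^ l)) := mul_le_mul h4 hδn (norm_nonneg _) (by positivity)
      _ = _ := by unfold Ez; ring
  have h6 : ‖(starRingEnd ℂ) (c l) * p (l + 1) ^ l‖ * ‖δ'‖
      ≤ Γ * (1 + N * M) ^ N * (N * (2 * Γ)) * 2 * Ez l π q := by
    calc _ ≤ (Γ * ((1 + N * M) ^ N * π ^ l)) * (N * (2 * Γ * ‖q‖ ^ (l - 1))) :=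
          mul_le_mul hcP hδ'n (norm_nonneg _) (by positivity)
      _ = Γ * (1 + N * M) ^ N * (N * (2 * Γ)) * (π ^ l * ‖q‖ ^ (l - 1)) := by ring
      _ ≤ Γ * (1 + N * M) ^ N * (N * (2 * Γ)) * (2 * Ez l π q) :=
          mul_le_mul_of_nonneg_left h.E1 (by positivity)
      _ = _ := by ring
  unfold C2
  linarith

end side

lemma polar (c d : ℂ) (t : ℝ) : (‖c‖ ^ 2 - ‖d‖ ^ 2) / 2 * t
    - ((starRingEnd ℂ) d * (c - d) * (t : ℂ)).re - ‖c - d‖ ^ 2 / 2 * t = 0 := by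
  rw [← Complex.normSq_eq_norm_sq, ← Complex.normSq_eq_norm_sq, ← Complex.normSq_eq_norm_sq]
  simp only [Complex.normSq_apply, Complex.mul_re, Complex.mul_im, Complex.conj_re,
    Complex.conj_im, Complex.sub_re, Complex.sub_im, Complex.ofReal_re, Complex.ofReal_im]
  ring

end En

open En in
theorem energy {N : ℕ} {M Γ : ℝ} (hM : 0 < M) (hΓ : 0 < Γ) : ∃ M' : ℝ, 0 < M' ∧
    ∀ (c d : ℕ → ℂ) (l : ℕ), 1 ≤ l → l < N → (∀ a, ‖c a‖ ≤ Γ) → (∀ a, ‖d a‖ ≤ Γ) →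
    (∀ a, l < a → c a = d a) →
    ∀ (q : ℂ) (π : ℝ) (p p' : ℕ → ℂ) (Ψ Ψ' : ℕ → ℝ), 1 ≤ ‖q‖ → 1 ≤ π → π ≤ 2 * ‖q‖ →
    p N * q = (π * ‖q‖ : ℝ) →
    (∀ k, 1 ≤ k → k < N → ‖p k - p (k + 1)‖ * (π ^ (N - 1) * ‖q‖) ≤ M * π ^ k) →
    (∀ k, 1 ≤ k → k < N → ‖p' k - p' (k + 1)‖ * (π ^ (N - 1) * ‖q‖) ≤ M * π ^ k) →
    (∀ k, l < k → k ≤ N → p k = p' k ∧ Ψ k = Ψ' k) →
    (∀ k, 1 ≤ k → k < N → Ψ k = Ψ (k + 1)
      + ((∑ a ∈ Ico (k + 1) N, (starRingEnd ℂ) (c a) * p (k + 1) ^ a) * (c k * q ^ k)).re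
      + ‖c k‖ ^ 2 / 2 * ((p (k + 1) * q) ^ k).re) →
    (∀ k, 1 ≤ k → k < N → Ψ' k = Ψ' (k + 1)
      + ((∑ a ∈ Ico (k + 1) N, (starRingEnd ℂ) (d a) * p' (k + 1) ^ a) * (d k * q ^ k)).re
      + ‖d k‖ ^ 2 / 2 * ((p' (k + 1) * q) ^ k).re) →
    ‖p 1 - p' 1‖ * (π ^ (N - 1) * ‖q‖) ≤ M' * π ^ l ∧
    |Ψ 1 - Ψ' 1 - ((∑ a ∈ Ico 1 N, (starRingEnd ℂ) (d a) * p' 1 ^ a)
        * (∑ a ∈ Ico 1 N, (c a - d a) * q ^ a)).re - ‖c l - d l‖ ^ 2 / 2 * (π * ‖q‖) ^ l|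
      ≤ M' * (π ^ (l - 1) * ‖q‖ ^ l) := by
  have hCC := CC_nonneg (N := N) hM
  have hL : (0 : ℝ) < 1 + N * M := by positivity
  have hC1 : 0 ≤ C1 N M Γ := by unfold C1; positivity
  have hC2 : 0 ≤ C2 N M Γ := by unfold C2; positivity
  refine ⟨1 + 2 * (N * M) + 2 * (N * C1 N M Γ) + C2 N M Γ + 4 * (Γ ^ 2 * CC N M),
    by positivity, ?_⟩
  intro c d l l1 lN hc hd hcd q π p p' Ψ Ψ' hq hπ hπq htop hst hst' hco hrc hrc'
  have hpos : 0 < 1 + 2 * (N * C1 N M Γ) + C2 N M Γ + 4 * (Γ ^ 2 * CC N M) := by positivity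
  have hs : Sd N l M Γ c q π p Ψ := ⟨hM, hΓ, l1, lN, hc, hq, hπ, hπq, htop, hst, hrc⟩
  have hpN := (hco N lN le_rfl).1
  have hs' : Sd N l M Γ d q π p' Ψ' :=
    ⟨hM, hΓ, l1, lN, hd, hq, hπ, hπq, by rw [← hpN]; exact htop, hst', hrc'⟩
  obtain ⟨hP, hΨ⟩ := hco (l + 1) (by omega) (by omega)
  constructor
  · have h1 := tel hM hπ hst (norm_nonneg q) (k := 1) (m := l + 1) le_rfl (by omega) (by omega)
    have h2 := tel hM hπ hst' (norm_nonneg q) (k := 1) (m := l + 1) le_rfl (by omega) (by omega)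
    rw [Nat.add_sub_cancel] at h1 h2
    have h3 : ‖p 1 - p' 1‖ ≤ ‖p 1 - p (l + 1)‖ + ‖p' 1 - p' (l + 1)‖ := by
      have e : p 1 - p' 1 = (p 1 - p (l + 1)) - (p' 1 - p' (l + 1)) := by rw [hP]; ring
      rw [e]
      exact norm_sub_le _ _
    have h4 := mul_le_mul_of_nonneg_right h3 (by positivity : 0 ≤ π ^ (N - 1) * ‖q‖)
    have h5 : 0 ≤ π ^ l := by positivity
    nlinarith
  · have h1 := hs.side
    have h2 := hs'.side
    have he : ∀ a, ‖(fun a => c a - d a) a‖ ≤ 2 * Γ := fun a => by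
      have := norm_sub_le (c a) (d a)
      have := hc a
      have := hd a
      change ‖c a - d a‖ ≤ _
      linarith
    have h3 := hs'.prod_part he (fun a ha => by
      change c a - d a = 0
      rw [hcd a ha, sub_self])
    have h4 := hs'.Pq
    have hUU : UU N l c = UU N l d := by
      funext z
      unfold UU
      refine sum_congr rfl fun a ha => ?_
      rw [hcd a (by have := mem_Ico.1 ha; omega)]
    rw [hUU, hP, hΨ] at h1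
    have hE : Ez l π q = π ^ (l - 1) * ‖q‖ ^ l := rfl
    have hE0 := hs.E0
    rw [← hE]
    obtain ⟨P, hPP⟩ : ∃ P, P = p' (l + 1) := ⟨_, rfl⟩
    obtain ⟨U, hU⟩ : ∃ U, U = UU N l d P := ⟨_, rfl⟩
    rw [← hPP, ← hU] at h1 h2 h3
    rw [← hPP] at h4
    obtain ⟨T, hT⟩ : ∃ T, T = (P * q) ^ l := ⟨_, rfl⟩
    rw [← hT] at h1 h2 h3 h4
    obtain ⟨Z, hZ⟩ : ∃ Z, Z = (∑ a ∈ Ico 1 N, (starRingEnd ℂ) (d a) * p' 1 ^ a)
        * (∑ a ∈ Ico 1 N, (c a - d a) * q ^ a) := ⟨_, rfl⟩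
    simp only [← hZ] at h3
    rw [← hZ]
    obtain ⟨t, ht⟩ : ∃ t : ℝ, t = (π * ‖q‖) ^ l := ⟨_, rfl⟩
    have h4' : ‖T - (t : ℂ)‖ ≤ CC N M * Ez l π q := by
      rw [ht]; push_cast; push_cast at h4; exact h4
    rw [← ht]
    -- real parts
    have h5 : |Z.re - ∑ b ∈ Ico 1 (l + 1), (U * ((c b - d b) * q ^ b)).re
        - ((starRingEnd ℂ) (d l) * (c l - d l) * T).re| ≤ C2 N M Γ * Ez l π q := by
      have h6 := (Complex.abs_re_le_norm _).trans h3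
      rw [Complex.sub_re, Complex.sub_re, Complex.re_sum] at h6
      exact h6
    have h6 : ∑ b ∈ Ico 1 (l + 1), (U * ((c b - d b) * q ^ b)).re
        = ∑ b ∈ Ico 1 (l + 1), (U * (c b * q ^ b)).re
          - ∑ b ∈ Ico 1 (l + 1), (U * (d b * q ^ b)).re := by
      rw [← sum_sub_distrib]
      refine sum_congr rfl fun b _ => ?_
      rw [← Complex.sub_re]
      congr 1
      ring
    rw [h6] at h5
    have h7 := polar (c l) (d l) t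
    have h8 : |T.re - t| ≤ CC N M * Ez l π q := by
      have := (Complex.abs_re_le_norm (T - (t : ℂ))).trans h4'
      rwa [Complex.sub_re, Complex.ofReal_re] at this
    have h9 : |((starRingEnd ℂ) (d l) * (c l - d l) * T).re
        - ((starRingEnd ℂ) (d l) * (c l - d l) * (t : ℂ)).re| ≤ 2 * Γ ^ 2 * (CC N M * Ez l π q) := by
      rw [← Complex.sub_re, ← mul_sub]
      refine (Complex.abs_re_le_norm _).trans ?_
      rw [norm_mul, norm_mul, RCLike.norm_conj]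
      have : ‖d l‖ * ‖c l - d l‖ ≤ Γ * (2 * Γ) :=
        mul_le_mul (hd l) (he l) (norm_nonneg _) hΓ.le
      calc ‖d l‖ * ‖c l - d l‖ * ‖T - (t : ℂ)‖ ≤ (Γ * (2 * Γ)) * (CC N M * Ez l π q) :=
            mul_le_mul this h4' (norm_nonneg _) (by positivity)
        _ = _ := by ring
    have hcl : ‖c l‖ ^ 2 ≤ Γ ^ 2 := pow_le_pow_left₀ (norm_nonneg _) (hc l) 2
    have hdl : ‖d l‖ ^ 2 ≤ Γ ^ 2 := pow_le_pow_left₀ (norm_nonneg _) (hd l) 2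
    have h10 : |(‖c l‖ ^ 2 - ‖d l‖ ^ 2) / 2 * T.re - (‖c l‖ ^ 2 - ‖d l‖ ^ 2) / 2 * t|
        ≤ Γ ^ 2 * (CC N M * Ez l π q) := by
      rw [← mul_sub, abs_mul]
      refine mul_le_mul ?_ h8 (abs_nonneg _) (by positivity)
      rw [abs_le]
      constructor <;> nlinarith [sq_nonneg ‖c l‖, sq_nonneg ‖d l‖]
    generalize (∑ b ∈ Ico 1 (l + 1), (U * (c b * q ^ b)).re) = s1 at h1 h5
    generalize (∑ b ∈ Ico 1 (l + 1), (U * (d b * q ^ b)).re) = s2 at h2 h5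
    generalize ((starRingEnd ℂ) (d l) * (c l - d l) * T).re = r1 at h5 h9
    generalize ((starRingEnd ℂ) (d l) * (c l - d l) * (t : ℂ)).re = r2 at h7 h9
    have hCE : 0 ≤ CC N M * Ez l π q := by positivity
    have e : Ψ 1 - Ψ' 1 - Z.re - ‖c l - d l‖ ^ 2 / 2 * t
        = (Ψ 1 - Ψ' (l + 1) - s1 - ‖c l‖ ^ 2 / 2 * T.re)
          - (Ψ' 1 - Ψ' (l + 1) - s2 - ‖d l‖ ^ 2 / 2 * T.re)
          - (Z.re - (s1 - s2) - r1)
          + ((‖c l‖ ^ 2 - ‖d l‖ ^ 2) / 2 * T.re - (‖c l‖ ^ 2 - ‖d l‖ ^ 2) / 2 * t)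
          - (r1 - r2)
          + ((‖c l‖ ^ 2 - ‖d l‖ ^ 2) / 2 * t - r2 - ‖c l - d l‖ ^ 2 / 2 * t) := by ring
    rw [e, h7, add_zero]
    have hA := abs_le.1 h1
    have hB := abs_le.1 h2
    have hC := abs_le.1 h5
    have hD := abs_le.1 h9
    have hF := abs_le.1 h10
    have hNM : 0 ≤ (1 + 2 * (N * M)) * Ez l π q := by positivity
    have hG2 : 0 ≤ Γ ^ 2 * (CC N M * Ez l π q) := by positivity
    rw [abs_le]
    constructor
    · nlinarith [hA.1, hB.2, hC.2, hD.2, hF.1]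
    · nlinarith [hA.2, hB.1, hC.1, hD.1, hF.2]

end Pool.Agent.H77.N2
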