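import Pool.Agent.H77.N2.Defs
import Pool.Agent.H77.N2.Hol

/-!
Module TAY of MP_6e521b_an (n = 2): Taylor expansion on the slice.

Proof of `taylor_slice`. Let `t = q^N`, `‖w‖ ≤ c ‖t‖`, `w ≠ 0`. On the disc `‖ζ‖ < ρ := 2c‖t‖/‖w‖`
(`ρ ≥ 2`) put `G(ζ) = F (q (1 + ζ w/t)^(1/N), q̄ (1 + ζ w̄/t̄)^(1/N))` (cpow; `‖ζ w/t‖ < 2c ≤ 1/2`).
For `c` small depending on `ε` (and `N`), both coordinates are within `ε/8 ‖q‖` of `q`, `q̄`, so the
point lies in `Dom R ε` (as `‖q‖ > 2R`), and `G` is holomorphic, `‖G‖ ≤ A`. `G(0) = F(q, q̄)`,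
`G(1) = F(rt N q w, conj (rt N q w))` (`conj` of the principal power off the negative axis), and
`G'(0) = ∂_q F · q w/(N t) + ∂_r F · q̄ w̄/(N t̄) = ft w + fb w̄` with `ft = ∂_q F(q,q̄)/(N q^(N-1))`,
`fb = ∂_r F/(N q̄^(N-1))`. Cauchy: `‖G(1) - G(0) - G'(0)‖ ≤ 4 A/ρ²`. The bounds of `ft`, `fb`: Cauchy
estimate on the disc of radius `ε/8 ‖q‖`.
Closure properties: products and sums (bound for the product: `‖f(q)‖ ≤ M A`, `‖g(q)‖ ≤ M A'`).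
-/

open Filter Topology

namespace Pool.Agent.H77.N2

lemma rt_pow {N : ℕ} (hN : 1 ≤ N) {q w : ℂ} (hq : q ≠ 0) : rt N q w ^ N = q ^ N + w := by
  have hN0 : N ≠ 0 := by omega
  unfold rt
  rw [mul_pow, one_div, Complex.cpow_nat_inv_pow _ hN0]
  have : q ^ N ≠ 0 := pow_ne_zero _ hq
  field_simp

lemma rt_zero {N : ℕ} (q : ℂ) : rt N q 0 = q := by
  simp [rt]

lemma one_add_cpow_sub_one {N : ℕ} (hN : 1 ≤ N) {u : ℂ} (hu : ‖u‖ ≤ 1 / 2) :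
    ‖(1 + u) ^ ((1 : ℂ) / N) - 1‖ ≤ 2 * ‖u‖ := by
  have h0 : (0 : ℝ) ≤ ‖u‖ := norm_nonneg u
  rcases Nat.lt_or_ge N 2 with h | h
  · have : N = 1 := by omega
    subst this
    simp only [Nat.cast_one, div_one, Complex.cpow_one, add_sub_cancel_left]
    linarith
  · have hne : (1 : ℂ) + u ≠ 0 := by
      intro h1
      have : u = -1 := by linear_combination h1
      rw [this] at hu
      norm_num at hu
    rw [Complex.cpow_def_of_ne_zero hne]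
    have h1 := Complex.norm_log_one_add_half_le_self hu
    have hN2 : (2 : ℝ) ≤ N := by exact_mod_cast h
    have h2 : ‖Complex.log (1 + u) * ((1 : ℂ) / N)‖ ≤ 3 / 4 * ‖u‖ := by
      rw [norm_mul, norm_div, norm_one, Complex.norm_natCast]
      have : (1 : ℝ) / N ≤ 1 / 2 := by
        apply one_div_le_one_div_of_le <;> linarith
      have h3 : (0 : ℝ) ≤ 1 / N := by positivity
      calc ‖Complex.log (1 + u)‖ * (1 / N) ≤ (3 / 2 * ‖u‖) * (1 / 2) := by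
            apply mul_le_mul h1 this h3 (by positivity)
        _ = 3 / 4 * ‖u‖ := by ring
    have h3 : ‖Complex.log (1 + u) * ((1 : ℂ) / N)‖ ≤ 1 := by linarith
    have h4 := Complex.norm_exp_sub_one_le h3
    linarith

/-- The branch is close to `q`. -/
lemma rt_near {N : ℕ} (hN : 1 ≤ N) {q w : ℂ} (hq : q ≠ 0) (hw : ‖w‖ ≤ 1 / 2 * ‖q‖ ^ N) :
    ‖rt N q w - q‖ * ‖q‖ ^ N ≤ 2 * ‖q‖ * ‖w‖ := by
  have hq0 : 0 < ‖q‖ := norm_pos_iff.mpr hq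
  have hT : 0 < ‖q‖ ^ N := pow_pos hq0 N
  have hu : ‖w / q ^ N‖ ≤ 1 / 2 := by
    rw [norm_div, norm_pow, div_le_iff₀ hT]
    exact hw
  have h1 := one_add_cpow_sub_one hN hu
  have h2 : rt N q w - q = q * ((1 + w / q ^ N) ^ ((1 : ℂ) / N) - 1) := by
    unfold rt
    ring
  rw [h2, norm_mul]
  rw [norm_div, norm_pow] at h1
  have h3 : ‖(1 + w / q ^ N) ^ ((1 : ℂ) / N) - 1‖ * ‖q‖ ^ N ≤ 2 * ‖w‖ := by
    calc _ ≤ 2 * (‖w‖ / ‖q‖ ^ N) * ‖q‖ ^ N := mul_le_mul_of_nonneg_right h1 hT.le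
      _ = 2 * ‖w‖ := by field_simp
  calc ‖q‖ * ‖(1 + w / q ^ N) ^ ((1 : ℂ) / N) - 1‖ * ‖q‖ ^ N
      = ‖q‖ * (‖(1 + w / q ^ N) ^ ((1 : ℂ) / N) - 1‖ * ‖q‖ ^ N) := by ring
    _ ≤ ‖q‖ * (2 * ‖w‖) := mul_le_mul_of_nonneg_left h3 hq0.le
    _ = 2 * ‖q‖ * ‖w‖ := by ring

/-- Quadratic Taylor remainder by the maximum principle. -/
lemma quad_rem {G : ℂ → ℂ} {r A : ℝ} (hr : 1 ≤ r)
    (hG : DifferentiableOn ℂ G (Metric.closedBall 0 r))
    (hA : ∀ z ∈ Metric.closedBall (0 : ℂ) r, ‖G z‖ ≤ A) :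
    ‖G 1 - G 0 - deriv G 0‖ ≤ 4 * A / r ^ 2 := by
  have hr0 : 0 < r := by linarith
  have hs : Metric.closedBall (0 : ℂ) r ∈ 𝓝 (0 : ℂ) := Metric.closedBall_mem_nhds 0 hr0
  have h1 : DifferentiableOn ℂ (dslope G 0) (Metric.closedBall 0 r) :=
    (Complex.differentiableOn_dslope hs).2 hG
  have h2 : DifferentiableOn ℂ (dslope (dslope G 0) 0) (Metric.closedBall 0 r) :=
    (Complex.differentiableOn_dslope hs).2 h1
  have hcl : closure (Metric.ball (0 : ℂ) r) = Metric.closedBall 0 r :=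
    closure_ball 0 hr0.ne'
  have hfr : frontier (Metric.ball (0 : ℂ) r) = Metric.sphere 0 r := frontier_ball 0 hr0.ne'
  have hb : Bornology.IsBounded (Metric.ball (0 : ℂ) r) := Metric.isBounded_ball
  have d1 : DiffContOnCl ℂ (dslope G 0) (Metric.ball 0 r) := by
    apply DifferentiableOn.diffContOnCl
    rw [hcl]
    exact h1
  have d2 : DiffContOnCl ℂ (dslope (dslope G 0) 0) (Metric.ball 0 r) := by
    apply DifferentiableOn.diffContOnCl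
    rw [hcl]
    exact h2
  have h0mem : (0 : ℂ) ∈ Metric.closedBall (0 : ℂ) r := by simp [hr0.le]
  have hA0 : ‖G 0‖ ≤ A := hA 0 h0mem
  have s1 : ∀ z ∈ frontier (Metric.ball (0 : ℂ) r), ‖dslope G 0 z‖ ≤ 2 * A / r := by
    intro z hz
    rw [hfr] at hz
    have hz1 : ‖z‖ = r := by simpa using hz
    have hz0 : z ≠ 0 := by
      intro h
      rw [h, norm_zero] at hz1
      linarith
    rw [dslope_of_ne _ hz0, slope_def_field, norm_div, sub_zero, hz1]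
    apply div_le_div_of_nonneg_right _ hr0.le
    have h3 : ‖G z‖ ≤ A := hA z (by simp [hz1])
    calc ‖G z - G 0‖ ≤ ‖G z‖ + ‖G 0‖ := norm_sub_le _ _
      _ ≤ 2 * A := by linarith
  have e0 : ‖dslope G 0 0‖ ≤ 2 * A / r := by
    apply Complex.norm_le_of_forall_mem_frontier_norm_le hb d1 s1
    rw [hcl]
    exact h0mem
  have s2 : ∀ z ∈ frontier (Metric.ball (0 : ℂ) r), ‖dslope (dslope G 0) 0 z‖ ≤ 4 * A / r ^ 2 := by
    intro z hz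
    have h4 := s1 z hz
    rw [hfr] at hz
    have hz1 : ‖z‖ = r := by simpa using hz
    have hz0 : z ≠ 0 := by
      intro h
      rw [h, norm_zero] at hz1
      linarith
    rw [dslope_of_ne _ hz0, slope_def_field, norm_div, sub_zero, hz1, div_le_iff₀ hr0]
    calc ‖dslope G 0 z - dslope G 0 0‖ ≤ ‖dslope G 0 z‖ + ‖dslope G 0 0‖ := norm_sub_le _ _
      _ ≤ 2 * A / r + 2 * A / r := by linarith
      _ = 4 * A / r ^ 2 * r := by field_simp; ring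
  have e1 : ‖dslope (dslope G 0) 0 1‖ ≤ 4 * A / r ^ 2 := by
    apply Complex.norm_le_of_forall_mem_frontier_norm_le hb d2 s2
    rw [hcl]
    simp [hr]
  have i1 : dslope G 0 1 = G 1 - G 0 := by
    rw [dslope_of_ne _ one_ne_zero, slope_def_field]
    simp
  have i2 : dslope (dslope G 0) 0 1 = G 1 - G 0 - deriv G 0 := by
    rw [dslope_of_ne _ one_ne_zero, slope_def_field, i1, dslope_same]
    simp
  rw [← i2]
  exact e1

/-- A point near `(q, q̄)` is in the domain. -/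
lemma near_dom {R ε : ℝ} (hR : 1 ≤ R) (hε : 0 < ε) (hε1 : ε ≤ 1 / 4) {q : ℂ}
    (hq : 2 * R < ‖q‖) {x : ℂ × ℂ} (h1 : ‖x.1 - q‖ ≤ ε / 8 * ‖q‖)
    (h2 : ‖x.2 - (starRingEnd ℂ) q‖ ≤ ε / 8 * ‖q‖) :
    x ∈ Dom R ε ∧ ‖x.1 - q‖ ≤ ‖q‖ / 2 := by
  have hq0 : 0 < ‖q‖ := by linarith
  have hcq : ‖(starRingEnd ℂ) q‖ = ‖q‖ := RCLike.norm_conj q
  have e1 : ε * ‖q‖ ≤ 1 / 4 * ‖q‖ := mul_le_mul_of_nonneg_right hε1 hq0.le
  have e0 : 0 < ε * ‖q‖ := mul_pos hε hq0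
  have a1 : 31 / 32 * ‖q‖ ≤ ‖x.1‖ := by
    have : ‖q‖ ≤ ‖x.1‖ + ‖x.1 - q‖ := by
      have h := norm_sub_le x.1 (x.1 - q)
      rwa [sub_sub_cancel] at h
    linarith
  have a2 : 31 / 32 * ‖q‖ ≤ ‖x.2‖ := by
    have : ‖(starRingEnd ℂ) q‖ ≤ ‖x.2‖ + ‖x.2 - (starRingEnd ℂ) q‖ := by
      have h := norm_sub_le x.2 (x.2 - (starRingEnd ℂ) q)
      rwa [sub_sub_cancel] at h
    rw [hcq] at this
    linarith
  have a3 : ‖x.2 - (starRingEnd ℂ) x.1‖ ≤ ε / 4 * ‖q‖ := by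
    have h3 : x.2 - (starRingEnd ℂ) x.1
        = (x.2 - (starRingEnd ℂ) q) - (starRingEnd ℂ) (x.1 - q) := by
      rw [map_sub]; ring
    rw [h3]
    have h4 := norm_sub_le (x.2 - (starRingEnd ℂ) q) ((starRingEnd ℂ) (x.1 - q))
    rw [RCLike.norm_conj] at h4
    linarith
  have b1 : ε * (31 / 32 * ‖q‖) ≤ ε * ‖x.1‖ := mul_le_mul_of_nonneg_left a1 hε.le
  have b2 : ε * (31 / 32 * ‖q‖) ≤ ε * ‖x.2‖ := mul_le_mul_of_nonneg_left a2 hε.le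
  refine ⟨⟨by linarith, by linarith, by linarith, by linarith⟩, by linarith⟩

/-- Cauchy estimate for a directional derivative. -/
lemma dir_bound {F : ℂ × ℂ → ℂ} {x v : ℂ × ℂ} {r A : ℝ} (hr : 0 < r)
    (hF : ∀ z ∈ Metric.closedBall (0 : ℂ) r, DifferentiableAt ℂ F (x + z • v))
    (hA : ∀ z ∈ Metric.closedBall (0 : ℂ) r, ‖F (x + z • v)‖ ≤ A) :
    ‖fderiv ℂ F x v‖ ≤ A / r := by
  have h0 : (0 : ℂ) ∈ Metric.closedBall (0 : ℂ) r := by simp [hr.le]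
  have hline : ∀ z : ℂ, HasDerivAt (fun z : ℂ => x + z • v) v z := by
    intro z
    have h1 := (hasDerivAt_id z).smul_const v
    simp only [one_smul] at h1
    exact h1.const_add x
  have hdiff : ∀ z ∈ Metric.closedBall (0 : ℂ) r,
      DifferentiableAt ℂ (fun z : ℂ => F (x + z • v)) z := by
    intro z hz
    exact (hF z hz).comp z (hline z).differentiableAt
  have hd0 : deriv (fun z : ℂ => F (x + z • v)) 0 = fderiv ℂ F x v := by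
    have hx : HasFDerivAt F (fderiv ℂ F x) (x + (0 : ℂ) • v) := by
      have h2 := (hF 0 h0).hasFDerivAt
      have h3 : x + (0 : ℂ) • v = x := by simp
      rw [h3] at h2 ⊢
      exact h2
    exact (hx.comp_hasDerivAt (0 : ℂ) (hline 0)).deriv
  rw [← hd0]
  apply Complex.norm_deriv_le_of_forall_mem_sphere_norm_le hr
  · apply DifferentiableOn.diffContOnCl
    rw [closure_ball (0 : ℂ) hr.ne']
    exact fun z hz => (hdiff z hz).differentiableWithinAt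
  · intro z hz
    exact hA z (Metric.sphere_subset_closedBall hz)

theorem taylor_slice {N : ℕ} (hN : 1 ≤ N) {ε : ℝ} (hε : 0 < ε) (hε1 : ε ≤ 1 / 4) :
    ∃ M c : ℝ, 0 < M ∧ 0 < c ∧ c ≤ 1 / 4 ∧ ∀ R : ℝ, 1 ≤ R → ∀ F : ℂ × ℂ → ℂ,
      DifferentiableOn ℂ F (Dom R ε) → ∀ q : ℂ, 2 * R < ‖q‖ → ∀ A : ℝ,
      (∀ x ∈ Dom R ε, ‖x.1 - q‖ ≤ ‖q‖ / 2 → ‖F x‖ ≤ A) →
      ∃ ft fb : ℂ, N * q ^ (N - 1) * ft = fderiv ℂ F (q, (starRingEnd ℂ) q) (1, 0) ∧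
        IsTay N M c A (fun q => F (q, (starRingEnd ℂ) q)) q ft fb := by
  refine ⟨4096 / ε ^ 2, ε / 64, by positivity, by positivity, by linarith, ?_⟩
  intro R hR F hF q hq A hA
  have hq0 : 0 < ‖q‖ := by linarith
  have hqne : q ≠ 0 := norm_pos_iff.mp hq0
  have hcq : ‖(starRingEnd ℂ) q‖ = ‖q‖ := RCLike.norm_conj q
  have hcqne : (starRingEnd ℂ) q ≠ 0 := by
    rw [← norm_pos_iff, hcq]; exact hq0
  have hNne : (N : ℂ) ≠ 0 := by
    have : N ≠ 0 := by omega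
    exact_mod_cast this
  have hN1 : (1 : ℝ) ≤ N := by exact_mod_cast hN
  have hTsucc : q ^ N = q ^ (N - 1) * q := by
    rw [← pow_succ]; congr 1; omega
  have hcTsucc : (starRingEnd ℂ) q ^ N = (starRingEnd ℂ) q ^ (N - 1) * (starRingEnd ℂ) q := by
    rw [← pow_succ]; congr 1; omega
  have hnT : ‖q‖ ^ N = ‖q‖ ^ (N - 1) * ‖q‖ := by
    rw [← pow_succ]; congr 1; omega
  have hopen := isOpen_Dom R ε
  have hdA : ∀ x : ℂ × ℂ, ‖x.1 - q‖ ≤ ε / 8 * ‖q‖ → ‖x.2 - (starRingEnd ℂ) q‖ ≤ ε / 8 * ‖q‖ →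
      DifferentiableAt ℂ F x ∧ ‖F x‖ ≤ A := by
    intro x h1 h2
    obtain ⟨h3, h4⟩ := near_dom hR hε hε1 hq h1 h2
    exact ⟨(hF x h3).differentiableAt (hopen.mem_nhds h3), hA x h3 h4⟩
  have hr0 : 0 < ε / 8 * ‖q‖ := by positivity
  have hx0 := hdA (q, (starRingEnd ℂ) q) (by simp; positivity) (by simp; positivity)
  have hA0 : 0 ≤ A := (norm_nonneg _).trans hx0.2
  set fd := fderiv ℂ F (q, (starRingEnd ℂ) q) with hfd
  have bq : ‖fd (1, 0)‖ ≤ A / (ε / 8 * ‖q‖) := by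
    apply dir_bound hr0
    · intro z hz
      have hz' : ‖z‖ ≤ ε / 8 * ‖q‖ := by simpa using hz
      exact (hdA _ (by simpa using hz') (by simp; positivity)).1
    · intro z hz
      have hz' : ‖z‖ ≤ ε / 8 * ‖q‖ := by simpa using hz
      exact (hdA _ (by simpa using hz') (by simp; positivity)).2
  have br : ‖fd (0, 1)‖ ≤ A / (ε / 8 * ‖q‖) := by
    apply dir_bound hr0
    · intro z hz
      have hz' : ‖z‖ ≤ ε / 8 * ‖q‖ := by simpa using hz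
      exact (hdA _ (by simp; positivity) (by simpa using hz')).1
    · intro z hz
      have hz' : ‖z‖ ≤ ε / 8 * ‖q‖ := by simpa using hz
      exact (hdA _ (by simp; positivity) (by simpa using hz')).2
  have hMbig : 8 / ε * A ≤ 4096 / ε ^ 2 * A := by
    apply mul_le_mul_of_nonneg_right _ hA0
    rw [div_le_div_iff₀ hε (by positivity)]
    nlinarith
  have bound : ∀ (a b : ℂ), ‖b‖ = ‖q‖ ^ (N - 1) → ‖a‖ ≤ A / (ε / 8 * ‖q‖) →
      ‖a / (N * b)‖ * ‖q‖ ^ N ≤ 4096 / ε ^ 2 * A := by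
    intro a b hb ha
    rw [norm_div, norm_mul, Complex.norm_natCast, hb, hnT]
    have hp : 0 < ‖q‖ ^ (N - 1) := by positivity
    calc ‖a‖ / (N * ‖q‖ ^ (N - 1)) * (‖q‖ ^ (N - 1) * ‖q‖)
        = ‖a‖ * ‖q‖ / N := by
          have : (N : ℝ) ≠ 0 := by positivity
          field_simp
      _ ≤ ‖a‖ * ‖q‖ := by
          apply div_le_self (by positivity) hN1
      _ ≤ A / (ε / 8 * ‖q‖) * ‖q‖ := mul_le_mul_of_nonneg_right ha hq0.le
      _ = 8 / ε * A := by field_simp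
      _ ≤ _ := hMbig
  refine ⟨fd (1, 0) / (N * q ^ (N - 1)), fd (0, 1) / (N * (starRingEnd ℂ) q ^ (N - 1)), ?_,
    bound _ _ (by rw [norm_pow]) bq, bound _ _ (by rw [norm_pow, hcq]) br, ?_⟩
  · have : q ^ (N - 1) ≠ 0 := pow_ne_zero _ hqne
    field_simp
  intro w hw
  rcases eq_or_ne w 0 with h0 | hw0
  · subst h0
    simp [rt_zero]
  have hT : 0 < ‖q‖ ^ N := by positivity
  set u : ℂ := w / q ^ N with hu
  have hqN : q ^ N ≠ 0 := pow_ne_zero _ hqne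
  have hune : u ≠ 0 := div_ne_zero hw0 hqN
  have hu0 : 0 < ‖u‖ := norm_pos_iff.mpr hune
  have huT : ‖u‖ * ‖q‖ ^ N = ‖w‖ := by
    rw [hu, norm_div, norm_pow]
    field_simp
  have huc : ‖u‖ ≤ ε / 64 := by
    have : ‖u‖ * ‖q‖ ^ N ≤ ε / 64 * ‖q‖ ^ N := by rw [huT]; exact hw
    exact le_of_mul_le_mul_right this hT
  set r : ℝ := ε / 32 / ‖u‖ with hrdef
  have hru : r * ‖u‖ = ε / 32 := by rw [hrdef]; field_simp
  have hr1 : 1 ≤ r := by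
    rw [hrdef, le_div_iff₀ hu0]
    linarith
  set α : ℂ := (1 : ℂ) / N with hα
  have hcu : ‖(starRingEnd ℂ) u‖ = ‖u‖ := RCLike.norm_conj u
  have hsm : ∀ v : ℂ, ‖v‖ = ‖u‖ → ∀ ζ ∈ Metric.closedBall (0 : ℂ) r, ‖ζ * v‖ ≤ ε / 32 := by
    intro v hv ζ hζ
    have hζ' : ‖ζ‖ ≤ r := by simpa using hζ
    rw [norm_mul, hv, ← hru]
    exact mul_le_mul_of_nonneg_right hζ' hu0.le
  have hclose : ∀ p v : ℂ, ‖p‖ = ‖q‖ → ‖v‖ = ‖u‖ → ∀ ζ ∈ Metric.closedBall (0 : ℂ) r,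
      ‖p * (1 + ζ * v) ^ α - p‖ ≤ ε / 8 * ‖q‖ := by
    intro p v hp hv ζ hζ
    have h1 := hsm v hv ζ hζ
    have h2 := one_add_cpow_sub_one hN (u := ζ * v) (by linarith)
    have h3 : p * (1 + ζ * v) ^ α - p = p * ((1 + ζ * v) ^ α - 1) := by ring
    rw [h3, norm_mul, hp]
    calc ‖q‖ * ‖(1 + ζ * v) ^ α - 1‖ ≤ ‖q‖ * (2 * ‖ζ * v‖) :=
          mul_le_mul_of_nonneg_left h2 hq0.le
      _ ≤ ‖q‖ * (2 * (ε / 32)) := by gcongr
      _ ≤ ε / 8 * ‖q‖ := by nlinarith [mul_pos hε hq0]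
  have hder : ∀ p v : ℂ, ‖v‖ = ‖u‖ → ∀ ζ ∈ Metric.closedBall (0 : ℂ) r,
      HasDerivAt (fun ζ : ℂ => p * (1 + ζ * v) ^ α) (p * (α * (1 + ζ * v) ^ (α - 1) * v)) ζ := by
    intro p v hv ζ hζ
    have h1 := hsm v hv ζ hζ
    have h2 : 1 + ζ * v ∈ Complex.slitPlane :=
      Complex.mem_slitPlane_of_norm_lt_one (by linarith)
    have h3 : HasDerivAt (fun ζ : ℂ => 1 + ζ * v) v ζ := by
      have h4 := (hasDerivAt_id ζ).mul_const v
      simp only [one_mul] at h4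
      exact h4.const_add 1
    exact (h3.cpow_const h2).const_mul p
  set G : ℂ → ℂ := fun ζ => F (q * (1 + ζ * u) ^ α,
    (starRingEnd ℂ) q * (1 + ζ * (starRingEnd ℂ) u) ^ α) with hG
  have hG1 : ∀ ζ ∈ Metric.closedBall (0 : ℂ) r, DifferentiableAt ℂ G ζ ∧ ‖G ζ‖ ≤ A := by
    intro ζ hζ
    have h1 := hdA (q * (1 + ζ * u) ^ α, (starRingEnd ℂ) q * (1 + ζ * (starRingEnd ℂ) u) ^ α)
      (hclose q u rfl rfl ζ hζ) (hclose _ _ hcq hcu ζ hζ)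
    refine ⟨?_, h1.2⟩
    have h2 : DifferentiableAt ℂ (fun ζ : ℂ => (q * (1 + ζ * u) ^ α,
        (starRingEnd ℂ) q * (1 + ζ * (starRingEnd ℂ) u) ^ α)) ζ :=
      (hder q u rfl ζ hζ).differentiableAt.prodMk (hder _ _ hcu ζ hζ).differentiableAt
    exact h1.1.comp ζ h2
  have hrem := quad_rem hr1 (fun z hz => (hG1 z hz).1.differentiableWithinAt)
    (fun z hz => (hG1 z hz).2)
  have h0mem : (0 : ℂ) ∈ Metric.closedBall (0 : ℂ) r := by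
    simp; linarith
  have hG0 : G 0 = F (q, (starRingEnd ℂ) q) := by
    simp [hG]
  have harg : (1 + u).arg ≠ Real.pi := by
    have h2 : 1 + u ∈ Complex.slitPlane :=
      Complex.mem_slitPlane_of_norm_lt_one (by linarith)
    exact (Complex.mem_slitPlane_iff_arg.mp h2).1
  have hconjα : (starRingEnd ℂ) α = α := by
    rw [hα]; simp
  have hG1' : G 1 = F (rt N q w, (starRingEnd ℂ) (rt N q w)) := by
    have h1 : (starRingEnd ℂ) (rt N q w)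
        = (starRingEnd ℂ) q * (1 + 1 * (starRingEnd ℂ) u) ^ α := by
      unfold rt
      rw [map_mul, one_mul]
      congr 1
      have h2 := Complex.conj_cpow (1 + u) α harg
      rw [hconjα, map_add, map_one] at h2
      exact h2.symm
    rw [h1]
    simp only [hG, one_mul]
    rfl
  have hderG : deriv G 0 = fd (1, 0) / (N * q ^ (N - 1)) * w
      + fd (0, 1) / (N * (starRingEnd ℂ) q ^ (N - 1)) * (starRingEnd ℂ) w := by
    have h1 := hder q u rfl 0 h0mem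
    have h2 := hder ((starRingEnd ℂ) q) _ hcu 0 h0mem
    simp only [zero_mul, add_zero, Complex.one_cpow, mul_one] at h1 h2
    have h3 : HasFDerivAt F fd ((q * (1 + (0 : ℂ) * u) ^ α,
        (starRingEnd ℂ) q * (1 + (0 : ℂ) * (starRingEnd ℂ) u) ^ α)) := by
      simp only [zero_mul, add_zero, Complex.one_cpow, mul_one]
      exact hx0.1.hasFDerivAt
    have h4 := h3.comp_hasDerivAt (0 : ℂ) (h1.prodMk h2)
    have h5 : deriv G 0 = fd (q * (α * u), (starRingEnd ℂ) q * (α * (starRingEnd ℂ) u)) :=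
      h4.deriv
    have h6 : ((q * (α * u), (starRingEnd ℂ) q * (α * (starRingEnd ℂ) u)) : ℂ × ℂ)
        = (q * (α * u)) • ((1, 0) : ℂ × ℂ)
          + ((starRingEnd ℂ) q * (α * (starRingEnd ℂ) u)) • ((0, 1) : ℂ × ℂ) := by
      ext <;> simp
    rw [h5, h6, map_add, map_smul, map_smul, smul_eq_mul, smul_eq_mul]
    have e1 : q * (α * u) = w / (N * q ^ (N - 1)) := by
      rw [hα, hu, hTsucc]
      have : q ^ (N - 1) ≠ 0 := pow_ne_zero _ hqne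
      field_simp
    have e2 : (starRingEnd ℂ) q * (α * (starRingEnd ℂ) u)
        = (starRingEnd ℂ) w / (N * (starRingEnd ℂ) q ^ (N - 1)) := by
      rw [hα, hu, map_div₀, map_pow, hcTsucc]
      have : (starRingEnd ℂ) q ^ (N - 1) ≠ 0 := pow_ne_zero _ hcqne
      field_simp
    rw [e1, e2]
    ring
  rw [hderG, hG0, hG1'] at hrem
  have hfin : ‖F (rt N q w, (starRingEnd ℂ) (rt N q w)) - F (q, (starRingEnd ℂ) q)
      - fd (1, 0) / (N * q ^ (N - 1)) * w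
      - fd (0, 1) / (N * (starRingEnd ℂ) q ^ (N - 1)) * (starRingEnd ℂ) w‖ ≤ 4 * A / r ^ 2 := by
    have h7 : F (rt N q w, (starRingEnd ℂ) (rt N q w)) - F (q, (starRingEnd ℂ) q)
      - fd (1, 0) / (N * q ^ (N - 1)) * w
      - fd (0, 1) / (N * (starRingEnd ℂ) q ^ (N - 1)) * (starRingEnd ℂ) w
      = F (rt N q w, (starRingEnd ℂ) (rt N q w)) - F (q, (starRingEnd ℂ) q)
      - (fd (1, 0) / (N * q ^ (N - 1)) * w
      + fd (0, 1) / (N * (starRingEnd ℂ) q ^ (N - 1)) * (starRingEnd ℂ) w) := by ring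
    rw [h7]
    exact hrem
  calc _ ≤ 4 * A / r ^ 2 * (‖q‖ ^ N) ^ 2 := mul_le_mul_of_nonneg_right hfin (by positivity)
    _ = 4096 / ε ^ 2 * A * ‖w‖ ^ 2 := by
      rw [← huT, hrdef]
      field_simp
      ring

lemma IsTay.mono {N : ℕ} {M M' c c' A : ℝ} {f : ℂ → ℂ} {q ft fb : ℂ}
    (h : IsTay N M c A f q ft fb) (hA : 0 ≤ A) (hM : M ≤ M') (hc : c' ≤ c) :
    IsTay N M' c' A f q ft fb := by
  obtain ⟨h1, h2, h3⟩ := h
  have hMA : M * A ≤ M' * A := mul_le_mul_of_nonneg_right hM hA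
  refine ⟨h1.trans hMA, h2.trans hMA, fun w hw => ?_⟩
  have hT : 0 ≤ ‖q‖ ^ N := by positivity
  have h4 := h3 w (hw.trans (mul_le_mul_of_nonneg_right hc hT))
  exact h4.trans (mul_le_mul_of_nonneg_right hMA (by positivity))

lemma IsTay.add {N : ℕ} {M c A : ℝ} {f g : ℂ → ℂ} {q ft fb gt gb : ℂ}
    (hf : IsTay N M c A f q ft fb) (hg : IsTay N M c A g q gt gb) :
    IsTay N (2 * M) c A (fun q => f q + g q) q (ft + gt) (fb + gb) := by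
  obtain ⟨f1, f2, f3⟩ := hf
  obtain ⟨g1, g2, g3⟩ := hg
  have hT : 0 ≤ ‖q‖ ^ N := by positivity
  refine ⟨?_, ?_, fun w hw => ?_⟩
  · calc ‖ft + gt‖ * ‖q‖ ^ N ≤ (‖ft‖ + ‖gt‖) * ‖q‖ ^ N :=
          mul_le_mul_of_nonneg_right (norm_add_le _ _) hT
      _ ≤ 2 * M * A := by linarith
  · calc ‖fb + gb‖ * ‖q‖ ^ N ≤ (‖fb‖ + ‖gb‖) * ‖q‖ ^ N :=
          mul_le_mul_of_nonneg_right (norm_add_le _ _) hT
      _ ≤ 2 * M * A := by linarith
  · have h1 := f3 w hw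
    have h2 := g3 w hw
    have e : f (rt N q w) + g (rt N q w) - (f q + g q) - (ft + gt) * w
        - (fb + gb) * (starRingEnd ℂ) w
        = (f (rt N q w) - f q - ft * w - fb * (starRingEnd ℂ) w)
          + (g (rt N q w) - g q - gt * w - gb * (starRingEnd ℂ) w) := by ring
    show ‖f (rt N q w) + g (rt N q w) - (f q + g q) - (ft + gt) * w
        - (fb + gb) * (starRingEnd ℂ) w‖ * (‖q‖ ^ N) ^ 2 ≤ 2 * M * A * ‖w‖ ^ 2
    rw [e]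
    calc _ ≤ (‖f (rt N q w) - f q - ft * w - fb * (starRingEnd ℂ) w‖
          + ‖g (rt N q w) - g q - gt * w - gb * (starRingEnd ℂ) w‖) * (‖q‖ ^ N) ^ 2 :=
          mul_le_mul_of_nonneg_right (norm_add_le _ _) (by positivity)
      _ ≤ 2 * M * A * ‖w‖ ^ 2 := by linarith

lemma IsTay.const_mul {N : ℕ} {M c A : ℝ} {f : ℂ → ℂ} {q ft fb : ℂ}
    (hf : IsTay N M c A f q ft fb) (a : ℂ) :
    IsTay N M c (‖a‖ * A) (fun q => a * f q) q (a * ft) (a * fb) := by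
  obtain ⟨f1, f2, f3⟩ := hf
  have ha : 0 ≤ ‖a‖ := norm_nonneg a
  refine ⟨?_, ?_, fun w hw => ?_⟩
  · rw [norm_mul]
    nlinarith [mul_le_mul_of_nonneg_left f1 ha]
  · rw [norm_mul]
    nlinarith [mul_le_mul_of_nonneg_left f2 ha]
  · have h1 := mul_le_mul_of_nonneg_left (f3 w hw) ha
    have e : a * f (rt N q w) - a * f q - a * ft * w - a * fb * (starRingEnd ℂ) w
        = a * (f (rt N q w) - f q - ft * w - fb * (starRingEnd ℂ) w) := by ring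
    show ‖a * f (rt N q w) - a * f q - a * ft * w - a * fb * (starRingEnd ℂ) w‖
      * (‖q‖ ^ N) ^ 2 ≤ M * (‖a‖ * A) * ‖w‖ ^ 2
    rw [e, norm_mul]
    nlinarith [h1]

lemma mul_rem {f0 g0 Lf Lg rf rg : ℂ} {T M A A' W : ℝ} (hT : 0 < T) (hM : 1 ≤ M)
    (hA : 0 ≤ A) (hA' : 0 ≤ A') (hW : 0 ≤ W) (hWT : W ≤ T)
    (h1 : ‖f0‖ ≤ M * A) (h2 : ‖g0‖ ≤ M * A') (h3 : ‖Lf‖ * T ≤ 2 * (M * A) * W)
    (h4 : ‖Lg‖ * T ≤ 2 * (M * A') * W) (h5 : ‖rf‖ * T ^ 2 ≤ M * A * W ^ 2)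
    (h6 : ‖rg‖ * T ^ 2 ≤ M * A' * W ^ 2) :
    ‖(f0 + Lf + rf) * (g0 + Lg + rg) - f0 * g0 - (Lf * g0 + f0 * Lg)‖ * T ^ 2
      ≤ 12 * M ^ 2 * (A * A') * W ^ 2 := by
  have hMA : 0 ≤ M * A := by positivity
  have hMA' : 0 ≤ M * A' := by positivity
  have e : (f0 + Lf + rf) * (g0 + Lg + rg) - f0 * g0 - (Lf * g0 + f0 * Lg)
      = f0 * rg + rf * g0 + Lf * Lg + Lf * rg + rf * Lg + rf * rg := by ring
  have hn : ‖f0 * rg + rf * g0 + Lf * Lg + Lf * rg + rf * Lg + rf * rg‖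
      ≤ ‖f0‖ * ‖rg‖ + ‖rf‖ * ‖g0‖ + ‖Lf‖ * ‖Lg‖ + ‖Lf‖ * ‖rg‖ + ‖rf‖ * ‖Lg‖ + ‖rf‖ * ‖rg‖ := by
    calc _ ≤ ‖f0 * rg + rf * g0 + Lf * Lg + Lf * rg + rf * Lg‖ + ‖rf * rg‖ := norm_add_le _ _
      _ ≤ (‖f0 * rg + rf * g0 + Lf * Lg + Lf * rg‖ + ‖rf * Lg‖) + ‖rf * rg‖ := by
          gcongr; exact norm_add_le _ _
      _ ≤ ((‖f0 * rg + rf * g0 + Lf * Lg‖ + ‖Lf * rg‖) + ‖rf * Lg‖) + ‖rf * rg‖ := by
          gcongr; exact norm_add_le _ _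
      _ ≤ (((‖f0 * rg + rf * g0‖ + ‖Lf * Lg‖) + ‖Lf * rg‖) + ‖rf * Lg‖) + ‖rf * rg‖ := by
          gcongr; exact norm_add_le _ _
      _ ≤ ((((‖f0 * rg‖ + ‖rf * g0‖) + ‖Lf * Lg‖) + ‖Lf * rg‖) + ‖rf * Lg‖) + ‖rf * rg‖ := by
          gcongr; exact norm_add_le _ _
      _ = _ := by simp only [norm_mul]
  rw [e]
  have hLf : ‖Lf‖ ≤ 2 * (M * A) := by
    have : ‖Lf‖ * T ≤ 2 * (M * A) * T := h3.trans (mul_le_mul_of_nonneg_left hWT (by positivity))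
    exact le_of_mul_le_mul_right this hT
  have hLg : ‖Lg‖ ≤ 2 * (M * A') := by
    have : ‖Lg‖ * T ≤ 2 * (M * A') * T := h4.trans (mul_le_mul_of_nonneg_left hWT (by positivity))
    exact le_of_mul_le_mul_right this hT
  have hrf : ‖rf‖ ≤ M * A := by
    have h7 : W ^ 2 ≤ T ^ 2 := pow_le_pow_left₀ hW hWT 2
    have : ‖rf‖ * T ^ 2 ≤ (M * A) * T ^ 2 := h5.trans (mul_le_mul_of_nonneg_left h7 hMA)
    exact le_of_mul_le_mul_right this (by positivity)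
  have a1 : ‖f0‖ * (‖rg‖ * T ^ 2) ≤ (M * A) * (M * A' * W ^ 2) :=
    mul_le_mul h1 h6 (by positivity) hMA
  have a2 : (‖rf‖ * T ^ 2) * ‖g0‖ ≤ (M * A * W ^ 2) * (M * A') :=
    mul_le_mul h5 h2 (by positivity) (by positivity)
  have a3 : (‖Lf‖ * T) * (‖Lg‖ * T) ≤ (2 * (M * A) * W) * (2 * (M * A') * W) :=
    mul_le_mul h3 h4 (by positivity) (by positivity)
  have a4 : ‖Lf‖ * (‖rg‖ * T ^ 2) ≤ (2 * (M * A)) * (M * A' * W ^ 2) :=
    mul_le_mul hLf h6 (by positivity) (by positivity)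
  have a5 : (‖rf‖ * T ^ 2) * ‖Lg‖ ≤ (M * A * W ^ 2) * (2 * (M * A')) :=
    mul_le_mul h5 hLg (by positivity) (by positivity)
  have a6 : ‖rf‖ * (‖rg‖ * T ^ 2) ≤ (M * A) * (M * A' * W ^ 2) :=
    mul_le_mul hrf h6 (by positivity) hMA
  have a7 : 0 ≤ M ^ 2 * (A * A') * W ^ 2 := by positivity
  calc _ ≤ (‖f0‖ * ‖rg‖ + ‖rf‖ * ‖g0‖ + ‖Lf‖ * ‖Lg‖ + ‖Lf‖ * ‖rg‖ + ‖rf‖ * ‖Lg‖
        + ‖rf‖ * ‖rg‖) * T ^ 2 := mul_le_mul_of_nonneg_right hn (by positivity)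
    _ = ‖f0‖ * (‖rg‖ * T ^ 2) + (‖rf‖ * T ^ 2) * ‖g0‖ + (‖Lf‖ * T) * (‖Lg‖ * T)
        + ‖Lf‖ * (‖rg‖ * T ^ 2) + (‖rf‖ * T ^ 2) * ‖Lg‖ + ‖rf‖ * (‖rg‖ * T ^ 2) := by ring
    _ ≤ (M * A) * (M * A' * W ^ 2) + (M * A * W ^ 2) * (M * A')
        + (2 * (M * A) * W) * (2 * (M * A') * W) + (2 * (M * A)) * (M * A' * W ^ 2)
        + (M * A * W ^ 2) * (2 * (M * A')) + (M * A) * (M * A' * W ^ 2) := by linarith
    _ = 11 * (M ^ 2 * (A * A') * W ^ 2) := by ring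
    _ ≤ 12 * M ^ 2 * (A * A') * W ^ 2 := by linarith

lemma IsTay.mul {N : ℕ} {M c A A' : ℝ} {f g : ℂ → ℂ} {q ft fb gt gb : ℂ} (hq : 1 ≤ ‖q‖)
    (hM : 1 ≤ M) (hc : 0 < c) (hc1 : c ≤ 1) (hA : 0 ≤ A) (hA' : 0 ≤ A')
    (hf : IsTay N M c A f q ft fb) (hg : IsTay N M c A' g q gt gb) (hfq : ‖f q‖ ≤ M * A)
    (hgq : ‖g q‖ ≤ M * A') :
    IsTay N (12 * M ^ 2) c (A * A') (fun q => f q * g q) q (ft * g q + f q * gt)
      (fb * g q + f q * gb) := by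
  obtain ⟨f1, f2, f3⟩ := hf
  obtain ⟨g1, g2, g3⟩ := hg
  have hT : 0 < ‖q‖ ^ N := by positivity
  have hMA : 0 ≤ M * A := by positivity
  have hMA' : 0 ≤ M * A' := by positivity
  have hMM : 0 ≤ M ^ 2 * (A * A') := by positivity
  have key : ∀ u v : ℂ, ‖u‖ * ‖q‖ ^ N ≤ M * A → ‖v‖ * ‖q‖ ^ N ≤ M * A' →
      ‖u * g q + f q * v‖ * ‖q‖ ^ N ≤ 12 * M ^ 2 * (A * A') := by
    intro u v hu hv
    have b1 : (‖u‖ * ‖q‖ ^ N) * ‖g q‖ ≤ (M * A) * (M * A') :=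
      mul_le_mul hu hgq (norm_nonneg _) hMA
    have b2 : ‖f q‖ * (‖v‖ * ‖q‖ ^ N) ≤ (M * A) * (M * A') :=
      mul_le_mul hfq hv (by positivity) hMA
    calc ‖u * g q + f q * v‖ * ‖q‖ ^ N ≤ (‖u‖ * ‖g q‖ + ‖f q‖ * ‖v‖) * ‖q‖ ^ N := by
          apply mul_le_mul_of_nonneg_right _ hT.le
          calc _ ≤ ‖u * g q‖ + ‖f q * v‖ := norm_add_le _ _
            _ = _ := by simp only [norm_mul]
      _ = (‖u‖ * ‖q‖ ^ N) * ‖g q‖ + ‖f q‖ * (‖v‖ * ‖q‖ ^ N) := by ring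
      _ ≤ (M * A) * (M * A') + (M * A) * (M * A') := by linarith
      _ = 2 * (M ^ 2 * (A * A')) := by ring
      _ ≤ 12 * M ^ 2 * (A * A') := by linarith
  refine ⟨key ft gt f1 g1, key fb gb f2 g2, fun w hw => ?_⟩
  have hwT : ‖w‖ ≤ ‖q‖ ^ N := hw.trans (by nlinarith)
  have hLin : ∀ (B : ℝ) (u v : ℂ), ‖u‖ * ‖q‖ ^ N ≤ B → ‖v‖ * ‖q‖ ^ N ≤ B →
      ‖u * w + v * (starRingEnd ℂ) w‖ * ‖q‖ ^ N ≤ 2 * B * ‖w‖ := by
    intro B u v hu hv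
    have hw0 : 0 ≤ ‖w‖ := norm_nonneg w
    calc ‖u * w + v * (starRingEnd ℂ) w‖ * ‖q‖ ^ N
        ≤ (‖u‖ * ‖w‖ + ‖v‖ * ‖w‖) * ‖q‖ ^ N := by
          apply mul_le_mul_of_nonneg_right _ hT.le
          calc _ ≤ ‖u * w‖ + ‖v * (starRingEnd ℂ) w‖ := norm_add_le _ _
            _ = _ := by simp only [norm_mul, RCLike.norm_conj]
      _ = (‖u‖ * ‖q‖ ^ N) * ‖w‖ + (‖v‖ * ‖q‖ ^ N) * ‖w‖ := by ring
      _ ≤ B * ‖w‖ + B * ‖w‖ := by
          have := mul_le_mul_of_nonneg_right hu hw0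
          have := mul_le_mul_of_nonneg_right hv hw0
          linarith
      _ = 2 * B * ‖w‖ := by ring
  have h := mul_rem (f0 := f q) (g0 := g q) (Lf := ft * w + fb * (starRingEnd ℂ) w)
    (Lg := gt * w + gb * (starRingEnd ℂ) w)
    (rf := f (rt N q w) - f q - ft * w - fb * (starRingEnd ℂ) w)
    (rg := g (rt N q w) - g q - gt * w - gb * (starRingEnd ℂ) w)
    hT hM hA hA' (norm_nonneg w) hwT hfq hgq (hLin _ _ _ f1 f2) (hLin _ _ _ g1 g2)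
    (f3 w hw) (g3 w hw)
  have e : f (rt N q w) * g (rt N q w) - f q * g q - (ft * g q + f q * gt) * w
      - (fb * g q + f q * gb) * (starRingEnd ℂ) w
      = (f q + (ft * w + fb * (starRingEnd ℂ) w)
          + (f (rt N q w) - f q - ft * w - fb * (starRingEnd ℂ) w))
        * (g q + (gt * w + gb * (starRingEnd ℂ) w)
          + (g (rt N q w) - g q - gt * w - gb * (starRingEnd ℂ) w)) - f q * g q
        - ((ft * w + fb * (starRingEnd ℂ) w) * g q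
          + f q * (gt * w + gb * (starRingEnd ℂ) w)) := by ring
  show ‖f (rt N q w) * g (rt N q w) - f q * g q - (ft * g q + f q * gt) * w
      - (fb * g q + f q * gb) * (starRingEnd ℂ) w‖ * (‖q‖ ^ N) ^ 2
      ≤ 12 * M ^ 2 * (A * A') * ‖w‖ ^ 2
  rw [e]
  exact h

end Pool.Agent.H77.N2
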