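import Pool.Agent.H77.N2.Defs
import Pool.Agent.H77.N2.Chain
import Pool.Agent.H77.N2.Tay

/-!
Auxiliary lemmas for the module PACK of MP_6e521b_an (n = 2).
-/

open Filter Topology Polynomial

namespace Pool.Agent.H77.N2.Pk

open Pool.Agent.H77.N2.Ch

lemma eval_cst_upp (N : ℕ) (C : ℂ[X]) (k : ℕ) (z : ℂ) :
    (cst (upp N C k)).eval z = ∑ a ∈ Finset.Ico k N, (starRingEnd ℂ) (C.coeff a) * z ^ a := by
  unfold cst upp
  rw [Polynomial.map_sum, eval_finsetSum]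
  refine Finset.sum_congr rfl fun a _ => ?_
  rw [map_monomial, eval_monomial]

lemma eval_cst_ok {N : ℕ} {Γ : ℝ} {C : ℂ[X]} (hC : Ok N Γ C) (z : ℂ) :
    (cst C).eval z = ∑ a ∈ Finset.Ico 1 N, (starRingEnd ℂ) (C.coeff a) * z ^ a := by
  rw [← eval_cst_upp, upp_one hC]

lemma eval_ok {N : ℕ} {Γ : ℝ} {C : ℂ[X]} (hC : Ok N Γ C) (q : ℂ) :
    C.eval q = ∑ a ∈ Finset.Ico 1 N, C.coeff a * q ^ a := by
  conv_lhs => rw [← upp_one hC]
  unfold upp
  rw [eval_finsetSum]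
  refine Finset.sum_congr rfl fun a _ => ?_
  rw [eval_monomial]

lemma eval_sub_ok {N : ℕ} {Γ : ℝ} {C D : ℂ[X]} (hC : Ok N Γ C) (hD : Ok N Γ D) (q : ℂ) :
    (C - D).eval q = ∑ a ∈ Finset.Ico 1 N, (C.coeff a - D.coeff a) * q ^ a := by
  rw [eval_sub, eval_ok hC, eval_ok hD, ← Finset.sum_sub_distrib]
  refine Finset.sum_congr rfl fun a _ => ?_
  ring

/-- A common bound for the coefficients of finitely many polynomials. -/
lemma exists_coeff_bd {ι : Type*} [Finite ι] (C : ι → ℂ[X]) :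
    ∃ Γ : ℝ, 0 < Γ ∧ ∀ i a, ‖(C i).coeff a‖ ≤ Γ := by
  have := Fintype.ofFinite ι
  refine ⟨1 + ∑ i, ∑ a ∈ (C i).support, ‖(C i).coeff a‖, ?_, fun i a => ?_⟩
  · have : 0 ≤ ∑ i, ∑ a ∈ (C i).support, ‖(C i).coeff a‖ :=
      Finset.sum_nonneg fun i _ => Finset.sum_nonneg fun a _ => norm_nonneg _
    linarith
  · have h1 : ‖(C i).coeff a‖ ≤ ∑ a ∈ (C i).support, ‖(C i).coeff a‖ := by
      by_cases ha : a ∈ (C i).support
      · exact Finset.single_le_sum (f := fun a => ‖(C i).coeff a‖)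
          (fun a _ => norm_nonneg _) ha
      · rw [notMem_support_iff.1 ha, norm_zero]
        exact Finset.sum_nonneg fun a _ => norm_nonneg _
    have h2 : ∑ a ∈ (C i).support, ‖(C i).coeff a‖
        ≤ ∑ i, ∑ a ∈ (C i).support, ‖(C i).coeff a‖ :=
      Finset.single_le_sum (f := fun i => ∑ a ∈ (C i).support, ‖(C i).coeff a‖)
        (fun i _ => Finset.sum_nonneg fun a _ => norm_nonneg _) (Finset.mem_univ i)
    linarith

lemma rt_half {N : ℕ} (hN : 1 ≤ N) {q w : ℂ} {c : ℝ} (hq : q ≠ 0) (hc1 : c ≤ 1 / 4)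
    (hw : ‖w‖ ≤ c * ‖q‖ ^ N) : ‖rt N q w - q‖ ≤ ‖q‖ / 2 := by
  have hq0 : 0 < ‖q‖ := norm_pos_iff.mpr hq
  have hT : 0 < ‖q‖ ^ N := pow_pos hq0 N
  have hw4 : ‖w‖ ≤ 1 / 4 * ‖q‖ ^ N := hw.trans (mul_le_mul_of_nonneg_right hc1 hT.le)
  have h1 := rt_near hN hq (w := w) (by linarith)
  have h2 : ‖rt N q w - q‖ * ‖q‖ ^ N ≤ ‖q‖ / 2 * ‖q‖ ^ N := by
    refine h1.trans ?_
    have := mul_le_mul_of_nonneg_left hw4 hq0.le
    linarith
  exact le_of_mul_le_mul_right h2 hT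

lemma isTay_congr {N : ℕ} (hN : 1 ≤ N) {M c A : ℝ} {f g : ℂ → ℂ} {q ft fb : ℂ}
    (hq : q ≠ 0) (hc1 : c ≤ 1 / 4)
    (h : IsTay N M c A f q ft fb) (hfg : ∀ q' : ℂ, ‖q' - q‖ ≤ ‖q‖ / 2 → f q' = g q') :
    IsTay N M c A g q ft fb := by
  obtain ⟨h1, h2, h3⟩ := h
  refine ⟨h1, h2, fun w hw => ?_⟩
  have h4 := h3 w hw
  rw [hfg _ (rt_half hN hq hc1 hw), hfg q (by rw [sub_self, norm_zero]; positivity)] at h4
  exact h4

lemma isTay_scale {N : ℕ} {M c A K : ℝ} {f : ℂ → ℂ} {q ft fb : ℂ}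
    (h : IsTay N M c (K * A) f q ft fb) : IsTay N (M * K) c A f q ft fb := by
  obtain ⟨h1, h2, h3⟩ := h
  rw [← mul_assoc] at h1 h2
  exact ⟨h1, h2, fun w hw => by rw [mul_assoc M K A]; exact h3 w hw⟩

/-- A linear form with quadratically small imaginary part near `0` is real. -/
lemma real_tay {r M : ℝ} (hr : 0 < r) {a b : ℂ}
    (h : ∀ w : ℂ, ‖w‖ ≤ r → |(a * w + b * (starRingEnd ℂ) w).im| ≤ M * ‖w‖ ^ 2) :
    b = (starRingEnd ℂ) a := by
  by_contra hne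
  obtain ⟨D, hD⟩ : ∃ D, D = a - (starRingEnd ℂ) b := ⟨_, rfl⟩
  have hD0 : D ≠ 0 := by
    intro h0
    apply hne
    have h1 : a = (starRingEnd ℂ) b := by
      rw [← sub_eq_zero, ← hD, h0]
    rw [h1, Complex.conj_conj]
  have hDn : 0 < ‖D‖ := norm_pos_iff.mpr hD0
  have key : ∀ t : ℝ, 0 < t → t * ‖D‖ ≤ r → 1 ≤ M * t := by
    intro t ht htr
    have hw : ‖(t : ℂ) * (Complex.I * (starRingEnd ℂ) D)‖ = t * ‖D‖ := by
      rw [norm_mul, norm_mul, Complex.norm_I, RCLike.norm_conj, Complex.norm_real,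
        Real.norm_eq_abs, abs_of_pos ht, one_mul]
    have h1 := h ((t : ℂ) * (Complex.I * (starRingEnd ℂ) D)) (by rw [hw]; exact htr)
    have h2 : (a * ((t : ℂ) * (Complex.I * (starRingEnd ℂ) D))
        + b * (starRingEnd ℂ) ((t : ℂ) * (Complex.I * (starRingEnd ℂ) D))).im
        = t * ‖D‖ ^ 2 := by
      have h3 : ∀ w : ℂ, (a * w + b * (starRingEnd ℂ) w).im = (D * w).im := by
        intro w
        rw [hD]
        simp only [Complex.add_im, Complex.mul_im, Complex.sub_re, Complex.sub_im,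
          Complex.conj_re, Complex.conj_im]
        ring
      rw [h3]
      have h4 : D * ((t : ℂ) * (Complex.I * (starRingEnd ℂ) D))
          = ((t * ‖D‖ ^ 2 : ℝ) : ℂ) * Complex.I := by
        have h5 : D * (starRingEnd ℂ) D = ((‖D‖ ^ 2 : ℝ) : ℂ) := by
          rw [Complex.mul_conj, Complex.normSq_eq_norm_sq]
        calc D * ((t : ℂ) * (Complex.I * (starRingEnd ℂ) D))
            = (t : ℂ) * (D * (starRingEnd ℂ) D) * Complex.I := by ring
          _ = _ := by rw [h5]; push_cast; ring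
      rw [h4, Complex.mul_I_im, Complex.ofReal_re]
    rw [h2, hw, abs_of_pos (by positivity)] at h1
    have h6 : 1 * (t * ‖D‖ ^ 2) ≤ M * t * (t * ‖D‖ ^ 2) := by
      calc 1 * (t * ‖D‖ ^ 2) = t * ‖D‖ ^ 2 := one_mul _
        _ ≤ M * (t * ‖D‖) ^ 2 := h1
        _ = _ := by ring
    exact le_of_mul_le_mul_right h6 (by positivity)
  have ht1 : 0 < r / ‖D‖ := by positivity
  have ht2 : 0 < 1 / (2 * (|M| + 1)) := by positivity
  have ht : 0 < min (r / ‖D‖) (1 / (2 * (|M| + 1))) := lt_min ht1 ht2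
  have h1 := key _ ht (by
    have := min_le_left (r / ‖D‖) (1 / (2 * (|M| + 1)))
    calc min (r / ‖D‖) (1 / (2 * (|M| + 1))) * ‖D‖ ≤ r / ‖D‖ * ‖D‖ :=
          mul_le_mul_of_nonneg_right this hDn.le
      _ = r := by field_simp)
  have h2 : M * min (r / ‖D‖) (1 / (2 * (|M| + 1))) ≤ (|M| + 1) * (1 / (2 * (|M| + 1))) := by
    calc M * min (r / ‖D‖) (1 / (2 * (|M| + 1)))
        ≤ (|M| + 1) * min (r / ‖D‖) (1 / (2 * (|M| + 1))) :=
          mul_le_mul_of_nonneg_right (by linarith [le_abs_self M]) ht.le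
      _ ≤ _ := mul_le_mul_of_nonneg_left (min_le_right _ _) (by positivity)
  have h3 : (|M| + 1) * (1 / (2 * (|M| + 1))) = 1 / 2 := by
    have : |M| + 1 ≠ 0 := by positivity
    field_simp
  linarith

/-- First order expansion of a real function. -/
lemma psi_tay {N : ℕ} (hN : 1 ≤ N) {q : ℂ} (hq : q ≠ 0) {f : ℂ → ℂ} {ft fb D : ℂ}
    {M c A : ℝ} (hc : 0 < c) (hc1 : c ≤ 1 / 4)
    (hreal : ∀ q' : ℂ, ‖q' - q‖ ≤ ‖q‖ / 2 → (f q').im = 0)
    (h : IsTay N M c (A * (‖q‖ ^ N) ^ 2) f q ft fb) (hD : 2 * ft = D) (w : ℂ)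
    (hw : ‖w‖ ≤ c * ‖q‖ ^ N) :
    |(f (rt N q w)).re - (f q).re - (D * w).re| ≤ M * A * ‖w‖ ^ 2 := by
  have hq0 : 0 < ‖q‖ := norm_pos_iff.mpr hq
  have hT : 0 < ‖q‖ ^ N := pow_pos hq0 N
  obtain ⟨-, -, h3⟩ := h
  have h4 : ∀ w : ℂ, ‖w‖ ≤ c * ‖q‖ ^ N →
      ‖f (rt N q w) - f q - ft * w - fb * (starRingEnd ℂ) w‖ ≤ M * A * ‖w‖ ^ 2 := by
    intro w hw
    have h5 := h3 w hw
    have h6 : ‖f (rt N q w) - f q - ft * w - fb * (starRingEnd ℂ) w‖ * (‖q‖ ^ N) ^ 2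
        ≤ M * A * ‖w‖ ^ 2 * (‖q‖ ^ N) ^ 2 := by
      refine h5.trans (le_of_eq ?_)
      ring
    exact le_of_mul_le_mul_right h6 (by positivity)
  have hb : fb = (starRingEnd ℂ) ft := by
    refine real_tay (r := c * ‖q‖ ^ N) (M := M * A) (by positivity) fun w hw => ?_
    refine le_trans ?_ (h4 w hw)
    have h5 : (f (rt N q w) - f q - ft * w - fb * (starRingEnd ℂ) w).im
        = -(ft * w + fb * (starRingEnd ℂ) w).im := by
      rw [Complex.sub_im, Complex.sub_im, Complex.sub_im, hreal _ (rt_half hN hq hc1 hw),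
        hreal q (by rw [sub_self, norm_zero]; positivity), Complex.add_im]
      ring
    rw [← abs_neg, ← h5]
    exact Complex.abs_im_le_norm _
  refine le_trans ?_ (h4 w hw)
  have h5 : (f (rt N q w) - f q - ft * w - fb * (starRingEnd ℂ) w).re
      = (f (rt N q w)).re - (f q).re - (D * w).re := by
    rw [hb, ← hD]
    simp only [Complex.sub_re, Complex.mul_re, Complex.conj_re, Complex.conj_im, Complex.re_ofNat,
      Complex.im_ofNat, Complex.mul_im]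
    ring
  rw [← h5]
  exact Complex.abs_re_le_norm _

end Pool.Agent.H77.N2.Pk
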