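import Pool.Agent.H77.N2.Defs
import Pool.Agent.H77.N2.Chain
import Pool.Agent.H77.N2.Energy
import Pool.Agent.H77.N2.BaseEx
import Pool.Agent.H77.N2.Tay
import Pool.Agent.H77.N2.PackAux

/-!
Module PACK of MP_6e521b_an (n = 2): the data of a family of sheets on the slice, from the base,
the chain of states, the energy comparison and the Taylor expansion (all stated in the imported
files: black boxes).

Proof. `ε` from `exists_base hN`; `Γ` a bound for all coefficients of all `C i`; `M₁, π₁, κ₁, ε'` from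
`chain`; the constants of `energy`; `M₂, c₂` from `taylor_slice` for `ε'`. `κ := 2 κ₁` (or `4 κ₁`). `B₁` such
that `(9/10 B₁)^(1/N) ≥ π₁` (then `π(Q) = Q SR(Q) ≥ (βB)^(1/N) ≥ π₁` by `piR_pow_ge`). Given
`β, B, K, R`: base `(ψ₀, σ)`, `Ψ, P` from `chain` for `S = SR N β B K`. Define
`ψ i q = (Ψ 1 (C i) (q, q̄)).re`, `p i q = P 1 (C i) (q, q̄)`.
 * `stay`: `taylor_slice` for `F = σ` on `Dom (κ₁R) ε'` (a subset of `Dom R ε`), `A = 16 S(‖q‖)` by `σup`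
   and `Sdbl` (`‖x.1 - q‖ ≤ ‖q‖/2`); `σ(q, q̄) = S‖q‖` (`slice`).
 * `pnear`: `near` at `x = (q, q̄)`: `p q - q̄ S q` has norm `≤ M₁`, `q̄ S q = ‖q‖² S = π ‖q‖`.
 * `pair`, `energy`: module ENERGY with `c = (C i).coeff`, `d = (C j).coeff`, `l = natDegree (C i - C j)`
   (`1 ≤ l` because `(C i - C j).coeff 0 = 0`; `l < N`; coefficients above `l` agree;
   `leadingCoeff = c l - d l`), `p k = P k (C i) (q, q̄)`, `Ψ k = (Ψ k (C i) (q, q̄)).re`; translate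
   `eval` of `cst (upp N C (k+1))`, `cst (C j)`, `C i - C j` into sums over `Ico`.
 * `ψnear`: the bound of `Ψ 1 C - ψ₀` in `chain` and `ψ₀ (q, q̄) = β phiR`.
 * `ψtay`: `taylor_slice` for `F = Ψ 1 (C i)`, `A = const (‖q‖S)^N ‖q‖^N = const β s τ²` with `s ≤ 111/100`
   (`piR_pow`, `SR_le`), so `A ‖w‖²/τ² ≤ const ‖w‖²`. `F` is real on the slice (`sym`: `shp F (q, q̄) =
   conj (F (q, q̄))`), so `Im (ft w + fb w̄) = O(‖w‖²)` for all small `w`, hence `fb = conj ft` (scale `w`),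
   `ft w + fb w̄ = Re (2 ft w)`, and `N q^(N-1) (2 ft) = 2 ∂_q F = N q^(N-1) p^N + C*(p) C'(q)` (`IsSt.eq`).
 * `ξtay`: `taylor_slice` for `F = x ↦ (cst (C i)).eval (P 1 (C i) x)`, bounded by
   `const (‖q‖ S)^(N-1)` (`near`, `σup`, `Sdbl`, degree `< N`, `π ≥ 1`).
Unify the constants at the end (`IsTay.mono`, or enlarge `M` and shrink `c` in each estimate).
-/

open Filter Topology Polynomial

namespace Pool.Agent.H77.N2

open Pool.Agent.H77.N2.Ch Pool.Agent.H77.N2.Pk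

/-- Comparison of `Q' S(Q')` with `Q S(Q)`. -/
lemma Pk.slice_cmp {N : ℕ} {R ε : ℝ} {S : ℝ → ℝ} {ψ₀ σ : ℂ × ℂ → ℂ} (hb : IsBase N R ε S ψ₀ σ)
    (hR : 1 ≤ R) {q : ℂ} (hq : 2 * R < ‖q‖) {x : ℂ × ℂ} (hx : x ∈ Dom R ε)
    (hxq : ‖x.1 - q‖ ≤ ‖q‖ / 2) :
    ‖x.1‖ ≤ 2 * ‖q‖ ∧ S ‖x.1‖ ≤ 8 * S ‖q‖ ∧ ‖x.1‖ * S ‖x.1‖ ≤ 16 * (‖q‖ * S ‖q‖) := by
  have hqR : R < ‖q‖ := by linarith
  have h1 : ‖x.1‖ ≤ ‖q‖ + ‖x.1 - q‖ := by
    have := norm_add_le q (x.1 - q)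
    rwa [add_sub_cancel] at this
  have h2 : ‖q‖ ≤ ‖x.1‖ + ‖x.1 - q‖ := by
    have := norm_sub_le x.1 (x.1 - q)
    rwa [sub_sub_cancel] at this
  have h3 : ‖x.1‖ ≤ 2 * ‖q‖ := by linarith [norm_nonneg q]
  have h4 : ‖q‖ ≤ 2 * ‖x.1‖ := by linarith [norm_nonneg q]
  have h5 := hb.Sdbl ‖q‖ ‖x.1‖ hqR hx.1 h3 h4
  have hS := hb.Spos _ hqR
  have hS1 := hb.Spos _ hx.1
  refine ⟨h3, h5, ?_⟩
  calc ‖x.1‖ * S ‖x.1‖ ≤ (2 * ‖q‖) * (8 * S ‖q‖) :=
        mul_le_mul h3 h5 hS1.le (by positivity)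
    _ = 16 * (‖q‖ * S ‖q‖) := by ring

theorem exists_slice {N : ℕ} (hN : 1 ≤ N) {ι : Type*} [Finite ι] (C : ι → Polynomial ℂ)
    (hdeg : ∀ i, (C i).natDegree < N) (h0 : ∀ i, (C i).coeff 0 = 0) :
    ∃ M c κ B₁ : ℝ, 0 < M ∧ 0 < c ∧ 1 ≤ κ ∧ 1 ≤ B₁ ∧ ∀ β : ℝ, 9 / 10 ≤ β → β ≤ 1 →
      ∀ B, B₁ ≤ B → ∀ K, 1 ≤ K → ∀ R : ℝ, 1 ≤ R → 100 * B ≤ R ^ N →
      ∃ (ψ : ι → ℂ → ℝ) (p ξt ξb : ι → ℂ → ℂ), IsSlice N C β B K (κ * R) M c ψ p ξt ξb := by
  obtain ⟨ε, hε, hε1, hbase⟩ := exists_base hN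
  obtain ⟨Γ, hΓ, hCb⟩ := exists_coeff_bd C
  obtain ⟨M₁, π₁, κ₁, ε', hM₁, hπ₁, hκ₁, hε', hεε, hchain⟩ := chain hN hε hε1 hΓ
  obtain ⟨M₂, hM₂, hen⟩ := energy (N := N) hM₁ hΓ
  have hε'1 : ε' ≤ 1 / 4 := hεε.trans hε1
  obtain ⟨M₃, c₃, hM₃, hc₃, hc₃1, htay⟩ := taylor_slice hN hε' hε'1
  have hOk : ∀ i, Ok N Γ (C i) := fun i => ⟨hdeg i, h0 i, hCb i⟩
  -- constants
  obtain ⟨A₅, hA₅⟩ : ∃ A₅ : ℝ, A₅ = (4 + M₁) * 32 ^ N * 2 := ⟨_, rfl⟩
  have hA₅0 : 0 < A₅ := by rw [hA₅]; positivity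
  obtain ⟨A₆, hA₆⟩ : ∃ A₆ : ℝ, A₆ = N * Γ * ((3 + M₁) * 16) ^ (N - 1) := ⟨_, rfl⟩
  have hA₆0 : 0 ≤ A₆ := by rw [hA₆]; positivity
  obtain ⟨M, hMdef⟩ : ∃ M : ℝ, M = M₁ + M₂ + M₃ * 16 + M₃ * A₅ + M₃ * A₆ := ⟨_, rfl⟩
  have hMa : M₁ ≤ M := by
    have : 0 ≤ M₂ + M₃ * 16 + M₃ * A₅ + M₃ * A₆ := by positivity
    linarith
  have hMb : M₂ ≤ M := by
    have : 0 ≤ M₁ + M₃ * 16 + M₃ * A₅ + M₃ * A₆ := by positivity
    linarith
  have hMc : M₃ * 16 ≤ M := by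
    have : 0 ≤ M₁ + M₂ + M₃ * A₅ + M₃ * A₆ := by positivity
    linarith
  have hMd : M₃ * A₅ ≤ M := by
    have : 0 ≤ M₁ + M₂ + M₃ * 16 + M₃ * A₆ := by positivity
    linarith
  have hMe : M₃ * A₆ ≤ M := by
    have : 0 ≤ M₁ + M₂ + M₃ * 16 + M₃ * A₅ := by positivity
    linarith
  have hMpos : 0 < M := lt_of_lt_of_le hM₁ hMa
  refine ⟨M, c₃, 2 * κ₁, max 1 (10 / 9 * π₁ ^ N), hMpos, hc₃, by linarith, le_max_left _ _, ?_⟩
  intro β hβ hβ1 B hB K hK R hR hRB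
  have hB1 : 1 ≤ B := (le_max_left _ _).trans hB
  have hBπ : π₁ ^ N ≤ β * B := by
    have h1 : 10 / 9 * π₁ ^ N ≤ B := (le_max_right _ _).trans hB
    nlinarith
  have hβ0 : 0 < β := by linarith
  have hB0 : 0 < B := by linarith
  have hR0 : 0 < R := by linarith
  obtain ⟨ψ₀, σ, hb, hψ₀⟩ := hbase β hβ hβ1 B hB1 K hK R hR hRB
  have hπ : ∀ Q, R < Q → π₁ ≤ Q * SR N β B K Q := by
    intro Q hQ
    have hQ0 : 0 < Q := hR0.trans hQ
    have h1 := piR_pow_ge (K := K) hN hβ0 hB0 hQ0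
    have h2 : π₁ ^ N ≤ (piR N β B K Q) ^ N := hBπ.trans h1
    have h3 : 0 ≤ piR N β B K Q := mul_nonneg hQ0.le (SR_pos hβ0 hB0 hQ0).le
    exact le_of_pow_le_pow_left₀ (by omega) h3 h2
  obtain ⟨Ψ, P, hΨ⟩ := hchain R hR (SR N β B K) ψ₀ σ hb hπ
  have hκR : R ≤ κ₁ * R := le_mul_of_one_le_left hR0.le hκ₁
  have hκR1 : 1 ≤ κ₁ * R := hR.trans hκR
  have hb' : IsBase N (κ₁ * R) ε' (SR N β B K) ψ₀ σ := hb.mono hκR hεε hR0.le
  have hone : ∀ Q, κ₁ * R < Q → 1 ≤ Q * SR N β B K Q := fun Q hQ =>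
    hπ₁.trans (hπ Q (lt_of_le_of_lt hκR hQ))
  have hκ2 : ∀ {q : ℂ}, 2 * κ₁ * R < ‖q‖ → 2 * (κ₁ * R) < ‖q‖ := by
    intro q hq; rwa [← mul_assoc]
  have hst : ∀ i, IsSt N (κ₁ * R) ε' M₁ σ (C i) (Ψ 1 (C i)) (P 1 (C i)) := fun i =>
    (hΨ (C i) (hdeg i) (h0 i) (hCb i)).1
  have hup : ∀ i, ∀ x ∈ Dom (κ₁ * R) ε', ‖Ψ 1 (C i) x - ψ₀ x‖
      ≤ M₁ * ((‖x.1‖ * SR N β B K ‖x.1‖) ^ (N - 1) * ‖x.1‖ ^ (N - 1)) := fun i =>
    (hΨ (C i) (hdeg i) (h0 i) (hCb i)).2.1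
  have htop := fun i => (hΨ (C i) (hdeg i) (h0 i) (hCb i)).2.2.1
  have hrec := fun i => (hΨ (C i) (hdeg i) (h0 i) (hCb i)).2.2.2.1
  have hdep := fun i j => (hΨ (C i) (hdeg i) (h0 i) (hCb i)).2.2.2.2 (C j) (hdeg j) (h0 j) (hCb j)
  clear hΨ hchain hbase
  -- `ξ`
  have hξ : ∀ i, ∀ q : ℂ, ∃ ft fb : ℂ, 2 * κ₁ * R < ‖q‖ →
      IsTay N M c₃ (piR N β B K ‖q‖ ^ (N - 1))
        (fun q => (cst (C i)).eval (P 1 (C i) (q, (starRingEnd ℂ) q))) q ft fb := by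
    intro i q
    by_cases hq : 2 * κ₁ * R < ‖q‖
    · have hq2 := hκ2 hq
      have hqR : κ₁ * R < ‖q‖ := by linarith
      have h1 := hone _ hqR
      obtain ⟨ft, fb, -, h2⟩ := htay (κ₁ * R) hκR1 (fun x => (cst (C i)).eval (P 1 (C i) x))
        (fun x hx => ((Polynomial.differentiable (cst (C i))) _).comp_differentiableWithinAt x
          ((hst i).dp x hx)) q hq2 (A₆ * (‖q‖ * SR N β B K ‖q‖) ^ (N - 1)) (by
          intro x hx hxq
          obtain ⟨-, -, h3⟩ := slice_cmp hb' hκR1 hq2 hx hxq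
          have h4 : ‖P 1 (C i) x‖ ≤ (3 + M₁) * 16 * (‖q‖ * SR N β B K ‖q‖) := by
            refine (p_le hb' hκR1 hε'1 hM₁ (hst i) hone hx).trans ?_
            rw [mul_assoc]
            exact mul_le_mul_of_nonneg_left h3 (by linarith)
          have h5 : 1 ≤ (3 + M₁) * 16 * (‖q‖ * SR N β B K ‖q‖) := by nlinarith
          refine (eval_cst_le (hdeg i) (hCb i) hΓ h5 h4).trans (le_of_eq ?_)
          rw [hA₆, mul_pow ((3 + M₁) * 16)]
          ring)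
      exact ⟨ft, fb, fun _ => (isTay_scale h2).mono (pow_nonneg (by linarith) _) hMe le_rfl⟩
    · exact ⟨0, 0, fun h => absurd h hq⟩
  choose ξt ξb hξ using hξ
  refine ⟨fun i q => (Ψ 1 (C i) (q, (starRingEnd ℂ) q)).re,
    fun i q => P 1 (C i) (q, (starRingEnd ℂ) q), ξt, ξb, ?_⟩
  -- energy and pair
  have hpe : ∀ i j, C i ≠ C j → ∀ q : ℂ, 2 * κ₁ * R < ‖q‖ →
      ‖P 1 (C i) (q, (starRingEnd ℂ) q) - P 1 (C j) (q, (starRingEnd ℂ) q)‖
        * (piR N β B K ‖q‖ ^ (N - 1) * ‖q‖)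
        ≤ M₂ * piR N β B K ‖q‖ ^ (C i - C j).natDegree ∧
      |(Ψ 1 (C i) (q, (starRingEnd ℂ) q)).re - (Ψ 1 (C j) (q, (starRingEnd ℂ) q)).re
        - ((cst (C j)).eval (P 1 (C j) (q, (starRingEnd ℂ) q)) * (C i - C j).eval q).re
        - ‖(C i - C j).leadingCoeff‖ ^ 2 / 2
          * (piR N β B K ‖q‖ * ‖q‖) ^ (C i - C j).natDegree|
        ≤ M₂ * (piR N β B K ‖q‖ ^ ((C i - C j).natDegree - 1)
          * ‖q‖ ^ (C i - C j).natDegree) := by
    intro i j hij q hq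
    have hq2 := hκ2 hq
    have hqR : κ₁ * R < ‖q‖ := by linarith
    have hqR' : R < ‖q‖ := by linarith
    have hl1 : 1 ≤ (C i - C j).natDegree := by
      by_contra h
      have h1 : (C i - C j).natDegree = 0 := by omega
      have h2 := eq_C_of_natDegree_eq_zero h1
      rw [coeff_sub, h0, h0, sub_self, map_zero] at h2
      exact hij (sub_eq_zero.1 h2)
    have hlN : (C i - C j).natDegree < N :=
      lt_of_le_of_lt (natDegree_sub_le _ _) (max_lt (hdeg i) (hdeg j))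
    have hS2 := hb.Sle _ hqR'
    have hq0 : 0 < ‖q‖ := by linarith
    have h := hen (C i).coeff (C j).coeff (C i - C j).natDegree hl1 hlN (hCb i) (hCb j)
      (fun a ha => by
        have := coeff_eq_zero_of_natDegree_lt ha
        rw [coeff_sub] at this
        exact sub_eq_zero.1 this)
      q (piR N β B K ‖q‖) (fun k => P k (C i) (q, (starRingEnd ℂ) q))
      (fun k => P k (C j) (q, (starRingEnd ℂ) q))
      (fun k => (Ψ k (C i) (q, (starRingEnd ℂ) q)).re)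
      (fun k => (Ψ k (C j) (q, (starRingEnd ℂ) q)).re)
      (by linarith) (hone _ hqR)
      (by
        unfold piR
        nlinarith)
      (by
        rw [(htop i q hqR).2]
        have h5 : (starRingEnd ℂ) q * q = ((‖q‖ ^ 2 : ℝ) : ℂ) := by
          rw [mul_comm, Complex.mul_conj, Complex.normSq_eq_norm_sq]
        calc (starRingEnd ℂ) q * (SR N β B K ‖q‖ : ℂ) * q
            = ((starRingEnd ℂ) q * q) * (SR N β B K ‖q‖ : ℂ) := by ring
          _ = _ := by rw [h5]; unfold piR; push_cast; ring)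
      (fun k hk hkN => (hrec i k hk hkN q hqR).2)
      (fun k hk hkN => (hrec j k hk hkN q hqR).2)
      (fun k hk hkN => by
        have h6 := hdep i j k (by omega) hkN (fun a ha => by
          have := coeff_eq_zero_of_natDegree_lt (p := C i - C j) (n := a) (by omega)
          rw [coeff_sub] at this
          exact sub_eq_zero.1 this)
        refine ⟨?_, ?_⟩
        · rw [h6.2]
        · rw [h6.1])
      (fun k hk hkN => by
        have h6 := (hrec i k hk hkN q hqR).1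
        rw [eval_cst_upp] at h6
        exact h6)
      (fun k hk hkN => by
        have h6 := (hrec j k hk hkN q hqR).1
        rw [eval_cst_upp] at h6
        exact h6)
    refine ⟨h.1, ?_⟩
    have h7 := h.2
    rw [eval_cst_ok (hOk j), eval_sub_ok (hOk i) (hOk j)]
    have h8 : (C i - C j).leadingCoeff = (C i).coeff (C i - C j).natDegree
        - (C j).coeff (C i - C j).natDegree := by
      rw [leadingCoeff, coeff_sub]
    rw [h8]
    exact h7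
  have hπ0 : ∀ {q : ℂ}, 2 * κ₁ * R < ‖q‖ → 0 ≤ piR N β B K ‖q‖ := by
    intro q hq
    have := hone _ (show κ₁ * R < ‖q‖ by linarith [hκ2 hq])
    unfold piR
    linarith
  refine ⟨?_, ?_, ?_, ?_, ?_, ?_, ?_⟩
  · -- stay
    intro q hq
    have hq2 := hκ2 hq
    have hqR : κ₁ * R < ‖q‖ := by linarith
    have hq0 : q ≠ 0 := norm_pos_iff.1 (by linarith)
    have hSq := hb'.Spos _ hqR
    obtain ⟨ft, fb, -, h2⟩ := htay (κ₁ * R) hκR1 σ hb'.dσ q hq2 (16 * SR N β B K ‖q‖) (by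
      intro x hx hxq
      obtain ⟨-, h3, -⟩ := slice_cmp hb' hκR1 hq2 hx hxq
      have := hb'.σup x hx
      linarith)
    refine ⟨ft, fb, isTay_congr hN hq0 hc₃1 ((isTay_scale h2).mono hSq.le hMc le_rfl) ?_⟩
    intro q' hq'
    refine hb'.slice q' ?_
    have h3 : ‖q‖ ≤ ‖q'‖ + ‖q' - q‖ := by
      have := norm_sub_le q' (q' - q)
      rwa [sub_sub_cancel] at this
    linarith
  · -- pnear
    intro i q hq
    have hq2 := hκ2 hq
    have hqR : κ₁ * R < ‖q‖ := by linarith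
    have hq0 : 0 < ‖q‖ := by linarith
    have hx := slice_mem (R := κ₁ * R) (by linarith) hε' hqR
    have h1 := (hst i).near _ hx
    have h2 := hb'.slice q hqR
    change ‖P 1 (C i) (q, (starRingEnd ℂ) q) * q - _‖ ≤ M
    change ‖P 1 (C i) (q, (starRingEnd ℂ) q) - (starRingEnd ℂ) q * σ (q, (starRingEnd ℂ) q)‖
      ≤ M₁ / ‖q‖ at h1
    rw [h2] at h1
    have h3 : P 1 (C i) (q, (starRingEnd ℂ) q) * q - ((piR N β B K ‖q‖ * ‖q‖ : ℝ) : ℂ)
        = (P 1 (C i) (q, (starRingEnd ℂ) q) - (starRingEnd ℂ) q * (SR N β B K ‖q‖ : ℂ)) * q := by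
      have h5 : (starRingEnd ℂ) q * q = ((‖q‖ ^ 2 : ℝ) : ℂ) := by
        rw [mul_comm, Complex.mul_conj, Complex.normSq_eq_norm_sq]
      calc P 1 (C i) (q, (starRingEnd ℂ) q) * q - ((piR N β B K ‖q‖ * ‖q‖ : ℝ) : ℂ)
          = P 1 (C i) (q, (starRingEnd ℂ) q) * q
            - ((‖q‖ ^ 2 : ℝ) : ℂ) * (SR N β B K ‖q‖ : ℂ) := by
            unfold piR; push_cast; ring
        _ = _ := by rw [← h5]; ring
    rw [h3, norm_mul]
    calc _ ≤ M₁ / ‖q‖ * ‖q‖ := mul_le_mul_of_nonneg_right h1 hq0.le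
      _ = M₁ := by field_simp
      _ ≤ M := hMa
  · -- pair
    intro i j hij q hq
    exact ((hpe i j hij q hq).1).trans
      (mul_le_mul_of_nonneg_right hMb (pow_nonneg (hπ0 hq) _))
  · -- energy
    intro i j hij q hq
    exact ((hpe i j hij q hq).2).trans
      (mul_le_mul_of_nonneg_right hMb (mul_nonneg (pow_nonneg (hπ0 hq) _) (by positivity)))
  · -- ψnear
    intro i q hq
    have hq2 := hκ2 hq
    have hqR : κ₁ * R < ‖q‖ := by linarith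
    have hqR' : R < ‖q‖ := by linarith
    have hx := slice_mem (R := κ₁ * R) (by linarith) hε' hqR
    have h1 := hup i _ hx
    rw [hψ₀ q hqR'] at h1
    have h2 : (Ψ 1 (C i) (q, (starRingEnd ℂ) q)).re - β * phiR B K (‖q‖ ^ N)
        = (Ψ 1 (C i) (q, (starRingEnd ℂ) q) - ((β * phiR B K (‖q‖ ^ N) : ℝ) : ℂ)).re := by
      rw [Complex.sub_re, Complex.ofReal_re]
    change |(Ψ 1 (C i) (q, (starRingEnd ℂ) q)).re - β * phiR B K (‖q‖ ^ N)| ≤ _
    rw [h2]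
    refine ((Complex.abs_re_le_norm _).trans h1).trans ?_
    exact mul_le_mul_of_nonneg_right hMa (mul_nonneg (pow_nonneg (hπ0 hq) _) (by positivity))
  · -- ψtay
    intro i q hq w hw
    have hq2 := hκ2 hq
    have hqR : κ₁ * R < ‖q‖ := by linarith
    have hqR' : R < ‖q‖ := by linarith
    have hqn : 0 < ‖q‖ := by linarith
    have hq0 : q ≠ 0 := norm_pos_iff.1 hqn
    have hx := slice_mem (R := κ₁ * R) (by linarith) hε' hqR
    have hSq := hb'.Spos _ hqR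
    have hS' : SR N β B K ‖q‖ ^ N ≤ 111 / 100 := SR_le hN hβ0 hβ1 hB0 hqn
      (hRB.trans (pow_le_pow_left₀ hR0.le hqR'.le N))
    obtain ⟨ft, fb, h1, h2⟩ := htay (κ₁ * R) hκR1 (Ψ 1 (C i)) (hst i).dψ q hq2
      (A₅ * (‖q‖ ^ N) ^ 2) (by
        intro x hx hxq
        obtain ⟨h3, -, h4⟩ := slice_cmp hb' hκR1 hq2 hx hxq
        have hx1 : 1 < ‖x.1‖ := lt_of_le_of_lt hκR1 hx.1
        have hy1 := hone _ hx.1
        obtain ⟨y, hy⟩ : ∃ y, y = ‖x.1‖ * SR N β B K ‖x.1‖ := ⟨_, rfl⟩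
        have h5 := hup i x hx
        have h6 := hb'.ψup x hx
        rw [← hy] at h4 hy1 h5 h6
        have h7 : y ^ (N - 1) * ‖x.1‖ ^ (N - 1) ≤ y ^ N * ‖x.1‖ ^ N :=
          mul_le_mul (pow_le_pow_right₀ hy1 (by omega)) (pow_le_pow_right₀ hx1.le (by omega))
            (by positivity) (by positivity)
        have h8 : ‖Ψ 1 (C i) x‖ ≤ (4 + M₁) * (y ^ N * ‖x.1‖ ^ N) := by
          have h9 : ‖Ψ 1 (C i) x‖ ≤ ‖Ψ 1 (C i) x - ψ₀ x‖ + ‖ψ₀ x‖ := by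
            have := norm_add_le (Ψ 1 (C i) x - ψ₀ x) (ψ₀ x)
            rwa [sub_add_cancel] at this
          have h10 := mul_le_mul_of_nonneg_left h7 hM₁.le
          nlinarith
        have h11 : y ^ N * ‖x.1‖ ^ N ≤ (16 * (‖q‖ * SR N β B K ‖q‖)) ^ N * (2 * ‖q‖) ^ N :=
          mul_le_mul (pow_le_pow_left₀ (by linarith) h4 N) (pow_le_pow_left₀ (norm_nonneg _) h3 N)
            (by positivity) (by positivity)
        have h12 : (16 * (‖q‖ * SR N β B K ‖q‖)) ^ N * (2 * ‖q‖) ^ N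
            = 32 ^ N * (‖q‖ ^ N) ^ 2 * SR N β B K ‖q‖ ^ N := by
          rw [mul_pow, mul_pow, mul_pow, show (32 : ℝ) = 16 * 2 by norm_num, mul_pow 16 2]
          ring
        calc ‖Ψ 1 (C i) x‖ ≤ (4 + M₁) * (y ^ N * ‖x.1‖ ^ N) := h8
          _ ≤ (4 + M₁) * (32 ^ N * (‖q‖ ^ N) ^ 2 * SR N β B K ‖q‖ ^ N) := by
              rw [← h12]
              exact mul_le_mul_of_nonneg_left h11 (by linarith)
          _ ≤ (4 + M₁) * (32 ^ N * (‖q‖ ^ N) ^ 2 * 2) := by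
              refine mul_le_mul_of_nonneg_left ?_ (by linarith)
              exact mul_le_mul_of_nonneg_left (by linarith) (by positivity)
          _ = A₅ * (‖q‖ ^ N) ^ 2 := by rw [hA₅]; ring)
    have hreal : ∀ q' : ℂ, ‖q' - q‖ ≤ ‖q‖ / 2 →
        (Ψ 1 (C i) (q', (starRingEnd ℂ) q')).im = 0 := by
      intro q' hq'
      have h3 : ‖q‖ ≤ ‖q'‖ + ‖q' - q‖ := by
        have := norm_sub_le q' (q' - q)
        rwa [sub_sub_cancel] at this
      have h4 := (hst i).sym _ (slice_mem (R := κ₁ * R) (q := q') (by linarith) hε' (by linarith))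
      rw [slice_shp] at h4
      exact Complex.conj_eq_iff_im.1 h4
    have hD : 2 * ft = P 1 (C i) (q, (starRingEnd ℂ) q) ^ N
        + (cst (C i)).eval (P 1 (C i) (q, (starRingEnd ℂ) q))
          * ((Polynomial.derivative (C i)).eval q / (N * q ^ (N - 1))) := by
      have h3 := (hst i).eq _ hx
      rw [← h1] at h3
      have h4 : (N : ℂ) * q ^ (N - 1) ≠ 0 :=
        mul_ne_zero (Nat.cast_ne_zero.2 (by omega)) (pow_ne_zero _ hq0)
      have h5 : (N : ℂ) * q ^ (N - 1) * (2 * ft) = (N : ℂ) * q ^ (N - 1)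
          * (P 1 (C i) (q, (starRingEnd ℂ) q) ^ N
            + (cst (C i)).eval (P 1 (C i) (q, (starRingEnd ℂ) q))
              * ((Polynomial.derivative (C i)).eval q / (N * q ^ (N - 1)))) := by
        have h6 : (N : ℂ) * q ^ (N - 1)
            * ((Polynomial.derivative (C i)).eval q / (N * q ^ (N - 1)))
            = (Polynomial.derivative (C i)).eval q := mul_div_cancel₀ _ h4
        calc (N : ℂ) * q ^ (N - 1) * (2 * ft) = 2 * ((N : ℂ) * q ^ (N - 1) * ft) := by ring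
          _ = (N : ℂ) * q ^ (N - 1) * P 1 (C i) (q, (starRingEnd ℂ) q) ^ N
              + (cst (C i)).eval (P 1 (C i) (q, (starRingEnd ℂ) q))
                * (Polynomial.derivative (C i)).eval q := h3.symm
          _ = _ := by
              conv_lhs => rw [← h6]
              ring
      exact mul_left_cancel₀ h4 h5
    have h3 := psi_tay hN hq0 hc₃ hc₃1 hreal h2 hD w hw
    exact h3.trans (mul_le_mul_of_nonneg_right hMd (by positivity))
  · -- ξtay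
    intro i q hq
    exact hξ i q hq

end Pool.Agent.H77.N2
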