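import Pool.Agent.H77.N2.SepTwo

/-!
Auxiliary estimates for the module SEP of MP_6e521b_an (n = 2): the lower bound for
`S^l d + LA v`, and the root of `T`.
-/

open Finset

namespace Pool.Agent.H77.N2

/-- The lower bound (3). -/
lemma sep_lower {N l : ℕ} {Γ γ₀ κ₂ κ R₀ S Q : ℝ} {v d : ℂ}
    (hth : ThPar N κ R₀ Q S) (hκ : 4 * κ₂ ≤ κ) (hκ₂ : 8 * Γ ≤ κ₂) (hΓ1 : 1 ≤ Γ) (hγ0 : 0 < γ₀)
    (hl1 : 1 ≤ l) (hlN : l ≤ N)
    (hd1 : γ₀ * Q ^ l / 2 ≤ ‖d‖) (hd2 : ‖d‖ ≤ 2 * Γ * Q ^ l)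
    (hup : ∀ ρ : ℝ, γ₀ / 100 * Q ^ l ≤ ρ → LA N κ R₀ Q S ρ ≤ 17 / 10 * S ^ l)
    (hact : ‖v‖ ≤ κ₂ * Q ^ l → -(51 / 100) * ‖d‖ ^ 2 ≤ ((starRingEnd ℂ) d * v).re) :
    8 / 100 / (1 + 4 * κ₂ / γ₀) * (S ^ l * ‖d‖ + ‖v‖ * LA N κ R₀ Q S ‖v‖)
      ≤ ‖(S : ℂ) ^ l * (starRingEnd ℂ) d + LA N κ R₀ Q S ‖v‖ * (starRingEnd ℂ) v‖ := by
  have hQ1 : 1 ≤ Q := hth.hQ
  have hS : 0 < S := hth.hS
  have hQl : 0 < Q ^ l := by positivity
  have hs0 : 0 < S ^ l := by positivity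
  have hκ₂0 : 0 < κ₂ := by linarith
  set L : ℝ := LA N κ R₀ Q S ‖v‖ with hL
  have hL0 : 0 < L := LA_pos hth
  have hn1 : ‖(S : ℂ) ^ l * (starRingEnd ℂ) d‖ = S ^ l * ‖d‖ := by
    rw [norm_mul, norm_pow, RCLike.norm_conj, Complex.norm_real, Real.norm_eq_abs, abs_of_pos hS]
  have hn2 : ‖(L : ℂ) * (starRingEnd ℂ) v‖ = ‖v‖ * L := by
    rw [norm_mul, RCLike.norm_conj, Complex.norm_real, Real.norm_eq_abs, abs_of_pos hL0, mul_comm]
  set X : ℂ := (S : ℂ) ^ l * (starRingEnd ℂ) d + L * (starRingEnd ℂ) v with hX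
  have hX1 : ‖v‖ * L - S ^ l * ‖d‖ ≤ ‖X‖ := by
    have := norm_sub_norm_le ((L : ℂ) * (starRingEnd ℂ) v) (-((S : ℂ) ^ l * (starRingEnd ℂ) d))
    rw [norm_neg, hn1, hn2, sub_neg_eq_add, add_comm (((L : ℂ)) * (starRingEnd ℂ) v), ← hX]
      at this
    exact this
  have hX2 : S ^ l * ‖d‖ - ‖v‖ * L ≤ ‖X‖ := by
    have := norm_sub_norm_le ((S : ℂ) ^ l * (starRingEnd ℂ) d) (-((L : ℂ) * (starRingEnd ℂ) v))
    rw [norm_neg, hn1, hn2, sub_neg_eq_add, ← hX] at this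
    exact this
  set t : ℝ := 4 * κ₂ / γ₀ with ht
  have ht0 : 0 < t := by positivity
  have htγ : t * γ₀ = 4 * κ₂ := by rw [ht]; field_simp
  have hd0 : 0 < ‖d‖ := by
    have : 0 < γ₀ * Q ^ l / 2 := by positivity
    linarith
  have hsd : 0 < S ^ l * ‖d‖ := by positivity
  have hvL : 0 ≤ ‖v‖ * L := by positivity
  rw [div_mul_eq_mul_div, div_le_iff₀ (by linarith)]
  -- goal: 8/100 * (sd + vL) ≤ ‖X‖ (1 + t)
  have hXt : ‖X‖ ≤ ‖X‖ * (1 + t) := by nlinarith [norm_nonneg X]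
  rcases le_or_gt (κ₂ * Q ^ l) ‖v‖ with hc | hc
  · -- case (a)
    have h1 : κ₂ * Q ^ l * LA N κ R₀ Q S (κ₂ * Q ^ l) ≤ ‖v‖ * L :=
      mul_LA_mono hth (by positivity) hc
    have h2 : 6 / 5 * S ^ l ≤ LA N κ R₀ Q S (κ₂ * Q ^ l) :=
      LA_ge hth hκ hl1 hlN (by positivity) le_rfl
    have h3 : κ₂ * Q ^ l * (6 / 5 * S ^ l) ≤ ‖v‖ * L :=
      (mul_le_mul_of_nonneg_left h2 (by positivity)).trans h1
    have h4 : S ^ l * ‖d‖ ≤ S ^ l * (2 * Γ * Q ^ l) := mul_le_mul_of_nonneg_left hd2 hs0.le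
    have h5 : 8 * Γ * (Q ^ l * S ^ l) ≤ κ₂ * (Q ^ l * S ^ l) :=
      mul_le_mul_of_nonneg_right hκ₂ (by positivity)
    have h6 : 4 * (S ^ l * ‖d‖) ≤ ‖v‖ * L := by linarith
    linarith
  · have hact' := hact hc.le
    rcases le_or_gt L (18 / 10 * S ^ l) with hc2 | hc2
    · -- case (b)
      have h1 : S ^ l * ‖d‖ ^ 2 + L * ((starRingEnd ℂ) d * v).re ≤ ‖X‖ * ‖d‖ := by
        have h2 : (X * d).re = S ^ l * ‖d‖ ^ 2 + L * ((starRingEnd ℂ) d * v).re := by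
          have h3 : X * d = (((S ^ l * ‖d‖ ^ 2 : ℝ)) : ℂ)
              + (L : ℂ) * ((starRingEnd ℂ) v * d) := by
            have h4 : (starRingEnd ℂ) d * d = ((‖d‖ ^ 2 : ℝ) : ℂ) := by
              rw [mul_comm, Complex.mul_conj, Complex.normSq_eq_norm_sq]
            calc X * d = (S : ℂ) ^ l * ((starRingEnd ℂ) d * d)
                  + (L : ℂ) * ((starRingEnd ℂ) v * d) := by rw [hX]; ring
              _ = _ := by rw [h4]; push_cast; ring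
          rw [h3, Complex.add_re, Complex.ofReal_re, Complex.re_ofReal_mul]
          have h5 : ((starRingEnd ℂ) v * d).re = ((starRingEnd ℂ) d * v).re := by
            have h6 : (starRingEnd ℂ) ((starRingEnd ℂ) v * d) = (starRingEnd ℂ) d * v := by
              rw [map_mul, Complex.conj_conj, mul_comm]
            rw [← h6, Complex.conj_re]
          rw [h5]
        rw [← h2, ← norm_mul]
        exact Complex.re_le_norm _
      have h7 : -(918 / 1000) * (S ^ l * ‖d‖ ^ 2) ≤ L * ((starRingEnd ℂ) d * v).re := by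
        rcases le_or_gt 0 ((starRingEnd ℂ) d * v).re with hr | hr
        · have : 0 ≤ L * ((starRingEnd ℂ) d * v).re := mul_nonneg hL0.le hr
          have : 0 ≤ S ^ l * ‖d‖ ^ 2 := by positivity
          linarith
        · have h8 : 18 / 10 * S ^ l * ((starRingEnd ℂ) d * v).re
              ≤ L * ((starRingEnd ℂ) d * v).re := by nlinarith
          have h9 : 18 / 10 * S ^ l * (-(51 / 100) * ‖d‖ ^ 2)
              ≤ 18 / 10 * S ^ l * ((starRingEnd ℂ) d * v).re :=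
            mul_le_mul_of_nonneg_left hact' (by positivity)
          linarith
      have h10 : 8 / 100 * (S ^ l * ‖d‖) ≤ ‖X‖ := by
        have h11 : 82 / 1000 * (S ^ l * ‖d‖) * ‖d‖ ≤ ‖X‖ * ‖d‖ := by
          have : S ^ l * ‖d‖ ^ 2 = S ^ l * ‖d‖ * ‖d‖ := by ring
          linarith
        have h12 := le_of_mul_le_mul_right h11 hd0
        linarith
      have h13 : ‖v‖ * L ≤ t * (S ^ l * ‖d‖) := by
        have h14 : ‖v‖ * L ≤ κ₂ * Q ^ l * (18 / 10 * S ^ l) :=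
          mul_le_mul hc.le hc2 hL0.le (by positivity)
        have h15 : κ₂ * Q ^ l ≤ t * ‖d‖ / 2 := by
          have h16 : t * (γ₀ * Q ^ l / 2) ≤ t * ‖d‖ := mul_le_mul_of_nonneg_left hd1 ht0.le
          have h17 : t * (γ₀ * Q ^ l / 2) = 2 * (κ₂ * Q ^ l) := by
            calc t * (γ₀ * Q ^ l / 2) = (t * γ₀) * Q ^ l / 2 := by ring
              _ = _ := by rw [htγ]; ring
          linarith
        have h18 : κ₂ * Q ^ l * (18 / 10 * S ^ l) ≤ t * ‖d‖ / 2 * (18 / 10 * S ^ l) :=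
          mul_le_mul_of_nonneg_right h15 (by positivity)
        have h19 : 0 ≤ t * (S ^ l * ‖d‖) := by positivity
        linarith
      have h20 : 8 / 100 * (S ^ l * ‖d‖) * (1 + t) ≤ ‖X‖ * (1 + t) :=
        mul_le_mul_of_nonneg_right h10 (by linarith)
      linarith
    · -- case (c)
      have h1 : ‖v‖ < γ₀ / 100 * Q ^ l := by
        by_contra hcon
        push Not at hcon
        have := hup _ hcon
        rw [← hL] at this
        linarith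
      have h2 : ‖v‖ * L ≤ γ₀ / 100 * Q ^ l * LA N κ R₀ Q S (γ₀ / 100 * Q ^ l) :=
        mul_LA_mono hth (norm_nonneg _) h1.le
      have h3 := hup (γ₀ / 100 * Q ^ l) le_rfl
      have h4 : γ₀ / 100 * Q ^ l * LA N κ R₀ Q S (γ₀ / 100 * Q ^ l)
          ≤ γ₀ / 100 * Q ^ l * (17 / 10 * S ^ l) := mul_le_mul_of_nonneg_left h3 (by positivity)
      have h5 : S ^ l * (γ₀ * Q ^ l / 2) ≤ S ^ l * ‖d‖ := mul_le_mul_of_nonneg_left hd1 hs0.le
      linarith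

/-- The root of `T` near `p`. -/
lemma sep_root {N : ℕ} (hN : 1 ≤ N) {p T : ℂ} (hp : p ≠ 0)
    (hT : ‖T - p ^ N‖ ≤ ‖p ^ N‖ / 8) :
    ∃ pT : ℂ, pT ^ N = T ∧ ‖pT - p‖ * ‖p ^ N‖ ≤ 3 * ‖T - p ^ N‖ * ‖p‖ := by
  have hpN : p ^ N ≠ 0 := pow_ne_zero _ hp
  have hpN0 : 0 < ‖p ^ N‖ := norm_pos_iff.2 hpN
  set z : ℂ := (T - p ^ N) / p ^ N with hz
  have hzn : ‖z‖ * ‖p ^ N‖ = ‖T - p ^ N‖ := by
    rw [hz, norm_div, div_mul_cancel₀ _ hpN0.ne']
  have hz8 : ‖z‖ ≤ 1 / 8 := by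
    rw [hz, norm_div, div_le_iff₀ hpN0]
    linarith
  have h1z : (1 : ℂ) + z ≠ 0 := by
    intro h
    have : z = -1 := by linear_combination h
    rw [this, norm_neg, norm_one] at hz8
    norm_num at hz8
  set w : ℂ := Complex.log (1 + z) / N with hw
  have hN0 : (N : ℂ) ≠ 0 := by exact_mod_cast (by omega : N ≠ 0)
  have hNR : (1 : ℝ) ≤ N := by exact_mod_cast hN
  have hlog : ‖Complex.log (1 + z)‖ ≤ 3 / 2 * ‖z‖ :=
    Complex.norm_log_one_add_half_le_self (by linarith)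
  have hwn : ‖w‖ ≤ 3 / 2 * ‖z‖ := by
    rw [hw, norm_div, Complex.norm_natCast]
    exact (div_le_self (norm_nonneg _) hNR).trans hlog
  have hw1 : ‖w‖ ≤ 1 := by linarith
  have hexp : ‖Complex.exp w - 1‖ ≤ 2 * ‖w‖ := Complex.norm_exp_sub_one_le hw1
  have hpow : Complex.exp w ^ N = 1 + z := by
    rw [← Complex.exp_nat_mul, hw, mul_div_cancel₀ _ hN0, Complex.exp_log h1z]
  refine ⟨p * Complex.exp w, ?_, ?_⟩
  · rw [mul_pow, hpow, hz]
    field_simp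
    ring
  · have h2 : p * Complex.exp w - p = p * (Complex.exp w - 1) := by ring
    rw [h2, norm_mul]
    have h3 : ‖Complex.exp w - 1‖ ≤ 3 * ‖z‖ := by linarith
    calc ‖p‖ * ‖Complex.exp w - 1‖ * ‖p ^ N‖ ≤ ‖p‖ * (3 * ‖z‖) * ‖p ^ N‖ := by gcongr
      _ = 3 * (‖z‖ * ‖p ^ N‖) * ‖p‖ := by ring
      _ = 3 * ‖T - p ^ N‖ * ‖p‖ := by rw [hzn]

end Pool.Agent.H77.N2
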