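import Pool.Agent.H77.N2.Defs
import Pool.Agent.H77.N2.Theta
import Pool.Agent.H77.N2.BaseEx
import Pool.Agent.H77.N2.SepThree

/-!
Module SEP of MP_6e521b_an (n = 2): separation. If the sheet `i` is minimal at `(x, q)`, the
frequency `(X, T)` is far from all the dual sheets `C_j*`, `C_j ≠ C_i`.
(Theta and BaseEx are stated there; use them as black boxes.)

Notation: `Q = ‖q‖`, `τ = Q^N`, `S`, `π = QS ≤ 2Q` (all large), `v = x - C_i(q)`, `ρ = ‖v‖`,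
`D_ρ = ρ LA(ρ)`, `ξ_i = C_i*(p_i)`, `X = ξ_i + LA(ρ) v̄`. For `j` with `C_j ≠ C_i`: `l = natDegree(C_i - C_j)`
(`1 ≤ l ≤ N-1`), `γ` its leading coefficient, `d = (C_i - C_j)(q)`, `D = ‖d‖`. `≲`, `O`: up to constants
depending on `N, C, c, M, M₁`. Let `Γ` bound all `|γ|`, `γ₀ > 0` a lower bound. `γ₀Q^l/2 ≤ D ≤ 2ΓQ^l` for
`Q` large. Constants: `κ₂ = 4Γ·2 + 1`, `κ₃ = κ₂ + 2Γ`, `κ = 4κ₃` (they only depend on `C`).

(1) `p_i q = πQ + O(1)`, so `p_i = π q̄/Q + O(1/Q)`, `(q̄/Q)π = S q̄`; hence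
    `conj(γ) p_i^l = S^l conj(γ q^l) + O(π^(l-1))` and `(C_i - C_j)*(p_i) = S^l d̄ + O(π^(l-1))`
    (`d = γ q^l + O(Q^(l-1))`, `S^l Q^(l-1) = π^l/Q ≤ 2 π^(l-1)`). By `pair`,
    `‖C_j*(p_i) - C_j*(p_j)‖ ≲ π^(N-2) ‖p_i - p_j‖ ≲ π^(l-1)/Q`. So `ξ_i - ξ_j = S^l d̄ + O(π^(l-1))`.
(2) Activity `PH i ≤ PH j`. With `E = ψ_i - ψ_j - Re(ξ_j d)`, `E = (|γ|²/2)(πQ)^l + O(π^(l-1)Q^l)
    = (1/2) S^l D² + O(π^(l-1) Q^l)` (`energy`; `(πQ)^l = S^l Q^(2l)`), and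
    `x - C_j(q) = v + d`: `PH i - PH j = E + Re((ξ_i - ξ_j) v) + TH(ρ) - TH(‖v+d‖)`.
    If `ρ ≤ κ₂ Q^l`: `Re((ξ_i-ξ_j)v) = S^l Re(d̄ v) + O(π^(l-1)Q^l)`. If moreover
    `‖v + d‖ < ρ` then `‖v+d‖ ≤ ρ ≤ κ₃Q^l`, and by `TH_sub_ge`
    `TH(ρ) - TH(‖v+d‖) ≥ 0.6 S^l (ρ² - ‖v+d‖²) = -0.6 S^l (2Re(d̄v) + D²)`, whence
    `0 ≥ PH i - PH j ≥ S^l (D²/2 + Re(d̄v)) - 0.6 S^l(2 Re(d̄ v) + D²) - O(π^(l-1)Q^l)
      = -0.1 S^l (D² + 2 Re(d̄ v)) - O(π^(l-1) Q^l)`, i.e.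
    `-2 Re(d̄v) - D² ≲ π^(l-1)Q^l/S^l = Q^(2l)/π ≲ D²/π`. (If `‖v+d‖ ≥ ρ` the left side is `≤ 0`.)
    So `Re(d̄ v) ≥ -(1/2)D²(1 + O(1/π)) ≥ -0.51 D²`.
(3) Lower bound: `‖S^l d + LA v‖ ≥ c₁ (S^l D + D_ρ)`, with `c₁ > 0` depending only on `Γ, γ₀`:
    (a) `ρ ≥ κ₂Q^l`: `D_ρ ≥ κ₂Q^l LA(κ₂Q^l) ≥ 1.2 κ₂ S^l Q^l ≥ 2 S^l D` (`mul_LA_mono`, `LA_ge`), so
        `‖·‖ ≥ D_ρ - S^l D ≥ D_ρ/2`.
    (b) `ρ < κ₂ Q^l` and `LA ≤ 1.8 S^l`: `Re((S^l d + LA v) d̄) ≥ S^l D² - LA·0.51 D² ≥ 0.08 S^l D²`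
        (if `Re(d̄v) ≥ 0` trivial), and `D_ρ ≤ 1.8 S^l κ₂Q^l ≲ S^l D`.
    (c) `ρ < κ₂Q^l` and `LA > 1.8 S^l`: take `δ = γ₀/100`; by `LA_upper` (for `π ≥ π₁(δ)`)
        `ρ < δQ^l`, and by monotonicity `D_ρ ≤ δQ^l LA(δQ^l) ≤ 1.7 δ S^l Q^l ≤ 0.1 S^l D`, so
        `‖·‖ ≥ 0.9 S^l D`.
(4) `T`: `‖T - p_i^N‖ ≤ M₁ D_ρ (1/π + ρ/τ)`. `ρ ≤ 5ητ` (since `‖x‖ ≤ 4ητ`, `|C_i(q)| ≲ Q^(N-1)`), and
    `D_ρ ≲ ηπ^N + π^N/√π` (`mul_LA_le`, `S^N τ = π^N`); so `‖T - p_i^N‖ ≤ small π^N` for `η ≤ η₀`,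
    `B ≥ B₁(η)`; as `‖p_i‖ ∈ [0.9π, 1.1π]` there is a root `pT`, `pT^N = T`, with
    `‖pT - p_i‖ ≲ ‖T - p_i^N‖/π^(N-1)` (e.g. `pT = p_i (T/p_i^N)^(1/N)`, principal branch),
    `‖pT‖ ≥ π/2`. Then for all `j`: `‖C_j*(pT) - C_j*(p_i)‖ ≲ π^(N-2)‖pT - p_i‖ ≲ D_ρ/π`.
(5) So `X - C_i*(pT) - LA v̄ = ξ_i - C_i*(pT) = O(D_ρ/π)`, and for `C_j ≠ C_i`:
    `X - C_j*(pT) = (ξ_i - ξ_j) + (C_j*(p_j) - C_j*(p_i)) + (C_j*(p_i) - C_j*(pT)) + LA v̄
     = conj(S^l d + LA v) + O(π^(l-1)) + O(D_ρ/π)`; by (3) its norm is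
    `≥ (c₁/2)(S^l D + D_ρ) ≥ c' π^l ≥ c' π` (`S^l D ≥ S^l γ₀ Q^l/2 = γ₀π^l/2`), for `π` large.
    `‖X‖ ≤ |ξ_i| + D_ρ ≲ π^(N-1) + ηπ^N + π^N/√π ≤ M' η π^N ≤ M'' η ‖T‖` once `B ≥ B₁(η)`.
-/

open Finset

namespace Pool.Agent.H77.N2

/-- Constants for a finite family. -/
lemma sep_consts {ι : Type*} [Finite ι] (C : ι → Polynomial ℂ) : ∃ A Γ γ₀ : ℝ, 1 ≤ A ∧ 1 ≤ Γ ∧
    0 < γ₀ ∧ (∀ i, sepA (C i) ≤ A) ∧ (∀ i j, sepA (C i - C j) ≤ A) ∧
    (∀ i j, ‖(C i - C j).leadingCoeff‖ ≤ Γ) ∧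
    (∀ i j, C i ≠ C j → γ₀ ≤ ‖(C i - C j).leadingCoeff‖) := by
  classical
  cases nonempty_fintype ι
  set a : ℝ := ∑ i, sepA (C i) with ha
  set b : ℝ := ∑ i, ∑ j, sepA (C i - C j) with hb
  set g : ℝ := ∑ i, ∑ j, ‖(C i - C j).leadingCoeff‖ with hg
  set h : ℝ := ∑ i, ∑ j, ‖(C i - C j).leadingCoeff‖⁻¹ with hh
  have hdouble : ∀ f : ι → ι → ℝ, (∀ i j, 0 ≤ f i j) → ∀ i j, f i j ≤ ∑ i, ∑ j, f i j := by
    intro f hf i j
    calc f i j ≤ ∑ j, f i j := Finset.single_le_sum (fun k _ => hf i k) (Finset.mem_univ j)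
      _ ≤ ∑ i, ∑ j, f i j :=
        Finset.single_le_sum (f := fun i => ∑ j, f i j)
          (fun k _ => Finset.sum_nonneg fun l _ => hf k l) (Finset.mem_univ i)
  have ha0 : 0 ≤ a := Finset.sum_nonneg fun k _ => sepA_nonneg _
  have hb0 : 0 ≤ b := Finset.sum_nonneg fun k _ => Finset.sum_nonneg fun l _ => sepA_nonneg _
  have hg0 : 0 ≤ g := Finset.sum_nonneg fun k _ => Finset.sum_nonneg fun l _ => norm_nonneg _
  have hh0 : 0 ≤ h := Finset.sum_nonneg fun k _ => Finset.sum_nonneg fun l _ =>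
    inv_nonneg.2 (norm_nonneg _)
  refine ⟨1 + a + b, 1 + g, (1 + h)⁻¹, by linarith, by linarith, by positivity, ?_, ?_, ?_, ?_⟩
  · intro i
    have : sepA (C i) ≤ a :=
      Finset.single_le_sum (f := fun i => sepA (C i)) (fun k _ => sepA_nonneg _)
        (Finset.mem_univ i)
    linarith
  · intro i j
    have := hdouble (fun i j => sepA (C i - C j)) (fun _ _ => sepA_nonneg _) i j
    linarith
  · intro i j
    have := hdouble (fun i j => ‖(C i - C j).leadingCoeff‖) (fun _ _ => norm_nonneg _) i j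
    linarith
  · intro i j hij
    have h1 := hdouble (fun i j => ‖(C i - C j).leadingCoeff‖⁻¹)
      (fun _ _ => inv_nonneg.2 (norm_nonneg _)) i j
    have h2 : 0 < ‖(C i - C j).leadingCoeff‖ :=
      norm_pos_iff.2 (Polynomial.leadingCoeff_ne_zero.2 (sub_ne_zero.2 hij))
    rw [inv_le_comm₀ (by linarith) h2]
    have h3 : ‖(C i - C j).leadingCoeff‖⁻¹ ≤ h := h1
    linarith

lemma sep_natDegree {N : ℕ} {E F : Polynomial ℂ} (hE : E.natDegree < N) (hF : F.natDegree < N)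
    (hE0 : E.coeff 0 = 0) (hF0 : F.coeff 0 = 0) (hEF : E ≠ F) :
    1 ≤ (E - F).natDegree ∧ (E - F).natDegree < N := by
  constructor
  · by_contra hcon
    have h0 : (E - F).natDegree = 0 := by omega
    have h1 := Polynomial.eq_C_of_natDegree_eq_zero h0
    rw [Polynomial.coeff_sub, hE0, hF0, sub_zero, Polynomial.C_0] at h1
    exact hEF (sub_eq_zero.1 h1)
  · exact lt_of_le_of_lt (Polynomial.natDegree_sub_le _ _) (max_lt hE hF)

theorem sep {N : ℕ} (hN : 1 ≤ N) {ι : Type*} [Finite ι] (C : ι → Polynomial ℂ)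
    (hdeg : ∀ i, (C i).natDegree < N) (h0 : ∀ i, (C i).coeff 0 = 0) :
    ∃ κ : ℝ, 1 ≤ κ ∧ ∀ c M M₁ : ℝ, 0 < c → 0 < M → 0 < M₁ → ∃ M' c' η₀ : ℝ, 0 < M' ∧ 0 < c' ∧
    0 < η₀ ∧ η₀ ≤ 1 ∧ ∀ η : ℝ, 0 < η → η ≤ η₀ → ∃ B₁ : ℝ, 1 ≤ B₁ ∧
    ∀ β : ℝ, 9 / 10 ≤ β → β ≤ 1 → ∀ B, B₁ ≤ B → ∀ K, 1 ≤ K →
    ∀ R : ℝ, 1 ≤ R → 100 * B ≤ R ^ N → ∀ (ψ : ι → ℂ → ℝ) (p ξt ξb : ι → ℂ → ℂ),
    IsSlice N C β B K R M c ψ p ξt ξb → ∀ R₀ : ℝ, 1 ≤ R₀ →
    (∀ Q, R < Q → R₀ ^ 2 ≤ piR N β B K Q) → ∀ (i : ι) (q x T : ℂ), R < ‖q‖ →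
    ‖x‖ ≤ 4 * η * ‖q‖ ^ N →
    (∀ j, PH N C β B K κ R₀ ψ p i x q ≤ PH N C β B K κ R₀ ψ p j x q) →
    ‖T - p i q ^ N‖ ≤ M₁ * (‖x - (C i).eval q‖ *
        LA N κ R₀ ‖q‖ (SR N β B K ‖q‖) ‖x - (C i).eval q‖) *
        (1 / piR N β B K ‖q‖ + ‖x - (C i).eval q‖ / ‖q‖ ^ N) →
    ∃ pT : ℂ, pT ^ N = T ∧ piR N β B K ‖q‖ / 2 ≤ ‖pT‖ ∧
      ‖(cst (C i)).eval (p i q) + LA N κ R₀ ‖q‖ (SR N β B K ‖q‖) ‖x - (C i).eval q‖
        * (starRingEnd ℂ) (x - (C i).eval q)‖ ≤ M' * η * ‖T‖ ∧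
      ‖(cst (C i)).eval (p i q) - (cst (C i)).eval pT‖ ≤ M' / piR N β B K ‖q‖ *
        (‖x - (C i).eval q‖ * LA N κ R₀ ‖q‖ (SR N β B K ‖q‖) ‖x - (C i).eval q‖) ∧
      ∀ j, C j ≠ C i → c' * piR N β B K ‖q‖ ≤
        ‖(cst (C i)).eval (p i q) + LA N κ R₀ ‖q‖ (SR N β B K ‖q‖) ‖x - (C i).eval q‖
          * (starRingEnd ℂ) (x - (C i).eval q) - (cst (C j)).eval pT‖ := by
  obtain ⟨A, Γ, γ₀, hA1, hΓ1, hγ0, hAi, hAij, hΓ, hγ⟩ := sep_consts C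
  have hκ1 : 1 ≤ 4 * (8 * Γ) := by linarith
  refine ⟨4 * (8 * Γ), hκ1, fun c M M₁ _ hM hM₁ => ?_⟩
  obtain ⟨M₂, hM₂, hmul⟩ := mul_LA_le N hκ1
  obtain ⟨π₁, hπ₁⟩ := LA_upper N hκ1 (δ := γ₀ / 100) (by positivity)
  set κ₂ : ℝ := 8 * Γ with hκ₂
  set κ : ℝ := 4 * κ₂ with hκ
  set c₁ : ℝ := 8 / 100 / (1 + 4 * κ₂ / γ₀) with hc₁
  have hκ₂0 : 0 < κ₂ := by linarith
  have hc₁0 : 0 < c₁ := by positivity
  have hc₁1 : c₁ ≤ 1 := by
    rw [hc₁, div_le_iff₀ (by positivity)]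
    have : 0 < 4 * κ₂ / γ₀ := by positivity
    linarith
  have hA0 : 0 < A := by linarith
  set K₁ : ℝ := 2 ^ N * A * M + 3 * A with hK₁
  have hK₁0 : 0 < K₁ := by positivity
  set K₁' : ℝ := K₁ + 2 ^ N * A * M with hK₁'
  have hK₁'0 : 0 < K₁' := by positivity
  set K₄ : ℝ := 9 * A * 4 ^ N * M₁ with hK₄
  have hK₄0 : 0 < K₄ := by positivity
  refine ⟨K₄ + 9 * 2 ^ N, c₁ * γ₀ / 4, min 1 (1 / (360 * M₁ * 2 ^ N)), by positivity,
    by positivity, by positivity, min_le_left _ _, fun η hη hη₀ => ?_⟩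
  have hη1 : η ≤ 1 := hη₀.trans (min_le_left _ _)
  have hη2 : η * (360 * M₁ * 2 ^ N) ≤ 1 := by
    have := hη₀.trans (min_le_right _ _)
    rwa [le_div_iff₀ (by positivity)] at this
  set t₁ : ℝ := 2000 * (3 * Γ * A + M + K₁' * κ₂) / γ₀ ^ 2 with ht₁
  set t₂ : ℝ := (M₂ / η) ^ 2 with ht₂
  set t₃ : ℝ := 1 / η with ht₃
  set t₄ : ℝ := A * 2 ^ N / η with ht₄
  set t₅ : ℝ := 2 * K₄ / c₁ with ht₅
  set t₆ : ℝ := 4 * K₁ / (c₁ * γ₀) with ht₆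
  set t₇ : ℝ := 4 * A / γ₀ with ht₇
  set t₈ : ℝ := 2 * A / η with ht₈
  have ht₁0 : 0 ≤ t₁ := by positivity
  have ht₂0 : 0 ≤ t₂ := by positivity
  have ht₃0 : 0 ≤ t₃ := by positivity
  have ht₄0 : 0 ≤ t₄ := by positivity
  have ht₅0 : 0 ≤ t₅ := by positivity
  have ht₆0 : 0 ≤ t₆ := by positivity
  have ht₇0 : 0 ≤ t₇ := by positivity
  have ht₈0 : 0 ≤ t₈ := by positivity
  set π₀ : ℝ := 1 + 10 * M + |π₁| + 2 * A + t₁ + t₂ + t₃ + t₄ + t₅ + t₆ + t₇ + t₈ with hπ₀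
  have habs : 0 ≤ |π₁| := abs_nonneg _
  have hπ₀1 : 1 ≤ π₀ := by linarith
  refine ⟨2 * π₀ ^ N, ?_, ?_⟩
  · have : 1 ≤ π₀ ^ N := one_le_pow₀ hπ₀1
    linarith
  intro β hβ hβ1 B hB K hK R hR hRB ψ p ξt ξb hsl R₀ hR₀ hR₀π i q x T hq hx hmin hT
  have hπ₀N : 1 ≤ π₀ ^ N := one_le_pow₀ hπ₀1
  have hB0 : 0 < B := by linarith
  have hβ0 : 0 < β := by linarith
  have hQ1 : 1 ≤ ‖q‖ := by linarith
  have hQ0 : 0 < ‖q‖ := by linarith
  have hQN : 100 * B ≤ ‖q‖ ^ N := hRB.trans (pow_le_pow_left₀ (by linarith) hq.le N)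
  have hR₀π' := hR₀π ‖q‖ hq
  set S : ℝ := SR N β B K ‖q‖ with hS
  have hS0 : 0 < S := SR_pos hβ0 hB0 hQ0
  have hS1 : S ^ N ≤ 111 / 100 := SR_le hN hβ0 hβ1 hB0 hQ0 hQN
  have hS2 : S ≤ 2 := by
    by_contra hcon
    push Not at hcon
    have h1 : (2 : ℝ) ≤ S ^ N := by
      calc (2 : ℝ) ≤ S := hcon.le
        _ = S ^ 1 := (pow_one _).symm
        _ ≤ S ^ N := pow_le_pow_right₀ (by linarith) hN
    linarith
  have hpi : piR N β B K ‖q‖ = ‖q‖ * S := rfl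
  have hth : ThPar N κ R₀ ‖q‖ S := ⟨hN, hκ1, hR₀, hQ1, hS0, hS1, by rwa [hpi] at hR₀π'⟩
  have hw₀ : π₀ ≤ ‖q‖ * S := by
    have h1 : β * B ≤ (‖q‖ * S) ^ N := by
      have := piR_pow_ge (K := K) hN hβ0 hB0 hQ0
      rwa [hpi] at this
    have h2 : π₀ ^ N ≤ (‖q‖ * S) ^ N := by nlinarith
    exact (pow_le_pow_iff_left₀ (by linarith) (by positivity) (by omega)).1 h2
  simp only [hpi] at hT ⊢
  have hpn : ∀ j, ‖p j q * q - (‖q‖ * S * ‖q‖ : ℝ)‖ ≤ M := fun j => by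
    have := hsl.pnear j q hq
    rwa [hpi] at this
  set Q : ℝ := ‖q‖ with hQ
  set w : ℝ := Q * S with hw
  have hw0 : 0 < w := by linarith
  have hw1 : 1 ≤ w := by linarith
  have hwM : 10 * M ≤ w := by linarith
  have hw2 : w ≤ 2 * Q := by rw [hw]; nlinarith
  have hwN : 0 < w ^ N := by positivity
  have hQNpos : 0 < Q ^ N := by positivity
  have hwNe : w ^ N = S ^ N * Q ^ N := by rw [hw, mul_pow]; ring
  set v : ℂ := x - (C i).eval q with hv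
  set L : ℝ := LA N κ R₀ Q S ‖v‖ with hL
  have hL0 : 0 < L := LA_pos hth
  have hvL0 : 0 ≤ ‖v‖ * L := by positivity
  -- thresholds for Q
  have hQA : A ≤ Q := by linarith
  have hQγ : 2 * A / γ₀ ≤ Q := by
    have h1 : t₇ = 2 * (2 * A / γ₀) := by rw [ht₇]; ring
    linarith
  have hQη : A ≤ η * Q := by
    have h1 : t₈ ≤ 2 * Q := by linarith
    rw [ht₈, div_le_iff₀ hη] at h1
    linarith
  -- the size of ρ
  have hρ : ‖v‖ ≤ 5 * η * Q ^ N := by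
    have h1 : ‖(C i).eval q‖ ≤ η * Q ^ N := by
      have h2 := sep_eval_le (C i) hQ1 (q := q) le_rfl
      have h3 : sepA (C i) * Q ^ (C i).natDegree ≤ A * Q ^ (N - 1) := by
        have h4 := sepA_nonneg (C i)
        have h5 : Q ^ (C i).natDegree ≤ Q ^ (N - 1) :=
          pow_le_pow_right₀ hQ1 (by have := hdeg i; omega)
        exact mul_le_mul (hAi i) h5 (by positivity) hA0.le
      have h6 : Q ^ N = Q * Q ^ (N - 1) := by
        rw [← pow_succ', Nat.sub_add_cancel hN]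
      have h7 : A * Q ^ (N - 1) ≤ η * Q * Q ^ (N - 1) :=
        mul_le_mul_of_nonneg_right hQη (by positivity)
      rw [h6]
      linarith
    have h2 : ‖v‖ ≤ ‖x‖ + ‖(C i).eval q‖ := norm_sub_le _ _
    linarith
  -- the size of D_ρ
  have hD : ‖v‖ * L ≤ 15 / 2 * η * w ^ N := by
    have h1 := hmul R₀ Q S ‖v‖ hth (norm_nonneg _)
    rw [← hL, ← hw] at h1
    have h2 : M₂ * (w ^ N / √w) ≤ η * w ^ N := by
      have h3 : M₂ / η ≤ √w := by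
        apply Real.le_sqrt_of_sq_le
        linarith
      have h4 : 0 < √w := Real.sqrt_pos.2 hw0
      have h5 : M₂ ≤ η * √w := by
        rw [div_le_iff₀ hη] at h3
        linarith
      calc M₂ * (w ^ N / √w) ≤ η * √w * (w ^ N / √w) :=
            mul_le_mul_of_nonneg_right h5 (by positivity)
        _ = η * w ^ N := by field_simp
    have h6 : 13 / 10 * S ^ N * ‖v‖ ≤ 13 / 10 * S ^ N * (5 * η * Q ^ N) :=
      mul_le_mul_of_nonneg_left hρ (by positivity)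
    have h7 : 13 / 10 * S ^ N * (5 * η * Q ^ N) = 65 / 10 * η * w ^ N := by rw [hwNe]; ring
    linarith
  -- the size of T - p^N
  set P : ℂ := p i q with hP
  have hPn := sep_near_norm hQ1 hS0 (hpn i)
  have hPlow : 9 / 10 * w ≤ ‖P‖ := by linarith [hPn.2]
  have hPup : ‖P‖ ≤ 11 / 10 * w := by linarith [hPn.1]
  have hTP : ‖T - P ^ N‖ ≤ M₁ * (‖v‖ * L) * (6 * η) := by
    refine hT.trans (mul_le_mul_of_nonneg_left ?_ (by positivity))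
    have h1 : 1 / w ≤ η := by
      rw [div_le_iff₀ hw0]
      have h2 : t₃ ≤ w := by linarith
      rw [ht₃, div_le_iff₀ hη] at h2
      linarith
    have h3 : ‖v‖ / Q ^ N ≤ 5 * η := by
      rw [div_le_iff₀ hQNpos]
      exact hρ
    linarith
  have hPN : w ^ N ≤ 2 ^ N * ‖P ^ N‖ := by
    rw [norm_pow, ← mul_pow]
    exact pow_le_pow_left₀ hw0.le (by linarith) N
  have hTP8 : ‖T - P ^ N‖ ≤ ‖P ^ N‖ / 8 := by
    have h1 : M₁ * (‖v‖ * L) * (6 * η) ≤ M₁ * (15 / 2 * η * w ^ N) * (6 * η) := by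
      have := mul_le_mul_of_nonneg_left hD hM₁.le
      exact mul_le_mul_of_nonneg_right this (by positivity)
    have h2 : M₁ * (15 / 2 * η * w ^ N) * (6 * η)
        ≤ M₁ * (15 / 2 * η * (2 ^ N * ‖P ^ N‖)) * (6 * η) := by
      have h3 : 15 / 2 * η * w ^ N ≤ 15 / 2 * η * (2 ^ N * ‖P ^ N‖) :=
        mul_le_mul_of_nonneg_left hPN (by positivity)
      have := mul_le_mul_of_nonneg_left h3 hM₁.le
      exact mul_le_mul_of_nonneg_right this (by positivity)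
    have h4 : M₁ * (15 / 2 * η * (2 ^ N * ‖P ^ N‖)) * (6 * η)
        = (η * (360 * M₁ * 2 ^ N)) * (η * ‖P ^ N‖ / 8) := by ring
    have h5 : (η * (360 * M₁ * 2 ^ N)) * (η * ‖P ^ N‖ / 8) ≤ 1 * (η * ‖P ^ N‖ / 8) :=
      mul_le_mul_of_nonneg_right hη2 (by positivity)
    have h6 : η * ‖P ^ N‖ ≤ 1 * ‖P ^ N‖ := mul_le_mul_of_nonneg_right hη1 (norm_nonneg _)
    linarith
  have hPne : P ≠ 0 := by
    intro h
    rw [h, norm_zero] at hPlow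
    linarith
  obtain ⟨pT, hpT, hpTn⟩ := sep_root hN hPne hTP8
  have hPN0 : 0 < ‖P ^ N‖ := norm_pos_iff.2 (pow_ne_zero _ hPne)
  -- crude closeness
  have hclose : ‖pT - P‖ ≤ 3 / 8 * ‖P‖ := by
    have h1 : 3 * ‖T - P ^ N‖ * ‖P‖ ≤ 3 * (‖P ^ N‖ / 8) * ‖P‖ := by gcongr
    have h2 : ‖pT - P‖ * ‖P ^ N‖ ≤ 3 / 8 * ‖P‖ * ‖P ^ N‖ := by linarith
    exact le_of_mul_le_mul_right h2 hPN0
  have hpTlow : w / 2 ≤ ‖pT‖ := by
    have := norm_sub_norm_le P pT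
    rw [norm_sub_rev] at this
    linarith
  have hpTup : ‖pT‖ ≤ 2 * w := by
    have := norm_sub_norm_le pT P
    linarith
  -- fine closeness
  have hfine : ‖pT - P‖ * w ^ N ≤ 36 * 2 ^ N * M₁ * w * (‖v‖ * L) := by
    have h1 : ‖pT - P‖ * w ^ N ≤ 2 ^ N * (‖pT - P‖ * ‖P ^ N‖) := by
      have := mul_le_mul_of_nonneg_left hPN (norm_nonneg (pT - P))
      linarith
    have h2 : 2 ^ N * (‖pT - P‖ * ‖P ^ N‖) ≤ 2 ^ N * (3 * ‖T - P ^ N‖ * ‖P‖) :=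
      mul_le_mul_of_nonneg_left hpTn (by positivity)
    have h3 : ‖T - P ^ N‖ * ‖P‖ ≤ M₁ * (‖v‖ * L) * (6 * η) * (2 * w) :=
      mul_le_mul hTP (by linarith) (norm_nonneg _) (by positivity)
    have h4 : M₁ * (‖v‖ * L) * (6 * η) * (2 * w) ≤ M₁ * (‖v‖ * L) * 6 * (2 * w) := by
      have h5 : M₁ * (‖v‖ * L) * (6 * η) ≤ M₁ * (‖v‖ * L) * 6 :=
        mul_le_mul_of_nonneg_left (by linarith) (by positivity)
      exact mul_le_mul_of_nonneg_right h5 (by positivity)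
    have h6 : 2 ^ N * (3 * ‖T - P ^ N‖ * ‖P‖) ≤ 2 ^ N * (3 * (M₁ * (‖v‖ * L) * 6 * (2 * w))) := by
      apply mul_le_mul_of_nonneg_left _ (by positivity)
      linarith
    linarith
  have h2w : (1 : ℝ) ≤ 2 * w := by linarith
  have hP2 : ‖P‖ ≤ 2 * w := by linarith
  -- the difference of the values of the dual sheets at P and pT
  have hdiff : ∀ j, ‖(cst (C j)).eval P - (cst (C j)).eval pT‖ * w ≤ K₄ * (‖v‖ * L) := by
    intro j
    have h1 := sep_eval_sub (cst (C j)) h2w hP2 hpTup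
    rw [cst_sepA, cst_natDegree, norm_sub_rev P pT] at h1
    have h2 : sepA (C j) * (2 * w) ^ (C j).natDegree * (2 * w) ≤ A * (2 * w) ^ N := by
      have h3 : (2 * w) ^ (C j).natDegree * (2 * w) ≤ (2 * w) ^ N := by
        rw [← pow_succ]
        exact pow_le_pow_right₀ h2w (hdeg j)
      have h4 := sepA_nonneg (C j)
      rw [mul_assoc]
      exact mul_le_mul (hAi j) h3 (by positivity) hA0.le
    set e : ℝ := ‖(cst (C j)).eval P - (cst (C j)).eval pT‖ with he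
    have h5 : e * (2 * w) * (2 * w) ≤ A * (2 * w) ^ N * ‖pT - P‖ := by
      calc e * (2 * w) * (2 * w)
          ≤ sepA (C j) * (2 * w) ^ (C j).natDegree * ‖pT - P‖ * (2 * w) :=
            mul_le_mul_of_nonneg_right h1 (by positivity)
        _ = sepA (C j) * (2 * w) ^ (C j).natDegree * (2 * w) * ‖pT - P‖ := by ring
        _ ≤ A * (2 * w) ^ N * ‖pT - P‖ := mul_le_mul_of_nonneg_right h2 (norm_nonneg _)
    have h6 : A * (2 * w) ^ N * ‖pT - P‖ ≤ A * 2 ^ N * (36 * 2 ^ N * M₁ * w * (‖v‖ * L)) := by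
      calc A * (2 * w) ^ N * ‖pT - P‖ = A * 2 ^ N * (‖pT - P‖ * w ^ N) := by
            rw [mul_pow]; ring
        _ ≤ _ := mul_le_mul_of_nonneg_left hfine (by positivity)
    have h7 : (4 : ℝ) ^ N = 2 ^ N * 2 ^ N := by
      rw [← mul_pow]; norm_num
    have h8 : A * 2 ^ N * (36 * 2 ^ N * M₁ * w * (‖v‖ * L))
        = K₄ * (‖v‖ * L) * (4 * w) := by rw [hK₄, h7]; ring
    have h9 : e * w * (4 * w) ≤ K₄ * (‖v‖ * L) * (4 * w) := by
      calc e * w * (4 * w) = e * (2 * w) * (2 * w) := by ring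
        _ ≤ _ := h5.trans (h6.trans_eq h8)
    exact le_of_mul_le_mul_right h9 (by positivity)
  refine ⟨pT, hpT, hpTlow, ?_, ?_, ?_⟩
  · -- the size of X
    have h1 : ‖(cst (C i)).eval P‖ ≤ η * w ^ N := by
      have h2 := sep_eval_le (cst (C i)) h2w hP2
      rw [cst_sepA, cst_natDegree] at h2
      have h3 : sepA (C i) * (2 * w) ^ (C i).natDegree * w ≤ A * (2 ^ N * w ^ N) := by
        have h4 := sepA_nonneg (C i)
        have h5 : (2 * w) ^ (C i).natDegree * w ≤ 2 ^ N * w ^ N := by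
          calc (2 * w) ^ (C i).natDegree * w ≤ (2 * w) ^ (C i).natDegree * (2 * w) :=
                mul_le_mul_of_nonneg_left (by linarith) (by positivity)
            _ = (2 * w) ^ ((C i).natDegree + 1) := (pow_succ _ _).symm
            _ ≤ (2 * w) ^ N := pow_le_pow_right₀ h2w (hdeg i)
            _ = 2 ^ N * w ^ N := mul_pow _ _ _
        rw [mul_assoc]
        exact mul_le_mul (hAi i) h5 (by positivity) hA0.le
      have h6 : A * 2 ^ N ≤ η * w := by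
        have h7 : t₄ ≤ w := by linarith
        rw [ht₄, div_le_iff₀ hη] at h7
        linarith
      have h8 : A * (2 ^ N * w ^ N) ≤ η * w ^ N * w := by
        have := mul_le_mul_of_nonneg_right h6 hwN.le
        linarith
      have h9 : ‖(cst (C i)).eval P‖ * w ≤ η * w ^ N * w :=
        (mul_le_mul_of_nonneg_right h2 hw0.le).trans (h3.trans h8)
      exact le_of_mul_le_mul_right h9 hw0
    have h2 : ‖(L : ℂ) * (starRingEnd ℂ) v‖ = ‖v‖ * L := by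
      rw [norm_mul, RCLike.norm_conj, Complex.norm_real, Real.norm_eq_abs, abs_of_pos hL0,
        mul_comm]
    have h3 : ‖(cst (C i)).eval P + L * (starRingEnd ℂ) v‖
        ≤ ‖(cst (C i)).eval P‖ + ‖v‖ * L := by
      refine (norm_add_le _ _).trans ?_
      rw [h2]
    have h4 : w ^ N ≤ 2 ^ N * ‖T‖ := by
      rw [← hpT, norm_pow, ← mul_pow]
      exact pow_le_pow_left₀ hw0.le (by linarith) N
    have h5 : 9 * η * w ^ N ≤ 9 * η * (2 ^ N * ‖T‖) :=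
      mul_le_mul_of_nonneg_left h4 (by positivity)
    have h6 : 0 ≤ K₄ * η * ‖T‖ := by positivity
    have h7 : 0 ≤ η * w ^ N := by positivity
    linarith
  · -- the difference on the same sheet
    have h1 := hdiff i
    rw [div_mul_eq_mul_div, le_div_iff₀ hw0]
    have h2 : 0 ≤ 9 * 2 ^ N * (‖v‖ * L) := by positivity
    linarith
  · -- the other sheets
    intro j hj
    have hij : C i ≠ C j := fun h => hj h.symm
    obtain ⟨hl1, hlN⟩ := sep_natDegree (hdeg i) (hdeg j) (h0 i) (h0 j) hij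
    set D : Polynomial ℂ := C i - C j with hDdef
    set l : ℕ := D.natDegree with hl
    have hwl : 0 < w ^ l := by positivity
    have hone := sep_one (D := D) (N := N) (A := A) (M := M) (S := S) (q := q) (p := P)
      (hAij i j) hM.le hS0 hS2 hQ1 hw1 (by linarith) hlN.le (hpn i)
    rw [← hl, ← hQ, ← hw, ← hK₁] at hone
    have hpair := sep_pair (E := C j) (N := N) (l := l) (A := A) (M := M) (S := S) (q := q)
      (p := P) (p' := p j q) (hAi j) hS0 hQ1 hw1 (by linarith) (hdeg j) (hpn i) (hpn j)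
      (by
        have := hsl.pair i j hij q hq
        rw [hpi] at this
        exact this)
    rw [← hQ, ← hw] at hpair
    obtain ⟨hd1, hd2, _⟩ := sep_size (D := D) (q := q) (hAij i j) hA1 (hΓ i j) hΓ1 (hγ i j hij)
      hγ0 hQA hQγ
    rw [← hl, ← hQ] at hd1 hd2
    set d : ℂ := D.eval q with hd
    have hvd : v + d = x - (C j).eval q := by
      rw [hv, hd, hDdef, Polynomial.eval_sub]
      ring
    have hact : ‖v‖ ≤ κ₂ * Q ^ l → -(51 / 100) * ‖d‖ ^ 2 ≤ ((starRingEnd ℂ) d * v).re := by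
      intro hvl
      refine sep_active (D := D) (N := N) (A := A) (Γ := Γ) (γ₀ := γ₀) (M := M) (K₁ := K₁')
        (κ₂ := κ₂) (κ := κ) (R₀ := R₀) (S := S) (ψ := ψ i q) (ψ' := ψ j q) (q := q) (v := v)
        (ξ := (cst (C i)).eval P) (ξ' := (cst (C j)).eval (p j q))
        (hAij i j) hA1 (hΓ i j) hΓ1 (hγ i j hij) hγ0 hQA hQγ hth le_rfl hκ₂0.le hM.le hK₁'0.le
        hl1 hlN.le hS2 ?_ ?_ ?_ ?_ hvl
      · have h1 : (cst (C i)).eval P - (cst (C j)).eval (p j q)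
            - S ^ D.natDegree * (starRingEnd ℂ) (D.eval q)
            = ((cst D).eval P - S ^ l * (starRingEnd ℂ) d)
              + ((cst (C j)).eval P - (cst (C j)).eval (p j q)) := by
          rw [hDdef, cst_sub_eval, ← hDdef, ← hl, ← hd]
          ring
        rw [h1, ← hl, ← hQ, ← hw]
        have h2 := mul_le_mul_of_nonneg_right
          (norm_add_le ((cst D).eval P - S ^ l * (starRingEnd ℂ) d)
            ((cst (C j)).eval P - (cst (C j)).eval (p j q))) hw0.le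
        rw [hK₁']
        linarith
      · have h1 := (abs_le.1 (hsl.energy i j hij q hq)).1
        rw [hpi, ← hDdef, ← hl, ← hQ] at h1
        rw [← hl, ← hQ, ← hw]
        linarith
      · have h1 := hmin j
        unfold PH at h1
        rw [← hQ, ← hS, ← hP, ← hv, ← hvd] at h1
        exact h1
      · rw [← hQ, ← hw]
        linarith
    have hlow := sep_lower (N := N) (l := l) (Γ := Γ) (γ₀ := γ₀) (κ₂ := κ₂) (κ := κ) (R₀ := R₀)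
      (S := S) (Q := Q) (v := v) (d := d) hth le_rfl le_rfl hΓ1 hγ0 hl1 hlN.le hd1 hd2
      (fun ρ hρ' => hπ₁ R₀ Q S ρ hth
        (by
          have := le_abs_self π₁
          linarith) l hl1 hlN.le hρ') hact
    rw [← hc₁, ← hL] at hlow
    -- the final estimate
    have hXe : (cst (C i)).eval P + L * (starRingEnd ℂ) v - (cst (C j)).eval pT
        = ((S : ℂ) ^ l * (starRingEnd ℂ) d + L * (starRingEnd ℂ) v)
          + ((cst D).eval P - S ^ l * (starRingEnd ℂ) d)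
          + ((cst (C j)).eval P - (cst (C j)).eval pT) := by
      rw [hDdef, cst_sub_eval]
      ring
    rw [hXe]
    set a₁ : ℂ := (S : ℂ) ^ l * (starRingEnd ℂ) d + L * (starRingEnd ℂ) v with ha₁
    set a₂ : ℂ := (cst D).eval P - S ^ l * (starRingEnd ℂ) d with ha₂
    set a₃ : ℂ := (cst (C j)).eval P - (cst (C j)).eval pT with ha₃
    have hn : ‖a₁‖ - ‖a₂‖ - ‖a₃‖ ≤ ‖a₁ + a₂ + a₃‖ := by
      have h1 := norm_sub_le (a₁ + a₂ + a₃) a₃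
      have h2 := norm_sub_le (a₁ + a₂) a₂
      rw [add_sub_cancel_right] at h1 h2
      linarith
    have hb2 : ‖a₂‖ ≤ c₁ * γ₀ / 4 * w ^ l := by
      have h1 : 4 * K₁ ≤ w * (c₁ * γ₀) := by
        have h2 : t₆ ≤ w := by linarith
        rwa [ht₆, div_le_iff₀ (by positivity)] at h2
      have h3 : ‖a₂‖ * w ≤ c₁ * γ₀ / 4 * w ^ l * w := by
        have h4 := mul_le_mul_of_nonneg_right h1 hwl.le
        linarith
      exact le_of_mul_le_mul_right h3 hw0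
    have hb3 : ‖a₃‖ ≤ c₁ / 2 * (‖v‖ * L) := by
      have h1 : 2 * K₄ ≤ w * c₁ := by
        have h2 : t₅ ≤ w := by linarith
        rwa [ht₅, div_le_iff₀ hc₁0] at h2
      have h3 : ‖a₃‖ * w ≤ c₁ / 2 * (‖v‖ * L) * w := by
        have h4 := mul_le_mul_of_nonneg_right h1 hvL0
        have h5 := hdiff j
        linarith
      exact le_of_mul_le_mul_right h3 hw0
    have hb1 : c₁ * γ₀ / 2 * w ^ l + c₁ * (‖v‖ * L) ≤ ‖a₁‖ := by
      have h1 : γ₀ / 2 * w ^ l ≤ S ^ l * ‖d‖ := by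
        have h2 : S ^ l * (γ₀ * Q ^ l / 2) ≤ S ^ l * ‖d‖ :=
          mul_le_mul_of_nonneg_left hd1 (by positivity)
        have h3 : w ^ l = S ^ l * Q ^ l := by rw [hw, mul_pow]; ring
        rw [h3]
        linarith
      have h4 := mul_le_mul_of_nonneg_left h1 hc₁0.le
      linarith
    have hwle : w ≤ w ^ l := by
      calc w = w ^ 1 := (pow_one _).symm
        _ ≤ w ^ l := pow_le_pow_right₀ hw1 hl1
    have h9 : c₁ * γ₀ / 4 * w ≤ c₁ * γ₀ / 4 * w ^ l :=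
      mul_le_mul_of_nonneg_left hwle (by positivity)
    have h10 : 0 ≤ c₁ * (‖v‖ * L) := by positivity
    linarith

end Pool.Agent.H77.N2
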