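import Pool.Agent.H77.N2.Tay

/-!
Taylor expansion of a polynomial along the branch `rt N q w` (helper58).
-/

open Finset Filter Topology Polynomial

namespace Pool.Agent.H77.N2.Ut

/-- Bound of a polynomial of degree less than `N`. -/
lemma poly_bound {N : ℕ} (C : ℂ[X]) (hC : C.natDegree < N) {Y : ℝ} (hY : 1 ≤ Y) (y : ℂ)
    (hy : ‖y‖ ≤ Y) : ‖C.eval y‖ ≤ (∑ a ∈ range N, ‖C.coeff a‖) * Y ^ (N - 1) := by
  rw [eval_eq_sum_range' hC, Finset.sum_mul]
  refine (norm_sum_le _ _).trans (Finset.sum_le_sum fun a ha => ?_)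
  rw [Finset.mem_range] at ha
  rw [norm_mul, norm_pow]
  have h1 : ‖y‖ ^ a ≤ Y ^ (N - 1) :=
    (pow_le_pow_left₀ (norm_nonneg _) hy a).trans (pow_le_pow_right₀ hY (by omega))
  gcongr

/-- Bound of the derivative. -/
lemma poly_deriv_bound {N : ℕ} (C : ℂ[X]) (hC : C.natDegree < N) {Y : ℝ} (hY : 1 ≤ Y) (y : ℂ)
    (hy : ‖y‖ ≤ Y) : ‖(derivative C).eval y‖ * Y
      ≤ N * (∑ a ∈ range N, ‖C.coeff a‖) * Y ^ (N - 1) := by
  have hN : 1 ≤ N := by omega
  have hd : (derivative C).natDegree < N := by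
    have := natDegree_derivative_le C
    omega
  have h1 : ∀ a ∈ range N, ‖(derivative C).coeff a * y ^ a‖ * Y
      ≤ N * ‖C.coeff (a + 1)‖ * Y ^ (N - 1) := by
    intro a ha
    rw [Finset.mem_range] at ha
    rw [norm_mul, coeff_derivative, norm_mul, norm_pow]
    by_cases haN : a + 1 < N
    · have e1 : ‖((a : ℂ) + 1)‖ ≤ N := by
        have : ((a : ℂ) + 1) = ((a + 1 : ℕ) : ℂ) := by push_cast; ring
        rw [this, Complex.norm_natCast]
        exact_mod_cast haN.le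
      have e2 : ‖y‖ ^ a * Y ≤ Y ^ (N - 1) := by
        calc ‖y‖ ^ a * Y ≤ Y ^ a * Y := by gcongr
          _ = Y ^ (a + 1) := (pow_succ _ _).symm
          _ ≤ Y ^ (N - 1) := pow_le_pow_right₀ hY (by omega)
      calc ‖C.coeff (a + 1)‖ * ‖(a : ℂ) + 1‖ * ‖y‖ ^ a * Y
          = ‖C.coeff (a + 1)‖ * ‖(a : ℂ) + 1‖ * (‖y‖ ^ a * Y) := by ring
        _ ≤ ‖C.coeff (a + 1)‖ * N * Y ^ (N - 1) := by gcongr
        _ = _ := by ring
    · have : C.coeff (a + 1) = 0 := coeff_eq_zero_of_natDegree_lt (by omega)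
      rw [this]
      simp
  have h2 : ∑ a ∈ range N, ‖C.coeff (a + 1)‖ ≤ ∑ a ∈ range N, ‖C.coeff a‖ := by
    have e1 := Finset.sum_range_succ' (fun a => ‖C.coeff a‖) N
    have e2 := Finset.sum_range_succ (fun a => ‖C.coeff a‖) N
    have e3 : C.coeff N = 0 := coeff_eq_zero_of_natDegree_lt hC
    rw [e3, norm_zero, add_zero] at e2
    have e4 := norm_nonneg (C.coeff 0)
    linarith
  rw [eval_eq_sum_range' hd]
  calc ‖∑ a ∈ range N, (derivative C).coeff a * y ^ a‖ * Y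
      ≤ (∑ a ∈ range N, ‖(derivative C).coeff a * y ^ a‖) * Y := by
        gcongr
        exact norm_sum_le _ _
    _ = ∑ a ∈ range N, ‖(derivative C).coeff a * y ^ a‖ * Y := Finset.sum_mul _ _ _
    _ ≤ ∑ a ∈ range N, N * ‖C.coeff (a + 1)‖ * Y ^ (N - 1) := Finset.sum_le_sum h1
    _ = N * (∑ a ∈ range N, ‖C.coeff (a + 1)‖) * Y ^ (N - 1) := by
        rw [Finset.mul_sum, Finset.sum_mul]
    _ ≤ _ := by gcongr

/-- The derivative of the branch. -/
lemma rt_hasDeriv {N : ℕ} (hN : 1 ≤ N) {q w z : ℂ} (hq : q ≠ 0)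
    (hz : ‖z * w‖ ≤ 1 / 2 * ‖q‖ ^ N) :
    ∃ d, HasDerivAt (fun z => rt N q (z * w)) d z ∧ (z = 0 → d = w / (N * q ^ (N - 1))) := by
  have hq0 : 0 < ‖q‖ := norm_pos_iff.mpr hq
  have hT : 0 < ‖q‖ ^ N := pow_pos hq0 N
  have hN0 : (N : ℂ) ≠ 0 := by
    have : N ≠ 0 := by omega
    exact_mod_cast this
  have hu : ‖z * w / q ^ N‖ ≤ 1 / 2 := by
    rw [norm_div, norm_pow, div_le_iff₀ hT]
    exact hz
  have hslit : 1 + z * w / q ^ N ∈ Complex.slitPlane := by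
    apply Complex.mem_slitPlane_of_norm_lt_one
    linarith
  have h1 : HasDerivAt (fun z : ℂ => 1 + z * w / q ^ N) (w / q ^ N) z := by
    have := (((hasDerivAt_id z).mul_const w).div_const (q ^ N)).const_add 1
    simpa using this
  have h2 := (h1.cpow_const (c := (1 : ℂ) / N) hslit).const_mul q
  refine ⟨_, h2, ?_⟩
  intro h0
  rw [h0]
  have hqN : q ^ N = q ^ (N - 1) * q := by
    rw [← pow_succ]
    congr 1
    omega
  simp only [zero_mul, zero_div, add_zero, Complex.one_cpow, mul_one]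
  rw [hqN]
  field_simp

/-- Taylor expansion of `C` at `q` in terms of `t = q^N`. -/
theorem poly_tay {N : ℕ} (hN : 1 ≤ N) (C : ℂ[X]) (hC : C.natDegree < N) : ∃ M' : ℝ, 1 ≤ M' ∧
    ∀ q : ℂ, 1 ≤ ‖q‖ → ‖(derivative C).eval q / (N * q ^ (N - 1))‖ * ‖q‖ ≤ M' ∧
      ‖C.eval q‖ * ‖q‖ ≤ M' * ‖q‖ ^ N ∧ ∀ w : ℂ, ‖w‖ ≤ 1 / 2 * ‖q‖ ^ N →
      ‖C.eval (rt N q w) - C.eval q - (derivative C).eval q / (N * q ^ (N - 1)) * w‖
        * (‖q‖ ^ N * ‖q‖) ≤ M' * ‖w‖ ^ 2 := by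
  obtain ⟨Γ, hΓ⟩ : ∃ Γ : ℝ, Γ = ∑ a ∈ range N, ‖C.coeff a‖ := ⟨_, rfl⟩
  have hΓ0 : 0 ≤ Γ := by rw [hΓ]; exact Finset.sum_nonneg fun a _ => norm_nonneg _
  have hN0 : (0 : ℝ) < N := by exact_mod_cast hN
  have hNc : (N : ℂ) ≠ 0 := by
    have : N ≠ 0 := by omega
    exact_mod_cast this
  refine ⟨1 + Γ + 16 * Γ * 2 ^ (N - 1), by
    have : 0 ≤ 16 * Γ * 2 ^ (N - 1) := by positivity
    linarith, ?_⟩
  intro q hq1
  have hq0 : 0 < ‖q‖ := by linarith
  have hq : q ≠ 0 := norm_pos_iff.1 hq0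
  have hT : 0 < ‖q‖ ^ N := by positivity
  have hp16 : 0 ≤ 16 * Γ * 2 ^ (N - 1) := by positivity
  have hNN : ‖q‖ ^ N = ‖q‖ ^ (N - 1) * ‖q‖ := by
    rw [← pow_succ]
    congr 1
    omega
  refine ⟨?_, ?_, ?_⟩
  · have h1 := poly_deriv_bound C hC hq1 q le_rfl
    rw [← hΓ] at h1
    rw [norm_div, norm_mul, norm_pow, Complex.norm_natCast, div_mul_eq_mul_div,
      div_le_iff₀ (by positivity)]
    calc ‖(derivative C).eval q‖ * ‖q‖ ≤ N * Γ * ‖q‖ ^ (N - 1) := h1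
      _ = Γ * (N * ‖q‖ ^ (N - 1)) := by ring
      _ ≤ _ := by
          gcongr
          linarith
  · have h1 := poly_bound C hC hq1 q le_rfl
    rw [← hΓ] at h1
    calc ‖C.eval q‖ * ‖q‖ ≤ Γ * ‖q‖ ^ (N - 1) * ‖q‖ := by gcongr
      _ = Γ * ‖q‖ ^ N := by rw [hNN]; ring
      _ ≤ _ := by
          gcongr
          linarith
  · intro w hw
    by_cases hw0 : w = 0
    · subst hw0
      rw [rt_zero]
      simp
    · have hw1 : 0 < ‖w‖ := norm_pos_iff.2 hw0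
      obtain ⟨r, hr⟩ : ∃ r : ℝ, r = 1 / 2 * ‖q‖ ^ N / ‖w‖ := ⟨_, rfl⟩
      have hr1 : 1 ≤ r := by
        rw [hr, one_le_div hw1]
        exact hw
      have hzw : ∀ z ∈ Metric.closedBall (0 : ℂ) r, ‖z * w‖ ≤ 1 / 2 * ‖q‖ ^ N := by
        intro z hz
        rw [mem_closedBall_zero_iff] at hz
        rw [norm_mul]
        calc ‖z‖ * ‖w‖ ≤ r * ‖w‖ := by gcongr
          _ = 1 / 2 * ‖q‖ ^ N := by rw [hr]; field_simp
      have hrt : ∀ z ∈ Metric.closedBall (0 : ℂ) r, ‖rt N q (z * w)‖ ≤ 2 * ‖q‖ := by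
        intro z hz
        have h1 := rt_near hN hq (hzw z hz)
        have h2 : ‖rt N q (z * w) - q‖ * ‖q‖ ^ N ≤ ‖q‖ * ‖q‖ ^ N := by
          calc _ ≤ 2 * ‖q‖ * ‖z * w‖ := h1
            _ ≤ 2 * ‖q‖ * (1 / 2 * ‖q‖ ^ N) := by
                have := hzw z hz
                gcongr
            _ = _ := by ring
        have h3 := le_of_mul_le_mul_right h2 hT
        have h4 := norm_add_le (rt N q (z * w) - q) q
        rw [sub_add_cancel] at h4
        linarith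
      have hG : ∀ z ∈ Metric.closedBall (0 : ℂ) r, ∃ d, HasDerivAt
          (fun z => C.eval (rt N q (z * w))) d z ∧
          (z = 0 → d = (derivative C).eval q / (N * q ^ (N - 1)) * w) := by
        intro z hz
        obtain ⟨d, hd, hd0⟩ := rt_hasDeriv hN hq (hzw z hz)
        have h1 := (C.hasDerivAt (rt N q (z * w))).comp z hd
        refine ⟨_, h1, ?_⟩
        intro h0
        rw [hd0 h0, h0, zero_mul, rt_zero]
        ring
      have hq2 := quad_rem (G := fun z => C.eval (rt N q (z * w))) (r := r)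
        (A := Γ * (2 * ‖q‖) ^ (N - 1)) hr1
        (fun z hz => by
          obtain ⟨d, hd, -⟩ := hG z hz
          exact hd.differentiableAt.differentiableWithinAt)
        (fun z hz => by
          rw [hΓ]
          exact poly_bound C hC (by linarith) _ (hrt z hz))
      obtain ⟨d, hd, hd0⟩ := hG 0 (by simp; linarith)
      rw [hd.deriv, hd0 rfl, zero_mul, one_mul, rt_zero] at hq2
      have h5 : 4 * (Γ * (2 * ‖q‖) ^ (N - 1)) / r ^ 2 * (‖q‖ ^ N * ‖q‖)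
          = 16 * Γ * 2 ^ (N - 1) * ‖w‖ ^ 2 := by
        rw [hr, mul_pow, hNN]
        field_simp
        ring
      calc ‖C.eval (rt N q w) - C.eval q - (derivative C).eval q / (N * q ^ (N - 1)) * w‖
            * (‖q‖ ^ N * ‖q‖)
          ≤ 4 * (Γ * (2 * ‖q‖) ^ (N - 1)) / r ^ 2 * (‖q‖ ^ N * ‖q‖) := by gcongr
        _ = 16 * Γ * 2 ^ (N - 1) * ‖w‖ ^ 2 := h5
        _ ≤ _ := by
            gcongr
            linarith

end Pool.Agent.H77.N2.Ut
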