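import Pool.Agent.H77.N2.Theta
import Pool.Agent.H77.N2.Tay
import Pool.Agent.H77.N2.BaseEx

/-!
Real Taylor expansions for the module UPPER (helper58).
-/

open Finset Filter Topology

namespace Pool.Agent.H77.N2.Ut

open Pool.Agent.H77.N2.Th

/-- A real function with an expansion of first order in `t = q^N`. -/
def RTay (N : ℕ) (M c A : ℝ) (f : ℂ → ℝ) (q a : ℂ) : Prop :=
  ‖a‖ * ‖q‖ ^ N ≤ M * A ∧ ∀ w : ℂ, ‖w‖ ≤ c * ‖q‖ ^ N →
    |f (rt N q w) - f q - (a * w).re| * (‖q‖ ^ N) ^ 2 ≤ M * A * ‖w‖ ^ 2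

lemma RTay.of_isTay {N : ℕ} {M c A : ℝ} {f : ℂ → ℝ} {q ft fb : ℂ}
    (h : IsTay N M c A (fun q => (f q : ℂ)) q ft fb) :
    RTay N (2 * M) c A f q (ft + (starRingEnd ℂ) fb) := by
  obtain ⟨h1, h2, h3⟩ := h
  refine ⟨?_, fun w hw => ?_⟩
  · calc ‖ft + (starRingEnd ℂ) fb‖ * ‖q‖ ^ N ≤ (‖ft‖ + ‖(starRingEnd ℂ) fb‖) * ‖q‖ ^ N := by
          gcongr
          exact norm_add_le _ _
      _ = ‖ft‖ * ‖q‖ ^ N + ‖fb‖ * ‖q‖ ^ N := by rw [RCLike.norm_conj]; ring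
      _ ≤ 2 * M * A := by linarith
  · have h4 := h3 w hw
    have h5 : |f (rt N q w) - f q - ((ft + (starRingEnd ℂ) fb) * w).re|
        ≤ ‖(f (rt N q w) : ℂ) - f q - ft * w - fb * (starRingEnd ℂ) w‖ := by
      have h6 := Complex.abs_re_le_norm ((f (rt N q w) : ℂ) - f q - ft * w
        - fb * (starRingEnd ℂ) w)
      have h7 : ((f (rt N q w) : ℂ) - f q - ft * w - fb * (starRingEnd ℂ) w).re
          = f (rt N q w) - f q - ((ft + (starRingEnd ℂ) fb) * w).re := by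
        simp only [Complex.sub_re, Complex.ofReal_re, Complex.mul_re, Complex.add_re,
          Complex.add_im, Complex.conj_re, Complex.conj_im]
        ring
      rw [h7] at h6
      exact h6
    have h8 : 0 ≤ (‖q‖ ^ N) ^ 2 := by positivity
    have h9 := mul_le_mul_of_nonneg_right h5 h8
    have h10 : 0 ≤ M * A := (by positivity : 0 ≤ ‖ft‖ * ‖q‖ ^ N).trans h1
    have h11 : 0 ≤ M * A * ‖w‖ ^ 2 := by positivity
    linarith

lemma RTay.mono {N : ℕ} {M M' c c' A A' : ℝ} {f : ℂ → ℝ} {q a : ℂ}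
    (h : RTay N M c A f q a) (hM : M * A ≤ M' * A') (hc : c' ≤ c) :
    RTay N M' c' A' f q a := by
  obtain ⟨h1, h2⟩ := h
  refine ⟨h1.trans hM, fun w hw => ?_⟩
  have hT : 0 ≤ ‖q‖ ^ N := by positivity
  refine (h2 w (hw.trans (by gcongr))).trans ?_
  gcongr

lemma RTay.const {N : ℕ} {M c A : ℝ} (hMA : 0 ≤ M * A) (k : ℝ) (q : ℂ) :
    RTay N M c A (fun _ => k) q 0 := by
  refine ⟨by simpa using hMA, fun w _ => ?_⟩
  simp only [sub_self, zero_mul, Complex.zero_re, abs_zero]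
  positivity

lemma RTay.const_mul {N : ℕ} {M c A : ℝ} {f : ℂ → ℝ} {q a : ℂ}
    (h : RTay N M c A f q a) (k : ℝ) :
    RTay N M c (|k| * A) (fun q => k * f q) q (k * a) := by
  obtain ⟨h1, h2⟩ := h
  refine ⟨?_, fun w hw => ?_⟩
  · rw [norm_mul, Complex.norm_real, Real.norm_eq_abs]
    calc |k| * ‖a‖ * ‖q‖ ^ N = |k| * (‖a‖ * ‖q‖ ^ N) := by ring
      _ ≤ |k| * (M * A) := by gcongr
      _ = _ := by ring
  · have e : k * f (rt N q w) - k * f q - ((k : ℂ) * a * w).re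
        = k * (f (rt N q w) - f q - (a * w).re) := by
      rw [mul_assoc, Complex.re_ofReal_mul]
      ring
    rw [e, abs_mul]
    calc |k| * |f (rt N q w) - f q - (a * w).re| * (‖q‖ ^ N) ^ 2
        = |k| * (|f (rt N q w) - f q - (a * w).re| * (‖q‖ ^ N) ^ 2) := by ring
      _ ≤ |k| * (M * A * ‖w‖ ^ 2) := mul_le_mul_of_nonneg_left (h2 w hw) (abs_nonneg _)
      _ = _ := by ring

lemma RTay.const_sub {N : ℕ} {M c A : ℝ} {f : ℂ → ℝ} {q a : ℂ}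
    (h : RTay N M c A f q a) (k : ℝ) : RTay N M c A (fun q => k - f q) q (-a) := by
  obtain ⟨h1, h2⟩ := h
  refine ⟨by rwa [norm_neg], fun w hw => ?_⟩
  have e : (k - f (rt N q w)) - (k - f q) - (-a * w).re
      = -(f (rt N q w) - f q - (a * w).re) := by
    rw [neg_mul, Complex.neg_re]
    ring
  rw [e, abs_neg]
  exact h2 w hw

/-- the core of the product rule -/
lemma mul_core {f f' g g' Lf Lg A A' M T W : ℝ} (hM : 1 ≤ M) (hT : 0 < T) (hA : 0 ≤ A)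
    (hA' : 0 ≤ A') (hW : 0 ≤ W) (hWT : W ≤ T) (hf : |f| ≤ A) (hg : |g| ≤ A')
    (h1 : |Lf| * T ≤ M * A * W) (h2 : |Lg| * T ≤ M * A' * W)
    (h3 : |f' - f - Lf| * T ^ 2 ≤ M * A * W ^ 2) (h4 : |g' - g - Lg| * T ^ 2 ≤ M * A' * W ^ 2) :
    |f' * g' - f * g - (Lf * g + f * Lg)| * T ^ 2 ≤ 6 * M ^ 2 * (A * A') * W ^ 2 := by
  obtain ⟨u, hu⟩ : ∃ u : ℝ, u = W / T := ⟨_, rfl⟩
  have hu0 : 0 ≤ u := by rw [hu]; positivity
  have hu1 : u ≤ 1 := by rw [hu, div_le_one hT]; exact hWT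
  have hWu : W = u * T := by rw [hu]; field_simp
  have i1 : |Lf| ≤ M * A * u := by
    rw [hWu, ← mul_assoc] at h1
    exact le_of_mul_le_mul_right h1 hT
  have i2 : |Lg| ≤ M * A' * u := by
    rw [hWu, ← mul_assoc] at h2
    exact le_of_mul_le_mul_right h2 hT
  have hT2 : 0 < T ^ 2 := by positivity
  have i3 : |f' - f - Lf| ≤ M * A * u ^ 2 := by
    rw [hWu, mul_pow, ← mul_assoc] at h3
    exact le_of_mul_le_mul_right h3 hT2
  have i4 : |g' - g - Lg| ≤ M * A' * u ^ 2 := by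
    rw [hWu, mul_pow, ← mul_assoc] at h4
    exact le_of_mul_le_mul_right h4 hT2
  have hu2 : u ^ 2 ≤ 1 := pow_le_one₀ hu0 hu1
  have i5 : |g'| ≤ 3 * M * A' := by
    have e : g' = g + Lg + (g' - g - Lg) := by ring
    rw [e]
    have t1 := abs_add_le (g + Lg) (g' - g - Lg)
    have t2 := abs_add_le g Lg
    have t3 : M * A' * u ≤ M * A' * 1 := by gcongr
    have t4 : M * A' * u ^ 2 ≤ M * A' * 1 := by gcongr
    have t5 : A' ≤ M * A' := by nlinarith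
    linarith
  have i6 : |f + Lf| ≤ 2 * M * A := by
    have t2 := abs_add_le f Lf
    have t3 : M * A * u ≤ M * A * 1 := by gcongr
    have t5 : A ≤ M * A := by nlinarith
    linarith
  have e : f' * g' - f * g - (Lf * g + f * Lg) = Lf * Lg + (f' - f - Lf) * g'
      + (f + Lf) * (g' - g - Lg) := by ring
  have key : |f' * g' - f * g - (Lf * g + f * Lg)| ≤ 6 * M ^ 2 * (A * A') * u ^ 2 := by
    rw [e]
    have t1 := abs_add_le (Lf * Lg + (f' - f - Lf) * g') ((f + Lf) * (g' - g - Lg))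
    have t2 := abs_add_le (Lf * Lg) ((f' - f - Lf) * g')
    rw [abs_mul (f + Lf)] at t1
    rw [abs_mul Lf, abs_mul (f' - f - Lf)] at t2
    have t3 : |Lf| * |Lg| ≤ (M * A * u) * (M * A' * u) := by gcongr
    have t4 : |f' - f - Lf| * |g'| ≤ (M * A * u ^ 2) * (3 * M * A') := by gcongr
    have t5 : |f + Lf| * |g' - g - Lg| ≤ (2 * M * A) * (M * A' * u ^ 2) := by gcongr
    have e2 : 6 * M ^ 2 * (A * A') * u ^ 2 = (M * A * u) * (M * A' * u)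
        + (M * A * u ^ 2) * (3 * M * A') + (2 * M * A) * (M * A' * u ^ 2) := by ring
    linarith
  calc |f' * g' - f * g - (Lf * g + f * Lg)| * T ^ 2
      ≤ (6 * M ^ 2 * (A * A') * u ^ 2) * T ^ 2 := by gcongr
    _ = _ := by rw [hWu]; ring

lemma RTay.mul {N : ℕ} {M c A A' : ℝ} {f g : ℂ → ℝ} {q a b : ℂ} (hq : q ≠ 0) (hM : 1 ≤ M)
    (hc1 : c ≤ 1) (hA : 0 ≤ A) (hA' : 0 ≤ A') (hf : RTay N M c A f q a)
    (hg : RTay N M c A' g q b) (hfA : |f q| ≤ A) (hgA : |g q| ≤ A') :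
    RTay N (6 * M ^ 2) c (A * A') (fun q => f q * g q) q (a * g q + f q * b) := by
  obtain ⟨f1, f2⟩ := hf
  obtain ⟨g1, g2⟩ := hg
  have hq0 : 0 < ‖q‖ := norm_pos_iff.2 hq
  have hT : 0 < ‖q‖ ^ N := by positivity
  refine ⟨?_, fun w hw => ?_⟩
  · have e1 : ‖a * g q + f q * b‖ ≤ ‖a‖ * A' + A * ‖b‖ := by
      refine (norm_add_le _ _).trans ?_
      rw [norm_mul, norm_mul, Complex.norm_real, Complex.norm_real, Real.norm_eq_abs,
        Real.norm_eq_abs]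
      gcongr
    calc ‖a * g q + f q * b‖ * ‖q‖ ^ N ≤ (‖a‖ * A' + A * ‖b‖) * ‖q‖ ^ N := by gcongr
      _ = (‖a‖ * ‖q‖ ^ N) * A' + A * (‖b‖ * ‖q‖ ^ N) := by ring
      _ ≤ (M * A) * A' + A * (M * A') := by gcongr
      _ = 2 * M * (A * A') := by ring
      _ ≤ 6 * M ^ 2 * (A * A') := by
          have : 2 * M ≤ 6 * M ^ 2 := by nlinarith
          gcongr
  · have hwT : ‖w‖ ≤ ‖q‖ ^ N := hw.trans (by nlinarith)
    have bd : ∀ (z : ℂ) (D : ℝ), ‖z‖ * ‖q‖ ^ N ≤ M * D → |(z * w).re| * ‖q‖ ^ N ≤ M * D * ‖w‖ := by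
      intro z D h
      have h1 := Complex.abs_re_le_norm (z * w)
      rw [norm_mul] at h1
      calc |(z * w).re| * ‖q‖ ^ N ≤ ‖z‖ * ‖w‖ * ‖q‖ ^ N := by gcongr
        _ = (‖z‖ * ‖q‖ ^ N) * ‖w‖ := by ring
        _ ≤ _ := by gcongr
    have h5 := mul_core (f := f q) (g := g q) (f' := f (rt N q w)) (g' := g (rt N q w)) hM hT
      hA hA' (norm_nonneg w) hwT hfA hgA (bd a A f1) (bd b A' g1) (f2 w hw) (g2 w hw)
    have e : ((a * g q + f q * b) * w).re = (a * w).re * g q + f q * (b * w).re := by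
      have e1 : (a * (g q : ℂ) + (f q : ℂ) * b) * w = (g q : ℂ) * (a * w)
          + (f q : ℂ) * (b * w) := by ring
      rw [e1, Complex.add_re, Complex.re_ofReal_mul, Complex.re_ofReal_mul]
      ring
    rw [e]
    exact h5

/-- powers -/
lemma RTay.pow {M : ℝ} (hM : 1 ≤ M) (k : ℕ) : ∃ M' : ℝ, M ≤ M' ∧ ∀ (N : ℕ) (c A : ℝ)
    (f : ℂ → ℝ) (q a : ℂ), q ≠ 0 → c ≤ 1 → 0 ≤ A → RTay N M c A f q a → |f q| ≤ A →
    ∃ a' : ℂ, RTay N M' c (A ^ k) (fun q => f q ^ k) q a' := by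
  induction k with
  | zero =>
    refine ⟨M, le_rfl, fun N c A f q a hq hc hA h hf => ⟨0, ?_⟩⟩
    simp only [pow_zero]
    exact RTay.const (by linarith) 1 q
  | succ k ih =>
    obtain ⟨M', hM', hk⟩ := ih
    refine ⟨6 * M' ^ 2, by nlinarith, fun N c A f q a hq hc hA h hf => ?_⟩
    obtain ⟨a', ha'⟩ := hk N c A f q a hq hc hA h hf
    have h1 : |f q ^ k| ≤ A ^ k := by
      rw [abs_pow]
      exact pow_le_pow_left₀ (abs_nonneg _) hf k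
    have h2 : RTay N M' c A f q a := h.mono (by gcongr) le_rfl
    have h3 := RTay.mul hq (hM.trans hM') hc (by positivity) hA ha' h2 h1 hf
    simp only [pow_succ]
    exact ⟨_, h3⟩

/-- Bernoulli, two sides -/
lemma bern {α y : ℝ} (h0 : 0 ≤ α) (h1 : α ≤ 1) (hy : |y| ≤ 1 / 2) :
    |(1 + y) ^ α - 1 - α * y| ≤ y ^ 2 := by
  obtain ⟨y1, y2⟩ := abs_le.1 hy
  have hup := rpow_one_add_le_one_add_mul_self (s := y) (by linarith) h0 h1
  have hpos : 0 < 1 + y := by linarith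
  -- lower bound through the inverse
  have hz : 1 + -(y / (1 + y)) = (1 + y)⁻¹ := by field_simp; ring
  have hinv := rpow_one_add_le_one_add_mul_self (s := -(y / (1 + y)))
    (by
      rw [neg_le_neg_iff, div_le_one hpos]
      linarith) h0 h1
  rw [hz, Real.inv_rpow hpos.le] at hinv
  have hP : 0 < (1 + y) ^ α := Real.rpow_pos_of_pos hpos α
  have hlow : 1 ≤ (1 + y) ^ α * (1 + α * -(y / (1 + y))) := by
    have := mul_le_mul_of_nonneg_left hinv hP.le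
    rwa [mul_inv_cancel₀ hP.ne'] at this
  have hlow2 : (1 + y) ≤ (1 + y) ^ α * (1 + y - α * y) := by
    have e : (1 + y) ^ α * (1 + y - α * y) = (1 + y) * ((1 + y) ^ α * (1 + α * -(y / (1 + y)))) := by
      field_simp
      ring
    rw [e]
    nlinarith
  have hd : 0 < 1 + y - α * y := by nlinarith
  have hlow3 : 1 + α * y - y ^ 2 ≤ (1 + y) ^ α := by
    by_contra hcon
    push Not at hcon
    have h2 : (1 + y) ^ α * (1 + y - α * y) < (1 + α * y - y ^ 2) * (1 + y - α * y) := by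
      gcongr
    have h3 : (1 + α * y - y ^ 2) * (1 + y - α * y) ≤ 1 + y := by
      have e : (1 + α * y - y ^ 2) * (1 + y - α * y)
          = 1 + y - y ^ 2 * ((1 + (1 - α) * y) - α * (1 - α)) := by ring
      rw [e]
      have h4 : 0 ≤ (1 + (1 - α) * y) - α * (1 - α) := by nlinarith
      nlinarith [mul_nonneg (sq_nonneg y) h4]
    linarith
  rw [abs_le]
  constructor <;> nlinarith [sq_nonneg y]

/-- `|1 + u|^α` -/
lemma norm_rpow {α : ℝ} (h0 : 0 ≤ α) (h1 : α ≤ 1) {u : ℂ} (hu : ‖u‖ ≤ 1 / 2) :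
    |‖1 + u‖ ^ α - 1 - α * u.re| ≤ 2 * ‖u‖ ^ 2 := by
  obtain ⟨y, hy⟩ : ∃ y : ℝ, y = ‖1 + u‖ - 1 := ⟨_, rfl⟩
  have hy1 : ‖1 + u‖ = 1 + y := by rw [hy]; ring
  have n0 := norm_nonneg u
  have hyu : |y| ≤ ‖u‖ := by
    rw [hy, abs_le]
    constructor
    · have := norm_sub_le (1 + u) u
      rw [add_sub_cancel_right, norm_one] at this
      linarith
    · have := norm_add_le (1 : ℂ) u
      rw [norm_one] at this
      linarith
  have hre := Complex.abs_re_le_norm u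
  obtain ⟨r1, r2⟩ := abs_le.1 hre
  have hsq : (1 + y) ^ 2 = 1 + 2 * u.re + ‖u‖ ^ 2 := by
    rw [← hy1, ← Complex.normSq_eq_norm_sq, ← Complex.normSq_eq_norm_sq, Complex.normSq_apply,
      Complex.normSq_apply]
    simp only [Complex.add_re, Complex.one_re, Complex.add_im, Complex.one_im]
    ring
  have hre2 : u.re ^ 2 ≤ ‖u‖ ^ 2 := by
    rw [← sq_abs u.re]
    exact pow_le_pow_left₀ (abs_nonneg _) hre 2
  have hlow : u.re ≤ y := by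
    have h2 : (1 + u.re) ^ 2 ≤ (1 + y) ^ 2 := by rw [hsq]; nlinarith
    have h3 : 0 ≤ 1 + y := by rw [← hy1]; positivity
    have := abs_le_of_sq_le_sq h2 h3
    linarith [(abs_le.1 this).2]
  have hup : y ≤ u.re + ‖u‖ ^ 2 := by
    have h2 : (1 + y) ^ 2 ≤ (1 + u.re + ‖u‖ ^ 2) ^ 2 := by
      rw [hsq]
      have h4 : 0 ≤ 1 + 2 * u.re := by linarith
      nlinarith [mul_nonneg h4 (sq_nonneg ‖u‖), sq_nonneg (‖u‖ ^ 2), sq_nonneg u.re]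
    have h3 : 0 ≤ 1 + u.re + ‖u‖ ^ 2 := by nlinarith
    have := abs_le_of_sq_le_sq h2 h3
    linarith [(abs_le.1 this).2]
  have hb := bern h0 h1 (hyu.trans hu)
  have hy2 : y ^ 2 ≤ ‖u‖ ^ 2 := by
    rw [← sq_abs y]
    exact pow_le_pow_left₀ (abs_nonneg _) hyu 2
  rw [hy1]
  have e : (1 + y) ^ α - 1 - α * u.re = ((1 + y) ^ α - 1 - α * y) + α * (y - u.re) := by ring
  rw [e]
  have t1 := abs_add_le ((1 + y) ^ α - 1 - α * y) (α * (y - u.re))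
  have t2 : |α * (y - u.re)| ≤ ‖u‖ ^ 2 := by
    rw [abs_mul, abs_of_nonneg h0, abs_of_nonneg (by linarith : 0 ≤ y - u.re)]
    calc α * (y - u.re) ≤ 1 * (‖u‖ ^ 2) := by
          have : 0 ≤ y - u.re := by linarith
          gcongr
          linarith
      _ = _ := one_mul _
  linarith

/-- powers of the modulus -/
lemma RTay.nrm_pow {N l : ℕ} (hN : 1 ≤ N) (hl : l ≤ N) {q : ℂ} (hq : q ≠ 0) :
    RTay N 2 (1 / 2) (‖q‖ ^ l) (fun q => ‖q‖ ^ l) q (((l / N : ℝ) * ‖q‖ ^ l : ℝ) / q ^ N) := by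
  have hq0 : 0 < ‖q‖ := norm_pos_iff.2 hq
  have hT : 0 < ‖q‖ ^ N := by positivity
  have hN0 : (0 : ℝ) < N := by exact_mod_cast hN
  have hα0 : (0 : ℝ) ≤ l / N := by positivity
  have hα1 : (l / N : ℝ) ≤ 1 := by
    rw [div_le_one hN0]
    exact_mod_cast hl
  refine ⟨?_, fun w hw => ?_⟩
  · rw [norm_div, Complex.norm_real, Real.norm_of_nonneg (by positivity), norm_pow,
      div_mul_cancel₀ _ hT.ne']
    have : 0 ≤ ‖q‖ ^ l := by positivity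
    nlinarith
  · have hu : ‖w / q ^ N‖ ≤ 1 / 2 := by
      rw [norm_div, norm_pow, div_le_iff₀ hT]
      exact hw
    have h1 := norm_rpow hα0 hα1 hu
    have h2 : ‖rt N q w‖ ^ l = ‖q‖ ^ l * ‖1 + w / q ^ N‖ ^ (l / N : ℝ) := by
      have h3 : ‖rt N q w‖ ^ N = ‖q‖ ^ N * ‖1 + w / q ^ N‖ := by
        rw [← norm_pow, rt_pow hN hq, ← norm_pow, ← norm_mul]
        congr 1
        field_simp
      have h4 : ‖rt N q w‖ = ‖q‖ * ‖1 + w / q ^ N‖ ^ ((1 : ℝ) / N) := by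
        have h5 : 0 ≤ ‖1 + w / q ^ N‖ := norm_nonneg _
        refine (pow_left_inj₀ (norm_nonneg _) (by positivity) (by omega : N ≠ 0)).1 ?_
        rw [h3, mul_pow, ← Real.rpow_natCast (‖1 + w / q ^ N‖ ^ ((1 : ℝ) / N)),
          ← Real.rpow_mul h5, one_div_mul_cancel hN0.ne', Real.rpow_one]
      rw [h4, mul_pow, ← Real.rpow_natCast (‖1 + w / q ^ N‖ ^ ((1 : ℝ) / N)),
        ← Real.rpow_mul (norm_nonneg _)]
      congr 2
      field_simp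
    simp only [h2]
    have h6 : ((((l / N : ℝ) * ‖q‖ ^ l : ℝ) : ℂ) / q ^ N * w).re
        = ‖q‖ ^ l * ((l / N : ℝ) * (w / q ^ N).re) := by
      have e : (((l / N : ℝ) * ‖q‖ ^ l : ℝ) : ℂ) / q ^ N * w
          = (((l / N : ℝ) * ‖q‖ ^ l : ℝ) : ℂ) * (w / q ^ N) := by ring
      rw [e, Complex.re_ofReal_mul]
      ring
    rw [h6]
    have h7 : ‖q‖ ^ l * ‖1 + w / q ^ N‖ ^ (l / N : ℝ) - ‖q‖ ^ l
        - ‖q‖ ^ l * ((l / N : ℝ) * (w / q ^ N).re)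
        = ‖q‖ ^ l * (‖1 + w / q ^ N‖ ^ (l / N : ℝ) - 1 - (l / N : ℝ) * (w / q ^ N).re) := by ring
    rw [h7, abs_mul, abs_of_nonneg (by positivity : 0 ≤ ‖q‖ ^ l)]
    calc ‖q‖ ^ l * |‖1 + w / q ^ N‖ ^ (l / N : ℝ) - 1 - (l / N : ℝ) * (w / q ^ N).re|
          * (‖q‖ ^ N) ^ 2 ≤ ‖q‖ ^ l * (2 * ‖w / q ^ N‖ ^ 2) * (‖q‖ ^ N) ^ 2 := by gcongr
      _ = 2 * ‖q‖ ^ l * ‖w‖ ^ 2 := by
          rw [norm_div, norm_pow]
          field_simp

lemma RTay.rad {N l : ℕ} (hl : l < N) {q : ℂ} (hq : q ≠ 0) {κ R₀ : ℝ} (hκ : 1 ≤ κ)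
    (hR₀ : 1 ≤ R₀) :
    ∃ r : ℂ, RTay N 2 (1 / 2) (rad κ R₀ ‖q‖ l) (fun q => rad κ R₀ ‖q‖ l) q r := by
  by_cases h0 : l = 0
  · subst h0
    refine ⟨0, ?_⟩
    have h1 : ∀ q : ℂ, N2.rad κ R₀ ‖q‖ 0 = R₀ := fun q => if_pos rfl
    simp only [h1]
    exact RTay.const (by positivity) R₀ q
  · have h1 : ∀ q : ℂ, N2.rad κ R₀ ‖q‖ l = κ * ‖q‖ ^ l := fun q => if_neg h0
    simp only [h1]
    have h2 := (RTay.nrm_pow (by omega : 1 ≤ N) hl.le hq).const_mul κ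
    rw [abs_of_nonneg (by linarith : 0 ≤ κ)] at h2
    exact ⟨_, h2⟩

/-- The gap between `S` and `b`. -/
lemma gap {N : ℕ} (hN : 1 ≤ N) : ∃ g : ℝ, 0 < g ∧ ∀ S : ℝ, 0 < S → S ^ N ≤ 111 / 100 →
    g ≤ bb N - S := by
  obtain ⟨b, hb⟩ : ∃ b : ℝ, b = (111 / 100 : ℝ) ^ ((1 : ℝ) / N) := ⟨_, rfl⟩
  have hN0 : (0 : ℝ) < N := by exact_mod_cast hN
  have hb0 : 0 < b := by rw [hb]; positivity
  have hbN : b ^ N = 111 / 100 := by
    rw [hb, ← Real.rpow_natCast, ← Real.rpow_mul (by norm_num), one_div_mul_cancel hN0.ne',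
      Real.rpow_one]
  have hbb : b < bb N := lt_bb hN hbN.le
  refine ⟨bb N - b, by linarith, fun S hS hS1 => ?_⟩
  have hSb : S ≤ b := by
    apply le_of_pow_le_pow_left₀ (by omega : N ≠ 0) hb0.le
    rw [hbN]
    exact hS1
  linarith

/-- The expansion of the amplitudes, one index. -/
lemma amp_tay_one {N l : ℕ} (hl : l < N) {c M : ℝ} (hM : 1 ≤ M) : ∃ M' : ℝ, M ≤ M' ∧
    ∀ (κ R₀ : ℝ) (S : ℝ → ℝ) (q s : ℂ), q ≠ 0 → 1 ≤ ‖q‖ → 1 ≤ κ → 1 ≤ R₀ → 0 < S ‖q‖ →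
    S ‖q‖ ^ N ≤ 111 / 100 → RTay N M c (S ‖q‖) (fun q => S ‖q‖) q s →
    ∃ a, RTay N M' (min c (1 / 2)) (amp N κ R₀ ‖q‖ (S ‖q‖) l)
      (fun q => amp N κ R₀ ‖q‖ (S ‖q‖) l) q a := by
  have hN : 1 ≤ N := by omega
  obtain ⟨g, hg, hgap⟩ := gap hN
  obtain ⟨M₁, hM₁, hpow⟩ := RTay.pow hM l
  have hb := bb_ge_one N
  obtain ⟨M₂, hM₂⟩ : ∃ M₂ : ℝ, M₂ = M * bb N / g := ⟨_, rfl⟩
  have hM₂0 : 0 < M₂ := by rw [hM₂]; positivity
  obtain ⟨M₃, hM₃⟩ : ∃ M₃ : ℝ, M₃ = M₁ + M₂ + 2 := ⟨_, rfl⟩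
  have m1 : M₁ ≤ M₃ := by rw [hM₃]; linarith
  have m2 : M₂ ≤ M₃ := by rw [hM₃]; linarith
  have m3 : 2 ≤ M₃ := by rw [hM₃]; linarith
  have m0 : M ≤ M₃ := by linarith
  have mm : 2 ≤ 6 * M₃ ^ 2 := by nlinarith
  refine ⟨6 * (6 * M₃ ^ 2) ^ 2, by nlinarith, ?_⟩
  intro κ R₀ S q s hq hq1 hκ hR₀ hS hS1 h
  have hg' := hgap _ hS hS1
  obtain ⟨c₀, hc₀⟩ : ∃ c₀ : ℝ, c₀ = min c (1 / 2) := ⟨_, rfl⟩
  have hcc : c₀ ≤ c := by rw [hc₀]; exact min_le_left _ _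
  have hc2 : c₀ ≤ 1 / 2 := by rw [hc₀]; exact min_le_right _ _
  have hc1 : c₀ ≤ 1 := by linarith
  rw [← hc₀]
  have h0 : RTay N M c₀ (S ‖q‖) (fun q => S ‖q‖) q s := h.mono le_rfl hcc
  obtain ⟨a₁, h1⟩ := hpow N c₀ (S ‖q‖) _ q s hq hc1 hS.le h0 (by rw [abs_of_pos hS])
  obtain ⟨r, h3⟩ := RTay.rad hl hq hκ hR₀
  have h2 : RTay N M₂ c₀ (bb N - S ‖q‖) (fun q => bb N - S ‖q‖) q (-s) := by
    refine (h0.const_sub (bb N)).mono ?_ le_rfl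
    rw [hM₂, div_mul_eq_mul_div, le_div_iff₀ hg]
    have : S ‖q‖ ≤ bb N := by linarith
    calc M * S ‖q‖ * g ≤ M * bb N * (bb N - S ‖q‖) := by gcongr
      _ = _ := by ring
  have hgap0 : 0 ≤ bb N - S ‖q‖ := by linarith
  have hrad := rad_pos hκ hR₀ hq1 l
  have hSl : 0 ≤ S ‖q‖ ^ l := by positivity
  have h1' : RTay N M₃ c₀ (S ‖q‖ ^ l) (fun q => S ‖q‖ ^ l) q a₁ := h1.mono (by gcongr) le_rfl
  have h2' : RTay N M₃ c₀ (bb N - S ‖q‖) (fun q => bb N - S ‖q‖) q (-s) :=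
    h2.mono (by gcongr) le_rfl
  have h12 := RTay.mul hq (by linarith) hc1 hSl hgap0 h1' h2' (by rw [abs_of_nonneg hSl])
    (by rw [abs_of_nonneg hgap0])
  have hAA : 0 ≤ S ‖q‖ ^ l * (bb N - S ‖q‖) := by positivity
  have h3' : RTay N (6 * M₃ ^ 2) c₀ (N2.rad κ R₀ ‖q‖ l) (fun q => N2.rad κ R₀ ‖q‖ l) q r :=
    h3.mono (by gcongr) hc2
  have h123 := RTay.mul hq (by linarith) hc1 hAA hrad.le h12 h3' (by rw [abs_of_nonneg hAA])
    (by rw [abs_of_pos hrad])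
  have h4 := h123.const_mul (13 / 10 * bb N ^ (N - l - 1))
  rw [abs_of_nonneg (by positivity : 0 ≤ 13 / 10 * bb N ^ (N - l - 1))] at h4
  have e : ∀ q : ℂ, amp N κ R₀ ‖q‖ (S ‖q‖) l = 13 / 10 * bb N ^ (N - l - 1)
      * (S ‖q‖ ^ l * (bb N - S ‖q‖) * N2.rad κ R₀ ‖q‖ l) := by
    intro q
    rw [amp]
    ring
  simp only [e]
  exact ⟨_, h4⟩

/-- The expansions of all the parameters. -/
theorem par_tay {N : ℕ} (hN : 1 ≤ N) {c M : ℝ} (hM : 1 ≤ M) : ∃ M' : ℝ, M ≤ M' ∧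
    ∀ (κ R₀ : ℝ) (S : ℝ → ℝ) (q s : ℂ), q ≠ 0 → 1 ≤ ‖q‖ → 1 ≤ κ → 1 ≤ R₀ → 0 < S ‖q‖ →
    S ‖q‖ ^ N ≤ 111 / 100 → RTay N M c (S ‖q‖) (fun q => S ‖q‖) q s →
    ∃ (s' : ℂ) (a r : ℕ → ℂ),
      RTay N M' (min c (1 / 2)) (S ‖q‖ ^ N) (fun q => S ‖q‖ ^ N) q s' ∧
      (∀ l < N, RTay N M' (min c (1 / 2)) (amp N κ R₀ ‖q‖ (S ‖q‖) l)
        (fun q => amp N κ R₀ ‖q‖ (S ‖q‖) l) q (a l)) ∧
      (∀ l < N, RTay N M' (min c (1 / 2)) (N2.rad κ R₀ ‖q‖ l)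
        (fun q => N2.rad κ R₀ ‖q‖ l) q (r l)) := by
  obtain ⟨M₁, hM₁, hpow⟩ := RTay.pow hM N
  have hone : ∀ l : ℕ, ∃ M' : ℝ, M ≤ M' ∧ (l < N → ∀ (κ R₀ : ℝ) (S : ℝ → ℝ) (q s : ℂ), q ≠ 0 →
      1 ≤ ‖q‖ → 1 ≤ κ → 1 ≤ R₀ → 0 < S ‖q‖ →
      S ‖q‖ ^ N ≤ 111 / 100 → RTay N M c (S ‖q‖) (fun q => S ‖q‖) q s →
      ∃ a, RTay N M' (min c (1 / 2)) (amp N κ R₀ ‖q‖ (S ‖q‖) l)
      (fun q => amp N κ R₀ ‖q‖ (S ‖q‖) l) q a) := by
    intro l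
    by_cases hl : l < N
    · obtain ⟨M', h1, h2⟩ := amp_tay_one hl (c := c) hM
      exact ⟨M', h1, fun _ => h2⟩
    · exact ⟨M, le_rfl, fun h => absurd h hl⟩
  choose Mf hMf hf using hone
  have hMf0 : ∀ l, 0 ≤ Mf l := fun l => by linarith [hMf l]
  have hsum : ∀ l < N, Mf l ≤ ∑ l ∈ range N, Mf l := fun l hl =>
    Finset.single_le_sum (f := Mf) (fun i _ => hMf0 i) (Finset.mem_range.2 hl)
  have hsum0 : 0 ≤ ∑ l ∈ range N, Mf l := Finset.sum_nonneg fun i _ => hMf0 i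
  refine ⟨M₁ + 2 + ∑ l ∈ range N, Mf l, by linarith, ?_⟩
  intro κ R₀ S q s hq hq1 hκ hR₀ hS hS1 h
  have hcc : min c (1 / 2) ≤ c := min_le_left _ _
  have hc1 : min c (1 / 2) ≤ 1 := (min_le_right _ _).trans (by norm_num)
  obtain ⟨s', hs'⟩ := hpow N (min c (1 / 2)) (S ‖q‖) _ q s hq hc1 hS.le (h.mono le_rfl hcc)
    (by rw [abs_of_pos hS])
  have ha : ∀ l : ℕ, ∃ a : ℂ, l < N → RTay N (Mf l) (min c (1 / 2))
      (amp N κ R₀ ‖q‖ (S ‖q‖) l) (fun q => amp N κ R₀ ‖q‖ (S ‖q‖) l) q a := by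
    intro l
    by_cases hl : l < N
    · obtain ⟨a, ha⟩ := hf l hl κ R₀ S q s hq hq1 hκ hR₀ hS hS1 h
      exact ⟨a, fun _ => ha⟩
    · exact ⟨0, fun h => absurd h hl⟩
  have hr : ∀ l : ℕ, ∃ r : ℂ, l < N → RTay N 2 (1 / 2)
      (N2.rad κ R₀ ‖q‖ l) (fun q => N2.rad κ R₀ ‖q‖ l) q r := by
    intro l
    by_cases hl : l < N
    · obtain ⟨r, hr⟩ := RTay.rad hl hq hκ hR₀
      exact ⟨r, fun _ => hr⟩
    · exact ⟨0, fun h => absurd h hl⟩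
  choose a ha using ha
  choose r hr using hr
  have hb := bb_ge_one N
  have hgap0 : 0 ≤ bb N - S ‖q‖ := by linarith [lt_bb hN hS1]
  refine ⟨s', a, r, hs'.mono ?_ le_rfl, fun l hl => (ha l hl).mono ?_ le_rfl,
    fun l hl => (hr l hl).mono ?_ (min_le_right _ _)⟩
  · have : 0 ≤ S ‖q‖ ^ N := by positivity
    gcongr
    linarith
  · have hrad := rad_pos hκ hR₀ hq1 l
    have : 0 ≤ amp N κ R₀ ‖q‖ (S ‖q‖) l := by
      rw [amp]
      positivity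
    have := hsum l hl
    gcongr
    linarith
  · have hrad := rad_pos hκ hR₀ hq1 l
    gcongr
    linarith

end Pool.Agent.H77.N2.Ut
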