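import Pool.Agent.H77.N2.UpTh
import Pool.Agent.H77.N2.UpTay
import Pool.Agent.H77.N2.UpPoly

/-!
The assembly of the module UPPER for one sheet (helper58).
-/

open Finset Filter Topology Polynomial

namespace Pool.Agent.H77.N2.Ut

open Pool.Agent.H77.N2.Th

/-- real part of the coefficient of `wt` -/
lemma Z_re (N : ℕ) (s w : ℂ) (a r : ℕ → ℂ) (X : ℝ) (Y P W : ℕ → ℝ) :
    ((13 / 20 * s * (X : ℝ) + ∑ l ∈ range N, (a l * (Y l : ℝ) - (P l : ℝ) * r l * (W l : ℝ)))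
      * w).re = 13 / 20 * (s * w).re * X + ∑ l ∈ range N, ((a l * w).re * Y l
        - P l * (r l * w).re * W l) := by
  rw [add_mul, Complex.add_re, Finset.sum_mul, Complex.re_sum]
  congr 1
  · have e : 13 / 20 * s * (X : ℂ) * w = ((13 / 20 * X : ℝ) : ℂ) * (s * w) := by
      push_cast
      ring
    rw [e, Complex.re_ofReal_mul]
    ring
  · apply Finset.sum_congr rfl
    intro l _
    have e : (a l * (Y l : ℂ) - (P l : ℂ) * r l * (W l : ℂ)) * w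
        = (Y l : ℂ) * (a l * w) - ((P l * W l : ℝ) : ℂ) * (r l * w) := by
      push_cast
      ring
    rw [e, Complex.sub_re, Complex.re_ofReal_mul, Complex.re_ofReal_mul]
    ring

/-- the frequency part -/
lemma xi_part {ξ ξ' v v' wx wt Ct e₂ e₃ ξt ξb : ℂ} {E₁ E₂ E₃ : ℝ}
    (hv : v' = v + (wx - Ct * wt - e₂))
    (hξ : ξ' = ξ + ξt * wt + ξb * (starRingEnd ℂ) wt + e₃)
    (h1 : ‖ξ * e₂‖ ≤ E₁) (h2 : ‖e₃ * v‖ ≤ E₂)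
    (h3 : ‖(ξ' - ξ) * (wx - Ct * wt - e₂)‖ ≤ E₃) :
    (ξ' * v').re ≤ (ξ * v).re + (ξ * (wx - Ct * wt)).re
      + ((ξt * v + (starRingEnd ℂ) (ξb * v)) * wt).re + (E₁ + E₂ + E₃) := by
  have e : ξ' * v' = ξ * v + ξ * (wx - Ct * wt) + (ξt * v * wt + ξb * v * (starRingEnd ℂ) wt)
      + (-(ξ * e₂) + e₃ * v + (ξ' - ξ) * (wx - Ct * wt - e₂)) := by
    rw [hv]
    have : ξ' * v = (ξ + ξt * wt + ξb * (starRingEnd ℂ) wt + e₃) * v := by rw [hξ]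
    linear_combination this
  have e2 : (ξt * v * wt + ξb * v * (starRingEnd ℂ) wt).re
      = ((ξt * v + (starRingEnd ℂ) (ξb * v)) * wt).re := by
    have e3 : (ξb * v * (starRingEnd ℂ) wt).re = ((starRingEnd ℂ) (ξb * v) * wt).re := by
      rw [← Complex.conj_re (ξb * v * (starRingEnd ℂ) wt), map_mul, Complex.conj_conj]
    rw [Complex.add_re, e3, add_mul, Complex.add_re]
  rw [e, Complex.add_re, Complex.add_re, Complex.add_re, e2]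
  have t1 := Complex.abs_re_le_norm (-(ξ * e₂) + e₃ * v + (ξ' - ξ) * (wx - Ct * wt - e₂))
  have t2 := norm_add_le (-(ξ * e₂) + e₃ * v) ((ξ' - ξ) * (wx - Ct * wt - e₂))
  have t3 := norm_add_le (-(ξ * e₂)) (e₃ * v)
  rw [norm_neg] at t3
  have t4 := (abs_le.1 t1).2
  linarith

/-- size of the radius -/
lemma rho_part {v v' wx wt Ct e₂ : ℂ} {LA E₂ D : ℝ} (hv : v' = v + (wx - Ct * wt - e₂))
    (hLA : 0 ≤ LA) (hLA2 : LA ≤ 2) (h2 : ‖v‖ * ‖e₂‖ ≤ E₂)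
    (hD : ‖wx - Ct * wt - e₂‖ ≤ D) :
    LA * ((‖v'‖ ^ 2 - ‖v‖ ^ 2) / 2) ≤ ((LA : ℂ) * (starRingEnd ℂ) v * wx).re
      - ((LA : ℂ) * (starRingEnd ℂ) v * Ct * wt).re + (2 * E₂ + D ^ 2) := by
  obtain ⟨δ, hδ⟩ : ∃ δ : ℂ, δ = wx - Ct * wt - e₂ := ⟨_, rfl⟩
  rw [← hδ] at hv hD
  have e1 : ‖v'‖ ^ 2 - ‖v‖ ^ 2 = 2 * ((starRingEnd ℂ) v * δ).re + ‖δ‖ ^ 2 := by
    rw [hv, ← Complex.normSq_eq_norm_sq, ← Complex.normSq_eq_norm_sq,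
      ← Complex.normSq_eq_norm_sq, Complex.normSq_apply, Complex.normSq_apply,
      Complex.normSq_apply]
    simp only [Complex.add_re, Complex.add_im, Complex.mul_re, Complex.conj_re, Complex.conj_im]
    ring
  have e2 : (starRingEnd ℂ) v * δ = (starRingEnd ℂ) v * wx - (starRingEnd ℂ) v * Ct * wt
      - (starRingEnd ℂ) v * e₂ := by
    rw [hδ]
    ring
  have e3 : ((LA : ℂ) * (starRingEnd ℂ) v * wx).re = LA * ((starRingEnd ℂ) v * wx).re := by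
    rw [mul_assoc, Complex.re_ofReal_mul]
  have e4 : ((LA : ℂ) * (starRingEnd ℂ) v * Ct * wt).re
      = LA * ((starRingEnd ℂ) v * Ct * wt).re := by
    rw [mul_assoc, mul_assoc, Complex.re_ofReal_mul, mul_assoc]
  rw [e1, e2, Complex.sub_re, Complex.sub_re, e3, e4]
  have t1 := Complex.abs_re_le_norm ((starRingEnd ℂ) v * e₂)
  rw [norm_mul, RCLike.norm_conj] at t1
  have t2 := (abs_le.1 (t1.trans h2)).1
  have hE : 0 ≤ E₂ := le_trans (by positivity) h2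
  have t3 : ‖δ‖ ^ 2 ≤ D ^ 2 := pow_le_pow_left₀ (norm_nonneg _) hD 2
  have t4 : LA * (-((starRingEnd ℂ) v * e₂).re) ≤ 2 * E₂ := by
    calc LA * (-((starRingEnd ℂ) v * e₂).re) ≤ LA * E₂ := by
          gcongr
          linarith
      _ ≤ 2 * E₂ := by gcongr
  have t5 : LA * (‖δ‖ ^ 2 / 2) ≤ D ^ 2 := by
    have : 0 ≤ ‖δ‖ ^ 2 := by positivity
    nlinarith
  nlinarith

lemma RTay.real {N : ℕ} {M c A ρ₀ : ℝ} {f : ℂ → ℝ} {q a w : ℂ} (h : RTay N M c A f q a)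
    (hT : 0 < ‖q‖ ^ N) (hMA : 0 ≤ M * A) (hw : ‖w‖ ≤ c * ‖q‖ ^ N) (hwρ : ‖w‖ ≤ ρ₀) :
    |(a * w).re| ≤ M * A * (ρ₀ / ‖q‖ ^ N) ∧
      |f (rt N q w) - f q - (a * w).re| ≤ M * A * (ρ₀ / ‖q‖ ^ N) ^ 2 := by
  obtain ⟨h1, h2⟩ := h
  have hρ₀ : 0 ≤ ρ₀ := (norm_nonneg w).trans hwρ
  constructor
  · rw [← mul_div_assoc, le_div_iff₀ hT]
    have h3 := Complex.abs_re_le_norm (a * w)
    rw [norm_mul] at h3
    calc |(a * w).re| * ‖q‖ ^ N ≤ ‖a‖ * ‖w‖ * ‖q‖ ^ N := by gcongr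
      _ = (‖a‖ * ‖q‖ ^ N) * ‖w‖ := by ring
      _ ≤ (M * A) * ρ₀ := by gcongr
  · rw [div_pow, ← mul_div_assoc, le_div_iff₀ (by positivity)]
    refine (h2 w hw).trans ?_
    gcongr

lemma le_two_of_pow {N : ℕ} (hN : 1 ≤ N) {S : ℝ} (hS1 : S ^ N ≤ 111 / 100) : S ≤ 2 := by
  by_contra hcon
  push Not at hcon
  have h1 : (2 : ℝ) ^ 1 ≤ 2 ^ N := pow_le_pow_right₀ (by norm_num) hN
  have h2 : (2 : ℝ) ^ N ≤ S ^ N := pow_le_pow_left₀ (by norm_num) hcon.le N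
  linarith

/-- the bound of `T` -/
lemma T_size {N : ℕ} {κ R₀ Q S ρ M M₁ M₂ : ℝ} (h : ThPar N κ R₀ Q S) (hM : 0 ≤ M)
    (hM₁ : 0 ≤ M₁) (hM₂ : 0 ≤ M₂) (hρ : 0 ≤ ρ) {pN v ξt ξb Ct Z : ℂ} (hv : ‖v‖ = ρ)
    (hξt : ‖ξt‖ * Q ^ N ≤ M * (Q * S) ^ (N - 1)) (hξb : ‖ξb‖ * Q ^ N ≤ M * (Q * S) ^ (N - 1))
    (hCt : ‖Ct‖ * Q ≤ M₂) (hZ : ‖Z‖ ≤ 2 * M₁ * (ρ * LA N κ R₀ Q S ρ) * (ρ / Q ^ N)) :
    ‖(pN + (ξt * v + (starRingEnd ℂ) (ξb * v))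
      - (LA N κ R₀ Q S ρ : ℂ) * (starRingEnd ℂ) v * Ct + Z) - pN‖
      ≤ (2 * M + 2 * M₂ + 2 * M₁) * (ρ * LA N κ R₀ Q S ρ) * (1 / (Q * S) + ρ / Q ^ N) := by
  have hQ := h.hQ
  have hS := h.hS
  have hQN : 0 < Q ^ N := by positivity
  have hπ : 0 < Q * S := by positivity
  have hS2 := le_two_of_pow h.hN h.hS1
  have hLA := LA_pos (ρ := ρ) h
  have hLAt := LA_ge_top (ρ := ρ) h
  obtain ⟨D, hD⟩ : ∃ D : ℝ, D = ρ * LA N κ R₀ Q S ρ := ⟨_, rfl⟩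
  have hD0 : 0 ≤ D := by rw [hD]; positivity
  have hSD : S ^ N * ρ ≤ D := by
    rw [hD]
    have : 0 ≤ S ^ N := by positivity
    nlinarith
  have hone : ∀ z : ℂ, ‖z‖ * Q ^ N ≤ M * (Q * S) ^ (N - 1) → ‖z * v‖ ≤ M * D * (1 / (Q * S)) := by
    intro z hz
    rw [norm_mul, hv, mul_one_div, le_div_iff₀ hπ]
    have h1 : ‖z‖ * (Q * S) ≤ M * S ^ N := by
      have h2 : (‖z‖ * (Q * S)) * Q ^ N ≤ (M * S ^ N) * Q ^ N := by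
        calc (‖z‖ * (Q * S)) * Q ^ N = (‖z‖ * Q ^ N) * (Q * S) := by ring
          _ ≤ (M * (Q * S) ^ (N - 1)) * (Q * S) := by gcongr
          _ = M * (Q * S) ^ N := by
              rw [mul_assoc, ← pow_succ, show N - 1 + 1 = N by have := h.hN; omega]
          _ = _ := by rw [mul_pow]; ring
      exact le_of_mul_le_mul_right h2 hQN
    calc ‖z‖ * ρ * (Q * S) = (‖z‖ * (Q * S)) * ρ := by ring
      _ ≤ (M * S ^ N) * ρ := by gcongr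
      _ = M * (S ^ N * ρ) := by ring
      _ ≤ M * D := by gcongr
  have b1 := hone ξt hξt
  have b2 := hone ξb hξb
  have b3 : ‖(LA N κ R₀ Q S ρ : ℂ) * (starRingEnd ℂ) v * Ct‖ ≤ 2 * M₂ * D * (1 / (Q * S)) := by
    rw [norm_mul, norm_mul, Complex.norm_real, Real.norm_of_nonneg hLA.le, RCLike.norm_conj, hv,
      mul_one_div, le_div_iff₀ hπ]
    calc LA N κ R₀ Q S ρ * ρ * ‖Ct‖ * (Q * S) = D * (‖Ct‖ * Q) * S := by rw [hD]; ring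
      _ ≤ D * M₂ * 2 := by gcongr
      _ = _ := by ring
  rw [← hD] at hZ ⊢
  have e : (pN + (ξt * v + (starRingEnd ℂ) (ξb * v))
      - (LA N κ R₀ Q S ρ : ℂ) * (starRingEnd ℂ) v * Ct + Z) - pN
      = (ξt * v + (starRingEnd ℂ) (ξb * v))
      - (LA N κ R₀ Q S ρ : ℂ) * (starRingEnd ℂ) v * Ct + Z := by ring
  rw [e]
  have t1 := norm_add_le ((ξt * v + (starRingEnd ℂ) (ξb * v))
      - (LA N κ R₀ Q S ρ : ℂ) * (starRingEnd ℂ) v * Ct) Z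
  have t2 := norm_sub_le (ξt * v + (starRingEnd ℂ) (ξb * v))
    ((LA N κ R₀ Q S ρ : ℂ) * (starRingEnd ℂ) v * Ct)
  have t3 := norm_add_le (ξt * v) ((starRingEnd ℂ) (ξb * v))
  rw [RCLike.norm_conj] at t3
  have p1 : 0 ≤ 1 / (Q * S) := by positivity
  have p2 : 0 ≤ ρ / Q ^ N := by positivity
  have q1 : 0 ≤ M * D * (ρ / Q ^ N) := by positivity
  have q2 : 0 ≤ M₂ * D * (ρ / Q ^ N) := by positivity
  have q3 : 0 ≤ M₁ * D * (1 / (Q * S)) := by positivity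
  have e2 : (2 * M + 2 * M₂ + 2 * M₁) * D * (1 / (Q * S) + ρ / Q ^ N)
      = 2 * (M * D * (1 / (Q * S))) + 2 * M₂ * D * (1 / (Q * S)) + 2 * M₁ * D * (ρ / Q ^ N)
        + 2 * (M * D * (ρ / Q ^ N)) + 2 * (M₂ * D * (ρ / Q ^ N))
        + 2 * (M₁ * D * (1 / (Q * S))) := by ring
  rw [e2]
  linarith

/-- The size of the frequency. -/
lemma xi_size {N : ℕ} (hN : 1 ≤ N) {Γ M Q S : ℝ} (hΓ : 0 ≤ Γ) (hM : 0 < M) (hQ : 1 ≤ Q)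
    (hS2 : S ≤ 2) (hπ : 1 ≤ Q * S) (C : ℂ[X]) (hC : C.natDegree < N)
    (hCΓ : ∑ a ∈ range N, ‖C.coeff a‖ ≤ Γ) {p q : ℂ} (hq : ‖q‖ = Q)
    (hp : ‖p * q - (Q * S * Q : ℝ)‖ ≤ M) :
    ‖(cst C).eval p‖ ≤ Γ * (1 + M) ^ N * 2 ^ N * Q ^ N := by
  have hQ0 : 0 < Q := by linarith
  have hpn : ‖p‖ ≤ (1 + M) * (Q * S) := by
    have h1 : ‖p‖ * Q ≤ (1 + M) * (Q * S) * Q := by
      have h2 := norm_add_le (p * q - (Q * S * Q : ℝ)) ((Q * S * Q : ℝ) : ℂ)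
      rw [sub_add_cancel, norm_mul, hq, Complex.norm_real,
        Real.norm_of_nonneg (by nlinarith : 0 ≤ Q * S * Q)] at h2
      have h3 : M ≤ M * (Q * S * Q) := by
        have : 1 ≤ Q * S * Q := by nlinarith
        nlinarith
      nlinarith
    exact le_of_mul_le_mul_right h1 hQ0
  have hcC : (cst C).natDegree < N := lt_of_le_of_lt natDegree_map_le hC
  have hsum : ∑ a ∈ range N, ‖(cst C).coeff a‖ = ∑ a ∈ range N, ‖C.coeff a‖ := by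
    apply Finset.sum_congr rfl
    intro a _
    rw [cst, coeff_map, RCLike.norm_conj]
  have hY : 1 ≤ (1 + M) * (Q * S) := by nlinarith
  have h1 := poly_bound (cst C) hcC hY p hpn
  rw [hsum] at h1
  have hQS : Q * S ≤ 2 * Q := by nlinarith
  have h2 : ((1 + M) * (Q * S)) ^ (N - 1) ≤ (1 + M) ^ N * 2 ^ N * Q ^ N := by
    calc ((1 + M) * (Q * S)) ^ (N - 1) ≤ ((1 + M) * (2 * Q)) ^ (N - 1) :=
          pow_le_pow_left₀ (by linarith)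
            (mul_le_mul_of_nonneg_left hQS (by linarith : 0 ≤ 1 + M)) _
      _ ≤ ((1 + M) * (2 * Q)) ^ N := by
          apply pow_le_pow_right₀ (by nlinarith) (by omega)
      _ = _ := by rw [mul_pow, mul_pow]; ring
  calc ‖(cst C).eval p‖ ≤ (∑ a ∈ range N, ‖C.coeff a‖) * ((1 + M) * (Q * S)) ^ (N - 1) := h1
    _ ≤ Γ * ((1 + M) ^ N * 2 ^ N * Q ^ N) := by gcongr
    _ = _ := by ring

lemma final_re (ξ L w₁ w₂ P Y Ct Z : ℂ) :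
    ((ξ + L) * w₁ + (P + Y - L * Ct + Z) * w₂).re
      = ((P + ξ * Ct) * w₂).re + (ξ * (w₁ - Ct * w₂)).re + (Y * w₂).re + (L * w₁).re
        - (L * Ct * w₂).re + (Z * w₂).re := by
  rw [← Complex.add_re, ← Complex.add_re, ← Complex.add_re, ← Complex.sub_re,
    ← Complex.add_re]
  congr 1
  ring

theorem upper_core {N : ℕ} (hN : 1 ≤ N) {κ c M Γ M₂ : ℝ} (hκ : 1 ≤ κ) (hc : 0 < c)
    (hM : 0 < M) (hΓ : 0 ≤ Γ) (hM₂ : 1 ≤ M₂) : ∃ M' : ℝ, 1 ≤ M' ∧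
    ∀ (R₀ : ℝ) (C : ℂ[X]) (S : ℝ → ℝ) (Ψ : ℂ → ℝ) (p : ℂ → ℂ) (ξt ξb ft fb q x : ℂ),
    C.natDegree < N → ∑ a ∈ range N, ‖C.coeff a‖ ≤ Γ → q ≠ 0 →
    ‖(derivative C).eval q / (N * q ^ (N - 1))‖ * ‖q‖ ≤ M₂ →
    (∀ w : ℂ, ‖w‖ ≤ 1 / 2 * ‖q‖ ^ N → ‖C.eval (rt N q w) - C.eval q
      - (derivative C).eval q / (N * q ^ (N - 1)) * w‖ * (‖q‖ ^ N * ‖q‖) ≤ M₂ * ‖w‖ ^ 2) →
    ThPar N κ R₀ ‖q‖ (S ‖q‖) →
    IsTay N M c (S ‖q‖) (fun q => (S ‖q‖ : ℂ)) q ft fb →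
    ‖p q * q - (‖q‖ * S ‖q‖ * ‖q‖ : ℝ)‖ ≤ M →
    (∀ w : ℂ, ‖w‖ ≤ c * ‖q‖ ^ N → |Ψ (rt N q w) - Ψ q - ((p q ^ N + (cst C).eval (p q) *
      ((derivative C).eval q / (N * q ^ (N - 1)))) * w).re| ≤ M * ‖w‖ ^ 2) →
    IsTay N M c ((‖q‖ * S ‖q‖) ^ (N - 1)) (fun q => (cst C).eval (p q)) q ξt ξb →
    ‖x - C.eval q‖ ≤ 8 * ‖q‖ ^ N →
    ∃ T : ℂ, ‖T - p q ^ N‖ ≤ M' * (‖x - C.eval q‖ *
        LA N κ R₀ ‖q‖ (S ‖q‖) ‖x - C.eval q‖) *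
        (1 / (‖q‖ * S ‖q‖) + ‖x - C.eval q‖ / ‖q‖ ^ N) ∧
      ∀ ρ₀ : ℝ, 1 ≤ ρ₀ → M' * ρ₀ ≤ ‖q‖ ^ N → ∀ wx wt : ℂ, ‖wx‖ ≤ ρ₀ → ‖wt‖ ≤ ρ₀ →
        Ψ (rt N q wt) + ((cst C).eval (p (rt N q wt)) * (x + wx - C.eval (rt N q wt))).re
          + TH N κ R₀ ‖rt N q wt‖ (S ‖rt N q wt‖) ‖x + wx - C.eval (rt N q wt)‖
        ≤ Ψ q + ((cst C).eval (p q) * (x - C.eval q)).re
          + TH N κ R₀ ‖q‖ (S ‖q‖) ‖x - C.eval q‖
          + (((cst C).eval (p q) + LA N κ R₀ ‖q‖ (S ‖q‖) ‖x - C.eval q‖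
              * (starRingEnd ℂ) (x - C.eval q)) * wx + T * wt).re + M' * ρ₀ ^ 2 := by
  obtain ⟨M₁, hM₁, hpar⟩ := par_tay hN (c := c) (M := 2 * M + 1) (by linarith)
  obtain ⟨D₀, hD₀⟩ : ∃ D₀ : ℝ, D₀ = 1 + 2 * M₂ := ⟨_, rfl⟩
  obtain ⟨M₄, hM₄, hth⟩ := th_upper N hκ (M := M₁ + D₀) (by linarith)
  obtain ⟨Mξ, hMξ⟩ : ∃ Mξ : ℝ, Mξ = Γ * (1 + M) ^ N * 2 ^ N := ⟨_, rfl⟩
  have hMξ0 : 0 ≤ Mξ := by rw [hMξ]; positivity
  have hM₁0 : 0 < M₁ := by linarith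
  have hD₀0 : 0 < D₀ := by linarith
  have h2N : (0 : ℝ) < 2 ^ N := by positivity
  obtain ⟨M', hM'⟩ : ∃ M' : ℝ, M' = (M + Mξ * M₂ + 8 * M * 2 ^ N + 3 * M * 2 ^ N * D₀
    + 16 * M₂ + D₀ ^ 2 + M₄) + (2 * M + 2 * M₂ + 2 * M₁) + (1 / c + 2) := ⟨_, rfl⟩
  have hc1 : 0 < 1 / c := by positivity
  have p1 : 0 ≤ Mξ * M₂ := by positivity
  have p2 : 0 ≤ 8 * M * 2 ^ N := by positivity
  have p3 : 0 ≤ 3 * M * 2 ^ N * D₀ := by positivity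
  have p4 : 0 ≤ D₀ ^ 2 := by positivity
  refine ⟨M', by linarith, ?_⟩
  intro R₀ C S Ψ p ξt ξb ft fb q x hC hCΓ hq hCt hCtay hTh hSt hp hΨ hξ hx
  -- basic quantities
  obtain ⟨Q, hQ⟩ : ∃ Q : ℝ, Q = ‖q‖ := ⟨_, rfl⟩
  obtain ⟨v, hv⟩ : ∃ v : ℂ, v = x - C.eval q := ⟨_, rfl⟩
  obtain ⟨ρ, hρ⟩ : ∃ ρ : ℝ, ρ = ‖v‖ := ⟨_, rfl⟩
  obtain ⟨Ct, hCtd⟩ : ∃ Ct : ℂ, Ct = (derivative C).eval q / (N * q ^ (N - 1)) := ⟨_, rfl⟩
  obtain ⟨ξ, hξd⟩ : ∃ ξ : ℂ, ξ = (cst C).eval (p q) := ⟨_, rfl⟩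
  have hQ1 : 1 ≤ Q := by rw [hQ]; exact hTh.hQ
  have hQ0 : 0 < Q := by linarith
  have hS0 : 0 < S Q := by rw [hQ]; exact hTh.hS
  have hS2 : S Q ≤ 2 := by rw [hQ]; exact le_two_of_pow hN hTh.hS1
  have hπ1 : 1 ≤ Q * S Q := by
    have h1 := hTh.hR₀π
    have h2 := hTh.hR₀
    rw [← hQ] at h1
    nlinarith
  have hT : 0 < Q ^ N := by positivity
  have hQS : Q * S Q ≤ 2 * Q := by
    rw [mul_comm 2 Q]
    exact mul_le_mul_of_nonneg_left hS2 hQ0.le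
  have hπT : (Q * S Q) ^ (N - 1) ≤ 2 ^ N * Q ^ N := by
    calc (Q * S Q) ^ (N - 1) ≤ (2 * Q) ^ (N - 1) :=
          pow_le_pow_left₀ (by linarith) hQS _
      _ ≤ (2 * Q) ^ N := pow_le_pow_right₀ (by linarith) (by omega)
      _ = _ := mul_pow _ _ _
  obtain ⟨s', a, r, hs', ha, hr⟩ := hpar κ R₀ S q _ hq hTh.hQ hκ hTh.hR₀ hTh.hS hTh.hS1
    ((RTay.of_isTay hSt).mono (M' := 2 * M + 1) (A' := S ‖q‖) (by
      have := hTh.hS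
      nlinarith) le_rfl)
  have hρ0 : 0 ≤ ρ := by rw [hρ]; positivity
  have hξs := xi_size hN hΓ hM hQ1 hS2 hπ1 C hC hCΓ hQ.symm (by rw [hQ]; exact hp)
  rw [← hMξ, ← hξd] at hξs
  obtain ⟨x1, x2, x3⟩ := hξ
  rw [← hQ] at x1 x2 hCt hx
  rw [← hv, ← hρ] at hx
  rw [← hCtd] at hCt
  obtain ⟨Z, hZ⟩ : ∃ Z : ℂ, Z = 13 / 20 * s' * (ρ ^ 2 : ℝ) + ∑ l ∈ range N,
        (a l * (√(ρ ^ 2 + rad κ R₀ Q l ^ 2) - rad κ R₀ Q l : ℝ)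
          - (amp N κ R₀ Q (S Q) l : ℝ) * r l *
            (1 - rad κ R₀ Q l / √(ρ ^ 2 + rad κ R₀ Q l ^ 2) : ℝ)) := ⟨_, rfl⟩
  have hZs : ‖Z‖ ≤ 2 * M₁ * (ρ * LA N κ R₀ Q (S Q) ρ) * (ρ / Q ^ N) := by
    rw [hZ]
    rw [← hQ] at hTh hs' ha hr
    exact th_size hTh hM₁0.le s' a r (by
      rw [le_div_iff₀ hT]
      have := hs'.1
      rwa [← hQ] at this) (fun l hl => by
      rw [le_div_iff₀ hT]
      have := (ha l hl).1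
      rwa [← hQ] at this) (fun l hl => by
      rw [le_div_iff₀ hT]
      have := (hr l hl).1
      rwa [← hQ] at this)
  refine ⟨p q ^ N + (ξt * v + (starRingEnd ℂ) (ξb * v))
      - (LA N κ R₀ Q (S Q) ρ : ℂ) * (starRingEnd ℂ) v * Ct + Z, ?_, ?_⟩
  · have h1 := T_size (pN := p q ^ N) (by rw [← hQ] at hTh; exact hTh) hM.le hM₁0.le
      (by linarith : 0 ≤ M₂) hρ0 hρ.symm x1 x2 hCt hZs
    rw [← hv, ← hρ, ← hQ]
    refine h1.trans ?_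
    have hLA : 0 < LA N κ R₀ Q (S Q) ρ := LA_pos (by rw [← hQ] at hTh; exact hTh)
    gcongr
    linarith
  · intro ρ₀ hρ₀ hM'ρ wx wt hwx hwt
    rw [← hQ] at hM'ρ
    have hρ₀0 : 0 < ρ₀ := by linarith
    have hM'c : 1 / c ≤ M' := by linarith
    have hM'2 : 2 ≤ M' := by linarith
    have hM'1 : 2 * M₁ ≤ M' := by linarith
    have hwt0 := norm_nonneg wt
    have hcρ : ρ₀ ≤ c * Q ^ N := by
      have h1 : 1 / c * ρ₀ ≤ Q ^ N := (mul_le_mul_of_nonneg_right hM'c hρ₀0.le).trans hM'ρ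
      rw [div_mul_eq_mul_div, one_mul, div_le_iff₀ hc] at h1
      linarith
    have h2ρ : ρ₀ ≤ 1 / 2 * Q ^ N := by
      have h1 : 2 * ρ₀ ≤ Q ^ N := (mul_le_mul_of_nonneg_right hM'2 hρ₀0.le).trans hM'ρ
      linarith
    have hρT : ρ₀ ≤ Q ^ N := by linarith
    have h1ρ : 2 * M₁ * ρ₀ ≤ Q ^ N := (mul_le_mul_of_nonneg_right hM'1 hρ₀0.le).trans hM'ρ
    have hwc : ‖wt‖ ≤ c * ‖q‖ ^ N := by rw [← hQ]; exact hwt.trans hcρ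
    have hw2 : ‖wt‖ ≤ 1 / 2 * ‖q‖ ^ N := by rw [← hQ]; exact hwt.trans h2ρ
    have hwm : ‖wt‖ ≤ min c (1 / 2) * ‖q‖ ^ N := by
      rcases min_choice c (1 / 2) with h | h
      · rw [h]; exact hwc
      · rw [h]; exact hw2
    have hwt2 : ‖wt‖ ^ 2 ≤ ρ₀ ^ 2 := pow_le_pow_left₀ hwt0 hwt 2
    obtain ⟨q', hq'⟩ : ∃ q' : ℂ, q' = rt N q wt := ⟨_, rfl⟩
    obtain ⟨v', hv'⟩ : ∃ v' : ℂ, v' = x + wx - C.eval q' := ⟨_, rfl⟩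
    obtain ⟨ξ', hξ'⟩ : ∃ ξ' : ℂ, ξ' = (cst C).eval (p q') := ⟨_, rfl⟩
    obtain ⟨e₂, he₂⟩ : ∃ e₂ : ℂ, e₂ = C.eval q' - C.eval q - Ct * wt := ⟨_, rfl⟩
    obtain ⟨e₃, he₃⟩ : ∃ e₃ : ℂ, e₃ = ξ' - ξ - ξt * wt - ξb * (starRingEnd ℂ) wt := ⟨_, rfl⟩
    have hvv : v' = v + (wx - Ct * wt - e₂) := by
      rw [hv', hv, he₂]
      ring
    have hξξ : ξ' = ξ + ξt * wt + ξb * (starRingEnd ℂ) wt + e₃ := by
      rw [he₃]
      ring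
    have b2 : ‖e₂‖ * Q ^ N ≤ M₂ * ρ₀ ^ 2 := by
      have h1 := hCtay wt hw2
      rw [← hq', ← hCtd, ← he₂, ← hQ] at h1
      calc ‖e₂‖ * Q ^ N ≤ ‖e₂‖ * (Q ^ N * Q) :=
            mul_le_mul_of_nonneg_left (le_mul_of_one_le_right hT.le hQ1) (norm_nonneg _)
        _ ≤ M₂ * ‖wt‖ ^ 2 := h1
        _ ≤ _ := by gcongr
    have b2' : ‖e₂‖ ≤ M₂ * ρ₀ := by
      have : ‖e₂‖ * Q ^ N ≤ (M₂ * ρ₀) * Q ^ N := by
        calc ‖e₂‖ * Q ^ N ≤ M₂ * ρ₀ ^ 2 := b2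
          _ = (M₂ * ρ₀) * ρ₀ := by ring
          _ ≤ _ := by gcongr
      exact le_of_mul_le_mul_right this hT
    have bCt : ‖Ct‖ ≤ M₂ := (le_mul_of_one_le_right (norm_nonneg Ct) hQ1).trans hCt
    have bδ : ‖wx - Ct * wt - e₂‖ ≤ D₀ * ρ₀ := by
      have t1 := norm_sub_le (wx - Ct * wt) e₂
      have t2 := norm_sub_le wx (Ct * wt)
      rw [norm_mul] at t2
      have t3 : ‖Ct‖ * ‖wt‖ ≤ M₂ * ρ₀ := by gcongr
      rw [hD₀]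
      linarith
    have b3 : ‖e₃‖ * Q ^ N ≤ M * 2 ^ N * ρ₀ ^ 2 := by
      have h1 := x3 wt hwc
      simp only at h1
      rw [← hq', ← hξ', ← hξd, ← he₃, ← hQ] at h1
      have h2 : (‖e₃‖ * Q ^ N) * Q ^ N ≤ (M * 2 ^ N * ρ₀ ^ 2) * Q ^ N := by
        calc (‖e₃‖ * Q ^ N) * Q ^ N = ‖e₃‖ * (Q ^ N) ^ 2 := by ring
          _ ≤ M * (Q * S Q) ^ (N - 1) * ‖wt‖ ^ 2 := h1
          _ ≤ M * (2 ^ N * Q ^ N) * ρ₀ ^ 2 := by gcongr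
          _ = _ := by ring
      exact le_of_mul_le_mul_right h2 hT
    have b3' : ‖e₃‖ ≤ M * 2 ^ N * ρ₀ := by
      have : ‖e₃‖ * Q ^ N ≤ (M * 2 ^ N * ρ₀) * Q ^ N := by
        calc ‖e₃‖ * Q ^ N ≤ M * 2 ^ N * ρ₀ ^ 2 := b3
          _ = (M * 2 ^ N * ρ₀) * ρ₀ := by ring
          _ ≤ _ := by gcongr
      exact le_of_mul_le_mul_right this hT
    have bx : ∀ z : ℂ, ‖z‖ * Q ^ N ≤ M * (Q * S Q) ^ (N - 1) → ‖z‖ ≤ M * 2 ^ N := by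
      intro z hz
      have : ‖z‖ * Q ^ N ≤ (M * 2 ^ N) * Q ^ N := by
        calc ‖z‖ * Q ^ N ≤ M * (Q * S Q) ^ (N - 1) := hz
          _ ≤ M * (2 ^ N * Q ^ N) := by gcongr
          _ = _ := by ring
      exact le_of_mul_le_mul_right this hT
    have E1 : ‖ξ * e₂‖ ≤ Mξ * M₂ * ρ₀ ^ 2 := by
      rw [norm_mul]
      calc ‖ξ‖ * ‖e₂‖ ≤ (Mξ * Q ^ N) * ‖e₂‖ := by gcongr
        _ = Mξ * (‖e₂‖ * Q ^ N) := by ring
        _ ≤ Mξ * (M₂ * ρ₀ ^ 2) := by gcongr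
        _ = _ := by ring
    have E2 : ‖e₃ * v‖ ≤ 8 * M * 2 ^ N * ρ₀ ^ 2 := by
      rw [norm_mul, ← hρ]
      calc ‖e₃‖ * ρ ≤ ‖e₃‖ * (8 * Q ^ N) := by gcongr
        _ = 8 * (‖e₃‖ * Q ^ N) := by ring
        _ ≤ 8 * (M * 2 ^ N * ρ₀ ^ 2) := by gcongr
        _ = _ := by ring
    have E3 : ‖(ξ' - ξ) * (wx - Ct * wt - e₂)‖ ≤ 3 * M * 2 ^ N * D₀ * ρ₀ ^ 2 := by
      rw [norm_mul]
      have h1 : ‖ξ' - ξ‖ ≤ 3 * M * 2 ^ N * ρ₀ := by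
        have e : ξ' - ξ = ξt * wt + ξb * (starRingEnd ℂ) wt + e₃ := by rw [hξξ]; ring
        rw [e]
        have t1 := norm_add_le (ξt * wt + ξb * (starRingEnd ℂ) wt) e₃
        have t2 := norm_add_le (ξt * wt) (ξb * (starRingEnd ℂ) wt)
        rw [norm_mul, norm_mul, RCLike.norm_conj] at t2
        have t3 : ‖ξt‖ * ‖wt‖ ≤ (M * 2 ^ N) * ρ₀ := by
          have := bx ξt x1
          gcongr
        have t4 : ‖ξb‖ * ‖wt‖ ≤ (M * 2 ^ N) * ρ₀ := by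
          have := bx ξb x2
          gcongr
        linarith
      calc ‖ξ' - ξ‖ * ‖wx - Ct * wt - e₂‖ ≤ (3 * M * 2 ^ N * ρ₀) * (D₀ * ρ₀) := by gcongr
        _ = _ := by ring
    have hxi := xi_part hvv hξξ E1 E2 E3
    rw [← hQ] at hTh
    have hLA0 : 0 < LA N κ R₀ Q (S Q) ρ := LA_pos hTh
    have hLA2 : LA N κ R₀ Q (S Q) ρ ≤ 2 := LA_le hTh
    have hrho := rho_part (LA := LA N κ R₀ Q (S Q) ρ) (E₂ := 8 * M₂ * ρ₀ ^ 2) (D := D₀ * ρ₀) hvv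
      hLA0.le hLA2 (by
        rw [← hρ]
        calc ρ * ‖e₂‖ ≤ (8 * Q ^ N) * ‖e₂‖ := by gcongr
          _ = 8 * (‖e₂‖ * Q ^ N) := by ring
          _ ≤ 8 * (M₂ * ρ₀ ^ 2) := by gcongr
          _ = _ := by ring) bδ
    have hTq : 0 < ‖q‖ ^ N := by rw [← hQ]; exact hT
    have hSN0 : 0 ≤ S ‖q‖ ^ N := by
      rw [← hQ]
      positivity
    have hsr := RTay.real hs' hTq (by positivity) hwm hwt
    have har := fun l (hl : l < N) => RTay.real (ha l hl) hTq (by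
      have : 0 ≤ amp N κ R₀ ‖q‖ (S ‖q‖) l := by rw [← hQ]; exact amp_nonneg hTh l
      positivity) hwm hwt
    have hrr := fun l (hl : l < N) => RTay.real (hr l hl) hTq (by
      have : 0 < N2.rad κ R₀ ‖q‖ l := by rw [← hQ]; exact rad_pos hTh.hκ hTh.hR₀ hTh.hQ l
      positivity) hwm hwt
    simp only [← hQ, ← hq'] at hsr har hrr
    have hu0 : 0 ≤ ρ₀ / Q ^ N := by positivity
    have hu1 : ρ₀ / Q ^ N ≤ 1 := by rw [div_le_one hT]; exact hρT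
    have hu2 : 2 * M₁ * (ρ₀ / Q ^ N) ≤ 1 := by
      rw [← mul_div_assoc, div_le_one hT]
      exact h1ρ
    have hTH := hth R₀ Q (S Q) ‖q'‖ (S ‖q'‖) ρ ‖v'‖ ρ₀ (s' * wt).re (fun l => (a l * wt).re)
      (fun l => (r l * wt).re) hTh (fun l hl => by
        have h1 := (har l hl).1
        have h2 := (har l hl).2
        have h3 := amp_nonneg hTh l
        have h4 := (abs_le.1 h1).1
        have h5 := (abs_le.1 h2).1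
        have h6 : (ρ₀ / Q ^ N) ^ 2 ≤ ρ₀ / Q ^ N := pow_le_of_le_one hu0 hu1 two_ne_zero
        have h7 : M₁ * amp N κ R₀ Q (S Q) l * (ρ₀ / Q ^ N) ^ 2
            ≤ M₁ * amp N κ R₀ Q (S Q) l * (ρ₀ / Q ^ N) := by gcongr
        have h8 : amp N κ R₀ Q (S Q) l * (2 * M₁ * (ρ₀ / Q ^ N))
            ≤ amp N κ R₀ Q (S Q) l * 1 := by gcongr
        linarith) hQS hρ0 hx hρ₀ hρT (by
        have h1 := abs_norm_sub_norm_le v' v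
        rw [← hρ] at h1
        refine h1.trans ?_
        rw [hvv, add_sub_cancel_left]
        refine bδ.trans ?_
        gcongr
        linarith) (hsr.1.trans (by gcongr; linarith)) (hsr.2.trans (by gcongr; linarith))
      (fun l hl => (har l hl).1.trans (by
        have := amp_nonneg hTh l
        gcongr
        linarith)) (fun l hl => (har l hl).2.trans (by
        have := amp_nonneg hTh l
        gcongr
        linarith)) (fun l hl => (hrr l hl).1.trans (by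
        have := rad_pos hTh.hκ hTh.hR₀ hTh.hQ l
        gcongr
        linarith)) (fun l hl => (hrr l hl).2.trans (by
        have := rad_pos hTh.hκ hTh.hR₀ hTh.hQ l
        gcongr
        linarith))
    have hZre := Z_re N s' wt a r (ρ ^ 2) (fun l => √(ρ ^ 2 + rad κ R₀ Q l ^ 2) - rad κ R₀ Q l)
      (fun l => amp N κ R₀ Q (S Q) l)
      (fun l => 1 - rad κ R₀ Q l / √(ρ ^ 2 + rad κ R₀ Q l ^ 2))
    rw [← hZ] at hZre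
    have hpsi := (abs_le.1 (hΨ wt hwc)).2
    rw [← hCtd, ← hξd, ← hq'] at hpsi
    rw [← hq', ← hv', ← hξ', ← hξd, ← hv, ← hρ, ← hQ, final_re]
    have hM2 : M * ‖wt‖ ^ 2 ≤ M * ρ₀ ^ 2 := by gcongr
    have hfin : (M + Mξ * M₂ + 8 * M * 2 ^ N + 3 * M * 2 ^ N * D₀
        + 16 * M₂ + D₀ ^ 2 + M₄) * ρ₀ ^ 2 ≤ M' * ρ₀ ^ 2 := by
      gcongr
      rw [hM']
      have : 0 ≤ 2 * M + 2 * M₂ + 2 * M₁ := by linarith
      linarith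
    rw [← hρ] at hrho
    linarith

end Pool.Agent.H77.N2.Ut
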