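import Pool.Agent.H77.N2.Defs
import Pool.Agent.H77.N2.Theta
import Pool.Agent.H77.N2.Tay
import Pool.Agent.H77.N2.BaseEx
import Pool.Agent.H77.N2.UpCore

/-!
Module UPPER of MP_6e521b_an (n = 2): the affine upper bound of the weight of a sheet at bounded
distance. (Theta, Tay, BaseEx are stated there; use them as black boxes.)

Conventions at the fixed `(i, x, q)`: `Q = ‖q‖`, `τ = Q^N = ‖t‖`, `t = q^N`, `S = SR N β B K Q`,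
`π = Q S ≤ 2Q`, `v = x - C_i(q)`, `ρ = ‖v‖ ≤ 8τ`, `ξ = C_i*(p_i(q))`, `q' = rt N q wt`, primes for the
values at `(x + wx, q')`. `≲`: up to a constant depending on `N, C, κ, c, M`. All of `B, π, Q, τ` are
large (`B ≥ B₁`), `‖wx‖, ‖wt‖ ≤ ρ₀`, `M' ρ₀ ≤ τ`. `|p_i| ≲ π` (from `pnear`), `|ξ| ≲ π^(N-1)`.

(1) `ψ' - ψ ≤ Re((p^N + ξ C_t) wt) + M ρ₀²`, `C_t = C_i'(q)/(N q^(N-1))`, `|C_t| ≲ 1/Q` (`ψtay`).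
(2) `ΔC := C_i(q') - C_i(q) = C_t wt + O(ρ₀²/(τ Q))` (Taylor for polynomials of degree < N in
    `q' = q(1+wt/t)^(1/N)`), so `v' = v + wx - ΔC`, `‖v' - v‖ ≲ ρ₀`.
(3) `Re(ξ'v') - Re(ξ v) = Re(ξ (wx - C_t wt)) + Re(v (ξt wt + ξb w̄t)) + O(ρ₀²)`: the errors are
    `|ξ| ρ₀²/(τQ)`, `|v| π^(N-1) ρ₀²/τ² ≲ ρ₀²` (as `π^(N-1) ≲ Q^(N-1) ≤ τ`),
    `|Δξ| ‖wx - ΔC‖ ≲ (π^(N-1)/τ) ρ₀²`.
    `Re(v (ξt wt + ξb w̄t)) = Re((ξt v + conj(ξb v)) wt)`, and `|ξt v| ≲ (π^(N-1)/τ) ρ`.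
(4) The profile. `S'^N = S^N + Re(a wt) + O(S^N ρ₀²/τ²)`, `|a| ≲ S^N/τ`; `amp_l' = amp_l + Re(a_l wt)
    + O(amp_l ρ₀²/τ²)`, `|a_l| ≲ amp_l/τ` (from `IsTay` of `S`, of `‖q‖^l`, products, and
    `b - S ≥ c_N`, `amp_l = 1.3 b^(N-l-1) S^l (b-S) rad_l`); `rad_l' = rad_l + Re(r_l wt) +
    O(rad_l ρ₀²/τ²)`, `|r_l| ≲ rad_l/τ` (zero for `l = 0`); the functions are real so
    `ft wt + fb w̄t` is real up to the error and one may take real parts.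
    With `n_l = √(ρ²+rad_l²)`, concavity of the square root gives
    `√(ρ'²+rad_l'²) - rad_l' ≤ (n_l - rad_l) + (ρ'²-ρ²)/(2 n_l) - Δrad_l (1 - rad_l/n_l)
      + (Δrad_l)²/(2 n_l)`.
    `ρ'² - ρ² = 2 Re(v̄ (wx - ΔC)) + ‖wx - ΔC‖²`. Multiply by `amp_l' ≥ 0` and sum; with
    `(13/20)(S'^N ρ'² - S^N ρ²)` one gets
    `TH' ≤ TH + Re(LA v̄ wx) + Re(T_Θ wt) + O(ρ₀²)`,
    `T_Θ = - LA v̄ C_t + (13/20) a ρ² + Σ_l (a_l (n_l - rad_l) - amp_l r_l (1 - rad_l/n_l))`.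
    Errors: `amp_l/rad_l ≤ 2`, `amp_l/n_l ≤ 2`, `Δamp_l (ρ'²-ρ²)/n_l ≲ (amp_l ρ₀/τ)(ρ₀ + ρ₀²/n_l)`,
    `amp_l/τ ≲ 1`, `amp_l ρ/τ² ≲ 1/τ`, `S^N ρ²ρ₀²/τ² ≲ ρ₀²`, `amp_l (Δrad_l)²/n_l ≲
    2 (rad_l ρ₀/τ)² ≲ ρ₀²`.
    Size of `T_Θ`: with `D := ρ LA(ρ)` (`= 1.3 S^N ρ + Σ amp_l ρ/n_l`): `|LA v̄ C_t| ≲ D/Q`,
    `|a| ρ² ≲ S^N ρ²/τ ≲ Dρ/τ`, `amp_l (n_l - rad_l)/τ ≤ amp_l ρ²/(n_l τ) ≤ Dρ/τ`,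
    `amp_l (1 - rad_l/n_l) rad_l/τ ≤ amp_l ρ²/(n_l τ) ≤ D ρ/τ`.
(5) So `T = p^N + ξt v + conj(ξb v) + T_Θ` and (using `ψ`: `ξ C_t wt` cancels against (3)).
    `(π^(N-1)/τ) ρ ≤ D/π` because `D ≥ 1.3 S^N ρ = 1.3 (π^N/τ) ρ`. Also `1/Q ≤ 2/π`.
    Total: `‖T - p^N‖ ≲ D (1/π + ρ/τ)`.
-/

open Finset

namespace Pool.Agent.H77.N2

theorem upper {N : ℕ} (hN : 1 ≤ N) {ι : Type*} [Finite ι] (C : ι → Polynomial ℂ)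
    (hdeg : ∀ i, (C i).natDegree < N) {κ c M : ℝ} (hκ : 1 ≤ κ) (hc : 0 < c) (hM : 0 < M) :
    ∃ M' B₁ : ℝ, 0 < M' ∧ 1 ≤ B₁ ∧ ∀ β : ℝ, 9 / 10 ≤ β → β ≤ 1 → ∀ B, B₁ ≤ B → ∀ K, 1 ≤ K →
    ∀ R : ℝ, 1 ≤ R → 100 * B ≤ R ^ N → ∀ (ψ : ι → ℂ → ℝ) (p ξt ξb : ι → ℂ → ℂ),
    IsSlice N C β B K R M c ψ p ξt ξb → ∀ R₀ : ℝ, 1 ≤ R₀ →
    (∀ Q, R < Q → R₀ ^ 2 ≤ piR N β B K Q) → ∀ (i : ι) (q x : ℂ), R < ‖q‖ →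
    ‖x - (C i).eval q‖ ≤ 8 * ‖q‖ ^ N →
    ∃ T : ℂ, ‖T - p i q ^ N‖ ≤ M' * (‖x - (C i).eval q‖ *
        LA N κ R₀ ‖q‖ (SR N β B K ‖q‖) ‖x - (C i).eval q‖) *
        (1 / piR N β B K ‖q‖ + ‖x - (C i).eval q‖ / ‖q‖ ^ N) ∧
      ∀ ρ₀ : ℝ, 1 ≤ ρ₀ → M' * ρ₀ ≤ ‖q‖ ^ N → ∀ wx wt : ℂ, ‖wx‖ ≤ ρ₀ → ‖wt‖ ≤ ρ₀ →
        PH N C β B K κ R₀ ψ p i (x + wx) (rt N q wt) ≤ PH N C β B K κ R₀ ψ p i x q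
          + (((cst (C i)).eval (p i q) + LA N κ R₀ ‖q‖ (SR N β B K ‖q‖) ‖x - (C i).eval q‖
              * (starRingEnd ℂ) (x - (C i).eval q)) * wx + T * wt).re + M' * ρ₀ ^ 2 := by
  have hfin : ∀ f : ι → ℝ, ∃ m : ℝ, ∀ i, f i ≤ m := by
    intro f
    obtain ⟨m, hm⟩ := (Set.finite_range f).bddAbove
    exact ⟨m, fun i => hm (Set.mem_range_self i)⟩
  obtain ⟨Γ₀, hΓ₀⟩ := hfin fun i => ∑ a ∈ range N, ‖(C i).coeff a‖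
  have hpt := fun i => Ut.poly_tay hN (C i) (hdeg i)
  choose Mf hMf hMt using hpt
  obtain ⟨m₀, hm₀⟩ := hfin Mf
  obtain ⟨Γ, hΓ⟩ : ∃ Γ : ℝ, Γ = |Γ₀| := ⟨_, rfl⟩
  obtain ⟨M₂, hM₂⟩ : ∃ M₂ : ℝ, M₂ = |m₀| + 1 := ⟨_, rfl⟩
  have hΓ0 : 0 ≤ Γ := by rw [hΓ]; exact abs_nonneg _
  have hM₂1 : 1 ≤ M₂ := by rw [hM₂]; linarith [abs_nonneg m₀]
  have hΓi : ∀ i, ∑ a ∈ range N, ‖(C i).coeff a‖ ≤ Γ := fun i => by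
    rw [hΓ]
    exact (hΓ₀ i).trans (le_abs_self _)
  have hMi : ∀ i, Mf i ≤ M₂ := fun i => by
    rw [hM₂]
    linarith [hm₀ i, le_abs_self m₀]
  obtain ⟨M', hM', hcore⟩ := Ut.upper_core hN hκ hc hM hΓ0 hM₂1
  refine ⟨M', 1, by linarith, le_rfl, ?_⟩
  intro β hβ hβ1 B hB K hK R hR hRB ψ p ξt ξb hsl R₀ hR₀ hR₀π i q x hq hx
  have hβ0 : 0 < β := by linarith
  have hB0 : 0 < B := by linarith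
  have hq0 : 0 < ‖q‖ := by linarith
  have hq1 : 1 ≤ ‖q‖ := by linarith
  have hqne : q ≠ 0 := norm_pos_iff.1 hq0
  have hBq : 100 * B ≤ ‖q‖ ^ N := hRB.trans (pow_le_pow_left₀ (by linarith) hq.le N)
  have hS0 : 0 < SR N β B K ‖q‖ := SR_pos hβ0 hB0 hq0
  have hS1 : SR N β B K ‖q‖ ^ N ≤ 111 / 100 := SR_le hN hβ0 hβ1 hB0 hq0 hBq
  have hTh : ThPar N κ R₀ ‖q‖ (SR N β B K ‖q‖) :=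
    ⟨hN, hκ, hR₀, hq1, hS0, hS1, hR₀π _ hq⟩
  obtain ⟨ft, fb, hst⟩ := hsl.stay q hq
  obtain ⟨t1, t2, t3⟩ := hMt i q hq1
  have t3' : ∀ w : ℂ, ‖w‖ ≤ 1 / 2 * ‖q‖ ^ N → ‖(C i).eval (rt N q w) - (C i).eval q
      - (Polynomial.derivative (C i)).eval q / (N * q ^ (N - 1)) * w‖ * (‖q‖ ^ N * ‖q‖)
        ≤ M₂ * ‖w‖ ^ 2 := fun w hw => (t3 w hw).trans (by
    have := hMi i
    gcongr)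
  exact hcore R₀ (C i) (fun Q => SR N β B K Q) (ψ i) (p i) (ξt i q) (ξb i q) ft fb q x (hdeg i)
    (hΓi i) hqne (t1.trans (hMi i)) t3' hTh hst (hsl.pnear i q hq)
    (hsl.ψtay i q hq) (hsl.ξtay i q hq) hx

end Pool.Agent.H77.N2
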