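import Pool.Agent.H77.N2.Defs
import Pool.Agent.H77.N2.Radial
import Pool.Agent.H77.N2.Pack
import Pool.Agent.H77.N2.Upper
import Pool.Agent.H77.N2.Compare
import Pool.Agent.H77.N2.Sep

/-!
Module CONESEL of MP_6e521b_an (n = 2): the weight of one direction as a minimum over the sheets
(Radial, Pack, Upper, Compare, Sep, Theta, Tay, BaseEx: black boxes as stated).

Constants, in this order: `M, c, κs, B₁` from `exists_slice`; `κ` from `sep`; `M₁` from `upper` (for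
`κ, c, M`); `M₂` from `compare`; `M₃, c₃, η₀` from `sep` for `(c, M, M₁)`. Choose `η ≤ min(η₀, 1/100)`
with also `M₃ η ≤ c₀/4` and `η ≤ c₀/16`. `β := 1 - η²` (`≥ 9/10`). `B₁'` from `sep` for this `η`;
`B` is at least all the thresholds and as large as needed below. `R := (100 B)^(1/N)` (`≥ 1`,
`R^N = 100 B`), `R_B := κs R`; `ψ, p, ξt, ξb` from `exists_slice` (choice, for each `B, K`).
`R₀ := (β B)^(1/(2N))`: `1 ≤ R₀`, `R₀² = (βB)^(1/N) ≤ π(Q)` for all `Q > 0` (`piR_pow_ge`).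

Definition: `V B K x t = φ(√(‖x‖²+‖t‖²))` unless `R_B^N < ‖t‖` and `‖x‖ ≤ 4η‖t‖`, in which case it
is the minimum of that number and of the finitely many numbers `PH i x q`, `i : ι`, `q^N = t`
(`Polynomial.nthRoots N t`, or `nthRootsFinset`; nonempty; note `‖q‖ = ‖t‖^(1/N) > R_B`).

Let `τ = ‖t‖`, `s = sR B K τ`, `S^N = β s`, `π^N = β s τ`. By `compare`,
`|PH i x q - (βφ(τ) + (13/20) β s ‖x‖²)| ≤ M₂ π^N τ/√π = (M₂ β/√π) s τ²`, and `sτ²/4 ≤ φ(τ) ≤ sτ²`.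
(low) `PH ≥ β(1 - 4M₂/√π) φ(τ) ≥ 0.97 β φ(τ) ≥ 0.97·0.9999·(11/20)(τ² - K²) ≥ 0.52 τ² - K²` and
  `(‖x‖²+τ²)/2 ≤ (1+16η²)τ²/2 ≤ 0.51 τ²`; and `φ(r) ≥ (11/20) r² - (11/20)K²` in the other case.
(lin) `PH ≥ φ(τ)/2 ≥ Bτ/2 ≥ (B/8)(‖x‖ + ‖t‖)`, resp. `φ(r) ≥ B r ≥ (B/2)(‖x‖+‖t‖)`.
(inner) if `‖x‖ < η‖t‖` and `B²/2 ≤ ‖t‖` (so `R_B^N < ‖t‖` for `B` large) then for any `i`, `q`:
  `PH i x q ≤ βφ(τ) + (13/20)β s‖x‖² + (M₂/√π)sτ²` and `φ(r) ≥ φ(τ) + (1-η²)(s‖x‖²/2)`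
  (`phi_add_ge` with `δ = η²`), so `φ(r) - PH ≥ η²φ(τ) - (13/20 - (1-η²)/2) s η²τ² - (M₂/√π)sτ²
  ≥ (1/4 - 0.16) η² sτ² - (M₂/√π) sτ² > 0` for `B` large.
(outer) if `3η‖t‖ < ‖x‖ ≤ 4η‖t‖` and `R_B^N < ‖t‖`: `PH i x q ≥ βφ(τ) + (13/20)βs‖x‖² - (M₂/√π)sτ²`,
  `φ(r) ≤ φ(τ) + (1+16η²)(s‖x‖²/2)`, `PH - φ(r) ≥ -η²sτ² + (0.649 - 0.501) 9 η² sτ² - … > 0`.
(sel) Let `V B K x t < φ(r)`, `B⁴ ≤ ‖x‖²+‖t‖²`. Then `‖x‖ ≤ 4η‖t‖`, so `‖t‖ ≥ B²/2`, and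
  `V B K x t = PH i x q` for some `(i, q)`, minimal; `‖x‖ ≤ 3η‖t‖` by (outer); `PH i x q ≤ PH j x q` for all
  `j`. `‖x - C_i(q)‖ ≤ 8‖q‖^N`. Take `T` from `upper`, `pT` from `sep`, `X = ξ_i + LA v̄`, `Λ = LA`.
  Local bound: for `‖wx‖, ‖wt‖ ≤ ρ₀` and `‖t‖` large compared with `ρ₀` (`M' ρ₀² ≤ B` suffices, as
  `‖t‖ ≥ B²/2`): `‖x + wx‖ ≤ 4η‖t + wt‖` and `R_B^N < ‖t+wt‖`, `rt N q wt` is an N-th root of `t + wt`
  (`rt_pow`), so `V B K (x+wx) (t+wt) ≤ PH i (x+wx) (rt N q wt) ≤ …` (`upper`).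
  `‖X‖ ≤ M₃η‖T‖ ≤ (c₀/4)‖T‖`. `c' min(‖v‖, R₀) ≤ ‖v‖ Λ` from `mul_LA_ge`. `X - C_i*(pT) - Λ v̄ =
  ξ_i - C_i*(pT)`. With `ϖ := π(‖q‖)`: `B^(1/(2N))/2 ≤ R₀ ≤ R₀² ≤ ϖ`, `ϖ/2 ≤ ‖pT‖`.
-/

open Filter Topology

namespace Pool.Agent.H77.N2

/-- A finite minimum. -/
lemma cs_exists_min {N : ℕ} (hN : 1 ≤ N) {ι : Type*} [Finite ι] [Nonempty ι] (a : ℝ) (P : Prop)
    (t : ℂ) (F : ι → ℂ → ℝ) : ∃ v : ℝ, v ≤ a ∧ (P → ∀ i q, q ^ N = t → v ≤ F i q) ∧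
      (v = a ∨ (P ∧ ∃ i q, q ^ N = t ∧ v = F i q)) := by
  classical
  by_cases hP : P
  · haveI : Fintype ι := Fintype.ofFinite ι
    set S : Finset (ι × ℂ) := (Finset.univ : Finset ι) ×ˢ (Polynomial.nthRoots N t).toFinset with hS
    have hmem : ∀ i q, (i, q) ∈ S ↔ q ^ N = t := by
      intro i q
      rw [hS, Finset.mem_product, Multiset.mem_toFinset, Polynomial.mem_nthRoots hN]
      simp
    obtain ⟨q₀, hq₀⟩ := IsAlgClosed.exists_pow_nat_eq t (n := N) hN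
    obtain ⟨i₀⟩ := ‹Nonempty ι›
    have hne : S.Nonempty := ⟨(i₀, q₀), (hmem _ _).2 hq₀⟩
    obtain ⟨⟨i₁, q₁⟩, h1, h2⟩ := Finset.exists_min_image S (fun z => F z.1 z.2) hne
    have h3 : ∀ i q, q ^ N = t → F i₁ q₁ ≤ F i q := fun i q h => h2 (i, q) ((hmem _ _).2 h)
    rcases le_total a (F i₁ q₁) with h | h
    · exact ⟨a, le_rfl, fun _ i q hq => h.trans (h3 i q hq), Or.inl rfl⟩
    · exact ⟨F i₁ q₁, h, fun _ => h3, Or.inr ⟨hP, i₁, q₁, (hmem _ _).1 h1, rfl⟩⟩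
  · exact ⟨a, le_rfl, fun h => absurd h hP, Or.inl rfl⟩

lemma cs_inner {e A Y φ φr PH E : ℝ} (he : 0 < e) (hA : 0 < A)
    (hY : 0 ≤ Y) (hYA : Y ≤ e * A) (hφ : A / 4 ≤ φ) (hE : E ≤ e / 100 * A)
    (hPH : PH ≤ (1 - e) * φ + 13 / 20 * ((1 - e) * Y) + E) (hr : φ + (1 - e) * (Y / 2) ≤ φr) :
    PH < φr := by
  have h1 : e * (A / 4) ≤ e * φ := mul_le_mul_of_nonneg_left hφ he.le
  have h2 : 0 ≤ e * Y := mul_nonneg he.le hY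
  have h3 : 0 < e * A := mul_pos he hA
  nlinarith

lemma cs_outer {e A Y φ φr PH E : ℝ} (he : 0 < e) (he1 : e ≤ 1 / 10000) (hA : 0 < A)
    (hYA : 9 * (e * A) ≤ Y) (hφ : φ ≤ A) (hE : E ≤ e / 100 * A)
    (hPH : (1 - e) * φ + 13 / 20 * ((1 - e) * Y) - E ≤ PH)
    (hr : φr ≤ φ + (1 + 16 * e) * (Y / 2)) : φr < PH := by
  have h1 : e * φ ≤ e * A := mul_le_mul_of_nonneg_left hφ he.le
  have h3 : 0 < e * A := mul_pos he hA
  have hY : 0 ≤ Y := by linarith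
  have h2 : e * Y ≤ 1 / 10000 * Y := mul_le_mul_of_nonneg_right he1 hY
  nlinarith

lemma cs_low {e A Y X φ φt PH K2 T2 : ℝ} (he : 0 < e) (he1 : e ≤ 1 / 10000) (hA : 0 ≤ A)
    (hY : 0 ≤ Y) (hφ : A / 4 ≤ φ) (hK2 : 0 ≤ K2) (hX : X ≤ 16 / 10000 * T2)
    (hφt : φt ≤ φ) (h1 : 11 / 20 * T2 - 11 / 20 * K2 ≤ φt)
    (hPH : (1 - e) * φ + 13 / 20 * ((1 - e) * Y) - e / 100 * A ≤ PH) :
    (X + T2) / 2 - K2 ≤ PH ∧ φ / 2 ≤ PH := by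
  have hφ0 : 0 ≤ φ := by linarith
  have h2 : e * φ ≤ 1 / 10000 * φ := mul_le_mul_of_nonneg_right he1 hφ0
  have h3 : e * A ≤ 1 / 10000 * A := mul_le_mul_of_nonneg_right he1 hA
  have h4 : 0 ≤ (1 - e) * Y := mul_nonneg (by linarith) hY
  have h5 : 999 / 1000 * φ ≤ PH := by nlinarith
  constructor
  · linarith
  · linarith

theorem cone_sel {N : ℕ} (hN : 1 ≤ N) {ι : Type*} [Finite ι] [Nonempty ι] (C : ι → Polynomial ℂ)
    (hdeg : ∀ i, (C i).natDegree < N) (h0 : ∀ i, (C i).coeff 0 = 0) (c₀ : ℝ) (hc₀ : 0 < c₀) :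
    ∃ (η M' c' B₁ : ℝ) (V : ℝ → ℝ → ℂ → ℂ → ℝ), 0 < η ∧ η ≤ c₀ / 16 ∧ η ≤ 1 / 100 ∧ 0 < M' ∧
      0 < c' ∧ 1 ≤ B₁ ∧
      (∀ B K x t, V B K x t ≤ phiR B K √(‖x‖ ^ 2 + ‖t‖ ^ 2)) ∧
      (∀ B ≥ B₁, ∀ K ≥ 1, ∃ C₁ : ℝ, ∀ x t, (‖x‖ ^ 2 + ‖t‖ ^ 2) / 2 - C₁ ≤ V B K x t) ∧
      (∀ B ≥ B₁, ∀ K ≥ 1, ∀ x t, B / 8 * (‖x‖ + ‖t‖) ≤ V B K x t) ∧
      (∀ B ≥ B₁, ∀ K ≥ 1, ∀ x t, B ^ 2 / 2 ≤ ‖t‖ → ‖x‖ < η * ‖t‖ →
        V B K x t < phiR B K √(‖x‖ ^ 2 + ‖t‖ ^ 2)) ∧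
      (∀ B ≥ B₁, ∀ K ≥ 1, ∀ x t, B ^ 4 ≤ ‖x‖ ^ 2 + ‖t‖ ^ 2 →
        V B K x t < phiR B K √(‖x‖ ^ 2 + ‖t‖ ^ 2) →
        ∃ (i : ι) (q X T pT : ℂ) (ϖ R₀ Λ : ℝ), q ^ N = t ∧ ‖x‖ ≤ 3 * η * ‖t‖ ∧ B ^ 2 / 2 ≤ ‖t‖ ∧
          B ^ ((1 : ℝ) / (2 * N)) / 2 ≤ R₀ ∧ R₀ ≤ ϖ ∧ pT ^ N = T ∧ ϖ / 2 ≤ ‖pT‖ ∧
          ‖X‖ ≤ c₀ / 4 * ‖T‖ ∧ 0 ≤ Λ ∧ Λ ≤ 2 ∧
          c' * min ‖x - (C i).eval q‖ R₀ ≤ Λ * ‖x - (C i).eval q‖ ∧
          ‖X - (cst (C i)).eval pT - Λ * (starRingEnd ℂ) (x - (C i).eval q)‖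
            ≤ M' / ϖ * (Λ * ‖x - (C i).eval q‖) ∧
          (∀ j, C j ≠ C i → c' * ϖ ≤ ‖X - (cst (C j)).eval pT‖) ∧
          ∀ ρ₀ : ℝ, 1 ≤ ρ₀ → M' * ρ₀ ^ 2 ≤ B → ∀ wx wt : ℂ, ‖wx‖ ≤ ρ₀ → ‖wt‖ ≤ ρ₀ →
            V B K (x + wx) (t + wt) ≤ V B K x t + (X * wx + T * wt).re + M' * ρ₀ ^ 2) := by
  classical
  obtain ⟨M, c, κs, Bs, hM, hc, hκs, hBs, hsl⟩ := exists_slice hN C hdeg h0
  obtain ⟨κ, hκ, hsep⟩ := sep hN C hdeg h0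
  obtain ⟨M₁, Bu, hM₁, hBu, hup⟩ := upper hN C hdeg hκ hc hM
  obtain ⟨M₂, Bc, hM₂, hBc, hcm⟩ := compare hN C hdeg hκ hc hM
  obtain ⟨M₃, c₃, η₀, hM₃, hc₃, hη₀, hη₀1, hsep2⟩ := hsep c M M₁ hc hM hM₁
  obtain ⟨cg, hcg, hmulge⟩ := mul_LA_ge hN
  have hN0 : N ≠ 0 := by omega
  obtain ⟨A, hA0, hA⟩ : ∃ A : ℝ, 0 ≤ A ∧ ∀ i (q : ℂ), 1 ≤ ‖q‖ →
      ‖(C i).eval q‖ ≤ A * ‖q‖ ^ (N - 1) := by
    have : Fintype ι := Fintype.ofFinite ι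
    refine ⟨∑ i, cmpA N (C i), Finset.sum_nonneg fun i _ => cmpA_nonneg N (C i), ?_⟩
    intro i q hq
    refine (cmp_eval_le (hdeg i) hq le_rfl).trans ?_
    apply mul_le_mul_of_nonneg_right _ (by positivity)
    exact Finset.single_le_sum (f := fun i => cmpA N (C i)) (fun j _ => cmpA_nonneg N (C j))
      (Finset.mem_univ i)
  obtain ⟨η, hη, hηη₀, hη1, hη2, hη3⟩ : ∃ η : ℝ, 0 < η ∧ η ≤ η₀ ∧ η ≤ 1 / 100 ∧
      M₃ * η ≤ c₀ / 4 ∧ η ≤ c₀ / 16 := by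
    refine ⟨min (min η₀ (1 / 100)) (min (c₀ / (4 * M₃)) (c₀ / 16)), ?_, ?_, ?_, ?_, ?_⟩
    · exact lt_min (lt_min hη₀ (by norm_num)) (lt_min (by positivity) (by positivity))
    · exact (min_le_left _ _).trans (min_le_left _ _)
    · exact (min_le_left _ _).trans (min_le_right _ _)
    · have h1 : min (min η₀ (1 / 100)) (min (c₀ / (4 * M₃)) (c₀ / 16)) ≤ c₀ / (4 * M₃) :=
        (min_le_right _ _).trans (min_le_left _ _)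
      calc M₃ * _ ≤ M₃ * (c₀ / (4 * M₃)) := mul_le_mul_of_nonneg_left h1 hM₃.le
        _ = c₀ / 4 := by field_simp
    · exact (min_le_right _ _).trans (min_le_right _ _)
  obtain ⟨Bp, hBp, hsep3⟩ := hsep2 η hη hηη₀
  have he0 : 0 < η ^ 2 := by positivity
  have he1 : η ^ 2 ≤ 1 / 10000 := by nlinarith
  set β : ℝ := 1 - η ^ 2 with hβ
  have hβ9 : 9 / 10 ≤ β := by rw [hβ]; linarith
  have hβ1 : β ≤ 1 := by rw [hβ]; linarith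
  have hβ0 : 0 < β := by linarith
  set δ₀ : ℝ := η ^ 2 / 100 with hδ₀
  have hδ₀0 : 0 < δ₀ := by rw [hδ₀]; positivity
  set B₁ : ℝ := Bs + Bu + Bc + Bp + 2 * (M₂ / δ₀) ^ (2 * N) + 200 * κs ^ N + 4 / η + A ^ N + 10
    + M₁ with hB₁
  have hq1 : 0 ≤ (M₂ / δ₀) ^ (2 * N) := by positivity
  have hq2 : 0 ≤ κs ^ N := by positivity
  have hq3 : 0 < 4 / η := by positivity
  have hq4 : 0 ≤ A ^ N := by positivity
  have hthr : ∀ B : ℝ, B₁ ≤ B → Bs ≤ B ∧ Bu ≤ B ∧ Bc ≤ B ∧ Bp ≤ B ∧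
      2 * (M₂ / δ₀) ^ (2 * N) ≤ B ∧ 200 * κs ^ N + 10 ≤ B ∧ 4 / η ≤ B ∧ A ^ N ≤ B ∧ 10 ≤ B := by
    intro B hB
    refine ⟨?_, ?_, ?_, ?_, ?_, ?_, ?_, ?_, ?_⟩ <;> linarith
  have hB₁1 : 1 ≤ B₁ := by rw [hB₁]; linarith
  clear_value B₁
  set Rf : ℝ → ℝ := fun B => κs * (100 * B) ^ ((1 : ℝ) / N) with hRf
  set R₀ : ℝ → ℝ := fun B => (β * B) ^ ((1 : ℝ) / (2 * N)) with hR₀
  -- elementary facts for `B ≥ B₁`
  have hrpow : ∀ B : ℝ, 0 ≤ B → ((100 * B) ^ ((1 : ℝ) / N)) ^ N = 100 * B := by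
    intro B hB
    rw [one_div]
    exact Real.rpow_inv_natCast_pow (by positivity) hN0
  have hRfN : ∀ B : ℝ, 0 ≤ B → Rf B ^ N = κs ^ N * (100 * B) := by
    intro B hB
    rw [hRf]
    simp only
    rw [mul_pow, hrpow B hB]
  have hr1 : ∀ B : ℝ, 1 ≤ B → 1 ≤ (100 * B) ^ ((1 : ℝ) / N) := by
    intro B hB
    exact Real.one_le_rpow (by linarith) (by positivity)
  have hRf1 : ∀ B : ℝ, 1 ≤ B → 1 ≤ Rf B := by
    intro B hB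
    rw [hRf]
    simp only
    nlinarith [hr1 B hB]
  have hRf2 : ∀ B : ℝ, 0 ≤ B → 100 * B ≤ Rf B ^ N := by
    intro B hB
    rw [hRfN B hB]
    have : 1 ≤ κs ^ N := one_le_pow₀ hκs
    nlinarith
  have hR₀1 : ∀ B : ℝ, 2 ≤ B → 1 ≤ R₀ B := by
    intro B hB
    rw [hR₀]
    simp only
    exact Real.one_le_rpow (by nlinarith) (by positivity)
  have hR₀2 : ∀ B K Q : ℝ, 2 ≤ B → 0 < Q → (R₀ B) ^ 2 ≤ piR N β B K Q := by
    intro B K Q hB hQ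
    have h1 := piR_pow_ge (K := K) hN hβ0 (by linarith : 0 < B) hQ
    have h2 : ((R₀ B) ^ 2) ^ N = β * B := by
      rw [hR₀]
      simp only
      rw [← pow_mul]
      have : ((1 : ℝ) / (2 * N)) = ((2 * N : ℕ) : ℝ)⁻¹ := by push_cast; rw [one_div]
      rw [this]
      exact Real.rpow_inv_natCast_pow (by positivity) (by omega)
    have h3 : 0 ≤ piR N β B K Q := by
      rw [piR]
      exact mul_nonneg hQ.le (SR_pos hβ0 (by linarith) hQ).le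
    rw [← h2] at h1
    exact le_of_pow_le_pow_left₀ hN0 h3 h1
  have hdata : ∀ B K : ℝ, ∃ (ψ : ι → ℂ → ℝ) (p ξt ξb : ι → ℂ → ℂ), Bs ≤ B → 1 ≤ K →
      IsSlice N C β B K (Rf B) M c ψ p ξt ξb := by
    intro B K
    by_cases hBK : Bs ≤ B ∧ 1 ≤ K
    · obtain ⟨ψ, p, ξt, ξb, h⟩ := hsl β hβ9 hβ1 B hBK.1 K hBK.2 ((100 * B) ^ ((1 : ℝ) / N))
        (hr1 B (by linarith)) (by rw [hrpow B (by linarith)])
      exact ⟨ψ, p, ξt, ξb, fun _ _ => h⟩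
    · exact ⟨fun _ _ => 0, fun _ _ => 0, fun _ _ => 0, fun _ _ => 0,
        fun h1 h2 => absurd ⟨h1, h2⟩ hBK⟩
  choose ψ p ξt ξb hdat using hdata
  have hV : ∀ (B K : ℝ) (x t : ℂ), ∃ v : ℝ, v ≤ phiR B K √(‖x‖ ^ 2 + ‖t‖ ^ 2) ∧
      ((Rf B ^ N < ‖t‖ ∧ ‖x‖ ≤ 4 * η * ‖t‖) → ∀ i q, q ^ N = t →
        v ≤ PH N C β B K κ (R₀ B) (ψ B K) (p B K) i x q) ∧
      (v = phiR B K √(‖x‖ ^ 2 + ‖t‖ ^ 2) ∨ ((Rf B ^ N < ‖t‖ ∧ ‖x‖ ≤ 4 * η * ‖t‖) ∧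
        ∃ i q, q ^ N = t ∧ v = PH N C β B K κ (R₀ B) (ψ B K) (p B K) i x q)) :=
    fun B K x t => cs_exists_min hN _ _ t _
  choose V hV1 hV2 hV3 using hV
  -- the comparison on the cone
  have hcone : ∀ B K : ℝ, B₁ ≤ B → 1 ≤ K → ∀ x t : ℂ, Rf B ^ N < ‖t‖ → ‖x‖ ≤ 4 * η * ‖t‖ →
      0 < ‖t‖ ∧ 0 < sR B K ‖t‖ ∧ sR B K ‖t‖ * ‖t‖ ^ 2 / 4 ≤ phiR B K ‖t‖ ∧
      phiR B K ‖t‖ ≤ sR B K ‖t‖ * ‖t‖ ^ 2 ∧
      ∀ (i : ι) (q : ℂ), q ^ N = t → Rf B < ‖q‖ ∧ ‖q‖ ^ N = ‖t‖ ∧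
        PH N C β B K κ (R₀ B) (ψ B K) (p B K) i x q ≤ (1 - η ^ 2) * phiR B K ‖t‖
          + 13 / 20 * ((1 - η ^ 2) * (sR B K ‖t‖ * ‖x‖ ^ 2)) + η ^ 2 / 100 * (sR B K ‖t‖ * ‖t‖ ^ 2) ∧
        (1 - η ^ 2) * phiR B K ‖t‖
          + 13 / 20 * ((1 - η ^ 2) * (sR B K ‖t‖ * ‖x‖ ^ 2)) - η ^ 2 / 100 * (sR B K ‖t‖ * ‖t‖ ^ 2)
          ≤ PH N C β B K κ (R₀ B) (ψ B K) (p B K) i x q := by
    intro B K hB hK x t ht hx
    obtain ⟨hb1, hb2, hb3, hb4, hb5, hb6, hb7, hb8, hb9⟩ := hthr B hB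
    have hB0 : 0 < B := by linarith only [hb9]
    have hR1 := hRf1 B (by linarith only [hb9])
    have ht0 : 0 < ‖t‖ := lt_of_le_of_lt (by positivity) ht
    have hs0 : 0 < sR B K ‖t‖ := sR_pos hB0 ht0
    refine ⟨ht0, hs0, phi_ge hB0.le ht0, phi_le hB0.le ht0, ?_⟩
    intro i q hq
    have hqN : ‖q‖ ^ N = ‖t‖ := by rw [← norm_pow, hq]
    have hRq : Rf B < ‖q‖ := by
      rw [← hqN] at ht
      exact lt_of_pow_lt_pow_left₀ N (norm_nonneg q) ht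
    have hq0 : 0 < ‖q‖ := by linarith
    have h1 := hcm β hβ9 hβ1 B hb3 K hK (Rf B) hR1 (hRf2 B hB0.le) (ψ B K) (p B K)
      (ξt B K) (ξb B K) (hdat B K hb1 hK) (R₀ B) (hR₀1 B (by linarith only [hb9]))
      (fun Q hQ => hR₀2 B K Q (by linarith only [hb9]) (by linarith only [hR1, hQ])) i q x hRq
      (by
        rw [hqN]
        have h8 : 4 * η ≤ 8 := by linarith only [hη1]
        exact hx.trans (mul_le_mul_of_nonneg_right h8 ht0.le))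
    have h2 : SR N β B K ‖q‖ ^ N = β * sR B K ‖t‖ := by
      rw [SR_pow hN hβ0 hB0 hq0, hqN]
    have h3 : piR N β B K ‖q‖ ^ N = β * sR B K ‖t‖ * ‖t‖ := by
      rw [piR_pow hN hβ0 hB0 hq0, hqN]
    have hpi0 : 0 < piR N β B K ‖q‖ := by
      rw [piR]
      exact mul_pos hq0 (SR_pos hβ0 hB0 hq0)
    have h4 : M₂ / √(piR N β B K ‖q‖) ≤ δ₀ := by
      have h5 : (M₂ / δ₀) ^ 2 ≤ piR N β B K ‖q‖ := by
        have h6 := piR_pow_ge (K := K) hN hβ0 hB0 hq0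
        have h7 : ((M₂ / δ₀) ^ 2) ^ N ≤ piR N β B K ‖q‖ ^ N := by
          rw [← pow_mul]
          have : 9 / 10 * B ≤ β * B := mul_le_mul_of_nonneg_right hβ9 hB0.le
          linarith only [this, hb5, h6, hq1]
        exact le_of_pow_le_pow_left₀ hN0 hpi0.le h7
      have h6 : M₂ / δ₀ ≤ √(piR N β B K ‖q‖) := Real.le_sqrt_of_sq_le h5
      rw [div_le_iff₀ (Real.sqrt_pos.2 hpi0)]
      rw [div_le_iff₀ hδ₀0] at h6
      linarith only [h6]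
    rw [h2, h3, hqN] at h1
    have h5 : M₂ / √(piR N β B K ‖q‖) * (β * sR B K ‖t‖ * ‖t‖ * ‖t‖)
        ≤ η ^ 2 / 100 * (sR B K ‖t‖ * ‖t‖ ^ 2) := by
      have h6 : β * sR B K ‖t‖ * ‖t‖ * ‖t‖ ≤ sR B K ‖t‖ * ‖t‖ ^ 2 := by
        have h7 : 0 ≤ sR B K ‖t‖ * ‖t‖ ^ 2 := by positivity
        calc β * sR B K ‖t‖ * ‖t‖ * ‖t‖ = β * (sR B K ‖t‖ * ‖t‖ ^ 2) := by ring
          _ ≤ 1 * (sR B K ‖t‖ * ‖t‖ ^ 2) := mul_le_mul_of_nonneg_right hβ1 h7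
          _ = sR B K ‖t‖ * ‖t‖ ^ 2 := one_mul _
      exact mul_le_mul h4 h6 (by positivity) hδ₀0.le
    have h6 := abs_le.1 (h1.trans h5)
    refine ⟨hRq, hqN, ?_, ?_⟩
    · linarith only [h6.2, hβ]
    · linarith only [h6.1, hβ]
  have hcB : ∀ B : ℝ, B₁ ≤ B → Rf B ^ N < B ^ 2 / 2 - B := by
    intro B hB
    obtain ⟨hb1, hb2, hb3, hb4, hb5, hb6, hb7, hb8, hb9⟩ := hthr B hB
    rw [hRfN B (by linarith only [hb9])]
    nlinarith only [hb6, hb9, hq2]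
  have hsq : ∀ x t : ℂ, √(‖x‖ ^ 2 + ‖t‖ ^ 2) = √(‖t‖ ^ 2 + ‖x‖ ^ 2) := by
    intro x t
    rw [add_comm]
  refine ⟨η, 1 + M₁ + M₃, min cg c₃, B₁, V, hη, hη3, hη1, by positivity, lt_min hcg hc₃, ?_,
    hV1, ?_, ?_, ?_, ?_⟩
  · exact hB₁1
  · -- low
    intro B hB K hK
    refine ⟨K ^ 2, ?_⟩
    intro x t
    have hB0 : 0 < B := by linarith only [hB, hB₁1]
    rcases hV3 B K x t with h | ⟨⟨ht, hx⟩, i, q, hq, h⟩
    · rw [h]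
      have h1 := phi_low (B := B) (K := K) (r := √(‖x‖ ^ 2 + ‖t‖ ^ 2)) hB0.le (Real.sqrt_nonneg _)
        (by linarith only [hK])
      rw [Real.sq_sqrt (by positivity)] at h1
      have h2 := sq_nonneg ‖x‖
      have h3 := sq_nonneg ‖t‖
      have h4 := sq_nonneg K
      linarith only [h1, h2, h3, h4]
    · rw [h]
      obtain ⟨ht0, hs0, hp1, hp2, hPH⟩ := hcone B K hB hK x t ht hx
      obtain ⟨-, -, -, h2⟩ := hPH i q hq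
      have h1 := phi_low (B := B) (K := K) (r := ‖t‖) hB0.le (norm_nonneg _)
        (by linarith only [hK])
      have h3 : ‖x‖ ^ 2 ≤ (4 * η * ‖t‖) ^ 2 := pow_le_pow_left₀ (norm_nonneg _) hx 2
      have h4 : (4 * η * ‖t‖) ^ 2 ≤ 16 / 10000 * ‖t‖ ^ 2 := by
        have e1 : (4 * η * ‖t‖) ^ 2 = 16 * η ^ 2 * ‖t‖ ^ 2 := by ring
        rw [e1]
        exact mul_le_mul_of_nonneg_right (by linarith only [he1]) (by positivity)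
      exact (cs_low he0 he1 (by positivity) (by positivity) hp1 (by positivity)
        (h3.trans h4) le_rfl h1 h2).1
  · -- lin
    intro B hB K hK x t
    have hB0 : 0 < B := by linarith only [hB, hB₁1]
    rcases hV3 B K x t with h | ⟨⟨ht, hx⟩, i, q, hq, h⟩
    · rw [h]
      have h1 := phi_lin (B := B) (K := K) (r := √(‖x‖ ^ 2 + ‖t‖ ^ 2)) (Real.sqrt_nonneg _)
      have h2 : ‖x‖ ≤ √(‖x‖ ^ 2 + ‖t‖ ^ 2) := Real.le_sqrt_of_sq_le (by nlinarith [sq_nonneg ‖t‖])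
      have h3 : ‖t‖ ≤ √(‖x‖ ^ 2 + ‖t‖ ^ 2) := Real.le_sqrt_of_sq_le (by nlinarith [sq_nonneg ‖x‖])
      have h4 : B * (‖x‖ + ‖t‖) ≤ B * (2 * √(‖x‖ ^ 2 + ‖t‖ ^ 2)) :=
        mul_le_mul_of_nonneg_left (by linarith only [h2, h3]) hB0.le
      have h5 : 0 ≤ B * √(‖x‖ ^ 2 + ‖t‖ ^ 2) := by positivity
      linarith only [h1, h4, h5]
    · rw [h]
      obtain ⟨ht0, hs0, hp1, hp2, hPH⟩ := hcone B K hB hK x t ht hx
      obtain ⟨-, -, -, h2⟩ := hPH i q hq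
      have h1 := phi_lin (B := B) (K := K) (r := ‖t‖) (norm_nonneg _)
      have h3 := (cs_low (X := -100 * (sR B K ‖t‖ * ‖t‖ ^ 2)) (T2 := 0)
        (K2 := 100 * (sR B K ‖t‖ * ‖t‖ ^ 2)) (φt := 0) he0 he1 (by positivity)
        (by positivity : 0 ≤ sR B K ‖t‖ * ‖x‖ ^ 2) hp1 (by positivity)
        (by have : 0 < sR B K ‖t‖ * ‖t‖ ^ 2 := by positivity
            linarith only [this])
        (le_trans (by positivity) hp1)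
        (by have : 0 < sR B K ‖t‖ * ‖t‖ ^ 2 := by positivity
            linarith only [this]) h2).2
      have h8 : ‖x‖ ≤ ‖t‖ := by
        have h9 : 4 * η ≤ 1 := by linarith only [hη1]
        have : 4 * η * ‖t‖ ≤ 1 * ‖t‖ := mul_le_mul_of_nonneg_right h9 (norm_nonneg _)
        linarith only [this, hx]
      have h9 : B * ‖x‖ ≤ B * ‖t‖ := mul_le_mul_of_nonneg_left h8 hB0.le
      have h10 : 0 ≤ B * ‖t‖ := by positivity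
      have h11 : B / 8 * (‖x‖ + ‖t‖) = (B * ‖x‖ + B * ‖t‖) / 8 := by ring
      rw [h11]
      linarith only [h9, h10, h3, h1]
  · -- inner
    intro B hB K hK x t ht hx
    have hB0 : 0 < B := by linarith only [hB, hB₁1]
    have ht0 : 0 < ‖t‖ := by
      have : 0 < B ^ 2 / 2 := by positivity
      linarith only [this, ht]
    have hc1 : Rf B ^ N < ‖t‖ := by have := hcB B hB; linarith only [this, ht, hB0]
    have hc2 : ‖x‖ ≤ 4 * η * ‖t‖ := by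
      have : 0 < η * ‖t‖ := by positivity
      linarith only [this, hx]
    obtain ⟨-, hs0, hp1, hp2, hPH⟩ := hcone B K hB hK x t hc1 hc2
    obtain ⟨i⟩ := ‹Nonempty ι›
    obtain ⟨q, hq⟩ := IsAlgClosed.exists_pow_nat_eq t (n := N) hN
    obtain ⟨-, -, h1, -⟩ := hPH i q hq
    refine lt_of_le_of_lt (hV2 B K x t ⟨hc1, hc2⟩ i q hq) ?_
    have h2 : ‖x‖ ^ 2 ≤ η ^ 2 * ‖t‖ ^ 2 := by
      rw [← mul_pow]
      exact pow_le_pow_left₀ (norm_nonneg _) hx.le 2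
    have h3 := phi_add_ge (B := B) (K := K) (r := ‖t‖) (y := ‖x‖ ^ 2) (δ := η ^ 2) hB0.le ht0
      (by positivity) (by linarith only [he1]) h2
    rw [← hsq] at h3
    refine cs_inner (e := η ^ 2) (A := sR B K ‖t‖ * ‖t‖ ^ 2) (Y := sR B K ‖t‖ * ‖x‖ ^ 2)
      (φ := phiR B K ‖t‖) he0 (by positivity) (by positivity) ?_ hp1 le_rfl h1 h3
    calc sR B K ‖t‖ * ‖x‖ ^ 2 ≤ sR B K ‖t‖ * (η ^ 2 * ‖t‖ ^ 2) :=
          mul_le_mul_of_nonneg_left h2 hs0.le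
      _ = η ^ 2 * (sR B K ‖t‖ * ‖t‖ ^ 2) := by ring
  · -- sel
    intro B hB K hK x t hxt hVlt
    obtain ⟨hb1, hb2, hb3, hb4, hb5, hb6, hb7, hb8, hb9⟩ := hthr B hB
    have hB0 : 0 < B := by linarith only [hb9]
    have hB2 : 2 ≤ B := by linarith only [hb9]
    rcases hV3 B K x t with h | ⟨⟨ht, hx⟩, i, q, hq, h⟩
    · exact absurd h hVlt.ne
    obtain ⟨ht0, hs0, hp1, hp2, hPH⟩ := hcone B K hB hK x t ht hx
    obtain ⟨hRq, hqN, -, hPHlow⟩ := hPH i q hq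
    have hR1 : 1 ≤ Rf B := hRf1 B (by linarith only [hb9])
    have hq0 : 0 < ‖q‖ := by linarith only [hR1, hRq]
    have hq1' : 1 ≤ ‖q‖ := by linarith only [hR1, hRq]
    -- size of `t`
    have htB : B ^ 2 / 2 ≤ ‖t‖ := by
      have h3 : ‖x‖ ^ 2 ≤ ‖t‖ ^ 2 := by
        apply pow_le_pow_left₀ (norm_nonneg _)
        have h9 : 4 * η ≤ 1 := by linarith only [hη1]
        have : 4 * η * ‖t‖ ≤ 1 * ‖t‖ := mul_le_mul_of_nonneg_right h9 (norm_nonneg _)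
        linarith only [this, hx]
      have h4 : (B ^ 2 / 2) ^ 2 ≤ ‖t‖ ^ 2 := by
        have : 0 ≤ B ^ 4 := by positivity
        have e1 : (B ^ 2 / 2) ^ 2 = B ^ 4 / 4 := by ring
        rw [e1]
        linarith only [h3, hxt, this]
      exact le_of_pow_le_pow_left₀ two_ne_zero (norm_nonneg _) h4
    -- outer
    have hx3 : ‖x‖ ≤ 3 * η * ‖t‖ := by
      by_contra hcon
      push Not at hcon
      have h2 : (3 * η * ‖t‖) ^ 2 ≤ ‖x‖ ^ 2 := pow_le_pow_left₀ (by positivity) hcon.le 2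
      have h2' : ‖x‖ ^ 2 ≤ (4 * η * ‖t‖) ^ 2 := pow_le_pow_left₀ (norm_nonneg _) hx 2
      have h3 := phi_add_le (B := B) (K := K) (r := ‖t‖) (y := ‖x‖ ^ 2) (δ := 16 * η ^ 2) hB0.le
        ht0 (by positivity) (by linarith only [he1])
        (h2'.trans (le_of_eq (by ring)))
      rw [← hsq] at h3
      have h4 := cs_outer (e := η ^ 2) (A := sR B K ‖t‖ * ‖t‖ ^ 2) (Y := sR B K ‖t‖ * ‖x‖ ^ 2)
        (φ := phiR B K ‖t‖) he0 he1 (by positivity) (by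
          calc 9 * (η ^ 2 * (sR B K ‖t‖ * ‖t‖ ^ 2)) = sR B K ‖t‖ * (3 * η * ‖t‖) ^ 2 := by ring
            _ ≤ sR B K ‖t‖ * ‖x‖ ^ 2 := mul_le_mul_of_nonneg_left h2 hs0.le) hp2 le_rfl hPHlow
        (h3.trans (le_of_eq (by ring)))
      rw [h] at hVlt
      exact absurd hVlt (not_lt.2 h4.le)
    have hmin : ∀ j, PH N C β B K κ (R₀ B) (ψ B K) (p B K) i x q
        ≤ PH N C β B K κ (R₀ B) (ψ B K) (p B K) j x q := by
      intro j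
      rw [← h]
      exact hV2 B K x t ⟨ht, hx⟩ j q hq
    have hslice := hdat B K hb1 hK
    have hR₀1' : 1 ≤ R₀ B := hR₀1 B hB2
    have hR₀Q : ∀ Q, Rf B < Q → (R₀ B) ^ 2 ≤ piR N β B K Q :=
      fun Q hQ => hR₀2 B K Q hB2 (by linarith only [hQ, hR1])
    have h8 : ‖x - (C i).eval q‖ ≤ 8 * ‖q‖ ^ N := by
      have h9 : ‖(C i).eval q‖ ≤ ‖q‖ ^ N := by
        refine (hA i q hq1').trans ?_
        have h10 : A ≤ ‖q‖ := by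
          have h11 : A ^ N ≤ ‖q‖ ^ N := by
            rw [hqN]
            have := hRf2 B hB0.le
            linarith only [this, hb8, ht, hB0]
          exact le_of_pow_le_pow_left₀ hN0 (norm_nonneg _) h11
        calc A * ‖q‖ ^ (N - 1) ≤ ‖q‖ * ‖q‖ ^ (N - 1) :=
              mul_le_mul_of_nonneg_right h10 (by positivity)
          _ = ‖q‖ ^ N := by rw [← pow_succ']; congr 1; omega
      have h10 : ‖x‖ ≤ ‖q‖ ^ N := by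
        rw [hqN]
        have h9 : 4 * η ≤ 1 := by linarith only [hη1]
        have : 4 * η * ‖t‖ ≤ 1 * ‖t‖ := mul_le_mul_of_nonneg_right h9 (norm_nonneg _)
        linarith only [this, hx]
      have h11 := norm_sub_le x ((C i).eval q)
      have h12 : 0 ≤ ‖q‖ ^ N := by positivity
      linarith only [h9, h10, h11, h12]
    obtain ⟨T, hT1, hT2⟩ := hup β hβ9 hβ1 B hb2 K hK (Rf B) hR1 (hRf2 B hB0.le)
      (ψ B K) (p B K) (ξt B K) (ξb B K) hslice (R₀ B) hR₀1' hR₀Q i q x hRq h8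
    obtain ⟨pT, hpT, hpT2, hXT, hdiff, hsepj⟩ := hsep3 β hβ9 hβ1 B hb4 K hK (Rf B) hR1
      (hRf2 B hB0.le) (ψ B K) (p B K) (ξt B K) (ξb B K) hslice (R₀ B) hR₀1' hR₀Q i q x T hRq
      (by rw [hqN]; exact hx) hmin hT1
    have hpi0 : 0 < piR N β B K ‖q‖ := by
      rw [piR]
      exact mul_pos hq0 (SR_pos hβ0 hB0 hq0)
    have hth : ThPar N κ (R₀ B) ‖q‖ (SR N β B K ‖q‖) :=
      { hN := hN
        hκ := hκ
        hR₀ := hR₀1'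
        hQ := hq1'
        hS := SR_pos hβ0 hB0 hq0
        hS1 := SR_le hN hβ0 hβ1 hB0 hq0 (by
          rw [hqN]
          have := hRf2 B hB0.le
          linarith only [this, ht])
        hR₀π := hR₀Q _ hRq }
    set ρ : ℝ := ‖x - (C i).eval q‖ with hρ
    set Λ : ℝ := LA N κ (R₀ B) ‖q‖ (SR N β B K ‖q‖) ρ with hΛ
    have hΛ0 : 0 < Λ := LA_pos hth
    refine ⟨i, q, (cst (C i)).eval (p B K i q) + Λ * (starRingEnd ℂ) (x - (C i).eval q), T, pT,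
      piR N β B K ‖q‖, R₀ B, Λ, hq, hx3, htB, ?_, ?_, hpT, hpT2, ?_, hΛ0.le, LA_le hth, ?_, ?_, ?_,
      ?_⟩
    · -- R₀
      rw [hR₀]
      simp only
      rw [Real.mul_rpow hβ0.le hB0.le]
      have h13 : (1 : ℝ) / 2 ≤ β ^ ((1 : ℝ) / (2 * N)) := by
        have h14 : β ^ (1 : ℝ) ≤ β ^ ((1 : ℝ) / (2 * N)) := by
          apply Real.rpow_le_rpow_of_exponent_ge hβ0 hβ1
          have h15 : (1 : ℝ) ≤ N := by exact_mod_cast hN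
          rw [div_le_one (by linarith only [h15])]
          linarith only [h15]
        rw [Real.rpow_one] at h14
        linarith only [h14, hβ9]
      have h14 : 0 ≤ B ^ ((1 : ℝ) / (2 * N)) := by positivity
      calc B ^ ((1 : ℝ) / (2 * N)) / 2 = 1 / 2 * B ^ ((1 : ℝ) / (2 * N)) := by ring
        _ ≤ β ^ ((1 : ℝ) / (2 * N)) * B ^ ((1 : ℝ) / (2 * N)) :=
          mul_le_mul_of_nonneg_right h13 h14
    · have h13 := hR₀Q _ hRq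
      have h14 : R₀ B ≤ (R₀ B) ^ 2 := by nlinarith only [hR₀1']
      exact h14.trans h13
    · refine hXT.trans ?_
      exact mul_le_mul_of_nonneg_right hη2 (norm_nonneg _)
    · have h13 := hmulge κ (R₀ B) ‖q‖ (SR N β B K ‖q‖) ρ hth (norm_nonneg _)
      have h14 : 0 ≤ min ρ (R₀ B) := le_min (norm_nonneg _) (by linarith only [hR₀1'])
      calc min cg c₃ * min ρ (R₀ B) ≤ cg * min ρ (R₀ B) :=
            mul_le_mul_of_nonneg_right (min_le_left _ _) h14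
        _ ≤ ρ * Λ := h13
        _ = Λ * ρ := mul_comm _ _
    · have e1 : (cst (C i)).eval (p B K i q) + Λ * (starRingEnd ℂ) (x - (C i).eval q)
          - (cst (C i)).eval pT - Λ * (starRingEnd ℂ) (x - (C i).eval q)
          = (cst (C i)).eval (p B K i q) - (cst (C i)).eval pT := by ring
      rw [e1]
      refine hdiff.trans ?_
      rw [mul_comm ρ Λ]
      apply mul_le_mul_of_nonneg_right _ (mul_nonneg hΛ0.le (norm_nonneg _))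
      exact div_le_div_of_nonneg_right (by linarith only [hM₁, hM₃]) hpi0.le
    · intro j hj
      refine le_trans ?_ (hsepj j hj)
      exact mul_le_mul_of_nonneg_right (min_le_right _ _) hpi0.le
    · intro ρ₀ hρ₀ hρB wx wt hwx hwt
      have h13 : ρ₀ ≤ ρ₀ ^ 2 := by nlinarith only [hρ₀]
      have h14 : ρ₀ ^ 2 ≤ (1 + M₁ + M₃) * ρ₀ ^ 2 := by
        have : 0 ≤ ρ₀ ^ 2 := by positivity
        nlinarith only [this, hM₁, hM₃]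
      have h15 : ρ₀ ≤ B := by linarith only [h13, h14, hρB]
      have hBB : B ≤ B ^ 2 / 2 := by nlinarith only [hB2]
      have h16 : M₁ * ρ₀ ≤ ‖q‖ ^ N := by
        rw [hqN]
        have h17 : M₁ * ρ₀ ≤ M₁ * ρ₀ ^ 2 := mul_le_mul_of_nonneg_left h13 hM₁.le
        have h18 : M₁ * ρ₀ ^ 2 ≤ (1 + M₁ + M₃) * ρ₀ ^ 2 :=
          mul_le_mul_of_nonneg_right (by linarith only [hM₃]) (by positivity)
        linarith only [h17, h18, hρB, hBB, htB]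
      have h17 := hT2 ρ₀ hρ₀ h16 wx wt hwx hwt
      have h18 : ‖t‖ - ρ₀ ≤ ‖t + wt‖ := by
        have := norm_sub_norm_le t (-wt)
        rw [sub_neg_eq_add, norm_neg] at this
        linarith only [this, hwt]
      have hc1 : Rf B ^ N < ‖t + wt‖ := by
        have := hcB B hB
        linarith only [this, h18, h15, htB]
      have hc2 : ‖x + wx‖ ≤ 4 * η * ‖t + wt‖ := by
        have h19 := norm_add_le x wx
        have h20 : 4 * η * (‖t‖ - ρ₀) ≤ 4 * η * ‖t + wt‖ :=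
          mul_le_mul_of_nonneg_left h18 (by positivity)
        have h21 : 2 * B ≤ η * ‖t‖ := by
          have h22 : 4 / η ≤ B := hb7
          rw [div_le_iff₀ hη] at h22
          have h23 : η * (B ^ 2 / 2) ≤ η * ‖t‖ := mul_le_mul_of_nonneg_left htB hη.le
          nlinarith only [h22, h23, hB0]
        have h22 : 4 * η * ρ₀ ≤ 1 * ρ₀ :=
          mul_le_mul_of_nonneg_right (by linarith only [hη1]) (by linarith only [hρ₀])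
        linarith only [h19, h20, h21, h22, h15, hwx, hx3]
      have hrt : (rt N q wt) ^ N = t + wt := by
        rw [rt_pow hN (norm_pos_iff.1 hq0), hq]
      have h19 := hV2 B K (x + wx) (t + wt) ⟨hc1, hc2⟩ i (rt N q wt) hrt
      have h20 : M₁ * ρ₀ ^ 2 ≤ (1 + M₁ + M₃) * ρ₀ ^ 2 :=
        mul_le_mul_of_nonneg_right (by linarith only [hM₃]) (by positivity)
      rw [h]
      linarith only [h17, h19, h20]

end Pool.Agent.H77.N2
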