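import Pool.Agent.H77.N2.Defs
import Pool.Agent.H55.N2.PuisA

/-!
Module PUIS of MP_6e521b_an (n = 2): Puiseux factorisation at infinity of a nonzero polynomial
`F(x, t)` (`![x, t]`, `x` = variable 0, `t` = variable 1).

Suggested proof. View `F` as a polynomial in `x` over `ℂ[t]`. It is enough to treat a product
of irreducible factors (`Pui` is multiplicative: take `N = N₁ N₂` and substitute
`g(q) ↦ g(q^(N₂))`, `ε(q) ↦ ε(q^(N₂))`, as `(q^(N₂))^(N₁) = q^N`), and factors in `ℂ[t]` go into `a`.
For `F` irreducible (or squarefree and primitive) of degree `m ≥ 1` in `x`, `F` and `∂F/∂x` are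
coprime in `ℂ(t)[x]`, so (Bezout / resultant) there is `r(t) ≠ 0` in `ℂ[t]` with
`r = U F + V ∂_x F`; hence for `‖t‖ > R₁` the leading coefficient `a(t)` is nonzero and
the `m` roots `x` of `F(·, t)` are simple. On the half plane `H = {Re w > log R₁}` put `t = e^w`. The set
`E = {(x, w) : F(x, e^w) = 0}` is a covering of `H` with `m` sheets (implicit function theorem and
finiteness), `H` is convex hence simply connected, so there are `m` continuous, hence holomorphic,
functions `x_1, …, x_m` on `H`, everywhere distinct, with `F(x, e^w) = a(e^w) ∏ (x - x_i(w))`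
(e.g. `IsCoveringMap` lifts of the identity of `H`, or a direct argument: local holomorphic roots,
and gluing along segments from a base point). The translation `w ↦ w + 2πi` permutes the functions
`x_i` (uniqueness of lifts), so with `N = m!` (or any multiple of the cycle lengths)
`x_i(w + 2πiN) = x_i(w)`, and `x_i(w) = X_i(e^(w/N))` with `X_i` holomorphic on `‖q‖ > R₁^(1/N)`
(define `X_i(q) = x_i(N log q)` and use the periodicity to see that it is holomorphic across the cut).
The roots have polynomial growth in `t` (Cauchy bound for roots: `‖x‖ ≤ 1 + Σ ‖a_j(t)/a(t)‖`), so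
`z ↦ z^k X_i(1/z)` extends to a holomorphic function near `0` for some `k`
(removable singularity), hence `X_i(q) = g_i(q) + ε_i(q)` with a polynomial `g_i` and
`‖ε_i(q)‖ ≤ C/‖q‖` for `‖q‖` large (Taylor expansion of order `k` at 0).
Finally `F(x, q^N) = a(q^N) ∏ (x - X_i(q))` for `‖q‖` large.
For `m = 0` (no `x`), `d = 0`, `N = 1`.
Another possible route: Newton's theorem / Hensel for formal series and convergence, or
Kedlaya-style; any proof will do.
-/

open MvPolynomial Filter Topology

namespace Pool.Agent.H77.N2

theorem exists_pui (F : MvPolynomial (Fin 2) ℂ) (hF : F ≠ 0) :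
    ∃ (N d : ℕ) (g : Fin d → Polynomial ℂ) (ε : Fin d → ℂ → ℂ) (a : Polynomial ℂ) (R C : ℝ),
      Pui F N d g ε a R C := by
  obtain ⟨N, d, g, ε, a, R, K, hN, ha, hR, hε, hfac⟩ := Pool.Agent.H55.N2.puis F hF
  exact ⟨N, d, g, ε, a, R, K, ⟨hN, ha, hR, hε, hfac⟩⟩

end Pool.Agent.H77.N2
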