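import Pool.Agent.H77.N2.Coord
import Pool.Agent.H77.N2.ConeSel
import Pool.Agent.H77.N2.ConeGood
import Pool.Agent.H77.N2.ConeEmpty
import Pool.Agent.H77.N2.Puis

/-!
Module CONE of MP_6e521b_an (n = 2): every direction has weights. (ConeSel, ConeGood, ConeEmpty,
Radial: black boxes; Coord, Puis proved.)

Proof. Puiseux factorisation of `F = Pe e P ≠ 0` (`exists_pui`, `Pe_ne_zero`). Let
`J = {j : (g j).natDegree < N}`.
If `J` is empty: `V B K z := phiR B K (nrm z)`, `η` from `empty_far`. `low`, `lin` from `phi_low`, `phi_lin`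
(`nrm z ≥ ‖z‖`; `sq z = nrm z ^ 2`). `good`: vacuous (`V < φ` is false). `far`: `x_k = xc e (b_k)`,
`t_k = tc e (b_k)`, `s = sR …`; `s • cj b = fr e (s conj x) (s conj t)` (`cj_eq_fr`); apply `empty_far` to
`x'_k = s x_k`, `t'_k = s t_k` (`‖x'‖ ≤ η‖t'‖`; `‖t'‖ = s‖t‖ ≥ s nrm b/2 ≥ B/2 → ∞` as `η ≤ 1`,
`s ≥ B/nrm b`), and conjugate (`eval_star_add`), `μ = conj ν`.
If `J` is nonempty: index type `ι = {j // j ∈ J}`, `C j = g j - C ((g j).coeff 0)` (natDegree < N,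
zero constant term; `N ≥ 1`). `c₀` from `exists_c0` (for `j ∉ J`, `N ≤ natDegree`, `g j ≠ 0` since
`natDegree ≥ N ≥ 1`). `cone_sel` gives `η, M', c', B₁, V₀`;
`V B K z := V₀ B K (xc e z) (tc e z)`; `nrm z = √(‖xc e z‖²+‖tc e z‖²)` (`sq_coord`).
`le, low, lin`: directly (`‖z‖ ≤ nrm z ≤ ‖xc‖ + ‖tc‖`).
`far`: vacuous for `B` large: `nrm b ≥ B²`, `‖x‖ < η‖t‖ ≤ ‖t‖/100`, so `‖t‖ ≥ B²/2` and
`V < φ` by the fourth property, contradicting `V = φ` eventually.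
`good`: for `k` in a set of the ultrafilter (where `B k ≥ B₁` and `V < φ`; `B⁴ ≤ ‖x‖²+‖t‖²` from
`nrm b ≥ B²`) choose the data of `cone_sel`; `i_k ∈ ι` is constant along the ultrafilter (finite).
Outside this set redefine the sequences by any fixed data (e.g. copy the values at a good index
that depends on `k`), or restate with `∀ᶠ`; note that `GoodSeq` and the bound only concern
`∀ᶠ k in 𝒰` and limits along `𝒰`, and `b_k = pt e (x_k) (q_k^N)` for the good `k`.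
`Y_k = fr e (X_k) (T_k)`, `dt_fr`, `xc_add`, `tc_add`, `norm_xc_le`, `norm_tc_le` (`ρ₀ = 2R + 1`,
eventually `M' ρ₀² ≤ B k`). `cone_good` for the good sequence: `‖q_k‖^N = ‖t_k‖ ≥ B²/2 → ∞`,
`R₀ ≥ B^(1/(2N))/2 → ∞`, `‖x_k‖ ≤ 3η‖t_k‖ ≤ (c₀/4)‖q_k‖^N`, `‖X_k‖ ≤ (c₀/4)‖T_k‖`.
If it is more convenient you may weaken in `cone_good` the hypotheses `∀ k` to
`∀ᶠ k in 𝒰`: ask helper12 (owner of ConeGood.lean).
-/

open MvPolynomial Filter Topology Pool.Agent.H77.FB Pool.Agent.H60.FB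

namespace Pool.Agent.H77.N2

namespace ConeAux

lemma sq_nn {n : ℕ} (z : Fin n → ℂ) : 0 ≤ Pool.Agent.H60.FB.sq z :=
  Finset.sum_nonneg fun _ _ => sq_nonneg _

lemma nrm_pow {n : ℕ} (z : Fin n → ℂ) : nrm z ^ 2 = Pool.Agent.H60.FB.sq z :=
  Real.sq_sqrt (sq_nn z)

lemma nrm_nn {n : ℕ} (z : Fin n → ℂ) : 0 ≤ nrm z := Real.sqrt_nonneg _

lemma norm_le_nrm {n : ℕ} (z : Fin n → ℂ) : ‖z‖ ≤ nrm z := by
  rw [pi_norm_le_iff_of_nonneg (nrm_nn z)]
  intro i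
  refine Real.le_sqrt_of_sq_le ?_
  exact Finset.single_le_sum (f := fun j => ‖z j‖ ^ 2) (fun _ _ => sq_nonneg _)
    (Finset.mem_univ i)

lemma nrm_coord {e : Fin 2 → ℂ} (he : Pool.Agent.H60.FB.sq e = 1) (z : Fin 2 → ℂ) :
    nrm z = √(‖xc e z‖ ^ 2 + ‖tc e z‖ ^ 2) := by
  unfold nrm
  rw [sq_coord he]

lemma nrm_le_two {e : Fin 2 → ℂ} (he : Pool.Agent.H60.FB.sq e = 1) (z : Fin 2 → ℂ)
    (h : ‖xc e z‖ ≤ ‖tc e z‖) : nrm z ≤ 2 * ‖tc e z‖ := by
  rw [nrm_coord he, Real.sqrt_le_left (by positivity)]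
  have h0 := norm_nonneg (xc e z)
  nlinarith [norm_nonneg (tc e z)]

lemma nrm_le_add {e : Fin 2 → ℂ} (he : Pool.Agent.H60.FB.sq e = 1) (z : Fin 2 → ℂ) :
    nrm z ≤ ‖xc e z‖ + ‖tc e z‖ := by
  rw [nrm_coord he, Real.sqrt_le_left (by positivity)]
  nlinarith [norm_nonneg (tc e z), norm_nonneg (xc e z)]

lemma goodSeq_congr {n : ℕ} {P : MvPolynomial (Fin n) ℂ} {𝒰 : Ultrafilter ℕ}
    {b b' Y Y' : ℕ → Fin n → ℂ} (hb : ∀ᶠ k in (𝒰 : Filter ℕ), b' k = b k)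
    (hY : ∀ᶠ k in (𝒰 : Filter ℕ), Y' k = Y k) (h : GoodSeq P 𝒰 b' Y') : GoodSeq P 𝒰 b Y := by
  obtain ⟨p, q, ν, μ, c, hc, h1, h2, h3, h4⟩ := h
  refine ⟨p, q, ν, μ, c, hc, h1, fun w => ?_, fun w => ?_, h4⟩
  · refine (h2 w).congr' ?_
    filter_upwards [hb] with k hk
    rw [hk]
  · refine (h3 w).congr' ?_
    filter_upwards [hY] with k hk
    rw [hk]

/-- no sheets -/
lemma cone_empty {P : MvPolynomial (Fin 2) ℂ} {e : Fin 2 → ℂ}
    (he : Pool.Agent.H60.FB.sq e = 1) {N d : ℕ} {g : Fin d → Polynomial ℂ} {ε : Fin d → ℂ → ℂ}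
    {a : Polynomial ℂ} {R C₁ : ℝ} (h : Pui (Pe e P) N d g ε a R C₁)
    (hJ : ∀ j, N ≤ (g j).natDegree) :
    ∃ (η : ℝ) (V : ℝ → ℝ → (Fin 2 → ℂ) → ℝ) (B₁ : ℝ), 0 < η ∧ ConeProp P e η V B₁ := by
  obtain ⟨η, hη, hη1, hfar⟩ := empty_far h hJ
  refine ⟨η, fun B K z => phiR B K (nrm z), 1, hη, ?_, ?_, ?_, ?_, ?_⟩
  · intro B K z
    exact le_rfl
  · intro B hB K hK
    refine ⟨11 / 20 * K ^ 2, fun z => ?_⟩
    have h1 := phi_low (B := B) (K := K) (r := nrm z) (by linarith) (nrm_nn z) (by linarith)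
    rw [nrm_pow] at h1
    have h2 := sq_nn z
    linarith
  · intro B₀
    refine ⟨max B₀ 0, fun B hB K _ z => ?_⟩
    have h1 := phi_lin (B := B) (K := K) (nrm_nn z)
    have h2 : B₀ ≤ B := le_trans (le_max_left _ _) hB
    have h3 : 0 ≤ B := le_trans (le_max_right _ _) hB
    calc B₀ * ‖z‖ ≤ B * ‖z‖ := mul_le_mul_of_nonneg_right h2 (norm_nonneg _)
      _ ≤ B * nrm z := mul_le_mul_of_nonneg_left (norm_le_nrm z) h3
      _ ≤ _ := h1
  · intro 𝒰 _ B K b _ _ _ hlt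
    have : ∀ᶠ k in (𝒰 : Filter ℕ), False := by
      filter_upwards [hlt] with k hk
      exact lt_irrefl _ hk
    exact (this.exists).elim fun _ h => h.elim
  · intro 𝒰 _ B K b hB _ hb _ hx
    set s : ℕ → ℝ := fun k => sR (B k) (K k) (nrm (b k)) with hs
    have hs0 : ∀ᶠ k in (𝒰 : Filter ℕ), 0 ≤ s k ∧ B k / nrm (b k) ≤ s k ∧ 0 < nrm (b k) := by
      filter_upwards [hB.eventually_ge_atTop 1] with k hk
      have h1 := hb k
      have h2 : 0 < nrm (b k) := by nlinarith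
      have h3 := (chi_mem (K := K k) (r := nrm (b k)))
      have h4 : 0 ≤ chi (K k) (nrm (b k)) * (2 - chi (K k) (nrm (b k))) :=
        mul_nonneg h3.1 (by linarith)
      have h5 : 0 ≤ B k / nrm (b k) := by positivity
      have h6 : B k / nrm (b k) ≤ s k := by
        simp only [hs, sR]
        linarith
      exact ⟨le_trans h5 h6, h6, h2⟩
    obtain ⟨ν, c, hc, hν, hlim⟩ := hfar 𝒰 (fun k => (s k : ℂ) * xc e (b k))
      (fun k => (s k : ℂ) * tc e (b k)) (by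
        rw [tendsto_atTop]
        intro M
        filter_upwards [hs0, hB.eventually_ge_atTop (2 * M), hB.eventually_ge_atTop 0, hx]
          with k h1 h2 h2' h3
        obtain ⟨h4, h5, h6⟩ := h1
        have h7 : ‖xc e (b k)‖ ≤ ‖tc e (b k)‖ := by
          refine le_trans h3.le ?_
          nlinarith [norm_nonneg (tc e (b k))]
        have h8 := nrm_le_two he (b k) h7
        rw [norm_mul, Complex.norm_real, Real.norm_eq_abs, abs_of_nonneg h4]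
        calc M ≤ B k / 2 := by linarith
          _ = B k / nrm (b k) * (nrm (b k) / 2) := by field_simp
          _ ≤ s k * ‖tc e (b k)‖ := by
              refine mul_le_mul h5 (by linarith) (by positivity) h4) (by
        filter_upwards [hs0, hx] with k h1 h3
        rw [norm_mul, norm_mul, Complex.norm_real, Real.norm_eq_abs, abs_of_nonneg h1.1]
        calc s k * ‖xc e (b k)‖ ≤ s k * (η * ‖tc e (b k)‖) :=
              mul_le_mul_of_nonneg_left h3.le h1.1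
          _ = η * (s k * ‖tc e (b k)‖) := by ring)
    refine ⟨fun k => (starRingEnd ℂ) (ν k), c, hc, ?_, fun w => ?_⟩
    · filter_upwards [hν] with k hk
      rwa [RCLike.norm_conj]
    · have h1 := (Complex.continuous_conj.tendsto (1 : ℂ)).comp
        (hlim ((starRingEnd ℂ) (Xc e w)) ((starRingEnd ℂ) (Tc e w)))
      rw [map_one] at h1
      refine h1.congr (fun k => ?_)
      simp only [Function.comp_apply]
      rw [cj_eq_fr he, eval_star_add he, map_div₀, map_mul, map_mul, Complex.conj_conj,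
        Complex.conj_conj, Complex.conj_ofReal]

/-- the data at a selected point -/
def SelD (N : ℕ) {d : ℕ} (g : Fin d → Polynomial ℂ) (V : ℝ → ℝ → ℂ → ℂ → ℝ)
    (c₀ η M' c' : ℝ) (i : Fin d) (B K : ℝ) (x t : ℂ) (D : ℂ × ℂ × ℂ × ℝ × ℝ × ℝ) : Prop :=
  D.1 ^ N = t ∧ ‖x‖ ≤ 3 * η * ‖t‖ ∧
    B ^ 2 / 2 ≤ ‖t‖ ∧ B ^ ((1 : ℝ) / (2 * N)) / 2 ≤ D.2.2.2.2.1 ∧
    D.2.2.2.2.1 ≤ D.2.2.2.1 ∧ D.2.2.2.1 / 2 ≤ ‖D.2.2.1‖ ∧
    ‖D.2.1‖ ≤ c₀ / 4 * ‖D.2.2.1 ^ N‖ ∧ 0 ≤ D.2.2.2.2.2 ∧ D.2.2.2.2.2 ≤ 2 ∧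
    c' * min ‖x - (g i - Polynomial.C ((g i).coeff 0)).eval D.1‖ D.2.2.2.2.1
      ≤ D.2.2.2.2.2 * ‖x - (g i - Polynomial.C ((g i).coeff 0)).eval D.1‖ ∧
    ‖D.2.1 - (cst (g i - Polynomial.C ((g i).coeff 0))).eval D.2.2.1
      - D.2.2.2.2.2 * (starRingEnd ℂ)
        (x - (g i - Polynomial.C ((g i).coeff 0)).eval D.1)‖
      ≤ M' / D.2.2.2.1 * (D.2.2.2.2.2 *
        ‖x - (g i - Polynomial.C ((g i).coeff 0)).eval D.1‖) ∧
    (∀ j : Fin d, (g j).natDegree < N →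
      g j - Polynomial.C ((g j).coeff 0) ≠ g i - Polynomial.C ((g i).coeff 0) →
      c' * D.2.2.2.1 ≤
        ‖D.2.1 - (cst (g j - Polynomial.C ((g j).coeff 0))).eval D.2.2.1‖) ∧
    ∀ ρ₀ : ℝ, 1 ≤ ρ₀ → M' * ρ₀ ^ 2 ≤ B → ∀ wx wt : ℂ, ‖wx‖ ≤ ρ₀ → ‖wt‖ ≤ ρ₀ →
      V B K (x + wx) (t + wt) ≤ V B K x t + (D.2.1 * wx + D.2.2.1 ^ N * wt).re + M' * ρ₀ ^ 2

end ConeAux

open ConeAux

theorem exists_cone {P : MvPolynomial (Fin 2) ℂ} (hP : P ≠ 0) {e : Fin 2 → ℂ}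
    (he : Pool.Agent.H60.FB.sq e = 1) :
    ∃ (η : ℝ) (V : ℝ → ℝ → (Fin 2 → ℂ) → ℝ) (B₁ : ℝ), 0 < η ∧ ConeProp P e η V B₁ := by
  obtain ⟨N, d, g, ε, a, R, C₀, h⟩ := exists_pui (Pe e P) (Pe_ne_zero he hP)
  by_cases hJ : ∀ j, N ≤ (g j).natDegree
  · exact cone_empty he h hJ
  push Not at hJ
  obtain ⟨j₀, hj₀⟩ := hJ
  have hN := h.hN
  obtain ⟨c₀, hc₀, hc₀1, hbig'⟩ := exists_c0 N g
  have hbig : ∀ j, N ≤ (g j).natDegree → ∀ᶠ Q in atTop, ∀ q : ℂ, Q ≤ ‖q‖ →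
      c₀ * ‖q‖ ^ N ≤ ‖(g j).eval q‖ := by
    intro j hj
    refine hbig' j hj ?_
    intro h0
    rw [h0, Polynomial.natDegree_zero] at hj
    omega
  have : Nonempty {j : Fin d // (g j).natDegree < N} := ⟨⟨j₀, hj₀⟩⟩
  obtain ⟨η, M', c', B₁, V, hη, hηc, hη1, hM', hc', hB₁, hle, hlow, hlin, hinn, hsel⟩ :=
    cone_sel hN (ι := {j : Fin d // (g j).natDegree < N})
      (fun i => g i.1 - Polynomial.C ((g i.1).coeff 0))
      (fun i => by
        rw [Polynomial.natDegree_sub_C]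
        exact i.2)
      (fun i => by simp) c₀ hc₀
  refine ⟨η, fun B K z => V B K (xc e z) (tc e z), B₁, hη, ?_, ?_, ?_, ?_, ?_⟩
  · intro B K z
    rw [nrm_coord he]
    exact hle _ _ _ _
  · intro B hB K hK
    obtain ⟨C, hC⟩ := hlow B hB K hK
    refine ⟨C, fun z => ?_⟩
    rw [sq_coord he]
    exact hC _ _
  · intro B₀
    refine ⟨max B₁ (8 * B₀), fun B hB K hK z => ?_⟩
    have h1 : B₁ ≤ B := le_trans (le_max_left _ _) hB
    have h2 : 8 * B₀ ≤ B := le_trans (le_max_right _ _) hB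
    have h3 : ‖z‖ ≤ ‖xc e z‖ + ‖tc e z‖ := le_trans (norm_le_nrm z) (nrm_le_add he z)
    calc B₀ * ‖z‖ ≤ B / 8 * ‖z‖ := mul_le_mul_of_nonneg_right (by linarith) (norm_nonneg _)
      _ ≤ B / 8 * (‖xc e z‖ + ‖tc e z‖) := mul_le_mul_of_nonneg_left h3 (by linarith)
      _ ≤ _ := hlin B h1 K hK _ _
  · intro 𝒰 _ B K b hB hK hb hlt
    -- the data at the good indices
    have hsq : ∀ k, B k ^ 4 ≤ ‖xc e (b k)‖ ^ 2 + ‖tc e (b k)‖ ^ 2 := by
      intro k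
      rw [← sq_coord he, ← nrm_pow]
      calc B k ^ 4 = (B k ^ 2) ^ 2 := by ring
        _ ≤ nrm (b k) ^ 2 := pow_le_pow_left₀ (by positivity) (hb k) 2
    have hdata : ∀ᶠ k in (𝒰 : Filter ℕ), ∃ i : {j : Fin d // (g j).natDegree < N},
        ∃ D : ℂ × ℂ × ℂ × ℝ × ℝ × ℝ,
        SelD N g V c₀ η M' c' i.1 (B k) (K k) (xc e (b k)) (tc e (b k)) D := by
      filter_upwards [hlt, hB.eventually_ge_atTop B₁] with k h1 h2
      rw [nrm_coord he] at h1
      obtain ⟨i, q, X, T, pT, ϖ, R₀, Λ, e1, e2, e3, e4, e5, e6, e7, e8, e9, e10, e11, e12, e13,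
        e14⟩ := hsel (B k) h2 (K k) (hK k) _ _ (hsq k) h1
      subst e6
      exact ⟨i, (q, X, pT, ϖ, R₀, Λ), e1, e2, e3, e4, e5, e7, e8, e9, e10, e11, e12,
        fun j hj => e13 ⟨j, hj⟩, e14⟩
    obtain ⟨i, hi⟩ := Ultrafilter.eventually_exists_iff.1 hdata
    -- choose the data, and copy the values of one good index elsewhere
    obtain ⟨k₀, hk₀⟩ := hi.exists
    classical
    obtain ⟨κ, hκ1, hκ2⟩ : ∃ κ : ℕ → ℕ, (∀ᶠ k in (𝒰 : Filter ℕ), κ k = k) ∧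
        ∀ k, ∃ D : ℂ × ℂ × ℂ × ℝ × ℝ × ℝ, SelD N g V c₀ η M' c' i.1 (B (κ k)) (K (κ k))
          (xc e (b (κ k))) (tc e (b (κ k))) D := by
      refine ⟨fun k => if (∃ D : ℂ × ℂ × ℂ × ℝ × ℝ × ℝ, SelD N g V c₀ η M' c' i.1 (B k) (K k)
          (xc e (b k)) (tc e (b k)) D) then k else k₀, ?_, fun k => ?_⟩
      · filter_upwards [hi] with k hk
        simp only [if_pos hk]
      · by_cases hk : ∃ D : ℂ × ℂ × ℂ × ℝ × ℝ × ℝ, SelD N g V c₀ η M' c' i.1 (B k) (K k)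
          (xc e (b k)) (tc e (b k)) D
        · simp only [if_pos hk]
          exact hk
        · simp only [if_neg hk]
          exact hk₀
    choose D hD using hκ2
    unfold SelD at hD
    have hNpos : (0 : ℝ) < 1 / (2 * (N : ℝ)) := by
      have : (0 : ℝ) < N := by exact_mod_cast hN
      positivity
    have hgood := cone_good hP he h i.1 i.2 hc₀ hbig 𝒰 (fun k => xc e (b (κ k)))
      (fun k => (D k).1) (fun k => (D k).2.1) (fun k => (D k).2.2.1) (fun k => (D k).2.2.2.1)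
      (fun k => (D k).2.2.2.2.1) (fun k => (D k).2.2.2.2.2) (M' := M') hc'
      (by
        rw [tendsto_atTop]
        intro M
        filter_upwards [hκ1, hB.eventually_ge_atTop (2 * (max M 0) ^ N),
          hB.eventually_ge_atTop 1] with k h1 h2 h3
        have h4 := (hD k).2.2.1
        rw [← (hD k).1, norm_pow, h1] at h4
        have h5 : (max M 0) ^ N ≤ ‖(D k).1‖ ^ N := by nlinarith
        exact le_trans (le_max_left _ _) (le_of_pow_le_pow_left₀ (by omega) (norm_nonneg _) h5))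
      (by
        have h1 : Tendsto (fun k => B k ^ ((1 : ℝ) / (2 * N)) / 2) 𝒰 atTop :=
          ((tendsto_rpow_atTop hNpos).comp hB).atTop_div_const (by norm_num)
        refine tendsto_atTop_mono' _ ?_ h1
        filter_upwards [hκ1] with k h2
        have h3 := (hD k).2.2.2.1
        rwa [h2] at h3)
      (fun k => (hD k).2.2.2.2.1) (fun k => (hD k).2.2.2.2.2.1)
      (fun k => by
        have h1 := (hD k).2.1
        rw [← (hD k).1, norm_pow] at h1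
        refine le_trans h1 (mul_le_mul_of_nonneg_right (by linarith) (by positivity)))
      (fun k => by
        have h1 := (hD k).2.2.2.2.2.2.1
        rwa [norm_pow] at h1)
      (fun k => ⟨(hD k).2.2.2.2.2.2.2.1, (hD k).2.2.2.2.2.2.2.2.1⟩)
      (fun k => (hD k).2.2.2.2.2.2.2.2.2.1) (fun k => (hD k).2.2.2.2.2.2.2.2.2.2.1)
      (fun j hj hne k => (hD k).2.2.2.2.2.2.2.2.2.2.2.1 j hj hne)
    refine ⟨fun k => fr e (D k).2.1 ((D k).2.2.1 ^ N), fun R' => ?_, ?_⟩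
    · set ρ₀ : ℝ := 2 * |R'| + 1 with hρ₀
      have hρ1 : 1 ≤ ρ₀ := by rw [hρ₀]; linarith [abs_nonneg R']
      refine ⟨M' * ρ₀ ^ 2, ?_⟩
      filter_upwards [hκ1, hB.eventually_ge_atTop (M' * ρ₀ ^ 2)] with k h1 h2 w hw
      have h3 := (hD k).2.2.2.2.2.2.2.2.2.2.2.2 ρ₀ hρ1 (by rwa [h1]) (xc e w) (tc e w)
        (by
          have := norm_xc_le he w
          have := le_abs_self R'
          rw [hρ₀]; linarith)
        (by
          have := norm_tc_le he w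
          have := le_abs_self R'
          rw [hρ₀]; linarith)
      rw [h1] at h3
      simp only [xc_add, tc_add, dt_fr]
      exact h3
    · refine goodSeq_congr ?_ (Eventually.of_forall fun _ => rfl) hgood
      filter_upwards [hκ1] with k h1
      rw [(hD k).1, h1, pt_xc_tc he]
  · intro 𝒰 _ B K b hB hK hb heq hx
    have : ∀ᶠ k in (𝒰 : Filter ℕ), False := by
      filter_upwards [heq, hx, hB.eventually_ge_atTop B₁] with k h1 h2 h3
      have h4 : ‖xc e (b k)‖ ≤ ‖tc e (b k)‖ := by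
        refine le_trans h2.le ?_
        nlinarith [norm_nonneg (tc e (b k))]
      have h5 := nrm_le_two he (b k) h4
      have h6 := hb k
      have h7 := hinn (B k) h3 (K k) (hK k) (xc e (b k)) (tc e (b k)) (by linarith) h2
      rw [← nrm_coord he] at h7
      linarith
    exact (this.exists).elim fun _ h => h.elim

end Pool.Agent.H77.N2
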