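import Pool.Agent.H77.N2.Defs
import Pool.Agent.H60.FB.Per

/-!
Coordinates in dimension two.
-/

open MvPolynomial Filter Topology Pool.Agent.H77.FB Pool.Agent.H60.FB

namespace Pool.Agent.H77.N2

/-- The coordinate `x` of a point. -/
noncomputable def xc (e z : Fin 2 → ℂ) : ℂ := e 0 * z 1 - e 1 * z 0

/-- The coordinate `t` of a point. -/
noncomputable def tc (e z : Fin 2 → ℂ) : ℂ :=
  (starRingEnd ℂ) (e 0) * z 0 + (starRingEnd ℂ) (e 1) * z 1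

lemma sq_two (z : Fin 2 → ℂ) : Pool.Agent.H60.FB.sq z = ‖z 0‖ ^ 2 + ‖z 1‖ ^ 2 := by
  unfold Pool.Agent.H60.FB.sq
  rw [Fin.sum_univ_two]

lemma unit_e {e : Fin 2 → ℂ} (he : Pool.Agent.H60.FB.sq e = 1) :
    e 0 * (starRingEnd ℂ) (e 0) + e 1 * (starRingEnd ℂ) (e 1) = 1 := by
  rw [sq_two] at he
  rw [Complex.mul_conj, Complex.mul_conj, Complex.normSq_eq_norm_sq, Complex.normSq_eq_norm_sq]
  exact_mod_cast he

lemma pt_xc_tc {e : Fin 2 → ℂ} (he : Pool.Agent.H60.FB.sq e = 1) (z : Fin 2 → ℂ) :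
    pt e (xc e z) (tc e z) = z := by
  have h := unit_e he
  funext i
  fin_cases i
  · simp only [pt, xc, tc, Fin.zero_eta, Fin.isValue, Matrix.cons_val_zero]
    linear_combination z 0 * h
  · simp only [pt, xc, tc, Fin.mk_one, Fin.isValue, Matrix.cons_val_one, Matrix.cons_val_fin_one]
    linear_combination z 1 * h

lemma xc_pt {e : Fin 2 → ℂ} (he : Pool.Agent.H60.FB.sq e = 1) (x t : ℂ) : xc e (pt e x t) = x := by
  have h := unit_e he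
  simp only [pt, xc, Fin.isValue, Matrix.cons_val_zero, Matrix.cons_val_one]
  linear_combination x * h

lemma tc_pt {e : Fin 2 → ℂ} (he : Pool.Agent.H60.FB.sq e = 1) (x t : ℂ) : tc e (pt e x t) = t := by
  have h := unit_e he
  simp only [pt, tc, Fin.isValue, Matrix.cons_val_zero, Matrix.cons_val_one]
  linear_combination t * h

lemma pt_add (e : Fin 2 → ℂ) (x t x' t' : ℂ) : pt e x t + pt e x' t' = pt e (x + x') (t + t') := by
  funext i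
  fin_cases i <;>
    simp only [pt, Pi.add_apply, Fin.zero_eta, Fin.mk_one, Fin.isValue, Matrix.cons_val_zero,
      Matrix.cons_val_one] <;> ring

lemma xc_add (e z w : Fin 2 → ℂ) : xc e (z + w) = xc e z + xc e w := by
  simp only [xc, Pi.add_apply]; ring

lemma tc_add (e z w : Fin 2 → ℂ) : tc e (z + w) = tc e z + tc e w := by
  simp only [tc, Pi.add_apply]; ring

/-- The pairing in coordinates. -/
lemma dt_fr (e : Fin 2 → ℂ) (X T : ℂ) (w : Fin 2 → ℂ) :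
    dt (fr e X T) w = X * xc e w + T * tc e w := by
  simp only [dt, fr, xc, tc, Fin.sum_univ_two, Fin.isValue, Matrix.cons_val_zero,
    Matrix.cons_val_one]
  ring

lemma sq_pt {e : Fin 2 → ℂ} (he : Pool.Agent.H60.FB.sq e = 1) (x t : ℂ) :
    Pool.Agent.H60.FB.sq (pt e x t) = ‖x‖ ^ 2 + ‖t‖ ^ 2 := by
  have h := unit_e he
  have h1 : ((Pool.Agent.H60.FB.sq (pt e x t) : ℝ) : ℂ) = ((‖x‖ ^ 2 + ‖t‖ ^ 2 : ℝ) : ℂ) := by
    rw [sq_two]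
    push_cast
    have h2 : ∀ z : ℂ, ((‖z‖ : ℂ)) ^ 2 = z * (starRingEnd ℂ) z := fun z => by
      rw [Complex.mul_conj, Complex.normSq_eq_norm_sq]; push_cast; rfl
    rw [h2, h2, h2, h2]
    simp only [pt, Fin.isValue, Matrix.cons_val_zero, Matrix.cons_val_one, map_sub, map_add,
      map_mul, Complex.conj_conj]
    linear_combination (x * (starRingEnd ℂ) x + t * (starRingEnd ℂ) t) * h
  exact_mod_cast h1

lemma sq_coord {e : Fin 2 → ℂ} (he : Pool.Agent.H60.FB.sq e = 1) (z : Fin 2 → ℂ) :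
    Pool.Agent.H60.FB.sq z = ‖xc e z‖ ^ 2 + ‖tc e z‖ ^ 2 := by
  conv_lhs => rw [← pt_xc_tc he z]
  exact sq_pt he _ _

lemma norm_xc_le {e : Fin 2 → ℂ} (he : Pool.Agent.H60.FB.sq e = 1) (z : Fin 2 → ℂ) :
    ‖xc e z‖ ≤ 2 * ‖z‖ := by
  have h0 : ‖e 0‖ ≤ 1 := by
    rw [sq_two] at he
    nlinarith [norm_nonneg (e 0), norm_nonneg (e 1), sq_nonneg (‖e 1‖), sq_nonneg (‖e 0‖ - 1)]
  have h1 : ‖e 1‖ ≤ 1 := by
    rw [sq_two] at he
    nlinarith [norm_nonneg (e 0), norm_nonneg (e 1), sq_nonneg (‖e 0‖), sq_nonneg (‖e 1‖ - 1)]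
  have h2 := norm_le_pi_norm z 0
  have h3 := norm_le_pi_norm z 1
  unfold xc
  calc ‖e 0 * z 1 - e 1 * z 0‖ ≤ ‖e 0 * z 1‖ + ‖e 1 * z 0‖ := norm_sub_le _ _
    _ = ‖e 0‖ * ‖z 1‖ + ‖e 1‖ * ‖z 0‖ := by rw [norm_mul, norm_mul]
    _ ≤ 1 * ‖z‖ + 1 * ‖z‖ := by gcongr
    _ = _ := by ring

lemma norm_tc_le {e : Fin 2 → ℂ} (he : Pool.Agent.H60.FB.sq e = 1) (z : Fin 2 → ℂ) :
    ‖tc e z‖ ≤ 2 * ‖z‖ := by
  have h0 : ‖e 0‖ ≤ 1 := by
    rw [sq_two] at he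
    nlinarith [norm_nonneg (e 0), norm_nonneg (e 1), sq_nonneg (‖e 1‖), sq_nonneg (‖e 0‖ - 1)]
  have h1 : ‖e 1‖ ≤ 1 := by
    rw [sq_two] at he
    nlinarith [norm_nonneg (e 0), norm_nonneg (e 1), sq_nonneg (‖e 0‖), sq_nonneg (‖e 1‖ - 1)]
  have h2 := norm_le_pi_norm z 0
  have h3 := norm_le_pi_norm z 1
  unfold tc
  calc ‖(starRingEnd ℂ) (e 0) * z 0 + (starRingEnd ℂ) (e 1) * z 1‖
      ≤ ‖(starRingEnd ℂ) (e 0) * z 0‖ + ‖(starRingEnd ℂ) (e 1) * z 1‖ := norm_add_le _ _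
    _ = ‖e 0‖ * ‖z 0‖ + ‖e 1‖ * ‖z 1‖ := by
        rw [norm_mul, norm_mul, RCLike.norm_conj, RCLike.norm_conj]
    _ ≤ 1 * ‖z‖ + 1 * ‖z‖ := by gcongr
    _ = _ := by ring

/-- The polynomial in coordinates. -/
lemma eval_Pe (e : Fin 2 → ℂ) (P : MvPolynomial (Fin 2) ℂ) (x t : ℂ) :
    eval ![x, t] (Pe e P) = eval (pt e x t) P := by
  unfold Pe
  rw [eval_aeval_lin]
  congr 2
  funext i
  fin_cases i <;> simp [pt] <;> ring

/-- `P*` at a frequency, in coordinates. -/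
lemma eval_star_fr (e : Fin 2 → ℂ) (P : MvPolynomial (Fin 2) ℂ) (X T : ℂ) :
    eval (fr e X T) (star' P)
      = (starRingEnd ℂ) (eval ![(starRingEnd ℂ) X, (starRingEnd ℂ) T] (Pe e P)) := by
  rw [eval_star', eval_Pe]
  congr 3
  funext i
  fin_cases i <;> simp [cj, fr, pt]

/-- The coordinate of a frequency dual to `x`. -/
noncomputable def Xc (e W : Fin 2 → ℂ) : ℂ :=
  (starRingEnd ℂ) (e 0) * W 1 - (starRingEnd ℂ) (e 1) * W 0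

/-- The coordinate of a frequency dual to `t`. -/
noncomputable def Tc (e W : Fin 2 → ℂ) : ℂ := e 0 * W 0 + e 1 * W 1

lemma fr_Xc_Tc {e : Fin 2 → ℂ} (he : Pool.Agent.H60.FB.sq e = 1) (W : Fin 2 → ℂ) :
    fr e (Xc e W) (Tc e W) = W := by
  have h := unit_e he
  funext i
  fin_cases i
  · simp only [fr, Xc, Tc, Fin.zero_eta, Fin.isValue, Matrix.cons_val_zero]
    linear_combination W 0 * h
  · simp only [fr, Xc, Tc, Fin.mk_one, Fin.isValue, Matrix.cons_val_one, Matrix.cons_val_fin_one]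
    linear_combination W 1 * h

lemma fr_add (e : Fin 2 → ℂ) (X T X' T' : ℂ) : fr e X T + fr e X' T' = fr e (X + X') (T + T') := by
  funext i
  fin_cases i <;>
    simp only [fr, Pi.add_apply, Fin.zero_eta, Fin.mk_one, Fin.isValue, Matrix.cons_val_zero,
      Matrix.cons_val_one] <;> ring

lemma eval_star_add {e : Fin 2 → ℂ} (he : Pool.Agent.H60.FB.sq e = 1)
    (P : MvPolynomial (Fin 2) ℂ) (X T : ℂ) (W : Fin 2 → ℂ) :
    eval (fr e X T + W) (star' P) = (starRingEnd ℂ)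
      (eval ![(starRingEnd ℂ) X + (starRingEnd ℂ) (Xc e W),
        (starRingEnd ℂ) T + (starRingEnd ℂ) (Tc e W)] (Pe e P)) := by
  conv_lhs => rw [← fr_Xc_Tc he W]
  rw [fr_add, eval_star_fr, map_add, map_add]

lemma eval_add_coord {e : Fin 2 → ℂ} (he : Pool.Agent.H60.FB.sq e = 1)
    (P : MvPolynomial (Fin 2) ℂ) (b w : Fin 2 → ℂ) :
    eval (b + w) P = eval ![xc e b + xc e w, tc e b + tc e w] (Pe e P) := by
  rw [eval_Pe, ← pt_add, pt_xc_tc he, pt_xc_tc he]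

lemma Pe_ne_zero {e : Fin 2 → ℂ} (he : Pool.Agent.H60.FB.sq e = 1) {P : MvPolynomial (Fin 2) ℂ}
    (hP : P ≠ 0) : Pe e P ≠ 0 := by
  intro h
  apply hP
  refine MvPolynomial.funext fun z => ?_
  rw [← pt_xc_tc he z, ← eval_Pe, h, map_zero, map_zero]

/-- The complex conjugate point, as a frequency. -/
lemma cj_eq_fr {e : Fin 2 → ℂ} (he : Pool.Agent.H60.FB.sq e = 1) (s : ℝ) (b : Fin 2 → ℂ) :
    (s : ℂ) • cj b = fr e (s * (starRingEnd ℂ) (xc e b)) (s * (starRingEnd ℂ) (tc e b)) := by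
  have h := unit_e he
  funext i
  fin_cases i
  · simp only [fr, xc, tc, cj, Pi.smul_apply, smul_eq_mul, Fin.zero_eta, Fin.isValue,
      Matrix.cons_val_zero, map_sub, map_add, map_mul, Complex.conj_conj]
    linear_combination (-(s : ℂ) * (starRingEnd ℂ) (b 0)) * h
  · simp only [fr, xc, tc, cj, Pi.smul_apply, smul_eq_mul, Fin.mk_one, Fin.isValue,
      Matrix.cons_val_one, Matrix.cons_val_fin_one, map_sub, map_add, map_mul,
      Complex.conj_conj]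
    linear_combination (-(s : ℂ) * (starRingEnd ℂ) (b 1)) * h

/-- The form of the weights of one direction. -/
structure ConeProp (P : MvPolynomial (Fin 2) ℂ) (e : Fin 2 → ℂ) (η : ℝ)
    (V : ℝ → ℝ → (Fin 2 → ℂ) → ℝ) (B₁ : ℝ) : Prop where
  le : ∀ B K z, V B K z ≤ phiR B K (nrm z)
  low : ∀ B ≥ B₁, ∀ K ≥ 1, ∃ C : ℝ, ∀ z, Pool.Agent.H60.FB.sq z / 2 - C ≤ V B K z
  lin : ∀ B₀ : ℝ, ∃ B₂ : ℝ, ∀ B ≥ B₂, ∀ K ≥ 1, ∀ z, B₀ * ‖z‖ ≤ V B K z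
  good : ∀ 𝒰 : Ultrafilter ℕ, (𝒰 : Filter ℕ) ≤ atTop → ∀ (B K : ℕ → ℝ) (b : ℕ → Fin 2 → ℂ),
    Tendsto B 𝒰 atTop → (∀ k, 1 ≤ K k) → (∀ k, B k ^ 2 ≤ nrm (b k)) →
    (∀ᶠ k in (𝒰 : Filter ℕ), V (B k) (K k) (b k) < phiR (B k) (K k) (nrm (b k))) →
    ∃ Y : ℕ → Fin 2 → ℂ, (∀ R : ℝ, ∃ C : ℝ, ∀ᶠ k in (𝒰 : Filter ℕ), ∀ w, ‖w‖ ≤ R →
      V (B k) (K k) (b k + w) ≤ V (B k) (K k) (b k) + (dt (Y k) w).re + C) ∧
      GoodSeq P 𝒰 b Y
  far : ∀ 𝒰 : Ultrafilter ℕ, (𝒰 : Filter ℕ) ≤ atTop → ∀ (B K : ℕ → ℝ) (b : ℕ → Fin 2 → ℂ),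
    Tendsto B 𝒰 atTop → (∀ k, 1 ≤ K k) → (∀ k, B k ^ 2 ≤ nrm (b k)) →
    (∀ᶠ k in (𝒰 : Filter ℕ), V (B k) (K k) (b k) = phiR (B k) (K k) (nrm (b k))) →
    (∀ᶠ k in (𝒰 : Filter ℕ), ‖xc e (b k)‖ < η * ‖tc e (b k)‖) →
    ∃ (μ : ℕ → ℂ) (c : ℝ), 0 < c ∧ (∀ᶠ k in (𝒰 : Filter ℕ), c ≤ ‖μ k‖) ∧
      ∀ w, Tendsto (fun k => eval ((sR (B k) (K k) (nrm (b k)) : ℂ) • cj (b k) + w) (star' P)
        / μ k) 𝒰 (𝓝 1)

end Pool.Agent.H77.N2
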