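import Pool.Agent.H60.FB.Defs

/-!
Definitions for the surjectivity of `Φ_P` for every polynomial `P` in two variables
(problem MP_6e521b_an).
-/

open MvPolynomial Filter Topology Pool.Agent.H77.FB Pool.Agent.H60.FB

namespace Pool.Agent.H77.N2

/-! ### General -/

/-- The euclidean norm. -/
noncomputable def nrm {n : ℕ} (z : Fin n → ℂ) : ℝ := √(sq z)

/-- The bilinear pairing. -/
noncomputable def dt {n : ℕ} (Y z : Fin n → ℂ) : ℂ := ∑ j, Y j * z j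

/-- The operator `h ↦ P*(D)(P h)`. -/
noncomputable def TT {n : ℕ} (P : MvPolynomial (Fin n) ℂ) (h : (Fin n → ℂ) → ℂ) :
    (Fin n → ℂ) → ℂ :=
  QD (star' P) 1 (fun z => eval z P * h z)

/-- The equation `q(D)(p F) = 0` has no nonzero entire solution. -/
def InjPair {n : ℕ} (p q : MvPolynomial (Fin n) ℂ) : Prop :=
  ∀ F : (Fin n → ℂ) → ℂ, Differentiable ℂ F → (∀ z, QD q 1 (fun z => eval z p * F z) z = 0) →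
    ∀ z, F z = 0

/-- The limits along `𝒰` of the normalised polynomials `P(b_k + ·)` and `P*(Y_k + ·)` form an
injective pair. -/
def GoodSeq {n : ℕ} (P : MvPolynomial (Fin n) ℂ) (𝒰 : Ultrafilter ℕ) (b Y : ℕ → Fin n → ℂ) :
    Prop :=
  ∃ (p q : MvPolynomial (Fin n) ℂ) (ν μ : ℕ → ℂ) (c : ℝ), 0 < c ∧
    (∀ᶠ k in (𝒰 : Filter ℕ), c ≤ ‖ν k‖ ∧ c ≤ ‖μ k‖) ∧
    (∀ w, Tendsto (fun k => eval (b k + w) P / ν k) 𝒰 (𝓝 (eval w p))) ∧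
    (∀ w, Tendsto (fun k => eval (Y k + w) (star' P) / μ k) 𝒰 (𝓝 (eval w q))) ∧
    InjPair p q

/-- The properties of the weights needed in the main estimate. -/
structure Weights {n : ℕ} (P : MvPolynomial (Fin n) ℂ) (Φ : ℝ → ℝ → (Fin n → ℂ) → ℝ)
    (B₁ : ℝ) : Prop where
  up : ∃ A : ℝ, ∀ B ≥ B₁, ∀ z, ∀ᶠ K in atTop, Φ B K z ≤ A * B * (‖z‖ + 1)
  low : ∀ B ≥ B₁, ∀ K ≥ 1, ∃ C : ℝ, ∀ z, sq z / 2 - C ≤ Φ B K z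
  lin : ∀ B₀ : ℝ, ∃ B₂ : ℝ, ∀ B ≥ B₂, ∀ K ≥ 1, ∀ z, B₀ * ‖z‖ ≤ Φ B K z
  good : ∀ 𝒰 : Ultrafilter ℕ, (𝒰 : Filter ℕ) ≤ atTop → ∀ (B K : ℕ → ℝ) (b : ℕ → Fin n → ℂ),
    Tendsto B 𝒰 atTop → (∀ k, 1 ≤ K k) → (∀ k, B k ^ 2 ≤ nrm (b k)) →
    ∃ Y : ℕ → Fin n → ℂ, (∀ R : ℝ, ∃ C : ℝ, ∀ᶠ k in (𝒰 : Filter ℕ), ∀ w, ‖w‖ ≤ R →
      Φ (B k) (K k) (b k + w) ≤ Φ (B k) (K k) (b k) + (dt (Y k) w).re + C) ∧
      GoodSeq P 𝒰 b Y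

/-! ### Coordinates in dimension two -/

/-- The point with coordinates `t` along `e` and `x` along `e^⊥ = (-ē₁, ē₀)`. -/
noncomputable def pt (e : Fin 2 → ℂ) (x t : ℂ) : Fin 2 → ℂ :=
  ![t * e 0 - x * (starRingEnd ℂ) (e 1), t * e 1 + x * (starRingEnd ℂ) (e 0)]

/-- The frequency dual to `pt`. -/
noncomputable def fr (e : Fin 2 → ℂ) (X T : ℂ) : Fin 2 → ℂ :=
  ![T * (starRingEnd ℂ) (e 0) - X * e 1, T * (starRingEnd ℂ) (e 1) + X * e 0]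

/-- The polynomial `P` in the coordinates `(x, t)`. -/
noncomputable def Pe (e : Fin 2 → ℂ) (P : MvPolynomial (Fin 2) ℂ) : MvPolynomial (Fin 2) ℂ :=
  aeval ![C (e 0) * X 1 - C ((starRingEnd ℂ) (e 1)) * X 0,
    C (e 1) * X 1 + C ((starRingEnd ℂ) (e 0)) * X 0] P

/-- A Puiseux factorisation at infinity of `F(x, t)`, with `t = q^N`. -/
structure Pui (F : MvPolynomial (Fin 2) ℂ) (N d : ℕ) (g : Fin d → Polynomial ℂ)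
    (ε : Fin d → ℂ → ℂ) (a : Polynomial ℂ) (R C : ℝ) : Prop where
  hN : 1 ≤ N
  ha : a ≠ 0
  hR : 1 ≤ R
  hε : ∀ i, ∀ q : ℂ, R < ‖q‖ → ‖ε i q‖ ≤ C / ‖q‖
  fac : ∀ q : ℂ, R < ‖q‖ → ∀ x : ℂ,
    eval ![x, q ^ N] F = a.eval (q ^ N) * ∏ i, (x - (g i).eval q - ε i q)

/-- The polynomial in one variable with conjugated coefficients. -/
noncomputable def cst (C : Polynomial ℂ) : Polynomial ℂ := C.map (starRingEnd ℂ)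

/-- The branch of `(q^N + w)^(1/N)` near `q`. -/
noncomputable def rt (N : ℕ) (q w : ℂ) : ℂ := q * (1 + w / q ^ N) ^ ((1 : ℂ) / N)

/-! ### The radial base functions -/

noncomputable def chi (K r : ℝ) : ℝ := r ^ 2 / (r ^ 2 + K ^ 2)

/-- The slope `s = φ'(r)/r`. -/
noncomputable def sR (B K r : ℝ) : ℝ := B / r + 11 / 10 * (chi K r * (2 - chi K r))

/-- The radial weight. -/
noncomputable def phiR (B K r : ℝ) : ℝ := B * r + 11 / 20 * (chi K r * r ^ 2)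

/-- `S = (β s(Q^N))^(1/N)`. -/
noncomputable def SR (N : ℕ) (β B K Q : ℝ) : ℝ := (β * sR B K (Q ^ N)) ^ ((1 : ℝ) / N)

/-! ### The complexified domain and the base -/

/-- The neighbourhood of `{r = q̄}`. -/
def Dom (R ε : ℝ) : Set (ℂ × ℂ) :=
  {x | R < ‖x.1‖ ∧ R < ‖x.2‖ ∧ ‖x.2 - (starRingEnd ℂ) x.1‖ < ε * ‖x.1‖ ∧
    ‖x.2 - (starRingEnd ℂ) x.1‖ < ε * ‖x.2‖}

/-- `F^♯(q, r) = conj F(r̄, q̄)`. -/
noncomputable def shp (F : ℂ × ℂ → ℂ) (x : ℂ × ℂ) : ℂ :=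
  (starRingEnd ℂ) (F ((starRingEnd ℂ) x.2, (starRingEnd ℂ) x.1))

/-- The base state. Here `S` is the slice function, `σ` its complexification, `ψ` the
potential; the base frequency is `p₀ = r σ(q, r)`. -/
structure IsBase (N : ℕ) (R ε : ℝ) (S : ℝ → ℝ) (ψ σ : ℂ × ℂ → ℂ) : Prop where
  dψ : DifferentiableOn ℂ ψ (Dom R ε)
  dσ : DifferentiableOn ℂ σ (Dom R ε)
  eq : ∀ x ∈ Dom R ε, N * x.1 ^ (N - 1) * (x.2 * σ x) ^ N = 2 * fderiv ℂ ψ x (1, 0)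
  sym : ∀ x ∈ Dom R ε, shp ψ x = ψ x
  slice : ∀ q : ℂ, R < ‖q‖ → σ (q, (starRingEnd ℂ) q) = S ‖q‖
  Spos : ∀ Q : ℝ, R < Q → 0 < S Q
  Sle : ∀ Q : ℝ, R < Q → S Q ≤ 2
  σlow : ∀ x ∈ Dom R ε, S ‖x.1‖ / 2 ≤ ‖σ x‖
  σup : ∀ x ∈ Dom R ε, ‖σ x‖ ≤ 2 * S ‖x.1‖
  Scmp : ∀ x ∈ Dom R ε, S ‖x.2‖ ≤ 2 * S ‖x.1‖ ∧ S ‖x.1‖ ≤ 2 * S ‖x.2‖
  Sdbl : ∀ Q Q' : ℝ, R < Q → R < Q' → Q' ≤ 2 * Q → Q ≤ 2 * Q' → S Q' ≤ 8 * S Q
  ψup : ∀ x ∈ Dom R ε, ‖ψ x‖ ≤ 4 * (‖x.1‖ * S ‖x.1‖) ^ N * ‖x.1‖ ^ N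

/-- A state for the polynomial `C`. -/
structure IsSt (N : ℕ) (R ε M : ℝ) (σ : ℂ × ℂ → ℂ) (C : Polynomial ℂ) (ψ p : ℂ × ℂ → ℂ) :
    Prop where
  dψ : DifferentiableOn ℂ ψ (Dom R ε)
  dp : DifferentiableOn ℂ p (Dom R ε)
  eq : ∀ x ∈ Dom R ε, N * x.1 ^ (N - 1) * p x ^ N
    + (cst C).eval (p x) * (Polynomial.derivative C).eval x.1 = 2 * fderiv ℂ ψ x (1, 0)
  sym : ∀ x ∈ Dom R ε, shp ψ x = ψ x
  near : ∀ x ∈ Dom R ε, ‖p x - x.2 * σ x‖ ≤ M / ‖x.1‖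

/-- The part of `C` of degree at least `k` (and less than `N`). -/
noncomputable def upp (N : ℕ) (C : Polynomial ℂ) (k : ℕ) : Polynomial ℂ :=
  ∑ a ∈ Finset.Ico k N, Polynomial.monomial a (C.coeff a)

/-- `f` has, as a function of `t = q^N` near `q`, the first derivatives `ft`, `fb` (with respect
to `t` and to its conjugate), with bounds as for a slowly varying function of size `A`. -/
def IsTay (N : ℕ) (M c A : ℝ) (f : ℂ → ℂ) (q ft fb : ℂ) : Prop :=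
  ‖ft‖ * ‖q‖ ^ N ≤ M * A ∧ ‖fb‖ * ‖q‖ ^ N ≤ M * A ∧ ∀ w : ℂ, ‖w‖ ≤ c * ‖q‖ ^ N →
    ‖f (rt N q w) - f q - ft * w - fb * (starRingEnd ℂ) w‖ * (‖q‖ ^ N) ^ 2 ≤ M * A * ‖w‖ ^ 2

/-! ### The data of a family of sheets, on the slice -/

/-- `π = Q S(Q)`. -/
noncomputable def piR (N : ℕ) (β B K Q : ℝ) : ℝ := Q * SR N β B K Q

/-- The states of a family of sheets `x = C_i(q)`, restricted to the slice. -/
structure IsSlice (N : ℕ) {ι : Type*} (C : ι → Polynomial ℂ) (β B K R M c : ℝ)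
    (ψ : ι → ℂ → ℝ) (p ξt ξb : ι → ℂ → ℂ) : Prop where
  /-- the radial function `S` is slowly varying -/
  stay : ∀ q : ℂ, R < ‖q‖ → ∃ ft fb, IsTay N M c (SR N β B K ‖q‖)
    (fun q => (SR N β B K ‖q‖ : ℂ)) q ft fb
  pnear : ∀ i q, R < ‖q‖ → ‖p i q * q - (piR N β B K ‖q‖ * ‖q‖ : ℝ)‖ ≤ M
  pair : ∀ i j, C i ≠ C j → ∀ q, R < ‖q‖ →
    ‖p i q - p j q‖ * (piR N β B K ‖q‖ ^ (N - 1) * ‖q‖)
      ≤ M * piR N β B K ‖q‖ ^ (C i - C j).natDegree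
  energy : ∀ i j, C i ≠ C j → ∀ q, R < ‖q‖ →
    |ψ i q - ψ j q - ((cst (C j)).eval (p j q) * (C i - C j).eval q).re
      - ‖(C i - C j).leadingCoeff‖ ^ 2 / 2 * (piR N β B K ‖q‖ * ‖q‖) ^ (C i - C j).natDegree|
      ≤ M * (piR N β B K ‖q‖ ^ ((C i - C j).natDegree - 1) * ‖q‖ ^ (C i - C j).natDegree)
  ψnear : ∀ i q, R < ‖q‖ → |ψ i q - β * phiR B K (‖q‖ ^ N)|
    ≤ M * (piR N β B K ‖q‖ ^ (N - 1) * ‖q‖ ^ (N - 1))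
  ψtay : ∀ i q, R < ‖q‖ → ∀ w : ℂ, ‖w‖ ≤ c * ‖q‖ ^ N →
    |ψ i (rt N q w) - ψ i q - ((p i q ^ N + (cst (C i)).eval (p i q) *
      ((Polynomial.derivative (C i)).eval q / (N * q ^ (N - 1)))) * w).re| ≤ M * ‖w‖ ^ 2
  ξtay : ∀ i q, R < ‖q‖ → IsTay N M c (piR N β B K ‖q‖ ^ (N - 1))
    (fun q => (cst (C i)).eval (p i q)) q (ξt i q) (ξb i q)

/-- The radii of the profile. -/
noncomputable def rad (κ R₀ Q : ℝ) (l : ℕ) : ℝ := if l = 0 then R₀ else κ * Q ^ l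

/-- The constant `b = (6/5)^(1/N)`. -/
noncomputable def bb (N : ℕ) : ℝ := (6 / 5 : ℝ) ^ ((1 : ℝ) / N)

/-- The amplitudes of the profile. -/
noncomputable def amp (N : ℕ) (κ R₀ Q S : ℝ) (l : ℕ) : ℝ :=
  13 / 10 * bb N ^ (N - l - 1) * S ^ l * (bb N - S) * rad κ R₀ Q l

/-- The transverse profile `Θ(ρ)`. -/
noncomputable def TH (N : ℕ) (κ R₀ Q S ρ : ℝ) : ℝ :=
  13 / 20 * S ^ N * ρ ^ 2 + ∑ l ∈ Finset.range N,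
    amp N κ R₀ Q S l * (√(ρ ^ 2 + rad κ R₀ Q l ^ 2) - rad κ R₀ Q l)

/-- `Λ(ρ) = Θ'(ρ) / ρ`. -/
noncomputable def LA (N : ℕ) (κ R₀ Q S ρ : ℝ) : ℝ :=
  13 / 10 * S ^ N + ∑ l ∈ Finset.range N, amp N κ R₀ Q S l / √(ρ ^ 2 + rad κ R₀ Q l ^ 2)

/-- The weight of the sheet `i`. -/
noncomputable def PH (N : ℕ) {ι : Type*} (C : ι → Polynomial ℂ) (β B K κ R₀ : ℝ)
    (ψ : ι → ℂ → ℝ) (p : ι → ℂ → ℂ) (i : ι) (x q : ℂ) : ℝ :=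
  ψ i q + ((cst (C i)).eval (p i q) * (x - (C i).eval q)).re
    + TH N κ R₀ ‖q‖ (SR N β B K ‖q‖) ‖x - (C i).eval q‖

end Pool.Agent.H77.N2
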