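import Pool.Agent.H77.N2.Defs
import Pool.Agent.H37.FB.Homog
import Pool.Agent.H16.FK.Coer
import Pool.Agent.H16.FK.Mini

/-!
Module FOCK of MP_6e521b_an (n = 2; stated for all `n`): solution of `P*(D)(P h) = g` in the Fock
space (helper16). A minimising sequence `v_k` of `‖P v‖² - 2 Re ⟨g, v⟩` in the Gaussian norm, over
the entire functions of exponential type, converges locally uniformly by coercivity.
-/

open MvPolynomial Filter Topology Pool.Agent.H77.FB Pool.Agent.H60.FB MeasureTheory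
open Pool.Agent.H16.FK

namespace Pool.Agent.H77.N2

lemma expo_memT {n : ℕ} (w : Fin n → ℂ) : (expo w).1 ∈ ExpT n := by
  refine ⟨(expo w).2, 1, one_pos, n * ‖w‖ + 1, by positivity, fun z => ?_⟩
  refine (Pool.Agent.H77.FB.norm_expo_le w z).trans ?_
  rw [one_mul]
  apply Real.exp_le_exp.2
  have := norm_nonneg z
  nlinarith

lemma gb_add_smul {n : ℕ} {f f' g : (Fin n → ℂ) → ℂ} (hf : f ∈ ExpT n) (hf' : f' ∈ ExpT n)
    (hg : g ∈ ExpT n) (t : ℂ) : gb (fun z => f z + t * f' z) g = gb f g + t * gb f' g := by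
  unfold gb
  rw [← integral_const_mul, ← integral_add (gb_int hf hg) ((gb_int hf' hg).const_mul t)]
  refine integral_congr_ae (Filter.Eventually.of_forall fun z => ?_)
  change (f z + t * f' z) * (starRingEnd ℂ) (g z) * (gw z : ℂ) = _
  ring

/-- The pointwise values of the pairing with exponentials. -/
lemma gb_expo {n : ℕ} {g : (Fin n → ℂ) → ℂ} (hg : g ∈ ExpT n) (ζ : Fin n → ℂ) :
    gb g (expo (cj ζ)).1 = g ζ * gc n := by
  rw [← gauss_repr hg ζ]
  unfold gb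
  refine integral_congr_ae (Filter.Eventually.of_forall fun z => ?_)
  change g z * (starRingEnd ℂ) ((expo (cj ζ)).1 z) * (gw z : ℂ)
    = g z * (gw z : ℂ) * (expo (cj z)).1 ζ
  rw [conj_expo]
  ring

lemma gb_QDE {n : ℕ} (P : MvPolynomial (Fin n) ℂ) {g : (Fin n → ℂ) → ℂ} (hg : g ∈ ExpT n)
    (ζ : Fin n → ℂ) :
    gb g (fun z => eval z P * (expo (cj ζ)).1 z) = (QDE (star' P) ⟨g, hg.1⟩).1 ζ * gc n := by
  rw [QDE_gauss P hg ζ]
  unfold gb
  refine integral_congr_ae (Filter.Eventually.of_forall fun z => ?_)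
  change g z * (starRingEnd ℂ) (eval z P * (expo (cj ζ)).1 z) * (gw z : ℂ)
    = g z * (gw z : ℂ) * ((starRingEnd ℂ) (eval z P) * (expo (cj z)).1 ζ)
  rw [map_mul, conj_expo]
  ring

lemma sq_le' {n : ℕ} (z : Fin n → ℂ) : Pool.Agent.H60.FB.sq z ≤ n * ‖z‖ ^ 2 := by
  unfold Pool.Agent.H60.FB.sq
  calc ∑ j, ‖z j‖ ^ 2 ≤ ∑ _j : Fin n, ‖z‖ ^ 2 :=
        Finset.sum_le_sum fun j _ => pow_le_pow_left₀ (norm_nonneg _) (norm_le_pi_norm z j) 2
    _ = n * ‖z‖ ^ 2 := by simp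

theorem fock_solve {n : ℕ} (P : MvPolynomial (Fin n) ℂ) (hP : P ≠ 0) (B₀ : ℝ) :
    ∃ c : ℝ, 0 < c ∧ ∀ (g : (Fin n → ℂ) → ℂ) (A : ℝ), Differentiable ℂ g →
      (∀ z, ‖g z‖ ≤ A * Real.exp (B₀ * ‖z‖)) →
      ∃ h : (Fin n → ℂ) → ℂ, Differentiable ℂ h ∧ (∀ z, TT P h z = g z) ∧
        ∀ z, ‖h z‖ ≤ c * A * Real.exp (Pool.Agent.H60.FB.sq z / 2) := by
  obtain ⟨c₀, hc₀, hcoer⟩ := coercive hP
  have hgc := gc_pos n
  -- the Gaussian norm of the exponential
  set I₀ : ℝ := ∫ z : Fin n → ℂ, Real.exp (2 * B₀ * ‖z‖) * gw z with hI₀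
  have hI₀0 : 0 ≤ I₀ := integral_nonneg fun z => mul_nonneg (Real.exp_pos _).le (gw_pos z).le
  refine ⟨√(I₀ + 1) / (c₀ * √(gc n)), by positivity, fun g A hg hgA => ?_⟩
  have hA : 0 ≤ A := by
    have h1 := (norm_nonneg _).trans (hgA 0)
    rw [norm_zero, mul_zero, Real.exp_zero, mul_one] at h1
    exact h1
  have hgT : g ∈ ExpT n := by
    refine ⟨hg, A + 1, by positivity, |B₀| + 1, by positivity, fun z => ?_⟩
    refine (hgA z).trans ?_
    have h1 : Real.exp (B₀ * ‖z‖) ≤ Real.exp ((|B₀| + 1) * ‖z‖) := by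
      apply Real.exp_le_exp.2
      have h2 := norm_nonneg z
      have h3 := le_abs_self B₀
      nlinarith
    exact mul_le_mul (by linarith) h1 (Real.exp_pos _).le (by positivity)
  have hgn : gn g ≤ A ^ 2 * I₀ := by
    rw [hI₀, ← integral_const_mul]
    unfold gn
    refine integral_mono (gn_int hgT) ((integrable_gw (2 * B₀)).const_mul _) fun z => ?_
    change ‖g z‖ ^ 2 * gw z ≤ A ^ 2 * (Real.exp (2 * B₀ * ‖z‖) * gw z)
    rw [← mul_assoc]
    refine mul_le_mul_of_nonneg_right ?_ (gw_pos z).le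
    calc ‖g z‖ ^ 2 ≤ (A * Real.exp (B₀ * ‖z‖)) ^ 2 := pow_le_pow_left₀ (norm_nonneg _) (hgA z) 2
      _ = A ^ 2 * (Real.exp (B₀ * ‖z‖) * Real.exp (B₀ * ‖z‖)) := by ring
      _ = _ := by rw [← Real.exp_add]; ring_nf
  set Gn : ℝ := A * √(I₀ + 1) with hGn
  have hGn0 : 0 ≤ Gn := by positivity
  have hGnsq : gn g ≤ Gn ^ 2 := by
    rw [hGn, mul_pow, Real.sq_sqrt (by linarith)]
    nlinarith [sq_nonneg A]
  set K : ℝ := Gn / √c₀ with hK
  have hK0 : 0 ≤ K := by positivity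
  have hKsq : K ^ 2 = Gn ^ 2 / c₀ := by
    rw [hK, div_pow, Real.sq_sqrt hc₀.le]
  -- the quadratic functional
  set Pm : ExpT n → ((Fin n → ℂ) → ℂ) := fun v z => eval z P * v.1 z with hPm
  have hPmem : ∀ v : ExpT n, Pm v ∈ ExpT n := fun v => (mulExp P v).2
  have hmin : ∀ k : ℕ, ∃ v : ExpT n, ∀ w : ExpT n,
      ‖gb (Pm v) (Pm w) - gb g w.1‖ ^ 2 ≤ (1 / ((k : ℝ) + 1)) ^ 2 * gn (Pm w) := by
    intro k
    refine minim (X := ExpT n) (fun u v => gb (Pm u) (Pm v)) (fun v => gb g v.1)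
      (fun v => gn (Pm v)) (fun u => gb_self) (fun u => gn_nonneg _) ?_ ?_ ?_ (K := K) ?_
      (by positivity)
    · intro u v w t
      have e : Pm (u + t • v) = fun z => Pm u z + t * Pm v z := by
        funext z
        change eval z P * (u.1 z + t * v.1 z) = eval z P * u.1 z + t * (eval z P * v.1 z)
        ring
      rw [e, gb_add_smul (hPmem u) (hPmem v) (hPmem w)]
    · intro u v
      exact gb_conj _ _
    · intro u v t
      have e : (u + t • v).1 = fun z => u.1 z + t * v.1 z := rfl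
      rw [e, ← gb_conj, gb_add_smul u.2 v.2 hgT, map_add, map_mul, gb_conj, gb_conj]
    · intro u
      refine (gb_cs hgT u.2).trans ?_
      rw [hKsq, div_mul_eq_mul_div, le_div_iff₀ hc₀]
      have h1 := hcoer u.1 u.2
      have h2 := gn_nonneg u.1
      calc gn g * gn u.1 * c₀ = gn g * (c₀ * gn u.1) := by ring
        _ ≤ Gn ^ 2 * gn (Pm u) := mul_le_mul hGnsq h1 (by positivity) (by positivity)
  choose v hv using hmin
  -- the norm
  set N : ExpT n → ℝ := fun w => √(gn (Pm w)) with hN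
  have hN0 : ∀ w, 0 ≤ N w := fun w => Real.sqrt_nonneg _
  have hNsq : ∀ w, N w ^ 2 = gn (Pm w) := fun w => Real.sq_sqrt (gn_nonneg _)
  have hres : ∀ k w, ‖gb (Pm (v k)) (Pm w) - gb g w.1‖ ≤ 1 / ((k : ℝ) + 1) * N w := by
    intro k w
    have h1 := hv k w
    rw [← hNsq, ← mul_pow] at h1
    exact le_of_sq_le_sq h1 (by have := hN0 w; positivity)
  have hcanc : ∀ x a : ℝ, 0 ≤ x → x ^ 2 ≤ a * x → 0 ≤ a → x ≤ a := by
    intro x a hx h ha
    by_contra hcon
    push Not at hcon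
    nlinarith
  have hdiff : ∀ k l, N (v k - v l) ≤ 1 / ((k : ℝ) + 1) + 1 / ((l : ℝ) + 1) := by
    intro k l
    refine hcanc _ _ (hN0 _) ?_ (by positivity)
    have e : Pm (v k - v l) = fun z => Pm (v k) z + (-1) * Pm (v l) z := by
      funext z
      change eval z P * ((v k).1 z - (v l).1 z) = _
      change _ = eval z P * (v k).1 z + (-1) * (eval z P * (v l).1 z)
      ring
    have h1 : ((N (v k - v l) ^ 2 : ℝ) : ℂ)
        = (gb (Pm (v k)) (Pm (v k - v l)) - gb g (v k - v l).1)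
          - (gb (Pm (v l)) (Pm (v k - v l)) - gb g (v k - v l).1) := by
      rw [hNsq, ← gb_self]
      conv_lhs => rw [e]
      rw [gb_add_smul (hPmem _) (hPmem _) (by rw [← e]; exact hPmem _), ← e]
      ring
    have h2 : ‖((N (v k - v l) ^ 2 : ℝ) : ℂ)‖ = N (v k - v l) ^ 2 := by
      rw [Complex.norm_real, Real.norm_of_nonneg (sq_nonneg _)]
    rw [← h2, h1, add_mul]
    exact (norm_sub_le _ _).trans (add_le_add (hres k _) (hres l _))
  have hbd : ∀ k, N (v k) ≤ K + 1 / ((k : ℝ) + 1) := by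
    intro k
    refine hcanc _ _ (hN0 _) ?_ (by positivity)
    have h1 : ((N (v k) ^ 2 : ℝ) : ℂ)
        = gb g (v k).1 + (gb (Pm (v k)) (Pm (v k)) - gb g (v k).1) := by
      rw [hNsq, ← gb_self]
      ring
    have h2 : ‖((N (v k) ^ 2 : ℝ) : ℂ)‖ = N (v k) ^ 2 := by
      rw [Complex.norm_real, Real.norm_of_nonneg (sq_nonneg _)]
    have h3 : ‖gb g (v k).1‖ ≤ K * N (v k) := by
      refine le_of_sq_le_sq ?_ (by have := hN0 (v k); positivity)
      rw [mul_pow, hNsq, hKsq, div_mul_eq_mul_div, le_div_iff₀ hc₀]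
      have h4 := hcoer (v k).1 (v k).2
      have h5 := gn_nonneg (v k).1
      have h6 := gb_cs hgT (v k).2
      calc ‖gb g (v k).1‖ ^ 2 * c₀ ≤ gn g * gn (v k).1 * c₀ :=
            mul_le_mul_of_nonneg_right h6 hc₀.le
        _ = gn g * (c₀ * gn (v k).1) := by ring
        _ ≤ Gn ^ 2 * gn (Pm (v k)) := mul_le_mul hGnsq h4 (by positivity) (by positivity)
    rw [← h2, h1, add_mul]
    exact (norm_add_le _ _).trans (add_le_add h3 (hres k _))
  -- pointwise bounds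
  set c' : ℝ := 1 / (√c₀ * √(gc n)) with hc'
  have hc'0 : 0 < c' := by positivity
  have hpt : ∀ (w : ExpT n) z, ‖w.1 z‖ ≤ c' * Real.exp (Pool.Agent.H60.FB.sq z / 2) * N w := by
    intro w z
    refine le_of_sq_le_sq ?_ (by have := hN0 w; positivity)
    have h1 := point_bound w.2 z
    have h2 := hcoer w.1 w.2
    have h3 : Real.exp (Pool.Agent.H60.FB.sq z / 2) ^ 2 = Real.exp (Pool.Agent.H60.FB.sq z) := by
      rw [← Real.exp_nat_mul]; congr 1; push_cast; ring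
    rw [mul_pow, mul_pow, h3, hNsq, hc', div_pow, mul_pow, Real.sq_sqrt hc₀.le,
      Real.sq_sqrt hgc.le, one_pow]
    rw [one_div, mul_assoc, inv_mul_eq_div, le_div_iff₀ (by positivity)]
    calc ‖w.1 z‖ ^ 2 * (c₀ * gc n) = c₀ * (‖w.1 z‖ ^ 2 * gc n) := by ring
      _ ≤ c₀ * (Real.exp (Pool.Agent.H60.FB.sq z) * gn w.1) := mul_le_mul_of_nonneg_left h1 hc₀.le
      _ = Real.exp (Pool.Agent.H60.FB.sq z) * (c₀ * gn w.1) := by ring
      _ ≤ _ := mul_le_mul_of_nonneg_left h2 (Real.exp_pos _).le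
  have hptd : ∀ k l z, ‖(v k).1 z - (v l).1 z‖
      ≤ c' * Real.exp (Pool.Agent.H60.FB.sq z / 2) * (1 / ((k : ℝ) + 1) + 1 / ((l : ℝ) + 1)) := by
    intro k l z
    exact (hpt (v k - v l) z).trans (mul_le_mul_of_nonneg_left (hdiff k l) (by positivity))
  have h10 : Tendsto (fun k : ℕ => 1 / ((k : ℝ) + 1)) atTop (𝓝 0) :=
    tendsto_one_div_add_atTop_nhds_zero_nat
  have hcau : ∀ z, ∃ y, Tendsto (fun k => (v k).1 z) atTop (𝓝 y) := by
    intro z
    apply cauchySeq_tendsto_of_complete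
    rw [Metric.cauchySeq_iff']
    intro δ hδ
    set e := c' * Real.exp (Pool.Agent.H60.FB.sq z / 2) with he
    have he0 : 0 < e := by positivity
    obtain ⟨M, hM⟩ := (Metric.tendsto_atTop.1 h10) (δ / (2 * e)) (by positivity)
    refine ⟨M, fun k hk => ?_⟩
    rw [dist_eq_norm]
    have h1 := hM k hk
    have h2 := hM M le_rfl
    rw [Real.dist_0_eq_abs, abs_of_pos (by positivity)] at h1 h2
    have h3 := hptd k M z
    have h4 : e * (1 / ((k : ℝ) + 1) + 1 / ((M : ℝ) + 1)) < e * (δ / (2 * e) + δ / (2 * e)) :=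
      mul_lt_mul_of_pos_left (by linarith) he0
    have h5 : e * (δ / (2 * e) + δ / (2 * e)) = δ := by field_simp; ring
    linarith
  choose h hh using hcau
  have hclose : ∀ k z, ‖(v k).1 z - h z‖
      ≤ c' * Real.exp (Pool.Agent.H60.FB.sq z / 2) * (1 / ((k : ℝ) + 1)) := by
    intro k z
    have h1 : Tendsto (fun l => ‖(v k).1 z - (v l).1 z‖) atTop (𝓝 ‖(v k).1 z - h z‖) :=
      ((hh z).const_sub _).norm
    have h2 : Tendsto (fun l : ℕ => c' * Real.exp (Pool.Agent.H60.FB.sq z / 2)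
        * (1 / ((k : ℝ) + 1) + 1 / ((l : ℝ) + 1))) atTop
        (𝓝 (c' * Real.exp (Pool.Agent.H60.FB.sq z / 2) * (1 / ((k : ℝ) + 1) + 0))) :=
      (h10.const_add _).const_mul _
    rw [add_zero] at h2
    exact le_of_tendsto_of_tendsto' h1 h2 fun l => hptd k l z
  have hcloseR : ∀ R : ℝ, 0 ≤ R → ∀ k z, ‖z‖ ≤ R → ‖(v k).1 z - h z‖
      ≤ c' * Real.exp (n * R ^ 2 / 2) * (1 / ((k : ℝ) + 1)) := by
    intro R hR k z hz
    refine (hclose k z).trans ?_
    have h1 := sq_le' z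
    have h2 : ‖z‖ ^ 2 ≤ R ^ 2 := pow_le_pow_left₀ (norm_nonneg _) hz 2
    have h3 : (n : ℝ) * ‖z‖ ^ 2 ≤ n * R ^ 2 := mul_le_mul_of_nonneg_left h2 (by positivity)
    have h4 : Real.exp (Pool.Agent.H60.FB.sq z / 2) ≤ Real.exp (n * R ^ 2 / 2) :=
      Real.exp_le_exp.2 (by linarith)
    gcongr
  have hhd : Differentiable ℂ h := by
    refine entire_lim (f := fun k => (v k).1) (fun k => (v k).2.1) fun R => ?_
    refine ⟨c' * Real.exp (n * (|R|) ^ 2 / 2), fun k z hz => ?_⟩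
    refine (hcloseR |R| (abs_nonneg R) k z (hz.trans (le_abs_self R))).trans (le_of_eq ?_)
    rw [mul_one_div]
  refine ⟨h, hhd, fun ζ => ?_, fun z => ?_⟩
  · -- the equation
    set w : ExpT n := ⟨(expo (cj ζ)).1, expo_memT _⟩ with hw
    have hPh : Differentiable ℂ (fun z => eval z P * h z) := (differentiable_eval P).mul hhd
    have h1 : TT P h ζ = (QDE (star' P) ⟨fun z => eval z P * h z, hPh⟩).1 ζ := by
      rw [QDE_eq]; rfl
    -- the values for `v k`
    have h2 : ∀ k, (QDE (star' P) ⟨Pm (v k), (hPmem (v k)).1⟩).1 ζ * gc n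
        = gb (Pm (v k)) (Pm w) := fun k => (gb_QDE P (hPmem (v k)) ζ).symm
    have h3 : gb g w.1 = g ζ * gc n := gb_expo hgT ζ
    have h4 : Tendsto (fun k => (QDE (star' P) ⟨Pm (v k), (hPmem (v k)).1⟩).1 ζ * gc n) atTop
        (𝓝 (g ζ * gc n)) := by
      rw [tendsto_iff_norm_sub_tendsto_zero]
      refine squeeze_zero (fun _ => norm_nonneg _) (fun k => ?_)
        (g := fun k : ℕ => 1 / ((k : ℝ) + 1) * N w) ?_
      · rw [h2, ← h3]
        exact hres k w
      · simpa using h10.mul_const (N w)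
    have hgc' : (gc n : ℂ) ≠ 0 := by exact_mod_cast hgc.ne'
    have h5 : Tendsto (fun k => (QDE (star' P) ⟨Pm (v k), (hPmem (v k)).1⟩).1 ζ) atTop
        (𝓝 (g ζ)) := by
      have := h4.mul_const ((gc n : ℂ)⁻¹)
      simpa [mul_assoc, mul_inv_cancel₀ hgc'] using this
    have h6 : Tendsto (fun k => (QDE (star' P) ⟨Pm (v k), (hPmem (v k)).1⟩).1 ζ) atTop
        (𝓝 ((QDE (star' P) ⟨fun z => eval z P * h z, hPh⟩).1 ζ)) := by
      obtain ⟨CP, hCP, BP, hBP, hPb⟩ := eval_bound P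
      set R : ℝ := ‖ζ‖ + (star' P).totalDegree with hR
      have hR0 : 0 ≤ R := by positivity
      set S : ℝ := ∑ s ∈ (star' P).support, ‖(star' P).coeff s‖ with hS
      rw [tendsto_iff_norm_sub_tendsto_zero]
      refine squeeze_zero (fun _ => norm_nonneg _) (fun k => ?_)
        (g := fun k : ℕ => S * ((CP * Real.exp (BP * R))
          * (c' * Real.exp (n * R ^ 2 / 2) * (1 / ((k : ℝ) + 1))))) ?_
      · have e1 : (QDE (star' P) ⟨Pm (v k), (hPmem (v k)).1⟩).1 ζ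
            - (QDE (star' P) ⟨fun z => eval z P * h z, hPh⟩).1 ζ
            = (QDE (star' P) (⟨Pm (v k), (hPmem (v k)).1⟩ - ⟨fun z => eval z P * h z, hPh⟩)).1 ζ := by
          rw [map_sub]; rfl
        rw [e1]
        refine QDE_bound (star' P) _ ‖ζ‖ _ (fun z hz => ?_) ζ le_rfl
        change ‖eval z P * (v k).1 z - eval z P * h z‖ ≤ _
        rw [← mul_sub, norm_mul]
        refine mul_le_mul ((hPb z).trans ?_) (hcloseR R hR0 k z hz) (norm_nonneg _) (by positivity)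
        gcongr
      · have e2 := ((h10.const_mul (c' * Real.exp (n * R ^ 2 / 2))).const_mul
          (CP * Real.exp (BP * R))).const_mul S
        simpa only [mul_zero] using e2
    rw [h1]
    exact tendsto_nhds_unique h6 h5
  · -- the bound
    have h1 : ∀ k, ‖(v k).1 z‖ ≤ c' * Real.exp (Pool.Agent.H60.FB.sq z / 2)
        * (K + 1 / ((k : ℝ) + 1)) := fun k =>
      (hpt (v k) z).trans (mul_le_mul_of_nonneg_left (hbd k) (by positivity))
    have h2 : Tendsto (fun k : ℕ => c' * Real.exp (Pool.Agent.H60.FB.sq z / 2)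
        * (K + 1 / ((k : ℝ) + 1))) atTop
        (𝓝 (c' * Real.exp (Pool.Agent.H60.FB.sq z / 2) * (K + 0))) :=
      (h10.const_add _).const_mul _
    rw [add_zero] at h2
    have h3 := le_of_tendsto_of_tendsto' (hh z).norm h2 h1
    refine h3.trans (le_of_eq ?_)
    rw [hc', hK, hGn]
    have h4 : √c₀ * √c₀ = c₀ := Real.mul_self_sqrt hc₀.le
    have h5 : √c₀ ≠ 0 := by positivity
    have h6 : √(gc n) ≠ 0 := by positivity
    have h8 : 1 / (√c₀ * √(gc n)) * Real.exp (Pool.Agent.H60.FB.sq z / 2)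
        * (A * √(I₀ + 1) / √c₀)
        = √(I₀ + 1) / ((√c₀ * √c₀) * √(gc n)) * A * Real.exp (Pool.Agent.H60.FB.sq z / 2) := by
      field_simp
    rw [h8, h4]

end Pool.Agent.H77.N2
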