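import Pool.Agent.H77.N2.Main
import Pool.Agent.H77.N2.Fock
import Pool.Agent.H37.FB.Borel

/-!
From the weights to the surjectivity of `Φ_P`.
-/

open MvPolynomial Filter Topology MeasureTheory Pool.Agent.H77.FB Pool.Agent.H60.FB

namespace Pool.Agent.H77.N2

variable {n : ℕ}

lemma star_star (P : MvPolynomial (Fin n) ℂ) : star' (star' P) = P := by
  refine MvPolynomial.funext fun z => ?_
  rw [eval_star', eval_star', cj_cj, Complex.conj_conj]

/-- The Fourier-Borel transform of `P T`. -/
lemma borel_mul {T : Ent n →ₗ[ℂ] ℂ} (hT : IsAF T) (P : MvPolynomial (Fin n) ℂ)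
    (w : Fin n → ℂ) :
    T (mulEnt P (expo w)) = (QDE P ⟨fun z => T (expo z), (borel_mem hT).1⟩).1 w := by
  have hgc : (gc n : ℂ) ≠ 0 := by exact_mod_cast (gc_pos n).ne'
  have hf : (fun z : Fin n → ℂ => eval z P * (expo w).1 z) ∈ ExpT n := by
    obtain ⟨C, hC, B, hB, h⟩ := eval_bound P
    refine ⟨(differentiable_eval P).mul (expo w).2, C, hC, B + n * ‖w‖, by positivity,
      fun z => ?_⟩
    have h1 := Pool.Agent.H77.FB.norm_expo_le w z
    rw [norm_mul]
    calc ‖eval z P‖ * ‖(expo w).1 z‖
        ≤ (C * Real.exp (B * ‖z‖)) * Real.exp (n * ‖z‖ * ‖w‖) :=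
          mul_le_mul (h z) h1 (norm_nonneg _) (by positivity)
      _ = C * (Real.exp (B * ‖z‖) * Real.exp (n * ‖z‖ * ‖w‖)) := by ring
      _ = _ := by rw [← Real.exp_add]; ring_nf
  have h1 := gauss_functional hT hf
  have h2 := QDE_gauss (star' P) (borel_mem hT) w
  rw [star_star] at h2
  have h3 : ∫ z : Fin n → ℂ, (eval z P * (expo w).1 z * (gw z : ℂ)) * T (expo (cj z))
      = ∫ z : Fin n → ℂ, (T (expo z) * (gw z : ℂ)) *
        ((starRingEnd ℂ) (eval z (star' P)) * (expo (cj z)).1 w) := by
    have hc : Continuous (fun z : Fin n → ℂ => (T (expo z) * (gw z : ℂ)) *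
        ((starRingEnd ℂ) (eval z (star' P)) * (expo (cj z)).1 w)) := by
      have e1 : Continuous (fun z : Fin n → ℂ => T (expo z)) :=
        (Differentiable.continuous (borel_mem hT).1)
      have e2 : Continuous (fun z : Fin n → ℂ => (gw z : ℂ)) :=
        Complex.continuous_ofReal.comp continuous_gw
      have e3 : Continuous (fun z : Fin n → ℂ => (starRingEnd ℂ) (eval z (star' P))) :=
        Complex.continuous_conj.comp (differentiable_eval (star' P)).continuous
      have e4 : Continuous (fun z : Fin n → ℂ => (expo (cj z)).1 w) := by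
        change Continuous (fun z : Fin n → ℂ => Complex.exp (∑ j, w j * (starRingEnd ℂ) (z j)))
        fun_prop
      exact (e1.mul e2).mul (e3.mul e4)
    rw [← integral_cj hc]
    refine integral_congr_ae (Eventually.of_forall fun z => ?_)
    have hsym : (expo z).1 w = (expo w).1 z := by
      change Complex.exp (∑ j, w j * z j) = Complex.exp (∑ j, z j * w j)
      congr 1
      exact Finset.sum_congr rfl fun j _ => mul_comm _ _
    simp only [cj_cj, gw_cj]
    rw [eval_star', cj_cj, Complex.conj_conj, hsym]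
    ring
  have h4 : T ⟨fun z : Fin n → ℂ => eval z P * (expo w).1 z, hf.1⟩ * gc n
      = (QDE P ⟨fun z => T (expo z), (borel_mem hT).1⟩).1 w * gc n := by
    rw [← h1, h3, ← h2]
  exact mul_right_cancel₀ hgc h4

/-- The surjectivity from the weights of `P*`. -/
theorem phiSurj_of_weights (P : MvPolynomial (Fin n) ℂ) (hP : P ≠ 0)
    (h : ∃ (Φ : ℝ → ℝ → (Fin n → ℂ) → ℝ) (B₁ : ℝ), Weights (star' P) Φ B₁) :
    PhiSurjective P := by
  obtain ⟨Φ, B₁, hW⟩ := h
  intro s hs
  obtain ⟨hsd, C, hC, B, hB, hsb⟩ := hs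
  -- the right side
  set S₁ : Ent n := ⟨s, hsd⟩ with hS₁
  set r : Ent n := QDE P S₁ with hr
  set A : ℝ := (∑ s ∈ P.support, ‖P.coeff s‖) * (C * Real.exp (B * P.totalDegree)) with hA
  have hrb : ∀ z, ‖r.1 z‖ ≤ A * Real.exp (B * ‖z‖) := by
    intro z
    have h1 := QDE_bound P S₁ ‖z‖ (C * Real.exp (B * (‖z‖ + P.totalDegree))) (fun w hw => by
      refine (hsb w).trans ?_
      gcongr) z le_rfl
    refine h1.trans (le_of_eq ?_)
    rw [hA, mul_add, Real.exp_add]
    ring
  have hstar : star' P ≠ 0 := by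
    intro h0
    apply hP
    rw [← star_star P, h0]
    refine MvPolynomial.funext fun z => ?_
    rw [eval_star']
    simp
  obtain ⟨c, hc, hF⟩ := fock_solve (star' P) hstar B
  obtain ⟨g, hg, hTg, hgb⟩ := hF r.1 A r.2 hrb
  obtain ⟨B', C', hmain⟩ := main_est hW B c hc
  have hgexp := hmain g A hg hgb (fun z => by rw [hTg]; exact hrb z)
  have hgE : ExpType g := by
    refine ⟨hg, |C' * A| + 1, by positivity, |B'| + 1, by positivity, fun z => ?_⟩
    refine (hgexp z).trans ?_
    have e1 : C' * A ≤ |C' * A| + 1 := (le_abs_self _).trans (by linarith)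
    have e2 : B' * ‖z‖ ≤ (|B'| + 1) * ‖z‖ :=
      mul_le_mul_of_nonneg_right ((le_abs_self _).trans (by linarith)) (norm_nonneg _)
    exact mul_le_mul e1 (Real.exp_le_exp.2 e2) (Real.exp_pos _).le (by positivity)
  -- the remainder
  set G : Ent n := ⟨g, hg⟩ with hG
  have hu : ExpType (fun z => s z - eval z (star' P) * g z) := by
    obtain ⟨-, C₂, hC₂, B₂, hB₂, h2⟩ := hgE
    have hm : (fun z => eval z (star' P) * g z) ∈ ExpT n :=
      (mulExp (star' P) ⟨g, hg, C₂, hC₂, B₂, hB₂, h2⟩).2
    have hs' : s ∈ ExpT n := ⟨hsd, C, hC, B, hB, hsb⟩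
    exact (ExpT n).sub_mem hs' hm
  obtain ⟨T, hT, hTu⟩ := Pool.Agent.H60.FB.borel_repr hu
  have hTAF := bund_isAF hT
  refine ⟨T, g, hT, ?_, hgE, fun z => ?_⟩
  · intro f hf
    have h0 : (bund hT).comp (mulEnt P) = 0 := by
      have hAF : IsAF ((bund hT).comp (mulEnt P)) := by
        obtain ⟨R, K, hK⟩ := hTAF
        obtain ⟨M, hM⟩ := (isCompact_closedBall (0 : Fin n → ℂ) R).exists_bound_of_continuousOn
          (f := fun z => eval z P) (differentiable_eval P).continuous.continuousOn
        refine ⟨R, K * max M 0, fun f A hA => ?_⟩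
        rw [mul_assoc]
        refine hK (mulEnt P f) _ fun z hz => ?_
        change ‖eval z P * f.1 z‖ ≤ _
        rw [norm_mul]
        exact mul_le_mul ((hM z (by simpa using hz)).trans (le_max_left _ _)) (hA z hz)
          (norm_nonneg _) (le_max_right _ _)
      refine eq_zero_of_borel hAF fun w => ?_
      change (bund hT) (mulEnt P (expo w)) = 0
      rw [borel_mul hTAF]
      have h1 : (⟨fun z => (bund hT) (expo z), (borel_mem hTAF).1⟩ : Ent n)
          = S₁ - mulEnt (star' P) G := by
        apply Subtype.ext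
        funext z
        exact hTu z
      rw [h1, map_sub]
      have h2 : QDE P (mulEnt (star' P) G) = r := by
        apply Subtype.ext
        funext z
        have h3 := hTg z
        unfold TT at h3
        rw [star_star] at h3
        rw [QDE_eq]
        exact h3
      rw [h2, hr, sub_self]
      rfl
    exact congrArg (fun L : Ent n →ₗ[ℂ] ℂ => L ⟨f, hf⟩) h0
  · rw [hTu]
    change s z = s z - eval z (star' P) * g z + eval z (star' P) * g z
    ring

/-- The case `P = 0`. -/
theorem phiSurj_zero : PhiSurjective (0 : MvPolynomial (Fin n) ℂ) := by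
  intro s hs
  obtain ⟨T, hT, hTs⟩ := Pool.Agent.H60.FB.borel_repr hs
  refine ⟨T, fun _ => 0, hT, ?_, ?_, fun z => ?_⟩
  · intro f hf
    have h1 := hT.2.1 0 (fun _ => 0) (differentiable_const _)
    simpa using h1
  · exact ⟨differentiable_const _, 1, one_pos, 1, one_pos, fun z => by
      rw [norm_zero]; positivity⟩
  · rw [hTs]
    simp

end Pool.Agent.H77.N2
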