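import Pool.Agent.H77.N2.Core

/-!
The main estimate of MP_6e521b_an from the weights.
-/

open MvPolynomial Filter Topology Pool.Agent.H77.FB Pool.Agent.H60.FB

namespace Pool.Agent.H77.N2

variable {n : ℕ}

/-- One term of the contradiction sequence. -/
lemma seq_term {Φ : (Fin n → ℂ) → ℝ} {c D A C₁ : ℝ}
    (hc : 0 < c) (hD : 0 < D) (hlow : ∀ z, Pool.Agent.H60.FB.sq z / 2 - C₁ ≤ Φ z)
    {h : (Fin n → ℂ) → ℂ} {a : ℝ} (ha : 0 < a)
    (hh : ∀ z, ‖h z‖ ≤ c * a * Real.exp (Pool.Agent.H60.FB.sq z / 2)) {z₀ : Fin n → ℂ}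
    (hz₀ : D * a * Real.exp A < ‖h z₀‖) (hΦ : Φ z₀ ≤ A) :
    ∃ b : Fin n → ℂ, h b ≠ 0 ∧ (∀ z, ‖h z‖ ≤ 2 * ‖h b‖ * Real.exp (Φ z - Φ b)) ∧
      D * a * Real.exp (Φ b) ≤ 2 * ‖h b‖ := by
  set u : (Fin n → ℂ) → ℝ := fun z => ‖h z‖ * Real.exp (-Φ z) with hu
  have hbdd : BddAbove (Set.range u) := by
    refine ⟨c * a * Real.exp C₁, ?_⟩
    rintro _ ⟨z, rfl⟩
    rw [hu]
    calc ‖h z‖ * Real.exp (-Φ z)
        ≤ (c * a * Real.exp (Pool.Agent.H60.FB.sq z / 2)) * Real.exp (-Φ z) :=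
          mul_le_mul_of_nonneg_right (hh z) (Real.exp_pos _).le
      _ = c * a * Real.exp (Pool.Agent.H60.FB.sq z / 2 - Φ z) := by
          rw [mul_assoc, ← Real.exp_add]; ring_nf
      _ ≤ _ := by
          apply mul_le_mul_of_nonneg_left _ (by positivity)
          exact Real.exp_le_exp.2 (by linarith [hlow z])
  have hS1 : D * a < ⨆ z, u z := by
    refine lt_of_lt_of_le ?_ (le_ciSup hbdd z₀)
    rw [hu]
    simp only
    have h1 : D * a * Real.exp A * Real.exp (-A) = D * a := by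
      rw [mul_assoc, ← Real.exp_add]; simp
    calc D * a = D * a * Real.exp A * Real.exp (-A) := h1.symm
      _ < ‖h z₀‖ * Real.exp (-A) := mul_lt_mul_of_pos_right hz₀ (Real.exp_pos _)
      _ ≤ ‖h z₀‖ * Real.exp (-Φ z₀) := by
          apply mul_le_mul_of_nonneg_left _ (norm_nonneg _)
          exact Real.exp_le_exp.2 (by linarith)
  set S := ⨆ z, u z with hS
  have hS0 : 0 < S := lt_trans (by positivity) hS1
  obtain ⟨b, hb⟩ := exists_lt_of_lt_ciSup (show S / 2 < ⨆ z, u z by rw [← hS]; linarith)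
  have hub : 0 < u b := lt_trans (by positivity) hb
  have hhb : 0 < ‖h b‖ := by
    by_contra h0
    have h1 : ‖h b‖ = 0 := le_antisymm (not_lt.1 h0) (norm_nonneg _)
    rw [hu] at hub
    simp only [h1, zero_mul, lt_self_iff_false] at hub
  refine ⟨b, norm_pos_iff.1 hhb, fun z => ?_, ?_⟩
  · have h1 : u z ≤ S := le_ciSup hbdd z
    have h2 : u z ≤ 2 * u b := by linarith
    rw [hu] at h2
    simp only at h2
    have h3 : ‖h z‖ = ‖h z‖ * Real.exp (-Φ z) * Real.exp (Φ z) := by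
      rw [mul_assoc, ← Real.exp_add]; simp
    rw [h3]
    calc ‖h z‖ * Real.exp (-Φ z) * Real.exp (Φ z)
        ≤ 2 * (‖h b‖ * Real.exp (-Φ b)) * Real.exp (Φ z) :=
          mul_le_mul_of_nonneg_right h2 (Real.exp_pos _).le
      _ = 2 * ‖h b‖ * (Real.exp (-Φ b) * Real.exp (Φ z)) := by ring
      _ = _ := by rw [← Real.exp_add]; ring_nf
  · have h1 : D * a ≤ 2 * u b := by linarith
    rw [hu] at h1
    simp only at h1
    calc D * a * Real.exp (Φ b) ≤ 2 * (‖h b‖ * Real.exp (-Φ b)) * Real.exp (Φ b) :=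
          mul_le_mul_of_nonneg_right h1 (Real.exp_pos _).le
      _ = 2 * ‖h b‖ * (Real.exp (-Φ b) * Real.exp (Φ b)) := by ring
      _ = 2 * ‖h b‖ := by rw [← Real.exp_add]; simp

theorem main_est {P : MvPolynomial (Fin n) ℂ} {Φ : ℝ → ℝ → (Fin n → ℂ) → ℝ} {B₁ : ℝ}
    (hW : Weights P Φ B₁) (B₀ c : ℝ) (hc : 0 < c) : ∃ B C : ℝ, ∀ (h : (Fin n → ℂ) → ℂ) (A : ℝ),
      Differentiable ℂ h → (∀ z, ‖h z‖ ≤ c * A * Real.exp (Pool.Agent.H60.FB.sq z / 2)) →
      (∀ z, ‖TT P h z‖ ≤ A * Real.exp (B₀ * ‖z‖)) →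
      ∀ z, ‖h z‖ ≤ C * A * Real.exp (B * ‖z‖) := by
  obtain ⟨A₀, hA₀⟩ := hW.up
  obtain ⟨B₂, hB₂⟩ := hW.lin (max B₀ 0)
  set Bk : ℕ → ℝ := fun k => max B₁ (max B₂ 1) + k with hBk
  set D : ℕ → ℝ := fun k => 2 * c * (k + 1) * Real.exp (Bk k ^ 4 / 2) with hD
  by_contra hcon
  push Not at hcon
  have hBk1 : ∀ k, B₁ ≤ Bk k := fun k => by
    have h1 := le_max_left B₁ (max B₂ 1)
    have h2 : (0 : ℝ) ≤ k := k.cast_nonneg
    simp only [hBk]
    linarith
  have hBk2 : ∀ k, B₂ ≤ Bk k := fun k => by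
    have h1 := (le_max_left B₂ 1).trans (le_max_right B₁ (max B₂ 1))
    have h2 : (0 : ℝ) ≤ k := k.cast_nonneg
    simp only [hBk]
    linarith
  have hBk3 : ∀ k, 1 ≤ Bk k := fun k => by
    have h1 := (le_max_right B₂ 1).trans (le_max_right B₁ (max B₂ 1))
    have h2 : (0 : ℝ) ≤ k := k.cast_nonneg
    simp only [hBk]
    linarith
  have hDpos : ∀ k, 0 < D k := fun k => by
    simp only [hD]
    positivity
  have key : ∀ k : ℕ, ∃ (K : ℝ) (h : (Fin n → ℂ) → ℂ) (a : ℝ) (b : Fin n → ℂ), 1 ≤ K ∧ 0 < a ∧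
      Differentiable ℂ h ∧ (∀ z, ‖TT P h z‖ ≤ a * Real.exp (B₀ * ‖z‖)) ∧ h b ≠ 0 ∧
      (∀ z, ‖h z‖ ≤ 2 * ‖h b‖ * Real.exp (Φ (Bk k) K z - Φ (Bk k) K b)) ∧
      D k * a * Real.exp (Φ (Bk k) K b) ≤ 2 * ‖h b‖ ∧ Bk k ^ 2 ≤ nrm b := by
    intro k
    obtain ⟨h, A, hd, hh, hT, z₀, hz₀⟩ := hcon (A₀ * Bk k) (D k * Real.exp (A₀ * Bk k))
    have hA : 0 ≤ A := by
      have h1 := (norm_nonneg _).trans (hT 0)
      have h2 := Real.exp_pos (B₀ * ‖(0 : Fin n → ℂ)‖)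
      nlinarith [h1, h2]
    have hA' : 0 < A := by
      rcases hA.eq_or_lt with h0 | h0
      · exfalso
        have h1 := hh z₀
        rw [← h0] at hz₀ h1
        simp only [mul_zero, zero_mul] at hz₀ h1
        linarith
      · exact h0
    have hz₁ : D k * A * Real.exp (A₀ * Bk k * (‖z₀‖ + 1)) < ‖h z₀‖ := by
      have h1 : D k * A * Real.exp (A₀ * Bk k * (‖z₀‖ + 1))
          = D k * Real.exp (A₀ * Bk k) * A * Real.exp (A₀ * Bk k * ‖z₀‖) := by
        rw [mul_add, mul_one, Real.exp_add]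
        ring
      rw [h1]
      exact hz₀
    obtain ⟨K, hK, hK1⟩ := ((hA₀ (Bk k) (hBk1 k) z₀).and (eventually_ge_atTop 1)).exists
    obtain ⟨C₁, hC₁⟩ := hW.low (Bk k) (hBk1 k) K hK1
    have hpos : ∀ z, 0 ≤ Φ (Bk k) K z := fun z =>
      le_trans (by positivity) (hB₂ (Bk k) (hBk2 k) K hK1 z)
    obtain ⟨b, hb0, hb1, hb2⟩ := seq_term hc (hDpos k) hC₁ hA' hh hz₁ hK
    refine ⟨K, h, A, b, hK1, hA', hd, hT, hb0, hb1, hb2, ?_⟩
    -- `b` is far out
    have h1 : D k * A ≤ 2 * (c * A * Real.exp (Pool.Agent.H60.FB.sq b / 2)) := by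
      have h2 : D k * A * 1 ≤ D k * A * Real.exp (Φ (Bk k) K b) := by
        apply mul_le_mul_of_nonneg_left _ (mul_pos (hDpos k) hA').le
        exact Real.one_le_exp (hpos b)
      have h3 := hh b
      linarith
    have h2 : Real.exp (Bk k ^ 4 / 2) ≤ Real.exp (Pool.Agent.H60.FB.sq b / 2) := by
      have h3 : 2 * c * A * ((k + 1) * Real.exp (Bk k ^ 4 / 2))
          ≤ 2 * c * A * Real.exp (Pool.Agent.H60.FB.sq b / 2) := by
        simp only [hD] at h1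
        linarith
      have h4 := le_of_mul_le_mul_left h3 (by positivity)
      refine le_trans ?_ h4
      have h5 : (0 : ℝ) ≤ k := k.cast_nonneg
      nlinarith [Real.exp_pos (Bk k ^ 4 / 2)]
    have h3 := Real.exp_le_exp.1 h2
    rw [nrm]
    apply Real.le_sqrt_of_sq_le
    linarith [show (Bk k ^ 2) ^ 2 = Bk k ^ 4 by ring]
  choose K h a b hK ha hd hT hb0 hb1 hb2 hbn using key
  set 𝒰 : Ultrafilter ℕ := hyperfilter ℕ with h𝒰
  have hU : (𝒰 : Filter ℕ) ≤ atTop := Nat.hyperfilter_le_atTop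
  have hBt : Tendsto Bk 𝒰 atTop := by
    refine Tendsto.mono_left ?_ hU
    exact tendsto_atTop_add_const_left _ _ tendsto_natCast_atTop_atTop
  obtain ⟨Y, hY, hgood⟩ := hW.good 𝒰 hU Bk K b hBt hK hbn
  refine core 𝒰 b Y hgood h hd hb0 (fun R => ?_) (fun z => ?_)
  · obtain ⟨C, hC⟩ := hY R
    refine ⟨2 * Real.exp C, hC.mono fun k hk w hw => ?_⟩
    have h1 := hb1 k (b k + w)
    have h2 := hk w hw
    calc ‖h k (b k + w)‖ * Real.exp (-(dt (Y k) w).re)
        ≤ 2 * ‖h k (b k)‖ * Real.exp (Φ (Bk k) (K k) (b k + w) - Φ (Bk k) (K k) (b k))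
            * Real.exp (-(dt (Y k) w).re) := mul_le_mul_of_nonneg_right h1 (Real.exp_pos _).le
      _ = 2 * ‖h k (b k)‖ * Real.exp (Φ (Bk k) (K k) (b k + w) - Φ (Bk k) (K k) (b k)
            + -(dt (Y k) w).re) := by rw [mul_assoc, ← Real.exp_add]
      _ ≤ 2 * ‖h k (b k)‖ * Real.exp C := by
          apply mul_le_mul_of_nonneg_left _ (by positivity)
          exact Real.exp_le_exp.2 (by linarith)
      _ = _ := by ring
  · obtain ⟨C, hC⟩ := hY ‖z‖
    have hlim : Tendsto (fun k : ℕ => 2 / D k * Real.exp C) 𝒰 (𝓝 0) := by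
      refine Tendsto.mono_left ?_ hU
      have h1 : Tendsto (fun k : ℕ => (k : ℝ) * (2 * c)) atTop atTop :=
        tendsto_natCast_atTop_atTop.atTop_mul_const (by positivity)
      have h2 : Tendsto D atTop atTop := by
        refine tendsto_atTop_mono (fun k => ?_) h1
        simp only [hD]
        have h3 : (0 : ℝ) ≤ k := k.cast_nonneg
        have h4 : 1 ≤ Real.exp (Bk k ^ 4 / 2) := Real.one_le_exp (by positivity)
        calc (k : ℝ) * (2 * c) ≤ 2 * c * (k + 1) * 1 := by nlinarith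
          _ ≤ _ := by gcongr
      have h3 : Tendsto (fun k => 2 / D k) atTop (𝓝 0) := h2.const_div_atTop 2
      simpa using h3.mul_const (Real.exp C)
    refine squeeze_zero' (Eventually.of_forall fun k => by positivity) ?_ hlim
    filter_upwards [hC] with k hk
    have h1 := hk z le_rfl
    have h2 : B₀ * ‖b k + z‖ ≤ Φ (Bk k) (K k) (b k + z) := by
      refine le_trans ?_ (hB₂ (Bk k) (hBk2 k) (K k) (hK k) _)
      exact mul_le_mul_of_nonneg_right (le_max_left _ _) (norm_nonneg _)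
    have hbp : 0 < ‖h k (b k)‖ := norm_pos_iff.2 (hb0 k)
    rw [div_le_iff₀ hbp]
    have h3 := hb2 k
    have hDk := hDpos k
    have h4 : a k * Real.exp (Φ (Bk k) (K k) (b k)) ≤ 2 / D k * ‖h k (b k)‖ := by
      rw [div_mul_eq_mul_div, le_div_iff₀ hDk]
      linarith
    calc ‖TT P (h k) (b k + z)‖ * Real.exp (-(dt (Y k) z).re)
        ≤ a k * Real.exp (B₀ * ‖b k + z‖) * Real.exp (-(dt (Y k) z).re) :=
          mul_le_mul_of_nonneg_right (hT k _) (Real.exp_pos _).le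
      _ = a k * Real.exp (B₀ * ‖b k + z‖ + -(dt (Y k) z).re) := by
          rw [mul_assoc, ← Real.exp_add]
      _ ≤ a k * Real.exp (Φ (Bk k) (K k) (b k) + C) := by
          apply mul_le_mul_of_nonneg_left _ (ha k).le
          exact Real.exp_le_exp.2 (by linarith)
      _ = a k * Real.exp (Φ (Bk k) (K k) (b k)) * Real.exp C := by
          rw [Real.exp_add]; ring
      _ ≤ 2 / D k * ‖h k (b k)‖ * Real.exp C :=
          mul_le_mul_of_nonneg_right h4 (Real.exp_pos _).le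
      _ = _ := by ring

end Pool.Agent.H77.N2
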