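import Pool.Agent.H77.N2.Defs
import Pool.Agent.H77.N2.Theta

/-!
Auxiliary estimates for the module SEP of MP_6e521b_an (n = 2).
-/

open Finset

namespace Pool.Agent.H77.N2

/-! ### Elementary bounds for polynomials -/

/-- A constant controlling a polynomial. -/
noncomputable def sepA (D : Polynomial ℂ) : ℝ :=
  ∑ k ∈ range (D.natDegree + 1), ‖D.coeff k‖ * ((k : ℝ) + 1)

lemma sepA_nonneg (D : Polynomial ℂ) : 0 ≤ sepA D :=
  Finset.sum_nonneg fun k _ => mul_nonneg (norm_nonneg _) (by positivity)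

lemma sep_eval_le (D : Polynomial ℂ) {m : ℝ} (hm : 1 ≤ m) {q : ℂ} (hq : ‖q‖ ≤ m) :
    ‖D.eval q‖ ≤ sepA D * m ^ D.natDegree := by
  rw [Polynomial.eval_eq_sum_range, sepA, Finset.sum_mul]
  refine norm_sum_le_of_le _ fun k hk => ?_
  rw [norm_mul, norm_pow]
  have hk' : k ≤ D.natDegree := by
    have := Finset.mem_range.1 hk
    omega
  have h1 : ‖q‖ ^ k ≤ m ^ D.natDegree :=
    (pow_le_pow_left₀ (norm_nonneg _) hq k).trans (pow_le_pow_right₀ hm hk')
  have h2 : (0 : ℝ) ≤ m ^ D.natDegree := by positivity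
  have h3 : (0 : ℝ) ≤ (k : ℝ) := by positivity
  calc ‖D.coeff k‖ * ‖q‖ ^ k ≤ ‖D.coeff k‖ * m ^ D.natDegree :=
        mul_le_mul_of_nonneg_left h1 (norm_nonneg _)
    _ ≤ ‖D.coeff k‖ * ((k : ℝ) + 1) * m ^ D.natDegree := by
        apply mul_le_mul_of_nonneg_right _ h2
        nlinarith [norm_nonneg (D.coeff k)]

lemma sep_eval_lead (D : Polynomial ℂ) {m : ℝ} (hm : 1 ≤ m) {q : ℂ} (hq : ‖q‖ ≤ m) :
    ‖D.eval q - D.leadingCoeff * q ^ D.natDegree‖ * m ≤ sepA D * m ^ D.natDegree := by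
  have hm0 : 0 < m := by linarith
  have h0 : D.eval q - D.leadingCoeff * q ^ D.natDegree
      = ∑ k ∈ range D.natDegree, D.coeff k * q ^ k := by
    rw [Polynomial.eval_eq_sum_range, Finset.sum_range_succ, Polynomial.leadingCoeff]
    ring
  rw [h0]
  have h1 : ‖∑ k ∈ range D.natDegree, D.coeff k * q ^ k‖
      ≤ ∑ k ∈ range D.natDegree, ‖D.coeff k‖ * m ^ k := by
    refine norm_sum_le_of_le _ fun k _ => ?_
    rw [norm_mul, norm_pow]
    exact mul_le_mul_of_nonneg_left (pow_le_pow_left₀ (norm_nonneg _) hq k) (norm_nonneg _)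
  calc ‖∑ k ∈ range D.natDegree, D.coeff k * q ^ k‖ * m
      ≤ (∑ k ∈ range D.natDegree, ‖D.coeff k‖ * m ^ k) * m :=
        mul_le_mul_of_nonneg_right h1 hm0.le
    _ = ∑ k ∈ range D.natDegree, ‖D.coeff k‖ * m ^ (k + 1) := by
        rw [Finset.sum_mul]
        exact Finset.sum_congr rfl fun k _ => by ring
    _ ≤ ∑ k ∈ range D.natDegree, ‖D.coeff k‖ * ((k : ℝ) + 1) * m ^ D.natDegree := by
        refine Finset.sum_le_sum fun k hk => ?_
        have hk' : k + 1 ≤ D.natDegree := Finset.mem_range.1 hk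
        have h2 : (0 : ℝ) ≤ m ^ D.natDegree := by positivity
        have h3 : (0 : ℝ) ≤ (k : ℝ) := by positivity
        calc ‖D.coeff k‖ * m ^ (k + 1) ≤ ‖D.coeff k‖ * m ^ D.natDegree :=
              mul_le_mul_of_nonneg_left (pow_le_pow_right₀ hm hk') (norm_nonneg _)
          _ ≤ ‖D.coeff k‖ * ((k : ℝ) + 1) * m ^ D.natDegree := by
              apply mul_le_mul_of_nonneg_right _ h2
              nlinarith [norm_nonneg (D.coeff k)]
    _ ≤ ∑ k ∈ range (D.natDegree + 1), ‖D.coeff k‖ * ((k : ℝ) + 1) * m ^ D.natDegree := by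
        rw [Finset.sum_range_succ]
        have : 0 ≤ ‖D.coeff D.natDegree‖ * ((D.natDegree : ℝ) + 1) * m ^ D.natDegree := by
          positivity
        linarith
    _ = sepA D * m ^ D.natDegree := by rw [sepA, Finset.sum_mul]

lemma sep_pow_sub {m : ℝ} (hm : 0 ≤ m) {p p' : ℂ} (hp : ‖p‖ ≤ m) (hp' : ‖p'‖ ≤ m) (k : ℕ) :
    ‖p ^ k - p' ^ k‖ * m ≤ k * m ^ k * ‖p - p'‖ := by
  induction k with
  | zero => simp
  | succ k ih =>
    have h0 : p ^ (k + 1) - p' ^ (k + 1) = p * (p ^ k - p' ^ k) + (p - p') * p' ^ k := by ring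
    have h1 : ‖p ^ (k + 1) - p' ^ (k + 1)‖ ≤ m * ‖p ^ k - p' ^ k‖ + ‖p - p'‖ * m ^ k := by
      rw [h0]
      refine (norm_add_le _ _).trans (add_le_add ?_ ?_)
      · rw [norm_mul]
        exact mul_le_mul_of_nonneg_right hp (norm_nonneg _)
      · rw [norm_mul, norm_pow]
        exact mul_le_mul_of_nonneg_left (pow_le_pow_left₀ (norm_nonneg _) hp' k) (norm_nonneg _)
    calc ‖p ^ (k + 1) - p' ^ (k + 1)‖ * m
        ≤ (m * ‖p ^ k - p' ^ k‖ + ‖p - p'‖ * m ^ k) * m := mul_le_mul_of_nonneg_right h1 hm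
      _ = m * (‖p ^ k - p' ^ k‖ * m) + ‖p - p'‖ * m ^ (k + 1) := by ring
      _ ≤ m * (k * m ^ k * ‖p - p'‖) + ‖p - p'‖ * m ^ (k + 1) := by
          have := mul_le_mul_of_nonneg_left ih hm
          linarith
      _ = ((k + 1 : ℕ) : ℝ) * m ^ (k + 1) * ‖p - p'‖ := by push_cast; ring

lemma sep_eval_sub (D : Polynomial ℂ) {m : ℝ} (hm : 1 ≤ m) {p p' : ℂ} (hp : ‖p‖ ≤ m)
    (hp' : ‖p'‖ ≤ m) :
    ‖D.eval p - D.eval p'‖ * m ≤ sepA D * m ^ D.natDegree * ‖p - p'‖ := by
  have hm0 : 0 ≤ m := by linarith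
  rw [Polynomial.eval_eq_sum_range, Polynomial.eval_eq_sum_range, ← Finset.sum_sub_distrib]
  calc ‖∑ k ∈ range (D.natDegree + 1), (D.coeff k * p ^ k - D.coeff k * p' ^ k)‖ * m
      ≤ (∑ k ∈ range (D.natDegree + 1), ‖D.coeff k‖ * ‖p ^ k - p' ^ k‖) * m := by
        apply mul_le_mul_of_nonneg_right _ hm0
        refine norm_sum_le_of_le _ fun k _ => ?_
        rw [← mul_sub, norm_mul]
    _ = ∑ k ∈ range (D.natDegree + 1), ‖D.coeff k‖ * (‖p ^ k - p' ^ k‖ * m) := by
        rw [Finset.sum_mul]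
        exact Finset.sum_congr rfl fun k _ => by ring
    _ ≤ ∑ k ∈ range (D.natDegree + 1),
          ‖D.coeff k‖ * ((k : ℝ) + 1) * (m ^ D.natDegree * ‖p - p'‖) := by
        refine Finset.sum_le_sum fun k hk => ?_
        have hk' : k ≤ D.natDegree := by
          have := Finset.mem_range.1 hk
          omega
        have h1 := sep_pow_sub hm0 hp hp' k
        have h2 : m ^ k ≤ m ^ D.natDegree := pow_le_pow_right₀ hm hk'
        have h3 : (0 : ℝ) ≤ (k : ℝ) := by positivity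
        have h4 : 0 ≤ m ^ D.natDegree * ‖p - p'‖ := by positivity
        have h5 : (k : ℝ) * m ^ k * ‖p - p'‖ ≤ ((k : ℝ) + 1) * (m ^ D.natDegree * ‖p - p'‖) := by
          calc (k : ℝ) * m ^ k * ‖p - p'‖ = k * (m ^ k * ‖p - p'‖) := by ring
            _ ≤ k * (m ^ D.natDegree * ‖p - p'‖) :=
                mul_le_mul_of_nonneg_left (mul_le_mul_of_nonneg_right h2 (norm_nonneg _)) h3
            _ ≤ ((k : ℝ) + 1) * (m ^ D.natDegree * ‖p - p'‖) :=
                mul_le_mul_of_nonneg_right (by linarith) h4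
        calc ‖D.coeff k‖ * (‖p ^ k - p' ^ k‖ * m)
            ≤ ‖D.coeff k‖ * (((k : ℝ) + 1) * (m ^ D.natDegree * ‖p - p'‖)) :=
              mul_le_mul_of_nonneg_left (h1.trans h5) (norm_nonneg _)
          _ = _ := by ring
    _ = sepA D * m ^ D.natDegree * ‖p - p'‖ := by
        rw [sepA, Finset.sum_mul, Finset.sum_mul]
        exact Finset.sum_congr rfl fun k _ => by ring

/-! ### The conjugated polynomial -/

lemma cst_natDegree (D : Polynomial ℂ) : (cst D).natDegree = D.natDegree :=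
  Polynomial.natDegree_map _

lemma cst_coeff (D : Polynomial ℂ) (k : ℕ) :
    (cst D).coeff k = (starRingEnd ℂ) (D.coeff k) := by
  rw [cst, Polynomial.coeff_map]

lemma cst_sepA (D : Polynomial ℂ) : sepA (cst D) = sepA D := by
  rw [sepA, sepA, cst_natDegree]
  refine Finset.sum_congr rfl fun k _ => ?_
  rw [cst_coeff, RCLike.norm_conj]

lemma cst_leadingCoeff (D : Polynomial ℂ) :
    (cst D).leadingCoeff = (starRingEnd ℂ) D.leadingCoeff := by
  rw [Polynomial.leadingCoeff, cst_natDegree, cst_coeff, Polynomial.leadingCoeff]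

lemma cst_sub_eval (D E : Polynomial ℂ) (z : ℂ) :
    (cst (D - E)).eval z = (cst D).eval z - (cst E).eval z := by
  rw [cst, cst, cst, Polynomial.map_sub, Polynomial.eval_sub]

end Pool.Agent.H77.N2
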