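import Pool.Agent.H77.N2.SepAux

/-!
Auxiliary estimates for the module SEP of MP_6e521b_an (n = 2): comparison of the sheets.
-/

open Finset

namespace Pool.Agent.H77.N2

/-- The base frequency approximates `p`. -/
lemma sep_near {M S : ℝ} {q p : ℂ}
    (hp : ‖p * q - (‖q‖ * S * ‖q‖ : ℝ)‖ ≤ M) :
    ‖p - S * (starRingEnd ℂ) q‖ * ‖q‖ ≤ M := by
  rw [← norm_mul]
  have h : (p - S * (starRingEnd ℂ) q) * q = p * q - (‖q‖ * S * ‖q‖ : ℝ) := by
    have h1 : (starRingEnd ℂ) q * q = ((‖q‖ ^ 2 : ℝ) : ℂ) := by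
      rw [mul_comm, Complex.mul_conj, Complex.normSq_eq_norm_sq]
    calc (p - S * (starRingEnd ℂ) q) * q = p * q - S * ((starRingEnd ℂ) q * q) := by ring
      _ = p * q - (‖q‖ * S * ‖q‖ : ℝ) := by rw [h1]; push_cast; ring
  rw [h]
  exact hp

lemma sep_near_norm {M S : ℝ} {q p : ℂ} (hQ : 1 ≤ ‖q‖) (hS : 0 < S)
    (hp : ‖p * q - (‖q‖ * S * ‖q‖ : ℝ)‖ ≤ M) :
    ‖p‖ ≤ ‖q‖ * S + M ∧ ‖q‖ * S ≤ ‖p‖ + M := by
  have h1 := sep_near hp
  have h2 : ‖p - S * (starRingEnd ℂ) q‖ ≤ M := by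
    nlinarith [norm_nonneg (p - S * (starRingEnd ℂ) q)]
  have h3 : ‖(S : ℂ) * (starRingEnd ℂ) q‖ = ‖q‖ * S := by
    rw [norm_mul, RCLike.norm_conj, Complex.norm_real, Real.norm_eq_abs, abs_of_pos hS]
    ring
  have h4 := norm_sub_norm_le p (S * (starRingEnd ℂ) q)
  have h5 := norm_sub_norm_le ((S : ℂ) * (starRingEnd ℂ) q) p
  rw [norm_sub_rev] at h5
  constructor
  · linarith
  · linarith

/-- `(C_i - C_j)*(p_i) = S^l d̄ + O(π^(l-1))`. -/
lemma sep_one {D : Polynomial ℂ} {N : ℕ} {A M S : ℝ} {q p : ℂ} (hA : sepA D ≤ A) (hM : 0 ≤ M)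
    (hS : 0 < S) (hS2 : S ≤ 2) (hQ : 1 ≤ ‖q‖) (hπ : 1 ≤ ‖q‖ * S) (hMπ : M ≤ ‖q‖ * S)
    (hl : D.natDegree ≤ N) (hp : ‖p * q - (‖q‖ * S * ‖q‖ : ℝ)‖ ≤ M) :
    ‖(cst D).eval p - S ^ D.natDegree * (starRingEnd ℂ) (D.eval q)‖ * (‖q‖ * S)
      ≤ (2 ^ N * A * M + 3 * A) * (‖q‖ * S) ^ D.natDegree := by
  set l := D.natDegree with hldef
  set P0 : ℂ := S * (starRingEnd ℂ) q with hP0
  set Q : ℝ := ‖q‖ with hQdef
  set w : ℝ := Q * S with hw
  have hA0 : 0 ≤ A := (sepA_nonneg D).trans hA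
  have hQ0 : 0 < Q := by linarith
  have hw0 : 0 < w := by linarith
  have hP0n : ‖P0‖ = w := by
    rw [hP0, norm_mul, RCLike.norm_conj, Complex.norm_real, Real.norm_eq_abs, abs_of_pos hS, hw]
    ring
  have hnear := sep_near hp
  have hnn := (sep_near_norm hQ hS hp).1
  have hwl : 0 < w ^ l := by positivity
  -- first part
  have h1 : ‖(cst D).eval p - (cst D).eval P0‖ * w ≤ 2 ^ N * A * M * w ^ l := by
    have h2w : (1 : ℝ) ≤ 2 * w := by linarith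
    have ha := sep_eval_sub (cst D) h2w (p := p) (p' := P0) (by linarith) (by linarith)
    rw [cst_sepA, cst_natDegree, ← hldef] at ha
    have hb : ‖p - P0‖ ≤ M := by
      have : ‖p - P0‖ * Q ≤ M := hnear
      nlinarith [norm_nonneg (p - P0)]
    have hc : (2 * w) ^ l ≤ 2 ^ N * w ^ l := by
      rw [mul_pow]
      exact mul_le_mul_of_nonneg_right (pow_le_pow_right₀ (by norm_num) hl) hwl.le
    have hd : sepA D * (2 * w) ^ l * ‖p - P0‖ ≤ A * (2 ^ N * w ^ l) * M := by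
      have h0 : (0 : ℝ) ≤ (2 * w) ^ l := by positivity
      have h00 := sepA_nonneg D
      gcongr
    have he : 0 ≤ ‖(cst D).eval p - (cst D).eval P0‖ * w := by positivity
    nlinarith
  -- second part
  have h2 : ‖(cst D).eval P0 - (starRingEnd ℂ) D.leadingCoeff * P0 ^ l‖ * w ≤ A * w ^ l := by
    have ha := sep_eval_lead (cst D) hπ (q := P0) hP0n.le
    rw [cst_sepA, cst_natDegree, cst_leadingCoeff, ← hldef] at ha
    exact ha.trans (mul_le_mul_of_nonneg_right hA hwl.le)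
  -- third part
  have h3 : ‖(starRingEnd ℂ) D.leadingCoeff * P0 ^ l
      - S ^ l * (starRingEnd ℂ) (D.eval q)‖ * w ≤ 2 * A * w ^ l := by
    have ha := sep_eval_lead D hQ (q := q) le_rfl
    rw [← hldef] at ha
    have hb : (starRingEnd ℂ) D.leadingCoeff * P0 ^ l - S ^ l * (starRingEnd ℂ) (D.eval q)
        = -(S ^ l * (starRingEnd ℂ) (D.eval q - D.leadingCoeff * q ^ l)) := by
      rw [hP0, map_sub, map_mul, map_pow]
      ring
    rw [hb, norm_neg, norm_mul, RCLike.norm_conj, norm_pow, Complex.norm_real, Real.norm_eq_abs,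
      abs_of_pos hS]
    have hc : w ≤ 2 * Q := by
      rw [hw]
      nlinarith
    have hS' : (0 : ℝ) < S ^ l := by positivity
    have hd : sepA D * Q ^ l ≤ A * Q ^ l := by gcongr
    calc S ^ l * ‖D.eval q - D.leadingCoeff * q ^ l‖ * w
        ≤ S ^ l * ‖D.eval q - D.leadingCoeff * q ^ l‖ * (2 * Q) := by gcongr
      _ = 2 * S ^ l * (‖D.eval q - D.leadingCoeff * q ^ l‖ * Q) := by ring
      _ ≤ 2 * S ^ l * (A * Q ^ l) :=
          mul_le_mul_of_nonneg_left (ha.trans hd) (by positivity)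
      _ = 2 * A * w ^ l := by rw [hw, mul_pow]; ring
  have hsum : (cst D).eval p - S ^ l * (starRingEnd ℂ) (D.eval q)
      = ((cst D).eval p - (cst D).eval P0)
        + ((cst D).eval P0 - (starRingEnd ℂ) D.leadingCoeff * P0 ^ l)
        + ((starRingEnd ℂ) D.leadingCoeff * P0 ^ l - S ^ l * (starRingEnd ℂ) (D.eval q)) := by
    ring
  have h4 := norm_add₃_le (a := (cst D).eval p - (cst D).eval P0)
    (b := (cst D).eval P0 - (starRingEnd ℂ) D.leadingCoeff * P0 ^ l)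
    (c := (starRingEnd ℂ) D.leadingCoeff * P0 ^ l - S ^ l * (starRingEnd ℂ) (D.eval q))
  rw [← hsum] at h4
  calc ‖(cst D).eval p - S ^ l * (starRingEnd ℂ) (D.eval q)‖ * w
      ≤ (‖(cst D).eval p - (cst D).eval P0‖
        + ‖(cst D).eval P0 - (starRingEnd ℂ) D.leadingCoeff * P0 ^ l‖
        + ‖(starRingEnd ℂ) D.leadingCoeff * P0 ^ l - S ^ l * (starRingEnd ℂ) (D.eval q)‖) * w :=
        mul_le_mul_of_nonneg_right h4 hw0.le
    _ = ‖(cst D).eval p - (cst D).eval P0‖ * w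
        + ‖(cst D).eval P0 - (starRingEnd ℂ) D.leadingCoeff * P0 ^ l‖ * w
        + ‖(starRingEnd ℂ) D.leadingCoeff * P0 ^ l - S ^ l * (starRingEnd ℂ) (D.eval q)‖ * w := by
        ring
    _ ≤ 2 ^ N * A * M * w ^ l + A * w ^ l + 2 * A * w ^ l := add_le_add (add_le_add h1 h2) h3
    _ = (2 ^ N * A * M + 3 * A) * w ^ l := by ring

/-- The difference of the values of `C_j*` at `p_i` and `p_j`. -/
lemma sep_pair {E : Polynomial ℂ} {N l : ℕ} {A M S : ℝ} {q p p' : ℂ} (hA : sepA E ≤ A)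
    (hS : 0 < S) (hQ : 1 ≤ ‖q‖) (hπ : 1 ≤ ‖q‖ * S) (hMπ : M ≤ ‖q‖ * S)
    (hE : E.natDegree < N)
    (hp : ‖p * q - (‖q‖ * S * ‖q‖ : ℝ)‖ ≤ M) (hp' : ‖p' * q - (‖q‖ * S * ‖q‖ : ℝ)‖ ≤ M)
    (hpair : ‖p - p'‖ * ((‖q‖ * S) ^ (N - 1) * ‖q‖) ≤ M * (‖q‖ * S) ^ l) :
    ‖(cst E).eval p - (cst E).eval p'‖ * (‖q‖ * S) ≤ 2 ^ N * A * M * (‖q‖ * S) ^ l := by
  set Q : ℝ := ‖q‖ with hQdef
  set w : ℝ := Q * S with hw
  have hA0 : 0 ≤ A := (sepA_nonneg E).trans hA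
  have hQ0 : 0 < Q := by linarith
  have hw0 : 0 < w := by linarith
  have hwl : 0 < w ^ l := by positivity
  have hnn := (sep_near_norm hQ hS hp).1
  have hnn' := (sep_near_norm hQ hS hp').1
  have h2w : (1 : ℝ) ≤ 2 * w := by linarith
  have ha := sep_eval_sub (cst E) h2w (p := p) (p' := p') (by linarith) (by linarith)
  rw [cst_sepA, cst_natDegree] at ha
  have hN' : E.natDegree ≤ N - 1 := by omega
  have hb : (2 * w) ^ E.natDegree ≤ 2 ^ N * w ^ (N - 1) := by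
    calc (2 * w) ^ E.natDegree ≤ (2 * w) ^ (N - 1) := pow_le_pow_right₀ h2w hN'
      _ = 2 ^ (N - 1) * w ^ (N - 1) := by rw [mul_pow]
      _ ≤ 2 ^ N * w ^ (N - 1) := by
          apply mul_le_mul_of_nonneg_right _ (by positivity)
          exact pow_le_pow_right₀ (by norm_num) (by omega)
  have h00 := sepA_nonneg E
  have hc : ‖(cst E).eval p - (cst E).eval p'‖ * (2 * w)
      ≤ A * (2 ^ N * w ^ (N - 1)) * ‖p - p'‖ := by
    refine ha.trans ?_
    gcongr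
  have hd : ‖(cst E).eval p - (cst E).eval p'‖ * (2 * w)
      ≤ A * 2 ^ N * (‖p - p'‖ * (w ^ (N - 1) * Q)) := by
    refine hc.trans ?_
    have : 0 ≤ A * (2 ^ N * w ^ (N - 1)) * ‖p - p'‖ := by positivity
    nlinarith
  have he : A * 2 ^ N * (‖p - p'‖ * (w ^ (N - 1) * Q)) ≤ A * 2 ^ N * (M * w ^ l) := by
    gcongr
  have hf : 0 ≤ ‖(cst E).eval p - (cst E).eval p'‖ * w := by positivity
  nlinarith

end Pool.Agent.H77.N2
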