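import Pool.Agent.H77.N2.SepOne

/-!
Auxiliary estimates for the module SEP of MP_6e521b_an (n = 2): the active sheet.
-/

open Finset

namespace Pool.Agent.H77.N2

/-- Size of `d = D(q)`. -/
lemma sep_size {D : Polynomial ℂ} {A Γ γ₀ : ℝ} {q : ℂ} (hA : sepA D ≤ A) (hA1 : 1 ≤ A)
    (hΓ : ‖D.leadingCoeff‖ ≤ Γ) (hΓ1 : 1 ≤ Γ) (hγ : γ₀ ≤ ‖D.leadingCoeff‖) (hγ0 : 0 < γ₀)
    (hQA : A ≤ ‖q‖) (hQγ : 2 * A / γ₀ ≤ ‖q‖) :
    γ₀ * ‖q‖ ^ D.natDegree / 2 ≤ ‖D.eval q‖ ∧ ‖D.eval q‖ ≤ 2 * Γ * ‖q‖ ^ D.natDegree ∧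
      ‖D.eval q‖ * ‖q‖ ≤ ‖D.leadingCoeff‖ * ‖q‖ ^ D.natDegree * ‖q‖
        + A * ‖q‖ ^ D.natDegree := by
  set l := D.natDegree with hl
  set Q : ℝ := ‖q‖ with hQ
  have hQ1 : 1 ≤ Q := hA1.trans hQA
  have hQl : 0 < Q ^ l := by positivity
  have h1 := sep_eval_lead D hQ1 (q := q) le_rfl
  rw [← hl] at h1
  have h2 : ‖D.eval q - D.leadingCoeff * q ^ l‖ * Q ≤ A * Q ^ l :=
    h1.trans (mul_le_mul_of_nonneg_right hA hQl.le)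
  have h3 : ‖D.leadingCoeff * q ^ l‖ = ‖D.leadingCoeff‖ * Q ^ l := by rw [norm_mul, norm_pow]
  have h4 := norm_sub_norm_le (D.eval q) (D.leadingCoeff * q ^ l)
  have h5 := norm_sub_norm_le (D.leadingCoeff * q ^ l) (D.eval q)
  rw [norm_sub_rev] at h5
  rw [h3] at h4 h5
  have h6 : ‖D.eval q - D.leadingCoeff * q ^ l‖ ≤ Q ^ l := by
    by_contra hcon
    push Not at hcon
    have : Q ^ l * A < ‖D.eval q - D.leadingCoeff * q ^ l‖ * Q := by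
      calc Q ^ l * A ≤ Q ^ l * Q := mul_le_mul_of_nonneg_left hQA hQl.le
        _ < ‖D.eval q - D.leadingCoeff * q ^ l‖ * Q :=
          mul_lt_mul_of_pos_right hcon (by linarith)
    linarith
  have hQγ' : 2 * A ≤ γ₀ * Q := by
    rw [div_le_iff₀ hγ0] at hQγ
    linarith
  have h7 : ‖D.eval q - D.leadingCoeff * q ^ l‖ ≤ γ₀ / 2 * Q ^ l := by
    by_contra hcon
    push Not at hcon
    have : γ₀ / 2 * Q ^ l * Q < ‖D.eval q - D.leadingCoeff * q ^ l‖ * Q :=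
      mul_lt_mul_of_pos_right hcon (by linarith)
    nlinarith
  have h8 : γ₀ * Q ^ l ≤ ‖D.leadingCoeff‖ * Q ^ l := mul_le_mul_of_nonneg_right hγ hQl.le
  have h9 : ‖D.leadingCoeff‖ * Q ^ l ≤ Γ * Q ^ l := mul_le_mul_of_nonneg_right hΓ hQl.le
  have h10 : Q ^ l ≤ Γ * Q ^ l := by nlinarith
  refine ⟨by linarith, by linarith, ?_⟩
  have : ‖D.eval q‖ * Q ≤ (‖D.leadingCoeff‖ * Q ^ l
      + ‖D.eval q - D.leadingCoeff * q ^ l‖) * Q := by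
    apply mul_le_mul_of_nonneg_right _ (by linarith)
    linarith
  linarith

/-- The comparison of squares. -/
lemma sep_sq {D : Polynomial ℂ} {A Γ γ₀ : ℝ} {q : ℂ} (hA : sepA D ≤ A) (hA1 : 1 ≤ A)
    (hΓ : ‖D.leadingCoeff‖ ≤ Γ) (hΓ1 : 1 ≤ Γ) (hγ : γ₀ ≤ ‖D.leadingCoeff‖) (hγ0 : 0 < γ₀)
    (hQA : A ≤ ‖q‖) (hQγ : 2 * A / γ₀ ≤ ‖q‖) :
    ‖D.eval q‖ ^ 2 * ‖q‖ ≤ ‖D.leadingCoeff‖ ^ 2 * (‖q‖ ^ D.natDegree) ^ 2 * ‖q‖
        + 3 * Γ * A * (‖q‖ ^ D.natDegree) ^ 2 := by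
  obtain ⟨h1, h2, h3⟩ := sep_size hA hA1 hΓ hΓ1 hγ hγ0 hQA hQγ
  set l := D.natDegree with hl
  set Q : ℝ := ‖q‖ with hQ
  have hQ1 : 1 ≤ Q := hA1.trans hQA
  have hQl : 0 < Q ^ l := by positivity
  set g : ℝ := ‖D.leadingCoeff‖ with hg
  set d : ℝ := ‖D.eval q‖ with hd
  set y : ℝ := Q ^ l with hy
  have hg0 : 0 ≤ g := norm_nonneg _
  have hd0 : 0 ≤ d := norm_nonneg _
  -- (d² - g² y²) Q = (d - g y) Q (d + g y) ≤ A y * 3Γ y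
  have h4 : (d - g * y) * Q ≤ A * y := by linarith
  have h5 : d + g * y ≤ 3 * Γ * y := by
    have : g * y ≤ Γ * y := mul_le_mul_of_nonneg_right hΓ hQl.le
    linarith
  have h6 : 0 ≤ d + g * y := by positivity
  have h7 : (d - g * y) * Q * (d + g * y) ≤ A * y * (d + g * y) :=
    mul_le_mul_of_nonneg_right h4 h6
  have h8 : A * y * (d + g * y) ≤ A * y * (3 * Γ * y) :=
    mul_le_mul_of_nonneg_left h5 (by positivity)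
  linarith

/-- The active sheet is not much farther than the others: `Re(d̄ v) ≥ -0.51 D²`. -/
lemma sep_active {D : Polynomial ℂ} {N : ℕ} {A Γ γ₀ M K₁ κ₂ κ R₀ S ψ ψ' : ℝ} {q v ξ ξ' : ℂ}
    (hA : sepA D ≤ A) (hA1 : 1 ≤ A)
    (hΓ : ‖D.leadingCoeff‖ ≤ Γ) (hΓ1 : 1 ≤ Γ) (hγ : γ₀ ≤ ‖D.leadingCoeff‖) (hγ0 : 0 < γ₀)
    (hQA : A ≤ ‖q‖) (hQγ : 2 * A / γ₀ ≤ ‖q‖)
    (hth : ThPar N κ R₀ ‖q‖ S) (hκ : 4 * κ₂ ≤ κ) (hκ₂ : 0 ≤ κ₂) (hM : 0 ≤ M) (hK₁ : 0 ≤ K₁)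
    (hl1 : 1 ≤ D.natDegree) (hlN : D.natDegree ≤ N) (hS2 : S ≤ 2)
    (hξ : ‖ξ - ξ' - S ^ D.natDegree * (starRingEnd ℂ) (D.eval q)‖ * (‖q‖ * S)
      ≤ K₁ * (‖q‖ * S) ^ D.natDegree)
    (hen : ‖D.leadingCoeff‖ ^ 2 / 2 * (‖q‖ * S * ‖q‖) ^ D.natDegree
      - M * ((‖q‖ * S) ^ (D.natDegree - 1) * ‖q‖ ^ D.natDegree)
        ≤ ψ - ψ' - (ξ' * D.eval q).re)
    (hact : ψ + (ξ * v).re + TH N κ R₀ ‖q‖ S ‖v‖
      ≤ ψ' + (ξ' * (v + D.eval q)).re + TH N κ R₀ ‖q‖ S ‖v + D.eval q‖)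
    (hπ : 2000 * (3 * Γ * A + M + K₁ * κ₂) / γ₀ ^ 2 ≤ ‖q‖ * S)
    (hρ : ‖v‖ ≤ κ₂ * ‖q‖ ^ D.natDegree) :
    -(51 / 100) * ‖D.eval q‖ ^ 2 ≤ ((starRingEnd ℂ) (D.eval q) * v).re := by
  obtain ⟨h1, h2, h3⟩ := sep_size hA hA1 hΓ hΓ1 hγ hγ0 hQA hQγ
  have hsq := sep_sq hA hA1 hΓ hΓ1 hγ hγ0 hQA hQγ
  set l := D.natDegree with hl
  set Q : ℝ := ‖q‖ with hQ
  have hQ1 : 1 ≤ Q := hA1.trans hQA
  have hQl : 0 < Q ^ l := by positivity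
  set g : ℝ := ‖D.leadingCoeff‖ with hg
  set d : ℂ := D.eval q with hd
  set w : ℝ := Q * S with hw
  have hS : 0 < S := hth.hS
  have hw0 : 0 < w := by positivity
  set Re : ℝ := ((starRingEnd ℂ) d * v).re with hRe
  -- ‖v+d‖² = ‖v‖² + 2 Re + ‖d‖²
  have hnorm : ‖v + d‖ ^ 2 = ‖v‖ ^ 2 + 2 * Re + ‖d‖ ^ 2 := by
    rw [hRe, ← Complex.normSq_eq_norm_sq, ← Complex.normSq_eq_norm_sq,
      ← Complex.normSq_eq_norm_sq, Complex.normSq_add]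
    have : (v * (starRingEnd ℂ) d).re = ((starRingEnd ℂ) d * v).re := by rw [mul_comm]
    rw [this]
    ring
  have hd0 : 0 ≤ ‖d‖ ^ 2 := by positivity
  rcases le_or_gt ‖v‖ ‖v + d‖ with hcase | hcase
  · have : ‖v‖ ^ 2 ≤ ‖v + d‖ ^ 2 := pow_le_pow_left₀ (norm_nonneg _) hcase 2
    linarith
  · -- the main case
    have hTH := TH_sub_ge hth hκ hl1 hlN (norm_nonneg (v + d)) hcase.le hρ
    rw [hnorm] at hTH
    -- scalars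
    set s : ℝ := S ^ l with hs
    have hs0 : 0 < s := by positivity
    set y : ℝ := Q ^ l with hy
    have hwl : w ^ l = s * y := by rw [hw, mul_pow, hs, hy]; ring
    have hwl1 : w ^ (l - 1) * w = s * y := by
      rw [← pow_succ, Nat.sub_add_cancel hl1, hwl]
    have hwQ : (w * Q) ^ l = s * y ^ 2 := by rw [mul_pow, hwl, hy]; ring
    have hw2 : w ≤ 2 * Q := by rw [hw]; nlinarith
    -- energy, multiplied by w
    have hE : s * (‖d‖ ^ 2 * w / 2 - (3 * Γ * A + M) * y ^ 2)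
        ≤ (ψ - ψ' - (ξ' * d).re) * w := by
      have e1 : (g ^ 2 / 2 * (w * Q) ^ l - M * (w ^ (l - 1) * y)) * w
          ≤ (ψ - ψ' - (ξ' * d).re) * w := mul_le_mul_of_nonneg_right hen hw0.le
      refine le_trans ?_ e1
      have e2 : (g ^ 2 / 2 * (w * Q) ^ l - M * (w ^ (l - 1) * y)) * w
          = s * (g ^ 2 * y ^ 2 * w / 2 - M * y ^ 2) := by
        calc (g ^ 2 / 2 * (w * Q) ^ l - M * (w ^ (l - 1) * y)) * w
            = g ^ 2 / 2 * (w * Q) ^ l * w - M * (w ^ (l - 1) * w) * y := by ring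
          _ = _ := by rw [hwQ, hwl1]; ring
      rw [e2]
      apply mul_le_mul_of_nonneg_left _ hs0.le
      -- ‖d‖² w ≤ g² y² w + 6 Γ A y²
      have e3 : ‖d‖ ^ 2 * w ≤ g ^ 2 * y ^ 2 * w + 6 * Γ * A * y ^ 2 := by
        -- multiply hsq by S
        have e4 : ‖d‖ ^ 2 * Q * S ≤ (g ^ 2 * y ^ 2 * Q + 3 * Γ * A * y ^ 2) * S :=
          mul_le_mul_of_nonneg_right hsq hS.le
        have e5 : 3 * Γ * A * y ^ 2 * S ≤ 3 * Γ * A * y ^ 2 * 2 :=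
          mul_le_mul_of_nonneg_left hS2 (by positivity)
        have e6 : ‖d‖ ^ 2 * w = ‖d‖ ^ 2 * Q * S := by rw [hw]; ring
        have e7 : g ^ 2 * y ^ 2 * w = g ^ 2 * y ^ 2 * Q * S := by rw [hw]; ring
        rw [e6, e7]
        linarith
      linarith
    -- the frequency difference
    have hF : s * (Re * w - K₁ * κ₂ * y ^ 2) ≤ ((ξ - ξ') * v).re * w := by
      have f1 : (ξ - ξ') * v = s * ((starRingEnd ℂ) d * v)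
          + (ξ - ξ' - S ^ l * (starRingEnd ℂ) d) * v := by
        rw [hs]; push_cast; ring
      have f2 : ((ξ - ξ') * v).re = s * Re
          + ((ξ - ξ' - S ^ l * (starRingEnd ℂ) d) * v).re := by
        rw [f1, Complex.add_re, Complex.re_ofReal_mul]
      have f3 : -(‖ξ - ξ' - S ^ l * (starRingEnd ℂ) d‖ * ‖v‖)
          ≤ ((ξ - ξ' - S ^ l * (starRingEnd ℂ) d) * v).re := by
        rw [← norm_mul]
        exact (abs_le.1 (Complex.abs_re_le_norm _)).1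
      have f4 : ‖ξ - ξ' - S ^ l * (starRingEnd ℂ) d‖ * ‖v‖ * w ≤ K₁ * (s * y) * (κ₂ * y) := by
        calc ‖ξ - ξ' - S ^ l * (starRingEnd ℂ) d‖ * ‖v‖ * w
            = (‖ξ - ξ' - S ^ l * (starRingEnd ℂ) d‖ * w) * ‖v‖ := by ring
          _ ≤ (K₁ * (s * y)) * (κ₂ * y) := by
              rw [hwl] at hξ
              exact mul_le_mul hξ hρ (norm_nonneg _) (by positivity)
      rw [f2]
      have f5 : -(‖ξ - ξ' - S ^ l * (starRingEnd ℂ) d‖ * ‖v‖) * w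
          ≤ ((ξ - ξ' - S ^ l * (starRingEnd ℂ) d) * v).re * w :=
        mul_le_mul_of_nonneg_right f3 hw0.le
      linarith
    -- the activity
    have hG : (ψ - ψ' - (ξ' * d).re) + ((ξ - ξ') * v).re
        + (TH N κ R₀ Q S ‖v‖ - TH N κ R₀ Q S ‖v + d‖) ≤ 0 := by
      have g1 : (ξ' * (v + d)).re = (ξ' * v).re + (ξ' * d).re := by
        rw [mul_add, Complex.add_re]
      have g2 : ((ξ - ξ') * v).re = (ξ * v).re - (ξ' * v).re := by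
        rw [sub_mul, Complex.sub_re]
      rw [g1] at hact
      rw [g2]
      linarith
    have hG' : ((ψ - ψ' - (ξ' * d).re) + ((ξ - ξ') * v).re
        + (TH N κ R₀ Q S ‖v‖ - TH N κ R₀ Q S ‖v + d‖)) * w ≤ 0 :=
      mul_nonpos_of_nonpos_of_nonneg hG hw0.le
    have hTH' : 3 / 5 * s * (‖v‖ ^ 2 - (‖v‖ ^ 2 + 2 * Re + ‖d‖ ^ 2)) * w
        ≤ (TH N κ R₀ Q S ‖v‖ - TH N κ R₀ Q S ‖v + d‖) * w :=
      mul_le_mul_of_nonneg_right hTH hw0.le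
    have hH : s * (-(‖d‖ ^ 2 * w) / 10 - Re * w / 5
        - (3 * Γ * A + M + K₁ * κ₂) * y ^ 2) ≤ 0 := by
      linarith
    have hI : -(‖d‖ ^ 2 * w) / 10 - Re * w / 5 - (3 * Γ * A + M + K₁ * κ₂) * y ^ 2 ≤ 0 := by
      by_contra hcon
      push Not at hcon
      have := mul_pos hs0 hcon
      linarith
    -- y² ≤ 4‖d‖²/γ₀²
    have hy2 : γ₀ ^ 2 * y ^ 2 ≤ 4 * ‖d‖ ^ 2 := by
      have j1 : γ₀ * y ≤ 2 * ‖d‖ := by linarith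
      have j2 : (γ₀ * y) ^ 2 ≤ (2 * ‖d‖) ^ 2 := pow_le_pow_left₀ (by positivity) j1 2
      linarith
    have hK2 : 0 ≤ 3 * Γ * A + M + K₁ * κ₂ := by positivity
    have hπ' : 2000 * (3 * Γ * A + M + K₁ * κ₂) ≤ w * γ₀ ^ 2 := by
      rwa [div_le_iff₀ (by positivity)] at hπ
    -- (3ΓA+M+K₁κ₂) y² ≤ w ‖d‖²/500
    have hJ : (3 * Γ * A + M + K₁ * κ₂) * y ^ 2 ≤ w * ‖d‖ ^ 2 / 500 := by
      have j3 : 2000 * (3 * Γ * A + M + K₁ * κ₂) * y ^ 2 ≤ w * γ₀ ^ 2 * y ^ 2 :=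
        mul_le_mul_of_nonneg_right hπ' (by positivity)
      have j4 : w * (γ₀ ^ 2 * y ^ 2) ≤ w * (4 * ‖d‖ ^ 2) :=
        mul_le_mul_of_nonneg_left hy2 hw0.le
      linarith
    have hL : -(51 / 100) * ‖d‖ ^ 2 * w ≤ Re * w := by linarith
    exact le_of_mul_le_mul_right hL hw0

end Pool.Agent.H77.N2
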