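import Pool.Agent.H77.N2.Defs
import Pool.Agent.H77.N2.Hol
import Pool.Agent.H77.N2.Root

/-! Auxiliary bounds for the module STEP. -/

open Filter Topology Polynomial

namespace Pool.Agent.H77.N2

/-- Bound of a polynomial with exponents between `k + 1` and `N - 1`. -/
lemma step_cst_bound {N k : ℕ} (hkN : k < N) {Γ π Q : ℝ} (hΓ : 0 < Γ) (hπ : 0 ≤ π) (hQ : 1 ≤ Q)
    (hπQ : π ≤ 2 * Q) (C : ℂ[X]) (hC : C.natDegree < N) (hC0 : ∀ a ≤ k, C.coeff a = 0)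
    (hCΓ : ∀ a, ‖C.coeff a‖ ≤ Γ) (z : ℂ) (hz : ‖z‖ ≤ 3 * π) :
    ‖(cst C).eval z‖ ≤ N * Γ * 6 ^ N * π ^ k * Q ^ (N - 1 - k) := by
  have hdeg : (cst C).natDegree < N := lt_of_le_of_lt natDegree_map_le hC
  rw [eval_eq_sum_range' hdeg]
  have hterm : ∀ a ∈ Finset.range N, ‖(cst C).coeff a * z ^ a‖
      ≤ Γ * 6 ^ N * π ^ k * Q ^ (N - 1 - k) := by
    intro a ha
    rw [Finset.mem_range] at ha
    rw [norm_mul, cst, coeff_map, norm_pow, RCLike.norm_conj]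
    rcases le_or_gt a k with h | h
    · rw [hC0 a h]
      simp only [norm_zero, zero_mul]
      positivity
    · have h1 : ‖z‖ ^ a ≤ (3 * π) ^ a := pow_le_pow_left₀ (norm_nonneg _) hz a
      have h2 : (3 * π) ^ a ≤ 6 ^ N * π ^ k * Q ^ (N - 1 - k) := by
        obtain ⟨m, rfl⟩ : ∃ m, a = k + m := ⟨a - k, by omega⟩
        have hm : m ≤ N - 1 - k := by omega
        calc (3 * π) ^ (k + m) = 3 ^ (k + m) * (π ^ k * π ^ m) := by rw [mul_pow, pow_add π]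
          _ ≤ 3 ^ (k + m) * (π ^ k * (2 * Q) ^ m) := by gcongr
          _ = 3 ^ (k + m) * 2 ^ m * π ^ k * Q ^ m := by rw [mul_pow]; ring
          _ ≤ 3 ^ N * 2 ^ N * π ^ k * Q ^ (N - 1 - k) := by
              gcongr
              · norm_num
              · norm_num
              · omega
          _ = 6 ^ N * π ^ k * Q ^ (N - 1 - k) := by
              rw [← mul_pow]; norm_num
      calc ‖C.coeff a‖ * ‖z‖ ^ a ≤ Γ * (6 ^ N * π ^ k * Q ^ (N - 1 - k)) :=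
            mul_le_mul (hCΓ a) (h1.trans h2) (by positivity) hΓ.le
        _ = _ := by ring
  calc ‖∑ a ∈ Finset.range N, (cst C).coeff a * z ^ a‖
      ≤ ∑ a ∈ Finset.range N, ‖(cst C).coeff a * z ^ a‖ := norm_sum_le _ _
    _ ≤ ∑ _a ∈ Finset.range N, Γ * 6 ^ N * π ^ k * Q ^ (N - 1 - k) := Finset.sum_le_sum hterm
    _ = N * Γ * 6 ^ N * π ^ k * Q ^ (N - 1 - k) := by
        rw [Finset.sum_const, Finset.card_range, nsmul_eq_mul]; ring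

/-- Bound of the derivative of a polynomial of degree less than `N`. -/
lemma step_deriv_bound {N : ℕ} (hN : 2 ≤ N) {Γ Y : ℝ} (hΓ : 0 < Γ) (hY : 1 ≤ Y) (C : ℂ[X])
    (hC : C.natDegree < N) (hCΓ : ∀ a, ‖C.coeff a‖ ≤ Γ) (y : ℂ) (hy : ‖y‖ ≤ Y) :
    ‖(derivative C).eval y‖ ≤ (N : ℝ) ^ 2 * Γ * Y ^ (N - 2) := by
  have hdeg : (derivative C).natDegree < N - 1 := by
    have := natDegree_derivative_le C
    omega
  rw [eval_eq_sum_range' hdeg]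
  have hterm : ∀ a ∈ Finset.range (N - 1), ‖(derivative C).coeff a * y ^ a‖
      ≤ N * Γ * Y ^ (N - 2) := by
    intro a ha
    rw [Finset.mem_range] at ha
    rw [norm_mul, coeff_derivative, norm_mul, norm_pow]
    have h1 : ‖((a : ℂ) + 1)‖ ≤ N := by
      have : ((a : ℂ) + 1) = ((a + 1 : ℕ) : ℂ) := by push_cast; ring
      rw [this, Complex.norm_natCast]
      exact_mod_cast (by omega : a + 1 ≤ N)
    have h2 : ‖y‖ ^ a ≤ Y ^ (N - 2) := by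
      calc ‖y‖ ^ a ≤ Y ^ a := pow_le_pow_left₀ (norm_nonneg _) hy a
        _ ≤ Y ^ (N - 2) := pow_le_pow_right₀ hY (by omega)
    calc ‖C.coeff (a + 1)‖ * ‖(a : ℂ) + 1‖ * ‖y‖ ^ a ≤ Γ * N * Y ^ (N - 2) := by
          gcongr
          exact hCΓ _
      _ = _ := by ring
  calc ‖∑ a ∈ Finset.range (N - 1), (derivative C).coeff a * y ^ a‖
      ≤ ∑ a ∈ Finset.range (N - 1), ‖(derivative C).coeff a * y ^ a‖ := norm_sum_le _ _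
    _ ≤ ∑ _a ∈ Finset.range (N - 1), N * Γ * Y ^ (N - 2) := Finset.sum_le_sum hterm
    _ = ((N - 1 : ℕ) : ℝ) * (N * Γ * Y ^ (N - 2)) := by
        rw [Finset.sum_const, Finset.card_range, nsmul_eq_mul]
    _ ≤ (N : ℝ) * (N * Γ * Y ^ (N - 2)) := by
        have : ((N - 1 : ℕ) : ℝ) ≤ N := by exact_mod_cast Nat.sub_le _ _
        gcongr
    _ = _ := by ring

/-- powers near one -/
lemma step_pow_near {N m : ℕ} (hm : m ≤ N) (hN : 1 ≤ N) (w : ℂ) (hw : ‖w - 1‖ ≤ 1 / (10 * N)) :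
    ‖w ^ m - 1‖ ≤ 1 / 4 := by
  have hN0 : (0 : ℝ) < N := by exact_mod_cast hN
  have key : ∀ n : ℕ, ‖w ^ n - 1‖ ≤ (1 + ‖w - 1‖) ^ n - 1 := by
    intro n
    induction n with
    | zero => simp
    | succ n ih =>
      have h1 : w ^ (n + 1) - 1 = (w ^ n - 1) * w + (w - 1) := by ring
      have h2 : ‖w‖ ≤ 1 + ‖w - 1‖ := by
        calc ‖w‖ = ‖1 + (w - 1)‖ := by congr 1; ring
          _ ≤ ‖(1 : ℂ)‖ + ‖w - 1‖ := norm_add_le _ _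
          _ = 1 + ‖w - 1‖ := by rw [norm_one]
      calc ‖w ^ (n + 1) - 1‖ ≤ ‖(w ^ n - 1) * w‖ + ‖w - 1‖ := by rw [h1]; exact norm_add_le _ _
        _ = ‖w ^ n - 1‖ * ‖w‖ + ‖w - 1‖ := by rw [norm_mul]
        _ ≤ ((1 + ‖w - 1‖) ^ n - 1) * (1 + ‖w - 1‖) + ‖w - 1‖ := by
            have h3 : 0 ≤ (1 + ‖w - 1‖) ^ n - 1 := (norm_nonneg _).trans ih
            gcongr
        _ = _ := by rw [pow_succ]; ring
  refine (key m).trans ?_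
  have h1 : (1 + ‖w - 1‖) ^ m ≤ Real.exp (1 / 10) := by
    calc (1 + ‖w - 1‖) ^ m ≤ (Real.exp ‖w - 1‖) ^ m := by
          apply pow_le_pow_left₀ (by positivity)
          linarith [Real.add_one_le_exp ‖w - 1‖]
      _ = Real.exp (m * ‖w - 1‖) := by rw [← Real.exp_nat_mul]
      _ ≤ Real.exp (1 / 10) := by
          apply Real.exp_le_exp.2
          have hm' : (m : ℝ) ≤ N := by exact_mod_cast hm
          calc (m : ℝ) * ‖w - 1‖ ≤ N * (1 / (10 * N)) := by gcongr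
            _ = 1 / 10 := by field_simp
  have h2 : Real.exp (1 / 10) ≤ 5 / 4 := by
    have h3 : Real.exp (1 / 10) ^ 10 ≤ (5 / 4 : ℝ) ^ 10 := by
      rw [← Real.exp_nat_mul]
      have := Real.exp_one_lt_d9
      norm_num
      linarith
    exact le_of_pow_le_pow_left₀ (by norm_num) (by norm_num) h3
  linarith

lemma dom_monoS {R R' ε ε' : ℝ} (hR : R ≤ R') (hε : ε' ≤ ε) (hR0 : 0 ≤ R) :
    Dom R' ε' ⊆ Dom R ε := by
  intro x hx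
  obtain ⟨h1, h2, h3, h4⟩ := hx
  have a1 : 0 < ‖x.1‖ := by linarith
  have a2 : 0 < ‖x.2‖ := by linarith
  refine ⟨by linarith, by linarith, h3.trans_le ?_, h4.trans_le ?_⟩
  · exact mul_le_mul_of_nonneg_right hε a1.le
  · exact mul_le_mul_of_nonneg_right hε a2.le

lemma dom_ratioS {R ε : ℝ} (hε1 : ε ≤ 1 / 4) {x : ℂ × ℂ} (hx : x ∈ Dom R ε) (hR : 0 ≤ R) :
    3 / 4 * ‖x.1‖ ≤ ‖x.2‖ ∧ ‖x.2‖ ≤ 5 / 4 * ‖x.1‖ := by
  obtain ⟨h1, h2, h3, h4⟩ := hx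
  have a1 : 0 < ‖x.1‖ := by linarith
  have h5 : ‖x.2 - (starRingEnd ℂ) x.1‖ ≤ 1 / 4 * ‖x.1‖ :=
    h3.le.trans (mul_le_mul_of_nonneg_right hε1 a1.le)
  have h6 : ‖(starRingEnd ℂ) x.1‖ = ‖x.1‖ := RCLike.norm_conj _
  constructor
  · have h7 : ‖(starRingEnd ℂ) x.1‖ ≤ ‖x.2‖ + ‖x.2 - (starRingEnd ℂ) x.1‖ := by
      have := norm_sub_le x.2 (x.2 - (starRingEnd ℂ) x.1)
      rwa [sub_sub_cancel] at this
    rw [h6] at h7
    linarith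
  · have h7 : ‖x.2‖ ≤ ‖x.2 - (starRingEnd ℂ) x.1‖ + ‖(starRingEnd ℂ) x.1‖ := by
      have := norm_add_le (x.2 - (starRingEnd ℂ) x.1) ((starRingEnd ℂ) x.1)
      rwa [sub_add_cancel] at this
    rw [h6] at h7
    linarith

/-- bounds of the frequency -/
lemma step_p_bounds {N : ℕ} {R ε M π₁ : ℝ} (hε1 : ε ≤ 1 / 4) (hM : 0 < M) (hR : 1 ≤ R)
    {S : ℝ → ℝ} {ψ₀ σ : ℂ × ℂ → ℂ} (hB : IsBase N R ε S ψ₀ σ) (hπ24 : 24 * M ≤ π₁)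
    (hπ : ∀ Q, R < Q → π₁ ≤ Q * S Q) {p : ℂ × ℂ → ℂ}
    (hp : ∀ x ∈ Dom R ε, ‖p x - x.2 * σ x‖ ≤ M / ‖x.1‖) {y : ℂ × ℂ} (hy : y ∈ Dom R ε) :
    1 ≤ ‖y.1‖ ∧ 0 < S ‖y.1‖ ∧ ‖y.1‖ * S ‖y.1‖ ≤ 2 * ‖y.1‖ ∧ π₁ ≤ ‖y.1‖ * S ‖y.1‖ ∧
      ‖y.1‖ * S ‖y.1‖ / 3 ≤ ‖p y‖ ∧ ‖p y‖ ≤ 3 * (‖y.1‖ * S ‖y.1‖) := by
  have hQ : R < ‖y.1‖ := hy.1
  have hQ1 : 1 ≤ ‖y.1‖ := by linarith
  have hS := hB.Spos _ hQ
  have hS2 := hB.Sle _ hQ
  have hπy := hπ _ hQ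
  obtain ⟨r1, r2⟩ := dom_ratioS hε1 hy (by linarith)
  have l1 := hB.σlow y hy
  have l2 := hB.σup y hy
  have hn := hp y hy
  have hMQ : M / ‖y.1‖ ≤ ‖y.1‖ * S ‖y.1‖ / 24 := by
    have : M / ‖y.1‖ ≤ M := div_le_self hM.le hQ1
    linarith
  have hlow : 3 / 8 * (‖y.1‖ * S ‖y.1‖) ≤ ‖y.2 * σ y‖ := by
    rw [norm_mul]
    calc 3 / 8 * (‖y.1‖ * S ‖y.1‖) = (3 / 4 * ‖y.1‖) * (S ‖y.1‖ / 2) := by ring
      _ ≤ ‖y.2‖ * ‖σ y‖ := by gcongr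
  have hup : ‖y.2 * σ y‖ ≤ 5 / 2 * (‖y.1‖ * S ‖y.1‖) := by
    rw [norm_mul]
    calc ‖y.2‖ * ‖σ y‖ ≤ (5 / 4 * ‖y.1‖) * (2 * S ‖y.1‖) := by gcongr
      _ = _ := by ring
  have hpos : 0 < ‖y.1‖ * S ‖y.1‖ := by positivity
  refine ⟨hQ1, hS, by nlinarith, hπy, ?_, ?_⟩
  · have h7 : ‖y.2 * σ y‖ ≤ ‖p y‖ + ‖p y - y.2 * σ y‖ := by
      have := norm_sub_le (p y) (p y - y.2 * σ y)
      rwa [sub_sub_cancel] at this
    linarith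
  · have h7 : ‖p y‖ ≤ ‖p y - y.2 * σ y‖ + ‖y.2 * σ y‖ := by
      have := norm_add_le (p y - y.2 * σ y) (y.2 * σ y)
      rwa [sub_add_cancel] at this
    linarith

/-- the conjugate function has the same kind of bound -/
lemma step_shp_bound {N k : ℕ} (hkN : k < N) {R ε : ℝ} (hε1 : ε ≤ 1 / 4) (hR : 1 ≤ R)
    {S : ℝ → ℝ} {ψ₀ σ : ℂ × ℂ → ℂ} (hB : IsBase N R ε S ψ₀ σ) {F : ℂ × ℂ → ℂ} {K : ℝ}
    (hK0 : 0 ≤ K)
    (hK : ∀ y ∈ Dom R ε, ‖F y‖ ≤ K * (‖y.1‖ * S ‖y.1‖) ^ k * ‖y.1‖ ^ (N - 1)) :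
    ∀ y ∈ Dom R ε, ‖shp F y‖ ≤ (4 ^ N * K) * (‖y.1‖ * S ‖y.1‖) ^ k * ‖y.1‖ ^ (N - 1) := by
  intro y hy
  have hy' := shp_mem hy
  have h1 := hK _ hy'
  rw [shp, RCLike.norm_conj]
  simp only [RCLike.norm_conj] at h1
  obtain ⟨r1, r2⟩ := dom_ratioS hε1 hy (by linarith)
  have hQ : R < ‖y.1‖ := hy.1
  have hQ2 : R < ‖y.2‖ := hy.2.1
  have hS1 := hB.Spos _ hQ
  have hS2 := hB.Spos _ hQ2
  have hc := (hB.Scmp y hy).1
  have hQ1 : 0 < ‖y.1‖ := by linarith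
  refine h1.trans ?_
  calc K * (‖y.2‖ * S ‖y.2‖) ^ k * ‖y.2‖ ^ (N - 1)
      ≤ K * ((5 / 4 * ‖y.1‖) * (2 * S ‖y.1‖)) ^ k * (5 / 4 * ‖y.1‖) ^ (N - 1) := by gcongr
    _ = ((5 / 2) ^ k * (5 / 4) ^ (N - 1)) * K * (‖y.1‖ * S ‖y.1‖) ^ k * ‖y.1‖ ^ (N - 1) := by
        rw [show (5 / 4 * ‖y.1‖) * (2 * S ‖y.1‖) = (5 / 2) * (‖y.1‖ * S ‖y.1‖) by ring,
          mul_pow, mul_pow]
        ring
    _ ≤ (4 ^ N) * K * (‖y.1‖ * S ‖y.1‖) ^ k * ‖y.1‖ ^ (N - 1) := by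
        gcongr
        calc (5 / 2 : ℝ) ^ k * (5 / 4) ^ (N - 1) ≤ (5 / 2) ^ N * (5 / 4) ^ N := by
              gcongr
              · norm_num
              · norm_num
              · omega
          _ = (25 / 8) ^ N := by rw [← mul_pow]; norm_num
          _ ≤ 4 ^ N := by gcongr; norm_num

/-- Cauchy estimate -/
lemma step_cauchy {N k : ℕ} (hkN : k < N) (hN : 2 ≤ N) {R ε : ℝ} (hε : 0 < ε) (hε1 : ε ≤ 1 / 4)
    (hR : 1 ≤ R) {S : ℝ → ℝ} {ψ₀ σ : ℂ × ℂ → ℂ} (hB : IsBase N R ε S ψ₀ σ) {F : ℂ × ℂ → ℂ} {K : ℝ}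
    (hK0 : 0 ≤ K) (hF : DifferentiableOn ℂ F (Dom R ε))
    (hK : ∀ y ∈ Dom R ε, ‖F y‖ ≤ K * (‖y.1‖ * S ‖y.1‖) ^ k * ‖y.1‖ ^ (N - 1)) :
    ∀ x ∈ Dom (2 * R) (ε / 4), ‖fderiv ℂ F x (1, 0)‖
      ≤ (4 / ε * 16 ^ N * K) * (‖x.1‖ * S ‖x.1‖) ^ k * ‖x.1‖ ^ (N - 2) := by
  intro x hx
  have hxD : x ∈ Dom R ε := dom_monoS (by linarith) (by linarith) (by linarith) hx
  have hQ : R < ‖x.1‖ := hxD.1
  have hQ1 : 0 < ‖x.1‖ := by linarith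
  have hS1 := hB.Spos _ hQ
  have hr : 0 < ε / 4 * ‖x.1‖ := by positivity
  have hmem : ∀ z ∈ Metric.closedBall x.1 (ε / 4 * ‖x.1‖), (z, x.2) ∈ Dom R ε := by
    intro z hz
    rw [Metric.mem_closedBall, dist_eq_norm] at hz
    exact dom_room (by linarith) hε hε1 hx hz
  have hb := dq_bound (F := F) (x := x) (r := ε / 4 * ‖x.1‖)
    (A := K * (16 ^ N * ((‖x.1‖ * S ‖x.1‖) ^ k * ‖x.1‖ ^ (N - 1)))) hr
    (fun z hz => (hF _ (hmem z hz)).differentiableAt ((isOpen_Dom R ε).mem_nhds (hmem z hz)))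
    (by
      intro z hz
      have hy := hmem z hz
      have h1 := hK _ hy
      refine h1.trans ?_
      simp only
      rw [Metric.mem_closedBall, dist_eq_norm] at hz
      have hz2 : ‖z‖ ≤ 2 * ‖x.1‖ := by
        have h2 : ‖z‖ ≤ ‖z - x.1‖ + ‖x.1‖ := by
          have := norm_add_le (z - x.1) x.1
          rwa [sub_add_cancel] at this
        have h3 : ε / 4 * ‖x.1‖ ≤ ‖x.1‖ := by nlinarith
        linarith
      have hc1 : S ‖z‖ ≤ 2 * S ‖x.2‖ := (hB.Scmp _ hy).2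
      have hc2 : S ‖x.2‖ ≤ 2 * S ‖x.1‖ := (hB.Scmp _ hxD).1
      have hz1 : R < ‖z‖ := hy.1
      have hSz := hB.Spos _ hz1
      have hz0 : 0 < ‖z‖ := by linarith
      calc K * (‖z‖ * S ‖z‖) ^ k * ‖z‖ ^ (N - 1)
          ≤ K * ((2 * ‖x.1‖) * (4 * S ‖x.1‖)) ^ k * (2 * ‖x.1‖) ^ (N - 1) := by
            have : S ‖z‖ ≤ 4 * S ‖x.1‖ := by linarith
            gcongr
        _ = (8 ^ k * 2 ^ (N - 1)) * (K * ((‖x.1‖ * S ‖x.1‖) ^ k * ‖x.1‖ ^ (N - 1))) := by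
            rw [show (2 * ‖x.1‖) * (4 * S ‖x.1‖) = 8 * (‖x.1‖ * S ‖x.1‖) by ring, mul_pow, mul_pow]
            ring
        _ ≤ (16 ^ N) * (K * ((‖x.1‖ * S ‖x.1‖) ^ k * ‖x.1‖ ^ (N - 1))) := by
            apply mul_le_mul_of_nonneg_right _ (by positivity)
            calc (8 : ℝ) ^ k * 2 ^ (N - 1) ≤ 8 ^ N * 2 ^ N := by
                  gcongr
                  · norm_num
                  · norm_num
                  · omega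
              _ = 16 ^ N := by rw [← mul_pow]; norm_num
        _ = _ := by ring)
  refine hb.trans (le_of_eq ?_)
  have hNN : N - 1 = (N - 2) + 1 := by omega
  rw [hNN, pow_succ]
  field_simp

end Pool.Agent.H77.N2
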