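import Pool.Agent.H77.N2.Defs
import Pool.Agent.H60.FB.Ent
import Pool.Agent.H37.FB.Homog

/-!
Module ULTRA of MP_6e521b_an (n = 2): limits along an ultrafilter.

(1) `ultra_lim`: `F z = lim f_k z` exists (bounded sequence along an ultrafilter). For an entire `f`
with `‖f‖ ≤ C` on the ball of radius `‖z‖ + 3`, the Cauchy estimates on `ζ ↦ f(z + ζ v/‖v‖)` give
`‖f(z+v) - f z - f'(z) v‖ ≤ C ‖v‖²` for `‖v‖ ≤ 1` and `‖D j f (z)‖ ≤ C`; the inequality passes to the
limit, so `F` has derivative `lim f_k'(z)` at `z`. Then induction on the list.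
(2) `coef_tendsto`: the finite dimensional space of coefficient families embeds in the space of
functions with the topology of pointwise convergence.
(3) `conj_shift`: `QDE_mexp` and `QDE_trE`.
-/

open MvPolynomial Filter Topology Pool.Agent.H77.FB Pool.Agent.H60.FB

namespace Pool.Agent.H77.N2

/-- One variable: second order Taylor estimate. -/
private lemma ultra_taylor1 {g : ℂ → ℂ} (hg : Differentiable ℂ g) {C : ℝ}
    (hC : ∀ ζ : ℂ, ‖ζ‖ ≤ 3 → ‖g ζ‖ ≤ C) (ζ : ℂ) (hζ : ‖ζ‖ ≤ 1) :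
    ‖g ζ - g 0 - deriv g 0 * ζ‖ ≤ C * ‖ζ‖ ^ 2 := by
  have hg1 : Differentiable ℂ (deriv g) := fun x =>
    (hg.differentiableOn (s := Set.univ)).deriv isOpen_univ |>.differentiableAt Filter.univ_mem
  have b1 : ∀ x : ℂ, ‖x‖ ≤ 2 → ‖deriv g x‖ ≤ C := by
    intro x hx
    have := Complex.norm_deriv_le_of_forall_mem_sphere_norm_le (c := x) (R := 1) (C := C) (f := g)
      one_pos (hg.diffContOnCl) (fun y hy => hC y (by
        have h1 : ‖y - x‖ = 1 := by simpa [dist_eq_norm] using hy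
        calc ‖y‖ = ‖(y - x) + x‖ := by ring_nf
          _ ≤ ‖y - x‖ + ‖x‖ := norm_add_le _ _
          _ ≤ 3 := by rw [h1]; linarith))
    simpa using this
  have b2 : ∀ x : ℂ, ‖x‖ ≤ 1 → ‖deriv (deriv g) x‖ ≤ C := by
    intro x hx
    have := Complex.norm_deriv_le_of_forall_mem_sphere_norm_le (c := x) (R := 1) (C := C)
      (f := deriv g) one_pos (hg1.diffContOnCl) (fun y hy => b1 y (by
        have h1 : ‖y - x‖ = 1 := by simpa [dist_eq_norm] using hy
        calc ‖y‖ = ‖(y - x) + x‖ := by ring_nf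
          _ ≤ ‖y - x‖ + ‖x‖ := norm_add_le _ _
          _ ≤ 2 := by rw [h1]; linarith))
    simpa using this
  have b3 : ∀ x : ℂ, ‖x‖ ≤ 1 → ‖deriv g x - deriv g 0‖ ≤ C * ‖x‖ := by
    intro x hx
    have := (convex_closedBall (0 : ℂ) 1).norm_image_sub_le_of_norm_deriv_le
      (f := deriv g) (C := C) (x := 0) (y := x) (fun y _ => hg1 y)
      (fun y hy => b2 y (by simpa using hy)) (by simp) (by simpa using hx)
    simpa using this
  have h4 : ∀ x : ℂ, HasDerivAt (fun x => g x - deriv g 0 * x) (deriv g x - deriv g 0) x := by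
    intro x
    have h5 := (hg x).hasDerivAt.fun_sub ((hasDerivAt_id x).const_mul (deriv g 0))
    rw [mul_one] at h5
    exact h5
  have := (convex_closedBall (0 : ℂ) ‖ζ‖).norm_image_sub_le_of_norm_hasDerivWithin_le
      (f := fun x => g x - deriv g 0 * x) (f' := fun x => deriv g x - deriv g 0)
      (C := C * ‖ζ‖) (x := 0) (y := ζ) (fun y _ => (h4 y).hasDerivWithinAt)
      (fun y hy => by
        have hy' : ‖y‖ ≤ ‖ζ‖ := by simpa using hy
        refine (b3 y (hy'.trans hζ)).trans ?_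
        have hC0 : 0 ≤ C := (norm_nonneg _).trans (hC 0 (by simp))
        exact mul_le_mul_of_nonneg_left hy' hC0) (by simp) (by simp)
  simp only [mul_zero, sub_zero] at this
  calc ‖g ζ - g 0 - deriv g 0 * ζ‖ = ‖g ζ - deriv g 0 * ζ - g 0‖ := by ring_nf
    _ ≤ C * ‖ζ‖ * ‖ζ‖ := this
    _ = C * ‖ζ‖ ^ 2 := by ring

private lemma ultra_line {n : ℕ} {f : (Fin n → ℂ) → ℂ} (hf : Differentiable ℂ f)
    (z u : Fin n → ℂ) (c : ℂ) :
    HasDerivAt (fun c : ℂ => f (z + c • u)) (fderiv ℂ f (z + c • u) u) c := by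
  have h2 : HasFDerivAt f (fderiv ℂ f (z + c • u)) (z + c • u) := (hf _).hasFDerivAt
  have h3 : HasDerivAt (fun c : ℂ => z + c • u) u c := by
    have := ((hasDerivAt_id c).smul_const u).const_add z
    simpa using this
  exact h2.comp_hasDerivAt c h3

/-- Several variables: second order Taylor estimate. -/
private lemma ultra_taylor {n : ℕ} {f : (Fin n → ℂ) → ℂ} (hf : Differentiable ℂ f) {C : ℝ}
    (z : Fin n → ℂ) (hC : ∀ w, ‖w‖ ≤ ‖z‖ + 3 → ‖f w‖ ≤ C) (v : Fin n → ℂ) (hv : ‖v‖ ≤ 1) :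
    ‖f (z + v) - f z - fderiv ℂ f z v‖ ≤ C * ‖v‖ ^ 2 := by
  by_cases h0 : v = 0
  · subst h0; simp
  have hv0 : 0 < ‖v‖ := norm_pos_iff.2 h0
  set u : Fin n → ℂ := ((‖v‖⁻¹ : ℝ) : ℂ) • v with hu
  have hu1 : ‖u‖ = 1 := by
    rw [hu, norm_smul, Complex.norm_real, norm_inv, norm_norm, inv_mul_cancel₀ hv0.ne']
  have hvu : ((‖v‖ : ℝ) : ℂ) • u = v := by
    rw [hu, smul_smul, ← Complex.ofReal_mul, mul_inv_cancel₀ hv0.ne', Complex.ofReal_one, one_smul]
  have hg : Differentiable ℂ (fun c : ℂ => f (z + c • u)) := fun c =>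
    (ultra_line hf z u c).differentiableAt
  have key := ultra_taylor1 hg (C := C) (fun ζ hζ => hC _ (by
    refine (norm_add_le _ _).trans ?_
    rw [norm_smul, hu1, mul_one]
    linarith)) ((‖v‖ : ℝ) : ℂ) (by rw [Complex.norm_real, norm_norm]; exact hv)
  rw [(ultra_line hf z u 0).deriv, zero_smul, add_zero, hvu, Complex.norm_real, norm_norm] at key
  have h5 : fderiv ℂ f z u * ((‖v‖ : ℝ) : ℂ) = fderiv ℂ f z v := by
    rw [mul_comm, ← smul_eq_mul, ← map_smul, hvu]
  rwa [h5] at key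

/-- Cauchy estimate for the derivatives `D j`. -/
private lemma ultra_cauchy {n : ℕ} {f : (Fin n → ℂ) → ℂ} (hf : Differentiable ℂ f) {C : ℝ}
    (z : Fin n → ℂ) (hC : ∀ w, ‖w‖ ≤ ‖z‖ + 1 → ‖f w‖ ≤ C) (j : Fin n) : ‖D j f z‖ ≤ C := by
  have hg : Differentiable ℂ (fun c : ℂ => f (z + c • (Pi.single j 1 : Fin n → ℂ))) := fun c =>
    (ultra_line hf z _ c).differentiableAt
  have := Complex.norm_deriv_le_of_forall_mem_sphere_norm_le (c := 0) (R := 1) (C := C)
    (f := fun c : ℂ => f (z + c • (Pi.single j 1 : Fin n → ℂ))) one_pos hg.diffContOnCl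
    (fun y hy => hC _ (by
      have h1 : ‖y‖ = 1 := by simpa using hy
      refine (norm_add_le _ _).trans ?_
      rw [norm_smul, h1, one_mul, Pi.norm_single, norm_one]))
  rw [(ultra_line hf z _ 0).deriv, zero_smul, add_zero, div_one] at this
  exact this

private lemma ultra_bdd {E : Type*} [NormedAddCommGroup E] [ProperSpace E] (𝒰 : Ultrafilter ℕ)
    (a : ℕ → E) (C : ℝ) (h : ∀ᶠ k in (𝒰 : Filter ℕ), ‖a k‖ ≤ C) :
    ∃ x, Tendsto a 𝒰 (𝓝 x) := by
  obtain ⟨x, -, hx⟩ := (isCompact_closedBall (0 : E) C).ultrafilter_le_nhds (𝒰.map a) (by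
    rw [le_principal_iff, Ultrafilter.mem_coe, Ultrafilter.mem_map]
    filter_upwards [h] with k hk
    simpa using hk)
  exact ⟨x, hx⟩

private lemma ultra_step {n : ℕ} (𝒰 : Ultrafilter ℕ) (f : ℕ → (Fin n → ℂ) → ℂ)
    (hf : ∀ k, Differentiable ℂ (f k))
    (hb : ∀ R : ℝ, ∃ C : ℝ, ∀ᶠ k in (𝒰 : Filter ℕ), ∀ w, ‖w‖ ≤ R → ‖f k w‖ ≤ C) :
    ∃ F : (Fin n → ℂ) → ℂ, Differentiable ℂ F ∧
      (∀ z : Fin n → ℂ, Tendsto (fun k => f k z) 𝒰 (𝓝 (F z))) ∧
      ∀ (j : Fin n) (z : Fin n → ℂ), Tendsto (fun k => D j (f k) z) 𝒰 (𝓝 (D j F z)) := by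
  have h1 : ∀ z : Fin n → ℂ, ∃ x, Tendsto (fun k => f k z) 𝒰 (𝓝 x) := by
    intro z
    obtain ⟨C, hC⟩ := hb ‖z‖
    exact ultra_bdd 𝒰 _ C (by filter_upwards [hC] with k hk; exact hk z le_rfl)
  have h2 : ∀ (j : Fin n) (z : Fin n → ℂ), ∃ x, Tendsto (fun k => D j (f k) z) 𝒰 (𝓝 x) := by
    intro j z
    obtain ⟨C, hC⟩ := hb (‖z‖ + 1)
    exact ultra_bdd 𝒰 _ C (by filter_upwards [hC] with k hk; exact ultra_cauchy (hf k) z hk j)
  choose F hF using h1
  choose G hG using h2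
  have h3 : ∀ z, HasFDerivAt F (∑ j, G j z • (ContinuousLinearMap.proj j :
      (Fin n → ℂ) →L[ℂ] ℂ)) z := by
    intro z
    set A : (Fin n → ℂ) →L[ℂ] ℂ := ∑ j, G j z • (ContinuousLinearMap.proj j :
      (Fin n → ℂ) →L[ℂ] ℂ) with hA
    have hAv : ∀ v, A v = ∑ j, v j * G j z := by
      intro v
      rw [hA, sum_apply]
      refine Finset.sum_congr rfl fun j _ => ?_
      simp [mul_comm]
    obtain ⟨C, hC⟩ := hb (‖z‖ + 3)
    have h4 : ∀ v : Fin n → ℂ, ‖v‖ ≤ 1 → ‖F (z + v) - F z - A v‖ ≤ C * ‖v‖ ^ 2 := by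
      intro v hv
      have h5 : Tendsto (fun k => f k (z + v) - f k z - fderiv ℂ (f k) z v) 𝒰
          (𝓝 (F (z + v) - F z - A v)) := by
        refine ((hF (z + v)).sub (hF z)).sub ?_
        rw [hAv]
        have h6 : (fun k => fderiv ℂ (f k) z v) = fun k => ∑ j, v j * D j (f k) z := by
          funext k; exact fderiv_eq_sum (f k) z v
        rw [h6]
        exact tendsto_finsetSum _ fun j _ => (hG j z).const_mul _
      refine le_of_tendsto h5.norm ?_
      filter_upwards [hC] with k hk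
      exact ultra_taylor (hf k) z hk v hv
    rw [hasFDerivAt_iff_isLittleO_nhds_zero]
    have h7 : (fun v => F (z + v) - F z - A v) =O[𝓝 0] fun v : Fin n → ℂ => ‖v‖ ^ 2 := by
      refine Asymptotics.IsBigO.of_bound C ?_
      filter_upwards [Metric.closedBall_mem_nhds (0 : Fin n → ℂ) one_pos] with v hv
      have := h4 v (by simpa using hv)
      rwa [norm_pow, norm_norm]
    refine h7.trans_isLittleO ?_
    have h8 := Asymptotics.isLittleO_norm_pow_id (E' := Fin n → ℂ) (n := 2) one_lt_two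
    exact h8
  refine ⟨F, fun z => (h3 z).differentiableAt, hF, fun j z => ?_⟩
  have h9 : D j F z = G j z := by
    unfold D
    rw [(h3 z).fderiv, sum_apply, Finset.sum_eq_single j]
    · simp
    · intro i _ hij
      simp [hij]
    · simp
  rw [h9]
  exact hG j z

theorem ultra_lim {n : ℕ} (𝒰 : Ultrafilter ℕ) (f : ℕ → (Fin n → ℂ) → ℂ)
    (hf : ∀ k, Differentiable ℂ (f k))
    (hb : ∀ R : ℝ, ∃ C : ℝ, ∀ᶠ k in (𝒰 : Filter ℕ), ∀ w, ‖w‖ ≤ R → ‖f k w‖ ≤ C) :
    ∃ F : (Fin n → ℂ) → ℂ, Differentiable ℂ F ∧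
      ∀ (L : List (Fin n)) (z : Fin n → ℂ), Tendsto (fun k => DL L (f k) z) 𝒰 (𝓝 (DL L F z)) := by
  obtain ⟨F, hFd, hF, -⟩ := ultra_step 𝒰 f hf hb
  refine ⟨F, hFd, fun L => ?_⟩
  clear hFd
  induction L generalizing f F with
  | nil => exact hF
  | cons j L ih =>
    obtain ⟨F', -, hF1, hF2⟩ := ultra_step 𝒰 f hf hb
    have h1 : F' = F := by
      funext z
      exact tendsto_nhds_unique (hF1 z) (hF z)
    subst h1
    refine ih (fun k => D j (f k)) (fun k => differentiable_D (hf k) j) (fun R => ?_) (D j F')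
      (hF2 j)
    obtain ⟨C, hC⟩ := hb (R + 1)
    refine ⟨C, ?_⟩
    filter_upwards [hC] with k hk w hw
    exact ultra_cauchy (hf k) w (fun x hx => hk x (hx.trans (by linarith))) j

theorem coef_tendsto {n : ℕ} (𝒰 : Ultrafilter ℕ) (Q : ℕ → MvPolynomial (Fin n) ℂ)
    (q : MvPolynomial (Fin n) ℂ) (m : ℕ) (hdeg : ∀ k, (Q k).totalDegree ≤ m)
    (h : ∀ w, Tendsto (fun k => eval w (Q k)) 𝒰 (𝓝 (eval w q))) (s : Fin n →₀ ℕ) :
    Tendsto (fun k => (Q k).coeff s) 𝒰 (𝓝 (q.coeff s)) := by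
  classical
  set M : ℕ := max m q.totalDegree with hM
  set T : Finset (Fin n →₀ ℕ) := Finset.Iic (Finsupp.equivFunOnFinite.symm fun _ => M) with hT
  have hsup : ∀ P : MvPolynomial (Fin n) ℂ, P.totalDegree ≤ M → P.support ⊆ T := by
    intro P hP t ht
    rw [hT, Finset.mem_Iic]
    intro i
    change t i ≤ M
    have h1 : t i ≤ t.degree := Finsupp.le_degree i t
    have h2 : t.degree ≤ P.totalDegree := by
      have := le_totalDegree ht
      rwa [Finsupp.degree_apply]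
    exact h1.trans (h2.trans hP)
  set E : (T → ℂ) →ₗ[ℂ] ((Fin n → ℂ) → ℂ) :=
    { toFun := fun c w => ∑ t : T, c t * ∏ i, w i ^ (t : Fin n →₀ ℕ) i
      map_add' := fun c d => by
        funext w
        simp only [Pi.add_apply, add_mul, Finset.sum_add_distrib]
      map_smul' := fun c d => by
        funext w
        simp only [Pi.smul_apply, smul_eq_mul, RingHom.id_apply, Finset.mul_sum, mul_assoc] } with hE
  have hEP : ∀ P : MvPolynomial (Fin n) ℂ, P.totalDegree ≤ M →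
      E (fun t => P.coeff t) = fun w => eval w P := by
    intro P hP
    funext w
    change ∑ t : T, P.coeff t * ∏ i, w i ^ (t : Fin n →₀ ℕ) i = _
    rw [MvPolynomial.eval_eq', Finset.sum_coe_sort T (fun t => P.coeff t * ∏ i, w i ^ t i)]
    symm
    refine Finset.sum_subset (hsup P hP) fun t _ ht => ?_
    rw [notMem_support_iff.1 ht, zero_mul]
  have hinj : LinearMap.ker E = ⊥ := by
    rw [LinearMap.ker_eq_bot']
    intro c hc
    set P : MvPolynomial (Fin n) ℂ := ∑ t : T, monomial (t : Fin n →₀ ℕ) (c t) with hP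
    have h0 : P = 0 := by
      refine MvPolynomial.funext fun w => ?_
      have h1 := congrFun hc w
      rw [hP, map_sum, map_zero]
      change ∑ t : T, c t * ∏ i, w i ^ (t : Fin n →₀ ℕ) i = 0 at h1
      rw [← h1]
      refine Finset.sum_congr rfl fun t _ => ?_
      rw [eval_monomial, Finsupp.prod_fintype _ _ (fun i => pow_zero _)]
    funext t
    have h2 : P.coeff t = c t := by
      rw [hP, coeff_sum, Finset.sum_eq_single t]
      · simp
      · intro t' _ hne
        rw [coeff_monomial, if_neg]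
        exact fun h => hne (Subtype.ext h)
      · simp
    rw [← h2, h0]
    simp
  have hemb := LinearMap.isClosedEmbedding_of_injective hinj
  have h3 : Tendsto (fun k => (fun t : T => (Q k).coeff t)) 𝒰 (𝓝 (fun t : T => q.coeff t)) := by
    rw [hemb.isInducing.tendsto_nhds_iff, tendsto_pi_nhds]
    intro w
    rw [hEP q (le_max_right _ _)]
    refine (h w).congr fun k => ?_
    have := hEP (Q k) ((hdeg k).trans (le_max_left _ _))
    exact (congrFun this w).symm
  by_cases hs : s ∈ T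
  · exact (tendsto_pi_nhds.1 h3) ⟨s, hs⟩
  · have h4 : ∀ P : MvPolynomial (Fin n) ℂ, P.totalDegree ≤ M → P.coeff s = 0 := fun P hP =>
      notMem_support_iff.1 fun h => hs (hsup P hP h)
    rw [h4 q (le_max_right _ _)]
    refine tendsto_const_nhds.congr fun k => ?_
    exact (h4 (Q k) ((hdeg k).trans (le_max_left _ _))).symm

/-- `Q(D)` and a shift in phase space. -/
theorem conj_shift {n : ℕ} (Q Q' : MvPolynomial (Fin n) ℂ) (b Y : Fin n → ℂ)
    (hQ : ∀ w, eval w Q' = eval (Y + w) Q) {h f : (Fin n → ℂ) → ℂ} (hh : Differentiable ℂ h)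
    (hf : Differentiable ℂ f) (he : ∀ w, h (b + w) = Complex.exp (dt Y w) * f w)
    (w : Fin n → ℂ) :
    QD Q 1 h (b + w) = Complex.exp (dt Y w) * QD Q' 1 f w := by
  set H : Ent n := ⟨h, hh⟩ with hH
  set F : Ent n := ⟨f, hf⟩ with hF
  have hdt : ∀ x : Fin n → ℂ, (expo Y).1 x = Complex.exp (dt Y x) := by
    intro x
    change Complex.exp (∑ j, x j * Y j) = _
    unfold dt
    congr 1
    exact Finset.sum_congr rfl fun j _ => mul_comm _ _
  have h1 : trE b H = mexp Y F := by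
    apply Subtype.ext
    funext x
    change h (x + b) = (expo Y).1 x * f x
    rw [hdt, add_comm, he]
  have h2 : QDE Q (trE b H) = mexp Y (QDE Q' F) := by
    rw [h1, QDE_mexp Q Q' Y hQ]
  rw [QDE_trE] at h2
  have h3 := congrFun (congrArg Subtype.val h2) w
  change (QDE Q H).1 (w + b) = (expo Y).1 w * (QDE Q' F).1 w at h3
  rw [QDE_eq, QDE_eq, hdt, add_comm] at h3
  exact h3

end Pool.Agent.H77.N2
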