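import Pool.Agent.H77.N2.Theta

/-!
Profile part of the module UPPER: expansion of the transverse profile when the parameters and the
radius move (real numbers only).
-/

open Finset

namespace Pool.Agent.H77.N2.Ut

open Pool.Agent.H77.N2.Th

/-- difference of squares -/
lemma sq_diff_bound {M ρ ρ' ρ₀ : ℝ} (hM : 0 < M) (hρ : 0 ≤ ρ) (hρ₀ : 0 ≤ ρ₀)
    (h : |ρ' - ρ| ≤ M * ρ₀) : |ρ' ^ 2 - ρ ^ 2| ≤ M * ρ₀ * (2 * ρ + M * ρ₀) := by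
  have h1 : ρ' ^ 2 - ρ ^ 2 = (ρ' - ρ) * (2 * ρ + (ρ' - ρ)) := by ring
  rw [h1, abs_mul]
  have h2 : |2 * ρ + (ρ' - ρ)| ≤ 2 * ρ + M * ρ₀ := by
    calc |2 * ρ + (ρ' - ρ)| ≤ |2 * ρ| + |ρ' - ρ| := abs_add_le _ _
      _ ≤ 2 * ρ + M * ρ₀ := by rw [abs_of_nonneg (by linarith : 0 ≤ 2 * ρ)]; linarith
  have h3 : 0 ≤ M * ρ₀ := by positivity
  gcongr

lemma root_le {ρ r n : ℝ} (hρ : 0 ≤ ρ) (hr : 0 < r) (nsq : n ^ 2 = ρ ^ 2 + r ^ 2) :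
    n ≤ ρ + r := by
  apply le_of_pow_le_pow_left₀ (two_ne_zero) (by positivity)
  rw [nsq]
  nlinarith [mul_nonneg hρ hr.le]

lemma delta_bound {A A' a M u : ℝ} (hM : 0 < M) (hA : 0 ≤ A) (hu0 : 0 ≤ u) (hu1 : u ≤ 1)
    (ha' : |A' - A - a| ≤ M * A * u ^ 2) (ha : |a| ≤ M * A * u) : |A' - A| ≤ 2 * M * A * u := by
  have h1 : A' - A = (A' - A - a) + a := by ring
  rw [h1]
  have h2 : M * A * u ^ 2 ≤ M * A * u := by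
    have h3 : u ^ 2 ≤ u := by nlinarith
    gcongr
  linarith [abs_add_le (A' - A - a) a]

/-- one term of the profile; `u = ρ₀ / τ` -/
lemma term_upper {A A' r r' a b ρ ρ' τ ρ₀ M K u n : ℝ} (hM : 0 < M) (hK : 1 ≤ K)
    (hA : 0 ≤ A) (hA' : 0 ≤ A') (hr : 0 < r) (hAr : A ≤ 2 * r) (hrτ : r ≤ K * τ)
    (hρ : 0 ≤ ρ) (hρτ : ρ ≤ 8 * τ) (hρρ : |ρ' - ρ| ≤ M * ρ₀) (hρ₀ : 1 ≤ ρ₀)
    (hu0 : 0 ≤ u) (hu1 : u ≤ 1) (huτ : u * τ = ρ₀)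
    (ha' : |A' - A - a| ≤ M * A * u ^ 2) (ha : |a| ≤ M * A * u)
    (hb' : |r' - r - b| ≤ M * r * u ^ 2) (hb : |b| ≤ M * r * u)
    (hn : n = √(ρ ^ 2 + r ^ 2)) :
    A' * (√(ρ' ^ 2 + r' ^ 2) - r') ≤ A * (n - r) + A / n * ((ρ' ^ 2 - ρ ^ 2) / 2)
      + (a * (n - r) - A * b * (1 - r / n))
      + (2 * M * K ^ 2 + 4 * M ^ 2 * K ^ 2 + 16 * M * K + 2 * M ^ 2 * (16 + M)
        + 8 * M ^ 2 * K ^ 2 + 8 * M ^ 3 * K ^ 2) * ρ₀ ^ 2 := by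
  obtain ⟨n0, nr, nρ, nsq⟩ := sq_bound hr ρ
  rw [← hn] at n0 nr nρ nsq
  have hρ₀' : 0 < ρ₀ := by linarith
  -- the basic small quantities
  have hru : r * u ≤ K * ρ₀ := by
    calc r * u ≤ (K * τ) * u := by gcongr
      _ = K * ρ₀ := by rw [← huτ]; ring
  have hru0 : 0 ≤ r * u := by positivity
  have hru2 : (r * u) ^ 2 ≤ K ^ 2 * ρ₀ ^ 2 := by
    calc (r * u) ^ 2 ≤ (K * ρ₀) ^ 2 := by gcongr
      _ = _ := by ring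
  have hρu : ρ * u ≤ 8 * ρ₀ := by
    calc ρ * u ≤ (8 * τ) * u := by gcongr
      _ = 8 * ρ₀ := by rw [← huτ]; ring
  have hρ₀u : ρ₀ * u ≤ ρ₀ := mul_le_of_le_one_right hρ₀'.le hu1
  have q1' : r / n ≤ 1 := by rw [div_le_one n0]; exact nr
  have q2' : 0 ≤ r / n := by positivity
  have q0 : 0 ≤ 1 - r / n := by linarith
  have q1 : 1 - r / n ≤ 1 := by linarith
  have hAn : A / n ≤ 2 := by
    rw [div_le_iff₀ n0]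
    linarith
  have hAn0 : 0 ≤ A / n := by positivity
  have hδA := delta_bound hM hA hu0 hu1 ha' ha
  have hδr := delta_bound hM hr.le hu0 hu1 hb' hb
  have hsq := sq_diff_bound hM hρ hρ₀'.le hρρ
  -- concavity
  have hconc : √(ρ' ^ 2 + r' ^ 2) - r' ≤ (n - r) + (ρ' ^ 2 - ρ ^ 2) / (2 * n)
      - (r' - r) * (1 - r / n) + (r' - r) ^ 2 / (2 * n) := by
    have h1 := sqrt_concave (a := ρ ^ 2 + r ^ 2) (a' := ρ' ^ 2 + r' ^ 2)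
      (by positivity) (by positivity)
    rw [← hn] at h1
    have h2 : n + (ρ' ^ 2 + r' ^ 2 - (ρ ^ 2 + r ^ 2)) / (2 * n) - r'
        = (n - r) + (ρ' ^ 2 - ρ ^ 2) / (2 * n)
      - (r' - r) * (1 - r / n) + (r' - r) ^ 2 / (2 * n) := by
      field_simp
      ring
    linarith
  have hmul := mul_le_mul_of_nonneg_left hconc hA'
  refine hmul.trans ?_
  -- the six errors
  have E1 : |A * ((r' - r) - b) * (1 - r / n)| ≤ 2 * M * K ^ 2 * ρ₀ ^ 2 := by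
    rw [abs_mul, abs_mul, abs_of_nonneg hA, abs_of_nonneg q0]
    calc A * |r' - r - b| * (1 - r / n) ≤ (2 * r) * (M * r * u ^ 2) * 1 := by
          gcongr
      _ = 2 * M * (r * u) ^ 2 := by ring
      _ ≤ 2 * M * (K ^ 2 * ρ₀ ^ 2) := by gcongr
      _ = _ := by ring
  have E2 : |A / n * ((r' - r) ^ 2 / 2)| ≤ 4 * M ^ 2 * K ^ 2 * ρ₀ ^ 2 := by
    rw [abs_mul, abs_of_nonneg hAn0, abs_div, abs_pow, abs_of_pos (by norm_num : (0:ℝ) < 2)]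
    calc A / n * (|r' - r| ^ 2 / 2) ≤ 2 * ((2 * M * r * u) ^ 2 / 2) := by gcongr
      _ = 4 * M ^ 2 * (r * u) ^ 2 := by ring
      _ ≤ 4 * M ^ 2 * (K ^ 2 * ρ₀ ^ 2) := by gcongr
      _ = _ := by ring
  have E3 : |(A' - A - a) * (n - r)| ≤ 16 * M * K * ρ₀ ^ 2 := by
    have h1 : 0 ≤ n - r := by linarith
    have h2 : n - r ≤ ρ := by
      have := root_le hρ hr nsq
      linarith
    rw [abs_mul, abs_of_nonneg h1]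
    calc |A' - A - a| * (n - r) ≤ (M * A * u ^ 2) * ρ := by gcongr
      _ ≤ (M * (2 * r) * u ^ 2) * ρ := by gcongr
      _ = 2 * M * (r * u) * (ρ * u) := by ring
      _ ≤ 2 * M * (K * ρ₀) * (8 * ρ₀) := by gcongr
      _ = _ := by ring
  have E4 : |(A' - A) / n * ((ρ' ^ 2 - ρ ^ 2) / 2)| ≤ 2 * M ^ 2 * (16 + M) * ρ₀ ^ 2 := by
    rw [abs_mul, abs_div, abs_div, abs_of_pos n0, abs_of_pos (by norm_num : (0:ℝ) < 2)]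
    have h1 : |A' - A| / n ≤ 4 * M * u := by
      rw [div_le_iff₀ n0]
      calc |A' - A| ≤ 2 * M * A * u := hδA
        _ ≤ 2 * M * (2 * n) * u := by
            have : A ≤ 2 * n := by linarith
            gcongr
        _ = _ := by ring
    calc |A' - A| / n * (|ρ' ^ 2 - ρ ^ 2| / 2)
        ≤ (4 * M * u) * (M * ρ₀ * (2 * ρ + M * ρ₀) / 2) := by gcongr
      _ = 2 * M ^ 2 * ρ₀ * (2 * (ρ * u) + M * (ρ₀ * u)) := by ring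
      _ ≤ 2 * M ^ 2 * ρ₀ * (2 * (8 * ρ₀) + M * ρ₀) := by gcongr
      _ = _ := by ring
  have E5 : |(A' - A) * (r' - r) * (1 - r / n)| ≤ 8 * M ^ 2 * K ^ 2 * ρ₀ ^ 2 := by
    rw [abs_mul, abs_mul, abs_of_nonneg q0]
    calc |A' - A| * |r' - r| * (1 - r / n) ≤ (2 * M * (2 * r) * u) * (2 * M * r * u) * 1 := by
          have h1 : |A' - A| ≤ 2 * M * (2 * r) * u := hδA.trans (by gcongr)
          gcongr
      _ = 8 * M ^ 2 * (r * u) ^ 2 := by ring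
      _ ≤ 8 * M ^ 2 * (K ^ 2 * ρ₀ ^ 2) := by gcongr
      _ = _ := by ring
  have E6 : |(A' - A) / n * ((r' - r) ^ 2 / 2)| ≤ 8 * M ^ 3 * K ^ 2 * ρ₀ ^ 2 := by
    rw [abs_mul, abs_div, abs_of_pos n0, abs_div, abs_pow, abs_of_pos (by norm_num : (0:ℝ) < 2)]
    have h1 : |A' - A| / n ≤ 4 * M := by
      rw [div_le_iff₀ n0]
      calc |A' - A| ≤ 2 * M * A * u := hδA
        _ ≤ 2 * M * (2 * n) * 1 := by
            have : A ≤ 2 * n := by linarith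
            gcongr
        _ = _ := by ring
    calc |A' - A| / n * (|r' - r| ^ 2 / 2)
        ≤ (4 * M) * ((2 * M * r * u) ^ 2 / 2) := by gcongr
      _ = 8 * M ^ 3 * (r * u) ^ 2 := by ring
      _ ≤ 8 * M ^ 3 * (K ^ 2 * ρ₀ ^ 2) := by gcongr
      _ = _ := by ring
  have hsplit : A' * ((n - r) + (ρ' ^ 2 - ρ ^ 2) / (2 * n)
      - (r' - r) * (1 - r / n) + (r' - r) ^ 2 / (2 * n))
      = A * (n - r) + A / n * ((ρ' ^ 2 - ρ ^ 2) / 2)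
      + (a * (n - r) - A * b * (1 - r / n))
      + (-(A * ((r' - r) - b) * (1 - r / n)) + A / n * ((r' - r) ^ 2 / 2)
        + (A' - A - a) * (n - r) + (A' - A) / n * ((ρ' ^ 2 - ρ ^ 2) / 2)
        - (A' - A) * (r' - r) * (1 - r / n) + (A' - A) / n * ((r' - r) ^ 2 / 2)) := by
    field_simp
    ring
  rw [hsplit]
  have e1 := (abs_le.1 E1).1
  have e2 := (abs_le.1 E2).2
  have e3 := (abs_le.1 E3).2
  have e4 := (abs_le.1 E4).2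
  have e5 := (abs_le.1 E5).1
  have e6 := (abs_le.1 E6).2
  linarith

lemma amp_le_rad {N l : ℕ} {κ R₀ Q S : ℝ} (h : ThPar N κ R₀ Q S) (hl : l < N) :
    amp N κ R₀ Q S l ≤ 2 * rad κ R₀ Q l := by
  have hr := rad_pos h.hκ h.hR₀ h.hQ l
  have hS := h.hS
  have h1 : lam N S l ≤ 39 / 25 := by
    have h2 : S ^ l ≤ bb N ^ l := pow_le_pow_left₀ hS.le (lt_bb h.hN h.hS1).le l
    have h3 : 0 ≤ bb N ^ (N - l) := by
      have := bb_ge_one N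
      positivity
    rw [lam]
    calc 13 / 10 * bb N ^ (N - l) * S ^ l ≤ 13 / 10 * bb N ^ (N - l) * bb N ^ l := by gcongr
      _ = 13 / 10 * bb N ^ N := by
          rw [mul_assoc, ← pow_add, show N - l + l = N by omega]
      _ = 39 / 25 := by rw [bb_pow h.hN]; norm_num
  have h4 := lam_nonneg (N := N) hS (l + 1)
  rw [amp_eq hl]
  gcongr
  linarith

lemma rad_le {N l : ℕ} {κ R₀ Q S : ℝ} (h : ThPar N κ R₀ Q S) (hl : l < N)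
    (hQS : Q * S ≤ 2 * Q) : rad κ R₀ Q l ≤ 2 * κ * Q ^ N := by
  have hR := h.hR₀
  have hκ := h.hκ
  have hQ := h.hQ
  have hQN : 0 < Q ^ N := by positivity
  rw [rad]
  split_ifs with h0
  · have h1 : R₀ ≤ R₀ ^ 2 := by nlinarith
    have h2 : Q ≤ Q ^ N := by
      calc Q = Q ^ 1 := (pow_one _).symm
        _ ≤ Q ^ N := pow_le_pow_right₀ hQ h.hN
    have h3 := h.hR₀π
    nlinarith
  · have h1 : Q ^ l ≤ Q ^ N := pow_le_pow_right₀ hQ hl.le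
    calc κ * Q ^ l ≤ κ * Q ^ N := by gcongr
      _ ≤ 2 * κ * Q ^ N := by nlinarith

/-- the part `13/20 S^N ρ²` -/
lemma top_upper {SN SN' s ρ ρ' τ ρ₀ M u : ℝ} (hM : 0 < M) (hSN : 0 ≤ SN) (hSN1 : SN ≤ 2)
    (hρ : 0 ≤ ρ) (hρτ : ρ ≤ 8 * τ) (hρρ : |ρ' - ρ| ≤ M * ρ₀) (hρ₀ : 1 ≤ ρ₀)
    (hu0 : 0 ≤ u) (hu1 : u ≤ 1) (huτ : u * τ = ρ₀)
    (hs' : |SN' - SN - s| ≤ M * SN * u ^ 2) (hs : |s| ≤ M * SN * u) :
    13 / 20 * SN' * ρ' ^ 2 ≤ 13 / 20 * SN * ρ ^ 2 + 13 / 10 * SN * ((ρ' ^ 2 - ρ ^ 2) / 2)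
      + 13 / 20 * s * ρ ^ 2 + (128 * M + 4 * M ^ 2 * (16 + M)) * ρ₀ ^ 2 := by
  have hρ₀' : 0 < ρ₀ := by linarith
  have hρu : ρ * u ≤ 8 * ρ₀ := by
    calc ρ * u ≤ (8 * τ) * u := by gcongr
      _ = 8 * ρ₀ := by rw [← huτ]; ring
  have hρ₀u : ρ₀ * u ≤ ρ₀ := mul_le_of_le_one_right hρ₀'.le hu1
  have hδ := delta_bound hM hSN hu0 hu1 hs' hs
  have hsq := sq_diff_bound hM hρ hρ₀'.le hρρ
  have E1 : |(SN' - SN - s) * ρ ^ 2| ≤ 128 * M * ρ₀ ^ 2 := by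
    rw [abs_mul, abs_of_nonneg (by positivity : 0 ≤ ρ ^ 2)]
    calc |SN' - SN - s| * ρ ^ 2 ≤ (M * SN * u ^ 2) * ρ ^ 2 := by gcongr
      _ ≤ (M * 2 * u ^ 2) * ρ ^ 2 := by gcongr
      _ = 2 * M * (ρ * u) ^ 2 := by ring
      _ ≤ 2 * M * (8 * ρ₀) ^ 2 := by gcongr
      _ = _ := by ring
  have E2 : |(SN' - SN) * (ρ' ^ 2 - ρ ^ 2)| ≤ 4 * M ^ 2 * (16 + M) * ρ₀ ^ 2 := by
    rw [abs_mul]
    calc |SN' - SN| * |ρ' ^ 2 - ρ ^ 2| ≤ (2 * M * SN * u) * (M * ρ₀ * (2 * ρ + M * ρ₀)) := by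
          gcongr
      _ ≤ (2 * M * 2 * u) * (M * ρ₀ * (2 * ρ + M * ρ₀)) := by gcongr
      _ = 4 * M ^ 2 * ρ₀ * (2 * (ρ * u) + M * (ρ₀ * u)) := by ring
      _ ≤ 4 * M ^ 2 * ρ₀ * (2 * (8 * ρ₀) + M * ρ₀) := by gcongr
      _ = _ := by ring
  have hsplit : 13 / 20 * SN' * ρ' ^ 2 = 13 / 20 * SN * ρ ^ 2
      + 13 / 10 * SN * ((ρ' ^ 2 - ρ ^ 2) / 2) + 13 / 20 * s * ρ ^ 2
      + 13 / 20 * ((SN' - SN - s) * ρ ^ 2 + (SN' - SN) * (ρ' ^ 2 - ρ ^ 2)) := by ring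
  rw [hsplit]
  have e1 := (abs_le.1 E1).2
  have e2 := (abs_le.1 E2).2
  have p1 : 0 ≤ 128 * M * ρ₀ ^ 2 := by positivity
  have p2 : 0 ≤ 4 * M ^ 2 * (16 + M) * ρ₀ ^ 2 := by positivity
  linarith

/-- The expansion of the profile. -/
theorem th_upper (N : ℕ) {κ M : ℝ} (hκ : 1 ≤ κ) (hM : 0 < M) : ∃ M' : ℝ, 0 < M' ∧
    ∀ (R₀ Q S Q' S' ρ ρ' ρ₀ s : ℝ) (a r : ℕ → ℝ), ThPar N κ R₀ Q S →
    (∀ l < N, 0 ≤ amp N κ R₀ Q' S' l) →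
    Q * S ≤ 2 * Q → 0 ≤ ρ → ρ ≤ 8 * Q ^ N → 1 ≤ ρ₀ → ρ₀ ≤ Q ^ N → |ρ' - ρ| ≤ M * ρ₀ →
    |s| ≤ M * S ^ N * (ρ₀ / Q ^ N) → |S' ^ N - S ^ N - s| ≤ M * S ^ N * (ρ₀ / Q ^ N) ^ 2 →
    (∀ l < N, |a l| ≤ M * amp N κ R₀ Q S l * (ρ₀ / Q ^ N)) →
    (∀ l < N, |amp N κ R₀ Q' S' l - amp N κ R₀ Q S l - a l|
      ≤ M * amp N κ R₀ Q S l * (ρ₀ / Q ^ N) ^ 2) →
    (∀ l < N, |r l| ≤ M * rad κ R₀ Q l * (ρ₀ / Q ^ N)) →
    (∀ l < N, |rad κ R₀ Q' l - rad κ R₀ Q l - r l|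
      ≤ M * rad κ R₀ Q l * (ρ₀ / Q ^ N) ^ 2) →
    TH N κ R₀ Q' S' ρ' ≤ TH N κ R₀ Q S ρ + LA N κ R₀ Q S ρ * ((ρ' ^ 2 - ρ ^ 2) / 2)
      + (13 / 20 * s * ρ ^ 2 + ∑ l ∈ range N,
        (a l * (√(ρ ^ 2 + rad κ R₀ Q l ^ 2) - rad κ R₀ Q l)
          - amp N κ R₀ Q S l * r l * (1 - rad κ R₀ Q l / √(ρ ^ 2 + rad κ R₀ Q l ^ 2))))
      + M' * ρ₀ ^ 2 := by
  obtain ⟨M₁, hM₁⟩ : ∃ M₁ : ℝ, M₁ = 2 * M * (2 * κ) ^ 2 + 4 * M ^ 2 * (2 * κ) ^ 2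
    + 16 * M * (2 * κ) + 2 * M ^ 2 * (16 + M) + 8 * M ^ 2 * (2 * κ) ^ 2
    + 8 * M ^ 3 * (2 * κ) ^ 2 := ⟨_, rfl⟩
  have hM₁0 : 0 < M₁ := by rw [hM₁]; positivity
  refine ⟨N * M₁ + (128 * M + 4 * M ^ 2 * (16 + M)), by positivity, ?_⟩
  intro R₀ Q S Q' S' ρ ρ' ρ₀ s a r h h' hQS hρ hρQ hρ₀ hρ₀Q hρρ hs hs' ha ha' hr hr'
  have hQ := h.hQ
  have hS := h.hS
  have hQN : 0 < Q ^ N := by positivity
  have hu0 : 0 ≤ ρ₀ / Q ^ N := by positivity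
  have hu1 : ρ₀ / Q ^ N ≤ 1 := by rw [div_le_one hQN]; exact hρ₀Q
  have huτ : ρ₀ / Q ^ N * Q ^ N = ρ₀ := by field_simp
  have h1 := top_upper (SN := S ^ N) (SN' := S' ^ N) (s := s) (ρ' := ρ') (τ := Q ^ N) hM
    (by positivity) (by linarith [h.hS1]) hρ hρQ hρρ hρ₀ hu0 hu1 huτ hs' hs
  have h2 : ∑ l ∈ range N,
      amp N κ R₀ Q' S' l * (√(ρ' ^ 2 + rad κ R₀ Q' l ^ 2) - rad κ R₀ Q' l)
      ≤ ∑ l ∈ range N, (amp N κ R₀ Q S l * (√(ρ ^ 2 + rad κ R₀ Q l ^ 2) - rad κ R₀ Q l)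
        + amp N κ R₀ Q S l / √(ρ ^ 2 + rad κ R₀ Q l ^ 2) * ((ρ' ^ 2 - ρ ^ 2) / 2)
        + (a l * (√(ρ ^ 2 + rad κ R₀ Q l ^ 2) - rad κ R₀ Q l)
          - amp N κ R₀ Q S l * r l * (1 - rad κ R₀ Q l / √(ρ ^ 2 + rad κ R₀ Q l ^ 2)))
        + M₁ * ρ₀ ^ 2) := by
    apply Finset.sum_le_sum
    intro l hl
    rw [Finset.mem_range] at hl
    have := term_upper (A := amp N κ R₀ Q S l) (A' := amp N κ R₀ Q' S' l) (r := rad κ R₀ Q l)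
      (r' := rad κ R₀ Q' l) (a := a l) (b := r l) (ρ := ρ) (ρ' := ρ') (τ := Q ^ N) (ρ₀ := ρ₀)
      (K := 2 * κ) hM (by linarith) (amp_nonneg h l) (h' l hl)
      (rad_pos h.hκ h.hR₀ h.hQ l) (amp_le_rad h hl) (rad_le h hl hQS) hρ hρQ hρρ hρ₀ hu0 hu1
      huτ (ha' l hl) (ha l hl) (hr' l hl) (hr l hl) rfl
    rw [← hM₁] at this
    exact this
  rw [Finset.sum_add_distrib, Finset.sum_add_distrib, Finset.sum_add_distrib, ← Finset.sum_mul,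
    Finset.sum_const, Finset.card_range, nsmul_eq_mul] at h2
  rw [TH, TH, LA]
  linarith

/-- The size of the coefficient of `wt`. -/
theorem th_size {N : ℕ} {κ R₀ Q S ρ M : ℝ} (h : ThPar N κ R₀ Q S) (hM : 0 ≤ M)
    (s : ℂ) (a r : ℕ → ℂ) (hs : ‖s‖ ≤ M * S ^ N / Q ^ N)
    (ha : ∀ l < N, ‖a l‖ ≤ M * amp N κ R₀ Q S l / Q ^ N)
    (hr : ∀ l < N, ‖r l‖ ≤ M * rad κ R₀ Q l / Q ^ N) :
    ‖13 / 20 * s * (ρ ^ 2 : ℝ) + ∑ l ∈ range N,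
        (a l * (√(ρ ^ 2 + rad κ R₀ Q l ^ 2) - rad κ R₀ Q l : ℝ)
          - (amp N κ R₀ Q S l : ℝ) * r l *
            (1 - rad κ R₀ Q l / √(ρ ^ 2 + rad κ R₀ Q l ^ 2) : ℝ))‖
      ≤ 2 * M * (ρ * LA N κ R₀ Q S ρ) * (ρ / Q ^ N) := by
  have hQ := h.hQ
  have hS := h.hS
  have hQN : 0 < Q ^ N := by positivity
  have h1 : ‖13 / 20 * s * (ρ ^ 2 : ℝ)‖ ≤ 2 * M * (13 / 10 * S ^ N * ρ) * (ρ / Q ^ N) := by
    rw [norm_mul, norm_mul, Complex.norm_real, Real.norm_of_nonneg (by positivity : 0 ≤ ρ ^ 2)]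
    have e : ‖(13 / 20 : ℂ)‖ = 13 / 20 := by
      rw [norm_div, Complex.norm_ofNat, Complex.norm_ofNat]
    rw [e]
    have h2 : 0 ≤ M * S ^ N / Q ^ N * ρ ^ 2 := by positivity
    calc 13 / 20 * ‖s‖ * ρ ^ 2 ≤ 13 / 20 * (M * S ^ N / Q ^ N) * ρ ^ 2 := by gcongr
      _ ≤ 26 / 10 * (M * S ^ N / Q ^ N * ρ ^ 2) := by nlinarith
      _ = _ := by ring
  have h2 : ∀ l ∈ range N, ‖a l * (√(ρ ^ 2 + rad κ R₀ Q l ^ 2) - rad κ R₀ Q l : ℝ)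
          - (amp N κ R₀ Q S l : ℝ) * r l *
            (1 - rad κ R₀ Q l / √(ρ ^ 2 + rad κ R₀ Q l ^ 2) : ℝ)‖
      ≤ 2 * M * (ρ / Q ^ N) * (amp N κ R₀ Q S l * (ρ / √(ρ ^ 2 + rad κ R₀ Q l ^ 2))) := by
    intro l hl
    rw [Finset.mem_range] at hl
    have hr0 := rad_pos h.hκ h.hR₀ h.hQ l
    obtain ⟨n0, nr, nρ, nsq⟩ := sq_bound hr0 ρ
    obtain ⟨n, hn⟩ : ∃ n : ℝ, n = √(ρ ^ 2 + rad κ R₀ Q l ^ 2) := ⟨_, rfl⟩
    obtain ⟨A, hA⟩ : ∃ A : ℝ, A = amp N κ R₀ Q S l := ⟨_, rfl⟩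
    obtain ⟨R, hR⟩ : ∃ R : ℝ, R = rad κ R₀ Q l := ⟨_, rfl⟩
    have hA0 := amp_nonneg h l
    have ha1 := ha l hl
    have hr1 := hr l hl
    rw [← hn] at n0 nr nρ nsq ⊢
    rw [← hR] at nr nsq hr1 hr0 ⊢
    rw [← hA] at hA0 ha1 ⊢
    have q0 : 0 ≤ n - R := by linarith
    have q1 : n - R ≤ ρ ^ 2 / n := by
      rw [le_div_iff₀ n0]
      nlinarith
    have q2 : 0 ≤ 1 - R / n := by
      have : R / n ≤ 1 := by rw [div_le_one n0]; exact nr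
      linarith
    have q3 : R * (1 - R / n) ≤ ρ ^ 2 / n := by
      have e1 : R * (1 - R / n) = (R / n) * (n - R) := by field_simp
      have e2 : R / n ≤ 1 := by rw [div_le_one n0]; exact nr
      rw [e1]
      calc R / n * (n - R) ≤ 1 * (n - R) := by gcongr
        _ ≤ _ := by linarith
    have b1 : ‖a l * (n - R : ℝ)‖ ≤ M * (ρ / Q ^ N) * (A * (ρ / n)) := by
      rw [norm_mul, Complex.norm_real, Real.norm_of_nonneg q0]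
      calc ‖a l‖ * (n - R) ≤ (M * A / Q ^ N) * (ρ ^ 2 / n) := by gcongr
        _ = _ := by ring
    have b2 : ‖(A : ℝ) * r l * (1 - R / n : ℝ)‖ ≤ M * (ρ / Q ^ N) * (A * (ρ / n)) := by
      rw [norm_mul, norm_mul, Complex.norm_real, Complex.norm_real, Real.norm_of_nonneg q2,
        Real.norm_of_nonneg hA0]
      calc A * ‖r l‖ * (1 - R / n) ≤ A * (M * R / Q ^ N) * (1 - R / n) := by gcongr
        _ = (M * A / Q ^ N) * (R * (1 - R / n)) := by ring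
        _ ≤ (M * A / Q ^ N) * (ρ ^ 2 / n) := by gcongr
        _ = _ := by ring
    have := norm_sub_le (a l * (n - R : ℝ)) ((A : ℝ) * r l * (1 - R / n : ℝ))
    linarith
  have h3 := (norm_sum_le _ _).trans (Finset.sum_le_sum h2)
  rw [← Finset.mul_sum] at h3
  refine (norm_add_le _ _).trans ?_
  rw [mul_LA_eq]
  have e : 2 * M * (13 / 10 * S ^ N * ρ + ∑ l ∈ range N, amp N κ R₀ Q S l
      * (ρ / √(ρ ^ 2 + rad κ R₀ Q l ^ 2))) * (ρ / Q ^ N)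
      = 2 * M * (13 / 10 * S ^ N * ρ) * (ρ / Q ^ N) + 2 * M * (ρ / Q ^ N) *
        ∑ l ∈ range N, amp N κ R₀ Q S l * (ρ / √(ρ ^ 2 + rad κ R₀ Q l ^ 2)) := by ring
  rw [e]
  exact add_le_add h1 h3

end Pool.Agent.H77.N2.Ut
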